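import Mathlib
import Pool.Agent.H729R2.CB.Defs

set_option autoImplicit false

namespace Pool.Agent.H729R2.FO

open MeasureTheory Pool.Agent.H729R2.CB

open scoped Classical

noncomputable section

/-- convolution with `F` -/
def Fc (F u : G → ℝ) (x : G) : ℝ := ∫ t, u t * F (x - t) ∂hm

/-- a function concentrated at scale `s` around `0` -/
structure Bd (a C s : ℝ) (g : G → ℝ) : Prop where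
  cont : Continuous g
  bd : ∀ x, |g x| ≤ C / s * (1 + ‖x‖ / s) ^ (-a)
  lip : ∀ x y, |g x - g y| ≤ C / s * (‖x - y‖ / s) * ((1 + ‖x‖ / s) ^ (-a) + (1 + ‖y‖ / s) ^ (-a))

/-- the package of kernels: `M s` (the image `F * M s` is supported in `‖x‖ ≤ s`), the reproducing kernel `K t`
(`F * K t = F` off `‖x‖ ≤ t`) and the correctors `Y z` (`Y z 0 = 1`, `F * Y z` supported in `z/2 ≤ ‖x‖ ≤ 2z`) -/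
structure Kn (r a C z₀ : ℝ) (F : G → ℝ) (M K Y : ℝ → G → ℝ) : Prop where
  hr : 1 < r
  ha : 2 < a
  ha3 : a ≤ 3
  hC : 1 ≤ C
  z0 : 0 < z₀
  z1 : z₀ ≤ 1
  Fcont : Continuous F
  Fint : ∫ x, F x ∂hm = 1
  Mb : ∀ s, 0 < s → s ≤ 1 → Bd a C s (M s)
  Mm : ∀ s, 0 < s → s ≤ 1 → ∫ t, M s t ∂hm = s ^ r
  Ms : ∀ s, 0 < s → s ≤ 1 → ∀ x, s ≤ ‖x‖ → Fc F (M s) x = 0
  Kb : ∀ t, 0 < t → t ≤ 1 → Bd a C t (K t)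
  Ks : ∀ t, 0 < t → t ≤ 1 → ∀ x, t ≤ ‖x‖ → Fc F (K t) x = F x
  Yb : ∀ z, 0 < z → z ≤ z₀ → Bd a (C * z) z (Y z)
  Y0 : ∀ z, 0 < z → z ≤ z₀ → Y z 0 = 1
  Ys : ∀ z, 0 < z → z ≤ z₀ → ∀ x, (‖x‖ ≤ z / 2 ∨ 2 * z ≤ ‖x‖) → Fc F (Y z) x = 0
  Ym : ∀ z, 0 < z → z ≤ z₀ → |∫ x, Y z x ∂hm| ≤ C * z ^ (1 + r)

/-- representative in `[0, 2π)` -/
def rep (x : G) : ℝ := (AddCircle.equivIco (2 * Real.pi) 0 x : ℝ)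

/-- index of the dyadic arc of generation `j` containing `x` -/
def cidx (j : ℕ) (x : G) : ℕ := ⌊rep x * 2 ^ j / (2 * Real.pi)⌋₊

/-- dyadic arcs (the cells) of generation `j`, `i < 2^j` -/
def Cell (j i : ℕ) : Set G := {x | cidx j x = i}

/-- their centres -/
def cen (j i : ℕ) : G := ((((i : ℝ) + 1 / 2) * (2 * Real.pi) / 2 ^ j : ℝ) : G)

/-- the end points of the arcs -/
def endp (j i : ℕ) : G := (((i : ℝ) * (2 * Real.pi) / 2 ^ j : ℝ) : G)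

/-- scales: `β_j`, `T_j`, `τ_j = 2^{-b-T_j}`, `z_j = 2^{-b-T_j-β_j/2}` -/
def be (β₀ j : ℕ) : ℕ := 2 * (β₀ + Nat.log 2 (j + 2))
def TT (β₀ j : ℕ) : ℕ := ∑ i ∈ Finset.range j, be β₀ i
def ta (β₀ b j : ℕ) : ℝ := (1 / 2) ^ (b + TT β₀ j)
def zz (β₀ b j : ℕ) : ℝ := (1 / 2) ^ (b + TT β₀ j + (β₀ + Nat.log 2 (j + 2)))

/-- the good sets -/
def Gs (β₀ J₁ D b : ℕ) (X : Finset G) (cr : G → ℝ) : Set G :=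
  {x | cr x ≤ D ∧ ∀ ξ ∈ X, ta β₀ b (J₁ * D) ≤ ‖x - ξ‖}

/-- number of nodes within distance `ρ` of `x` -/
def nn (X : Finset G) (x : G) (ρ : ℝ) : ℕ := (X.filter (fun ξ => ‖x - ξ‖ < ρ)).card

/-- the gauge function -/
structure Gau (τ C₁ : ℝ) (β₀ J₁ D₀ b : ℕ) (X : Finset G) (cr : G → ℝ) : Prop where
  meas : Measurable cr
  nonneg : ∀ x, 0 ≤ cr x
  harn : ∀ x y, cr x ≤ (1 + 2 ^ b * ‖x - y‖) ^ τ * cr y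
  cnt : ∀ x, (nn X x (2 * (1 / 2) ^ b) : ℝ) ≤ C₁ * cr x
  int : ∫ x, cr x ∂hm ≤ C₁ * X.card * (1 / 2) ^ b
  cell : ∀ l i : ℕ, i < 2 ^ (b - D₀ * 2 ^ l) →
    ((1 / 2) * (1 / 2) ^ (b - D₀ * 2 ^ l) ≤
        (hm (Cell (b - D₀ * 2 ^ l) i ∩ Gs β₀ J₁ (D₀ * 2 ^ l) b X cr)).toReal) ∨
    (∀ x ∈ Cell (b - D₀ * 2 ^ l) i, (D₀ : ℝ) * 2 ^ l ≤ C₁ * ((l : ℝ) + 1) ^ 2 * cr x)

/-- admissible test functions: supported in `S`, mean zero on the arcs of generation `b - D` -/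
structure Adm (b D : ℕ) (S : Set G) (v : G → ℝ) : Prop where
  meas : Measurable v
  le : ∀ x, |v x| ≤ 1
  supp : ∀ x, x ∉ S → v x = 0
  mean : ∀ i, i < 2 ^ (b - D) → ∫ x in Cell (b - D) i, v x ∂hm = 0

/-- the dual norm -/
def NN (b D : ℕ) (S : Set G) (h : G → ℝ) : ℝ := sSup {t | ∃ v, Adm b D S v ∧ t = ∫ x, h x * v x ∂hm}

/-- weights -/
def WW (θ : ℝ) (l l' : ℕ) : ℝ := ((l' : ℝ) + 2) ^ 6 * θ ^ (l' - l)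

/-- the weak equation satisfied by the sections of the error function -/
def EQ (F : G → ℝ) (X : Finset G) (c₁ : ℝ) (h : G → ℝ) : Prop :=
  ∀ u : G → ℝ, Measurable u → (∃ B, ∀ x, |u x| ≤ B) → (∀ ξ ∈ X, Fc F u ξ = 0) →
    ∫ x, h x * u x ∂hm = - c₁ * ∫ x, u x ∂hm

/-- the majorants `min(1, (cr/D)^{-β})` -/
def bbf (β D : ℝ) (cr : G → ℝ) (x : G) : ℝ := (max 1 (cr x / D)) ^ (-β)

/-- representatives of the isolated groups of nodes at level `j` -/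
structure Reps (β₀ b j : ℕ) (X Z : Finset G) : Prop where
  sub : Z ⊆ X
  iso : ∀ ζ ∈ Z, ∀ η ∈ X, ‖η - ζ‖ < ta β₀ b j → ‖η - ζ‖ < ta β₀ b (j + 1)
  sep : ∀ ζ ∈ Z, ∀ ζ' ∈ Z, ζ ≠ ζ' → ta β₀ b j ≤ ‖ζ - ζ'‖
  cov : ∀ ξ ∈ X, (∀ η ∈ X, ‖η - ξ‖ < ta β₀ b j → ‖η - ξ‖ < ta β₀ b (j + 1)) →
    ∃ ζ ∈ Z, ‖ξ - ζ‖ < ta β₀ b (j + 1)

/-- the successively corrected functions -/
def us (Y : ℝ → G → ℝ) (β₀ b j₀ : ℕ) (Z : ℕ → Finset G) (U : G → ℝ) : ℕ → G → ℝ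
  | 0 => U
  | k + 1 => fun x => us Y β₀ b j₀ Z U k x -
      ∑ ζ ∈ Z (j₀ + k), us Y β₀ b j₀ Z U k ζ * Y (zz β₀ b (j₀ + k)) (x - ζ)

/-- `2^{-#free levels}` -/
def gg (β₀ b j₀ : ℕ) (Z : ℕ → Finset G) (k : ℕ) (ξ : G) : ℝ :=
  (1 / 2) ^ ((Finset.range k).filter (fun i => ∃ ζ ∈ Z (j₀ + i), ‖ξ - ζ‖ < ta β₀ b (j₀ + i + 1))).card

/-- the hypotheses of the corrector lemma -/
structure Hcc (a CH : ℝ) (β₀ b j₀ : ℕ) (X : Finset G) (bb U : G → ℝ) (B : ℝ) : Prop where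
  Ucont : Continuous U
  bb0 : ∀ x, 0 ≤ bb x
  bbB : ∀ x, bb x ≤ B
  har : ∀ x y, ‖x - y‖ ≤ 2 * ta β₀ b j₀ → bb x ≤ CH * bb y
  sum : ∀ S : Finset G, (∀ x ∈ S, ∀ y ∈ S, x ≠ y → ta β₀ b j₀ ≤ ‖x - y‖) → ∀ x,
    ∑ y ∈ S, bb y * (1 + ‖x - y‖ / ta β₀ b j₀) ^ (-a) ≤ CH * bb x
  bd : ∀ ξ ∈ X, ∀ x, ‖x - ξ‖ ≤ ta β₀ b j₀ → |U x| ≤ bb ξ
  lip : ∀ ξ ∈ X, ∀ x y, ‖x - ξ‖ ≤ ta β₀ b j₀ → ‖y - ξ‖ ≤ ta β₀ b j₀ →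
    |U x - U y| ≤ bb ξ * (‖x - y‖ / ta β₀ b j₀)

/-- the conclusions of the corrector lemma -/
structure Occ (r C₂ : ℝ) (F : G → ℝ) (β₀ b j₀ Jm : ℕ) (X : Finset G) (bb U : G → ℝ) (B : ℝ) (ψ : G → ℝ) : Prop where
  cont : Continuous ψ
  node : ∀ ξ ∈ X, Fc F ψ ξ = 0
  far : ∀ x, (∀ ξ ∈ X, ta β₀ b j₀ ≤ ‖x - ξ‖) → |ψ x| ≤ C₂ * bb x
  near : ∀ x j, j₀ ≤ j → j ≤ Jm → (∃ ξ ∈ X, ‖x - ξ‖ < ta β₀ b j) →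
    |U x + ψ x| ≤ C₂ * bb x * (1 / 2) ^ (j - j₀ - nn X x (2 * ta β₀ b j₀))
  cell : ∀ j i, |∫ x in Cell j i, ψ x ∂hm| ≤ C₂ * B * ta β₀ b j₀
  int : |∫ x, ψ x ∂hm| ≤ C₂ * B * X.card * (ta β₀ b j₀) ^ (1 + r)

/-- regularity in the first variable at scale `2^{-q}` -/
structure Rg (q : ℕ) (Ψ : G × G → ℝ) : Prop where
  meas : Measurable Ψ
  nonneg : ∀ x, 0 ≤ Ψ x
  bdd : ∃ B, ∀ x, Ψ x ≤ B
  lip : ∀ s t y, 2 ^ q * ‖s - t‖ ≤ 1 → |Ψ (s, y) - Ψ (t, y)| ≤ (1 / 10) * (2 ^ q * ‖s - t‖) * Ψ (t, y)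
  har : ∀ s t y, Ψ (s, y) ≤ (1 + Real.sqrt (2 ^ q * ‖s - t‖)) * Ψ (t, y)

/-- fair weights of generation `j` -/
structure Fair (j : ℕ) (w : G → ℝ) : Prop where
  meas : Measurable w
  nonneg : ∀ x, 0 ≤ w x
  bdd : ∃ B, ∀ x, w x ≤ B
  lo : ∀ i, i < 2 ^ j → (1 / 2) * (1 / 2) ^ j ≤ ∫ x in Cell j i, w x ∂hm
  hi : ∀ i, i < 2 ^ j → ∫ x in Cell j i, w x ∂hm ≤ 2 * (1 / 2) ^ j

/-- the section transforms of `E` -/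
def hq (E : G × G → ℝ) (M : ℝ → G → ℝ) (q i : ℕ) (y : G) : ℝ :=
  ∫ s, E (s, y) * M ((1 / 2) ^ q) (s - cen q i) ∂hm

/-- one step of the Riesz product -/
def stp (M : ℝ → G → ℝ) (γ : ℝ) (q : ℕ) (u : ℕ → G → ℝ) (Ψ : G × G → ℝ) (x : G × G) : ℝ :=
  Ψ x - γ * (1 / 2) ^ q * ∑ i ∈ Finset.range (2 ^ q), M ((1 / 2) ^ q) (x.1 - cen q i) * u i x.2

/-- the Riesz product -/
def Ps (M : ℝ → G → ℝ) (γ : ℝ) (q₀ : ℕ) (sel : ℕ → ℕ → (G → ℝ) → G → ℝ) : ℕ → G × G → ℝ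
  | 0 => fun _ => 1
  | k + 1 => stp M γ (q₀ + k) (fun i => sel (q₀ + k) i (fun y => Ps M γ q₀ sel k (cen (q₀ + k) i, y)))
      (Ps M γ q₀ sel k)

/-- the second coordinates of the nodes in the strip `i` of generation `q` -/
def Xq {m : ℕ} (ξ : Fin m → G × G) (q i : ℕ) : Finset G :=
  (Finset.univ.filter (fun μ => ‖(ξ μ).1 - cen q i‖ < (1 / 2) ^ q)).image (fun μ => (ξ μ).2)

/-- Fourier coefficients given by a symbol -/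
def cs (c₀ : ℝ) (σ : ℝ → ℂ) (t : ℝ) (k : ℤ) : ℂ :=
  if k = 0 then (c₀ : ℂ) else if 0 < k then σ (t * |(k : ℝ)|) else (starRingEnd ℂ) (σ (t * |(k : ℝ)|))

/-- the function with the Fourier coefficients `c` -/
def fs (c : ℤ → ℂ) (x : G) : ℝ := (∑' k, c k * fourier k x).re

/-- admissible symbols -/
structure Sym (a B σ₀ : ℝ) (σ σ₁ σ₂ σ₃ : ℝ → ℂ) : Prop where
  d1 : ∀ u, 0 < u → HasDerivAt σ (σ₁ u) u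
  d2 : ∀ u, 0 < u → HasDerivAt σ₁ (σ₂ u) u
  d3 : ∀ u, 0 < u → HasDerivAt σ₂ (σ₃ u) u
  b0 : ∀ u, 0 < u → ‖σ u‖ ≤ B * (1 + u) ^ (-(4:ℝ))
  b1 : ∀ u, 0 < u → ‖σ₁ u‖ ≤ B * u ^ (a - 2) * (1 + u) ^ (-(6:ℝ))
  b2 : ∀ u, 0 < u → ‖σ₂ u‖ ≤ B * u ^ (a - 3) * (1 + u) ^ (-(6:ℝ))
  b3 : ∀ u, 0 < u → ‖σ₃ u‖ ≤ B * u ^ (a - 4) * (1 + u) ^ (-(6:ℝ))
  lim : ∀ u, 0 < u → ‖σ u - (σ₀ : ℂ)‖ ≤ B * u ^ (a - 1)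

/-- the symbol of `M` (on `u > 0`) -/
def sM (r α κ : ℝ) (q : ℕ) (u : ℝ) : ℂ :=
  Complex.exp (((α * Real.pi / 2 : ℝ) : ℂ) * Complex.I) * ((u ^ r * (Real.sinc (κ * u)) ^ q : ℝ) : ℂ)

/-- the density of the symbol of `K` -/
def dK (r α κ c₁ c₂ : ℝ) (q : ℕ) (v : ℝ) : ℂ :=
  Complex.exp (((α * Real.pi / 2 : ℝ) : ℂ) * Complex.I) * ((c₁ : ℂ) + Complex.I * ((c₂ * (κ * v) : ℝ) : ℂ)) *
    ((v ^ (r - 1) * (Real.sinc (κ * v)) ^ (2 * q) : ℝ) : ℂ)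

/-- the symbol of `K` (on `u > 0`) -/
def sK (r α κ c₁ c₂ : ℝ) (q : ℕ) (u : ℝ) : ℂ := ∫ v in Set.Ioi u, dK r α κ c₁ c₂ q v

/-- the profile `(1 + 2^b ‖x - y‖)^{-τ}` -/
def ph0 (τ : ℝ) (b : ℕ) (x y : G) : ℝ := (1 + 2 ^ b * ‖x - y‖) ^ (-τ)

/-- number of nodes in a cell -/
def nc (X : Finset G) (g i : ℕ) : ℕ := (X.filter (fun ξ => cidx g ξ = i)).card

/-- the crowded cells of level `l` (generation `b - D₀ 2^l`) -/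
def badc (c : ℝ) (D₀ b l : ℕ) (X : Finset G) : Finset ℕ :=
  (Finset.range (2 ^ (b - D₀ * 2 ^ l))).filter
    (fun i => c * (D₀ * 2 ^ l) * 2 ^ b * (1 / 2) ^ (b - D₀ * 2 ^ l) ≤ (nc X (b - D₀ * 2 ^ l) i : ℝ))

/-- the gauge function -/
def crf (τ c ε : ℝ) (D₀ b : ℕ) (X : Finset G) (x : G) : ℝ :=
  ∑ ξ ∈ X, ph0 τ b x ξ + ∑ l ∈ Finset.range b, (ε * (D₀ * 2 ^ l) / ((l : ℝ) + 1) ^ 2) *
    ∑ i ∈ badc c D₀ b l X, sSup (ph0 τ b x '' Cell (b - D₀ * 2 ^ l) i)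

end

end Pool.Agent.H729R2.FO
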