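import Mathlib
import Pool.Agent.H729R2.FO.Defs

set_option autoImplicit false

namespace Pool.Agent.H729R2.FO

open MeasureTheory Pool.Agent.H729R2.CB Pool.Agent.Helper150.Cub

open scoped Classical

noncomputable section

/-- `σ`-separated finite sets -/
def Sepd (σ : ℝ) (S : Finset G) : Prop := ∀ x ∈ S, ∀ y ∈ S, x ≠ y → σ ≤ ‖x - y‖

/-- the local case -/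
def Local (r α : ℝ) : Prop := ∃ (p : ℕ) (k : ℤ), r = p ∧ α = p + 2 * k

/-- basic facts on the cells -/
def S_CEL : Prop :=
  (∀ j i, MeasurableSet (Cell j i)) ∧ (∀ j x, cidx j x < 2 ^ j) ∧
  (∀ j i, i < 2 ^ j → (hm (Cell j i)).toReal = (1 / 2) ^ j) ∧
  (∀ j k x, cidx j x = cidx (j + k) x / 2 ^ k) ∧
  (∀ j x y, cidx j x = cidx j y → ‖x - y‖ ≤ 2 * Real.pi * (1 / 2) ^ j) ∧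
  (∀ j i, i < 2 ^ j → cidx j (cen j i) = i) ∧
  (∀ j x, ‖x - cen j (cidx j x)‖ ≤ Real.pi * (1 / 2) ^ j) ∧
  (∀ j i i', i < 2 ^ j → i' < 2 ^ j → i ≠ i' → 2 * Real.pi * (1 / 2) ^ j ≤ ‖cen j i - cen j i'‖)

/-- integrals over cells -/
def S_CIN : Prop := ∀ f : G → ℝ, Integrable f hm →
  (∀ j, ∫ x, f x ∂hm = ∑ i ∈ Finset.range (2 ^ j), ∫ x in Cell j i, f x ∂hm) ∧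
  (∀ j k i, ∫ x in Cell j i, f x ∂hm = ∑ i' ∈ Finset.range (2 ^ k), ∫ x in Cell (j + k) (i * 2 ^ k + i'), f x ∂hm)

/-- sums over separated sets -/
def S_SEP : Prop := ∀ a : ℝ, 1 < a → ∃ C : ℝ, 1 ≤ C ∧
  (∀ (S : Finset G) (σ ρ : ℝ) (x : G), 0 < σ → σ ≤ 2 * ρ → Sepd σ S → (∀ y ∈ S, ρ ≤ ‖x - y‖) →
    ∑ y ∈ S, ‖x - y‖ ^ (-a) ≤ C * ρ ^ (1 - a) / σ) ∧
  (∀ (S : Finset G) (σ s : ℝ) (x : G), 0 < σ → 0 < s → Sepd σ S →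
    ∑ y ∈ S, (1 + ‖x - y‖ / s) ^ (-a) ≤ C * (1 + s / σ))

/-- splitting a separated set into more separated ones -/
def S_COL : Prop := ∀ (a CH σ τ : ℝ) (S : Finset G) (bb : G → ℝ), 0 < σ → σ ≤ τ → 0 ≤ CH → (∀ x, 0 ≤ bb x) → Sepd σ S →
  (∀ S' : Finset G, Sepd τ S' → ∀ x, ∑ y ∈ S', bb y * (1 + ‖x - y‖ / τ) ^ (-a) ≤ CH * bb x) →
  ∀ x, ∑ y ∈ S, bb y * (1 + ‖x - y‖ / τ) ^ (-a) ≤ 4 * (τ / σ) * CH * bb x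

/-- integrals of bumps over arcs -/
def S_ARC : Prop := ∀ a : ℝ, 2 < a → a ≤ 3 → ∃ C : ℝ, 1 ≤ C ∧ ∀ (C₀ s : ℝ) (g : G → ℝ), 0 ≤ C₀ → 0 < s → s ≤ 1 →
  Bd a C₀ s g → (∫ x, |g x| ∂hm ≤ C * C₀) ∧ ∀ j i, i < 2 ^ j → ∀ y : G,
    |∫ x in Cell j i, g (x - y) ∂hm| ≤ C * C₀ * ((1 + ‖y - endp j i‖ / s) ^ (1 - a) +
      (1 + ‖y - endp j (i + 1)‖ / s) ^ (1 - a)) + |∫ x, g x ∂hm|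

/-- the gauge function -/
def S_GAU : Prop := ∀ τ : ℝ, 1 < τ → τ ≤ 2 → ∃ C₁ K : ℝ, 1 ≤ C₁ ∧ 1 ≤ K ∧
  ∀ β₀ J₁ D₀ b : ℕ, 1 ≤ β₀ → 1 ≤ J₁ → 1 ≤ D₀ → ∀ X : Finset G, (X.card : ℝ) * K ≤ 2 ^ b →
    ∃ cr : G → ℝ, Gau τ C₁ β₀ J₁ D₀ b X cr

/-- the gauge function: elementary properties -/
def S_GA1 : Prop := ∀ τ : ℝ, 1 < τ → τ ≤ 2 → ∀ c ε : ℝ, 0 < c → c ≤ 1 → 0 < ε → ε ≤ 1 → ∃ C₁ : ℝ, 1 ≤ C₁ ∧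
  ∀ (D₀ b : ℕ) (X : Finset G), 1 ≤ D₀ → Measurable (crf τ c ε D₀ b X) ∧ (∀ x, 0 ≤ crf τ c ε D₀ b X x) ∧
    (∀ x y, crf τ c ε D₀ b X x ≤ (1 + 2 ^ b * ‖x - y‖) ^ τ * crf τ c ε D₀ b X y) ∧
    (∀ x, (nn X x (2 * (1 / 2) ^ b) : ℝ) ≤ C₁ * crf τ c ε D₀ b X x) ∧
    ∫ x, crf τ c ε D₀ b X x ∂hm ≤ C₁ * X.card * (1 / 2) ^ b

/-- the gauge function: the dichotomy -/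
def S_GA2 : Prop := ∀ τ : ℝ, 1 < τ → τ ≤ 2 → ∃ c ε C₁ K : ℝ, 0 < c ∧ c ≤ 1 ∧ 0 < ε ∧ ε ≤ 1 ∧ 1 ≤ C₁ ∧ 1 ≤ K ∧
  ∀ β₀ J₁ D₀ b : ℕ, 1 ≤ β₀ → 1 ≤ J₁ → 1 ≤ D₀ → ∀ X : Finset G, (X.card : ℝ) * K ≤ 2 ^ b →
    ∀ l i : ℕ, i < 2 ^ (b - D₀ * 2 ^ l) →
    ((1 / 2) * (1 / 2) ^ (b - D₀ * 2 ^ l) ≤
        (hm (Cell (b - D₀ * 2 ^ l) i ∩ Gs β₀ J₁ (D₀ * 2 ^ l) b X (crf τ c ε D₀ b X))).toReal) ∨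
    (∀ x ∈ Cell (b - D₀ * 2 ^ l) i, (D₀ : ℝ) * 2 ^ l ≤ C₁ * ((l : ℝ) + 1) ^ 2 * crf τ c ε D₀ b X x)

/-- representatives exist -/
def S_REP : Prop := ∀ (β₀ b j : ℕ) (X : Finset G), 1 ≤ β₀ → ∃ Z : Finset G, Reps β₀ b j X Z

/-- counting free levels -/
def S_GGC : Prop := ∀ (β₀ b j₀ : ℕ) (X : Finset G) (Z : ℕ → Finset G), 1 ≤ β₀ → (∀ j, Reps β₀ b j X (Z j)) →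
  (∀ k, ∀ ξ ∈ X, ∀ x, ‖x - ξ‖ < ta β₀ b (j₀ + k) →
    gg β₀ b j₀ Z k ξ ≤ (1 / 2) ^ (k - nn X x (2 * ta β₀ b j₀))) ∧
  (∀ k, ∀ ξ ∈ X, ∀ ξ' ∈ X, ‖ξ - ξ'‖ < ta β₀ b (j₀ + k) → gg β₀ b j₀ Z k ξ = gg β₀ b j₀ Z k ξ') ∧
  (∀ k ξ, 0 < gg β₀ b j₀ Z k ξ ∧ gg β₀ b j₀ Z k ξ ≤ 1 ∧ gg β₀ b j₀ Z (k + 1) ξ ≤ gg β₀ b j₀ Z k ξ ∧
    gg β₀ b j₀ Z k ξ ≤ 2 * gg β₀ b j₀ Z (k + 1) ξ)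

/-- off-diagonal sums -/
def S_OFF : Prop := ∀ a CH : ℝ, 2 < a → a ≤ 3 → 1 ≤ CH → ∃ C : ℝ, 1 ≤ C ∧ ∀ β₀ : ℕ, 3 ≤ β₀ →
  ∀ (b j₀ : ℕ) (X : Finset G) (Z : ℕ → Finset G) (bb U : G → ℝ) (B : ℝ), (∀ j, Reps β₀ b j X (Z j)) →
  Hcc a CH β₀ b j₀ X bb U B →
  (∀ k i₀, i₀ ≤ k → ∀ ξ ∈ X, ∀ x, ‖x - ξ‖ ≤ ta β₀ b (j₀ + i₀) → ∀ ρ, ta β₀ b (j₀ + k) / 2 ≤ ρ →
    ρ ≤ ta β₀ b (j₀ + i₀) →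
    ∑ ζ ∈ (Z (j₀ + k)).filter (fun ζ => ρ ≤ ‖x - ζ‖), bb ζ * gg β₀ b j₀ Z k ζ * ‖x - ζ‖ ^ (-a)
      ≤ C * (ρ ^ (1 - a) / ta β₀ b (j₀ + k)) * (bb ξ * gg β₀ b j₀ Z i₀ ξ)) ∧
  (∀ k x, (∀ ξ ∈ X, ta β₀ b j₀ ≤ ‖x - ξ‖) →
    ∑ ζ ∈ Z (j₀ + k), bb ζ * ‖x - ζ‖ ^ (-a) ≤ C * ((ta β₀ b j₀) ^ (1 - a) / ta β₀ b (j₀ + k)) * bb x)

/-- the main recursion of the corrector lemma -/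
def S_CCM : Prop := ∀ (r a C z₀ : ℝ) (F : G → ℝ) (M K Y : ℝ → G → ℝ), Kn r a C z₀ F M K Y → ∀ CH : ℝ, 1 ≤ CH →
  ∃ β₁ : ℕ, 1 ≤ β₁ ∧ ∀ β₀, β₁ ≤ β₀ → ∀ (b j₀ : ℕ) (X : Finset G) (Z : ℕ → Finset G) (bb U : G → ℝ) (B : ℝ),
    (1 / 2) ^ b ≤ z₀ → (∀ j, Reps β₀ b j X (Z j)) → Hcc a CH β₀ b j₀ X bb U B →
    ∀ k, ∀ ξ ∈ X, ∀ x, ‖x - ξ‖ ≤ ta β₀ b (j₀ + k) →
      |us Y β₀ b j₀ Z U k x| ≤ 2 * bb ξ * gg β₀ b j₀ Z k ξ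

/-- the corrector lemma -/
def S_CC : Prop := ∀ (r a C z₀ : ℝ) (F : G → ℝ) (M K Y : ℝ → G → ℝ), Kn r a C z₀ F M K Y → ∀ CH : ℝ, 1 ≤ CH →
  ∃ (C₂ : ℝ) (β₁ : ℕ), 1 ≤ C₂ ∧ 1 ≤ β₁ ∧ ∀ β₀, β₁ ≤ β₀ → ∀ (b j₀ Jm : ℕ) (X : Finset G) (bb U : G → ℝ) (B : ℝ),
    (1 / 2) ^ b ≤ z₀ → j₀ ≤ Jm → Hcc a CH β₀ b j₀ X bb U B →
    ∃ ψ : G → ℝ, Occ r C₂ F β₀ b j₀ Jm X bb U B ψ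

/-- facts on the dual norm -/
def S_NNF : Prop := ∀ (b D : ℕ) (S : Set G) (h : G → ℝ) (H : ℝ), MeasurableSet S → Measurable h → (∀ x, |h x| ≤ H) →
  0 ≤ NN b D S h ∧ NN b D S h ≤ H ∧
  (∀ (v : G → ℝ) (A : ℝ), 0 ≤ A → Measurable v → (∀ x, |v x| ≤ A) → (∀ x, x ∉ S → v x = 0) →
    (∀ i, i < 2 ^ (b - D) → ∫ x in Cell (b - D) i, v x ∂hm = 0) → |∫ x, h x * v x ∂hm| ≤ A * NN b D S h) ∧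
  (∃ v, Adm b D S v ∧ NN b D S h / 2 ≤ ∫ x, h x * v x ∂hm)

/-- the transport lemma -/
def S_TRA : Prop := ∀ (b l₀ L : ℕ) (Dq : ℕ → ℕ) (S : ℕ → Set G) (A : ℕ → ℝ) (u h : G → ℝ) (H : ℝ),
  l₀ ≤ L → Monotone Dq → Monotone S → (∀ l, MeasurableSet (S l)) → (∀ l, 0 ≤ A l) → Measurable u → Measurable h →
  (∀ x, |h x| ≤ H) → (∀ x, |u x| ≤ A l₀) →
  (∀ l, l₀ ≤ l → l ≤ L → ∀ x, x ∉ S l → |u x| ≤ A (l + 1)) →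
  (∀ l, l₀ ≤ l → l ≤ L → ∀ i, i < 2 ^ (b - Dq l) →
    ((1 / 2) * (1 / 2) ^ (b - Dq l) ≤ (hm (Cell (b - Dq l) i ∩ S l)).toReal ∨
      ∀ x ∈ Cell (b - Dq l) i, |u x| ≤ A (l + 1))) →
  (∀ l, l₀ ≤ l → l ≤ L → ∀ i, i < 2 ^ (b - Dq l) →
    |∫ x in Cell (b - Dq l) i, u x ∂hm| ≤ (1 / 2) ^ (b - Dq l) * A (l + 1)) →
  |∫ x, h x * u x ∂hm| ≤ 4 * ∑ l ∈ Finset.Icc l₀ L, (A l + A (l + 1)) * NN b (Dq l) (S l) h + 4 * A (L + 1) * H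

/-- the decomposition theorem -/
def S_DEC : Prop := ∀ (r a C z₀ : ℝ) (F : G → ℝ) (M K Y : ℝ → G → ℝ), Kn r a C z₀ F M K Y → ∀ τ β C₁ : ℝ,
  1 < τ → 1 < β → β < 2 → τ * β < a - 1 → 1 ≤ C₁ → ∃ (C₃ : ℝ) (β₁ : ℕ), 1 ≤ C₃ ∧ 1 ≤ β₁ ∧ ∀ e₀ : ℕ, ∃ J₂ : ℕ, 1 ≤ J₂ ∧
  ∀ (β₀ J₁ D₀ b L l j₀ : ℕ) (X : Finset G) (cr U h : G → ℝ) (A H c₁ : ℝ), β₁ ≤ β₀ → J₂ ≤ J₁ → 1 ≤ D₀ →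
    (1 / 2) ^ b ≤ z₀ → 2 * (L + 1) ≤ b → l ≤ L → j₀ ≤ J₁ * (D₀ * 2 ^ l) + 1 + (e₀ + 10 * l) →
    Gau τ C₁ β₀ J₁ D₀ b X cr → Continuous U → 0 ≤ A →
    (∀ x, |U x| ≤ A * bbf β (D₀ * 2 ^ l) cr x) →
    (∀ ξ ∈ X, ∀ x y, ‖x - ξ‖ ≤ ta β₀ b j₀ → ‖y - ξ‖ ≤ ta β₀ b j₀ →
      |U x - U y| ≤ A * bbf β (D₀ * 2 ^ l) cr ξ * (‖x - y‖ / ta β₀ b j₀)) →
    (∀ j i, |∫ x in Cell j i, U x ∂hm| ≤ A * (1 / 2) ^ b) →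
    Continuous h → (∀ x, |h x| ≤ H) → 0 ≤ c₁ → EQ F X c₁ h →
    |∫ x, h x * U x ∂hm| ≤ C₃ * A * (∑ l' ∈ Finset.Icc l L,
        WW (2 ^ (-β)) l l' * NN b (D₀ * 2 ^ l') (Gs β₀ J₁ (D₀ * 2 ^ l') b X cr) h
      + WW (2 ^ (-β)) l L * H + c₁ * X.card * ((1 / 2) ^ b) ^ (1 + r))

/-- one-dimensional theorem, part A -/
def S_ONA : Prop := ∀ (r a C z₀ : ℝ) (F : G → ℝ) (M K Y : ℝ → G → ℝ), Kn r a C z₀ F M K Y → ∀ τ β C₁ : ℝ,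
  1 < τ → 1 < β → β < 2 → τ * β < a - 1 → 1 ≤ C₁ → ∃ (C₄ c₄ K₁ : ℝ) (β₁ J₂ : ℕ), 1 ≤ C₄ ∧ 0 < c₄ ∧ 1 ≤ K₁ ∧
  ∀ (β₀ J₁ D₀ b L : ℕ) (X : Finset G) (cr h : G → ℝ) (H c₁ : ℝ), β₁ ≤ β₀ → J₂ ≤ J₁ → 1 ≤ D₀ →
    (1 / 2) ^ b ≤ z₀ → 2 * (L + 1) ≤ b → (X.card : ℝ) * K₁ ≤ 2 ^ b →
    Gau τ C₁ β₀ J₁ D₀ b X cr → Continuous h → (∀ x, |h x| ≤ H) → 0 ≤ c₁ → EQ F X c₁ h →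
    c₄ * c₁ * ((1 / 2) ^ b) ^ r ≤ C₄ * (∑ l ∈ Finset.range (L + 1),
        WW (2 ^ (-β)) 0 l * NN b (D₀ * 2 ^ l) (Gs β₀ J₁ (D₀ * 2 ^ l) b X cr) h + WW (2 ^ (-β)) 0 L * H)

/-- one-dimensional theorem, part B -/
def S_ONB : Prop := ∀ (r a C z₀ : ℝ) (F : G → ℝ) (M K Y : ℝ → G → ℝ), Kn r a C z₀ F M K Y → ∀ τ β C₁ : ℝ,
  1 < τ → 1 < β → β < 2 → τ * β < a - 1 → 1 ≤ C₁ → ∃ (C₄ : ℝ) (β₁ : ℕ), 1 ≤ C₄ ∧ ∀ e₀ : ℕ, ∃ J₂ : ℕ,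
  ∀ (β₀ J₁ D₀ b L l e : ℕ) (X : Finset G) (cr h f : G → ℝ) (H c₁ : ℝ), β₁ ≤ β₀ → J₂ ≤ J₁ → 1 ≤ D₀ →
    (1 / 2) ^ b ≤ z₀ → 2 * (L + 1) ≤ b → (X.card : ℝ) ≤ 2 ^ b → l ≤ L → 4 ≤ e → e ≤ e₀ + 10 * l →
    Gau τ C₁ β₀ J₁ D₀ b X cr → Continuous h → (∀ x, |h x| ≤ H) → 0 ≤ c₁ → EQ F X c₁ h →
    Measurable f → (∃ B, ∀ x, |f x| ≤ B) →
    (∀ x, f x ≠ 0 → ∃ y ∈ Gs β₀ J₁ (D₀ * 2 ^ l) b X cr,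
      cidx (b + TT β₀ (J₁ * (D₀ * 2 ^ l)) + e) y = cidx (b + TT β₀ (J₁ * (D₀ * 2 ^ l)) + e) x) →
    (∀ i, i < 2 ^ (b + TT β₀ (J₁ * (D₀ * 2 ^ l)) + e) →
      ∫ x in Cell (b + TT β₀ (J₁ * (D₀ * 2 ^ l)) + e) i, f x ∂hm = 0) →
    (∀ i, i < 2 ^ (b + TT β₀ (J₁ * (D₀ * 2 ^ l)) + e) →
      ∫ x in Cell (b + TT β₀ (J₁ * (D₀ * 2 ^ l)) + e) i, |f x| ∂hm ≤
        2 * (1 / 2) ^ (b + TT β₀ (J₁ * (D₀ * 2 ^ l)) + e)) →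
    |∫ x, h x * f x ∂hm| ≤ C₄ * (1 / 2) ^ e * (∑ l' ∈ Finset.Icc l L,
        WW (2 ^ (-β)) l l' * NN b (D₀ * 2 ^ l') (Gs β₀ J₁ (D₀ * 2 ^ l') b X cr) h
      + WW (2 ^ (-β)) l L * H + c₁ * ((1 / 2) ^ b) ^ r)

/-- the one-dimensional theorem -/
def S_ONE : Prop := ∀ (r a C z₀ : ℝ) (F : G → ℝ) (M K Y : ℝ → G → ℝ), Kn r a C z₀ F M K Y →
  ∃ (θ C₄ c₄ : ℝ), 1 / 4 < θ ∧ θ < 1 / 2 ∧ 1 ≤ C₄ ∧ 0 < c₄ ∧ ∀ e₀ : ℕ, 4 ≤ e₀ → ∃ (K₀ C₅ : ℝ) (D d₀ : ℕ → ℕ),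
    1 ≤ K₀ ∧ 1 ≤ C₅ ∧ (∀ l, ((D l + d₀ l : ℕ) : ℝ) ≤ C₅ * ((l : ℝ) + 1) * 2 ^ l) ∧
    ∀ (b : ℕ) (X : Finset G), (1 / 2) ^ b ≤ z₀ → (X.card : ℝ) * K₀ ≤ 2 ^ b → ∃ S : ℕ → Set G,
      (∀ l, MeasurableSet (S l)) ∧ ∀ (L : ℕ) (h : G → ℝ) (H c₁ : ℝ), 2 * (L + 1) ≤ b → Continuous h →
        (∀ x, |h x| ≤ H) → 0 ≤ c₁ → EQ F X c₁ h →
        (c₄ * c₁ * ((1 / 2) ^ b) ^ r ≤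
          C₄ * (∑ l ∈ Finset.range (L + 1), WW θ 0 l * NN b (D l) (S l) h + WW θ 0 L * H)) ∧
        (∀ l, l ≤ L → ∀ f : G → ℝ, Measurable f → (∃ B, ∀ x, |f x| ≤ B) →
          (∀ x, f x ≠ 0 → ∃ y ∈ S l, cidx (b + (d₀ l + (e₀ + 10 * l))) y = cidx (b + (d₀ l + (e₀ + 10 * l))) x) →
          (∀ i, i < 2 ^ (b + (d₀ l + (e₀ + 10 * l))) → ∫ x in Cell (b + (d₀ l + (e₀ + 10 * l))) i, f x ∂hm = 0) →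
          (∀ i, i < 2 ^ (b + (d₀ l + (e₀ + 10 * l))) →
            ∫ x in Cell (b + (d₀ l + (e₀ + 10 * l))) i, |f x| ∂hm ≤ 2 * (1 / 2) ^ (b + (d₀ l + (e₀ + 10 * l)))) →
          |∫ x, h x * f x ∂hm| ≤ C₄ * (1 / 2) ^ (e₀ + 10 * l) *
            (∑ l' ∈ Finset.Icc l L, WW θ l l' * NN b (D l') (S l') h + WW θ l L * H + c₁ * ((1 / 2) ^ b) ^ r))

/-- one step of the Riesz product -/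
def S_STP : Prop := ∀ a C : ℝ, 2 < a → 1 ≤ C → ∃ C₅ : ℝ, 1 ≤ C₅ ∧ ∀ (M : ℝ → G → ℝ) (q : ℕ),
  Bd a C ((1 / 2) ^ q) (M ((1 / 2) ^ q)) → ∀ γ : ℝ, 0 ≤ γ → C₅ * γ ≤ 1 / 100 → ∀ (Ψ : G × G → ℝ) (u : ℕ → G → ℝ),
  Rg q Ψ → (∀ i, i < 2 ^ q → Measurable (u i) ∧ ∀ y, |u i y| ≤ 2 * Ψ (cen q i, y)) →
  Rg (q + 1) (stp M γ q u Ψ) ∧ ∀ x, |stp M γ q u Ψ x - Ψ x| ≤ C₅ * γ * Ψ x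

/-- the Riesz product theorem -/
def S_RZ : Prop := ∀ a C : ℝ, 2 < a → 1 ≤ C → ∃ C₅ : ℝ, 1 ≤ C₅ ∧ ∀ M : ℝ → G → ℝ,
  (∀ s, 0 < s → s ≤ 1 → Bd a C s (M s)) → ∀ (n q₀ N D d : ℕ) (γ : ℝ), q₀ + N ≤ n → 0 ≤ γ →
  100 * C₅ * γ * ((D + d + 1 : ℕ) : ℝ) ≤ 1 → ∀ sel : ℕ → ℕ → (G → ℝ) → G → ℝ,
  (∀ q i w, q₀ ≤ q → q < q₀ + N → i < 2 ^ q → Fair (n - q + d) w → Measurable (sel q i w) ∧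
    (∀ y, |sel q i w y| ≤ 2 * w y) ∧
    ∀ i', i' < 2 ^ (n - q - D) → ∫ y in Cell (n - q - D) i', sel q i w y ∂hm = 0) →
  ∀ (E : G × G → ℝ) (𝔈 : ℝ), Continuous E → (∀ x, |E x| ≤ 𝔈) → ∃ w : ℕ → ℕ → G → ℝ,
    (∀ q i, q₀ ≤ q → q < q₀ + N → i < 2 ^ q → Fair (n - q + d) (w q i)) ∧
    γ * ∑ q ∈ Finset.Ico q₀ (q₀ + N), (1 / 2) ^ q * ∑ i ∈ Finset.range (2 ^ q),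
      ∫ y, hq E M q i y * sel q i (w q i) y ∂hm ≤ 2 * 𝔈

/-- the inequality at one level -/
def S_LEV : Prop := ∀ a C : ℝ, 2 < a → 1 ≤ C → ∃ C₆ : ℝ, 1 ≤ C₆ ∧ ∀ M : ℝ → G → ℝ,
  (∀ s, 0 < s → s ≤ 1 → Bd a C s (M s)) → ∀ (n q₀ N D d : ℕ), q₀ + N ≤ n →
  ∀ (E : G × G → ℝ) (𝔈 : ℝ), Continuous E → (∀ x, |E x| ≤ 𝔈) →
  ∀ (gd : ℕ → Finset ℕ) (S : ℕ → ℕ → Set G) (Err : ℕ → ℕ → ℝ), (∀ q, gd q ⊆ Finset.range (2 ^ q)) →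
  (∀ q i, q₀ ≤ q → q < q₀ + N → i ∈ gd q → MeasurableSet (S q i)) →
  (∀ q i, q₀ ≤ q → q < q₀ + N → i ∈ gd q → ∀ f : G → ℝ, Measurable f → (∃ B, ∀ x, |f x| ≤ B) →
    (∀ x, f x ≠ 0 → ∃ y ∈ S q i, cidx (n - q + d) y = cidx (n - q + d) x) →
    (∀ i', i' < 2 ^ (n - q + d) → ∫ x in Cell (n - q + d) i', f x ∂hm = 0) →
    (∀ i', i' < 2 ^ (n - q + d) → ∫ x in Cell (n - q + d) i', |f x| ∂hm ≤ 2 * (1 / 2) ^ (n - q + d)) →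
    |∫ x, hq E M q i x * f x ∂hm| ≤ Err q i) →
  ∑ q ∈ Finset.Ico q₀ (q₀ + N), (1 / 2) ^ q * ∑ i ∈ gd q,
    (NN (n - q) D (S q i) (hq E M q i) / 2 - Err q i) ≤ C₆ * ((D + d + 1 : ℕ) : ℝ) * 𝔈

/-- the sections of the error function -/
def S_EQH : Prop := ∀ (r α a C z₀ : ℝ) (M K Y : ℝ → G → ℝ), Kn r a C z₀ (FG r α) M K Y → ∃ C₀ : ℝ, 1 ≤ C₀ ∧
  ∀ (m : ℕ) (w : Fin m → ℝ) (ξ : Fin m → G × G) (𝔈 : ℝ), (∀ y, |errF r α w ξ y| ≤ 𝔈) → ∀ q i : ℕ,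
    Continuous (hq (errF r α w ξ) M q i) ∧ (∀ y, |hq (errF r α w ξ) M q i y| ≤ C₀ * 𝔈) ∧
    EQ (FG r α) (Xq ξ q i) (((1 / 2) ^ q) ^ r) (hq (errF r α w ξ) M q i)

/-- most strips contain few nodes -/
def S_CNT : Prop := ∀ (m n q : ℕ) (ξ : Fin m → G × G) (K : ℝ), 1 ≤ K → q ≤ n → 2 * m * K ≤ 2 ^ n →
  (2 : ℝ) ^ q / 2 ≤ (((Finset.range (2 ^ q)).filter
    (fun i => ((Xq ξ q i).card : ℝ) * K ≤ 2 ^ (n - q))).card : ℝ)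

/-- the numerical lemma -/
def S_NUM : Prop := ∀ (θ C₄ c₄ C₆ : ℝ), 1 / 4 < θ → θ < 1 / 2 → 1 ≤ C₄ → 0 < c₄ → 1 ≤ C₆ → ∃ e₀ : ℕ, 4 ≤ e₀ ∧
  ∀ C₅ : ℝ, 1 ≤ C₅ → ∃ C₇ : ℝ, 0 < C₇ ∧ ∀ (N L : ℕ) (P E : ℝ) (s : ℕ → ℝ), 0 ≤ E → 0 ≤ P → (∀ l, 0 ≤ s l) →
    (N : ℝ) * WW θ 0 L ≤ 1 →
    c₄ * P ≤ C₄ * (∑ l ∈ Finset.range (L + 1), WW θ 0 l * s l + WW θ 0 L * (N * C₆ * E)) →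
    (∀ l, l ≤ L → s l / 2 - C₄ * (1 / 2) ^ (e₀ + 10 * l) *
        (∑ l' ∈ Finset.Icc l L, WW θ l l' * s l' + WW θ l L * (N * C₆ * E) + P)
      ≤ C₆ * (C₅ * ((l : ℝ) + 1) * 2 ^ l + (e₀ + 10 * l : ℕ) + 1) * E) →
    P ≤ C₇ * E

/-- the sup norm bound -/
def S_TOP : Prop := ∀ r α : ℝ, 1 < r → (∃ (a C z₀ : ℝ) (M K Y : ℝ → G → ℝ), Kn r a C z₀ (FG r α) M K Y) →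
  ∃ c : ℝ, 0 < c ∧ ∃ m₀ : ℕ, ∀ m : ℕ, m₀ ≤ m → ∀ (w : Fin m → ℝ) (ξ : Fin m → G × G) (𝔈 : ℝ),
    (∀ y, |errF r α w ξ y| ≤ 𝔈) → c * ((m : ℝ) ^ (-r) * Real.log m) ≤ 𝔈

/-- decay of Fourier series from second and third differences -/
def S_SQ : Prop := ∀ a : ℝ, 2 < a → a < 3 → ∃ C : ℝ, 1 ≤ C ∧ ∀ (c : ℤ → ℂ) (A t : ℝ), 0 < t → t ≤ 1 → 0 ≤ A →
  Summable (fun k => ‖c k‖) →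
  (∀ k : ℤ, ‖c (k + 1) - 2 * c k + c (k - 1)‖ ≤ A * t ^ (a - 1) * (1 + |(k : ℝ)|) ^ (a - 3)) →
  (∀ k : ℤ, ‖(c (k + 2) - 2 * c (k + 1) + c k) - (c (k + 1) - 2 * c k + c (k - 1))‖
    ≤ A * t ^ (a - 1) * (1 + |(k : ℝ)|) ^ (a - 4)) →
  ∀ x : G, x ≠ 0 → ‖∑' k, c k * fourier k x‖ ≤ C * A * t ^ (a - 1) * ‖x‖ ^ (-a)

/-- bumps from symbols -/
def S_SYM : Prop := ∀ a B : ℝ, 2 < a → a < 3 → 1 ≤ B → ∃ C : ℝ, 1 ≤ C ∧ ∀ (σ₀ : ℝ) (σ σ₁ σ₂ σ₃ : ℝ → ℂ),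
  Sym a B σ₀ σ σ₁ σ₂ σ₃ → ∀ t c₀ : ℝ, 0 < t → t ≤ 1 → |c₀ - σ₀| ≤ B * t ^ (a - 1) →
  Summable (fun k => ‖cs c₀ σ t k‖) ∧ Bd a C t (fs (cs c₀ σ t)) ∧
  ∀ x : G, ((fs (cs c₀ σ t) x : ℝ) : ℂ) = ∑' k, cs c₀ σ t k * fourier k x

/-- the symbol of `M` is admissible -/
def S_SMU : Prop := ∀ (r α κ : ℝ) (q : ℕ), 1 < r → 0 < κ → κ ≤ 1 → r + 10 ≤ q →
  ∃ (B : ℝ) (σ₁ σ₂ σ₃ : ℝ → ℂ), 1 ≤ B ∧ Sym (1 + min r (3 / 2)) B 0 (sM r α κ q) σ₁ σ₂ σ₃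

/-- the symbol of `K` is admissible -/
def S_SKQ : Prop := ∀ (r α κ c₁ c₂ : ℝ) (q : ℕ), 1 < r → 0 < κ → κ ≤ 1 → r + 10 ≤ q →
  ∫ v in Set.Ioi (0:ℝ), dK r α κ c₁ c₂ q v = 1 →
  ∃ (B : ℝ) (σ₁ σ₂ σ₃ : ℝ → ℂ), 1 ≤ B ∧ Sym (1 + min r (3 / 2)) B 1 (sK r α κ c₁ c₂ q) σ₁ σ₂ σ₃

/-- choice of the constants -/
def S_C12 : Prop := ∀ (r α κ : ℝ) (q : ℕ), 1 < r → 0 < κ → κ ≤ 1 → r + 10 ≤ q →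
  ∃ c₁ c₂ : ℝ, ∫ v in Set.Ioi (0:ℝ), dK r α κ c₁ c₂ q v = 1

/-- the images of the kernels `M` have small support -/
def S_KSM : Prop := ∀ (r α κ : ℝ) (q : ℕ), 1 < r → 0 < κ → q * κ ≤ 1 → r + 10 ≤ q → ∀ s : ℝ, 0 < s → s ≤ 1 →
  (∫ x, fs (cs (s ^ r) (sM r α κ q) s) x ∂hm = s ^ r) ∧
  ∀ x, s ≤ ‖x‖ → Fc (FG r α) (fs (cs (s ^ r) (sM r α κ q) s)) x = 0

/-- the kernels `K` reproduce `F` off a small ball -/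
def S_KSU : Prop := ∀ (r α κ c₁ c₂ : ℝ) (q : ℕ), 1 < r → 0 < κ → 2 * q * κ ≤ 1 → r + 10 ≤ q →
  ∫ v in Set.Ioi (0:ℝ), dK r α κ c₁ c₂ q v = 1 → ∀ t : ℝ, 0 < t → t ≤ 1 → ∀ x, t ≤ ‖x‖ →
  Fc (FG r α) (fs (cs (1 - c₁ * t ^ r / r) (sK r α κ c₁ c₂ q) t)) x = FG r α x

/-- the real line limit does not vanish in the non-local case -/
def S_KN1 : Prop := ∀ (r α κ : ℝ) (q : ℕ), 1 < r → ¬ Local r α → 0 < κ → q * κ ≤ 1 → r + 10 ≤ q →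
  ∃ e : ℝ, (e = 1 ∨ e = -1) ∧
    (∫ u in Set.Ioi (0:ℝ), sM r α κ q ((1 / 4) * u) * Complex.exp (((e * u : ℝ) : ℂ) * Complex.I)).re ≠ 0

/-- convergence of the rescaled kernels -/
def S_KN2 : Prop := ∀ (r α κ e : ℝ) (q : ℕ), 1 < r → 0 < κ → q * κ ≤ 1 → r + 10 ≤ q →
  Filter.Tendsto (fun z : ℝ => z * fs (cs (((1 / 4) * z) ^ r) (sM r α κ q) ((1 / 4) * z)) ((e * z : ℝ) : G))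
    (nhdsWithin 0 (Set.Ioi 0))
    (nhds (2 * (∫ u in Set.Ioi (0:ℝ), sM r α κ q ((1 / 4) * u) * Complex.exp (((e * u : ℝ) : ℂ) * Complex.I)).re))

/-- nondegeneracy in the non-local case -/
def S_KND : Prop := ∀ (r α κ : ℝ) (q : ℕ), 1 < r → ¬ Local r α → 0 < κ → q * κ ≤ 1 → r + 10 ≤ q →
  ∃ η c₀ z₀ e : ℝ, 0 < η ∧ η < 1 / 2 ∧ 0 < c₀ ∧ 0 < z₀ ∧ z₀ ≤ 1 ∧ (e = 1 ∨ e = -1) ∧ ∀ z, 0 < z → z ≤ z₀ →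
    c₀ / z ≤ |fs (cs ((η * z) ^ r) (sM r α κ q) (η * z)) ((e * z : ℝ) : G)|

/-- the package exists -/
def S_KNA : Prop := ∀ r α : ℝ, 1 < r → ¬ Local r α →
  ∃ (a C z₀ : ℝ) (M K Y : ℝ → G → ℝ), Kn r a C z₀ (FG r α) M K Y

/-- the result -/
def S_RES : Prop := ∀ (𝕜 : Type) [RCLike 𝕜] (r α : ℝ), 1 < r → ∃ c : ℝ, 0 < c ∧ ∃ m₀ : ℕ, ∀ m : ℕ, m₀ ≤ m →
  ENNReal.ofReal (c * ((m:ℝ) ^ (-r) * Real.log m)) ≤ kappa m (W 𝕜 r α)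

end

end Pool.Agent.H729R2.FO
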