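import Mathlib
import Pool.Agent.H729R2.FO.Stubs

set_option autoImplicit false

namespace Pool.Agent.H729R2.FO

open MeasureTheory Pool.Agent.H729R2.CB Pool.Agent.Helper150.Cub

open scoped Classical

noncomputable section

/-- the rescaled symbol -/
def kn2_Phi (r α κ e : ℝ) (q : ℕ) (u : ℝ) : ℂ :=
  sM r α κ q ((1 / 4) * u) * Complex.exp (((e * u : ℝ) : ℂ) * Complex.I)

theorem kn2_bound (r α κ : ℝ) (q : ℕ) (hr : 1 < r) (hκ : 0 < κ) (hq : r + 10 ≤ q) (u : ℝ)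
    (hu : 0 < u) : ‖sM r α κ q u‖ ≤ (2 + 2 * (κ⁻¹) ^ q) * (1 + u ^ 2)⁻¹ := by
  have h1 : ‖sM r α κ q u‖ = u ^ r * |Real.sinc (κ * u)| ^ q := by
    unfold sM
    rw [norm_mul, Complex.norm_exp_ofReal_mul_I, one_mul, Complex.norm_real, Real.norm_eq_abs,
      abs_mul, abs_pow, abs_of_nonneg (Real.rpow_nonneg hu.le r)]
  rw [h1, ← div_eq_mul_inv, le_div_iff₀ (by positivity)]
  have hs1 : |Real.sinc (κ * u)| ≤ 1 := Real.abs_sinc_le_one _
  have hK : 0 < κ⁻¹ ^ q := by positivity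
  rcases le_total u 1 with h | h
  · have h2 : u ^ r ≤ 1 := Real.rpow_le_one hu.le h (by linarith)
    have h3 : |Real.sinc (κ * u)| ^ q ≤ 1 := pow_le_one₀ (abs_nonneg _) hs1
    have h4 : u ^ r * |Real.sinc (κ * u)| ^ q ≤ 1 := by
      calc _ ≤ (1:ℝ) * 1 := mul_le_mul h2 h3 (by positivity) (by norm_num)
        _ = 1 := one_mul 1
    have h5 : 1 + u ^ 2 ≤ 2 := by nlinarith
    calc _ ≤ (1:ℝ) * 2 := mul_le_mul h4 h5 (by positivity) (by norm_num)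
      _ ≤ _ := by linarith
  · have hku : 0 < κ * u := by positivity
    have h2 : |Real.sinc (κ * u)| ≤ (κ * u)⁻¹ := by
      rw [Real.sinc_of_ne_zero hku.ne', abs_div, abs_of_pos hku, div_eq_mul_inv]
      calc _ ≤ 1 * (κ * u)⁻¹ :=
            mul_le_mul_of_nonneg_right (Real.abs_sin_le_one _) (by positivity)
        _ = _ := one_mul _
    have h3 : |Real.sinc (κ * u)| ^ q ≤ κ⁻¹ ^ q * (u ^ (q:ℝ))⁻¹ := by
      calc _ ≤ ((κ * u)⁻¹) ^ q := pow_le_pow_left₀ (abs_nonneg _) h2 q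
        _ = _ := by rw [mul_inv, mul_pow, Real.rpow_natCast, inv_pow u]
    have h4 : u ^ r * (u ^ (q:ℝ))⁻¹ ≤ (u ^ 2)⁻¹ := by
      rw [← Real.rpow_neg hu.le, ← Real.rpow_add hu]
      have h6 : (u ^ 2)⁻¹ = u ^ (-(2:ℝ)) := by
        rw [Real.rpow_neg hu.le]
        norm_num
      rw [h6]
      exact Real.rpow_le_rpow_of_exponent_le h (by linarith)
    have h5 : (u ^ 2)⁻¹ * (1 + u ^ 2) ≤ 2 := by
      rw [inv_mul_le_iff₀ (by positivity)]
      nlinarith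
    calc u ^ r * |Real.sinc (κ * u)| ^ q * (1 + u ^ 2)
        ≤ u ^ r * (κ⁻¹ ^ q * (u ^ (q:ℝ))⁻¹) * (1 + u ^ 2) := by gcongr
      _ = κ⁻¹ ^ q * (u ^ r * (u ^ (q:ℝ))⁻¹) * (1 + u ^ 2) := by ring
      _ ≤ κ⁻¹ ^ q * (u ^ 2)⁻¹ * (1 + u ^ 2) := by gcongr
      _ = κ⁻¹ ^ q * ((u ^ 2)⁻¹ * (1 + u ^ 2)) := by ring
      _ ≤ κ⁻¹ ^ q * 2 := by gcongr
      _ ≤ _ := by linarith

theorem kn2_Phi_bound (r α κ e : ℝ) (q : ℕ) (hr : 1 < r) (hκ : 0 < κ) (hq : r + 10 ≤ q) (v : ℝ)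
    (hv : 0 < v) : ‖kn2_Phi r α κ e q v‖ ≤ 16 * (2 + 2 * (κ⁻¹) ^ q) * (1 + v ^ 2)⁻¹ := by
  unfold kn2_Phi
  rw [norm_mul, Complex.norm_exp_ofReal_mul_I, mul_one]
  refine (kn2_bound r α κ q hr hκ hq _ (by positivity)).trans ?_
  have hK : 0 < κ⁻¹ ^ q := by positivity
  have h1 : (1 + ((1 / 4) * v) ^ 2)⁻¹ ≤ 16 * (1 + v ^ 2)⁻¹ := by
    rw [← div_eq_mul_inv, le_div_iff₀ (by positivity), inv_mul_le_iff₀ (by positivity)]
    nlinarith
  calc _ ≤ (2 + 2 * (κ⁻¹) ^ q) * (16 * (1 + v ^ 2)⁻¹) := by gcongr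
    _ = _ := by ring

theorem kn2_Phi_cont (r α κ e : ℝ) (q : ℕ) (hr : 1 < r) : Continuous (kn2_Phi r α κ e q) := by
  unfold kn2_Phi sM
  have h1 : Continuous fun u : ℝ => ((1 / 4) * u) ^ r :=
    (continuous_const.mul continuous_id).rpow_const fun x => Or.inr (by linarith)
  have h2 : Continuous fun u : ℝ => Real.sinc (κ * ((1 / 4) * u)) :=
    Real.continuous_sinc.comp (by fun_prop)
  have h3 : Continuous fun u : ℝ => ((1 / 4) * u) ^ r * Real.sinc (κ * ((1 / 4) * u)) ^ q :=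
    h1.mul (h2.pow q)
  exact (continuous_const.mul (Complex.continuous_ofReal.comp h3)).mul (by fun_prop)

/-- the integrand of the step function -/
theorem kn2_int (Φ : ℝ → ℂ) (C : ℝ) (hC : ∀ v, 0 < v → ‖Φ v‖ ≤ C * (1 + v ^ 2)⁻¹)
    (z : ℝ) (hz : 0 < z) (u : ℝ) (hu : 0 < u) :
    u ≤ z * (⌈u / z⌉₊ : ℝ) ∧ z * (⌈u / z⌉₊ : ℝ) ≤ u + z ∧
      ‖Φ (z * (⌈u / z⌉₊ : ℝ))‖ ≤ C * (1 + u ^ 2)⁻¹ := by
  have h1 : u / z ≤ (⌈u / z⌉₊ : ℝ) := Nat.le_ceil _
  have h2 : (⌈u / z⌉₊ : ℝ) < u / z + 1 := Nat.ceil_lt_add_one (by positivity)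
  have h3 : u ≤ z * (⌈u / z⌉₊ : ℝ) := by
    rw [div_le_iff₀ hz] at h1
    linarith
  have h4 : z * (⌈u / z⌉₊ : ℝ) ≤ u + z := by
    have h5 : z * (⌈u / z⌉₊ : ℝ) ≤ z * (u / z + 1) := mul_le_mul_of_nonneg_left h2.le hz.le
    have h6 : z * (u / z + 1) = u + z := by
      field_simp
    linarith
  refine ⟨h3, h4, (hC _ (by linarith)).trans ?_⟩
  have hC0 : 0 ≤ C := by
    have h5 := (norm_nonneg _).trans (hC 1 one_pos)
    have h6 : C * (1 + (1:ℝ) ^ 2)⁻¹ = C / 2 := by norm_num; ring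
    rw [h6] at h5
    linarith
  have h7 : u ^ 2 ≤ (z * (⌈u / z⌉₊ : ℝ)) ^ 2 := pow_le_pow_left₀ hu.le h3 2
  gcongr

theorem kn2_meas (Φ : ℝ → ℂ) (z : ℝ) : Measurable fun u : ℝ => Φ (z * (⌈u / z⌉₊ : ℝ)) := by
  have h1 : Measurable fun u : ℝ => ⌈u / z⌉₊ := Nat.measurable_ceil.comp (measurable_id.div_const z)
  have h2 : Measurable fun n : ℕ => Φ (z * (n : ℝ)) := measurable_from_top
  exact h2.comp h1

/-- Riemann sums of improper integrals -/
theorem kn2_hasSum (Φ : ℝ → ℂ) (C : ℝ) (hC : ∀ v, 0 < v → ‖Φ v‖ ≤ C * (1 + v ^ 2)⁻¹)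
    (z : ℝ) (hz : 0 < z) :
    HasSum (fun n : ℕ => (z : ℂ) * Φ (z * ((n : ℝ) + 1)))
      (∫ u in Set.Ioi (0:ℝ), Φ (z * (⌈u / z⌉₊ : ℝ))) := by
  have hU : Set.Ioi (0:ℝ) = ⋃ n : ℕ, Set.Ioc (z * n) (z * ((n:ℝ) + 1)) := by
    ext u
    simp only [Set.mem_Ioi, Set.mem_iUnion, Set.mem_Ioc]
    constructor
    · intro hu
      obtain ⟨a1, a2, -⟩ := kn2_int Φ C hC z hz u hu
      have hc : 0 < ⌈u / z⌉₊ := Nat.ceil_pos.mpr (by positivity)
      have h2 : (⌈u / z⌉₊ : ℝ) < u / z + 1 := Nat.ceil_lt_add_one (by positivity)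
      refine ⟨⌈u / z⌉₊ - 1, ?_, ?_⟩
      · rw [Nat.cast_sub hc, Nat.cast_one]
        have h5 : z * ((⌈u / z⌉₊ : ℝ) - 1) < z * (u / z) :=
          mul_lt_mul_of_pos_left (by linarith) hz
        have h6 : z * (u / z) = u := by field_simp
        linarith
      · rw [Nat.cast_sub hc, Nat.cast_one]
        have h6 : z * ((⌈u / z⌉₊ : ℝ) - 1 + 1) = z * (⌈u / z⌉₊ : ℝ) := by ring
        rw [h6]
        exact a1
    · rintro ⟨n, h1, -⟩
      have h2 : 0 ≤ z * (n:ℝ) := by positivity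
      linarith
  have hceil : ∀ n : ℕ, ∀ u ∈ Set.Ioc (z * n) (z * ((n:ℝ) + 1)), ⌈u / z⌉₊ = n + 1 := by
    intro n u hu
    rw [Nat.ceil_eq_iff (by omega)]
    constructor
    · rw [Nat.add_sub_cancel, lt_div_iff₀ hz]
      have := hu.1
      linarith
    · rw [div_le_iff₀ hz]
      push_cast
      have := hu.2
      linarith
  have hd : Pairwise (Function.onFun Disjoint fun n : ℕ => Set.Ioc (z * n) (z * ((n:ℝ) + 1))) := by
    intro n n' hnn
    refine Set.disjoint_left.mpr fun u h1 h2 => hnn ?_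
    have e1 := hceil n u h1
    have e2 := hceil n' u h2
    omega
  have hint : IntegrableOn (fun u : ℝ => Φ (z * (⌈u / z⌉₊ : ℝ))) (Set.Ioi 0) := by
    refine Integrable.mono' (g := fun u => C * (1 + u ^ 2)⁻¹)
      ((integrable_inv_one_add_sq.const_mul C).integrableOn) (kn2_meas Φ z).aestronglyMeasurable ?_
    filter_upwards [ae_restrict_mem measurableSet_Ioi] with u hu
    exact (kn2_int Φ C hC z hz u hu).2.2
  rw [hU] at hint
  have h := hasSum_integral_iUnion (fun n => measurableSet_Ioc) hd hint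
  rw [← hU] at h
  have he : (fun n : ℕ => (z : ℂ) * Φ (z * ((n : ℝ) + 1))) =
      fun n : ℕ => ∫ u in Set.Ioc (z * n) (z * ((n:ℝ) + 1)), Φ (z * (⌈u / z⌉₊ : ℝ)) := by
    funext n
    have h1 : ∫ u in Set.Ioc (z * n) (z * ((n:ℝ) + 1)), Φ (z * (⌈u / z⌉₊ : ℝ)) =
        ∫ u in Set.Ioc (z * n) (z * ((n:ℝ) + 1)), Φ (z * ((n : ℝ) + 1)) := by
      refine setIntegral_congr_fun measurableSet_Ioc fun u hu => ?_
      simp only [hceil n u hu]
      push_cast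
      rfl
    rw [h1, setIntegral_const, Real.volume_real_Ioc_of_le (by nlinarith)]
    have h2 : z * ((n:ℝ) + 1) - z * n = z := by ring
    rw [h2, Complex.real_smul]
  rw [he]
  exact h

/-- convergence of the Riemann sums -/
theorem kn2_tendsto (Φ : ℝ → ℂ) (hΦ : Continuous Φ) (C : ℝ)
    (hC : ∀ v, 0 < v → ‖Φ v‖ ≤ C * (1 + v ^ 2)⁻¹) :
    Filter.Tendsto (fun z : ℝ => ∫ u in Set.Ioi (0:ℝ), Φ (z * (⌈u / z⌉₊ : ℝ)))
      (nhdsWithin 0 (Set.Ioi 0)) (nhds (∫ u in Set.Ioi (0:ℝ), Φ u)) := by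
  refine tendsto_integral_filter_of_dominated_convergence (fun u => C * (1 + u ^ 2)⁻¹) ?_ ?_ ?_ ?_
  · exact Filter.Eventually.of_forall fun z => (kn2_meas Φ z).aestronglyMeasurable
  · filter_upwards [self_mem_nhdsWithin] with z hz
    filter_upwards [ae_restrict_mem measurableSet_Ioi] with u hu
    exact (kn2_int Φ C hC z hz u hu).2.2
  · exact (integrable_inv_one_add_sq.const_mul C).integrableOn
  · filter_upwards [ae_restrict_mem measurableSet_Ioi] with u hu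
    refine (hΦ.tendsto u).comp ?_
    have hid : Filter.Tendsto (fun z : ℝ => u + z) (nhdsWithin 0 (Set.Ioi 0)) (nhds u) := by
      have h1 : Filter.Tendsto (fun z : ℝ => u + z) (nhds 0) (nhds (u + 0)) :=
        (continuous_const.add continuous_id).tendsto 0
      rw [add_zero] at h1
      exact h1.mono_left nhdsWithin_le_nhds
    refine tendsto_of_tendsto_of_tendsto_of_le_of_le' tendsto_const_nhds hid ?_ ?_
    · filter_upwards [self_mem_nhdsWithin] with z hz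
      exact (kn2_int Φ C hC z hz u hu).1
    · filter_upwards [self_mem_nhdsWithin] with z hz
      exact (kn2_int Φ C hC z hz u hu).2.1

/-- the Fourier series as a Riemann sum -/
theorem kn2_fs (r α κ e : ℝ) (q : ℕ) (hr : 1 < r) (hκ : 0 < κ) (hq : r + 10 ≤ q) (z : ℝ)
    (hz : 0 < z) :
    z * fs (cs (((1 / 4) * z) ^ r) (sM r α κ q) ((1 / 4) * z)) ((e * z : ℝ) : G) =
      z * ((1 / 4) * z) ^ r +
        2 * (∫ u in Set.Ioi (0:ℝ), kn2_Phi r α κ e q (z * (⌈u / z⌉₊ : ℝ))).re := by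
  set I := ∫ u in Set.Ioi (0:ℝ), kn2_Phi r α κ e q (z * (⌈u / z⌉₊ : ℝ)) with hI
  have hz0 : (z : ℂ) ≠ 0 := by exact_mod_cast hz.ne'
  have h1 := kn2_hasSum (kn2_Phi r α κ e q) _ (kn2_Phi_bound r α κ e q hr hκ hq) z hz
  rw [← hI] at h1
  have h2 : HasSum (fun n : ℕ => kn2_Phi r α κ e q (z * ((n : ℝ) + 1))) ((z:ℂ)⁻¹ * I) := by
    have h3 := h1.mul_left (z:ℂ)⁻¹
    have h4 : (fun n : ℕ => (z:ℂ)⁻¹ * ((z : ℂ) * kn2_Phi r α κ e q (z * ((n : ℝ) + 1)))) =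
        fun n : ℕ => kn2_Phi r α κ e q (z * ((n : ℝ) + 1)) := by
      funext n
      rw [← mul_assoc, inv_mul_cancel₀ hz0, one_mul]
    rw [h4] at h3
    exact h3
  set c : ℤ → ℂ := cs (((1 / 4) * z) ^ r) (sM r α κ q) ((1 / 4) * z) with hc
  set f : ℤ → ℂ := fun k => c k * fourier k ((e * z : ℝ) : G) with hf
  have hfn : ∀ n : ℕ, f ((n : ℤ) + 1) = kn2_Phi r α κ e q (z * ((n : ℝ) + 1)) := by
    intro n
    have hk0 : ((n : ℤ) + 1) ≠ 0 := by omega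
    have hkp : (0 : ℤ) < (n : ℤ) + 1 := by omega
    simp only [hf, hc, cs, if_neg hk0, if_pos hkp, kn2_Phi]
    have a1 : |(((n : ℤ) + 1 : ℤ) : ℝ)| = (n : ℝ) + 1 := by
      push_cast
      exact abs_of_nonneg (by positivity)
    rw [a1, fourier_coe_apply]
    congr 2
    · ring
    · push_cast
      field_simp
  have hfneg : ∀ n : ℕ, f (-((n : ℤ) + 1)) =
      (starRingEnd ℂ) (kn2_Phi r α κ e q (z * ((n : ℝ) + 1))) := by
    intro n
    rw [← hfn]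
    have hk0 : ((n : ℤ) + 1) ≠ 0 := by omega
    have hkp : (0 : ℤ) < (n : ℤ) + 1 := by omega
    have hk0' : -((n : ℤ) + 1) ≠ 0 := by omega
    have hkp' : ¬ (0 : ℤ) < -((n : ℤ) + 1) := by omega
    simp only [hf, hc, cs, if_neg hk0, if_pos hkp, if_neg hk0', if_neg hkp', map_mul, fourier_neg]
    congr 3
    push_cast
    rw [abs_neg]
  have hf0 : f 0 = ((((1 / 4) * z) ^ r : ℝ) : ℂ) := by
    simp [hf, hc, cs]
  have h4 : HasSum (fun n : ℕ => f n) ((z:ℂ)⁻¹ * I + f 0) := by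
    have h5 : HasSum (fun n : ℕ => f ((n + 1 : ℕ) : ℤ)) ((z:ℂ)⁻¹ * I) := by
      have h6 : (fun n : ℕ => f ((n + 1 : ℕ) : ℤ)) =
          fun n : ℕ => kn2_Phi r α κ e q (z * ((n : ℝ) + 1)) := by
        funext n
        rw [← hfn]
        push_cast
        rfl
      rw [h6]
      exact h2
    have h7 := (hasSum_nat_add_iff (f := fun n : ℕ => f n) 1).mp h5
    simpa using h7
  have h8 : HasSum (fun n : ℕ => f (-((n : ℤ) + 1))) ((starRingEnd ℂ) ((z:ℂ)⁻¹ * I)) := by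
    have h9 : (fun n : ℕ => f (-((n : ℤ) + 1))) =
        fun n : ℕ => (starRingEnd ℂ) (kn2_Phi r α κ e q (z * ((n : ℝ) + 1))) := by
      funext n
      exact hfneg n
    rw [h9]
    exact h2.map (starRingEnd ℂ) Complex.continuous_conj
  have h10 := HasSum.of_nat_of_neg_add_one h4 h8
  have h11 : fs c ((e * z : ℝ) : G) = ((z:ℂ)⁻¹ * I + f 0 + (starRingEnd ℂ) ((z:ℂ)⁻¹ * I)).re := by
    unfold fs
    rw [h10.tsum_eq]
  rw [h11, Complex.add_re, Complex.add_re, Complex.conj_re, hf0, Complex.ofReal_re]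
  have h12 : ((z:ℂ)⁻¹ * I).re = z⁻¹ * I.re := by
    rw [← Complex.ofReal_inv, Complex.re_ofReal_mul]
  rw [h12]
  field_simp
  ring

theorem t_KN2 : S_KN2 := by
  intro r α κ e q hr hκ _ hq
  have h1 := kn2_tendsto (kn2_Phi r α κ e q) (kn2_Phi_cont r α κ e q hr) _
    (kn2_Phi_bound r α κ e q hr hκ hq)
  have h2 := ((Complex.continuous_re.tendsto _).comp h1).const_mul 2
  have h3 : Filter.Tendsto (fun z : ℝ => z * ((1 / 4) * z) ^ r) (nhdsWithin 0 (Set.Ioi 0))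
      (nhds 0) := by
    have h4 : Continuous fun z : ℝ => z * ((1 / 4) * z) ^ r :=
      continuous_id.mul ((continuous_const.mul continuous_id).rpow_const fun x =>
        Or.inr (by linarith))
    have h5 := h4.tendsto 0
    rw [zero_mul] at h5
    exact h5.mono_left nhdsWithin_le_nhds
  have h4 := h3.add h2
  rw [zero_add] at h4
  refine h4.congr' ?_
  filter_upwards [self_mem_nhdsWithin] with z hz
  exact (kn2_fs r α κ e q hr hκ hq z hz).symm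

end

end Pool.Agent.H729R2.FO
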