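import Mathlib
import Pool.Agent.H729R2.FO.Stubs
import Pool.Agent.H729R2.FO.T_KN2

set_option autoImplicit false

namespace Pool.Agent.H729R2.FO

open MeasureTheory Pool.Agent.H729R2.CB Pool.Agent.Helper150.Cub

open scoped Classical

/-- integrability of `u^r exp(-εu)` -/
theorem kn1b_int (r ε : ℝ) (hr : -1 < r) (hε : 0 < ε) :
    IntegrableOn (fun u : ℝ => u ^ r * Real.exp (-(ε * u))) (Set.Ioi 0) := by
  have h := integrableOn_rpow_mul_exp_neg_mul_rpow (p := 1) (s := r) (b := ε) hr one_pos hε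
  refine h.congr_fun (fun u hu => ?_) measurableSet_Ioi
  simp

theorem kn1b_norm (r : ℝ) (w : ℂ) (u : ℝ) (hu : 0 < u) :
    ‖((u ^ r : ℝ) : ℂ) * Complex.exp (-(w * u))‖ = u ^ r * Real.exp (-(w.re * u)) := by
  rw [norm_mul, Complex.norm_real, Real.norm_of_nonneg (Real.rpow_nonneg hu.le r), Complex.norm_exp]
  simp

theorem kn1b_diff (r : ℝ) (hr : -1 < r) (w : ℂ) (hw : 0 < w.re) :
    HasDerivAt (fun w : ℂ => ∫ u in Set.Ioi (0:ℝ), ((u ^ r : ℝ) : ℂ) * Complex.exp (-(w * u)))
      (∫ u in Set.Ioi (0:ℝ), -(((u ^ (r + 1) : ℝ) : ℂ) * Complex.exp (-(w * u)))) w := by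
  have hmeas : ∀ (s : ℝ) (w : ℂ), AEStronglyMeasurable (fun u : ℝ => ((u ^ s : ℝ) : ℂ) * Complex.exp (-(w * u)))
      (volume.restrict (Set.Ioi 0)) := by
    intro s w
    refine Measurable.aestronglyMeasurable ?_
    exact (Complex.measurable_ofReal.comp (measurable_id.pow_const s)).mul
      (Complex.measurable_exp.comp ((measurable_const.mul Complex.measurable_ofReal).neg))
  have hball : ∀ x ∈ Metric.ball w (w.re / 2), w.re / 2 ≤ x.re := by
    intro x hx
    have h1 : |(x - w).re| ≤ ‖x - w‖ := Complex.abs_re_le_norm _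
    have h2 : ‖x - w‖ < w.re / 2 := by simpa [dist_eq_norm] using hx
    have h3 := (abs_le.1 h1).1
    simp only [Complex.sub_re] at h3
    linarith
  refine (hasDerivAt_integral_of_dominated_loc_of_deriv_le (𝕜 := ℂ) (μ := volume.restrict (Set.Ioi (0:ℝ)))
    (F := fun (w : ℂ) (u : ℝ) => ((u ^ r : ℝ) : ℂ) * Complex.exp (-(w * u)))
    (F' := fun (w : ℂ) (u : ℝ) => -(((u ^ (r + 1) : ℝ) : ℂ) * Complex.exp (-(w * u))))
    (bound := fun u : ℝ => u ^ (r + 1) * Real.exp (-(w.re / 2 * u))) (s := Metric.ball w (w.re / 2))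
    (Metric.ball_mem_nhds w (by linarith)) ?_ ?_ ?_ ?_ ?_ ?_).2
  · exact Filter.Eventually.of_forall (fun x => hmeas r x)
  · have h := kn1b_int r w.re hr hw
    refine Integrable.mono' h (hmeas r w) ?_
    refine (ae_restrict_iff' measurableSet_Ioi).2 (Filter.Eventually.of_forall (fun u hu => ?_))
    exact (kn1b_norm r w u hu).le
  · exact (hmeas (r + 1) w).neg
  · refine (ae_restrict_iff' measurableSet_Ioi).2 (Filter.Eventually.of_forall (fun u hu x hx => ?_))
    rw [norm_neg, kn1b_norm (r + 1) x u hu]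
    have hu0 : (0:ℝ) < u := hu
    refine mul_le_mul_of_nonneg_left (Real.exp_le_exp.2 ?_) (Real.rpow_nonneg hu0.le _)
    have := hball x hx
    nlinarith
  · exact kn1b_int (r + 1) (w.re / 2) (by linarith) (by linarith)
  · refine (ae_restrict_iff' measurableSet_Ioi).2 (Filter.Eventually.of_forall (fun u hu x hx => ?_))
    have hu0 : (0:ℝ) < u := hu
    have h1 : HasDerivAt (fun x : ℂ => Complex.exp (-(x * u))) (Complex.exp (-(x * u)) * (-(1 * (u : ℂ)))) x :=
      (((hasDerivAt_id x).mul_const (u : ℂ)).neg).cexp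
    have h2 := h1.const_mul ((u ^ r : ℝ) : ℂ)
    refine h2.congr_deriv ?_
    rw [Real.rpow_add_one hu0.ne']
    push_cast
    ring

theorem kn1b_gamma (r : ℝ) (hr : -1 < r) (w : ℂ) (hw : 0 < w.re) :
    ∫ u in Set.Ioi (0:ℝ), ((u ^ r : ℝ) : ℂ) * Complex.exp (-(w * u)) =
      (1 / w) ^ ((r + 1 : ℝ) : ℂ) * Complex.Gamma ((r + 1 : ℝ) : ℂ) := by
  set f : ℂ → ℂ := fun w => ∫ u in Set.Ioi (0:ℝ), ((u ^ r : ℝ) : ℂ) * Complex.exp (-(w * u)) with hf
  set g : ℂ → ℂ := fun w => (1 / w) ^ ((r + 1 : ℝ) : ℂ) * Complex.Gamma ((r + 1 : ℝ) : ℂ) with hg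
  have hopen : IsOpen {w : ℂ | 0 < w.re} := isOpen_lt continuous_const Complex.continuous_re
  have hfa : AnalyticOnNhd ℂ f {w : ℂ | 0 < w.re} := by
    refine DifferentiableOn.analyticOnNhd (fun w hw => ?_) hopen
    exact (kn1b_diff r hr w hw).differentiableAt.differentiableWithinAt
  have hga : AnalyticOnNhd ℂ g {w : ℂ | 0 < w.re} := by
    refine DifferentiableOn.analyticOnNhd (fun w hw => ?_) hopen
    have hw' : 0 < w.re := hw
    have hw0 : w ≠ 0 := by rintro rfl; simp at hw'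
    have h1 : DifferentiableAt ℂ (fun w : ℂ => 1 / w) w := by
      simpa [one_div] using differentiableAt_inv hw0
    have hslit : (1 / w) ∈ Complex.slitPlane := by
      rw [Complex.mem_slitPlane_iff]
      left
      rw [one_div, Complex.inv_re]
      exact div_pos hw' (Complex.normSq_pos.2 hw0)
    exact ((h1.cpow_const hslit).mul_const _).differentiableWithinAt
  have hpre : IsPreconnected {w : ℂ | 0 < w.re} := (convex_halfSpace_re_gt 0).isPreconnected
  have h1mem : (1 : ℂ) ∈ {w : ℂ | 0 < w.re} := by simp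
  have hfreq : ∃ᶠ z in nhdsWithin (1:ℂ) {1}ᶜ, f z = g z := by
    have htend : Filter.Tendsto (fun t : ℝ => (t : ℂ)) (nhdsWithin (1:ℝ) {1}ᶜ) (nhdsWithin (1:ℂ) {1}ᶜ) := by
      refine tendsto_nhdsWithin_iff.2 ⟨?_, ?_⟩
      · have : Filter.Tendsto (fun t : ℝ => (t : ℂ)) (nhds 1) (nhds ((1:ℝ):ℂ)) :=
          Complex.continuous_ofReal.tendsto 1
        simpa using this.mono_left nhdsWithin_le_nhds
      · filter_upwards [self_mem_nhdsWithin] with t ht
        simpa using ht
    have hev : ∀ᶠ t : ℝ in nhdsWithin (1:ℝ) {1}ᶜ, f t = g t := by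
      have h0 : ∀ᶠ t : ℝ in nhdsWithin (1:ℝ) {1}ᶜ, 0 < t :=
        nhdsWithin_le_nhds (lt_mem_nhds one_pos)
      filter_upwards [h0] with t ht
      have h := Complex.integral_cpow_mul_exp_neg_mul_Ioi (a := ((r + 1 : ℝ) : ℂ)) (r := t)
        (by simp; linarith) ht
      simp only [hf, hg]
      rw [← h]
      refine setIntegral_congr_fun measurableSet_Ioi (fun u hu => ?_)
      congr 1
      rw [show (((r + 1 : ℝ) : ℂ) - 1) = ((r : ℝ) : ℂ) by push_cast; ring]
      exact Complex.ofReal_cpow (le_of_lt hu) r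
    exact htend.frequently hev.frequently
  exact hfa.eqOn_of_preconnected_of_frequently_eq hga hpre h1mem hfreq hw

theorem kn1b_sinc (h u : ℝ) : ∫ y in Set.Icc (-h) h, Complex.exp (((u * y : ℝ) : ℂ) * Complex.I) =
    ((2 * h * Real.sinc (h * u) : ℝ) : ℂ) ∨ h < 0 := by
  rcases lt_or_ge h 0 with hh | hh
  · right; exact hh
  left
  rw [integral_Icc_eq_integral_Ioc, ← intervalIntegral.integral_of_le (by linarith)]
  rcases eq_or_ne u 0 with rfl | hu
  · simp
    ring
  have h1 := intervalIntegral.integral_comp_mul_left (a := -h) (b := h)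
    (fun t : ℝ => Complex.exp ((t : ℂ) * Complex.I)) hu
  simp only [Complex.real_smul] at h1
  rw [h1, show u * -h = -(u * h) by ring]
  have h2 := integral_exp_mul_I_eq_sinc (u * h)
  rw [h2]
  rw [show h * u = u * h by ring]
  have : (u : ℂ) ≠ 0 := by exact_mod_cast hu
  push_cast
  field_simp

theorem kn1b_nu (h : ℝ) (hh : 0 < h) (q : ℕ) : ∃ ν : Measure ℝ, IsProbabilityMeasure ν ∧
    ν {y | (q : ℝ) * h < |y|} = 0 ∧
    ∀ u : ℝ, ∫ y, Complex.exp (((u * y : ℝ) : ℂ) * Complex.I) ∂ν = ((Real.sinc (h * u) ^ q : ℝ) : ℂ) := by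
  induction q with
  | zero =>
    refine ⟨Measure.dirac 0, inferInstance, ?_, ?_⟩
    · rw [Measure.dirac_apply' _ (measurableSet_lt measurable_const (by fun_prop))]
      simp
    · intro u; simp
  | succ q ih =>
    obtain ⟨ν, h1, h2, h3⟩ := ih
    set U : Measure ℝ := ENNReal.ofReal (1 / (2 * h)) • (volume.restrict (Set.Icc (-h) h)) with hU
    have hUp : IsProbabilityMeasure U := by
      constructor
      rw [hU, Measure.smul_apply, Measure.restrict_apply MeasurableSet.univ, Set.univ_inter, Real.volume_Icc,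
        smul_eq_mul, ← ENNReal.ofReal_mul (by positivity), ← ENNReal.ofReal_one]
      congr 1
      field_simp
      ring
    have hU0 : U {y | h < |y|} = 0 := by
      rw [hU, Measure.smul_apply, Measure.restrict_apply (measurableSet_lt measurable_const (by fun_prop))]
      have : {y : ℝ | h < |y|} ∩ Set.Icc (-h) h = ∅ := by
        ext y
        simp only [Set.mem_inter_iff, Set.mem_setOf_eq, Set.mem_Icc, Set.mem_empty_iff_false, iff_false, not_and]
        intro hy hy2 hy3
        have := abs_le.2 ⟨hy2, hy3⟩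
        linarith
      rw [this]; simp
    have hm : Measurable (fun p : ℝ × ℝ => p.1 + p.2) := measurable_fst.add measurable_snd
    refine ⟨(ν.prod U).map (fun p => p.1 + p.2), Measure.isProbabilityMeasure_map hm.aemeasurable, ?_, ?_⟩
    · rw [Measure.map_apply hm (measurableSet_lt measurable_const (by fun_prop))]
      have hsub : (fun p : ℝ × ℝ => p.1 + p.2) ⁻¹' {y | ((q + 1 : ℕ) : ℝ) * h < |y|} ⊆
          ({y | (q : ℝ) * h < |y|} ×ˢ Set.univ) ∪ (Set.univ ×ˢ {y | h < |y|}) := by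
        rintro ⟨x, y⟩ hxy
        simp only [Set.mem_preimage, Set.mem_setOf_eq, Nat.cast_add, Nat.cast_one] at hxy
        simp only [Set.mem_union, Set.mem_prod, Set.mem_setOf_eq, Set.mem_univ, and_true, true_and]
        by_contra hcon
        push Not at hcon
        have := abs_add_le x y
        nlinarith [hcon.1, hcon.2]
      refine measure_mono_null hsub ?_
      refine measure_union_null ?_ ?_
      · rw [Measure.prod_prod, h2, zero_mul]
      · rw [Measure.prod_prod, hU0, mul_zero]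
    · intro u
      rw [integral_map hm.aemeasurable (by
        refine Continuous.aestronglyMeasurable ?_
        fun_prop)]
      have h4 : ∀ p : ℝ × ℝ, Complex.exp (((u * (p.1 + p.2) : ℝ) : ℂ) * Complex.I) =
          Complex.exp (((u * p.1 : ℝ) : ℂ) * Complex.I) * Complex.exp (((u * p.2 : ℝ) : ℂ) * Complex.I) := by
        intro p
        rw [← Complex.exp_add]
        congr 1
        push_cast
        ring
      simp only [h4]
      rw [integral_prod_mul (μ := ν) (ν := U) (fun a : ℝ => Complex.exp (((u * a : ℝ) : ℂ) * Complex.I))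
        (fun a : ℝ => Complex.exp (((u * a : ℝ) : ℂ) * Complex.I)), h3 u]
      have h5 : ∫ y, Complex.exp (((u * y : ℝ) : ℂ) * Complex.I) ∂U = ((Real.sinc (h * u) : ℝ) : ℂ) := by
        rw [hU, integral_smul_measure]
        rcases kn1b_sinc h u with h6 | h6
        · rw [h6, ENNReal.toReal_ofReal (by positivity), Complex.real_smul, ← Complex.ofReal_mul]
          congr 1
          field_simp
        · linarith
      rw [h5, pow_succ]
      push_cast
      ring

theorem kn1b_log (e t : ℝ) (he : e = 1 ∨ e = -1) (ht : 0 < t) (r : ℝ) :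
    (1 / (-(((e * t : ℝ) : ℂ) * Complex.I))) ^ ((r + 1 : ℝ) : ℂ) =
      ((t ^ (-(r + 1)) : ℝ) : ℂ) * Complex.exp (((e * ((r + 1) * (Real.pi / 2)) : ℝ) : ℂ) * Complex.I) := by
  have ht0 : (t : ℂ) ≠ 0 := by exact_mod_cast ht.ne'
  have htI : 0 < t⁻¹ := inv_pos.2 ht
  rcases he with rfl | rfl
  · have h1 : (1 / (-(((1 * t : ℝ) : ℂ) * Complex.I))) = ((t⁻¹ : ℝ) : ℂ) * Complex.I := by
      push_cast
      have := Complex.I_mul_I
      field_simp
      simp [Complex.I_sq]
    rw [h1, Complex.cpow_def_of_ne_zero (by simp [ht.ne']), Complex.log_ofReal_mul htI Complex.I_ne_zero,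
      Complex.log_I, Real.log_inv]
    rw [Real.rpow_def_of_pos ht, Complex.ofReal_exp, ← Complex.exp_add]
    congr 1
    push_cast
    ring
  · have h1 : (1 / (-(((-1 * t : ℝ) : ℂ) * Complex.I))) = ((t⁻¹ : ℝ) : ℂ) * (-Complex.I) := by
      push_cast
      field_simp
      simp [Complex.I_sq]
    rw [h1, Complex.cpow_def_of_ne_zero (by simp [ht.ne']), Complex.log_ofReal_mul htI (by simp),
      Complex.log_neg_I, Real.log_inv]
    rw [Real.rpow_def_of_pos ht, Complex.ofReal_exp, ← Complex.exp_add]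
    congr 1
    push_cast
    ring

/-- the regularised integral -/
theorem kn1b_reg (r h e ε : ℝ) (q : ℕ) (ν : Measure ℝ) [IsProbabilityMeasure ν] (hr : 1 < r) (hε : 0 < ε)
    (hν : ∀ u : ℝ, ∫ y, Complex.exp (((u * y : ℝ) : ℂ) * Complex.I) ∂ν = ((Real.sinc (h * u) ^ q : ℝ) : ℂ)) :
    ∫ u in Set.Ioi (0:ℝ), ((u ^ r * Real.sinc (h * u) ^ q : ℝ) : ℂ) *
        Complex.exp (-(((ε : ℂ) - ((e : ℝ) : ℂ) * Complex.I) * u)) =
      ∫ y, (1 / ((ε : ℂ) - (((e + y : ℝ) : ℝ) : ℂ) * Complex.I)) ^ ((r + 1 : ℝ) : ℂ) *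
        Complex.Gamma ((r + 1 : ℝ) : ℂ) ∂ν := by
  have h1 : ∀ u : ℝ, ((u ^ r * Real.sinc (h * u) ^ q : ℝ) : ℂ) *
        Complex.exp (-(((ε : ℂ) - ((e : ℝ) : ℂ) * Complex.I) * u)) =
      ∫ y, ((u ^ r : ℝ) : ℂ) * Complex.exp (-(((ε : ℂ) - (((e + y : ℝ) : ℝ) : ℂ) * Complex.I) * u)) ∂ν := by
    intro u
    have h2 : ∀ y : ℝ, ((u ^ r : ℝ) : ℂ) * Complex.exp (-(((ε : ℂ) - (((e + y : ℝ) : ℝ) : ℂ) * Complex.I) * u)) =
        (((u ^ r : ℝ) : ℂ) * Complex.exp (-(((ε : ℂ) - ((e : ℝ) : ℂ) * Complex.I) * u))) *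
          Complex.exp (((u * y : ℝ) : ℂ) * Complex.I) := by
      intro y
      rw [mul_assoc, ← Complex.exp_add]
      congr 2
      push_cast
      ring
    simp only [h2]
    rw [integral_const_mul, hν u]
    push_cast
    ring
  simp only [h1]
  rw [integral_integral_swap]
  · refine integral_congr_ae (Filter.Eventually.of_forall (fun y => ?_))
    have := kn1b_gamma r (by linarith) ((ε : ℂ) - (((e + y : ℝ) : ℝ) : ℂ) * Complex.I) (by simp [hε])
    exact this
  · have hint := kn1b_int r ε (by linarith) hε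
    have hprod : Integrable (fun z : ℝ × ℝ => (z.1 ^ r * Real.exp (-(ε * z.1))) * 1)
        ((volume.restrict (Set.Ioi 0)).prod ν) :=
      Integrable.mul_prod (f := fun u : ℝ => u ^ r * Real.exp (-(ε * u))) (g := fun _ : ℝ => (1:ℝ)) hint
        (integrable_const _)
    refine Integrable.mono' hprod ?_ ?_
    · refine Measurable.aestronglyMeasurable ?_
      have h3 : Measurable (fun z : ℝ × ℝ => ((z.1 ^ r : ℝ) : ℂ)) :=
        Complex.measurable_ofReal.comp (measurable_fst.pow_const r)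
      refine h3.mul (Complex.measurable_exp.comp ?_)
      refine Measurable.neg ?_
      refine Measurable.mul ?_ (Complex.measurable_ofReal.comp measurable_fst)
      refine measurable_const.sub ?_
      exact (Complex.measurable_ofReal.comp (measurable_const.add measurable_snd)).mul_const _
    · have hpos : ∀ᵐ z : ℝ × ℝ ∂((volume.restrict (Set.Ioi 0)).prod ν), 0 < z.1 := by
        have h4 : ((volume.restrict (Set.Ioi (0:ℝ))).prod ν) (Set.Iic 0 ×ˢ Set.univ) = 0 := by
          rw [Measure.prod_prod, Measure.restrict_apply measurableSet_Iic]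
          have h30 : Set.Iic (0:ℝ) ∩ Set.Ioi 0 = ∅ := by
            ext x
            simp
          rw [h30]
          simp
        rw [ae_iff]
        refine measure_mono_null ?_ h4
        intro z hz
        simpa using hz
      filter_upwards [hpos] with z hz
      have h5 := kn1b_norm r ((ε : ℂ) - (((e + z.2 : ℝ) : ℝ) : ℂ) * Complex.I) z.1 hz
      simp only [Function.uncurry]
      rw [h5]
      simp

theorem kn1b_main (r α κ e : ℝ) (q : ℕ) (hr : 1 < r) (hκ : 0 < κ) (hqκ : q * κ ≤ 1) (hq : r + 10 ≤ q)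
    (he : e = 1 ∨ e = -1) : ∃ A : ℝ, 0 < A ∧
    (∫ u in Set.Ioi (0:ℝ), sM r α κ q ((1 / 4) * u) * Complex.exp (((e * u : ℝ) : ℂ) * Complex.I)).re =
      A * Real.cos (α * Real.pi / 2 + e * ((r + 1) * (Real.pi / 2))) := by
  obtain ⟨ν, hνp, hν0, hν⟩ := kn1b_nu (κ / 4) (by positivity) q
  have hee : e * e = 1 := by rcases he with rfl | rfl <;> norm_num
  have hae : ∀ᵐ y ∂ν, |y| ≤ 1 / 4 := by
    rw [ae_iff]
    refine measure_mono_null ?_ hν0
    intro y hy
    simp only [Set.mem_setOf_eq, not_le] at hy ⊢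
    have : (q : ℝ) * (κ / 4) ≤ 1 / 4 := by linarith
    linarith
  -- the regularised integral
  set Ph : ℝ → ℂ := fun u => sM r α κ q ((1 / 4) * u) * Complex.exp (((e * u : ℝ) : ℂ) * Complex.I) with hPh
  have hphi : Ph = kn2_Phi r α κ e q := rfl
  set E : ℂ := Complex.exp (((α * Real.pi / 2 : ℝ) : ℂ) * Complex.I) with hE
  have hreg : ∀ ε : ℝ, 0 < ε → ∫ u in Set.Ioi (0:ℝ), Ph u * ((Real.exp (-(ε * u)) : ℝ) : ℂ) =
      E * (((1 / 4 : ℝ) ^ r : ℝ) : ℂ) * ∫ y, (1 / ((ε : ℂ) - (((e + y : ℝ) : ℝ) : ℂ) * Complex.I)) ^ ((r + 1 : ℝ) : ℂ) *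
        Complex.Gamma ((r + 1 : ℝ) : ℂ) ∂ν := by
    intro ε hε
    rw [← kn1b_reg r (κ / 4) e ε q ν hr hε hν, ← integral_const_mul]
    refine setIntegral_congr_fun measurableSet_Ioi (fun u hu => ?_)
    have hu0 : (0:ℝ) ≤ u := le_of_lt hu
    simp only [hPh, sM]
    rw [show κ * (1 / 4 * u) = κ / 4 * u by ring, Real.mul_rpow (by norm_num) hu0, ← hE]
    have h6 : Complex.exp (-(((ε : ℂ) - ((e : ℝ) : ℂ) * Complex.I) * u)) =
        Complex.exp (((e * u : ℝ) : ℂ) * Complex.I) * ((Real.exp (-(ε * u)) : ℝ) : ℂ) := by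
      rw [Complex.ofReal_exp, ← Complex.exp_add]
      congr 1
      push_cast
      ring
    rw [h6]
    push_cast
    ring
  -- limit of the left-hand side
  have hlim1 : Filter.Tendsto (fun ε : ℝ => ∫ u in Set.Ioi (0:ℝ), Ph u * ((Real.exp (-(ε * u)) : ℝ) : ℂ))
      (nhdsWithin 0 (Set.Ioi 0)) (nhds (∫ u in Set.Ioi (0:ℝ), Ph u)) := by
    refine tendsto_integral_filter_of_dominated_convergence
      (fun u => 16 * (2 + 2 * (κ⁻¹) ^ q) * (1 + u ^ 2)⁻¹) ?_ ?_ ?_ ?_
    · refine Filter.Eventually.of_forall (fun ε => ?_)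
      have hc : Continuous Ph := by rw [hphi]; exact kn2_Phi_cont r α κ e q hr
      exact (hc.mul (by fun_prop)).aestronglyMeasurable
    · filter_upwards [self_mem_nhdsWithin] with ε hε
      refine (ae_restrict_iff' measurableSet_Ioi).2 (Filter.Eventually.of_forall (fun u hu => ?_))
      have hu0 : (0:ℝ) < u := hu
      have hε0 : (0:ℝ) < ε := hε
      rw [norm_mul, Complex.norm_real, Real.norm_of_nonneg (Real.exp_pos _).le]
      have h7 := kn2_Phi_bound r α κ e q hr hκ hq u hu0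
      rw [← hphi] at h7
      have h8 : Real.exp (-(ε * u)) ≤ 1 := by
        rw [Real.exp_le_one_iff]
        have := mul_pos hε0 hu0
        linarith
      calc ‖Ph u‖ * Real.exp (-(ε * u)) ≤ ‖Ph u‖ * 1 := mul_le_mul_of_nonneg_left h8 (norm_nonneg _)
        _ ≤ _ := by rw [mul_one]; exact h7
    · exact (integrable_inv_one_add_sq.const_mul _).integrableOn
    · refine Filter.Eventually.of_forall (fun u => ?_)
      have h9 : Filter.Tendsto (fun ε : ℝ => Ph u * ((Real.exp (-(ε * u)) : ℝ) : ℂ)) (nhds 0)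
          (nhds (Ph u * ((Real.exp (-(0 * u)) : ℝ) : ℂ))) := by
        have hc : Continuous (fun ε : ℝ => Ph u * ((Real.exp (-(ε * u)) : ℝ) : ℂ)) := by fun_prop
        exact hc.tendsto 0
      have h10 : Ph u * ((Real.exp (-(0 * u)) : ℝ) : ℂ) = Ph u := by simp
      rw [h10] at h9
      exact h9.mono_left nhdsWithin_le_nhds
  have hlow : ∀ y : ℝ, |y| ≤ 1 / 4 → 3 / 4 ≤ |e + y| ∧ |e + y| = e * (e + y) ∧ 0 < e * (e + y) := by
    intro y hy
    have hy' := abs_le.1 hy
    rcases he with rfl | rfl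
    · rw [abs_of_pos (by linarith)]
      constructor
      · linarith
      · constructor
        · ring
        · linarith
    · rw [abs_of_neg (by linarith)]
      constructor
      · linarith
      · constructor
        · ring
        · linarith
  set Cst : ℝ := (4 / 3 : ℝ) ^ (r + 1) * ‖Complex.Gamma ((r + 1 : ℝ) : ℂ)‖ with hCst
  have hlim2 : Filter.Tendsto (fun ε : ℝ => ∫ y, (1 / ((ε : ℂ) - (((e + y : ℝ) : ℝ) : ℂ) * Complex.I)) ^ ((r + 1 : ℝ) : ℂ) *
        Complex.Gamma ((r + 1 : ℝ) : ℂ) ∂ν) (nhdsWithin 0 (Set.Ioi 0))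
      (nhds (∫ y, (1 / (((0:ℝ) : ℂ) - (((e + y : ℝ) : ℝ) : ℂ) * Complex.I)) ^ ((r + 1 : ℝ) : ℂ) *
        Complex.Gamma ((r + 1 : ℝ) : ℂ) ∂ν)) := by
    refine tendsto_integral_filter_of_dominated_convergence (fun _ => Cst) ?_ ?_ (integrable_const _) ?_
    · refine Filter.Eventually.of_forall (fun ε => ?_)
      refine Measurable.aestronglyMeasurable ?_
      refine Measurable.mul_const ?_ _
      refine Measurable.pow_const ?_ _
      refine measurable_const.div ?_
      refine measurable_const.sub ?_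
      exact (Complex.measurable_ofReal.comp (measurable_const.add measurable_id)).mul_const _
    · refine Filter.Eventually.of_forall (fun ε => ?_)
      filter_upwards [hae] with y hy
      obtain ⟨h11, -, -⟩ := hlow y hy
      rw [norm_mul, hCst]
      refine mul_le_mul_of_nonneg_right ?_ (norm_nonneg _)
      have hz : (ε : ℂ) - (((e + y : ℝ) : ℝ) : ℂ) * Complex.I ≠ 0 := by
        intro h0
        have := congrArg Complex.im h0
        simp at this
        have h12 : |e + y| = 0 := by rw [abs_eq_zero]; linarith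
        linarith
      have hnz : (1 / ((ε : ℂ) - (((e + y : ℝ) : ℝ) : ℂ) * Complex.I)) ≠ 0 := one_div_ne_zero hz
      rw [Complex.norm_cpow_of_ne_zero hnz]
      simp only [Complex.ofReal_re, Complex.ofReal_im, mul_zero, Real.exp_zero, div_one]
      refine Real.rpow_le_rpow (norm_nonneg _) ?_ (by linarith)
      rw [norm_div, norm_one]
      have h13 : 3 / 4 ≤ ‖(ε : ℂ) - (((e + y : ℝ) : ℝ) : ℂ) * Complex.I‖ := by
        have h14 := Complex.abs_im_le_norm ((ε : ℂ) - (((e + y : ℝ) : ℝ) : ℂ) * Complex.I)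
        simp at h14
        have h15 : |-y + -e| = |e + y| := by rw [← abs_neg]; congr 1; ring
        rw [h15] at h14
        push_cast
        linarith
      rw [div_le_iff₀ (by linarith)]
      linarith
    · filter_upwards [hae] with y hy
      obtain ⟨h11, -, -⟩ := hlow y hy
      have hz : ((0:ℝ) : ℂ) - (((e + y : ℝ) : ℝ) : ℂ) * Complex.I ≠ 0 := by
        intro h0
        have := congrArg Complex.im h0
        simp at this
        have h12 : |e + y| = 0 := by rw [abs_eq_zero]; linarith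
        linarith
      have hslit : (1 / (((0:ℝ) : ℂ) - (((e + y : ℝ) : ℝ) : ℂ) * Complex.I)) ∈ Complex.slitPlane := by
        rw [Complex.mem_slitPlane_iff]
        right
        rw [one_div, Complex.inv_im]
        refine div_ne_zero ?_ (Complex.normSq_pos.2 hz).ne'
        simp
        intro h0
        have h12 : |e + y| = 0 := by rw [abs_eq_zero]; linarith
        linarith
      have hca : ContinuousAt (fun ε : ℝ => (1 / ((ε : ℂ) - (((e + y : ℝ) : ℝ) : ℂ) * Complex.I)) ^ ((r + 1 : ℝ) : ℂ) *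
          Complex.Gamma ((r + 1 : ℝ) : ℂ)) 0 := by
        refine ContinuousAt.mul ?_ continuousAt_const
        refine ContinuousAt.cpow ?_ continuousAt_const hslit
        refine continuousAt_const.div ?_ hz
        exact (Complex.continuous_ofReal.continuousAt).sub continuousAt_const
      exact hca.tendsto.mono_left nhdsWithin_le_nhds
  have heq : ∫ u in Set.Ioi (0:ℝ), Ph u = E * (((1 / 4 : ℝ) ^ r : ℝ) : ℂ) *
      ∫ y, (1 / (((0:ℝ) : ℂ) - (((e + y : ℝ) : ℝ) : ℂ) * Complex.I)) ^ ((r + 1 : ℝ) : ℂ) *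
        Complex.Gamma ((r + 1 : ℝ) : ℂ) ∂ν := by
    refine tendsto_nhds_unique hlim1 ?_
    refine (hlim2.const_mul (E * (((1 / 4 : ℝ) ^ r : ℝ) : ℂ))).congr' ?_
    filter_upwards [self_mem_nhdsWithin] with ε hε
    exact (hreg ε hε).symm
  -- evaluation
  set J : ℝ := ∫ y, |e + y| ^ (-(r + 1)) ∂ν with hJ
  have heval : ∫ y, (1 / (((0:ℝ) : ℂ) - (((e + y : ℝ) : ℝ) : ℂ) * Complex.I)) ^ ((r + 1 : ℝ) : ℂ) *
        Complex.Gamma ((r + 1 : ℝ) : ℂ) ∂ν =
      ((J * Real.Gamma (r + 1) : ℝ) : ℂ) *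
        Complex.exp (((e * ((r + 1) * (Real.pi / 2)) : ℝ) : ℂ) * Complex.I) := by
    have h16 : ∀ᵐ y ∂ν, (1 / (((0:ℝ) : ℂ) - (((e + y : ℝ) : ℝ) : ℂ) * Complex.I)) ^ ((r + 1 : ℝ) : ℂ) *
        Complex.Gamma ((r + 1 : ℝ) : ℂ) = ((|e + y| ^ (-(r + 1)) : ℝ) : ℂ) *
        (((Real.Gamma (r + 1) : ℝ) : ℂ) * Complex.exp (((e * ((r + 1) * (Real.pi / 2)) : ℝ) : ℂ) * Complex.I)) := by
      filter_upwards [hae] with y hy
      obtain ⟨h11, h17, h18⟩ := hlow y hy
      have h19 : e + y = e * (e * (e + y)) := by rw [← mul_assoc, hee, one_mul]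
      have h20 : (1 / (((0:ℝ) : ℂ) - (((e + y : ℝ) : ℝ) : ℂ) * Complex.I)) =
          (1 / (-(((e * (e * (e + y)) : ℝ) : ℂ) * Complex.I))) := by
        rw [← h19]; simp
      rw [h20, kn1b_log e (e * (e + y)) he h18 r, ← h17, ← Complex.Gamma_ofReal]
      ring
    rw [integral_congr_ae h16, integral_mul_const, integral_complex_ofReal]
    push_cast
    ring
  have hJpos : 0 < J := by
    have h21 : Integrable (fun y : ℝ => |e + y| ^ (-(r + 1))) ν := by
      refine Integrable.mono' (integrable_const ((3 / 4 : ℝ) ^ (-(r + 1)))) ?_ ?_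
      · refine Measurable.aestronglyMeasurable ?_
        exact ((measurable_const.add measurable_id).abs).pow_const _
      · filter_upwards [hae] with y hy
        obtain ⟨h11, -, -⟩ := hlow y hy
        rw [Real.norm_of_nonneg (Real.rpow_nonneg (abs_nonneg _) _)]
        exact Real.rpow_le_rpow_of_nonpos (by norm_num) h11 (by linarith)
    have h22 : (∫ _y : ℝ, (2 : ℝ) ^ (-(r + 1)) ∂ν) ≤ J := by
      refine integral_mono_ae (integrable_const _) h21 ?_
      filter_upwards [hae] with y hy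
      obtain ⟨h11, -, -⟩ := hlow y hy
      have h23 : |e + y| ≤ 2 := by
        have := abs_add_le e y
        have h24 : |e| = 1 := by rcases he with rfl | rfl <;> norm_num
        linarith
      exact Real.rpow_le_rpow_of_nonpos (by linarith) h23 (by linarith)
    have h25 : 0 < (2:ℝ) ^ (-(r + 1)) := by positivity
    simp at h22
    have h26 : (2:ℝ) ^ (-(r + 1)) ≤ J := by
      refine le_trans (le_of_eq ?_) h22
      congr 1
      ring
    linarith
  refine ⟨(1 / 4 : ℝ) ^ r * (J * Real.Gamma (r + 1)), ?_, ?_⟩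
  · have := Real.Gamma_pos_of_pos (show 0 < r + 1 by linarith)
    positivity
  · rw [heq, heval, hE]
    have h27 : Complex.exp (((α * Real.pi / 2 : ℝ) : ℂ) * Complex.I) * (((1 / 4 : ℝ) ^ r : ℝ) : ℂ) *
        (((J * Real.Gamma (r + 1) : ℝ) : ℂ) *
        Complex.exp (((e * ((r + 1) * (Real.pi / 2)) : ℝ) : ℂ) * Complex.I)) =
        (((1 / 4 : ℝ) ^ r * (J * Real.Gamma (r + 1)) : ℝ) : ℂ) *
          Complex.exp (((α * Real.pi / 2 + e * ((r + 1) * (Real.pi / 2)) : ℝ) : ℂ) * Complex.I) := by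
      have h31 : (((α * Real.pi / 2 + e * ((r + 1) * (Real.pi / 2)) : ℝ) : ℂ) * Complex.I) =
          ((α * Real.pi / 2 : ℝ) : ℂ) * Complex.I + ((e * ((r + 1) * (Real.pi / 2)) : ℝ) : ℂ) * Complex.I := by
        rw [Complex.ofReal_add, add_mul]
      rw [h31, Complex.exp_add]
      push_cast
      ring
    rw [h27, Complex.re_ofReal_mul, Complex.exp_ofReal_mul_I_re]

theorem t_KN1b : S_KN1 := by
  intro r α κ q hr hloc hκ hqκ hq
  obtain ⟨A, hA, h1⟩ := kn1b_main r α κ 1 q hr hκ hqκ hq (Or.inl rfl)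
  obtain ⟨B, hB, h2⟩ := kn1b_main r α κ (-1) q hr hκ hqκ hq (Or.inr rfl)
  by_contra hcon
  push Not at hcon
  have h3 := hcon 1 (Or.inl rfl)
  have h4 := hcon (-1) (Or.inr rfl)
  rw [h1] at h3
  rw [h2] at h4
  have h5 : Real.cos (α * Real.pi / 2 + 1 * ((r + 1) * (Real.pi / 2))) = 0 := by
    rcases mul_eq_zero.1 h3 with h | h
    · linarith
    · exact h
  have h6 : Real.cos (α * Real.pi / 2 + -1 * ((r + 1) * (Real.pi / 2))) = 0 := by
    rcases mul_eq_zero.1 h4 with h | h
    · linarith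
    · exact h
  obtain ⟨k, hk⟩ := Real.cos_eq_zero_iff.1 h5
  obtain ⟨l, hl⟩ := Real.cos_eq_zero_iff.1 h6
  have hpi := Real.pi_pos
  have h7 : α + (r + 1) = 2 * k + 1 := by
    have : (α + (r + 1)) * (Real.pi / 2) = (2 * k + 1) * (Real.pi / 2) := by linarith
    exact mul_right_cancel₀ (by positivity) this
  have h8 : α - (r + 1) = 2 * l + 1 := by
    have : (α - (r + 1)) * (Real.pi / 2) = (2 * l + 1) * (Real.pi / 2) := by linarith
    exact mul_right_cancel₀ (by positivity) this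
  have h9 : r = ((k - l - 1 : ℤ) : ℝ) := by push_cast; linarith
  have h10 : 0 ≤ k - l - 1 := by
    have : (1:ℝ) < ((k - l - 1 : ℤ) : ℝ) := by rw [← h9]; exact hr
    have h11 : 1 < k - l - 1 := by exact_mod_cast this
    linarith
  apply hloc
  refine ⟨(k - l - 1).toNat, l + 1, ?_, ?_⟩
  · have h12 : (((k - l - 1).toNat : ℤ) : ℝ) = ((k - l - 1 : ℤ) : ℝ) := by rw [Int.toNat_of_nonneg h10]
    rw [h9]
    exact_mod_cast h12.symm
  · have h12 : (((k - l - 1).toNat : ℤ) : ℝ) = ((k - l - 1 : ℤ) : ℝ) := by rw [Int.toNat_of_nonneg h10]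
    have h13 : (((k - l - 1).toNat : ℕ) : ℝ) = r := by rw [h9]; exact_mod_cast h12
    rw [h13]
    push_cast
    linarith

end Pool.Agent.H729R2.FO
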