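import Mathlib
import Pool.Agent.H729R2.FO.Stubs

set_option autoImplicit false

namespace Pool.Agent.H729R2.FO

open MeasureTheory Pool.Agent.H729R2.CB Pool.Agent.Helper150.Cub

open scoped Classical

noncomputable section

/-- CC part 1: continuity, nodes, expansion -/
def S_CCN : Prop := ∀ (r a C z₀ : ℝ) (F : G → ℝ) (M K Y : ℝ → G → ℝ), Kn r a C z₀ F M K Y →
  ∀ (β₀ b j₀ : ℕ) (X : Finset G) (Z : ℕ → Finset G) (U : G → ℝ), 2 ≤ β₀ → (1 / 2) ^ b ≤ z₀ →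
    (∀ j, Reps β₀ b j X (Z j)) → Continuous U →
    (∀ k, Continuous (us Y β₀ b j₀ Z U k)) ∧
    (∀ k x, us Y β₀ b j₀ Z U k x = U x - ∑ i ∈ Finset.range k, ∑ ζ ∈ Z (j₀ + i),
      us Y β₀ b j₀ Z U i ζ * Y (zz β₀ b (j₀ + i)) (x - ζ)) ∧
    (∀ k, ∀ ξ ∈ X, Fc F (fun x => us Y β₀ b j₀ Z U k x - U x) ξ = 0)

/-- CC part 2: far and near bounds -/
def S_CCF : Prop := ∀ (r a C z₀ : ℝ) (F : G → ℝ) (M K Y : ℝ → G → ℝ), Kn r a C z₀ F M K Y → ∀ CH : ℝ, 1 ≤ CH →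
  ∃ (C₂ : ℝ) (β₁ : ℕ), 1 ≤ C₂ ∧ 1 ≤ β₁ ∧ ∀ β₀, β₁ ≤ β₀ → ∀ (b j₀ : ℕ) (X : Finset G) (Z : ℕ → Finset G)
    (bb U : G → ℝ) (B : ℝ), (1 / 2) ^ b ≤ z₀ → (∀ j, Reps β₀ b j X (Z j)) → Hcc a CH β₀ b j₀ X bb U B →
    (∀ k x, (∀ ξ ∈ X, ta β₀ b j₀ ≤ ‖x - ξ‖) → |us Y β₀ b j₀ Z U k x - U x| ≤ C₂ * bb x) ∧
    (∀ k x j, j₀ ≤ j → j ≤ j₀ + k → (∃ ξ ∈ X, ‖x - ξ‖ < ta β₀ b j) →
      |us Y β₀ b j₀ Z U k x| ≤ C₂ * bb x * (1 / 2) ^ (j - j₀ - nn X x (2 * ta β₀ b j₀)))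

/-- CC part 3: integrals -/
def S_CCI : Prop := ∀ (r a C z₀ : ℝ) (F : G → ℝ) (M K Y : ℝ → G → ℝ), Kn r a C z₀ F M K Y → ∀ CH : ℝ, 1 ≤ CH →
  ∃ (C₂ : ℝ) (β₁ : ℕ), 1 ≤ C₂ ∧ 1 ≤ β₁ ∧ ∀ β₀, β₁ ≤ β₀ → ∀ (b j₀ : ℕ) (X : Finset G) (Z : ℕ → Finset G)
    (bb U : G → ℝ) (B : ℝ), (1 / 2) ^ b ≤ z₀ → (∀ j, Reps β₀ b j X (Z j)) → Hcc a CH β₀ b j₀ X bb U B →
    (∀ k j i, |∫ x in Cell j i, (us Y β₀ b j₀ Z U k x - U x) ∂hm| ≤ C₂ * B * ta β₀ b j₀) ∧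
    (∀ k, |∫ x, (us Y β₀ b j₀ Z U k x - U x) ∂hm| ≤ C₂ * B * X.card * (ta β₀ b j₀) ^ (1 + r))

/-- DEC part 1: the corrected function -/
def S_DEA : Prop := ∀ (r a C z₀ : ℝ) (F : G → ℝ) (M K Y : ℝ → G → ℝ), Kn r a C z₀ F M K Y → ∀ τ β C₁ : ℝ,
  1 < τ → 1 < β → β < 2 → τ * β < a - 1 → 1 ≤ C₁ → ∃ (C₃ : ℝ) (β₁ : ℕ), 1 ≤ C₃ ∧ 1 ≤ β₁ ∧
  ∀ (β₀ J₁ D₀ b j₀ Jm : ℕ) (X : Finset G) (cr U h : G → ℝ) (D A c₁ : ℝ), β₁ ≤ β₀ → 1 ≤ D → (1 / 2) ^ b ≤ z₀ →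
    j₀ ≤ Jm → Gau τ C₁ β₀ J₁ D₀ b X cr → Continuous U → 0 ≤ A →
    (∀ x, |U x| ≤ A * bbf β D cr x) →
    (∀ ξ ∈ X, ∀ x y, ‖x - ξ‖ ≤ ta β₀ b j₀ → ‖y - ξ‖ ≤ ta β₀ b j₀ →
      |U x - U y| ≤ A * bbf β D cr ξ * (‖x - y‖ / ta β₀ b j₀)) →
    (∀ j i, |∫ x in Cell j i, U x ∂hm| ≤ A * (1 / 2) ^ b) →
    Continuous h → 0 ≤ c₁ → EQ F X c₁ h →
    ∃ u : G → ℝ, Continuous u ∧
      |(∫ x, h x * U x ∂hm) - ∫ x, h x * u x ∂hm| ≤ C₃ * A * (c₁ * X.card * ((1 / 2) ^ b) ^ (1 + r)) ∧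
      (∀ x, |u x| ≤ C₃ * A * bbf β D cr x) ∧
      (∀ x j, j₀ ≤ j → j ≤ Jm → (∃ ξ ∈ X, ‖x - ξ‖ < ta β₀ b j) →
        |u x| ≤ C₃ * A * (1 / 2) ^ (j - j₀ - nn X x (2 * (1 / 2) ^ b))) ∧
      (∀ j i, |∫ x in Cell j i, u x ∂hm| ≤ C₃ * A * (1 / 2) ^ b)

/-- GA2 part 1: integrals of the profile, sums of suprema over cells -/
def S_GAS : Prop := ∀ τ : ℝ, 1 < τ → τ ≤ 2 → ∃ C : ℝ, 1 ≤ C ∧ (∀ (b : ℕ) (y : G), ∫ x, ph0 τ b x y ∂hm ≤ C * (1 / 2) ^ b) ∧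
  ∀ (b g : ℕ) (x : G), g ≤ b → ∑ i ∈ Finset.range (2 ^ g), sSup (ph0 τ b x '' Cell g i) ≤ C

/-- GA2 part 2: points near nodes -/
def S_GAD : Prop := ∀ (g i : ℕ) (X : Finset G) (t : ℝ), 0 < t → t ≤ 1 → 1 ≤ g → i < 2 ^ g →
  (hm {x | x ∈ Cell g i ∧ ∃ ξ ∈ X, ‖x - ξ‖ < t}).toReal ≤ ((nc X g i : ℝ) + 2) * t / Real.pi

/-- GA2 part 3: the middle of an arc -/
def S_GAO : Prop := ∀ g i : ℕ, i < 2 ^ g →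
  (∀ x y, x ∈ Cell g i → y ∉ Cell g i → min ‖x - endp g i‖ ‖x - endp g (i + 1)‖ ≤ ‖x - y‖) ∧
  (1 - 1 / 8) * (1 / 2) ^ g ≤
    (hm {x | x ∈ Cell g i ∧ ∀ y, y ∉ Cell g i → Real.pi / 8 * (1 / 2) ^ g ≤ ‖x - y‖}).toReal

/-- ONB part 1: the smoothed function -/
def S_OBU : Prop := ∀ (r a C z₀ : ℝ) (F : G → ℝ) (M K Y : ℝ → G → ℝ), Kn r a C z₀ F M K Y → ∀ τ β : ℝ,
  1 < τ → 1 < β → β < 2 → τ * β < a - 1 → ∃ C₄ : ℝ, 1 ≤ C₄ ∧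
  ∀ (b T e : ℕ) (D : ℝ) (cr f : G → ℝ), 4 ≤ e → 1 ≤ D → (∀ x, 0 ≤ cr x) →
    (∀ x y, cr x ≤ (1 + 2 ^ b * ‖x - y‖) ^ τ * cr y) → Measurable f → (∃ B, ∀ x, |f x| ≤ B) →
    (∀ x, f x ≠ 0 → ∃ y, cr y ≤ D ∧ cidx (b + T + e) y = cidx (b + T + e) x) →
    (∀ i, i < 2 ^ (b + T + e) → ∫ x in Cell (b + T + e) i, f x ∂hm = 0) →
    (∀ i, i < 2 ^ (b + T + e) → ∫ x in Cell (b + T + e) i, |f x| ∂hm ≤ 2 * (1 / 2) ^ (b + T + e)) →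
    Continuous (fun y => ∫ x, f x * K ((1 / 2) ^ (b + T) / 2) (y - x) ∂hm) ∧
    (∀ y, |∫ x, f x * K ((1 / 2) ^ (b + T) / 2) (y - x) ∂hm| ≤ C₄ * (1 / 2) ^ e * bbf β D cr y) ∧
    (∀ y y', |(∫ x, f x * K ((1 / 2) ^ (b + T) / 2) (y - x) ∂hm) - ∫ x, f x * K ((1 / 2) ^ (b + T) / 2) (y' - x) ∂hm|
      ≤ C₄ * (2 ^ (b + T) * ‖y - y'‖) * (bbf β D cr y + bbf β D cr y')) ∧
    (∀ j i, |∫ y in Cell j i, (∫ x, f x * K ((1 / 2) ^ (b + T) / 2) (y - x) ∂hm) ∂hm| ≤ C₄ * (1 / 2) ^ e * (1 / 2) ^ b)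

/-- RZ part 1: regularity and fairness of the Riesz product -/
def S_RZF : Prop := ∀ a C : ℝ, 2 < a → 1 ≤ C → ∃ C₅ : ℝ, 1 ≤ C₅ ∧ ∀ M : ℝ → G → ℝ,
  (∀ s, 0 < s → s ≤ 1 → Bd a C s (M s)) → ∀ (n q₀ N D d : ℕ) (γ : ℝ), q₀ + N ≤ n → 0 ≤ γ →
  100 * C₅ * γ * ((D + d + 1 : ℕ) : ℝ) ≤ 1 → ∀ sel : ℕ → ℕ → (G → ℝ) → G → ℝ,
  (∀ q i w, q₀ ≤ q → q < q₀ + N → i < 2 ^ q → Fair (n - q + d) w → Measurable (sel q i w) ∧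
    (∀ y, |sel q i w y| ≤ 2 * w y) ∧
    ∀ i', i' < 2 ^ (n - q - D) → ∫ y in Cell (n - q - D) i', sel q i w y ∂hm = 0) →
  ∀ k, k ≤ N → Rg (q₀ + k) (Ps M γ q₀ sel k) ∧
    (k < N → ∀ i, i < 2 ^ (q₀ + k) →
      Fair (n - (q₀ + k) + d) (fun y => Ps M γ q₀ sel k (cen (q₀ + k) i, y)))

/-- RZ part 2: pairing one step with `E` -/
def S_RZP : Prop := ∀ (M : ℝ → G → ℝ) (γ : ℝ) (q : ℕ) (u : ℕ → G → ℝ) (Ψ E : G × G → ℝ),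
  Continuous (M ((1 / 2) ^ q)) → Continuous E → Measurable Ψ → (∃ B, ∀ x, |Ψ x| ≤ B) →
  (∀ i, i < 2 ^ q → Measurable (u i) ∧ (∃ B, ∀ y, |u i y| ≤ B)) →
  (∫ x, E x * stp M γ q u Ψ x ∂(hm.prod hm) = ∫ x, E x * Ψ x ∂(hm.prod hm) -
    γ * (1 / 2) ^ q * ∑ i ∈ Finset.range (2 ^ q), ∫ y, hq E M q i y * u i y ∂hm) ∧
  ((∀ i, i < 2 ^ q → ∫ y, u i y ∂hm = 0) →
    ∫ x, stp M γ q u Ψ x ∂(hm.prod hm) = ∫ x, Ψ x ∂(hm.prod hm))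

end

end Pool.Agent.H729R2.FO
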