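import Mathlib
import Pool.Agent.H729R2.FO.Stubs

set_option autoImplicit false

namespace Pool.Agent.H729R2.FO

open MeasureTheory Pool.Agent.H729R2.CB Pool.Agent.Helper150.Cub

open scoped Classical

noncomputable section

/-- `max (1, |k|)` -/
def kb (k : ℤ) : ℝ := max 1 |(k : ℝ)|

/-- the dual lattice without the origin -/
def dl (N g : ℕ) : Set (ℤ × ℤ) := {k | k ≠ 0 ∧ (N : ℤ) ∣ k.1 + g * k.2}

/-- the nodes of the lattice rule -/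
def ln (N g : ℕ) (μ : ℕ) : ℝ × ℝ := (2 * Real.pi * μ / N, 2 * Real.pi * (g * μ) / N)

/-- the error of a formula is bounded by the sup norm of `errF` -/
def S_UPA : Prop := ∀ (𝕜 : Type) [RCLike 𝕜] (r α : ℝ), 1 < r → ∀ (m : ℕ) (w : Fin m → ℝ) (ξ : Fin m → ℝ × ℝ) (B : ℝ),
  0 ≤ B → (∀ y : G × G, |errF r α w (fun μ => (((ξ μ).1 : G), ((ξ μ).2 : G))) y| ≤ B) →
  kappa m (W 𝕜 r α) ≤ ENNReal.ofReal B

/-- the error function of a lattice rule -/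
def S_UPB : Prop := ∀ (r α : ℝ), 1 < r → ∀ (N g : ℕ), 1 ≤ N →
  Summable (fun k : ℤ × ℤ => (dl N g).indicator (fun k => kb k.1 ^ (-r) * kb k.2 ^ (-r)) k) ∧
  ∀ y : G × G, |errF r α (fun _ : Fin N => (1 : ℝ) / N)
      (fun μ => (((ln N g μ).1 : G), ((ln N g μ).2 : G))) y|
    ≤ ∑' k : ℤ × ℤ, (dl N g).indicator (fun k => kb k.1 ^ (-r) * kb k.2 ^ (-r)) k

/-- the Fibonacci lattice -/
def S_UPC : Prop := ∀ (n : ℕ) (k : ℤ × ℤ), 1 ≤ n → k ∈ dl (Nat.fib (n + 1)) (Nat.fib n) →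
  (Nat.fib (n + 1) : ℝ) ≤ 20 * (kb k.1 * kb k.2)

/-- the number of points of a good dual lattice in a box -/
def S_UPN : Prop := ∀ (N g : ℕ) (K : ℝ), 1 ≤ N → 1 ≤ K → (∀ k ∈ dl N g, (N : ℝ) ≤ K * (kb k.1 * kb k.2)) →
  ∀ (P Q : ℝ) (S : Finset (ℤ × ℤ)), 1 ≤ P → 1 ≤ Q →
    (∀ k ∈ S, k ∈ dl N g ∧ |(k.1 : ℝ)| ≤ P ∧ |(k.2 : ℝ)| ≤ Q) → (S.card : ℝ) ≤ 100 * K * (1 + P * Q / N)

/-- the sum over a good dual lattice -/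
def S_UPD : Prop := ∀ (r K : ℝ), 1 < r → 1 ≤ K → ∃ C : ℝ, 0 < C ∧ ∀ (N g : ℕ), 2 ≤ N →
  (∀ k ∈ dl N g, (N : ℝ) ≤ K * (kb k.1 * kb k.2)) →
  ∑' k : ℤ × ℤ, (dl N g).indicator (fun k => kb k.1 ^ (-r) * kb k.2 ^ (-r)) k ≤ C * ((N : ℝ) ^ (-r) * Real.log N)

/-- the upper bound -/
def S_UPP : Prop := ∀ (𝕜 : Type) [RCLike 𝕜] (r α : ℝ), 1 < r → ∃ C : ℝ, 0 < C ∧ ∃ m₀ : ℕ, ∀ m : ℕ, m₀ ≤ m →
  kappa m (W 𝕜 r α) ≤ ENNReal.ofReal (C * ((m:ℝ) ^ (-r) * Real.log m))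

end

end Pool.Agent.H729R2.FO
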