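import Mathlib
import Pool.Agent.H729R2.FO.Stubs

set_option autoImplicit false

namespace Pool.Agent.H729R2.FO

open MeasureTheory Pool.Agent.H729R2.CB Pool.Agent.Helper150.Cub

open scoped Classical

noncomputable section

def arc_phi (a s ρ u : ℝ) : ℝ := if ρ ≤ u then (1 + u / s) ^ (-a) else 0

lemma arc_phi_nonneg {a s ρ u : ℝ} (hs : 0 < s) (hu : 0 ≤ u) : 0 ≤ arc_phi a s ρ u := by
  unfold arc_phi
  split_ifs
  · positivity
  · exact le_rfl

lemma arc_phi_le {a s ρ u : ℝ} (ha : 2 < a) (hs : 0 < s) (hu : 0 ≤ u) : arc_phi a s ρ u ≤ 1 := by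
  unfold arc_phi
  split_ifs
  · apply Real.rpow_le_one_of_one_le_of_nonpos
    · have : 0 ≤ u / s := by positivity
      linarith
    · linarith
  · exact zero_le_one

lemma arc_phi_meas (a s ρ : ℝ) : Measurable (arc_phi a s ρ) := by
  unfold arc_phi
  refine Measurable.ite (measurableSet_le measurable_const measurable_id) ?_ measurable_const
  exact ((measurable_const.add (measurable_id.div_const s))).pow_const _

lemma arc_phi_ii {a s ρ : ℝ} (ha : 2 < a) (hs : 0 < s) (A B : ℝ) :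
    IntervalIntegrable (fun t => arc_phi a s ρ |t|) volume A B := by
  refine (intervalIntegrable_const (c := (1 : ℝ))).mono_fun' ?_ ?_
  · exact ((arc_phi_meas a s ρ).comp measurable_id.abs).aestronglyMeasurable
  · refine Filter.Eventually.of_forall fun t => ?_
    show ‖arc_phi a s ρ |t|‖ ≤ 1
    rw [Real.norm_eq_abs, abs_of_nonneg (arc_phi_nonneg hs (abs_nonneg t))]
    exact arc_phi_le ha hs (abs_nonneg t)

lemma arc_half {a s ρ : ℝ} (ha : 2 < a) (hs : 0 < s) (hρ : 0 ≤ ρ) :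
    ∫ t in (0 : ℝ)..Real.pi, arc_phi a s ρ |t| ≤ s * (1 + ρ / s) ^ (1 - a) := by
  have hpi := Real.pi_pos
  have h0 : ∫ t in (0 : ℝ)..Real.pi, arc_phi a s ρ |t| ≤
      ∫ t in (0 : ℝ)..(ρ + Real.pi), arc_phi a s ρ |t| := by
    rw [← intervalIntegral.integral_add_adjacent_intervals (arc_phi_ii ha hs 0 Real.pi)
      (arc_phi_ii ha hs Real.pi (ρ + Real.pi))]
    have : 0 ≤ ∫ t in Real.pi..(ρ + Real.pi), arc_phi a s ρ |t| :=
      intervalIntegral.integral_nonneg (by linarith) (fun t _ => arc_phi_nonneg hs (abs_nonneg t))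
    linarith
  have h1 : ∫ t in (0 : ℝ)..ρ, arc_phi a s ρ |t| ≤ 0 := by
    have h := intervalIntegral.integral_mono_on_of_le_Ioo hρ (arc_phi_ii (ρ := ρ) ha hs 0 ρ)
      (intervalIntegrable_const (c := (0 : ℝ)) (μ := volume)) (fun t ht => by
        rw [arc_phi, abs_of_pos ht.1, if_neg (not_le.2 ht.2)])
    simpa using h
  have hder : ∀ t ∈ Set.uIcc ρ (ρ + Real.pi),
      HasDerivAt (fun t => -(s / (a - 1)) * (1 + t / s) ^ (1 - a)) ((1 + t / s) ^ (-a)) t := by
    intro t ht
    rw [Set.uIcc_of_le (by linarith)] at ht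
    have ht0 : 0 ≤ t := le_trans hρ ht.1
    have hp : 0 < 1 + t / s := by positivity
    have e1 : HasDerivAt (fun t : ℝ => 1 + t / s) (1 / s) t := by
      simpa using ((hasDerivAt_id t).div_const s).const_add 1
    have e2 := (e1.rpow_const (p := 1 - a) (Or.inl hp.ne')).const_mul (-(s / (a - 1)))
    have ha1 : a - 1 ≠ 0 := by linarith
    have hv : -(s / (a - 1)) * (1 / s * (1 - a) * (1 + t / s) ^ (1 - a - 1)) =
        (1 + t / s) ^ (-a) := by
      rw [show 1 - a - 1 = -a by ring]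
      have hv2 : -(s / (a - 1)) * (1 / s * (1 - a)) = 1 := by
        field_simp
        ring
      rw [← mul_assoc, hv2, one_mul]
    rw [hv] at e2
    exact e2
  have hint : IntervalIntegrable (fun t : ℝ => (1 + t / s) ^ (-a)) volume ρ (ρ + Real.pi) := by
    apply ContinuousOn.intervalIntegrable
    rw [Set.uIcc_of_le (by linarith)]
    apply ContinuousOn.rpow_const
    · fun_prop
    · intro t ht
      left
      have ht0 : 0 ≤ t := le_trans hρ ht.1
      positivity
  have h2 : ∫ t in ρ..(ρ + Real.pi), arc_phi a s ρ |t| ≤ s * (1 + ρ / s) ^ (1 - a) := by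
    have h3 : ∫ t in ρ..(ρ + Real.pi), arc_phi a s ρ |t| =
        ∫ t in ρ..(ρ + Real.pi), (1 + t / s) ^ (-a) := by
      apply intervalIntegral.integral_congr
      intro t ht
      rw [Set.uIcc_of_le (by linarith)] at ht
      show arc_phi a s ρ |t| = _
      rw [arc_phi, abs_of_nonneg (le_trans hρ ht.1), if_pos ht.1]
    rw [h3, intervalIntegral.integral_eq_sub_of_hasDerivAt hder hint]
    have hp1 : 0 ≤ (1 + (ρ + Real.pi) / s) ^ (1 - a) := by positivity
    have hp2 : 0 ≤ (1 + ρ / s) ^ (1 - a) := by positivity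
    have hq : 0 ≤ s / (a - 1) := div_nonneg hs.le (by linarith)
    have hq2 : s / (a - 1) ≤ s := div_le_self hs.le (by linarith)
    have := mul_nonneg hq hp1
    nlinarith [mul_le_mul_of_nonneg_right hq2 hp2]
  have h4 := intervalIntegral.integral_add_adjacent_intervals (arc_phi_ii (ρ := ρ) ha hs 0 ρ)
      (arc_phi_ii ha hs ρ (ρ + Real.pi))
  linarith

lemma arc_tail {a s ρ : ℝ} (ha : 2 < a) (hs : 0 < s) (hρ : 0 ≤ ρ) :
    ∫ x : G, arc_phi a s ρ ‖x‖ ∂hm ≤ s * (1 + ρ / s) ^ (1 - a) := by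
  have hpi := Real.pi_pos
  rw [AddCircle.integral_haarAddCircle, ← AddCircle.intervalIntegral_preimage (2 * Real.pi) (-Real.pi)]
  have h1 : ∫ t in (-Real.pi)..(-Real.pi + 2 * Real.pi), arc_phi a s ρ ‖(t : G)‖ =
      ∫ t in (-Real.pi)..Real.pi, arc_phi a s ρ |t| := by
    rw [show -Real.pi + 2 * Real.pi = Real.pi by ring]
    apply intervalIntegral.integral_congr
    intro t ht
    rw [Set.uIcc_of_le (by linarith)] at ht
    show arc_phi a s ρ ‖(t : G)‖ = _
    rw [(AddCircle.norm_coe_eq_abs_iff (2 * Real.pi) (by positivity)).2 ?_]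
    rw [abs_of_pos (by positivity : 0 < 2 * Real.pi), mul_div_cancel_left₀ _ two_ne_zero]
    exact abs_le.2 ⟨ht.1, ht.2⟩
  rw [h1, ← intervalIntegral.integral_add_adjacent_intervals (arc_phi_ii ha hs (-Real.pi) 0)
      (arc_phi_ii ha hs 0 Real.pi)]
  have h2 : ∫ t in (-Real.pi)..0, arc_phi a s ρ |t| = ∫ t in (0 : ℝ)..Real.pi, arc_phi a s ρ |t| := by
    have := intervalIntegral.integral_comp_neg (a := (0 : ℝ)) (b := Real.pi)
      (f := fun t => arc_phi a s ρ |t|)
    simp only [abs_neg, neg_zero] at this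
    exact this.symm
  rw [h2, smul_eq_mul]
  have h3 := arc_half ha hs hρ
  have h4 : 0 ≤ s * (1 + ρ / s) ^ (1 - a) := by positivity
  have h5 : (2 * Real.pi)⁻¹ * (2 * (s * (1 + ρ / s) ^ (1 - a))) ≤ s * (1 + ρ / s) ^ (1 - a) := by
    rw [inv_mul_le_iff₀ (by positivity)]
    have := Real.pi_gt_three
    nlinarith
  refine le_trans ?_ h5
  apply mul_le_mul_of_nonneg_left _ (by positivity)
  linarith

lemma arc_rep_mem (x : G) : 0 ≤ rep x ∧ rep x < 2 * Real.pi := by
  have h1 := (AddCircle.equivIco (2 * Real.pi) 0 x).2.1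
  have h2 := (AddCircle.equivIco (2 * Real.pi) 0 x).2.2
  refine ⟨h1, ?_⟩
  unfold rep
  linarith

lemma arc_rep_coe (x : G) : ((rep x : ℝ) : G) = x := AddCircle.coe_equivIco

lemma arc_norm_le (t : ℝ) : ‖(t : G)‖ ≤ |t| := by
  rw [← Real.norm_eq_abs]
  exact QuotientAddGroup.norm_mk_le_norm

lemma arc_norm_le' (t : ℝ) (k : ℤ) : ‖(t : G)‖ ≤ |t - k * (2 * Real.pi)| := by
  have h0 : ((k * (2 * Real.pi) : ℝ) : G) = 0 :=
    (AddCircle.coe_eq_zero_iff (2 * Real.pi)).2 ⟨k, by simp⟩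
  have h : (t : G) = ((t - k * (2 * Real.pi) : ℝ) : G) := by
    rw [AddCircle.coe_sub, h0, sub_zero]
  rw [h]
  exact arc_norm_le _

lemma arc_cidx_iff (j i : ℕ) (x : G) : cidx j x = i ↔
    (i : ℝ) * (2 * Real.pi) / 2 ^ j ≤ rep x ∧ rep x < ((i : ℝ) + 1) * (2 * Real.pi) / 2 ^ j := by
  have hpi := Real.pi_pos
  have h := arc_rep_mem x
  have h2 : (0 : ℝ) < 2 ^ j := by positivity
  unfold cidx
  rw [Nat.floor_eq_iff (by have := h.1; positivity), div_le_iff₀ h2, lt_div_iff₀ h2,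
    le_div_iff₀ (by positivity), div_lt_iff₀ (by positivity)]

lemma arc_k0 {k : ℤ} (h1 : (k : ℝ) * (2 * Real.pi) < 2 * Real.pi)
    (h2 : -(2 * Real.pi) < (k : ℝ) * (2 * Real.pi)) : k = 0 := by
  have hpi := Real.pi_pos
  have h3 : (k : ℝ) < 1 := by nlinarith
  have h4 : (-1 : ℝ) < k := by nlinarith
  have h5 : k < 1 := by exact_mod_cast h3
  have h6 : -1 < k := by exact_mod_cast h4
  omega

lemma arc_geo {j i : ℕ} (hi : i < 2 ^ j) (x y : G) (h : ¬ (cidx j x = i ↔ cidx j y = i)) :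
    min ‖y - endp j i‖ ‖y - endp j (i + 1)‖ ≤ ‖x - y‖ := by
  have hpi := Real.pi_pos
  set E1 : ℝ := (i : ℝ) * (2 * Real.pi) / 2 ^ j with hE1
  set E2 : ℝ := ((i : ℝ) + 1) * (2 * Real.pi) / 2 ^ j with hE2
  have h2 : (0 : ℝ) < 2 ^ j := by positivity
  have f1 : 0 ≤ E1 := by positivity
  have f2 : E1 < E2 := by
    rw [hE1, hE2]
    gcongr
    linarith
  have f3 : E2 ≤ 2 * Real.pi := by
    rw [hE2, div_le_iff₀ h2]
    have : ((i : ℝ) + 1) ≤ 2 ^ j := by exact_mod_cast hi
    nlinarith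
  have hu := arc_rep_mem x
  have hv := arc_rep_mem y
  set u := rep x with hudef
  set v := rep y with hvdef
  have hxy : x - y = ((u - v : ℝ) : G) := by
    rw [AddCircle.coe_sub, arc_rep_coe, arc_rep_coe]
  obtain ⟨k, hk⟩ : ∃ k : ℤ, ‖x - y‖ = |u - v - k * (2 * Real.pi)| :=
    ⟨round ((2 * Real.pi)⁻¹ * (u - v)), by rw [hxy, AddCircle.norm_eq]⟩
  have g1 : ∀ m : ℤ, ‖y - endp j i‖ ≤ |v - E1 - m * (2 * Real.pi)| := by
    intro m
    have : y - endp j i = ((v - E1 : ℝ) : G) := by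
      rw [AddCircle.coe_sub, arc_rep_coe]
      rfl
    rw [this]
    exact arc_norm_le' _ _
  have g2 : ∀ m : ℤ, ‖y - endp j (i + 1)‖ ≤ |v - E2 - m * (2 * Real.pi)| := by
    intro m
    have : y - endp j (i + 1) = ((v - E2 : ℝ) : G) := by
      rw [AddCircle.coe_sub, arc_rep_coe, hE2, endp]
      push_cast
      rfl
    rw [this]
    exact arc_norm_le' _ _
  rw [arc_cidx_iff, arc_cidx_iff] at h
  change ¬ ((E1 ≤ u ∧ u < E2) ↔ (E1 ≤ v ∧ v < E2)) at h
  rw [hk]
  by_cases hx : E1 ≤ u ∧ u < E2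
  · have hy : ¬ (E1 ≤ v ∧ v < E2) := by tauto
    rcases lt_or_ge v (E1 - k * (2 * Real.pi)) with hc | hc
    · refine (min_le_left _ _).trans ((g1 (-k)).trans ?_)
      push_cast
      rw [abs_of_neg (by linarith), abs_of_nonneg (by linarith)]
      linarith [hx.1]
    · have hc2 : E2 - k * (2 * Real.pi) ≤ v := by
        by_contra hcon
        push Not at hcon
        have hk0 : k = 0 := arc_k0 (by linarith [hv.1, hv.2]) (by linarith [hv.1, hv.2])
        rw [hk0] at hc hcon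
        simp only [Int.cast_zero, zero_mul, sub_zero] at hc hcon
        exact hy ⟨hc, hcon⟩
      refine (min_le_right _ _).trans ((g2 (-k)).trans ?_)
      push_cast
      rw [abs_of_nonneg (by linarith), abs_of_neg (by linarith [hx.2])]
      linarith [hx.2]
  · have hy : E1 ≤ v ∧ v < E2 := by tauto
    rcases lt_or_ge (u - k * (2 * Real.pi)) E1 with hc | hc
    · refine (min_le_left _ _).trans ((g1 0).trans ?_)
      simp only [Int.cast_zero, zero_mul, sub_zero]
      rw [abs_of_nonneg (by linarith [hy.1]), abs_of_neg (by linarith [hy.1])]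
      linarith [hy.1]
    · have hc2 : E2 ≤ u - k * (2 * Real.pi) := by
        by_contra hcon
        push Not at hcon
        have hk0 : k = 0 := arc_k0 (by linarith [hu.1, hu.2]) (by linarith [hu.1, hu.2])
        rw [hk0] at hc hcon
        simp only [Int.cast_zero, zero_mul, sub_zero] at hc hcon
        exact hx ⟨hc, hcon⟩
      refine (min_le_right _ _).trans ((g2 0).trans ?_)
      simp only [Int.cast_zero, zero_mul, sub_zero]
      rw [abs_of_neg (by linarith [hy.2]), abs_of_nonneg (by linarith [hy.2])]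
      linarith [hy.2]

lemma arc_phi_int {a s ρ : ℝ} (ha : 2 < a) (hs : 0 < s) (y : G) :
    Integrable (fun x : G => arc_phi a s ρ ‖x - y‖) hm := by
  refine (integrable_const (1 : ℝ)).mono' ?_ ?_
  · exact ((arc_phi_meas a s ρ).comp
      (continuous_norm.comp (continuous_id.sub continuous_const)).measurable).aestronglyMeasurable
  · refine Filter.Eventually.of_forall fun t => ?_
    rw [Real.norm_eq_abs, abs_of_nonneg (arc_phi_nonneg hs (norm_nonneg _))]
    exact arc_phi_le ha hs (norm_nonneg _)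

lemma arc_set {a C₀ s ρ : ℝ} {g : G → ℝ} (ha : 2 < a) (hC : 0 ≤ C₀) (hs : 0 < s) (hρ : 0 ≤ ρ)
    (hg : Bd a C₀ s g) (y : G) (A : Set G) (hA : MeasurableSet A)
    (hAρ : ∀ x ∈ A, ρ ≤ ‖x - y‖) :
    ∫ x in A, |g (x - y)| ∂hm ≤ C₀ * (1 + ρ / s) ^ (1 - a) := by
  rw [← integral_indicator hA]
  have h1 : ∫ x, A.indicator (fun x => |g (x - y)|) x ∂hm ≤
      ∫ x, C₀ / s * arc_phi a s ρ ‖x - y‖ ∂hm := by
    apply integral_mono_of_nonneg
    · refine Filter.Eventually.of_forall fun x => ?_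
      exact Set.indicator_nonneg (fun _ _ => abs_nonneg _) x
    · exact (arc_phi_int ha hs y).const_mul _
    · refine Filter.Eventually.of_forall fun x => ?_
      show A.indicator (fun x => |g (x - y)|) x ≤ C₀ / s * arc_phi a s ρ ‖x - y‖
      by_cases hx : x ∈ A
      · rw [Set.indicator_of_mem hx, arc_phi, if_pos (hAρ x hx)]
        exact hg.bd (x - y)
      · rw [Set.indicator_of_notMem hx]
        exact mul_nonneg (div_nonneg hC hs.le) (arc_phi_nonneg hs (norm_nonneg _))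
  refine h1.trans ?_
  rw [integral_const_mul, integral_sub_right_eq_self (fun x : G => arc_phi a s ρ ‖x‖) y]
  calc C₀ / s * ∫ x : G, arc_phi a s ρ ‖x‖ ∂hm ≤ C₀ / s * (s * (1 + ρ / s) ^ (1 - a)) :=
        mul_le_mul_of_nonneg_left (arc_tail ha hs hρ) (div_nonneg hC hs.le)
    _ = C₀ * (1 + ρ / s) ^ (1 - a) := by
        field_simp

theorem t_ARC (hX : S_CEL) : S_ARC := by
  intro a ha ha3
  refine ⟨1, le_rfl, ?_⟩
  intro C₀ s g hC hs hs1 hg
  have hmeas : ∀ j i, MeasurableSet (Cell j i) := hX.1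
  constructor
  · have h := arc_set ha hC hs le_rfl hg 0 Set.univ MeasurableSet.univ
      (fun x _ => norm_nonneg _)
    simpa using h
  · intro j i hi y
    set ρ := min ‖y - endp j i‖ ‖y - endp j (i + 1)‖ with hρdef
    have hρ0 : 0 ≤ ρ := le_min (norm_nonneg _) (norm_nonneg _)
    have hρ : (1 + ρ / s) ^ (1 - a) ≤ (1 + ‖y - endp j i‖ / s) ^ (1 - a) +
        (1 + ‖y - endp j (i + 1)‖ / s) ^ (1 - a) := by
      have q1 : 0 ≤ (1 + ‖y - endp j i‖ / s) ^ (1 - a) := by positivity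
      have q2 : 0 ≤ (1 + ‖y - endp j (i + 1)‖ / s) ^ (1 - a) := by positivity
      rcases min_choice ‖y - endp j i‖ ‖y - endp j (i + 1)‖ with hm' | hm' <;>
        rw [hρdef, hm'] <;> linarith
    have hI : Integrable (fun x => g (x - y)) hm := by
      exact (hg.cont.comp (continuous_id.sub continuous_const)).integrable_of_hasCompactSupport
        (HasCompactSupport.of_compactSpace _)
    rw [one_mul]
    have hfin : C₀ * (1 + ρ / s) ^ (1 - a) ≤ C₀ * ((1 + ‖y - endp j i‖ / s) ^ (1 - a) +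
        (1 + ‖y - endp j (i + 1)‖ / s) ^ (1 - a)) := mul_le_mul_of_nonneg_left hρ hC
    by_cases hy : cidx j y = i
    · have h1 := arc_set ha hC hs hρ0 hg y (Cell j i)ᶜ (hmeas j i).compl (fun x hx => by
        apply arc_geo hi
        have hx' : ¬ cidx j x = i := hx
        tauto)
      have h2 : ∫ x in Cell j i, g (x - y) ∂hm =
          ∫ x, g x ∂hm - ∫ x in (Cell j i)ᶜ, g (x - y) ∂hm := by
        rw [← integral_sub_right_eq_self (fun x : G => g x) y]
        have h6 := integral_add_compl (hmeas j i) hI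
        linarith
      have h3 : |∫ x in (Cell j i)ᶜ, g (x - y) ∂hm| ≤ ∫ x in (Cell j i)ᶜ, |g (x - y)| ∂hm :=
        abs_integral_le_integral_abs
      rw [h2]
      have h4 := abs_sub (∫ x, g x ∂hm) (∫ x in (Cell j i)ᶜ, g (x - y) ∂hm)
      linarith
    · have h1 := arc_set ha hC hs hρ0 hg y (Cell j i) (hmeas j i) (fun x hx => by
        apply arc_geo hi
        have hx' : cidx j x = i := hx
        tauto)
      have h3 : |∫ x in Cell j i, g (x - y) ∂hm| ≤ ∫ x in Cell j i, |g (x - y)| ∂hm :=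
        abs_integral_le_integral_abs
      have h5 := abs_nonneg (∫ x, g x ∂hm)
      linarith

end

end Pool.Agent.H729R2.FO
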