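import Mathlib
import Pool.Agent.H729R2.FO.Stubs

set_option autoImplicit false

namespace Pool.Agent.H729R2.FO

open MeasureTheory Pool.Agent.H729R2.CB Pool.Agent.Helper150.Cub

open scoped Classical

/-- the profile -/
noncomputable def c12_g (p κ : ℝ) (q : ℕ) (v : ℝ) : ℝ := v ^ p * (Real.sinc (κ * v)) ^ (2 * q)

theorem c12_sinc_le {x : ℝ} (hx : 0 < x) : |Real.sinc x| ≤ 1 / x := by
  rw [Real.sinc_of_ne_zero hx.ne', abs_div, abs_of_pos hx]
  gcongr
  exact Real.abs_sin_le_one x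

theorem c12_nonneg (p κ : ℝ) (q : ℕ) {v : ℝ} (hv : 0 < v) : 0 ≤ c12_g p κ q v := by
  unfold c12_g
  rw [pow_mul]
  positivity

theorem c12_meas (p κ : ℝ) (q : ℕ) :
    AEStronglyMeasurable (c12_g p κ q) (volume.restrict (Set.Ioi 0)) := by
  refine ContinuousOn.aestronglyMeasurable ?_ measurableSet_Ioi
  unfold c12_g
  refine ContinuousOn.mul ?_ ?_
  · exact fun v hv => (Real.continuousAt_rpow_const v p (Or.inl (ne_of_gt hv))).continuousWithinAt
  · exact ((Real.continuous_sinc.comp (continuous_const.mul continuous_id)).pow _).continuousOn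

theorem c12_int (p κ : ℝ) (q : ℕ) (hp : 0 ≤ p) (hκ : 0 < κ) (hq : p + 1 < 2 * q) :
    IntegrableOn (c12_g p κ q) (Set.Ioi 0) := by
  have hu : Set.Ioi (0:ℝ) = Set.Ioc 0 1 ∪ Set.Ioi 1 := by
    rw [Set.Ioc_union_Ioi_eq_Ioi zero_le_one]
  have hm := c12_meas p κ q
  rw [hu]
  refine IntegrableOn.union ?_ ?_
  · refine Integrable.of_bound ?_ 1 ?_
    · exact hm.mono_measure (Measure.restrict_mono Set.Ioc_subset_Ioi_self le_rfl)
    · refine (ae_restrict_iff' measurableSet_Ioc).2 (Filter.Eventually.of_forall fun v hv => ?_)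
      rw [Real.norm_of_nonneg (c12_nonneg p κ q hv.1)]
      unfold c12_g
      have h1 : v ^ p ≤ 1 := Real.rpow_le_one hv.1.le hv.2 hp
      have h2 : (Real.sinc (κ * v)) ^ (2 * q) ≤ 1 := by
        rw [← Even.pow_abs (even_two_mul q)]
        exact pow_le_one₀ (abs_nonneg _) (Real.abs_sinc_le_one _)
      have h3 : 0 ≤ (Real.sinc (κ * v)) ^ (2 * q) := by
        rw [pow_mul]
        positivity
      calc v ^ p * (Real.sinc (κ * v)) ^ (2 * q) ≤ 1 * 1 :=
            mul_le_mul h1 h2 h3 zero_le_one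
        _ = 1 := one_mul 1
  · have h1 : IntegrableOn (fun v : ℝ => (1 / κ) ^ (2 * q) * v ^ (p - 2 * q)) (Set.Ioi 1) :=
      (integrableOn_Ioi_rpow_of_lt (by linarith) zero_lt_one).const_mul _
    refine Integrable.mono' h1 ?_ ?_
    · exact hm.mono_measure (Measure.restrict_mono (Set.Ioi_subset_Ioi zero_le_one) le_rfl)
    · refine (ae_restrict_iff' measurableSet_Ioi).2 (Filter.Eventually.of_forall fun v hv => ?_)
      have hv1 : (1:ℝ) < v := hv
      have hv0 : (0:ℝ) < v := by linarith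
      rw [Real.norm_of_nonneg (c12_nonneg p κ q hv0)]
      unfold c12_g
      have h2 : (Real.sinc (κ * v)) ^ (2 * q) ≤ (1 / (κ * v)) ^ (2 * q) := by
        rw [← Even.pow_abs (even_two_mul q)]
        exact pow_le_pow_left₀ (abs_nonneg _) (c12_sinc_le (mul_pos hκ hv0)) _
      have h3 : (1 / (κ * v)) ^ (2 * q) = (1 / κ) ^ (2 * q) * v ^ (-(2 * q : ℝ)) := by
        rw [Real.rpow_neg hv0.le, show (2 * (q:ℝ)) = ((2 * q : ℕ) : ℝ) by push_cast; ring,
          Real.rpow_natCast]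
        rw [one_div, one_div, mul_inv, mul_pow, inv_pow, inv_pow]
      calc v ^ p * (Real.sinc (κ * v)) ^ (2 * q) ≤ v ^ p * (1 / (κ * v)) ^ (2 * q) := by
            gcongr
        _ = (1 / κ) ^ (2 * q) * (v ^ p * v ^ (-(2 * q : ℝ))) := by rw [h3]; ring
        _ = (1 / κ) ^ (2 * q) * v ^ (p - 2 * q) := by
            rw [← Real.rpow_add hv0]
            rfl

theorem c12_pos (p κ : ℝ) (q : ℕ) (hp : 0 ≤ p) (hκ : 0 < κ) (hκ1 : κ ≤ 1) (hq : p + 1 < 2 * q) :
    0 < ∫ v in Set.Ioi (0:ℝ), c12_g p κ q v := by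
  rw [setIntegral_pos_iff_support_of_nonneg_ae]
  · have h1 : Set.Ioo (0:ℝ) 1 ⊆ Function.support (c12_g p κ q) ∩ Set.Ioi 0 := by
      intro v hv
      refine ⟨?_, hv.1⟩
      rw [Function.mem_support]
      unfold c12_g
      have h2 : 0 < κ * v := mul_pos hκ hv.1
      have h3 : κ * v < Real.pi := by
        have := Real.pi_gt_three
        have : κ * v ≤ 1 * 1 := mul_le_mul hκ1 hv.2.le hv.1.le zero_le_one
        linarith
      have h4 : Real.sinc (κ * v) ≠ 0 := by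
        rw [Real.sinc_of_ne_zero h2.ne']
        exact (div_pos (Real.sin_pos_of_pos_of_lt_pi h2 h3) h2).ne'
      exact mul_ne_zero (Real.rpow_pos_of_pos hv.1 p).ne' (pow_ne_zero _ h4)
    refine lt_of_lt_of_le ?_ (measure_mono h1)
    rw [Real.volume_Ioo]
    simp
  · refine (ae_restrict_iff' measurableSet_Ioi).2 (Filter.Eventually.of_forall fun v hv => ?_)
    exact c12_nonneg p κ q hv
  · exact c12_int p κ q hp hκ hq

theorem t_C12 : S_C12 := by
  intro r α κ q hr hκ hκ1 hq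
  obtain ⟨φ, hφ⟩ : ∃ φ : ℝ, φ = α * Real.pi / 2 := ⟨_, rfl⟩
  have i1 := c12_int (r - 1) κ q (by linarith) hκ (by linarith)
  have i2 := c12_int r κ q (by linarith) hκ (by linarith)
  have p1 := c12_pos (r - 1) κ q (by linarith) hκ hκ1 (by linarith)
  have p2 := c12_pos r κ q (by linarith) hκ hκ1 (by linarith)
  obtain ⟨A, hA⟩ : ∃ A : ℝ, A = ∫ v in Set.Ioi (0:ℝ), c12_g (r - 1) κ q v := ⟨_, rfl⟩
  obtain ⟨B, hB⟩ : ∃ B : ℝ, B = ∫ v in Set.Ioi (0:ℝ), c12_g r κ q v := ⟨_, rfl⟩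
  rw [← hA] at p1
  rw [← hB] at p2
  refine ⟨Real.cos φ / A, -(Real.sin φ) / (κ * B), ?_⟩
  have e1 : ∀ c₁ c₂ : ℝ, ∫ v in Set.Ioi (0:ℝ), dK r α κ c₁ c₂ q v =
      Complex.exp ((φ : ℂ) * Complex.I) * ((c₁ : ℂ) * (A : ℂ) + Complex.I * (c₂ * κ : ℝ) * (B : ℂ)) := by
    intro c₁ c₂
    have e2 : ∫ v in Set.Ioi (0:ℝ), dK r α κ c₁ c₂ q v =
        ∫ v in Set.Ioi (0:ℝ), Complex.exp ((φ : ℂ) * Complex.I) *
          ((c₁ : ℂ) * ((c12_g (r - 1) κ q v : ℝ) : ℂ) +
            Complex.I * ((c₂ * κ : ℝ) : ℂ) * ((c12_g r κ q v : ℝ) : ℂ)) := by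
      refine setIntegral_congr_fun measurableSet_Ioi fun v hv => ?_
      have hv0 : (0:ℝ) < v := hv
      have e3 : v ^ r = v * v ^ (r - 1) := by
        rw [Real.rpow_sub_one hv0.ne']
        field_simp
      show dK r α κ c₁ c₂ q v = _
      unfold dK c12_g
      rw [e3, hφ]
      push_cast
      ring
    rw [e2, integral_const_mul, integral_add, integral_const_mul, integral_const_mul,
      integral_complex_ofReal, integral_complex_ofReal, ← hA, ← hB]
    · exact (i1.ofReal).const_mul _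
    · exact (i2.ofReal).const_mul _
  rw [e1]
  have hA0 : A ≠ 0 := p1.ne'
  have hB0 : B ≠ 0 := p2.ne'
  have e4 : ((Real.cos φ / A : ℝ) : ℂ) * (A : ℂ) +
      Complex.I * ((-(Real.sin φ) / (κ * B) * κ : ℝ) : ℂ) * (B : ℂ) =
      Complex.exp (-((φ : ℂ) * Complex.I)) := by
    have h1 : (Real.cos φ / A) * A = Real.cos φ := by field_simp
    have h2 : (-(Real.sin φ) / (κ * B) * κ) * B = -(Real.sin φ) := by field_simp
    rw [mul_assoc, ← Complex.ofReal_mul, ← Complex.ofReal_mul, h1, h2]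
    rw [show -((φ : ℂ) * Complex.I) = ((-φ : ℝ) : ℂ) * Complex.I by push_cast; ring,
      Complex.exp_mul_I, ← Complex.ofReal_cos, ← Complex.ofReal_sin, Real.cos_neg, Real.sin_neg]
    ring
  rw [e4, ← Complex.exp_add, add_neg_cancel, Complex.exp_zero]

end Pool.Agent.H729R2.FO
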