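import Mathlib
import Pool.Agent.H729R2.FO.Stubs

set_option autoImplicit false

namespace Pool.Agent.H729R2.FO

open MeasureTheory Pool.Agent.H729R2.CB Pool.Agent.Helper150.Cub

open scoped Classical

noncomputable section

lemma cc_ta_pos (β₀ b j : ℕ) : 0 < ta β₀ b j := by unfold ta; positivity

lemma cc_zz_pos (β₀ b j : ℕ) : 0 < zz β₀ b j := by unfold zz; positivity

lemma cc_del (β₀ j : ℕ) (h : 3 ≤ β₀) : ((1:ℝ)/2)^(β₀ + Nat.log 2 (j+2)) ≤ 1/16 := by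
  have h1 : 1 ≤ Nat.log 2 (j+2) := Nat.log_pos (by norm_num) (by omega)
  calc ((1:ℝ)/2)^(β₀ + Nat.log 2 (j+2)) ≤ (1/2)^4 :=
        pow_le_pow_of_le_one (by norm_num) (by norm_num) (by omega)
    _ = 1/16 := by norm_num

lemma cc_zz_eq (β₀ b j : ℕ) : zz β₀ b j = ta β₀ b j * (1/2)^(β₀ + Nat.log 2 (j+2)) := by
  unfold zz ta
  rw [pow_add]

lemma cc_ta_eq (β₀ b j : ℕ) : ta β₀ b (j+1) = zz β₀ b j * (1/2)^(β₀ + Nat.log 2 (j+2)) := by
  unfold zz ta TT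
  rw [Finset.sum_range_succ, ← pow_add]
  congr 1
  unfold be
  ring

lemma cc_zz_le {β₀ : ℕ} (h : 3 ≤ β₀) (b j : ℕ) : zz β₀ b j ≤ ta β₀ b j / 16 := by
  rw [cc_zz_eq]
  have := mul_le_mul_of_nonneg_left (cc_del β₀ j h) (cc_ta_pos β₀ b j).le
  linarith

lemma cc_ta_succ {β₀ : ℕ} (h : 3 ≤ β₀) (b j : ℕ) : ta β₀ b (j+1) ≤ zz β₀ b j / 16 := by
  rw [cc_ta_eq]
  have := mul_le_mul_of_nonneg_left (cc_del β₀ j h) (cc_zz_pos β₀ b j).le
  linarith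

lemma cc_ta_add {β₀ : ℕ} (h : 3 ≤ β₀) (b j n : ℕ) :
    ta β₀ b (j+n) ≤ ta β₀ b j * (1/64)^n := by
  induction n with
  | zero => simp
  | succ n ih =>
    have h1 := cc_ta_succ h b (j+n)
    have h2 := cc_zz_le h b (j+n)
    have h3 := cc_ta_pos β₀ b (j+n)
    rw [show j + (n+1) = j + n + 1 by ring, pow_succ]
    nlinarith

lemma cc_ta_le_b (β₀ b j : ℕ) : ta β₀ b j ≤ (1/2)^b := by
  unfold ta
  exact pow_le_pow_of_le_one (by norm_num) (by norm_num) (by omega)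

lemma cc_b_le_one (b : ℕ) : ((1:ℝ)/2)^b ≤ 1 := pow_le_one₀ (by norm_num) (by norm_num)

lemma cc_ta_anti {β₀ : ℕ} (h : 3 ≤ β₀) (b j n : ℕ) : ta β₀ b (j+n) ≤ ta β₀ b j := by
  have h1 := cc_ta_add h b j n
  have h2 : ((1:ℝ)/64)^n ≤ 1 := pow_le_one₀ (by norm_num) (by norm_num)
  have h3 := cc_ta_pos β₀ b j
  nlinarith

/-- the numerical lemma for one level -/
lemma cc_num {a z ρ t q : ℝ} (ha : 2 < a) (hz : 0 < z) (hzt : z ≤ t / 16) (hρ : 0 < ρ)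
    (hq : 0 < q) (hq1 : q ≤ 1) (htq : t ≤ 2 * ρ * q) : z ^ a * (ρ ^ (1 - a) / t) ≤ q := by
  have ht : 0 < t := by linarith
  have e1 : z ^ a * (ρ ^ (1 - a) / t) = (z / ρ) ^ a * (ρ / t) := by
    rw [Real.div_rpow hz.le hρ.le, Real.rpow_sub hρ, Real.rpow_one]
    ring
  have h1 : z / ρ ≤ 1 := by
    rw [div_le_one hρ]
    nlinarith
  have h2 : (z / ρ) ^ a ≤ (z / ρ) ^ (2:ℝ) :=
    Real.rpow_le_rpow_of_exponent_ge (by positivity) h1 ha.le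
  rw [e1]
  calc (z / ρ) ^ a * (ρ / t) ≤ (z / ρ) ^ (2:ℝ) * (ρ / t) :=
        mul_le_mul_of_nonneg_right h2 (by positivity)
    _ = z ^ 2 / (ρ * t) := by
        rw [Real.rpow_two]
        field_simp
    _ ≤ q := by
        rw [div_le_iff₀ (by positivity)]
        have h3 : z ^ 2 ≤ (t / 16) ^ 2 := by gcongr
        have h4 : t * t ≤ 2 * ρ * q * t := mul_le_mul_of_nonneg_right htq ht.le
        have h5 : 0 < q * (ρ * t) := by positivity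
        nlinarith

lemma cc_Y_le {a C z : ℝ} {Yz : G → ℝ} (ha : 2 < a) (hz : 0 < z) (hC : 0 ≤ C)
    (h : Bd a (C * z) z Yz) (x : G) : |Yz x| ≤ C := by
  have h1 := h.bd x
  have e1 : C * z / z = C := by field_simp
  rw [e1] at h1
  have h2 : (1 + ‖x‖ / z) ^ (-a) ≤ 1 := by
    apply Real.rpow_le_one_of_one_le_of_nonpos
    · have : 0 ≤ ‖x‖ / z := by positivity
      linarith
    · linarith
  nlinarith

lemma cc_Y_far {a C z : ℝ} {Yz : G → ℝ} (ha : 2 < a) (hz : 0 < z) (hC : 0 ≤ C)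
    (h : Bd a (C * z) z Yz) (x : G) (hx : 0 < ‖x‖) : |Yz x| ≤ C * (z ^ a * ‖x‖ ^ (-a)) := by
  have h1 := h.bd x
  have e1 : C * z / z = C := by field_simp
  rw [e1] at h1
  refine h1.trans (mul_le_mul_of_nonneg_left ?_ hC)
  calc (1 + ‖x‖ / z) ^ (-a) ≤ (‖x‖ / z) ^ (-a) := by
        apply Real.rpow_le_rpow_of_nonpos (by positivity) (by linarith) (by linarith)
    _ = z ^ a * ‖x‖ ^ (-a) := by
        rw [Real.div_rpow hx.le hz.le, Real.rpow_neg hz.le]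
        field_simp

/-- the correction at level `k` -/
def ccD (Y : ℝ → G → ℝ) (β₀ b j₀ : ℕ) (Z : ℕ → Finset G) (U : G → ℝ) (k : ℕ) (x : G) : ℝ :=
  ∑ ζ ∈ Z (j₀ + k), us Y β₀ b j₀ Z U k ζ * Y (zz β₀ b (j₀ + k)) (x - ζ)

lemma cc_us_add (Y : ℝ → G → ℝ) (β₀ b j₀ : ℕ) (Z : ℕ → Finset G) (U : G → ℝ) (k n : ℕ) (x : G) :
    us Y β₀ b j₀ Z U (k + n) x =
      us Y β₀ b j₀ Z U k x - ∑ i ∈ Finset.range n, ccD Y β₀ b j₀ Z U (k + i) x := by
  induction n with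
  | zero => simp
  | succ n ih =>
    have e : us Y β₀ b j₀ Z U (k + (n + 1)) x =
        us Y β₀ b j₀ Z U (k + n) x - ccD Y β₀ b j₀ Z U (k + n) x := rfl
    rw [e, ih, Finset.sum_range_succ]
    ring

lemma cc_D_abs (Y : ℝ → G → ℝ) (β₀ b j₀ : ℕ) (Z : ℕ → Finset G) (U : G → ℝ) (k : ℕ) (x : G) :
    |ccD Y β₀ b j₀ Z U k x| ≤
      ∑ ζ ∈ Z (j₀ + k), |us Y β₀ b j₀ Z U k ζ| * |Y (zz β₀ b (j₀ + k)) (x - ζ)| := by
  unfold ccD
  refine (Finset.abs_sum_le_sum_abs _ _).trans (le_of_eq ?_)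
  exact Finset.sum_congr rfl fun ζ _ => abs_mul _ _

/-- all hypotheses -/
structure ccH (r a C z₀ CH CO : ℝ) (F : G → ℝ) (M K Y : ℝ → G → ℝ) (β₀ b j₀ : ℕ) (X : Finset G)
    (Z : ℕ → Finset G) (bb U : G → ℝ) (B : ℝ) : Prop where
  kn : Kn r a C z₀ F M K Y
  hCH : 1 ≤ CH
  hCO : 1 ≤ CO
  hβ : 3 ≤ β₀
  hb : (1 / 2 : ℝ) ^ b ≤ z₀
  rep : ∀ j, Reps β₀ b j X (Z j)
  hcc : Hcc a CH β₀ b j₀ X bb U B
  ccm : ∀ k, ∀ ξ ∈ X, ∀ x, ‖x - ξ‖ ≤ ta β₀ b (j₀ + k) →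
      |us Y β₀ b j₀ Z U k x| ≤ 2 * bb ξ * gg β₀ b j₀ Z k ξ
  off1 : ∀ k i₀, i₀ ≤ k → ∀ ξ ∈ X, ∀ x, ‖x - ξ‖ ≤ ta β₀ b (j₀ + i₀) → ∀ ρ, ta β₀ b (j₀ + k) / 2 ≤ ρ →
    ρ ≤ ta β₀ b (j₀ + i₀) →
    ∑ ζ ∈ (Z (j₀ + k)).filter (fun ζ => ρ ≤ ‖x - ζ‖), bb ζ * gg β₀ b j₀ Z k ζ * ‖x - ζ‖ ^ (-a)
      ≤ CO * (ρ ^ (1 - a) / ta β₀ b (j₀ + k)) * (bb ξ * gg β₀ b j₀ Z i₀ ξ)
  off2 : ∀ k x, (∀ ξ ∈ X, ta β₀ b j₀ ≤ ‖x - ξ‖) →
    ∑ ζ ∈ Z (j₀ + k), bb ζ * ‖x - ζ‖ ^ (-a) ≤ CO * ((ta β₀ b j₀) ^ (1 - a) / ta β₀ b (j₀ + k)) * bb x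
  ggc1 : ∀ k, ∀ ξ ∈ X, ∀ x, ‖x - ξ‖ < ta β₀ b (j₀ + k) →
    gg β₀ b j₀ Z k ξ ≤ (1 / 2) ^ (k - nn X x (2 * ta β₀ b j₀))
  ggc3 : ∀ k ξ, 0 < gg β₀ b j₀ Z k ξ ∧ gg β₀ b j₀ Z k ξ ≤ 1


section
variable {r a C z₀ CH CO : ℝ} {F : G → ℝ} {M K Y : ℝ → G → ℝ} {β₀ b j₀ : ℕ} {X : Finset G}
    {Z : ℕ → Finset G} {bb U : G → ℝ} {B : ℝ}

lemma ccH.z_le (h : ccH r a C z₀ CH CO F M K Y β₀ b j₀ X Z bb U B) (j : ℕ) :
    zz β₀ b j ≤ z₀ := by
  have h1 := cc_zz_le h.hβ b j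
  have h2 := cc_ta_le_b β₀ b j
  have h3 := cc_ta_pos β₀ b j
  have h4 := h.hb
  linarith

lemma ccH.Yb (h : ccH r a C z₀ CH CO F M K Y β₀ b j₀ X Z bb U B) (j : ℕ) :
    Bd a (C * zz β₀ b j) (zz β₀ b j) (Y (zz β₀ b j)) :=
  h.kn.Yb _ (cc_zz_pos β₀ b j) (h.z_le j)

lemma ccH.u_le (h : ccH r a C z₀ CH CO F M K Y β₀ b j₀ X Z bb U B) (k : ℕ) {ζ : G}
    (hζ : ζ ∈ X) : |us Y β₀ b j₀ Z U k ζ| ≤ 2 * bb ζ * gg β₀ b j₀ Z k ζ :=
  h.ccm k ζ hζ ζ (by rw [sub_self, norm_zero]; exact (cc_ta_pos _ _ _).le)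

lemma ccH.u_le' (h : ccH r a C z₀ CH CO F M K Y β₀ b j₀ X Z bb U B) (k : ℕ) {ζ : G}
    (hζ : ζ ∈ X) : |us Y β₀ b j₀ Z U k ζ| ≤ 2 * bb ζ := by
  have h1 := h.u_le k hζ
  have h2 := h.ggc3 k ζ
  have h3 := h.hcc.bb0 ζ
  nlinarith [mul_nonneg h3 (sub_nonneg.mpr h2.2)]

lemma ccH.C0 (h : ccH r a C z₀ CH CO F M K Y β₀ b j₀ X Z bb U B) : 0 ≤ C := by
  linarith [h.kn.hC]

/-- the far part of a level -/
lemma ccH.level (h : ccH r a C z₀ CH CO F M K Y β₀ b j₀ X Z bb U B) (k i₀ : ℕ) (hi : i₀ ≤ k)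
    {ξ : G} (hξ : ξ ∈ X) (x : G) (hx : ‖x - ξ‖ ≤ ta β₀ b (j₀ + i₀)) (ρ q : ℝ)
    (h1 : ta β₀ b (j₀ + k) / 2 ≤ ρ) (h2 : ρ ≤ ta β₀ b (j₀ + i₀)) (hq : 0 < q) (hq1 : q ≤ 1)
    (h3 : ta β₀ b (j₀ + k) ≤ 2 * ρ * q) :
    ∑ ζ ∈ (Z (j₀ + k)).filter (fun ζ => ρ ≤ ‖x - ζ‖),
      |us Y β₀ b j₀ Z U k ζ| * |Y (zz β₀ b (j₀ + k)) (x - ζ)| ≤
      2 * C * CO * q * (bb ξ * gg β₀ b j₀ Z i₀ ξ) := by
  have ht := cc_ta_pos β₀ b (j₀ + k)
  have hρ : 0 < ρ := by linarith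
  have hz := cc_zz_pos β₀ b (j₀ + k)
  have hC := h.C0
  have hnum := cc_num (a := a) h.kn.ha hz (cc_zz_le h.hβ b (j₀ + k)) hρ hq hq1 h3
  have hoff := h.off1 k i₀ hi ξ hξ x hx ρ h1 h2
  have hW : 0 ≤ bb ξ * gg β₀ b j₀ Z i₀ ξ := mul_nonneg (h.hcc.bb0 ξ) (h.ggc3 i₀ ξ).1.le
  calc ∑ ζ ∈ (Z (j₀ + k)).filter (fun ζ => ρ ≤ ‖x - ζ‖),
      |us Y β₀ b j₀ Z U k ζ| * |Y (zz β₀ b (j₀ + k)) (x - ζ)|
      ≤ ∑ ζ ∈ (Z (j₀ + k)).filter (fun ζ => ρ ≤ ‖x - ζ‖),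
        (2 * C * zz β₀ b (j₀ + k) ^ a) * (bb ζ * gg β₀ b j₀ Z k ζ * ‖x - ζ‖ ^ (-a)) := by
        refine Finset.sum_le_sum fun ζ hζ => ?_
        obtain ⟨hζ1, hζ2⟩ := Finset.mem_filter.mp hζ
        have hζX : ζ ∈ X := (h.rep _).sub hζ1
        have g1 := h.u_le k hζX
        have g2 := cc_Y_far h.kn.ha hz hC (h.Yb (j₀ + k)) (x - ζ) (lt_of_lt_of_le hρ hζ2)
        calc |us Y β₀ b j₀ Z U k ζ| * |Y (zz β₀ b (j₀ + k)) (x - ζ)|
            ≤ (2 * bb ζ * gg β₀ b j₀ Z k ζ) * (C * (zz β₀ b (j₀ + k) ^ a * ‖x - ζ‖ ^ (-a))) :=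
              mul_le_mul g1 g2 (abs_nonneg _) ((abs_nonneg _).trans g1)
          _ = _ := by ring
    _ = (2 * C * zz β₀ b (j₀ + k) ^ a) * ∑ ζ ∈ (Z (j₀ + k)).filter (fun ζ => ρ ≤ ‖x - ζ‖),
        (bb ζ * gg β₀ b j₀ Z k ζ * ‖x - ζ‖ ^ (-a)) := by rw [Finset.mul_sum]
    _ ≤ (2 * C * zz β₀ b (j₀ + k) ^ a) *
        (CO * (ρ ^ (1 - a) / ta β₀ b (j₀ + k)) * (bb ξ * gg β₀ b j₀ Z i₀ ξ)) := by
        apply mul_le_mul_of_nonneg_left hoff
        positivity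
    _ = 2 * C * CO * (zz β₀ b (j₀ + k) ^ a * (ρ ^ (1 - a) / ta β₀ b (j₀ + k))) *
        (bb ξ * gg β₀ b j₀ Z i₀ ξ) := by ring
    _ ≤ 2 * C * CO * q * (bb ξ * gg β₀ b j₀ Z i₀ ξ) := by
        apply mul_le_mul_of_nonneg_right _ hW
        apply mul_le_mul_of_nonneg_left hnum
        have := h.hCO
        positivity

lemma cc_geom (n : ℕ) : ∑ i ∈ Finset.range n, ((1:ℝ)/2)^i ≤ 2 := by
  rw [geom_sum_eq (by norm_num)]
  have : (0:ℝ) < (1/2)^n := by positivity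
  rw [div_le_iff_of_neg (by norm_num)]
  linarith

lemma cc_pow64 (k : ℕ) : ((1:ℝ)/64)^k ≤ (1/2)^k :=
  pow_le_pow_left₀ (by norm_num) (by norm_num) k

/-- away from the nodes -/
lemma ccH.far (h : ccH r a C z₀ CH CO F M K Y β₀ b j₀ X Z bb U B) (n : ℕ) (x : G)
    (hx : ∀ ξ ∈ X, ta β₀ b j₀ ≤ ‖x - ξ‖) :
    |∑ k ∈ Finset.range n, ccD Y β₀ b j₀ Z U k x| ≤ 4 * C * CO * bb x := by
  have hC := h.C0
  have hCO := h.hCO
  have hbx := h.hcc.bb0 x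
  have hρ := cc_ta_pos β₀ b j₀
  have hk : ∀ k ∈ Finset.range n, |ccD Y β₀ b j₀ Z U k x| ≤ 2 * C * CO * bb x * (1/2)^k := by
    intro k _
    have ht := cc_ta_pos β₀ b (j₀ + k)
    have hz := cc_zz_pos β₀ b (j₀ + k)
    have h3 : ta β₀ b (j₀ + k) ≤ 2 * ta β₀ b j₀ * (1/2)^k := by
      have e1 := cc_ta_add h.hβ b j₀ k
      have e2 := mul_le_mul_of_nonneg_left (cc_pow64 k) hρ.le
      have e3 : 0 ≤ ta β₀ b j₀ * (1/2)^k := by positivity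
      linarith
    have hnum := cc_num (a := a) h.kn.ha hz (cc_zz_le h.hβ b (j₀ + k)) hρ
      (by positivity : (0:ℝ) < (1/2)^k) (pow_le_one₀ (by norm_num) (by norm_num)) h3
    refine (cc_D_abs Y β₀ b j₀ Z U k x).trans ?_
    calc ∑ ζ ∈ Z (j₀ + k), |us Y β₀ b j₀ Z U k ζ| * |Y (zz β₀ b (j₀ + k)) (x - ζ)|
        ≤ ∑ ζ ∈ Z (j₀ + k), (2 * C * zz β₀ b (j₀ + k) ^ a) * (bb ζ * ‖x - ζ‖ ^ (-a)) := by
          refine Finset.sum_le_sum fun ζ hζ => ?_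
          have hζX : ζ ∈ X := (h.rep _).sub hζ
          have g1 := h.u_le' k hζX
          have g2 := cc_Y_far h.kn.ha hz hC (h.Yb (j₀ + k)) (x - ζ) (lt_of_lt_of_le hρ (hx ζ hζX))
          calc |us Y β₀ b j₀ Z U k ζ| * |Y (zz β₀ b (j₀ + k)) (x - ζ)|
              ≤ (2 * bb ζ) * (C * (zz β₀ b (j₀ + k) ^ a * ‖x - ζ‖ ^ (-a))) :=
                mul_le_mul g1 g2 (abs_nonneg _) ((abs_nonneg _).trans g1)
            _ = _ := by ring
      _ = (2 * C * zz β₀ b (j₀ + k) ^ a) * ∑ ζ ∈ Z (j₀ + k), (bb ζ * ‖x - ζ‖ ^ (-a)) := by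
          rw [Finset.mul_sum]
      _ ≤ (2 * C * zz β₀ b (j₀ + k) ^ a) *
          (CO * (ta β₀ b j₀ ^ (1 - a) / ta β₀ b (j₀ + k)) * bb x) := by
          apply mul_le_mul_of_nonneg_left (h.off2 k x hx)
          positivity
      _ = 2 * C * CO * bb x * (zz β₀ b (j₀ + k) ^ a * (ta β₀ b j₀ ^ (1 - a) / ta β₀ b (j₀ + k))) := by
          ring
      _ ≤ 2 * C * CO * bb x * (1/2)^k := by
          apply mul_le_mul_of_nonneg_left hnum
          positivity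
  calc |∑ k ∈ Finset.range n, ccD Y β₀ b j₀ Z U k x|
      ≤ ∑ k ∈ Finset.range n, |ccD Y β₀ b j₀ Z U k x| := Finset.abs_sum_le_sum_abs _ _
    _ ≤ ∑ k ∈ Finset.range n, 2 * C * CO * bb x * (1/2)^k := Finset.sum_le_sum hk
    _ = 2 * C * CO * bb x * ∑ k ∈ Finset.range n, (1/2)^k := by rw [Finset.mul_sum]
    _ ≤ 2 * C * CO * bb x * 2 := by
        apply mul_le_mul_of_nonneg_left (cc_geom n)
        positivity
    _ = 4 * C * CO * bb x := by ring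

/-- close to the nodes -/
lemma ccH.near (h : ccH r a C z₀ CH CO F M K Y β₀ b j₀ X Z bb U B) (N m : ℕ) (hm : m ≤ N) (x : G)
    (hx : ∃ ξ ∈ X, ‖x - ξ‖ < ta β₀ b (j₀ + m)) :
    |us Y β₀ b j₀ Z U N x| ≤ 10 * CH * C * CO * bb x *
      (1 / 2) ^ (m - nn X x (2 * ta β₀ b j₀)) := by
  have hC1 := h.kn.hC
  have hC := h.C0
  have hCO := h.hCO
  have hCH := h.hCH
  have hbx := h.hcc.bb0 x
  obtain ⟨k, hPk, hkN, hmk, hgr⟩ : ∃ k, (∃ ξ ∈ X, ‖x - ξ‖ < ta β₀ b (j₀ + k)) ∧ k ≤ N ∧ m ≤ k ∧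
      ∀ i, k < i → i ≤ N → ¬ ∃ ξ ∈ X, ‖x - ξ‖ < ta β₀ b (j₀ + i) :=
    ⟨Nat.findGreatest (fun k => ∃ ξ ∈ X, ‖x - ξ‖ < ta β₀ b (j₀ + k)) N,
      Nat.findGreatest_spec (P := fun k => ∃ ξ ∈ X, ‖x - ξ‖ < ta β₀ b (j₀ + k)) hm hx,
      Nat.findGreatest_le N,
      Nat.le_findGreatest (P := fun k => ∃ ξ ∈ X, ‖x - ξ‖ < ta β₀ b (j₀ + k)) hm hx,
      fun i h1 h2 => Nat.findGreatest_is_greatest
        (P := fun k => ∃ ξ ∈ X, ‖x - ξ‖ < ta β₀ b (j₀ + k)) h1 h2⟩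
  obtain ⟨ξ, hξ, hxξ⟩ := hPk
  obtain ⟨n, rfl⟩ : ∃ n, N = k + n := ⟨N - k, by omega⟩
  set V : ℝ := bb x * (1 / 2) ^ (k - nn X x (2 * ta β₀ b j₀)) with hV
  have hV0 : 0 ≤ V := by positivity
  set W : ℝ := bb ξ * gg β₀ b j₀ Z k ξ with hW
  have htk := cc_ta_pos β₀ b (j₀ + k)
  have ht0 := cc_ta_pos β₀ b j₀
  have htk0 : ta β₀ b (j₀ + k) ≤ ta β₀ b j₀ := cc_ta_anti h.hβ b j₀ k
  -- comparison of `bb` at nearby nodes
  have hWV : ∀ ζ ∈ X, ‖x - ζ‖ < ta β₀ b (j₀ + k) → bb ζ * gg β₀ b j₀ Z k ζ ≤ CH * V := by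
    intro ζ hζ hd
    have g1 := h.ggc1 k ζ hζ x hd
    have g2 := h.hcc.har ζ x (by rw [norm_sub_rev]; linarith)
    have g3 := (h.ggc3 k ζ).1
    calc bb ζ * gg β₀ b j₀ Z k ζ ≤ (CH * bb x) * (1 / 2) ^ (k - nn X x (2 * ta β₀ b j₀)) :=
          mul_le_mul g2 g1 g3.le (by positivity)
      _ = CH * V := by rw [hV]; ring
  have hW1 : W ≤ CH * V := hWV ξ hξ hxξ
  have hW0 : 0 ≤ W := mul_nonneg (h.hcc.bb0 ξ) (h.ggc3 k ξ).1.le
  -- the levels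
  have hlev : ∀ i ∈ Finset.range n, |ccD Y β₀ b j₀ Z U (k + i) x| ≤
      4 * C * CO * CH * V * (1/2)^i := by
    intro i hi
    rw [Finset.mem_range] at hi
    refine (cc_D_abs Y β₀ b j₀ Z U (k + i) x).trans ?_
    rcases Nat.eq_zero_or_pos i with rfl | hipos
    · rw [add_zero, pow_zero, mul_one]
      rw [← Finset.sum_filter_add_sum_filter_not (Z (j₀ + k))
        (fun ζ => ta β₀ b (j₀ + k) / 2 ≤ ‖x - ζ‖)]
      have g1 := h.level k k le_rfl hξ x hxξ.le (ta β₀ b (j₀ + k) / 2) 1 le_rfl (by linarith)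
        one_pos le_rfl (by linarith)
      have g2 : ∑ ζ ∈ (Z (j₀ + k)).filter (fun ζ => ¬ ta β₀ b (j₀ + k) / 2 ≤ ‖x - ζ‖),
          |us Y β₀ b j₀ Z U k ζ| * |Y (zz β₀ b (j₀ + k)) (x - ζ)| ≤ 2 * C * (CH * V) := by
        have hcard : ((Z (j₀ + k)).filter (fun ζ => ¬ ta β₀ b (j₀ + k) / 2 ≤ ‖x - ζ‖)).card ≤ 1 := by
          rw [Finset.card_le_one]
          intro ζ hζ ζ' hζ'
          rw [Finset.mem_filter] at hζ hζ'
          by_contra hne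
          have s1 := (h.rep (j₀ + k)).sep ζ hζ.1 ζ' hζ'.1 hne
          have s2 : ‖ζ - ζ'‖ ≤ ‖x - ζ'‖ + ‖x - ζ‖ := by
            have e : ζ - ζ' = (x - ζ') - (x - ζ) := by abel
            rw [e]
            exact norm_sub_le _ _
          have s3 := not_le.mp hζ.2
          have s4 := not_le.mp hζ'.2
          linarith
        have hterm : ∀ ζ ∈ (Z (j₀ + k)).filter (fun ζ => ¬ ta β₀ b (j₀ + k) / 2 ≤ ‖x - ζ‖),
            |us Y β₀ b j₀ Z U k ζ| * |Y (zz β₀ b (j₀ + k)) (x - ζ)| ≤ 2 * C * (CH * V) := by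
          intro ζ hζ
          rw [Finset.mem_filter] at hζ
          have hζX : ζ ∈ X := (h.rep _).sub hζ.1
          have s1 := h.u_le k hζX
          have s2 := cc_Y_le h.kn.ha (cc_zz_pos β₀ b (j₀ + k)) hC (h.Yb (j₀ + k)) (x - ζ)
          have s3 := hWV ζ hζX (by linarith [not_le.mp hζ.2])
          calc |us Y β₀ b j₀ Z U k ζ| * |Y (zz β₀ b (j₀ + k)) (x - ζ)|
              ≤ (2 * bb ζ * gg β₀ b j₀ Z k ζ) * C :=
                mul_le_mul s1 s2 (abs_nonneg _) ((abs_nonneg _).trans s1)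
            _ = 2 * C * (bb ζ * gg β₀ b j₀ Z k ζ) := by ring
            _ ≤ 2 * C * (CH * V) := mul_le_mul_of_nonneg_left s3 (by positivity)
        have := Finset.sum_le_card_nsmul _ _ _ hterm
        refine this.trans ?_
        rw [nsmul_eq_mul]
        have hc : ((((Z (j₀ + k)).filter (fun ζ => ¬ ta β₀ b (j₀ + k) / 2 ≤ ‖x - ζ‖)).card : ℕ) : ℝ)
            ≤ 1 := by exact_mod_cast hcard
        have hp : 0 ≤ 2 * C * (CH * V) := by positivity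
        nlinarith
      have g3 : 2 * C * CO * 1 * (bb ξ * gg β₀ b j₀ Z k ξ) ≤ 2 * C * CO * (CH * V) := by
        rw [mul_one]
        exact mul_le_mul_of_nonneg_left hW1 (by positivity)
      have g4 : 2 * C * (CH * V) ≤ 2 * C * CO * (CH * V) := by
        have : 0 ≤ 2 * C * (CH * V) := by positivity
        nlinarith
      calc _ ≤ 2 * C * CO * 1 * (bb ξ * gg β₀ b j₀ Z k ξ) + 2 * C * (CH * V) := add_le_add g1 g2
        _ ≤ 2 * C * CO * (CH * V) + 2 * C * CO * (CH * V) := add_le_add g3 g4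
        _ = 4 * C * CO * CH * V := by ring
    · have hdist : ∀ ζ ∈ Z (j₀ + (k + i)), ta β₀ b (j₀ + (k + 1)) ≤ ‖x - ζ‖ := by
        intro ζ hζ
        have hζX : ζ ∈ X := (h.rep _).sub hζ
        have := hgr (k + 1) (by omega) (by omega)
        by_contra hcon
        exact this ⟨ζ, hζX, not_le.mp hcon⟩
      have hfil : (Z (j₀ + (k + i))).filter (fun ζ => ta β₀ b (j₀ + (k + 1)) ≤ ‖x - ζ‖) =
          Z (j₀ + (k + i)) := Finset.filter_true_of_mem hdist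
      have ht1 := cc_ta_pos β₀ b (j₀ + (k + 1))
      have e2 := cc_ta_add h.hβ b (j₀ + (k + 1)) (i - 1)
      have e0 : j₀ + (k + 1) + (i - 1) = j₀ + (k + i) := by omega
      rw [e0] at e2
      have e3 : ((1:ℝ)/64)^(i-1) ≤ (1/2)^(i-1) := cc_pow64 _
      have e4 : ((1:ℝ)/2)^(i-1) = 2 * (1/2)^i := by
        obtain ⟨l, rfl⟩ : ∃ l, i = l + 1 := ⟨i - 1, by omega⟩
        rw [Nat.add_sub_cancel, pow_succ]
        ring
      have e5 : ((1:ℝ)/64)^(i-1) ≤ 1 := pow_le_one₀ (by norm_num) (by norm_num)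
      have e6 : ta β₀ b (j₀ + (k + i)) ≤ ta β₀ b (j₀ + (k + 1)) := by nlinarith
      have e7 : ta β₀ b (j₀ + (k + 1)) ≤ ta β₀ b (j₀ + k) := cc_ta_anti h.hβ b (j₀ + k) 1
      have hi1 : ((1:ℝ)/2)^(i-1) ≤ 1 := pow_le_one₀ (by norm_num) (by norm_num)
      have g1 := h.level (k + i) k (by omega) hξ x hxξ.le (ta β₀ b (j₀ + (k + 1))) ((1/2)^(i-1))
        (by have := cc_ta_pos β₀ b (j₀ + (k + i)); linarith) e7 (by positivity) hi1 (by
          have s1 := mul_le_mul_of_nonneg_left e3 ht1.le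
          have s2 : 0 ≤ ta β₀ b (j₀ + (k + 1)) * (1/2)^(i-1) := by positivity
          linarith)
      rw [hfil] at g1
      refine g1.trans ?_
      rw [e4]
      calc 2 * C * CO * (2 * (1 / 2) ^ i) * (bb ξ * gg β₀ b j₀ Z k ξ)
          ≤ 2 * C * CO * (2 * (1 / 2) ^ i) * (CH * V) :=
            mul_le_mul_of_nonneg_left hW1 (by positivity)
        _ = 4 * C * CO * CH * V * (1 / 2) ^ i := by ring
  have hu := h.ccm k ξ hξ x hxξ.le
  have hfin : |us Y β₀ b j₀ Z U (k + n) x| ≤ 10 * CH * C * CO * V := by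
    rw [cc_us_add]
    calc |us Y β₀ b j₀ Z U k x - ∑ i ∈ Finset.range n, ccD Y β₀ b j₀ Z U (k + i) x|
        ≤ |us Y β₀ b j₀ Z U k x| + |∑ i ∈ Finset.range n, ccD Y β₀ b j₀ Z U (k + i) x| :=
          abs_sub _ _
      _ ≤ 2 * W + ∑ i ∈ Finset.range n, 4 * C * CO * CH * V * (1/2)^i := by
          apply add_le_add
          · rw [hW]
            linarith
          · exact (Finset.abs_sum_le_sum_abs _ _).trans (Finset.sum_le_sum hlev)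
      _ = 2 * W + 4 * C * CO * CH * V * ∑ i ∈ Finset.range n, (1/2)^i := by rw [Finset.mul_sum]
      _ ≤ 2 * (CH * V) + 4 * C * CO * CH * V * 2 := by
          apply add_le_add
          · linarith
          · exact mul_le_mul_of_nonneg_left (cc_geom n) (by positivity)
      _ ≤ 10 * CH * C * CO * V := by
          have s1 : 1 ≤ C * CO := by nlinarith
          have s2 : 0 ≤ CH * V := by positivity
          nlinarith [mul_le_mul_of_nonneg_right s1 s2]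
  refine hfin.trans ?_
  have hpow : ((1:ℝ) / 2) ^ (k - nn X x (2 * ta β₀ b j₀)) ≤
      (1 / 2) ^ (m - nn X x (2 * ta β₀ b j₀)) :=
    pow_le_pow_of_le_one (by norm_num) (by norm_num) (by omega)
  rw [hV]
  calc 10 * CH * C * CO * (bb x * (1 / 2) ^ (k - nn X x (2 * ta β₀ b j₀)))
      = 10 * CH * C * CO * bb x * (1 / 2) ^ (k - nn X x (2 * ta β₀ b j₀)) := by ring
    _ ≤ _ := mul_le_mul_of_nonneg_left hpow (by positivity)


lemma cc_int {f : G → ℝ} (hf : Continuous f) : Integrable f hm :=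
  hf.integrable_of_hasCompactSupport (HasCompactSupport.of_compactSpace f)

lemma ccH.Yc (h : ccH r a C z₀ CH CO F M K Y β₀ b j₀ X Z bb U B) (j : ℕ) (ζ : G) :
    Continuous (fun x => Y (zz β₀ b j) (x - ζ)) :=
  (h.Yb j).cont.comp (continuous_id.sub continuous_const)

lemma ccH.Dc (h : ccH r a C z₀ CH CO F M K Y β₀ b j₀ X Z bb U B) (k : ℕ) :
    Continuous (ccD Y β₀ b j₀ Z U k) := by
  unfold ccD
  exact continuous_finsetSum _ fun ζ _ => continuous_const.mul (h.Yc _ ζ)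

lemma ccH.node_level (h : ccH r a C z₀ CH CO F M K Y β₀ b j₀ X Z bb U B) (k : ℕ) {ξ : G}
    (hξ : ξ ∈ X) {ζ : G} (hζ : ζ ∈ Z (j₀ + k)) :
    ∫ t, Y (zz β₀ b (j₀ + k)) (t - ζ) * F (ξ - t) ∂hm = 0 := by
  have e : ∫ t, Y (zz β₀ b (j₀ + k)) (t - ζ) * F (ξ - t) ∂hm =
      Fc F (Y (zz β₀ b (j₀ + k))) (ξ - ζ) := by
    unfold Fc
    rw [← integral_sub_right_eq_self (fun t => Y (zz β₀ b (j₀ + k)) t * F (ξ - ζ - t)) ζ]
    refine integral_congr_ae (Filter.Eventually.of_forall fun t => ?_)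
    have e2 : ξ - t = ξ - ζ - (t - ζ) := by abel
    simp only [e2]
  rw [e]
  apply h.kn.Ys _ (cc_zz_pos _ _ _) (h.z_le _)
  have hz := cc_zz_pos β₀ b (j₀ + k)
  by_cases hd : ‖ξ - ζ‖ < ta β₀ b (j₀ + k)
  · left
    have h1 := (h.rep (j₀ + k)).iso ζ hζ ξ hξ hd
    have h2 := cc_ta_succ h.hβ b (j₀ + k)
    linarith
  · right
    have h1 := cc_zz_le h.hβ b (j₀ + k)
    have h2 := not_lt.mp hd
    linarith

lemma ccH.node (h : ccH r a C z₀ CH CO F M K Y β₀ b j₀ X Z bb U B) (n : ℕ) {ξ : G}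
    (hξ : ξ ∈ X) : Fc F (fun x => -∑ k ∈ Finset.range n, ccD Y β₀ b j₀ Z U k x) ξ = 0 := by
  unfold Fc
  have e : ∀ t, (-∑ k ∈ Finset.range n, ccD Y β₀ b j₀ Z U k t) * F (ξ - t) =
      ∑ k ∈ Finset.range n, ∑ ζ ∈ Z (j₀ + k),
        (-(us Y β₀ b j₀ Z U k ζ)) * (Y (zz β₀ b (j₀ + k)) (t - ζ) * F (ξ - t)) := by
    intro t
    unfold ccD
    rw [← Finset.sum_neg_distrib, Finset.sum_mul]
    refine Finset.sum_congr rfl fun k _ => ?_
    rw [← Finset.sum_neg_distrib, Finset.sum_mul]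
    refine Finset.sum_congr rfl fun ζ _ => ?_
    ring
  have hFc : Continuous fun t => F (ξ - t) :=
    h.kn.Fcont.comp (continuous_const.sub continuous_id)
  have hc : ∀ k, ∀ ζ : G, Continuous fun t =>
      (-(us Y β₀ b j₀ Z U k ζ)) * (Y (zz β₀ b (j₀ + k)) (t - ζ) * F (ξ - t)) := fun k ζ =>
    continuous_const.mul ((h.Yc _ ζ).mul hFc)
  rw [integral_congr_ae (Filter.Eventually.of_forall e), integral_finsetSum]
  · apply Finset.sum_eq_zero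
    intro k _
    rw [integral_finsetSum]
    · apply Finset.sum_eq_zero
      intro ζ hζ
      rw [integral_const_mul, h.node_level k hξ hζ, mul_zero]
    · intro ζ _
      exact cc_int (hc k ζ)
  · intro k _
    exact cc_int (continuous_finsetSum _ fun ζ _ => hc k ζ)

lemma ccH.int_set (h : ccH r a C z₀ CH CO F M K Y β₀ b j₀ X Z bb U B) (n : ℕ) (s : Set G) :
    |∫ x in s, (-∑ k ∈ Finset.range n, ccD Y β₀ b j₀ Z U k x) ∂hm| ≤
      ∑ k ∈ Finset.range n, ∑ ζ ∈ Z (j₀ + k),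
        2 * B * |∫ x in s, Y (zz β₀ b (j₀ + k)) (x - ζ) ∂hm| := by
  have hc : ∀ k, ∀ ζ : G, Continuous fun t =>
      us Y β₀ b j₀ Z U k ζ * Y (zz β₀ b (j₀ + k)) (t - ζ) := fun k ζ =>
    continuous_const.mul (h.Yc _ ζ)
  rw [integral_neg, abs_neg, integral_finsetSum]
  · refine (Finset.abs_sum_le_sum_abs _ _).trans (Finset.sum_le_sum fun k _ => ?_)
    unfold ccD
    rw [integral_finsetSum]
    · refine (Finset.abs_sum_le_sum_abs _ _).trans (Finset.sum_le_sum fun ζ hζ => ?_)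
      rw [integral_const_mul, abs_mul]
      apply mul_le_mul_of_nonneg_right _ (abs_nonneg _)
      have h1 := h.u_le' k ((h.rep _).sub hζ)
      have h2 := h.hcc.bbB ζ
      linarith
    · intro ζ _
      exact (cc_int (hc k ζ)).integrableOn
  · intro k _
    exact (cc_int (h.Dc k)).integrableOn

lemma ccH.B0 (h : ccH r a C z₀ CH CO F M K Y β₀ b j₀ X Z bb U B) : 0 ≤ B :=
  (h.hcc.bb0 0).trans (h.hcc.bbB 0)

lemma cc_norm_le (x : G) : ‖x‖ ≤ 4 := by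
  have h1 := AddCircle.norm_le_half_period (x := x) (p := 2 * Real.pi) (by positivity)
  have h2 : |2 * Real.pi| / 2 = Real.pi := by
    rw [abs_of_pos (by positivity)]
    ring
  rw [h2] at h1
  exact h1.trans Real.pi_le_four

/-- the number of points of a separated set -/
lemma cc_card {CS a : ℝ} (ha : 2 < a) (ha3 : a ≤ 3) (hCS : 1 ≤ CS)
    (hS : ∀ (S : Finset G) (σ s : ℝ) (x : G), 0 < σ → 0 < s → Sepd σ S →
      ∑ y ∈ S, (1 + ‖x - y‖ / s) ^ (-(a - 1)) ≤ CS * (1 + s / σ))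
    (S : Finset G) (t : ℝ) (ht : 0 < t) (ht1 : t ≤ 1) (hs : Sepd t S) :
    (S.card : ℝ) * t ≤ 50 * CS := by
  have h1 := hS S t 1 0 ht one_pos hs
  have h2 : ∀ y ∈ S, (1 / 25 : ℝ) ≤ (1 + ‖(0 : G) - y‖ / 1) ^ (-(a - 1)) := by
    intro y _
    have g1 := cc_norm_le (0 - y)
    have g2 : (5 : ℝ) ^ (-(a - 1)) ≤ (1 + ‖(0 : G) - y‖ / 1) ^ (-(a - 1)) := by
      apply Real.rpow_le_rpow_of_nonpos
      · positivity
      · rw [div_one]
        linarith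
      · linarith
    have g3 : (5 : ℝ) ^ (-(2:ℝ)) ≤ (5 : ℝ) ^ (-(a - 1)) :=
      Real.rpow_le_rpow_of_exponent_le (by norm_num) (by linarith)
    have g4 : (5 : ℝ) ^ (-(2:ℝ)) = 1 / 25 := by
      rw [Real.rpow_neg (by norm_num), Real.rpow_two]
      norm_num
    exact g4.symm.le.trans (g3.trans g2)
  have h3 := Finset.card_nsmul_le_sum _ _ _ h2
  rw [nsmul_eq_mul] at h3
  have h4 : (S.card : ℝ) * (1 / 25) ≤ CS * (1 + 1 / t) := h3.trans h1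
  have h5 : (S.card : ℝ) * (1 / 25) * t ≤ CS * (1 + 1 / t) * t :=
    mul_le_mul_of_nonneg_right h4 ht.le
  have h6 : CS * (1 + 1 / t) * t = CS * (t + 1) := by
    field_simp
  rw [h6] at h5
  nlinarith

lemma cc_sum_ta {β₀ : ℕ} (hβ : 3 ≤ β₀) (b j₀ n : ℕ) :
    ∑ k ∈ Finset.range n, ta β₀ b (j₀ + k) ≤ 2 * ta β₀ b j₀ := by
  have ht := cc_ta_pos β₀ b j₀
  calc ∑ k ∈ Finset.range n, ta β₀ b (j₀ + k) ≤ ∑ k ∈ Finset.range n, ta β₀ b j₀ * (1/2)^k := by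
        refine Finset.sum_le_sum fun k _ => ?_
        exact (cc_ta_add hβ b j₀ k).trans (mul_le_mul_of_nonneg_left (cc_pow64 k) ht.le)
    _ = ta β₀ b j₀ * ∑ k ∈ Finset.range n, (1/2)^k := by rw [Finset.mul_sum]
    _ ≤ ta β₀ b j₀ * 2 := mul_le_mul_of_nonneg_left (cc_geom n) ht.le
    _ = 2 * ta β₀ b j₀ := by ring

/-- integrals over cells -/
lemma ccH.cell (h : ccH r a C z₀ CH CO F M K Y β₀ b j₀ X Z bb U B) {CS CA : ℝ} (hCS : 1 ≤ CS)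
    (hCA : 1 ≤ CA)
    (hS : ∀ (S : Finset G) (σ s : ℝ) (x : G), 0 < σ → 0 < s → Sepd σ S →
      ∑ y ∈ S, (1 + ‖x - y‖ / s) ^ (-(a - 1)) ≤ CS * (1 + s / σ))
    (j i : ℕ) (e₁ e₂ : G)
    (hA : ∀ z, 0 < z → z ≤ z₀ → ∀ y : G, |∫ x in Cell j i, Y z (x - y) ∂hm| ≤
      CA * (C * z) * ((1 + ‖y - e₁‖ / z) ^ (1 - a) + (1 + ‖y - e₂‖ / z) ^ (1 - a)) +
        |∫ x, Y z x ∂hm|) (n : ℕ) :
    |∫ x in Cell j i, (-∑ k ∈ Finset.range n, ccD Y β₀ b j₀ Z U k x) ∂hm| ≤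
      4 * C * CA * CS * B * ta β₀ b j₀ := by
  have hC := h.C0
  have hB := h.B0
  have hr := h.kn.hr
  refine (h.int_set n (Cell j i)).trans ?_
  have hlev : ∀ k ∈ Finset.range n, ∑ ζ ∈ Z (j₀ + k),
      2 * B * |∫ x in Cell j i, Y (zz β₀ b (j₀ + k)) (x - ζ) ∂hm| ≤
      2 * C * CA * CS * B * ta β₀ b (j₀ + k) := by
    intro k _
    have ht := cc_ta_pos β₀ b (j₀ + k)
    have hz := cc_zz_pos β₀ b (j₀ + k)
    have hzt := cc_zz_le h.hβ b (j₀ + k)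
    have ht1 : ta β₀ b (j₀ + k) ≤ 1 := (cc_ta_le_b _ _ _).trans (cc_b_le_one b)
    have hsep : Sepd (ta β₀ b (j₀ + k)) (Z (j₀ + k)) := (h.rep _).sep
    have hcard := cc_card h.kn.ha h.kn.ha3 hCS hS _ _ ht ht1 hsep
    have hYm := h.kn.Ym _ hz (h.z_le _)
    have hend : ∀ e : G, ∑ ζ ∈ Z (j₀ + k), (1 + ‖ζ - e‖ / zz β₀ b (j₀ + k)) ^ (1 - a) ≤ 2 * CS := by
      intro e
      have g1 := hS (Z (j₀ + k)) _ (zz β₀ b (j₀ + k)) e ht hz hsep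
      have g2 : zz β₀ b (j₀ + k) / ta β₀ b (j₀ + k) ≤ 1 := by
        rw [div_le_one ht]
        linarith
      have g3 : ∑ ζ ∈ Z (j₀ + k), (1 + ‖ζ - e‖ / zz β₀ b (j₀ + k)) ^ (1 - a) =
          ∑ y ∈ Z (j₀ + k), (1 + ‖e - y‖ / zz β₀ b (j₀ + k)) ^ (-(a - 1)) := by
        refine Finset.sum_congr rfl fun y _ => ?_
        rw [norm_sub_rev, neg_sub]
      rw [g3]
      nlinarith
    have hzr : zz β₀ b (j₀ + k) ^ (1 + r) ≤
        zz β₀ b (j₀ + k) * (ta β₀ b (j₀ + k) / 16) := by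
      rw [Real.rpow_add hz, Real.rpow_one]
      apply mul_le_mul_of_nonneg_left _ hz.le
      have g1 : zz β₀ b (j₀ + k) ^ r ≤ zz β₀ b (j₀ + k) ^ (1:ℝ) :=
        Real.rpow_le_rpow_of_exponent_ge hz (by linarith) hr.le
      rw [Real.rpow_one] at g1
      linarith
    have hsum : ∑ ζ ∈ Z (j₀ + k), |∫ x in Cell j i, Y (zz β₀ b (j₀ + k)) (x - ζ) ∂hm| ≤
        C * CA * CS * ta β₀ b (j₀ + k) := by
      calc ∑ ζ ∈ Z (j₀ + k), |∫ x in Cell j i, Y (zz β₀ b (j₀ + k)) (x - ζ) ∂hm|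
          ≤ ∑ ζ ∈ Z (j₀ + k), (CA * (C * zz β₀ b (j₀ + k)) *
            ((1 + ‖ζ - e₁‖ / zz β₀ b (j₀ + k)) ^ (1 - a) +
              (1 + ‖ζ - e₂‖ / zz β₀ b (j₀ + k)) ^ (1 - a)) +
            C * (zz β₀ b (j₀ + k) * (ta β₀ b (j₀ + k) / 16))) := by
            refine Finset.sum_le_sum fun ζ _ => ?_
            refine (hA _ hz (h.z_le _) ζ).trans (add_le_add le_rfl ?_)
            exact hYm.trans (mul_le_mul_of_nonneg_left hzr hC)
        _ = CA * (C * zz β₀ b (j₀ + k)) *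
            (∑ ζ ∈ Z (j₀ + k), (1 + ‖ζ - e₁‖ / zz β₀ b (j₀ + k)) ^ (1 - a) +
              ∑ ζ ∈ Z (j₀ + k), (1 + ‖ζ - e₂‖ / zz β₀ b (j₀ + k)) ^ (1 - a)) +
            (C * zz β₀ b (j₀ + k) / 16) * (((Z (j₀ + k)).card : ℝ) * ta β₀ b (j₀ + k)) := by
            rw [Finset.sum_add_distrib, ← Finset.mul_sum, Finset.sum_add_distrib,
              Finset.sum_const, nsmul_eq_mul]
            ring
        _ ≤ CA * (C * zz β₀ b (j₀ + k)) * (2 * CS + 2 * CS) +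
            (C * zz β₀ b (j₀ + k) / 16) * (50 * CS) := by
            apply add_le_add
            · apply mul_le_mul_of_nonneg_left (add_le_add (hend e₁) (hend e₂))
              positivity
            · apply mul_le_mul_of_nonneg_left hcard
              positivity
        _ ≤ C * CA * CS * ta β₀ b (j₀ + k) := by
            have s1 : 0 ≤ C * CS * zz β₀ b (j₀ + k) := by positivity
            have s2 : C * CS * zz β₀ b (j₀ + k) ≤ CA * (C * CS * zz β₀ b (j₀ + k)) := by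
              nlinarith
            have s3 : 0 ≤ C * CA * CS := by positivity
            have s4 := mul_le_mul_of_nonneg_left hzt s3
            nlinarith
    rw [← Finset.mul_sum]
    calc 2 * B * ∑ ζ ∈ Z (j₀ + k), |∫ x in Cell j i, Y (zz β₀ b (j₀ + k)) (x - ζ) ∂hm|
        ≤ 2 * B * (C * CA * CS * ta β₀ b (j₀ + k)) :=
          mul_le_mul_of_nonneg_left hsum (by positivity)
      _ = _ := by ring
  refine (Finset.sum_le_sum hlev).trans ?_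
  rw [← Finset.mul_sum]
  calc 2 * C * CA * CS * B * ∑ k ∈ Finset.range n, ta β₀ b (j₀ + k)
      ≤ 2 * C * CA * CS * B * (2 * ta β₀ b j₀) :=
        mul_le_mul_of_nonneg_left (cc_sum_ta h.hβ b j₀ n) (by positivity)
    _ = _ := by ring

/-- the whole integral -/
lemma ccH.whole (h : ccH r a C z₀ CH CO F M K Y β₀ b j₀ X Z bb U B) (n : ℕ) :
    |∫ x, (-∑ k ∈ Finset.range n, ccD Y β₀ b j₀ Z U k x) ∂hm| ≤
      4 * C * B * X.card * (ta β₀ b j₀) ^ (1 + r) := by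
  have hC := h.C0
  have hB := h.B0
  have hr := h.kn.hr
  have ht0 := cc_ta_pos β₀ b j₀
  have h0 := h.int_set n Set.univ
  rw [setIntegral_univ] at h0
  refine h0.trans ?_
  have hlev : ∀ k ∈ Finset.range n, ∑ ζ ∈ Z (j₀ + k),
      2 * B * |∫ x in Set.univ, Y (zz β₀ b (j₀ + k)) (x - ζ) ∂hm| ≤
      2 * C * B * X.card * (ta β₀ b j₀) ^ (1 + r) * (1/2)^k := by
    intro k _
    have hz := cc_zz_pos β₀ b (j₀ + k)
    have hzt := cc_zz_le h.hβ b (j₀ + k)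
    have ht := cc_ta_pos β₀ b (j₀ + k)
    have e1 : zz β₀ b (j₀ + k) ≤ ta β₀ b j₀ * (1/2)^k := by
      have := (cc_ta_add h.hβ b j₀ k).trans (mul_le_mul_of_nonneg_left (cc_pow64 k) ht0.le)
      linarith
    have e2 : zz β₀ b (j₀ + k) ^ (1 + r) ≤ ta β₀ b j₀ ^ (1 + r) * (1/2)^k := by
      calc zz β₀ b (j₀ + k) ^ (1 + r) ≤ (ta β₀ b j₀ * (1/2)^k) ^ (1 + r) :=
            Real.rpow_le_rpow hz.le e1 (by linarith)
        _ = ta β₀ b j₀ ^ (1 + r) * ((1/2)^k) ^ (1 + r) :=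
            Real.mul_rpow ht0.le (by positivity)
        _ ≤ ta β₀ b j₀ ^ (1 + r) * (1/2)^k := by
            apply mul_le_mul_of_nonneg_left _ (by positivity)
            have g : (((1:ℝ)/2)^k) ^ (1 + r) ≤ (((1:ℝ)/2)^k) ^ (1:ℝ) :=
              Real.rpow_le_rpow_of_exponent_ge (by positivity)
                (pow_le_one₀ (by norm_num) (by norm_num)) (by linarith)
            rwa [Real.rpow_one] at g
    have hterm : ∀ ζ ∈ Z (j₀ + k),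
        2 * B * |∫ x in Set.univ, Y (zz β₀ b (j₀ + k)) (x - ζ) ∂hm| ≤
        2 * B * (C * (ta β₀ b j₀ ^ (1 + r) * (1/2)^k)) := by
      intro ζ _
      apply mul_le_mul_of_nonneg_left _ (by positivity)
      rw [setIntegral_univ, integral_sub_right_eq_self (fun x => Y (zz β₀ b (j₀ + k)) x) ζ]
      exact (h.kn.Ym _ hz (h.z_le _)).trans (mul_le_mul_of_nonneg_left e2 hC)
    refine (Finset.sum_le_card_nsmul _ _ _ hterm).trans ?_
    rw [nsmul_eq_mul]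
    have hcard : ((Z (j₀ + k)).card : ℝ) ≤ X.card := by
      exact_mod_cast Finset.card_le_card (h.rep (j₀ + k)).sub
    calc ((Z (j₀ + k)).card : ℝ) * (2 * B * (C * (ta β₀ b j₀ ^ (1 + r) * (1/2)^k)))
        ≤ (X.card : ℝ) * (2 * B * (C * (ta β₀ b j₀ ^ (1 + r) * (1/2)^k))) :=
          mul_le_mul_of_nonneg_right hcard (by positivity)
      _ = _ := by ring
  refine (Finset.sum_le_sum hlev).trans ?_
  rw [← Finset.mul_sum]
  calc 2 * C * B * X.card * (ta β₀ b j₀) ^ (1 + r) * ∑ k ∈ Finset.range n, (1/2)^k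
      ≤ 2 * C * B * X.card * (ta β₀ b j₀) ^ (1 + r) * 2 :=
        mul_le_mul_of_nonneg_left (cc_geom n) (by positivity)
    _ = _ := by ring

end

theorem t_CC (hM : S_CCM) (hO : S_OFF) (hR : S_REP) (hG : S_GGC) (hS : S_SEP) (hC : S_COL)
    (hA : S_ARC) (hE : S_CEL) : S_CC := by
  intro r a C z₀ F M K Y hkn CH hCH
  obtain ⟨β₁, hβ₁, hM⟩ := hM r a C z₀ F M K Y hkn CH hCH
  obtain ⟨CO, hCO, hO⟩ := hO a CH hkn.ha hkn.ha3 hCH
  obtain ⟨CS, hCS, -, hS⟩ := hS (a - 1) (by linarith [hkn.ha])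
  obtain ⟨CA, hCA, hA⟩ := hA a hkn.ha hkn.ha3
  have hC1 := hkn.hC
  have hC0 : 0 ≤ C := by linarith
  have p1 : 1 ≤ CH * C * CO := by
    have : 1 ≤ CH * C := by nlinarith
    nlinarith
  have p1' : C * CO ≤ CH * C * CO := by
    have : 0 ≤ C * CO := by positivity
    nlinarith
  have p2 : 1 ≤ C * CA * CS := by
    have : 1 ≤ C * CA := by nlinarith
    nlinarith
  have p3 : C ≤ C * CA * CS := by
    have : 1 ≤ CA * CS := by nlinarith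
    nlinarith
  refine ⟨10 * CH * C * CO + 4 * C * CA * CS, max β₁ 3, by nlinarith, by omega, ?_⟩
  intro β₀ hβ b j₀ Jm X bb U B hb hj hH
  have hβ3 : 3 ≤ β₀ := by omega
  choose Z hZ using fun j => hR β₀ b j X (by omega)
  have hO' := hO β₀ hβ3 b j₀ X Z bb U B hZ hH
  have hG' := hG β₀ b j₀ X Z (by omega) hZ
  have H : ccH r a C z₀ CH CO F M K Y β₀ b j₀ X Z bb U B :=
    { kn := hkn
      hCH := hCH
      hCO := hCO
      hβ := hβ3
      hb := hb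
      rep := hZ
      hcc := hH
      ccm := hM β₀ (by omega) b j₀ X Z bb U B hb hZ hH
      off1 := hO'.1
      off2 := hO'.2
      ggc1 := hG'.1
      ggc3 := fun k ξ => ⟨(hG'.2.2 k ξ).1, (hG'.2.2 k ξ).2.1⟩ }
  have hB := H.B0
  have ht0 := cc_ta_pos β₀ b j₀
  refine ⟨fun x => -∑ k ∈ Finset.range (Jm - j₀), ccD Y β₀ b j₀ Z U k x, ?_, ?_, ?_, ?_, ?_, ?_⟩
  · exact (continuous_finsetSum _ fun k _ => H.Dc k).neg
  · intro ξ hξ
    exact H.node _ hξ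
  · intro x hx
    have h1 := H.far (Jm - j₀) x hx
    have h2 := hH.bb0 x
    simp only [abs_neg]
    refine h1.trans ?_
    apply mul_le_mul_of_nonneg_right _ h2
    nlinarith
  · intro x j hj1 hj2 hx
    have e : U x + -∑ k ∈ Finset.range (Jm - j₀), ccD Y β₀ b j₀ Z U k x =
        us Y β₀ b j₀ Z U (Jm - j₀) x := by
      have := cc_us_add Y β₀ b j₀ Z U 0 (Jm - j₀) x
      simp only [zero_add] at this
      rw [this]
      have e0 : us Y β₀ b j₀ Z U 0 x = U x := rfl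
      rw [e0]
      ring
    simp only [e]
    have h1 := H.near (Jm - j₀) (j - j₀) (by omega) x (by
      rw [show j₀ + (j - j₀) = j by omega]
      exact hx)
    have h2 := hH.bb0 x
    refine h1.trans ?_
    apply mul_le_mul_of_nonneg_right _ (by positivity)
    apply mul_le_mul_of_nonneg_right _ h2
    nlinarith
  · intro j i
    by_cases hi : i < 2 ^ j
    · have h1 := H.cell hCS hCA hS j i (endp j i) (endp j (i + 1)) (fun z hz hz0 y => by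
        have hz1 : z ≤ 1 := hz0.trans hkn.z1
        exact (hA (C * z) z (Y z) (by positivity) hz hz1 (hkn.Yb z hz hz0)).2 j i hi y) (Jm - j₀)
      refine h1.trans ?_
      apply mul_le_mul_of_nonneg_right _ ht0.le
      apply mul_le_mul_of_nonneg_right _ hB
      nlinarith
    · have hemp : Cell j i = ∅ := by
        ext x
        simp only [Cell, Set.mem_ofPred_eq, Set.mem_empty_iff_false, iff_false]
        intro hx
        exact hi (hx ▸ hE.2.1 j x)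
      rw [hemp, setIntegral_empty, abs_zero]
      positivity
  · have h1 := H.whole (Jm - j₀)
    refine h1.trans ?_
    apply mul_le_mul_of_nonneg_right _ (by positivity)
    apply mul_le_mul_of_nonneg_right _ (by positivity)
    apply mul_le_mul_of_nonneg_right _ hB
    nlinarith

end

end Pool.Agent.H729R2.FO
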