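import Mathlib
import Pool.Agent.H729R2.FO.Stubs
import Pool.Agent.H729R2.FO.Stubs2

set_option autoImplicit false

namespace Pool.Agent.H729R2.FO

open MeasureTheory Pool.Agent.H729R2.CB Pool.Agent.Helper150.Cub

open scoped Classical

theorem ccf_ta_pos (β₀ b j : ℕ) : 0 < ta β₀ b j := by
  unfold ta
  positivity

theorem ccf_zz_pos (β₀ b j : ℕ) : 0 < zz β₀ b j := by
  unfold zz
  positivity

theorem ccf_zz_le (β₀ b j : ℕ) (h : 1 ≤ β₀) : zz β₀ b j ≤ ta β₀ b j / 2 := by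
  unfold zz ta
  have h1 : (1 / 2 : ℝ) ^ (b + TT β₀ j + (β₀ + Nat.log 2 (j + 2))) ≤ (1 / 2) ^ (b + TT β₀ j + 1) :=
    pow_le_pow_of_le_one (by norm_num) (by norm_num) (by omega)
  refine le_trans h1 (le_of_eq ?_)
  rw [pow_succ]
  ring

theorem ccf_zz_b (β₀ b j : ℕ) : zz β₀ b j ≤ (1 / 2) ^ b := by
  unfold zz
  exact pow_le_pow_of_le_one (by norm_num) (by norm_num) (by omega)

theorem ccf_TT (β₀ j n : ℕ) (h : 1 ≤ β₀) : TT β₀ j + n ≤ TT β₀ (j + n) := by
  induction n with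
  | zero => simp
  | succ n ih =>
    have h1 : TT β₀ (j + (n + 1)) = TT β₀ (j + n) + be β₀ (j + n) := by
      unfold TT
      rw [← add_assoc, Finset.sum_range_succ]
    have h2 : 1 ≤ be β₀ (j + n) := by
      unfold be
      omega
    rw [h1]
    omega

theorem ccf_ta_add (β₀ b j n : ℕ) (h : 1 ≤ β₀) :
    ta β₀ b (j + n) ≤ ta β₀ b j * (1 / 2) ^ n := by
  unfold ta
  rw [← pow_add]
  have h1 := ccf_TT β₀ j n h
  exact pow_le_pow_of_le_one (by norm_num) (by norm_num) (by omega)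

theorem ccf_geom (k : ℕ) : ∑ i ∈ Finset.range k, (1 / 2 : ℝ) ^ i ≤ 2 := by
  have h : ∑ i ∈ Finset.range k, (1 / 2 : ℝ) ^ i = 2 - 2 * (1 / 2) ^ k := by
    induction k with
    | zero => simp
    | succ k ih =>
      rw [Finset.sum_range_succ, ih, pow_succ]
      ring
  rw [h]
  have : (0 : ℝ) ≤ (1 / 2) ^ k := by positivity
  linarith

theorem ccf_rp {a z ρ t : ℝ} (ha : 2 < a) (hz : 0 < z) (hzρ : z ≤ ρ) (hzt : z ≤ t) :
    z ^ a * (ρ ^ (1 - a) / t) ≤ z / ρ := by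
  have hρ : 0 < ρ := lt_of_lt_of_le hz hzρ
  have ht : 0 < t := lt_of_lt_of_le hz hzt
  have h1 : z ^ a * ρ ^ (1 - a) = z * (z / ρ) ^ (a - 1) := by
    rw [Real.div_rpow hz.le hρ.le, show (1 - a) = -(a - 1) by ring, Real.rpow_neg hρ.le]
    have h0 : z ^ a = z * z ^ (a - 1) := by
      rw [Real.rpow_sub_one hz.ne', mul_div_cancel₀ _ hz.ne']
    rw [h0]
    ring
  have h2 : (z / ρ) ^ (a - 1) ≤ z / ρ := by
    have h3 := Real.rpow_le_rpow_of_exponent_ge (div_pos hz hρ) ((div_le_one hρ).mpr hzρ)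
      (show (1 : ℝ) ≤ a - 1 by linarith)
    rwa [Real.rpow_one] at h3
  have h3 : 0 ≤ z / ρ := by positivity
  calc z ^ a * (ρ ^ (1 - a) / t) = (z * (z / ρ) ^ (a - 1)) / t := by
        rw [← h1]
        ring
    _ ≤ (z * (z / ρ)) / t := by
        apply div_le_div_of_nonneg_right _ ht.le
        exact mul_le_mul_of_nonneg_left h2 hz.le
    _ = (z / t) * (z / ρ) := by ring
    _ ≤ 1 * (z / ρ) := mul_le_mul_of_nonneg_right ((div_le_one ht).mpr hzt) h3
    _ = z / ρ := one_mul _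

theorem ccf_Y {r a C z₀ : ℝ} {F : G → ℝ} {M K Y : ℝ → G → ℝ} (hK : Kn r a C z₀ F M K Y) {z : ℝ}
    (hz : 0 < z) (hz0 : z ≤ z₀) (x : G) :
    |Y z x| ≤ C ∧ (0 < ‖x‖ → |Y z x| ≤ C * (z ^ a * ‖x‖ ^ (-a))) := by
  have hC := hK.hC
  have ha := hK.ha
  have h1 := (hK.Yb z hz hz0).bd x
  have h2 : C * z / z = C := mul_div_cancel_right₀ C hz.ne'
  rw [h2] at h1
  have hx : 0 ≤ ‖x‖ / z := by positivity
  constructor
  · refine le_trans h1 ?_
    have h3 : (1 + ‖x‖ / z) ^ (-a) ≤ 1 :=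
      Real.rpow_le_one_of_one_le_of_nonpos (by linarith) (by linarith)
    calc C * (1 + ‖x‖ / z) ^ (-a) ≤ C * 1 := mul_le_mul_of_nonneg_left h3 (by linarith)
      _ = C := mul_one C
  · intro hx0
    refine le_trans h1 (mul_le_mul_of_nonneg_left ?_ (by linarith))
    have h3 : (1 + ‖x‖ / z) ^ (-a) ≤ (‖x‖ / z) ^ (-a) :=
      Real.rpow_le_rpow_of_nonpos (by positivity) (by linarith) (by linarith)
    refine le_trans h3 (le_of_eq ?_)
    rw [Real.div_rpow hx0.le hz.le, Real.rpow_neg hz.le, div_inv_eq_mul]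
    ring

theorem t_CCF (hM : S_CCM) (hO : S_OFF) (hN : S_CCN) (hG : S_GGC) : S_CCF := by
  intro r a C z₀ F M K Y hK CH hCH
  obtain ⟨βM, hβM1, hCCM⟩ := hM r a C z₀ F M K Y hK CH hCH
  obtain ⟨CO, hCO1, hOFF⟩ := hO a CH hK.ha hK.ha3 hCH
  have hC1 := hK.hC
  have ha := hK.ha
  have hC0 : 0 < C := by linarith
  have hCO0 : 0 < CO := by linarith
  have hCH0 : 0 < CH := by linarith
  refine ⟨CH * (2 + 2 * C + 6 * (C * CO)) + 4 * (C * CO), max βM 3, ?_, ?_, ?_⟩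
  · have h1 : 0 < C * CO := by positivity
    have h2 : 0 < CH * (2 * C + 6 * (C * CO)) := by positivity
    nlinarith
  · exact le_trans hβM1 (le_max_left _ _)
  intro β₀ hβ₀ b j₀ X Z bb U B hb hR hH
  have hβM : βM ≤ β₀ := le_trans (le_max_left _ _) hβ₀
  have hβ3 : 3 ≤ β₀ := le_trans (le_max_right _ _) hβ₀
  have hβ1 : 1 ≤ β₀ := by omega
  have hu := hCCM β₀ hβM b j₀ X Z bb U B hb hR hH
  obtain ⟨hoff1, hoff2⟩ := hOFF β₀ hβ3 b j₀ X Z bb U B hR hH
  obtain ⟨-, hexp, -⟩ := hN r a C z₀ F M K Y hK β₀ b j₀ X Z U (by omega) hb hR hH.Ucont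
  obtain ⟨hg1, -, hg3⟩ := hG β₀ b j₀ X Z hβ1 hR
  have hz0 : ∀ i, zz β₀ b (j₀ + i) ≤ z₀ := fun i => le_trans (ccf_zz_b _ _ _) hb
  have hzp : ∀ i, 0 < zz β₀ b (j₀ + i) := fun i => ccf_zz_pos _ _ _
  have htp : ∀ j, 0 < ta β₀ b j := fun j => ccf_ta_pos _ _ _
  have hzt : ∀ i, zz β₀ b (j₀ + i) ≤ ta β₀ b (j₀ + i) / 2 := fun i => ccf_zz_le _ _ _ hβ1
  have hanti : ∀ i j : ℕ, i ≤ j → ta β₀ b (j₀ + j) ≤ ta β₀ b (j₀ + i) * (1 / 2) ^ (j - i) := by
    intro i j hij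
    have h1 := ccf_ta_add β₀ b (j₀ + i) (j - i) hβ1
    have h2 : j₀ + i + (j - i) = j₀ + j := by omega
    rwa [h2] at h1
  have hanti' : ∀ i j : ℕ, i ≤ j → ta β₀ b (j₀ + j) ≤ ta β₀ b (j₀ + i) := by
    intro i j hij
    refine le_trans (hanti i j hij) ?_
    have h1 : (1 / 2 : ℝ) ^ (j - i) ≤ 1 := pow_le_one₀ (by norm_num) (by norm_num)
    calc ta β₀ b (j₀ + i) * (1 / 2) ^ (j - i) ≤ ta β₀ b (j₀ + i) * 1 :=
          mul_le_mul_of_nonneg_left h1 (htp _).le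
      _ = _ := mul_one _
  have hZu : ∀ i, ∀ ζ ∈ Z (j₀ + i), |us Y β₀ b j₀ Z U i ζ| ≤ 2 * (bb ζ * gg β₀ b j₀ Z i ζ) := by
    intro i ζ hζ
    have h1 := hu i ζ ((hR _).sub hζ) ζ (by rw [sub_self, norm_zero]; exact (htp _).le)
    linarith
  have hgn : ∀ i ζ, 0 ≤ bb ζ * gg β₀ b j₀ Z i ζ := fun i ζ =>
    mul_nonneg (hH.bb0 ζ) (hg3 i ζ).1.le
  have hlev : ∀ (i : ℕ) (x : G) (S : Finset G), S ⊆ Z (j₀ + i) → (∀ ζ ∈ S, 0 < ‖x - ζ‖) →
      |∑ ζ ∈ S, us Y β₀ b j₀ Z U i ζ * Y (zz β₀ b (j₀ + i)) (x - ζ)| ≤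
        2 * C * ((zz β₀ b (j₀ + i)) ^ a *
          ∑ ζ ∈ S, bb ζ * gg β₀ b j₀ Z i ζ * ‖x - ζ‖ ^ (-a)) := by
    intro i x S hS hpos
    refine le_trans (Finset.abs_sum_le_sum_abs _ _) ?_
    rw [Finset.mul_sum, Finset.mul_sum]
    apply Finset.sum_le_sum
    intro ζ hζ
    rw [abs_mul]
    have h1 := hZu i ζ (hS hζ)
    have h2 := (ccf_Y hK (hzp i) (hz0 i) (x - ζ)).2 (hpos ζ hζ)
    calc |us Y β₀ b j₀ Z U i ζ| * |Y (zz β₀ b (j₀ + i)) (x - ζ)|
        ≤ (2 * (bb ζ * gg β₀ b j₀ Z i ζ)) *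
          (C * ((zz β₀ b (j₀ + i)) ^ a * ‖x - ζ‖ ^ (-a))) :=
          mul_le_mul h1 h2 (abs_nonneg _) (mul_nonneg (by norm_num) (hgn i ζ))
      _ = 2 * C * ((zz β₀ b (j₀ + i)) ^ a * (bb ζ * gg β₀ b j₀ Z i ζ * ‖x - ζ‖ ^ (-a))) := by
          ring
  constructor
  · -- far points
    intro k x hx
    have hbx : 0 ≤ bb x := hH.bb0 x
    have e : us Y β₀ b j₀ Z U k x - U x = -∑ i ∈ Finset.range k, ∑ ζ ∈ Z (j₀ + i),
        us Y β₀ b j₀ Z U i ζ * Y (zz β₀ b (j₀ + i)) (x - ζ) := by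
      rw [hexp k x]
      ring
    rw [e, abs_neg]
    have hfar : ∀ i ∈ Finset.range k, |∑ ζ ∈ Z (j₀ + i),
        us Y β₀ b j₀ Z U i ζ * Y (zz β₀ b (j₀ + i)) (x - ζ)| ≤
        2 * C * CO * bb x * (1 / 2) ^ i := by
      intro i _
      have hpos : ∀ ζ ∈ Z (j₀ + i), 0 < ‖x - ζ‖ := fun ζ hζ =>
        lt_of_lt_of_le (htp j₀) (hx ζ ((hR _).sub hζ))
      refine le_trans (hlev i x (Z (j₀ + i)) (Finset.Subset.refl _) hpos) ?_
      have h1 : ∑ ζ ∈ Z (j₀ + i), bb ζ * gg β₀ b j₀ Z i ζ * ‖x - ζ‖ ^ (-a) ≤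
          CO * ((ta β₀ b j₀) ^ (1 - a) / ta β₀ b (j₀ + i)) * bb x := by
        refine le_trans (Finset.sum_le_sum ?_) (hoff2 i x hx)
        intro ζ hζ
        have h2 : bb ζ * gg β₀ b j₀ Z i ζ ≤ bb ζ := by
          calc bb ζ * gg β₀ b j₀ Z i ζ ≤ bb ζ * 1 :=
                mul_le_mul_of_nonneg_left (hg3 i ζ).2.1 (hH.bb0 ζ)
            _ = bb ζ := mul_one _
        exact mul_le_mul_of_nonneg_right h2 (Real.rpow_nonneg (norm_nonneg _) _)
      have hz1 : zz β₀ b (j₀ + i) ≤ ta β₀ b (j₀ + i) := by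
        have := hzt i
        have := htp (j₀ + i)
        linarith
      have h0 := hanti 0 i (Nat.zero_le i)
      rw [Nat.add_zero, Nat.sub_zero] at h0
      have hz2 : zz β₀ b (j₀ + i) ≤ ta β₀ b j₀ := by
        have h3 := hanti' 0 i (Nat.zero_le i)
        rw [Nat.add_zero] at h3
        linarith
      have h4 := ccf_rp ha (hzp i) hz2 hz1
      have h5 : zz β₀ b (j₀ + i) / ta β₀ b j₀ ≤ (1 / 2) ^ i := by
        rw [div_le_iff₀ (htp j₀)]
        linarith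
      calc 2 * C * ((zz β₀ b (j₀ + i)) ^ a *
            ∑ ζ ∈ Z (j₀ + i), bb ζ * gg β₀ b j₀ Z i ζ * ‖x - ζ‖ ^ (-a))
          ≤ 2 * C * ((zz β₀ b (j₀ + i)) ^ a *
            (CO * ((ta β₀ b j₀) ^ (1 - a) / ta β₀ b (j₀ + i)) * bb x)) := by
            apply mul_le_mul_of_nonneg_left _ (by positivity)
            exact mul_le_mul_of_nonneg_left h1 (Real.rpow_nonneg (hzp i).le _)
        _ = 2 * C * CO * bb x * ((zz β₀ b (j₀ + i)) ^ a *
            ((ta β₀ b j₀) ^ (1 - a) / ta β₀ b (j₀ + i))) := by ring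
        _ ≤ 2 * C * CO * bb x * (1 / 2) ^ i := by
            apply mul_le_mul_of_nonneg_left (le_trans h4 h5) (by positivity)
    calc |∑ i ∈ Finset.range k, ∑ ζ ∈ Z (j₀ + i),
          us Y β₀ b j₀ Z U i ζ * Y (zz β₀ b (j₀ + i)) (x - ζ)|
        ≤ ∑ i ∈ Finset.range k, |∑ ζ ∈ Z (j₀ + i),
          us Y β₀ b j₀ Z U i ζ * Y (zz β₀ b (j₀ + i)) (x - ζ)| := Finset.abs_sum_le_sum_abs _ _
      _ ≤ ∑ i ∈ Finset.range k, 2 * C * CO * bb x * (1 / 2) ^ i := Finset.sum_le_sum hfar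
      _ = 2 * C * CO * bb x * ∑ i ∈ Finset.range k, (1 / 2 : ℝ) ^ i := by rw [Finset.mul_sum]
      _ ≤ 2 * C * CO * bb x * 2 := mul_le_mul_of_nonneg_left (ccf_geom k) (by positivity)
      _ = 4 * (C * CO) * bb x := by ring
      _ ≤ (CH * (2 + 2 * C + 6 * (C * CO)) + 4 * (C * CO)) * bb x := by
          apply mul_le_mul_of_nonneg_right _ hbx
          have : 0 ≤ CH * (2 + 2 * C + 6 * (C * CO)) := by positivity
          linarith
  · -- near points
    intro k x j hj0 hjk hex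
    have hbx : 0 ≤ bb x := hH.bb0 x
    set P : ℕ → Prop := fun i => ∃ ξ ∈ X, ‖x - ξ‖ < ta β₀ b (j₀ + i) with hP
    have hPj : P (j - j₀) := by
      obtain ⟨ξ, hξ, h⟩ := hex
      refine ⟨ξ, hξ, ?_⟩
      rw [show j₀ + (j - j₀) = j by omega]
      exact h
    set m : ℕ := Nat.findGreatest P k with hm
    have hPm : P m := Nat.findGreatest_spec (by omega : j - j₀ ≤ k) hPj
    have hjm : j - j₀ ≤ m := Nat.le_findGreatest (by omega) hPj
    have hmk : m ≤ k := Nat.findGreatest_le k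
    have hmax : ∀ i, m < i → i ≤ k → ¬ P i := fun i h1 h2 => Nat.findGreatest_is_greatest h1 h2
    set W : ℝ := CH * bb x * (1 / 2) ^ (j - j₀ - nn X x (2 * ta β₀ b j₀)) with hWdef
    have hW0 : 0 ≤ W := by positivity
    have hW : ∀ ξ ∈ X, ‖x - ξ‖ < ta β₀ b (j₀ + m) → bb ξ * gg β₀ b j₀ Z m ξ ≤ W := by
      intro ξ hξ h
      have h1 := hg1 m ξ hξ x h
      have h2 : bb ξ ≤ CH * bb x := by
        apply hH.har
        rw [norm_sub_rev]
        have h3 := hanti' 0 m (Nat.zero_le m)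
        rw [Nat.add_zero] at h3
        have := htp j₀
        linarith
      have h3 : (1 / 2 : ℝ) ^ (m - nn X x (2 * ta β₀ b j₀)) ≤
          (1 / 2) ^ (j - j₀ - nn X x (2 * ta β₀ b j₀)) :=
        pow_le_pow_of_le_one (by norm_num) (by norm_num) (by omega)
      exact mul_le_mul h2 (le_trans h1 h3) (hg3 m ξ).1.le (by positivity)
    obtain ⟨ξ, hξ, hxξ⟩ := hPm
    have hQ := hW ξ hξ hxξ
    have hum : |us Y β₀ b j₀ Z U m x| ≤ 2 * W := by
      have h1 := hu m ξ hξ x hxξ.le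
      linarith
    have hfinal : |us Y β₀ b j₀ Z U k x| ≤ (2 + 2 * C + 6 * (C * CO)) * W := by
      rcases Nat.eq_or_lt_of_le hmk with hmk' | hmk'
      · rw [hmk'] at hum
        refine le_trans hum ?_
        apply mul_le_mul_of_nonneg_right _ hW0
        have : 0 < C * CO := by positivity
        linarith
      · -- the expansion from level m
        have hsplit : us Y β₀ b j₀ Z U k x = us Y β₀ b j₀ Z U m x -
            ((∑ ζ ∈ Z (j₀ + m), us Y β₀ b j₀ Z U m ζ * Y (zz β₀ b (j₀ + m)) (x - ζ)) +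
            ∑ i ∈ Finset.Ico (m + 1) k, ∑ ζ ∈ Z (j₀ + i),
              us Y β₀ b j₀ Z U i ζ * Y (zz β₀ b (j₀ + i)) (x - ζ)) := by
          rw [hexp k x, hexp m x]
          rw [← Finset.sum_eq_sum_Ico_succ_bot hmk' (fun i => ∑ ζ ∈ Z (j₀ + i),
              us Y β₀ b j₀ Z U i ζ * Y (zz β₀ b (j₀ + i)) (x - ζ))]
          rw [← Finset.sum_range_add_sum_Ico (fun i => ∑ ζ ∈ Z (j₀ + i),
              us Y β₀ b j₀ Z U i ζ * Y (zz β₀ b (j₀ + i)) (x - ζ)) hmk'.le]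
          ring
        -- level m, far part
        have hA1 : |∑ ζ ∈ (Z (j₀ + m)).filter (fun ζ => ta β₀ b (j₀ + m) / 2 ≤ ‖x - ζ‖),
            us Y β₀ b j₀ Z U m ζ * Y (zz β₀ b (j₀ + m)) (x - ζ)| ≤ 2 * (C * CO) * W := by
          have hpos : ∀ ζ ∈ (Z (j₀ + m)).filter (fun ζ => ta β₀ b (j₀ + m) / 2 ≤ ‖x - ζ‖),
              0 < ‖x - ζ‖ := by
            intro ζ hζ
            have h1 := (Finset.mem_filter.mp hζ).2
            have h2 := htp (j₀ + m)
            linarith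
          refine le_trans (hlev m x _ (Finset.filter_subset _ _) hpos) ?_
          have h1 := hoff1 m m le_rfl ξ hξ x hxξ.le (ta β₀ b (j₀ + m) / 2) le_rfl
            (by have := htp (j₀ + m); linarith)
          have h2 := ccf_rp (t := ta β₀ b (j₀ + m)) ha (hzp m) (hzt m) (le_trans (hzt m) (by
            have := htp (j₀ + m)
            linarith))
          have h3 : zz β₀ b (j₀ + m) / (ta β₀ b (j₀ + m) / 2) ≤ 1 := by
            rw [div_le_one (by have := htp (j₀ + m); linarith)]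
            exact hzt m
          have hQ0 := hgn m ξ
          calc 2 * C * ((zz β₀ b (j₀ + m)) ^ a *
                ∑ ζ ∈ (Z (j₀ + m)).filter (fun ζ => ta β₀ b (j₀ + m) / 2 ≤ ‖x - ζ‖),
                  bb ζ * gg β₀ b j₀ Z m ζ * ‖x - ζ‖ ^ (-a))
              ≤ 2 * C * ((zz β₀ b (j₀ + m)) ^ a *
                (CO * ((ta β₀ b (j₀ + m) / 2) ^ (1 - a) / ta β₀ b (j₀ + m)) *
                  (bb ξ * gg β₀ b j₀ Z m ξ))) := by
                apply mul_le_mul_of_nonneg_left _ (by positivity)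
                exact mul_le_mul_of_nonneg_left h1 (Real.rpow_nonneg (hzp m).le _)
            _ = 2 * (C * CO) * (bb ξ * gg β₀ b j₀ Z m ξ) * ((zz β₀ b (j₀ + m)) ^ a *
                ((ta β₀ b (j₀ + m) / 2) ^ (1 - a) / ta β₀ b (j₀ + m))) := by ring
            _ ≤ 2 * (C * CO) * (bb ξ * gg β₀ b j₀ Z m ξ) * 1 := by
                apply mul_le_mul_of_nonneg_left (le_trans h2 h3)
                exact mul_nonneg (by positivity) hQ0
            _ ≤ 2 * (C * CO) * W := by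
                rw [mul_one]
                exact mul_le_mul_of_nonneg_left hQ (by positivity)
        -- level m, near part
        have hA2 : |∑ ζ ∈ (Z (j₀ + m)).filter (fun ζ => ¬ ta β₀ b (j₀ + m) / 2 ≤ ‖x - ζ‖),
            us Y β₀ b j₀ Z U m ζ * Y (zz β₀ b (j₀ + m)) (x - ζ)| ≤ 2 * C * W := by
          refine le_trans (Finset.abs_sum_le_sum_abs _ _) ?_
          have hcard : ((Z (j₀ + m)).filter (fun ζ => ¬ ta β₀ b (j₀ + m) / 2 ≤ ‖x - ζ‖)).card
              ≤ 1 := by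
            rw [Finset.card_le_one]
            intro ζ hζ ζ' hζ'
            by_contra hne
            obtain ⟨h1, h2⟩ := Finset.mem_filter.mp hζ
            obtain ⟨h3, h4⟩ := Finset.mem_filter.mp hζ'
            have h5 := (hR (j₀ + m)).sep ζ h1 ζ' h3 hne
            have h6 : ‖ζ - ζ'‖ ≤ ‖x - ζ‖ + ‖x - ζ'‖ := by
              have h7 : ζ - ζ' = (x - ζ') - (x - ζ) := by abel
              rw [h7]
              have := norm_sub_le (x - ζ') (x - ζ)
              linarith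
            push Not at h2 h4
            linarith
          have hterm : ∀ ζ ∈ (Z (j₀ + m)).filter (fun ζ => ¬ ta β₀ b (j₀ + m) / 2 ≤ ‖x - ζ‖),
              |us Y β₀ b j₀ Z U m ζ * Y (zz β₀ b (j₀ + m)) (x - ζ)| ≤ 2 * C * W := by
            intro ζ hζ
            obtain ⟨h1, h2⟩ := Finset.mem_filter.mp hζ
            push Not at h2
            rw [abs_mul]
            have h3 := hZu m ζ h1
            have h4 := hW ζ ((hR _).sub h1) (by have := htp (j₀ + m); linarith)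
            have h5 := (ccf_Y hK (hzp m) (hz0 m) (x - ζ)).1
            calc |us Y β₀ b j₀ Z U m ζ| * |Y (zz β₀ b (j₀ + m)) (x - ζ)|
                ≤ (2 * W) * C := mul_le_mul (by linarith) h5 (abs_nonneg _) (by linarith)
              _ = 2 * C * W := by ring
          calc ∑ ζ ∈ (Z (j₀ + m)).filter (fun ζ => ¬ ta β₀ b (j₀ + m) / 2 ≤ ‖x - ζ‖),
                |us Y β₀ b j₀ Z U m ζ * Y (zz β₀ b (j₀ + m)) (x - ζ)|
              ≤ ((Z (j₀ + m)).filter (fun ζ => ¬ ta β₀ b (j₀ + m) / 2 ≤ ‖x - ζ‖)).card •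
                (2 * C * W) := Finset.sum_le_card_nsmul _ _ _ hterm
            _ ≤ 1 • (2 * C * W) := by
                apply nsmul_le_nsmul_left _ hcard
                positivity
            _ = 2 * C * W := one_nsmul _
        have hA : |∑ ζ ∈ Z (j₀ + m), us Y β₀ b j₀ Z U m ζ * Y (zz β₀ b (j₀ + m)) (x - ζ)| ≤
            2 * (C * CO) * W + 2 * C * W := by
          rw [← Finset.sum_filter_add_sum_filter_not (Z (j₀ + m))
            (fun ζ => ta β₀ b (j₀ + m) / 2 ≤ ‖x - ζ‖)]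
          exact le_trans (abs_add_le _ _) (add_le_add hA1 hA2)
        -- the other levels
        have hBi : ∀ i ∈ Finset.Ico (m + 1) k, |∑ ζ ∈ Z (j₀ + i),
            us Y β₀ b j₀ Z U i ζ * Y (zz β₀ b (j₀ + i)) (x - ζ)| ≤
            2 * (C * CO) * W * (1 / 2) ^ (i - (m + 1)) := by
          intro i hi
          obtain ⟨hi1, hi2⟩ := Finset.mem_Ico.mp hi
          have hall : ∀ ζ ∈ X, ta β₀ b (j₀ + (m + 1)) ≤ ‖x - ζ‖ := by
            intro ζ hζ
            by_contra hcon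
            push Not at hcon
            exact hmax (m + 1) (by omega) (by omega) ⟨ζ, hζ, hcon⟩
          have hpos : ∀ ζ ∈ Z (j₀ + i), 0 < ‖x - ζ‖ := fun ζ hζ =>
            lt_of_lt_of_le (htp _) (hall ζ ((hR _).sub hζ))
          refine le_trans (hlev i x _ (Finset.Subset.refl _) hpos) ?_
          have hfil : (Z (j₀ + i)).filter (fun ζ => ta β₀ b (j₀ + (m + 1)) ≤ ‖x - ζ‖) =
              Z (j₀ + i) := by
            apply Finset.filter_true_of_mem
            intro ζ hζ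
            exact hall ζ ((hR _).sub hζ)
          have hti := hanti' (m + 1) i hi1
          have h1 := hoff1 i m (by omega) ξ hξ x hxξ.le (ta β₀ b (j₀ + (m + 1)))
            (by have := htp (j₀ + i); linarith) (hanti' m (m + 1) (by omega))
          rw [hfil] at h1
          have hz1 : zz β₀ b (j₀ + i) ≤ ta β₀ b (j₀ + i) := by
            have := hzt i
            have := htp (j₀ + i)
            linarith
          have h2 := ccf_rp ha (hzp i) (le_trans hz1 hti) hz1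
          have h3 : zz β₀ b (j₀ + i) / ta β₀ b (j₀ + (m + 1)) ≤ (1 / 2) ^ (i - (m + 1)) := by
            rw [div_le_iff₀ (htp _)]
            have := hanti (m + 1) i hi1
            linarith
          have hQ0 := hgn m ξ
          calc 2 * C * ((zz β₀ b (j₀ + i)) ^ a *
                ∑ ζ ∈ Z (j₀ + i), bb ζ * gg β₀ b j₀ Z i ζ * ‖x - ζ‖ ^ (-a))
              ≤ 2 * C * ((zz β₀ b (j₀ + i)) ^ a *
                (CO * ((ta β₀ b (j₀ + (m + 1))) ^ (1 - a) / ta β₀ b (j₀ + i)) *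
                  (bb ξ * gg β₀ b j₀ Z m ξ))) := by
                apply mul_le_mul_of_nonneg_left _ (by positivity)
                exact mul_le_mul_of_nonneg_left h1 (Real.rpow_nonneg (hzp i).le _)
            _ = 2 * (C * CO) * (bb ξ * gg β₀ b j₀ Z m ξ) * ((zz β₀ b (j₀ + i)) ^ a *
                ((ta β₀ b (j₀ + (m + 1))) ^ (1 - a) / ta β₀ b (j₀ + i))) := by ring
            _ ≤ 2 * (C * CO) * (bb ξ * gg β₀ b j₀ Z m ξ) * (1 / 2) ^ (i - (m + 1)) := by
                apply mul_le_mul_of_nonneg_left (le_trans h2 h3)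
                exact mul_nonneg (by positivity) hQ0
            _ ≤ 2 * (C * CO) * W * (1 / 2) ^ (i - (m + 1)) := by
                apply mul_le_mul_of_nonneg_right _ (by positivity)
                exact mul_le_mul_of_nonneg_left hQ (by positivity)
        have hB : |∑ i ∈ Finset.Ico (m + 1) k, ∑ ζ ∈ Z (j₀ + i),
            us Y β₀ b j₀ Z U i ζ * Y (zz β₀ b (j₀ + i)) (x - ζ)| ≤ 4 * (C * CO) * W := by
          calc |∑ i ∈ Finset.Ico (m + 1) k, ∑ ζ ∈ Z (j₀ + i),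
                us Y β₀ b j₀ Z U i ζ * Y (zz β₀ b (j₀ + i)) (x - ζ)|
              ≤ ∑ i ∈ Finset.Ico (m + 1) k, |∑ ζ ∈ Z (j₀ + i),
                us Y β₀ b j₀ Z U i ζ * Y (zz β₀ b (j₀ + i)) (x - ζ)| :=
                Finset.abs_sum_le_sum_abs _ _
            _ ≤ ∑ i ∈ Finset.Ico (m + 1) k, 2 * (C * CO) * W * (1 / 2) ^ (i - (m + 1)) :=
                Finset.sum_le_sum hBi
            _ = 2 * (C * CO) * W * ∑ i ∈ Finset.range (k - (m + 1)), (1 / 2 : ℝ) ^ i := by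
                rw [Finset.sum_Ico_eq_sum_range, Finset.mul_sum]
                apply Finset.sum_congr rfl
                intro i _
                rw [Nat.add_sub_cancel_left]
            _ ≤ 2 * (C * CO) * W * 2 := mul_le_mul_of_nonneg_left (ccf_geom _) (by positivity)
            _ = 4 * (C * CO) * W := by ring
        rw [hsplit]
        calc |us Y β₀ b j₀ Z U m x -
              ((∑ ζ ∈ Z (j₀ + m), us Y β₀ b j₀ Z U m ζ * Y (zz β₀ b (j₀ + m)) (x - ζ)) +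
              ∑ i ∈ Finset.Ico (m + 1) k, ∑ ζ ∈ Z (j₀ + i),
                us Y β₀ b j₀ Z U i ζ * Y (zz β₀ b (j₀ + i)) (x - ζ))|
            ≤ |us Y β₀ b j₀ Z U m x| +
              |(∑ ζ ∈ Z (j₀ + m), us Y β₀ b j₀ Z U m ζ * Y (zz β₀ b (j₀ + m)) (x - ζ)) +
              ∑ i ∈ Finset.Ico (m + 1) k, ∑ ζ ∈ Z (j₀ + i),
                us Y β₀ b j₀ Z U i ζ * Y (zz β₀ b (j₀ + i)) (x - ζ)| := abs_sub _ _
          _ ≤ |us Y β₀ b j₀ Z U m x| +
              (|∑ ζ ∈ Z (j₀ + m), us Y β₀ b j₀ Z U m ζ * Y (zz β₀ b (j₀ + m)) (x - ζ)| +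
              |∑ i ∈ Finset.Ico (m + 1) k, ∑ ζ ∈ Z (j₀ + i),
                us Y β₀ b j₀ Z U i ζ * Y (zz β₀ b (j₀ + i)) (x - ζ)|) := by
              have := abs_add_le
                (∑ ζ ∈ Z (j₀ + m), us Y β₀ b j₀ Z U m ζ * Y (zz β₀ b (j₀ + m)) (x - ζ))
                (∑ i ∈ Finset.Ico (m + 1) k, ∑ ζ ∈ Z (j₀ + i),
                us Y β₀ b j₀ Z U i ζ * Y (zz β₀ b (j₀ + i)) (x - ζ))
              linarith
          _ ≤ 2 * W + ((2 * (C * CO) * W + 2 * C * W) + 4 * (C * CO) * W) :=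
              add_le_add hum (add_le_add hA hB)
          _ = (2 + 2 * C + 6 * (C * CO)) * W := by ring
    refine le_trans hfinal ?_
    have hpw : (0 : ℝ) ≤ (1 / 2) ^ (j - j₀ - nn X x (2 * ta β₀ b j₀)) := by positivity
    have h4 : 0 ≤ 4 * (C * CO) * (bb x * (1 / 2) ^ (j - j₀ - nn X x (2 * ta β₀ b j₀))) := by
      positivity
    calc (2 + 2 * C + 6 * (C * CO)) * W
        = CH * (2 + 2 * C + 6 * (C * CO)) * (bb x *
          (1 / 2) ^ (j - j₀ - nn X x (2 * ta β₀ b j₀))) := by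
          rw [hWdef]
          ring
      _ ≤ CH * (2 + 2 * C + 6 * (C * CO)) * (bb x *
          (1 / 2) ^ (j - j₀ - nn X x (2 * ta β₀ b j₀))) +
          4 * (C * CO) * (bb x * (1 / 2) ^ (j - j₀ - nn X x (2 * ta β₀ b j₀))) := by linarith
      _ = (CH * (2 + 2 * C + 6 * (C * CO)) + 4 * (C * CO)) * bb x *
          (1 / 2) ^ (j - j₀ - nn X x (2 * ta β₀ b j₀)) := by ring

end Pool.Agent.H729R2.FO
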