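import Mathlib
import Pool.Agent.H729R2.FO.Stubs
import Pool.Agent.H729R2.FO.Stubs2

set_option autoImplicit false

namespace Pool.Agent.H729R2.FO

open MeasureTheory Pool.Agent.H729R2.CB Pool.Agent.Helper150.Cub

open scoped Classical

theorem cci_ta_pos (β₀ b j : ℕ) : 0 < ta β₀ b j := by unfold ta; positivity

theorem cci_ta_le_one (β₀ b j : ℕ) : ta β₀ b j ≤ 1 := by
  unfold ta
  exact pow_le_one₀ (by norm_num) (by norm_num)

theorem cci_zz_pos (β₀ b j : ℕ) : 0 < zz β₀ b j := by unfold zz; positivity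

theorem cci_zz_le_ta (β₀ b j : ℕ) : zz β₀ b j ≤ ta β₀ b j := by
  unfold zz ta
  exact pow_le_pow_of_le_one (by norm_num) (by norm_num) (by omega)

theorem cci_zz_le_b (β₀ b j : ℕ) : zz β₀ b j ≤ (1 / 2) ^ b := by
  unfold zz
  exact pow_le_pow_of_le_one (by norm_num) (by norm_num) (by omega)

theorem cci_ta_step (β₀ b j : ℕ) (hβ : 1 ≤ β₀) : ta β₀ b (j + 1) ≤ ta β₀ b j * (1 / 2) := by
  unfold ta TT
  rw [Finset.sum_range_succ, ← pow_succ]
  refine pow_le_pow_of_le_one (by norm_num) (by norm_num) ?_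
  have : 1 ≤ be β₀ j := by unfold be; omega
  omega

theorem cci_ta_geo (β₀ b j i : ℕ) (hβ : 1 ≤ β₀) : ta β₀ b (j + i) ≤ ta β₀ b j * (1 / 2) ^ i := by
  induction i with
  | zero => simp
  | succ i ih =>
    calc ta β₀ b (j + (i + 1)) = ta β₀ b ((j + i) + 1) := by rw [add_assoc]
      _ ≤ ta β₀ b (j + i) * (1 / 2) := cci_ta_step β₀ b (j + i) hβ
      _ ≤ (ta β₀ b j * (1 / 2) ^ i) * (1 / 2) := mul_le_mul_of_nonneg_right ih (by norm_num)
      _ = ta β₀ b j * (1 / 2) ^ (i + 1) := by rw [pow_succ]; ring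

theorem cci_norm_le (x : G) : ‖x‖ ≤ Real.pi := by
  have h := AddCircle.norm_le_half_period (2 * Real.pi) (x := x) (by positivity)
  rw [abs_of_pos (by positivity)] at h
  linarith

theorem cci_geo_sum (k : ℕ) : ∑ i ∈ Finset.range k, (1 / 2 : ℝ) ^ i ≤ 2 := by
  have := sum_geometric_two_le k
  simpa using this

/-- number of points of a separated set -/
theorem cci_card (a CS : ℝ) (ha : 1 < a)
    (hCS : ∀ (S : Finset G) (σ s : ℝ) (x : G), 0 < σ → 0 < s → Sepd σ S →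
      ∑ y ∈ S, (1 + ‖x - y‖ / s) ^ (-a) ≤ CS * (1 + s / σ)) (hCS1 : 1 ≤ CS)
    (S : Finset G) (σ : ℝ) (hσ : 0 < σ) (hσ1 : σ ≤ 1) (hsep : Sepd σ S) :
    (S.card : ℝ) ≤ 2 * CS * (1 + Real.pi) ^ a / σ := by
  have h := hCS S σ 1 0 hσ one_pos hsep
  have hpi := Real.pi_pos
  have hlow : ∀ y ∈ S, (1 + Real.pi) ^ (-a) ≤ (1 + ‖(0 : G) - y‖ / 1) ^ (-a) := by
    intro y _
    refine Real.rpow_le_rpow_of_nonpos (by positivity) ?_ (by linarith)
    rw [div_one]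
    linarith [cci_norm_le ((0 : G) - y)]
  have h1 : (S.card : ℝ) * (1 + Real.pi) ^ (-a) ≤ CS * (1 + 1 / σ) := by
    calc (S.card : ℝ) * (1 + Real.pi) ^ (-a) = ∑ _y ∈ S, (1 + Real.pi) ^ (-a) := by
          rw [Finset.sum_const, nsmul_eq_mul]
      _ ≤ _ := Finset.sum_le_sum hlow
      _ ≤ _ := h
  have h2 : CS * (1 + 1 / σ) ≤ CS * (2 / σ) := by
    refine mul_le_mul_of_nonneg_left ?_ (by linarith)
    rw [le_div_iff₀ hσ]
    have : 1 / σ * σ = 1 := by field_simp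
    nlinarith
  have h3 : (S.card : ℝ) * (1 + Real.pi) ^ (-a) ≤ 2 * CS / σ := by
    calc _ ≤ CS * (2 / σ) := h1.trans h2
      _ = 2 * CS / σ := by ring
  rw [Real.rpow_neg (by positivity)] at h3
  have hp : 0 < (1 + Real.pi) ^ a := by positivity
  have h4 : (S.card : ℝ) = (S.card : ℝ) * ((1 + Real.pi) ^ a)⁻¹ * (1 + Real.pi) ^ a := by
    field_simp
  rw [h4]
  calc (S.card : ℝ) * ((1 + Real.pi) ^ a)⁻¹ * (1 + Real.pi) ^ a
      ≤ (2 * CS / σ) * (1 + Real.pi) ^ a := mul_le_mul_of_nonneg_right h3 hp.le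
    _ = _ := by ring

theorem cci_int_cont {f : G → ℝ} (hf : Continuous f) : Integrable f hm :=
  hf.integrable_of_hasCompactSupport (HasCompactSupport.of_compactSpace _)

/-- the integral of the correction over a set -/
theorem cci_expand (Y : ℝ → G → ℝ) (β₀ b j₀ k : ℕ) (Z : ℕ → Finset G) (U : G → ℝ)
    (hYc : ∀ i, Continuous (Y (zz β₀ b (j₀ + i))))
    (hexp : ∀ x, us Y β₀ b j₀ Z U k x = U x - ∑ i ∈ Finset.range k, ∑ ζ ∈ Z (j₀ + i),
      us Y β₀ b j₀ Z U i ζ * Y (zz β₀ b (j₀ + i)) (x - ζ)) (S : Set G) (W : ℕ → G → ℝ) (B : ℝ)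
    (hB : ∀ i, i < k → ∀ ζ ∈ Z (j₀ + i), |us Y β₀ b j₀ Z U i ζ| ≤ 2 * B) (hB0 : 0 ≤ B)
    (hW : ∀ i, i < k → ∀ ζ ∈ Z (j₀ + i), |∫ x in S, Y (zz β₀ b (j₀ + i)) (x - ζ) ∂hm| ≤ W i ζ) :
    |∫ x in S, (us Y β₀ b j₀ Z U k x - U x) ∂hm| ≤
      ∑ i ∈ Finset.range k, ∑ ζ ∈ Z (j₀ + i), 2 * B * W i ζ := by
  have e1 : ∫ x in S, (us Y β₀ b j₀ Z U k x - U x) ∂hm =
      - ∑ i ∈ Finset.range k, ∑ ζ ∈ Z (j₀ + i),
        us Y β₀ b j₀ Z U i ζ * ∫ x in S, Y (zz β₀ b (j₀ + i)) (x - ζ) ∂hm := by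
    have e2 : ∀ x, us Y β₀ b j₀ Z U k x - U x = - ∑ i ∈ Finset.range k, ∑ ζ ∈ Z (j₀ + i),
      us Y β₀ b j₀ Z U i ζ * Y (zz β₀ b (j₀ + i)) (x - ζ) := by
      intro x
      rw [hexp x]; ring
    simp_rw [e2]
    rw [integral_neg]
    congr 1
    have hint : ∀ i, ∀ ζ : G, Integrable (fun x => us Y β₀ b j₀ Z U i ζ *
        Y (zz β₀ b (j₀ + i)) (x - ζ)) (hm.restrict S) := by
      intro i ζ
      refine (cci_int_cont ?_).restrict
      exact continuous_const.mul ((hYc i).comp (continuous_id.sub continuous_const))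
    rw [integral_finsetSum _ (fun i _ => integrable_finsetSum _ (fun ζ _ => hint i ζ))]
    refine Finset.sum_congr rfl fun i _ => ?_
    rw [integral_finsetSum _ (fun ζ _ => hint i ζ)]
    refine Finset.sum_congr rfl fun ζ _ => ?_
    rw [integral_const_mul]
  rw [e1, abs_neg]
  refine (Finset.abs_sum_le_sum_abs _ _).trans (Finset.sum_le_sum fun i hi => ?_)
  refine (Finset.abs_sum_le_sum_abs _ _).trans (Finset.sum_le_sum fun ζ hζ => ?_)
  rw [abs_mul]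
  exact mul_le_mul (hB i (Finset.mem_range.mp hi) ζ hζ) (hW i (Finset.mem_range.mp hi) ζ hζ)
    (abs_nonneg _) (by linarith)

theorem t_CCI (hM : S_CCM) (hN : S_CCN) (hG : S_GGC) (hS : S_SEP) (hA : S_ARC) (hE : S_CEL) :
    S_CCI := by
  intro r a C z₀ F M K Y hK CH hCH
  obtain ⟨β₁, hβ₁, hM'⟩ := hM r a C z₀ F M K Y hK CH hCH
  have ha := hK.ha
  have hC := hK.hC
  have hr := hK.hr
  obtain ⟨CS, hCS1, -, hCS⟩ := hS (a - 1) (by linarith)
  obtain ⟨CA, hCA1, hCA⟩ := hA a hK.ha hK.ha3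
  set CP : ℝ := (1 + Real.pi) ^ (a - 1) with hCP
  have hpi := Real.pi_pos
  have hCP1 : 1 ≤ CP := Real.one_le_rpow (by linarith) (by linarith)
  set C₁ : ℝ := 8 * CA * C * CS + 4 * C * CS * CP with hC₁
  have hC₁0 : 0 ≤ C₁ := by positivity
  have hC₁C : C ≤ C₁ := by
    have h1 : 1 * C * 1 ≤ CA * C * CS := by
      refine mul_le_mul (mul_le_mul_of_nonneg_right hCA1 (by linarith)) hCS1 (by norm_num)
        (by positivity)
    have h2 : 0 ≤ C * CS * CP := by positivity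
    rw [hC₁]
    nlinarith
  refine ⟨4 * C₁, max β₁ 2, by linarith, le_max_of_le_right (by norm_num), ?_⟩
  intro β₀ hβ₀ b j₀ X Z bb U B hb hR hH
  have hβ1' : β₁ ≤ β₀ := (le_max_left _ _).trans hβ₀
  have hβ2 : 2 ≤ β₀ := (le_max_right _ _).trans hβ₀
  have hβ11 : 1 ≤ β₀ := by omega
  obtain ⟨-, hexp, -⟩ := hN r a C z₀ F M K Y hK β₀ b j₀ X Z U hβ2 hb hR hH.Ucont
  have hB0 : 0 ≤ B := (hH.bb0 0).trans (hH.bbB 0)
  have hz : ∀ i, 0 < zz β₀ b (j₀ + i) ∧ zz β₀ b (j₀ + i) ≤ z₀ := fun i =>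
    ⟨cci_zz_pos _ _ _, (cci_zz_le_b _ _ _).trans hb⟩
  have hYc : ∀ i, Continuous (Y (zz β₀ b (j₀ + i))) := fun i =>
    (hK.Yb _ (hz i).1 (hz i).2).cont
  have hus : ∀ i, ∀ ζ ∈ Z (j₀ + i), |us Y β₀ b j₀ Z U i ζ| ≤ 2 * B := by
    intro i ζ hζ
    have hζX : ζ ∈ X := (hR (j₀ + i)).sub hζ
    have h1 := hM' β₀ hβ1' b j₀ X Z bb U B hb hR hH i ζ hζX ζ (by
      rw [sub_self, norm_zero]; exact (cci_ta_pos _ _ _).le)
    have h2 := (hG β₀ b j₀ X Z hβ11 hR).2.2 i ζ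
    have h3 := hH.bbB ζ
    have h4 := hH.bb0 ζ
    refine h1.trans ?_
    calc 2 * bb ζ * gg β₀ b j₀ Z i ζ ≤ 2 * bb ζ * 1 :=
          mul_le_mul_of_nonneg_left h2.2.1 (by positivity)
      _ ≤ 2 * B := by linarith
  have hsepd : ∀ i, Sepd (ta β₀ b (j₀ + i)) (Z (j₀ + i)) := by
    intro i x hx y hy hxy
    exact (hR (j₀ + i)).sep x hx y hy hxy
  constructor
  · intro k j i
    by_cases hi : i < 2 ^ j
    swap
    · have : Cell j i = ∅ := by
        ext x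
        simp only [Cell, Set.mem_ofPred_eq, Set.mem_empty_iff_false, iff_false]
        intro h
        exact hi (h ▸ hE.2.1 j x)
      rw [this, setIntegral_empty, abs_zero]
      have := cci_ta_pos β₀ b j₀
      positivity
    refine (cci_expand Y β₀ b j₀ k Z U hYc (hexp k) (Cell j i)
      (fun l ζ => CA * (C * zz β₀ b (j₀ + l)) *
        ((1 + ‖ζ - endp j i‖ / zz β₀ b (j₀ + l)) ^ (1 - a) +
        (1 + ‖ζ - endp j (i + 1)‖ / zz β₀ b (j₀ + l)) ^ (1 - a)) +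
        C * (zz β₀ b (j₀ + l)) ^ (1 + r)) B (fun l _ => hus l) hB0 ?_).trans ?_
    · intro l _ ζ _
      have hz1 : zz β₀ b (j₀ + l) ≤ 1 := (hz l).2.trans hK.z1
      have h1 := (hCA (C * zz β₀ b (j₀ + l)) (zz β₀ b (j₀ + l)) (Y (zz β₀ b (j₀ + l)))
        (mul_nonneg (by linarith) (hz l).1.le) (hz l).1 hz1 (hK.Yb _ (hz l).1 (hz l).2)).2 j i hi ζ
      refine h1.trans (add_le_add le_rfl ?_)
      exact hK.Ym _ (hz l).1 (hz l).2
    · have hlev : ∀ l ∈ Finset.range k, ∑ ζ ∈ Z (j₀ + l), 2 * B *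
          (CA * (C * zz β₀ b (j₀ + l)) *
        ((1 + ‖ζ - endp j i‖ / zz β₀ b (j₀ + l)) ^ (1 - a) +
        (1 + ‖ζ - endp j (i + 1)‖ / zz β₀ b (j₀ + l)) ^ (1 - a)) +
        C * (zz β₀ b (j₀ + l)) ^ (1 + r)) ≤ (C₁ * B * ta β₀ b j₀) * (1 / 2) ^ l := by
        intro l _
        set z := zz β₀ b (j₀ + l) with hzdef
        set t := ta β₀ b (j₀ + l) with htdef
        have hz0 : 0 < z := (hz l).1
        have ht0 : 0 < t := cci_ta_pos _ _ _
        have ht1 : t ≤ 1 := cci_ta_le_one _ _ _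
        have hzt : z ≤ t := cci_zz_le_ta _ _ _
        have hsum : ∀ e : G, ∑ ζ ∈ Z (j₀ + l), (1 + ‖ζ - e‖ / z) ^ (1 - a) ≤ 2 * CS := by
          intro e
          have h1 := hCS (Z (j₀ + l)) t z e ht0 hz0 (hsepd l)
          have h2 : ∑ ζ ∈ Z (j₀ + l), (1 + ‖ζ - e‖ / z) ^ (1 - a) =
              ∑ y ∈ Z (j₀ + l), (1 + ‖e - y‖ / z) ^ (-(a - 1)) := by
            refine Finset.sum_congr rfl fun ζ _ => ?_
            rw [norm_sub_rev, neg_sub]
          rw [h2]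
          refine h1.trans ?_
          have h3 : z / t ≤ 1 := (div_le_one ht0).mpr hzt
          nlinarith
        have hcard := cci_card (a - 1) CS (by linarith) hCS hCS1 (Z (j₀ + l)) t ht0 ht1 (hsepd l)
        have hzr : z ^ (1 + r) ≤ z * t := by
          rw [Real.rpow_add hz0, Real.rpow_one]
          refine mul_le_mul_of_nonneg_left ?_ hz0.le
          calc z ^ r ≤ z ^ (1 : ℝ) :=
                Real.rpow_le_rpow_of_exponent_ge hz0 (hzt.trans ht1) hr.le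
            _ = z := Real.rpow_one z
            _ ≤ t := hzt
        have e1 : ∑ ζ ∈ Z (j₀ + l), 2 * B * (CA * (C * z) *
            ((1 + ‖ζ - endp j i‖ / z) ^ (1 - a) + (1 + ‖ζ - endp j (i + 1)‖ / z) ^ (1 - a)) +
            C * z ^ (1 + r)) = 2 * B * (CA * (C * z) *
              (∑ ζ ∈ Z (j₀ + l), (1 + ‖ζ - endp j i‖ / z) ^ (1 - a) +
               ∑ ζ ∈ Z (j₀ + l), (1 + ‖ζ - endp j (i + 1)‖ / z) ^ (1 - a)) +
            C * z ^ (1 + r) * (Z (j₀ + l)).card) := by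
          rw [← Finset.mul_sum, Finset.sum_add_distrib, ← Finset.mul_sum, Finset.sum_add_distrib,
            Finset.sum_const, nsmul_eq_mul]
          ring
        rw [e1]
        have e2 : CA * (C * z) *
              (∑ ζ ∈ Z (j₀ + l), (1 + ‖ζ - endp j i‖ / z) ^ (1 - a) +
               ∑ ζ ∈ Z (j₀ + l), (1 + ‖ζ - endp j (i + 1)‖ / z) ^ (1 - a)) ≤
              CA * (C * z) * (2 * CS + 2 * CS) :=
          mul_le_mul_of_nonneg_left (add_le_add (hsum _) (hsum _)) (by positivity)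
        have e3 : C * z ^ (1 + r) * (Z (j₀ + l)).card ≤ C * (z * t) * (2 * CS * CP / t) := by
          refine mul_le_mul (mul_le_mul_of_nonneg_left hzr (by linarith)) hcard
            (Nat.cast_nonneg _) (by positivity)
        have e4 : C * (z * t) * (2 * CS * CP / t) = 2 * C * CS * CP * z := by
          field_simp
        rw [e4] at e3
        have e5 : 2 * B * (CA * (C * z) *
              (∑ ζ ∈ Z (j₀ + l), (1 + ‖ζ - endp j i‖ / z) ^ (1 - a) +
               ∑ ζ ∈ Z (j₀ + l), (1 + ‖ζ - endp j (i + 1)‖ / z) ^ (1 - a)) +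
            C * z ^ (1 + r) * (Z (j₀ + l)).card) ≤ 2 * B * (CA * (C * z) * (2 * CS + 2 * CS) +
              2 * C * CS * CP * z) :=
          mul_le_mul_of_nonneg_left (add_le_add e2 e3) (by positivity)
        refine e5.trans ?_
        have e6 : 2 * B * (CA * (C * z) * (2 * CS + 2 * CS) + 2 * C * CS * CP * z) =
            C₁ * B * z := by rw [hC₁]; ring
        rw [e6]
        have hgeo := cci_ta_geo β₀ b j₀ l hβ11
        calc C₁ * B * z ≤ C₁ * B * (ta β₀ b j₀ * (1 / 2) ^ l) :=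
              mul_le_mul_of_nonneg_left (hzt.trans hgeo) (by positivity)
          _ = (C₁ * B * ta β₀ b j₀) * (1 / 2) ^ l := by ring
      refine (Finset.sum_le_sum hlev).trans ?_
      rw [← Finset.mul_sum]
      have hg := cci_geo_sum k
      have hp : 0 ≤ C₁ * B * ta β₀ b j₀ := by
        have := cci_ta_pos β₀ b j₀
        positivity
      calc (C₁ * B * ta β₀ b j₀) * ∑ i ∈ Finset.range k, (1 / 2 : ℝ) ^ i
          ≤ (C₁ * B * ta β₀ b j₀) * 2 := mul_le_mul_of_nonneg_left hg hp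
        _ ≤ 4 * C₁ * B * ta β₀ b j₀ := by nlinarith
  · intro k
    have h0 := cci_expand Y β₀ b j₀ k Z U hYc (hexp k) Set.univ
      (fun l _ => C * (zz β₀ b (j₀ + l)) ^ (1 + r)) B (fun l _ => hus l) hB0 (by
        intro l _ ζ _
        rw [setIntegral_univ]
        have : ∫ x, Y (zz β₀ b (j₀ + l)) (x - ζ) ∂hm = ∫ x, Y (zz β₀ b (j₀ + l)) x ∂hm :=
          integral_sub_right_eq_self (fun x => Y (zz β₀ b (j₀ + l)) x) ζ
        rw [this]
        exact hK.Ym _ (hz l).1 (hz l).2)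
    rw [setIntegral_univ] at h0
    refine h0.trans ?_
    have ht0 := cci_ta_pos β₀ b j₀
    have hlev : ∀ l ∈ Finset.range k, ∑ ζ ∈ Z (j₀ + l), 2 * B *
        (C * (zz β₀ b (j₀ + l)) ^ (1 + r)) ≤
        (2 * C₁ * B * X.card * (ta β₀ b j₀) ^ (1 + r)) * (1 / 2) ^ l := by
      intro l _
      rw [Finset.sum_const, nsmul_eq_mul]
      have hcard : ((Z (j₀ + l)).card : ℝ) ≤ X.card := by
        exact_mod_cast Finset.card_le_card (hR (j₀ + l)).sub
      have h1 : zz β₀ b (j₀ + l) ^ (1 + r) ≤ (ta β₀ b j₀) ^ (1 + r) * (1 / 2) ^ l := by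
        calc zz β₀ b (j₀ + l) ^ (1 + r) ≤ (ta β₀ b j₀ * (1 / 2) ^ l) ^ (1 + r) :=
              Real.rpow_le_rpow (hz l).1.le
                ((cci_zz_le_ta _ _ _).trans (cci_ta_geo β₀ b j₀ l hβ11)) (by linarith)
          _ = (ta β₀ b j₀) ^ (1 + r) * ((1 / 2) ^ l) ^ (1 + r) :=
              Real.mul_rpow ht0.le (by positivity)
          _ ≤ (ta β₀ b j₀) ^ (1 + r) * ((1 / 2) ^ l) ^ (1 : ℝ) := by
              refine mul_le_mul_of_nonneg_left ?_ (by positivity)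
              refine Real.rpow_le_rpow_of_exponent_ge (by positivity)
                (pow_le_one₀ (by norm_num) (by norm_num)) (by linarith)
          _ = (ta β₀ b j₀) ^ (1 + r) * (1 / 2) ^ l := by rw [Real.rpow_one]
      calc ((Z (j₀ + l)).card : ℝ) * (2 * B * (C * (zz β₀ b (j₀ + l)) ^ (1 + r)))
          ≤ (X.card : ℝ) * (2 * B * (C₁ * ((ta β₀ b j₀) ^ (1 + r) * (1 / 2) ^ l))) := by
            refine mul_le_mul hcard ?_ ?_ (Nat.cast_nonneg _)
            · refine mul_le_mul_of_nonneg_left ?_ (by positivity)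
              exact mul_le_mul hC₁C h1 (Real.rpow_nonneg (hz l).1.le _) hC₁0
            · have := Real.rpow_nonneg (hz l).1.le (1 + r)
              positivity
        _ = (2 * C₁ * B * X.card * (ta β₀ b j₀) ^ (1 + r)) * (1 / 2) ^ l := by ring
    refine (Finset.sum_le_sum hlev).trans ?_
    rw [← Finset.mul_sum]
    have hg := cci_geo_sum k
    have hp : 0 ≤ 2 * C₁ * B * X.card * (ta β₀ b j₀) ^ (1 + r) :=
      mul_nonneg (mul_nonneg (mul_nonneg (mul_nonneg (by norm_num) hC₁0) hB0) (Nat.cast_nonneg _))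
        (Real.rpow_nonneg ht0.le _)
    calc (2 * C₁ * B * X.card * (ta β₀ b j₀) ^ (1 + r)) * ∑ i ∈ Finset.range k, (1 / 2 : ℝ) ^ i
        ≤ (2 * C₁ * B * X.card * (ta β₀ b j₀) ^ (1 + r)) * 2 := mul_le_mul_of_nonneg_left hg hp
      _ = 4 * C₁ * B * X.card * (ta β₀ b j₀) ^ (1 + r) := by ring

end Pool.Agent.H729R2.FO
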