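import Mathlib
import Pool.Agent.H729R2.FO.Stubs

set_option autoImplicit false

namespace Pool.Agent.H729R2.FO

open MeasureTheory Pool.Agent.H729R2.CB Pool.Agent.Helper150.Cub

open scoped Classical

noncomputable section

/-- the ratio of consecutive scales -/
def ccm_de (β₀ j : ℕ) : ℝ := (1 / 2) ^ (β₀ + Nat.log 2 (j + 2))

lemma ccm_de_pos (β₀ j : ℕ) : 0 < ccm_de β₀ j := by unfold ccm_de; positivity

lemma ccm_ta_pos (β₀ b j : ℕ) : 0 < ta β₀ b j := by unfold ta; positivity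

lemma ccm_zz_eq (β₀ b j : ℕ) : zz β₀ b j = ta β₀ b j * ccm_de β₀ j := by
  unfold zz ta ccm_de
  rw [← pow_add]

lemma ccm_ta_succ (β₀ b j : ℕ) : ta β₀ b (j + 1) = ta β₀ b j * ccm_de β₀ j ^ 2 := by
  unfold ta ccm_de TT
  rw [Finset.sum_range_succ, ← pow_mul, ← pow_add]
  congr 1
  unfold be
  ring

lemma ccm_de_le (β₀ j : ℕ) : ccm_de β₀ j ≤ (1 / 2) ^ β₀ := by
  unfold ccm_de
  exact pow_le_pow_of_le_one (by norm_num) (by norm_num) (Nat.le_add_right _ _)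

lemma ccm_de_le' (β₀ j k : ℕ) (hkj : k ≤ j) : ccm_de β₀ j * ((k : ℝ) + 2) ≤ 2 * (1 / 2) ^ β₀ := by
  unfold ccm_de
  rw [pow_add]
  have h1 : (j + 2 : ℕ) < 2 ^ (Nat.log 2 (j + 2) + 1) := Nat.lt_pow_succ_log_self (by norm_num) _
  have h2 : ((j : ℝ) + 2) ≤ 2 * 2 ^ Nat.log 2 (j + 2) := by
    have : ((j + 2 : ℕ) : ℝ) ≤ ((2 ^ (Nat.log 2 (j + 2) + 1) : ℕ) : ℝ) := by exact_mod_cast h1.le
    push_cast at this
    rw [pow_succ] at this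
    linarith
  have h3 : ((k : ℝ) + 2) ≤ 2 * 2 ^ Nat.log 2 (j + 2) := by
    have : (k : ℝ) ≤ j := by exact_mod_cast hkj
    linarith
  have h4 : (1 / 2 : ℝ) ^ Nat.log 2 (j + 2) * (2 * 2 ^ Nat.log 2 (j + 2)) = 2 := by
    rw [show (1 / 2 : ℝ) ^ Nat.log 2 (j + 2) * (2 * 2 ^ Nat.log 2 (j + 2)) =
      2 * ((1 / 2 : ℝ) ^ Nat.log 2 (j + 2) * 2 ^ Nat.log 2 (j + 2)) by ring, ← mul_pow]
    norm_num
  have hp : (0 : ℝ) ≤ (1 / 2) ^ β₀ := by positivity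
  have hq : (0 : ℝ) ≤ (1 / 2) ^ Nat.log 2 (j + 2) := by positivity
  calc (1 / 2 : ℝ) ^ β₀ * (1 / 2) ^ Nat.log 2 (j + 2) * ((k : ℝ) + 2)
      = (1 / 2 : ℝ) ^ β₀ * ((1 / 2) ^ Nat.log 2 (j + 2) * ((k : ℝ) + 2)) := by ring
    _ ≤ (1 / 2 : ℝ) ^ β₀ * ((1 / 2) ^ Nat.log 2 (j + 2) * (2 * 2 ^ Nat.log 2 (j + 2))) := by gcongr
    _ = 2 * (1 / 2) ^ β₀ := by rw [h4]; ring

lemma ccm_gg_succ (β₀ b j₀ : ℕ) (Z : ℕ → Finset G) (k : ℕ) (ξ : G) :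
    gg β₀ b j₀ Z (k + 1) ξ = if (∃ ζ ∈ Z (j₀ + k), ‖ξ - ζ‖ < ta β₀ b (j₀ + k + 1)) then
      gg β₀ b j₀ Z k ξ / 2 else gg β₀ b j₀ Z k ξ := by
  unfold gg
  rw [Finset.range_add_one, Finset.filter_insert]
  split_ifs with h
  · rw [Finset.card_insert_of_notMem (by simp), pow_succ]; ring
  · rfl

lemma ccm_gg_pos (β₀ b j₀ : ℕ) (Z : ℕ → Finset G) (k : ℕ) (ξ : G) : 0 < gg β₀ b j₀ Z k ξ := by
  unfold gg; positivity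

/-- decay of a bump -/
lemma ccm_pow {a z : ℝ} (hz : 0 < z) (ha : 0 ≤ a) (x : G) (hx : 0 < ‖x‖) :
    (1 + ‖x‖ / z) ^ (-a) ≤ z ^ a * ‖x‖ ^ (-a) := by
  have h1 : (1 + ‖x‖ / z) ^ (-a) ≤ (‖x‖ / z) ^ (-a) := by
    apply Real.rpow_le_rpow_of_nonpos (by positivity) (by linarith) (by linarith)
  refine h1.trans (le_of_eq ?_)
  rw [Real.div_rpow hx.le hz.le, Real.rpow_neg hz.le, div_inv_eq_mul]
  ring

lemma ccm_pow1 {a z : ℝ} (hz : 0 < z) (ha : 0 ≤ a) (x : G) :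
    (1 + ‖x‖ / z) ^ (-a) ≤ 1 := by
  apply Real.rpow_le_one_of_one_le_of_nonpos
  · have : 0 ≤ ‖x‖ / z := by positivity
    linarith
  · linarith

lemma ccm_Y1 {a C z : ℝ} {g : G → ℝ} (h : Bd a (C * z) z g) (hz : 0 < z) (hC : 0 ≤ C) (ha : 0 ≤ a)
    (x : G) (hx : 0 < ‖x‖) : |g x| ≤ C * (z ^ a * ‖x‖ ^ (-a)) := by
  have h1 := h.bd x
  rw [mul_div_assoc, div_self hz.ne', mul_one] at h1
  exact h1.trans (mul_le_mul_of_nonneg_left (ccm_pow hz ha x hx) hC)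

lemma ccm_Y2 {a C z : ℝ} {g : G → ℝ} (h : Bd a (C * z) z g) (hz : 0 < z) (hC : 0 ≤ C) (ha : 0 ≤ a)
    (x y : G) : |g x - g y| ≤ 2 * C * (‖x - y‖ / z) := by
  have h1 := h.lip x y
  rw [mul_div_assoc, div_self hz.ne', mul_one] at h1
  have h2 := ccm_pow1 hz ha x
  have h3 := ccm_pow1 hz ha y
  have h4 : 0 ≤ C * (‖x - y‖ / z) := by positivity
  nlinarith

lemma ccm_Y3 {a C z : ℝ} {g : G → ℝ} (h : Bd a (C * z) z g) (hz : 0 < z) (hC : 0 ≤ C) (ha : 0 ≤ a)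
    (x y : G) (hx : 0 < ‖x‖) (hy : 0 < ‖y‖) :
    |g x - g y| ≤ C * (‖x - y‖ / z) * (z ^ a * ‖x‖ ^ (-a) + z ^ a * ‖y‖ ^ (-a)) := by
  have h1 := h.lip x y
  rw [mul_div_assoc, div_self hz.ne', mul_one] at h1
  have h2 := ccm_pow hz ha x hx
  have h3 := ccm_pow hz ha y hy
  have h4 : 0 ≤ C * (‖x - y‖ / z) := by positivity
  exact h1.trans (mul_le_mul_of_nonneg_left (add_le_add h2 h3) h4)

/-- the numerical factor -/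
lemma ccm_num {a t δ : ℝ} (ha : 2 < a) (ha3 : a ≤ 3) (ht : 0 < t) (hδ : 0 < δ) (hδ1 : δ ≤ 1) :
    (t * δ) ^ a * ((t / 2) ^ (1 - a) / t) ≤ 4 * δ ^ 2 := by
  have e1 : (t * δ) ^ a = t ^ a * δ ^ a := Real.mul_rpow ht.le hδ.le
  have e2 : (t / 2) ^ (1 - a) = t ^ (1 - a) * 2 ^ (a - 1) := by
    rw [Real.div_rpow ht.le (by norm_num), div_eq_mul_inv, ← Real.rpow_neg (by norm_num)]
    congr 2
    ring
  have e3 : t ^ a * t ^ (1 - a) = t := by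
    rw [← Real.rpow_add ht]
    simp
  have e4 : (t * δ) ^ a * ((t / 2) ^ (1 - a) / t) = δ ^ a * 2 ^ (a - 1) := by
    rw [e1, e2]
    calc t ^ a * δ ^ a * (t ^ (1 - a) * 2 ^ (a - 1) / t) = (t ^ a * t ^ (1 - a)) / t * (δ ^ a * 2 ^ (a - 1)) := by ring
      _ = δ ^ a * 2 ^ (a - 1) := by rw [e3, div_self ht.ne', one_mul]
  rw [e4]
  have e5 : δ ^ a ≤ δ ^ (2:ℝ) := Real.rpow_le_rpow_of_exponent_ge hδ hδ1 ha.le
  have e6 : (2:ℝ) ^ (a - 1) ≤ (2:ℝ) ^ (2:ℝ) := Real.rpow_le_rpow_of_exponent_le (by norm_num) (by linarith)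
  have e7 : (2:ℝ) ^ (2:ℝ) = 4 := by
    rw [Real.rpow_two]; norm_num
  rw [Real.rpow_two] at e5
  rw [e7] at e6
  have e8 : 0 ≤ (2:ℝ) ^ (a - 1) := by positivity
  calc δ ^ a * 2 ^ (a - 1) ≤ δ ^ 2 * 4 := mul_le_mul e5 e6 e8 (by positivity)
    _ = 4 * δ ^ 2 := by ring


/-- the step: bounds off the diagonal -/
lemma ccm_off {a CO t δ β : ℝ} {X Zs : Finset G} {bb g u : G → ℝ}
    (ha : 2 < a) (ha3 : a ≤ 3) (hCO : 1 ≤ CO) (ht : 0 < t) (hδ : 0 < δ)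
    (hδ1 : δ ≤ 1 / 100) (hb2 : β ≤ 2)
    (sub : Zs ⊆ X) (iso : ∀ ζ ∈ Zs, ∀ η ∈ X, ‖η - ζ‖ < t → ‖η - ζ‖ < t * δ ^ 2)
    (h1 : ∀ ξ ∈ X, ∀ x, ‖x - ξ‖ ≤ t → |u x| ≤ β * (bb ξ * g ξ))
    (off : ∀ ξ ∈ X, ∀ x, ‖x - ξ‖ ≤ t → ∑ ζ ∈ Zs.filter (fun ζ => t / 2 ≤ ‖x - ζ‖), bb ζ * g ζ * ‖x - ζ‖ ^ (-a)
      ≤ CO * ((t / 2) ^ (1 - a) / t) * (bb ξ * g ξ))
    (hbb : ∀ x, 0 ≤ bb x) (hg : ∀ x, 0 < g x) (ξ : G) (hξ : ξ ∈ X) (x : G) (hx : ‖x - ξ‖ ≤ t * δ ^ 2) :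
    (∀ ζ ∈ Zs.filter (fun ζ => ¬ ‖ξ - ζ‖ < t * δ ^ 2), t / 2 ≤ ‖x - ζ‖) ∧
    ∑ ζ ∈ Zs.filter (fun ζ => ¬ ‖ξ - ζ‖ < t * δ ^ 2), |u ζ| * ((t * δ) ^ a * ‖x - ζ‖ ^ (-a)) ≤
      8 * CO * δ ^ 2 * (bb ξ * g ξ) := by
  have hd2 : δ ^ 2 ≤ 1 / 10000 := by nlinarith
  have hfar : ∀ ζ ∈ Zs.filter (fun ζ => ¬ ‖ξ - ζ‖ < t * δ ^ 2), t / 2 ≤ ‖x - ζ‖ := by
    intro ζ hζ
    rw [Finset.mem_filter] at hζ
    have h3 : t ≤ ‖ξ - ζ‖ := by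
      by_contra hcon
      exact hζ.2 (iso ζ hζ.1 ξ hξ (not_le.mp hcon))
    have h4 : ‖ξ - ζ‖ ≤ ‖x - ξ‖ + ‖x - ζ‖ := by
      have : ξ - ζ = (x - ζ) - (x - ξ) := by abel
      rw [this]
      have := norm_sub_le (x - ζ) (x - ξ)
      linarith
    nlinarith
  refine ⟨hfar, ?_⟩
  have hxt : ‖x - ξ‖ ≤ t := by nlinarith
  have h5 := off ξ hξ x hxt
  have h6 : ∑ ζ ∈ Zs.filter (fun ζ => ¬ ‖ξ - ζ‖ < t * δ ^ 2), |u ζ| * ((t * δ) ^ a * ‖x - ζ‖ ^ (-a)) ≤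
      ∑ ζ ∈ Zs.filter (fun ζ => t / 2 ≤ ‖x - ζ‖), 2 * (t * δ) ^ a * (bb ζ * g ζ * ‖x - ζ‖ ^ (-a)) := by
    have hsub : Zs.filter (fun ζ => ¬ ‖ξ - ζ‖ < t * δ ^ 2) ⊆ Zs.filter (fun ζ => t / 2 ≤ ‖x - ζ‖) := by
      intro ζ hζ
      have := hfar ζ hζ
      rw [Finset.mem_filter] at hζ ⊢
      exact ⟨hζ.1, this⟩
    refine le_trans ?_ (Finset.sum_le_sum_of_subset_of_nonneg hsub ?_)
    · apply Finset.sum_le_sum
      intro ζ hζ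
      rw [Finset.mem_filter] at hζ
      have h7 : |u ζ| ≤ 2 * (bb ζ * g ζ) := by
        have h8 := h1 ζ (sub hζ.1) ζ (by simpa using ht.le)
        have h9 : 0 ≤ bb ζ * g ζ := mul_nonneg (hbb ζ) (hg ζ).le
        nlinarith
      have h10 : 0 ≤ (t * δ) ^ a * ‖x - ζ‖ ^ (-a) := by positivity
      calc |u ζ| * ((t * δ) ^ a * ‖x - ζ‖ ^ (-a)) ≤ 2 * (bb ζ * g ζ) * ((t * δ) ^ a * ‖x - ζ‖ ^ (-a)) :=
            mul_le_mul_of_nonneg_right h7 h10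
        _ = _ := by ring
    · intro ζ _ _
      have := hbb ζ
      have := (hg ζ).le
      positivity
  rw [← Finset.mul_sum] at h6
  have h11 : 0 ≤ bb ξ * g ξ := mul_nonneg (hbb ξ) (hg ξ).le
  have h12 : 0 ≤ (t * δ) ^ a := by positivity
  calc _ ≤ 2 * (t * δ) ^ a * ∑ ζ ∈ Zs.filter (fun ζ => t / 2 ≤ ‖x - ζ‖), (bb ζ * g ζ * ‖x - ζ‖ ^ (-a)) := h6
    _ ≤ 2 * (t * δ) ^ a * (CO * ((t / 2) ^ (1 - a) / t) * (bb ξ * g ξ)) := by gcongr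
    _ = 2 * CO * ((t * δ) ^ a * ((t / 2) ^ (1 - a) / t)) * (bb ξ * g ξ) := by ring
    _ ≤ 2 * CO * (4 * δ ^ 2) * (bb ξ * g ξ) := by
        have := ccm_num ha ha3 ht hδ (by linarith)
        gcongr
    _ = 8 * CO * δ ^ 2 * (bb ξ * g ξ) := by ring

/-- the step -/
lemma ccm_step {a C CO t δ β b' : ℝ} {X Zs : Finset G} {bb g g' u Y : G → ℝ}
    (ha : 2 < a) (ha3 : a ≤ 3) (hC : 1 ≤ C) (hCO : 1 ≤ CO) (ht : 0 < t) (hδ : 0 < δ)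
    (hδ1 : 100 * (C * CO) * δ ≤ 1) (hb2 : β ≤ 2) (hb1 : 1 ≤ b')
    (hbb' : β + 8 * (C * CO) * δ ^ 2 ≤ b')
    (hY : Bd a (C * (t * δ)) (t * δ) Y) (hY0 : Y 0 = 1)
    (sub : Zs ⊆ X) (iso : ∀ ζ ∈ Zs, ∀ η ∈ X, ‖η - ζ‖ < t → ‖η - ζ‖ < t * δ ^ 2)
    (sep : ∀ ζ ∈ Zs, ∀ ζ' ∈ Zs, ζ ≠ ζ' → t ≤ ‖ζ - ζ'‖)
    (h1 : ∀ ξ ∈ X, ∀ x, ‖x - ξ‖ ≤ t → |u x| ≤ β * (bb ξ * g ξ))
    (h2 : ∀ ξ ∈ X, ∀ x y, ‖x - ξ‖ ≤ t → ‖y - ξ‖ ≤ t → |u x - u y| ≤ bb ξ * g ξ * (‖x - y‖ / t))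
    (off : ∀ ξ ∈ X, ∀ x, ‖x - ξ‖ ≤ t → ∑ ζ ∈ Zs.filter (fun ζ => t / 2 ≤ ‖x - ζ‖), bb ζ * g ζ * ‖x - ζ‖ ^ (-a)
      ≤ CO * ((t / 2) ^ (1 - a) / t) * (bb ξ * g ξ))
    (hbb : ∀ x, 0 ≤ bb x) (hg : ∀ x, 0 < g x)
    (hg' : ∀ ξ, g' ξ = if (∃ ζ ∈ Zs, ‖ξ - ζ‖ < t * δ ^ 2) then g ξ / 2 else g ξ) :
    (∀ ξ ∈ X, ∀ x, ‖x - ξ‖ ≤ t * δ ^ 2 → |u x - ∑ ζ ∈ Zs, u ζ * Y (x - ζ)| ≤ b' * (bb ξ * g' ξ)) ∧
    (∀ ξ ∈ X, ∀ x y, ‖x - ξ‖ ≤ t * δ ^ 2 → ‖y - ξ‖ ≤ t * δ ^ 2 →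
      |(u x - ∑ ζ ∈ Zs, u ζ * Y (x - ζ)) - (u y - ∑ ζ ∈ Zs, u ζ * Y (y - ζ))|
        ≤ bb ξ * g' ξ * (‖x - y‖ / (t * δ ^ 2))) := by
  have hCC : 1 ≤ C * CO := by nlinarith
  have hδ2 : δ ≤ 1 / 100 := by nlinarith
  have hδ3 : C * CO * δ ≤ 1 / 100 := by linarith
  have hδC : C * δ ≤ 1 / 100 := by nlinarith
  have hz : 0 < t * δ := by positivity
  have hd2 : δ ^ 2 ≤ 1 / 10000 := by nlinarith
  have hCOd : C * CO * δ ^ 2 ≤ 1 / 10000 := by nlinarith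
  have htd : t * δ ^ 2 ≤ t / 4 := by nlinarith
  -- bounds for the off-diagonal part
  have offA : ∀ ξ ∈ X, ∀ x, ‖x - ξ‖ ≤ t * δ ^ 2 →
      |∑ ζ ∈ Zs.filter (fun ζ => ¬ ‖ξ - ζ‖ < t * δ ^ 2), u ζ * Y (x - ζ)| ≤
        8 * (C * CO) * δ ^ 2 * (bb ξ * g ξ) := by
    intro ξ hξ x hx
    obtain ⟨hfar, hS⟩ := ccm_off ha ha3 hCO ht hδ hδ2 hb2 sub iso h1 off hbb hg ξ hξ x hx
    calc _ ≤ ∑ ζ ∈ Zs.filter (fun ζ => ¬ ‖ξ - ζ‖ < t * δ ^ 2), |u ζ * Y (x - ζ)| :=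
          Finset.abs_sum_le_sum_abs _ _
      _ ≤ ∑ ζ ∈ Zs.filter (fun ζ => ¬ ‖ξ - ζ‖ < t * δ ^ 2),
            C * (|u ζ| * ((t * δ) ^ a * ‖x - ζ‖ ^ (-a))) := by
          apply Finset.sum_le_sum
          intro ζ hζ
          have h3 := hfar ζ hζ
          have h4 := ccm_Y1 hY hz (by linarith) (by linarith) (x - ζ) (by linarith)
          rw [abs_mul]
          calc |u ζ| * |Y (x - ζ)| ≤ |u ζ| * (C * ((t * δ) ^ a * ‖x - ζ‖ ^ (-a))) := by gcongr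
            _ = _ := by ring
      _ = C * ∑ ζ ∈ Zs.filter (fun ζ => ¬ ‖ξ - ζ‖ < t * δ ^ 2),
            |u ζ| * ((t * δ) ^ a * ‖x - ζ‖ ^ (-a)) := by rw [Finset.mul_sum]
      _ ≤ C * (8 * CO * δ ^ 2 * (bb ξ * g ξ)) := by gcongr
      _ = _ := by ring
  have offB : ∀ ξ ∈ X, ∀ x y, ‖x - ξ‖ ≤ t * δ ^ 2 → ‖y - ξ‖ ≤ t * δ ^ 2 →
      |∑ ζ ∈ Zs.filter (fun ζ => ¬ ‖ξ - ζ‖ < t * δ ^ 2), u ζ * (Y (x - ζ) - Y (y - ζ))| ≤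
        (‖x - y‖ / (t * δ)) * (16 * (C * CO) * δ ^ 2 * (bb ξ * g ξ)) := by
    intro ξ hξ x y hx hy
    obtain ⟨hfar, hS⟩ := ccm_off ha ha3 hCO ht hδ hδ2 hb2 sub iso h1 off hbb hg ξ hξ x hx
    obtain ⟨hfar', hS'⟩ := ccm_off ha ha3 hCO ht hδ hδ2 hb2 sub iso h1 off hbb hg ξ hξ y hy
    have hq : 0 ≤ ‖x - y‖ / (t * δ) := by positivity
    calc _ ≤ ∑ ζ ∈ Zs.filter (fun ζ => ¬ ‖ξ - ζ‖ < t * δ ^ 2), |u ζ * (Y (x - ζ) - Y (y - ζ))| :=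
          Finset.abs_sum_le_sum_abs _ _
      _ ≤ ∑ ζ ∈ Zs.filter (fun ζ => ¬ ‖ξ - ζ‖ < t * δ ^ 2),
            C * (‖x - y‖ / (t * δ)) * (|u ζ| * ((t * δ) ^ a * ‖x - ζ‖ ^ (-a)) +
              |u ζ| * ((t * δ) ^ a * ‖y - ζ‖ ^ (-a))) := by
          apply Finset.sum_le_sum
          intro ζ hζ
          have h3 := hfar ζ hζ
          have h3' := hfar' ζ hζ
          have h4 := ccm_Y3 hY hz (by linarith) (by linarith) (x - ζ) (y - ζ) (by linarith) (by linarith)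
          rw [show x - ζ - (y - ζ) = x - y by abel] at h4
          rw [abs_mul]
          calc |u ζ| * |Y (x - ζ) - Y (y - ζ)| ≤ |u ζ| * (C * (‖x - y‖ / (t * δ)) *
                ((t * δ) ^ a * ‖x - ζ‖ ^ (-a) + (t * δ) ^ a * ‖y - ζ‖ ^ (-a))) := by gcongr
            _ = _ := by ring
      _ = C * (‖x - y‖ / (t * δ)) * (∑ ζ ∈ Zs.filter (fun ζ => ¬ ‖ξ - ζ‖ < t * δ ^ 2),
            |u ζ| * ((t * δ) ^ a * ‖x - ζ‖ ^ (-a)) + ∑ ζ ∈ Zs.filter (fun ζ => ¬ ‖ξ - ζ‖ < t * δ ^ 2),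
            |u ζ| * ((t * δ) ^ a * ‖y - ζ‖ ^ (-a))) := by rw [← Finset.mul_sum, Finset.sum_add_distrib]
      _ ≤ C * (‖x - y‖ / (t * δ)) * (8 * CO * δ ^ 2 * (bb ξ * g ξ) + 8 * CO * δ ^ 2 * (bb ξ * g ξ)) := by
          gcongr
      _ = _ := by ring
  have hsplit : ∀ ξ x, ∑ ζ ∈ Zs, u ζ * Y (x - ζ) = ∑ ζ ∈ Zs.filter (fun ζ => ‖ξ - ζ‖ < t * δ ^ 2), u ζ * Y (x - ζ) +
      ∑ ζ ∈ Zs.filter (fun ζ => ¬ ‖ξ - ζ‖ < t * δ ^ 2), u ζ * Y (x - ζ) := by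
    intro ξ x
    rw [Finset.sum_filter_add_sum_filter_not]
  have hone : ∀ ξ : G, ∀ ζ₀ ∈ Zs, ‖ξ - ζ₀‖ < t * δ ^ 2 → Zs.filter (fun ζ => ‖ξ - ζ‖ < t * δ ^ 2) = {ζ₀} := by
    intro ξ ζ₀ hζ₀ hd
    ext ζ
    rw [Finset.mem_filter, Finset.mem_singleton]
    constructor
    · rintro ⟨h3, h4⟩
      by_contra hne
      have h5 := sep ζ h3 ζ₀ hζ₀ hne
      have h6 : ‖ζ - ζ₀‖ ≤ ‖ξ - ζ₀‖ + ‖ξ - ζ‖ := by
        rw [show ζ - ζ₀ = (ξ - ζ₀) - (ξ - ζ) by abel]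
        exact norm_sub_le _ _
      linarith
    · rintro rfl
      exact ⟨hζ₀, hd⟩
  have hnone : ∀ ξ : G, (¬ ∃ ζ ∈ Zs, ‖ξ - ζ‖ < t * δ ^ 2) → Zs.filter (fun ζ => ‖ξ - ζ‖ < t * δ ^ 2) = ∅ := by
    intro ξ hno
    rw [Finset.filter_eq_empty_iff]
    intro ζ hζ hd
    exact hno ⟨ζ, hζ, hd⟩
  constructor
  · intro ξ hξ x hx
    have hw : 0 ≤ bb ξ * g ξ := mul_nonneg (hbb ξ) (hg ξ).le
    have hA := offA ξ hξ x hx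
    rw [hsplit ξ x, hg' ξ]
    set R := ∑ ζ ∈ Zs.filter (fun ζ => ¬ ‖ξ - ζ‖ < t * δ ^ 2), u ζ * Y (x - ζ) with hR
    by_cases hex : ∃ ζ ∈ Zs, ‖ξ - ζ‖ < t * δ ^ 2
    · rw [if_pos hex]
      obtain ⟨ζ₀, hζ₀, hd⟩ := hex
      rw [hone ξ ζ₀ hζ₀ hd, Finset.sum_singleton]
      have h3 : ‖x - ζ₀‖ ≤ 2 * (t * δ ^ 2) := by
        rw [show x - ζ₀ = (x - ξ) + (ξ - ζ₀) by abel]
        exact (norm_add_le _ _).trans (by linarith)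
      have h4 : ‖ζ₀ - ξ‖ ≤ t := by rw [norm_sub_rev]; linarith
      have h5 := h2 ξ hξ x ζ₀ (by linarith) h4
      have h6 := h1 ξ hξ ζ₀ h4
      have h7 := ccm_Y2 hY hz (by linarith) (by linarith) 0 (x - ζ₀)
      rw [hY0, show (0 : G) - (x - ζ₀) = -(x - ζ₀) by abel, norm_neg] at h7
      have h8 : ‖x - ζ₀‖ / (t * δ) ≤ 2 * δ := by
        rw [div_le_iff₀ hz]
        calc ‖x - ζ₀‖ ≤ 2 * (t * δ ^ 2) := h3
          _ = 2 * δ * (t * δ) := by ring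
      have h9 : ‖x - ζ₀‖ / t ≤ 2 * δ ^ 2 := by
        rw [div_le_iff₀ ht]
        calc ‖x - ζ₀‖ ≤ 2 * (t * δ ^ 2) := h3
          _ = 2 * δ ^ 2 * t := by ring
      have h10 : |1 - Y (x - ζ₀)| ≤ 4 * (C * δ) := by
        refine h7.trans ?_
        calc 2 * C * (‖x - ζ₀‖ / (t * δ)) ≤ 2 * C * (2 * δ) := by gcongr
          _ = _ := by ring
      have h11 : |u x - u ζ₀| ≤ (bb ξ * g ξ) * (2 * δ ^ 2) := h5.trans (by gcongr)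
      have h12 : |u ζ₀ * (1 - Y (x - ζ₀))| ≤ (2 * (bb ξ * g ξ)) * (4 * (C * δ)) := by
        rw [abs_mul]
        have : |u ζ₀| ≤ 2 * (bb ξ * g ξ) := h6.trans (by gcongr)
        gcongr
      have h13 : u x - (u ζ₀ * Y (x - ζ₀) + R) = (u x - u ζ₀) + u ζ₀ * (1 - Y (x - ζ₀)) - R := by ring
      rw [h13]
      have h14 : |(u x - u ζ₀) + u ζ₀ * (1 - Y (x - ζ₀)) - R| ≤ |u x - u ζ₀| + |u ζ₀ * (1 - Y (x - ζ₀))| + |R| :=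
        (abs_sub _ _).trans (add_le_add (abs_add_le _ _) le_rfl)
      have h15 : (bb ξ * g ξ) * (2 * δ ^ 2) + (2 * (bb ξ * g ξ)) * (4 * (C * δ)) + 8 * (C * CO) * δ ^ 2 * (bb ξ * g ξ)
          ≤ (1 / 2) * (bb ξ * g ξ) := by
        have : (bb ξ * g ξ) * (2 * δ ^ 2) + (2 * (bb ξ * g ξ)) * (4 * (C * δ)) + 8 * (C * CO) * δ ^ 2 * (bb ξ * g ξ)
          = (2 * δ ^ 2 + 8 * (C * δ) + 8 * (C * CO * δ ^ 2)) * (bb ξ * g ξ) := by ring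
        rw [this]
        apply mul_le_mul_of_nonneg_right _ hw
        linarith
      have h16 : (1 / 2) * (bb ξ * g ξ) ≤ b' * (bb ξ * (g ξ / 2)) := by
        have : b' * (bb ξ * (g ξ / 2)) = b' * ((1 / 2) * (bb ξ * g ξ)) := by ring
        rw [this]
        nlinarith
      linarith
    · rw [if_neg hex, hnone ξ hex, Finset.sum_empty, zero_add]
      have h3 := h1 ξ hξ x (by linarith)
      have h4 : |u x - R| ≤ |u x| + |R| := abs_sub _ _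
      have h5 : (β + 8 * (C * CO) * δ ^ 2) * (bb ξ * g ξ) ≤ b' * (bb ξ * g ξ) :=
        mul_le_mul_of_nonneg_right hbb' hw
      linarith
  · intro ξ hξ x y hx hy
    have hw : 0 ≤ bb ξ * g ξ := mul_nonneg (hbb ξ) (hg ξ).le
    have hB := offB ξ hξ x y hx hy
    have h5 := h2 ξ hξ x y (by linarith) (by linarith)
    have hδne : δ ≠ 0 := hδ.ne'
    have htne : t ≠ 0 := ht.ne'
    set q := ‖x - y‖ / (t * δ ^ 2) with hq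
    have hq0 : 0 ≤ q := by positivity
    have e1 : ‖x - y‖ / t = q * δ ^ 2 := by rw [hq]; field_simp
    have e2 : ‖x - y‖ / (t * δ) = q * δ := by rw [hq]; field_simp
    rw [e1] at h5
    rw [e2] at hB
    rw [hsplit ξ x, hsplit ξ y, hg' ξ]
    set R := ∑ ζ ∈ Zs.filter (fun ζ => ¬ ‖ξ - ζ‖ < t * δ ^ 2), u ζ * Y (x - ζ) with hR
    set R' := ∑ ζ ∈ Zs.filter (fun ζ => ¬ ‖ξ - ζ‖ < t * δ ^ 2), u ζ * Y (y - ζ) with hR'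
    have hRR : ∑ ζ ∈ Zs.filter (fun ζ => ¬ ‖ξ - ζ‖ < t * δ ^ 2), u ζ * (Y (x - ζ) - Y (y - ζ)) = R - R' := by
      rw [hR, hR', ← Finset.sum_sub_distrib]
      apply Finset.sum_congr rfl
      intro ζ _
      ring
    rw [hRR] at hB
    have hwq : 0 ≤ bb ξ * g ξ * q := by positivity
    have hBB : |R - R'| ≤ 16 * (C * CO * δ ^ 2) * δ * (bb ξ * g ξ * q) := hB.trans (le_of_eq (by ring))
    have h55 : |u x - u y| ≤ δ ^ 2 * (bb ξ * g ξ * q) := h5.trans (le_of_eq (by ring))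
    by_cases hex : ∃ ζ ∈ Zs, ‖ξ - ζ‖ < t * δ ^ 2
    · rw [if_pos hex]
      obtain ⟨ζ₀, hζ₀, hd⟩ := hex
      rw [hone ξ ζ₀ hζ₀ hd, Finset.sum_singleton, Finset.sum_singleton]
      have h4 : ‖ζ₀ - ξ‖ ≤ t := by rw [norm_sub_rev]; linarith
      have h6 := h1 ξ hξ ζ₀ h4
      have h7 := ccm_Y2 hY hz (by linarith) (by linarith) (x - ζ₀) (y - ζ₀)
      rw [show x - ζ₀ - (y - ζ₀) = x - y by abel, e2] at h7
      have h12 : |u ζ₀ * (Y (x - ζ₀) - Y (y - ζ₀))| ≤ (2 * (bb ξ * g ξ)) * (2 * C * (q * δ)) := by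
        rw [abs_mul]
        have : |u ζ₀| ≤ 2 * (bb ξ * g ξ) := h6.trans (by gcongr)
        gcongr
      have h12' : |u ζ₀ * (Y (x - ζ₀) - Y (y - ζ₀))| ≤ 4 * (C * δ) * (bb ξ * g ξ * q) :=
        h12.trans (le_of_eq (by ring))
      have h13 : u x - (u ζ₀ * Y (x - ζ₀) + R) - (u y - (u ζ₀ * Y (y - ζ₀) + R')) =
          (u x - u y) - u ζ₀ * (Y (x - ζ₀) - Y (y - ζ₀)) - (R - R') := by ring
      rw [h13]
      have h14 : |(u x - u y) - u ζ₀ * (Y (x - ζ₀) - Y (y - ζ₀)) - (R - R')| ≤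
          |u x - u y| + |u ζ₀ * (Y (x - ζ₀) - Y (y - ζ₀))| + |R - R'| :=
        (abs_sub _ _).trans (add_le_add (abs_sub _ _) le_rfl)
      have h15 : δ ^ 2 * (bb ξ * g ξ * q) + 4 * (C * δ) * (bb ξ * g ξ * q) +
          16 * (C * CO * δ ^ 2) * δ * (bb ξ * g ξ * q) ≤ (1 / 2) * (bb ξ * g ξ * q) := by
        have : δ ^ 2 * (bb ξ * g ξ * q) + 4 * (C * δ) * (bb ξ * g ξ * q) +
          16 * (C * CO * δ ^ 2) * δ * (bb ξ * g ξ * q) =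
          (δ ^ 2 + 4 * (C * δ) + 16 * (C * CO * δ ^ 2) * δ) * (bb ξ * g ξ * q) := by ring
        rw [this]
        apply mul_le_mul_of_nonneg_right _ hwq
        have h16 : C * CO * δ ^ 2 * δ ≤ 1 / 10000 := by nlinarith [mul_nonneg (mul_nonneg (by linarith : (0:ℝ) ≤ C) (by linarith : (0:ℝ) ≤ CO)) (sq_nonneg δ)]
        linarith
      have h17 : bb ξ * (g ξ / 2) * q = (1 / 2) * (bb ξ * g ξ * q) := by ring
      rw [h17]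
      linarith
    · rw [if_neg hex, hnone ξ hex, Finset.sum_empty, Finset.sum_empty, zero_add, zero_add]
      have h13 : u x - R - (u y - R') = (u x - u y) - (R - R') := by ring
      rw [h13]
      have h14 : |(u x - u y) - (R - R')| ≤ |u x - u y| + |R - R'| := abs_sub _ _
      have h15 : δ ^ 2 * (bb ξ * g ξ * q) + 16 * (C * CO * δ ^ 2) * δ * (bb ξ * g ξ * q) ≤ bb ξ * g ξ * q := by
        have : δ ^ 2 * (bb ξ * g ξ * q) + 16 * (C * CO * δ ^ 2) * δ * (bb ξ * g ξ * q) =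
          (δ ^ 2 + 16 * (C * CO * δ ^ 2) * δ) * (bb ξ * g ξ * q) := by ring
        rw [this]
        have h16 : C * CO * δ ^ 2 * δ ≤ 1 / 10000 := by nlinarith [mul_nonneg (mul_nonneg (by linarith : (0:ℝ) ≤ C) (by linarith : (0:ℝ) ≤ CO)) (sq_nonneg δ)]
        have h17 : δ ^ 2 + 16 * (C * CO * δ ^ 2) * δ ≤ 1 := by linarith
        calc (δ ^ 2 + 16 * (C * CO * δ ^ 2) * δ) * (bb ξ * g ξ * q) ≤ 1 * (bb ξ * g ξ * q) :=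
              mul_le_mul_of_nonneg_right h17 hwq
          _ = _ := one_mul _
      linarith

theorem t_CCM (hO : S_OFF) (hG : S_GGC) (hS : S_SEP) (hC : S_COL) : S_CCM := by
  intro r a C z₀ F M K Y hK CH hCH
  obtain ⟨CO, hCO, hoff⟩ := hO a CH hK.ha hK.ha3 hCH
  have hC1 : 1 ≤ C := hK.hC
  have hCC : 1 ≤ C * CO := by nlinarith
  obtain ⟨β₁, hβ₁⟩ := exists_pow_lt_of_lt_one (show (0:ℝ) < 1 / (100 * (C * CO)) by positivity)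
    (show (1 / 2 : ℝ) < 1 by norm_num)
  refine ⟨β₁ + 3, by omega, ?_⟩
  intro β₀ hβ₀ b j₀ X Z bb U B hb hZ hH
  have hβ3 : 3 ≤ β₀ := by omega
  have hβp : (1 / 2 : ℝ) ^ β₀ ≤ 1 / (100 * (C * CO)) :=
    (pow_le_pow_of_le_one (by norm_num) (by norm_num) (by omega : β₁ ≤ β₀)).trans hβ₁.le
  have hβq : 100 * (C * CO) * (1 / 2 : ℝ) ^ β₀ ≤ 1 := by
    rw [le_div_iff₀ (by positivity)] at hβp
    linarith
  obtain ⟨off1, -⟩ := hoff β₀ hβ3 b j₀ X Z bb U B hZ hH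
  have main : ∀ k : ℕ,
      (∀ ξ ∈ X, ∀ x, ‖x - ξ‖ ≤ ta β₀ b (j₀ + k) →
        |us Y β₀ b j₀ Z U k x| ≤ (2 - 1 / ((k : ℝ) + 1)) * (bb ξ * gg β₀ b j₀ Z k ξ)) ∧
      (∀ ξ ∈ X, ∀ x y, ‖x - ξ‖ ≤ ta β₀ b (j₀ + k) → ‖y - ξ‖ ≤ ta β₀ b (j₀ + k) →
        |us Y β₀ b j₀ Z U k x - us Y β₀ b j₀ Z U k y| ≤
          bb ξ * gg β₀ b j₀ Z k ξ * (‖x - y‖ / ta β₀ b (j₀ + k))) := by
    intro k
    induction k with
    | zero =>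
      constructor
      · intro ξ hξ x hx
        have h1 := hH.bd ξ hξ x hx
        simp only [us, gg, Finset.range_zero, Finset.filter_empty, Finset.card_empty, pow_zero, mul_one]
        norm_num
        exact h1
      · intro ξ hξ x y hx hy
        have h1 := hH.lip ξ hξ x y hx hy
        simp only [us, gg, Finset.range_zero, Finset.filter_empty, Finset.card_empty, pow_zero, mul_one]
        exact h1
    | succ k ih =>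
      obtain ⟨ih1, ih2⟩ := ih
      have ht : 0 < ta β₀ b (j₀ + k) := ccm_ta_pos _ _ _
      have hδ : 0 < ccm_de β₀ (j₀ + k) := ccm_de_pos _ _
      have hz1 : 0 < ta β₀ b (j₀ + k) * ccm_de β₀ (j₀ + k) := by positivity
      have hz2 : ta β₀ b (j₀ + k) * ccm_de β₀ (j₀ + k) ≤ z₀ := by
        rw [← ccm_zz_eq]
        refine le_trans ?_ hb
        unfold zz
        exact pow_le_pow_of_le_one (by norm_num) (by norm_num) (by omega)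
      have hd1 : 100 * (C * CO) * ccm_de β₀ (j₀ + k) ≤ 1 := by
        have := ccm_de_le β₀ (j₀ + k)
        calc 100 * (C * CO) * ccm_de β₀ (j₀ + k) ≤ 100 * (C * CO) * (1 / 2) ^ β₀ := by gcongr
          _ ≤ 1 := hβq
      have hk0 : (0:ℝ) ≤ k := Nat.cast_nonneg k
      have hd2 := ccm_de_le' β₀ (j₀ + k) k (by omega)
      have hbk : (2 - 1 / ((k : ℝ) + 1)) + 8 * (C * CO) * ccm_de β₀ (j₀ + k) ^ 2 ≤ 2 - 1 / (((k + 1 : ℕ) : ℝ) + 1) := by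
        push_cast
        have h1 : 1 / ((k : ℝ) + 1) - 1 / ((k : ℝ) + 1 + 1) = 1 / (((k : ℝ) + 1) * ((k : ℝ) + 2)) := by
          field_simp
          ring
        have h2 : 8 * (C * CO) * ccm_de β₀ (j₀ + k) ^ 2 ≤ 1 / (((k : ℝ) + 1) * ((k : ℝ) + 2)) := by
          rw [le_div_iff₀ (by positivity)]
          have hp0 : (0:ℝ) ≤ (1 / 2) ^ β₀ := by positivity
          have hp1 : (1 / 2 : ℝ) ^ β₀ ≤ 1 / 100 := by nlinarith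
          calc 8 * (C * CO) * ccm_de β₀ (j₀ + k) ^ 2 * (((k : ℝ) + 1) * ((k : ℝ) + 2))
              ≤ 8 * (C * CO) * ccm_de β₀ (j₀ + k) ^ 2 * (((k : ℝ) + 2) * ((k : ℝ) + 2)) := by
                gcongr
                linarith
            _ = 8 * (C * CO) * (ccm_de β₀ (j₀ + k) * ((k : ℝ) + 2)) ^ 2 := by ring
            _ ≤ 8 * (C * CO) * (2 * (1 / 2) ^ β₀) ^ 2 := by gcongr
            _ = (32 / 100) * (1 / 2) ^ β₀ * (100 * (C * CO) * (1 / 2) ^ β₀) := by ring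
            _ ≤ (32 / 100) * (1 / 2) ^ β₀ * 1 := by gcongr
            _ ≤ 1 := by linarith
        linarith
      have hoff' : ∀ ξ ∈ X, ∀ x, ‖x - ξ‖ ≤ ta β₀ b (j₀ + k) →
          ∑ ζ ∈ (Z (j₀ + k)).filter (fun ζ => ta β₀ b (j₀ + k) / 2 ≤ ‖x - ζ‖),
            bb ζ * gg β₀ b j₀ Z k ζ * ‖x - ζ‖ ^ (-a)
          ≤ CO * ((ta β₀ b (j₀ + k) / 2) ^ (1 - a) / ta β₀ b (j₀ + k)) * (bb ξ * gg β₀ b j₀ Z k ξ) := by
        intro ξ hξ x hx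
        exact off1 k k le_rfl ξ hξ x hx _ le_rfl (by linarith)
      have hstep := ccm_step (g' := gg β₀ b j₀ Z (k + 1)) hK.ha hK.ha3 hC1 hCO ht hδ hd1
        (β := 2 - 1 / ((k : ℝ) + 1)) (b' := 2 - 1 / (((k + 1 : ℕ) : ℝ) + 1))
        (by have : (0:ℝ) ≤ 1 / ((k : ℝ) + 1) := by positivity
            linarith)
        (by push_cast
            have : 1 / ((k : ℝ) + 1 + 1) ≤ 1 := by
              rw [div_le_one (by positivity)]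
              linarith
            linarith)
        hbk (hK.Yb _ hz1 hz2) (hK.Y0 _ hz1 hz2) (hZ (j₀ + k)).sub
        (fun ζ hζ η hη h => by
          have := (hZ (j₀ + k)).iso ζ hζ η hη h
          rwa [ccm_ta_succ] at this)
        (hZ (j₀ + k)).sep ih1 ih2 hoff' hH.bb0 (fun x => ccm_gg_pos _ _ _ _ _ _)
        (fun ξ => by
          rw [ccm_gg_succ, ccm_ta_succ])
      obtain ⟨s1, s2⟩ := hstep
      have hts : ta β₀ b (j₀ + (k + 1)) = ta β₀ b (j₀ + k) * ccm_de β₀ (j₀ + k) ^ 2 := by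
        rw [← add_assoc, ccm_ta_succ]
      constructor
      · intro ξ hξ x hx
        rw [hts] at hx
        have := s1 ξ hξ x hx
        rw [← ccm_zz_eq] at this
        exact this
      · intro ξ hξ x y hx hy
        rw [hts] at hx hy ⊢
        have := s2 ξ hξ x y hx hy
        rw [← ccm_zz_eq] at this
        exact this
  intro k ξ hξ x hx
  have h1 := (main k).1 ξ hξ x hx
  refine h1.trans ?_
  have h2 : 0 ≤ bb ξ * gg β₀ b j₀ Z k ξ := mul_nonneg (hH.bb0 ξ) (ccm_gg_pos _ _ _ _ _ _).le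
  have h3 : (2 - 1 / ((k : ℝ) + 1)) ≤ 2 := by
    have : (0:ℝ) ≤ 1 / ((k : ℝ) + 1) := by positivity
    linarith
  calc (2 - 1 / ((k : ℝ) + 1)) * (bb ξ * gg β₀ b j₀ Z k ξ) ≤ 2 * (bb ξ * gg β₀ b j₀ Z k ξ) := by gcongr
    _ = _ := by ring

end

end Pool.Agent.H729R2.FO
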