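import Mathlib
import Pool.Agent.H729R2.FO.Stubs
import Pool.Agent.H729R2.FO.Stubs2

set_option autoImplicit false

namespace Pool.Agent.H729R2.FO

open MeasureTheory Pool.Agent.H729R2.CB Pool.Agent.Helper150.Cub

open scoped Classical

theorem ccn_zz_pos (β₀ b j : ℕ) : 0 < zz β₀ b j := by
  unfold zz
  positivity

theorem ccn_zz_le (β₀ b j : ℕ) : zz β₀ b j ≤ (1 / 2) ^ b := by
  unfold zz
  exact pow_le_pow_of_le_one (by norm_num) (by norm_num) (by omega)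

theorem ccn_zz_ta (β₀ b j : ℕ) (h : 2 ≤ β₀) : 2 * zz β₀ b j ≤ ta β₀ b j := by
  have h1 : ∃ p, β₀ + Nat.log 2 (j + 2) = p + 1 :=
    ⟨β₀ + Nat.log 2 (j + 2) - 1, by omega⟩
  obtain ⟨p, hp⟩ := h1
  have h2 : ta β₀ b j = (1 / 2) ^ (b + TT β₀ j) := rfl
  have h3 : zz β₀ b j = (1 / 2) ^ (b + TT β₀ j) * ((1 / 2) ^ p * (1 / 2)) := by
    unfold zz
    rw [hp, pow_add, pow_succ]
  rw [h2, h3]
  have h4 : ((1 : ℝ) / 2) ^ p ≤ 1 := pow_le_one₀ (by norm_num) (by norm_num)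
  have h5 : (0 : ℝ) < (1 / 2) ^ (b + TT β₀ j) := by positivity
  nlinarith

theorem ccn_ta_zz (β₀ b j : ℕ) (h : 2 ≤ β₀) : ta β₀ b (j + 1) ≤ zz β₀ b j / 2 := by
  have h1 : ∃ p, β₀ + Nat.log 2 (j + 2) = p + 1 :=
    ⟨β₀ + Nat.log 2 (j + 2) - 1, by omega⟩
  obtain ⟨p, hp⟩ := h1
  have h2 : TT β₀ (j + 1) = TT β₀ j + 2 * (β₀ + Nat.log 2 (j + 2)) := by
    unfold TT
    rw [Finset.sum_range_succ]
    rfl
  have h3 : ta β₀ b (j + 1) = zz β₀ b j * ((1 / 2) ^ p * (1 / 2)) := by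
    unfold ta zz
    rw [h2, hp, ← pow_succ, ← pow_add]
    congr 1
    omega
  rw [h3]
  have h4 : ((1 : ℝ) / 2) ^ p ≤ 1 := pow_le_one₀ (by norm_num) (by norm_num)
  have h5 := ccn_zz_pos β₀ b j
  nlinarith

theorem ccn_succ (Y : ℝ → G → ℝ) (β₀ b j₀ : ℕ) (Z : ℕ → Finset G) (U : G → ℝ) (k : ℕ) (x : G) :
    us Y β₀ b j₀ Z U (k + 1) x = us Y β₀ b j₀ Z U k x -
      ∑ ζ ∈ Z (j₀ + k), us Y β₀ b j₀ Z U k ζ * Y (zz β₀ b (j₀ + k)) (x - ζ) := rfl

theorem ccn_exp (Y : ℝ → G → ℝ) (β₀ b j₀ : ℕ) (Z : ℕ → Finset G) (U : G → ℝ) (k : ℕ) (x : G) :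
    us Y β₀ b j₀ Z U k x = U x - ∑ i ∈ Finset.range k, ∑ ζ ∈ Z (j₀ + i),
      us Y β₀ b j₀ Z U i ζ * Y (zz β₀ b (j₀ + i)) (x - ζ) := by
  induction k with
  | zero => simp [us]
  | succ k ih =>
    rw [ccn_succ, Finset.sum_range_succ, ih]
    ring

theorem ccn_shift (F Yz : G → ℝ) (ζ ξ : G) :
    Fc F (fun x => Yz (x - ζ)) ξ = Fc F Yz (ξ - ζ) := by
  unfold Fc
  have h := integral_sub_right_eq_self (μ := hm) (fun t => Yz t * F (ξ - ζ - t)) ζ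
  rw [← h]
  refine integral_congr_ae (Filter.Eventually.of_forall fun t => ?_)
  show Yz (t - ζ) * F (ξ - t) = Yz (t - ζ) * F (ξ - ζ - (t - ζ))
  congr 2
  abel

theorem ccn_int {f : G → ℝ} (hf : Continuous f) : Integrable f hm :=
  hf.integrable_of_hasCompactSupport (HasCompactSupport.of_compactSpace f)

theorem t_CCN : S_CCN := by
  intro r a C z₀ F M K Y hK β₀ b j₀ X Z U hβ hb hR hU
  have hYc : ∀ j, Continuous (Y (zz β₀ b j)) := fun j =>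
    (hK.Yb _ (ccn_zz_pos β₀ b j) ((ccn_zz_le β₀ b j).trans hb)).cont
  refine ⟨?_, ccn_exp Y β₀ b j₀ Z U, ?_⟩
  · intro k
    induction k with
    | zero => exact hU
    | succ k ih =>
      have h1 : us Y β₀ b j₀ Z U (k + 1) = fun x => us Y β₀ b j₀ Z U k x -
        ∑ ζ ∈ Z (j₀ + k), us Y β₀ b j₀ Z U k ζ * Y (zz β₀ b (j₀ + k)) (x - ζ) := rfl
      rw [h1]
      refine ih.sub (continuous_finset_sum _ fun ζ _ => ?_)
      exact continuous_const.mul ((hYc _).comp (continuous_id.sub continuous_const))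
  · intro k ξ hξ
    have h1 : (fun x => us Y β₀ b j₀ Z U k x - U x) = fun x =>
        -∑ i ∈ Finset.range k, ∑ ζ ∈ Z (j₀ + i),
          us Y β₀ b j₀ Z U i ζ * Y (zz β₀ b (j₀ + i)) (x - ζ) := by
      funext x
      rw [ccn_exp Y β₀ b j₀ Z U k x]
      ring
    have hcF : Continuous fun t => F (ξ - t) := hK.Fcont.comp (continuous_const.sub continuous_id)
    have hci : ∀ i, ∀ ζ ∈ Z (j₀ + i), Integrable (fun t =>
        us Y β₀ b j₀ Z U i ζ * (Y (zz β₀ b (j₀ + i)) (t - ζ) * F (ξ - t))) hm := by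
      intro i ζ _
      apply ccn_int
      exact continuous_const.mul (((hYc _).comp (continuous_id.sub continuous_const)).mul hcF)
    have h2 : ∀ t, (us Y β₀ b j₀ Z U k t - U t) * F (ξ - t) =
        -∑ i ∈ Finset.range k, ∑ ζ ∈ Z (j₀ + i),
          us Y β₀ b j₀ Z U i ζ * (Y (zz β₀ b (j₀ + i)) (t - ζ) * F (ξ - t)) := by
      intro t
      have h5 : us Y β₀ b j₀ Z U k t - U t = -∑ i ∈ Finset.range k, ∑ ζ ∈ Z (j₀ + i),
          us Y β₀ b j₀ Z U i ζ * Y (zz β₀ b (j₀ + i)) (t - ζ) := congrFun h1 t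
      rw [h5, neg_mul, Finset.sum_mul]
      congr 1
      refine Finset.sum_congr rfl fun i _ => ?_
      rw [Finset.sum_mul]
      refine Finset.sum_congr rfl fun ζ _ => ?_
      ring
    unfold Fc
    simp only [h2]
    rw [integral_neg, integral_finset_sum _ (fun i _ => integrable_finset_sum _ (hci i))]
    rw [neg_eq_zero]
    apply Finset.sum_eq_zero
    intro i _
    rw [integral_finset_sum _ (hci i)]
    apply Finset.sum_eq_zero
    intro ζ hζ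
    rw [integral_const_mul]
    have h3 : ∫ t, Y (zz β₀ b (j₀ + i)) (t - ζ) * F (ξ - t) ∂hm =
        Fc F (Y (zz β₀ b (j₀ + i))) (ξ - ζ) := ccn_shift F (Y (zz β₀ b (j₀ + i))) ζ ξ
    rw [h3, hK.Ys _ (ccn_zz_pos β₀ b _) ((ccn_zz_le β₀ b _).trans hb), mul_zero]
    by_cases h4 : ‖ξ - ζ‖ < ta β₀ b (j₀ + i)
    · left
      have h5 := (hR (j₀ + i)).iso ζ hζ ξ hξ h4
      exact h5.le.trans (ccn_ta_zz β₀ b _ hβ)
    · right
      exact (ccn_zz_ta β₀ b _ hβ).trans (not_lt.mp h4)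

end Pool.Agent.H729R2.FO
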