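import Mathlib
import Pool.Agent.H729R2.FO.Stubs

set_option autoImplicit false

namespace Pool.Agent.H729R2.FO

open MeasureTheory Pool.Agent.H729R2.CB Pool.Agent.Helper150.Cub

open scoped Classical

theorem cel_tp : (0 : ℝ) < 2 * Real.pi := by positivity

theorem cel_rep_mem (x : G) : 0 ≤ rep x ∧ rep x < 2 * Real.pi := by
  have h := (AddCircle.equivIco (2 * Real.pi) 0 x).2
  unfold rep
  constructor
  · exact h.1
  · exact lt_of_lt_of_eq h.2 (zero_add _)

theorem cel_rep_coe (x : G) : ((rep x : ℝ) : G) = x := AddCircle.coe_equivIco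

theorem cel_coe_rep {y : ℝ} (h0 : 0 ≤ y) (h1 : y < 2 * Real.pi) : rep (y : G) = y := by
  unfold rep
  exact AddCircle.equivIco_coe_of_mem ⟨h0, by rw [zero_add]; exact h1⟩

theorem cel_rep_meas : Measurable rep :=
  measurable_subtype_coe.comp (AddCircle.measurableEquivIco (2 * Real.pi) 0).measurable

theorem cel_cidx_meas (j : ℕ) : Measurable (cidx j) := by
  unfold cidx
  exact Nat.measurable_floor.comp ((cel_rep_meas.mul_const _).div_const _)

theorem cel_floor {j : ℕ} {y : ℝ} (h0 : 0 ≤ y) (i : ℕ) :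
    ⌊y * 2 ^ j / (2 * Real.pi)⌋₊ = i ↔
      (i : ℝ) * (2 * Real.pi) / 2 ^ j ≤ y ∧ y < ((i : ℝ) + 1) * (2 * Real.pi) / 2 ^ j := by
  have hT := cel_tp
  have h2 : (0 : ℝ) < 2 ^ j := by positivity
  rw [Nat.floor_eq_iff (by positivity), le_div_iff₀ hT, div_lt_iff₀ hT, div_le_iff₀ h2,
    lt_div_iff₀ h2]

theorem cel_cidx_iff (j : ℕ) (x : G) (i : ℕ) : cidx j x = i ↔
    (i : ℝ) * (2 * Real.pi) / 2 ^ j ≤ rep x ∧ rep x < ((i : ℝ) + 1) * (2 * Real.pi) / 2 ^ j :=
  cel_floor (cel_rep_mem x).1 i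

theorem cel_norm_le (z : ℝ) : ‖(z : G)‖ ≤ |z| := by
  have hT := cel_tp
  rw [AddCircle.norm_eq' _ hT]
  have h := round_le ((2 * Real.pi)⁻¹ * z) 0
  rw [Int.cast_zero, sub_zero, abs_mul, abs_of_pos (inv_pos.2 hT)] at h
  calc 2 * Real.pi * |(2 * Real.pi)⁻¹ * z - round ((2 * Real.pi)⁻¹ * z)|
      ≤ 2 * Real.pi * ((2 * Real.pi)⁻¹ * |z|) := mul_le_mul_of_nonneg_left h hT.le
    _ = |z| := by field_simp

theorem cel_measure (j i : ℕ) (hi : i < 2 ^ j) : (hm (Cell j i)).toReal = (1 / 2) ^ j := by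
  have hT := cel_tp
  have h2 : (0 : ℝ) < 2 ^ j := by positivity
  have hms : MeasurableSet (Cell j i) := cel_cidx_meas j (measurableSet_singleton i)
  have hi' : (i : ℝ) + 1 ≤ 2 ^ j := by exact_mod_cast hi
  have h1 := AddCircle.add_projection_respects_measure (2 * Real.pi) 0 hms
  have h3 : (volume : Measure ℝ) (QuotientAddGroup.mk ⁻¹' Cell j i ∩ Set.Ioc 0 (0 + 2 * Real.pi)) =
      volume (Set.Ico ((i : ℝ) * (2 * Real.pi) / 2 ^ j) (((i : ℝ) + 1) * (2 * Real.pi) / 2 ^ j)) := by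
    apply measure_congr
    have hnull : ∀ᵐ y ∂(volume : Measure ℝ), y ∉ ({0, 2 * Real.pi} : Set ℝ) := by
      rw [ae_iff]
      simp only [not_not]
      exact (Set.toFinite ({0, 2 * Real.pi} : Set ℝ)).measure_zero volume
    filter_upwards [hnull] with y hy
    simp only [Set.mem_insert_iff, Set.mem_singleton_iff, not_or] at hy
    apply propext
    constructor
    · rintro ⟨h4, h5, h6⟩
      rw [zero_add] at h6
      have h7 : rep (y : G) = y := cel_coe_rep h5.le (lt_of_le_of_ne h6 hy.2)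
      have h8 : cidx j (y : G) = i := h4
      rw [cel_cidx_iff, h7] at h8
      exact h8
    · intro h4
      have h5 : 0 ≤ y := le_trans (by positivity) h4.1
      have h6 : y < 2 * Real.pi := by
        refine lt_of_lt_of_le h4.2 ?_
        rw [div_le_iff₀ h2, mul_comm]
        exact mul_le_mul_of_nonneg_left hi' hT.le
      refine ⟨?_, lt_of_le_of_ne h5 (Ne.symm hy.1), by rw [zero_add]; exact h6.le⟩
      show cidx j (y : G) = i
      rw [cel_cidx_iff, cel_coe_rep h5 h6]
      exact h4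
  rw [h3, Real.volume_Ico] at h1
  have h4 := AddCircle.volume_eq_smul_haarAddCircle (T := 2 * Real.pi)
  rw [h4, Measure.smul_apply, smul_eq_mul] at h1
  have h5 := congrArg ENNReal.toReal h1
  rw [ENNReal.toReal_mul, ENNReal.toReal_ofReal hT.le, ENNReal.toReal_ofReal (by
    have : ((i : ℝ) + 1) * (2 * Real.pi) / 2 ^ j - (i : ℝ) * (2 * Real.pi) / 2 ^ j =
      (2 * Real.pi) / 2 ^ j := by ring
    rw [this]; positivity)] at h5
  have h6 : ((i : ℝ) + 1) * (2 * Real.pi) / 2 ^ j - (i : ℝ) * (2 * Real.pi) / 2 ^ j =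
      (2 * Real.pi) * (1 / 2) ^ j := by
    rw [div_pow, one_pow]
    ring
  rw [h6] at h5
  exact mul_left_cancel₀ hT.ne' h5

theorem cel_sub_le (x y : G) : ‖x - y‖ ≤ |rep x - rep y| := by
  have h : x - y = ((rep x - rep y : ℝ) : G) := by
    rw [AddCircle.coe_sub, cel_rep_coe, cel_rep_coe]
  rw [h]
  exact cel_norm_le _

theorem cel_rep_cen {j i : ℕ} (hi : i < 2 ^ j) :
    rep (cen j i) = ((i : ℝ) + 1 / 2) * (2 * Real.pi) / 2 ^ j := by
  have hT := cel_tp
  have h2 : (0 : ℝ) < 2 ^ j := by positivity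
  have hi' : (i : ℝ) + 1 ≤ 2 ^ j := by exact_mod_cast hi
  unfold cen
  apply cel_coe_rep (by positivity)
  rw [div_lt_iff₀ h2, mul_comm (2 * Real.pi)]
  exact mul_lt_mul_of_pos_right (by linarith) hT

theorem t_CEL : S_CEL := by
  have hT := cel_tp
  refine ⟨fun j i => cel_cidx_meas j (measurableSet_singleton i), ?_, cel_measure, ?_, ?_, ?_, ?_, ?_⟩
  · intro j x
    have h := cel_rep_mem x
    have h2 : (0 : ℝ) < 2 ^ j := by positivity
    unfold cidx
    rw [Nat.floor_lt (by have := h.1; positivity), div_lt_iff₀ hT]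
    push_cast
    rw [mul_comm]
    exact mul_lt_mul_of_pos_left h.2 h2
  · intro j k x
    unfold cidx
    rw [← Nat.floor_div_natCast]
    congr 1
    push_cast
    rw [pow_add]
    field_simp
  · intro j x y h
    have h1 := (cel_cidx_iff j x (cidx j x)).1 rfl
    have h2 := (cel_cidx_iff j y (cidx j x)).1 h.symm
    refine (cel_sub_le x y).trans ?_
    have h3 : ((cidx j x : ℝ) + 1) * (2 * Real.pi) / 2 ^ j =
        (cidx j x : ℝ) * (2 * Real.pi) / 2 ^ j + 2 * Real.pi * (1 / 2) ^ j := by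
      rw [div_pow, one_pow]
      ring
    rw [h3] at h1 h2
    rw [abs_le]
    constructor <;> linarith [h1.1, h1.2, h2.1, h2.2]
  · intro j i hi
    have h2 : (0 : ℝ) < 2 ^ j := by positivity
    rw [cel_cidx_iff, cel_rep_cen hi]
    constructor
    · apply div_le_div_of_nonneg_right _ h2.le
      exact mul_le_mul_of_nonneg_right (by linarith) hT.le
    · apply div_lt_div_of_pos_right _ h2
      exact mul_lt_mul_of_pos_right (by linarith) hT
  · intro j x
    have h1 := (cel_cidx_iff j x (cidx j x)).1 rfl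
    have h : x - cen j (cidx j x) =
        ((rep x - ((cidx j x : ℝ) + 1 / 2) * (2 * Real.pi) / 2 ^ j : ℝ) : G) := by
      rw [AddCircle.coe_sub, cel_rep_coe]
      rfl
    rw [h]
    refine (cel_norm_le _).trans ?_
    have h3 : ((cidx j x : ℝ) + 1) * (2 * Real.pi) / 2 ^ j =
        ((cidx j x : ℝ) + 1 / 2) * (2 * Real.pi) / 2 ^ j + Real.pi * (1 / 2) ^ j := by
      rw [div_pow, one_pow]
      ring
    have h4 : (cidx j x : ℝ) * (2 * Real.pi) / 2 ^ j =
        ((cidx j x : ℝ) + 1 / 2) * (2 * Real.pi) / 2 ^ j - Real.pi * (1 / 2) ^ j := by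
      rw [div_pow, one_pow]
      ring
    rw [h3, h4] at h1
    rw [abs_le]
    constructor <;> linarith [h1.1, h1.2]
  · intro j i i' hi hi' hne
    have h2 : (0 : ℝ) < 2 ^ j := by positivity
    have h : cen j i - cen j i' = ((((i : ℝ) - (i' : ℝ)) * (2 * Real.pi) / 2 ^ j : ℝ) : G) := by
      unfold cen
      rw [← AddCircle.coe_sub]
      congr 1
      ring
    rw [h, AddCircle.norm_eq' _ hT]
    refine mul_le_mul_of_nonneg_left ?_ hT.le
    set n := round ((2 * Real.pi)⁻¹ * (((i : ℝ) - (i' : ℝ)) * (2 * Real.pi) / 2 ^ j)) with hn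
    have h3 : (2 * Real.pi)⁻¹ * (((i : ℝ) - (i' : ℝ)) * (2 * Real.pi) / 2 ^ j) - (n : ℝ) =
        (((i : ℤ) - (i' : ℤ) - n * 2 ^ j : ℤ) : ℝ) / 2 ^ j := by
      push_cast
      field_simp
    rw [h3, abs_div, abs_of_pos h2, div_pow, one_pow]
    apply div_le_div_of_nonneg_right _ h2.le
    have h4 : ((i : ℤ) - (i' : ℤ) - n * 2 ^ j : ℤ) ≠ 0 := by
      intro h5
      have h6 : (i : ℤ) - (i' : ℤ) = n * 2 ^ j := by linarith
      have h7 : n = 0 := by
        have hi1 : (i : ℤ) < 2 ^ j := by exact_mod_cast hi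
        have hi2 : (i' : ℤ) < 2 ^ j := by exact_mod_cast hi'
        have hi3 : (0 : ℤ) ≤ i := Int.natCast_nonneg i
        have hi4 : (0 : ℤ) ≤ i' := Int.natCast_nonneg i'
        by_contra hn0
        rcases lt_or_gt_of_ne hn0 with h8 | h8
        · have : n * 2 ^ j ≤ -1 * 2 ^ j := by
            apply mul_le_mul_of_nonneg_right _ (by positivity)
            omega
          linarith
        · have : 1 * 2 ^ j ≤ n * 2 ^ j := by
            apply mul_le_mul_of_nonneg_right _ (by positivity)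
            omega
          linarith
      rw [h7, zero_mul] at h6
      apply hne
      have : (i : ℤ) = i' := by linarith
      exact_mod_cast this
    have h5 : 1 ≤ |((i : ℤ) - (i' : ℤ) - n * 2 ^ j : ℤ)| := Int.one_le_abs h4
    rw [← Int.cast_abs]
    exact_mod_cast h5

end Pool.Agent.H729R2.FO
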