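import Mathlib
import Pool.Agent.H729R2.FO.Stubs

set_option autoImplicit false

namespace Pool.Agent.H729R2.FO

open MeasureTheory Pool.Agent.H729R2.CB Pool.Agent.Helper150.Cub

open scoped Classical

theorem cin_aux (hM : ∀ j i, MeasurableSet (Cell j i)) (f : G → ℝ) (hf : Integrable f hm)
    (j n : ℕ) (g : ℕ → ℕ) (hg : Function.Injective g) (B : Set G)
    (hB : ∀ x, x ∈ B ↔ ∃ i < n, cidx j x = g i) :
    ∫ x in B, f x ∂hm = ∑ i ∈ Finset.range n, ∫ x in Cell j (g i), f x ∂hm := by
  have hU : B = ⋃ i ∈ Finset.range n, Cell j (g i) := by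
    ext x
    rw [hB]
    simp only [Set.mem_iUnion, Finset.mem_range, Cell, Set.mem_setOf_eq, exists_prop]
  rw [hU]
  refine integral_biUnion_finset (Finset.range n) (fun i _ => hM j (g i)) ?_
    (fun i _ => hf.integrableOn)
  intro a _ b _ hab
  refine Set.disjoint_left.2 fun x hx hy => ?_
  have h1 : cidx j x = g a := hx
  have h2 : cidx j x = g b := hy
  exact hab (hg (h1.symm.trans h2))

theorem t_CIN (hC : S_CEL) : S_CIN := by
  obtain ⟨hM, hlt, _, hdiv, _⟩ := hC
  intro f hf
  refine ⟨fun j => ?_, fun j k i => ?_⟩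
  · have h := cin_aux hM f hf j (2 ^ j) id Function.injective_id Set.univ (fun x => by
      simp only [Set.mem_univ, true_iff, id]
      exact ⟨_, hlt j x, rfl⟩)
    rw [setIntegral_univ] at h
    simpa using h
  · refine cin_aux hM f hf (j + k) (2 ^ k) (fun i' => i * 2 ^ k + i')
      (fun a b hab => by simpa using hab) (Cell j i) (fun x => ?_)
    have h2 : 0 < 2 ^ k := by positivity
    change cidx j x = i ↔ _
    rw [hdiv j k x]
    constructor
    · intro h
      refine ⟨cidx (j + k) x % 2 ^ k, Nat.mod_lt _ h2, ?_⟩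
      rw [← h]
      have := Nat.div_add_mod (cidx (j + k) x) (2 ^ k)
      rw [mul_comm] at this
      exact this.symm
    · rintro ⟨i', hi', h⟩
      rw [h, mul_comm i, Nat.mul_add_div h2, Nat.div_eq_of_lt hi', add_zero]

end Pool.Agent.H729R2.FO
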