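import Mathlib
import Pool.Agent.H729R2.FO.Stubs

set_option autoImplicit false

namespace Pool.Agent.H729R2.FO

open MeasureTheory Pool.Agent.H729R2.CB Pool.Agent.Helper150.Cub

open scoped Classical

theorem t_CNT (hC : S_CEL) : S_CNT := by
  obtain ⟨-, -, -, -, -, -, -, hsep⟩ := hC
  intro m n q ξ K hK hqn hm
  set T : ℕ → Finset (Fin m) := fun i =>
    Finset.univ.filter (fun μ => ‖(ξ μ).1 - cen q i‖ < (1 / 2) ^ q) with hT
  have hX : ∀ i, (Xq ξ q i).card ≤ (T i).card := fun i => Finset.card_image_le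
  have hsum : ∑ i ∈ Finset.range (2 ^ q), (T i).card ≤ m := by
    have h1 : ∑ i ∈ Finset.range (2 ^ q), (T i).card =
        ∑ μ : Fin m, ((Finset.range (2 ^ q)).filter
          (fun i => ‖(ξ μ).1 - cen q i‖ < (1 / 2) ^ q)).card := by
      simp_rw [hT, Finset.card_filter]
      exact Finset.sum_comm
    rw [h1]
    calc ∑ μ : Fin m, ((Finset.range (2 ^ q)).filter
          (fun i => ‖(ξ μ).1 - cen q i‖ < (1 / 2) ^ q)).card ≤ ∑ _μ : Fin m, 1 := by
          apply Finset.sum_le_sum
          intro μ _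
          rw [Finset.card_le_one]
          intro i hi i' hi'
          rw [Finset.mem_filter, Finset.mem_range] at hi hi'
          by_contra hne
          have h2 := hsep q i i' hi.1 hi'.1 hne
          have h3 : ‖cen q i - cen q i'‖ ≤ ‖(ξ μ).1 - cen q i‖ + ‖(ξ μ).1 - cen q i'‖ := by
            have e : cen q i - cen q i' = -((ξ μ).1 - cen q i) + ((ξ μ).1 - cen q i') := by abel
            rw [e]
            refine (norm_add_le _ _).trans ?_
            rw [norm_neg]
          have h4 : (0 : ℝ) < (1 / 2) ^ q := by positivity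
          have h5 : (1 : ℝ) ≤ Real.pi := by linarith [Real.pi_gt_three]
          have h6 := hi.2
          have h7 := hi'.2
          nlinarith
      _ = m := by simp
  set Bd := (Finset.range (2 ^ q)).filter
    (fun i => ¬ ((Xq ξ q i).card : ℝ) * K ≤ 2 ^ (n - q)) with hBd
  have hcard := Finset.card_filter_add_card_filter_not (s := Finset.range (2 ^ q))
    (fun i => ((Xq ξ q i).card : ℝ) * K ≤ 2 ^ (n - q))
  rw [Finset.card_range] at hcard
  have hbad : (Bd.card : ℝ) * 2 ^ (n - q) ≤ m * K := by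
    have h1 : (Bd.card : ℝ) * 2 ^ (n - q) ≤ ∑ i ∈ Bd, ((T i).card : ℝ) * K := by
      rw [← nsmul_eq_mul, ← Finset.sum_const]
      apply Finset.sum_le_sum
      intro i hi
      rw [hBd, Finset.mem_filter, not_le] at hi
      have h2 : ((Xq ξ q i).card : ℝ) ≤ (T i).card := by exact_mod_cast hX i
      nlinarith [hi.2]
    refine h1.trans ?_
    rw [← Finset.sum_mul]
    have h3 : ∑ i ∈ Bd, ((T i).card : ℝ) ≤ m := by
      have h4 : ∑ i ∈ Bd, (T i).card ≤ m :=
        (Finset.sum_le_sum_of_subset (Finset.filter_subset _ _)).trans hsum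
      exact_mod_cast h4
    nlinarith
  have hpow : (2 : ℝ) ^ n = 2 ^ (n - q) * 2 ^ q := by
    rw [← pow_add]
    congr 1
    omega
  have hp : (0 : ℝ) < 2 ^ (n - q) := by positivity
  have h5 : (Bd.card : ℝ) ≤ 2 ^ q / 2 := by
    have h6 : (Bd.card : ℝ) * 2 ^ (n - q) ≤ (2 ^ q / 2) * 2 ^ (n - q) := by nlinarith
    exact le_of_mul_le_mul_right h6 hp
  have h7 : (((Finset.range (2 ^ q)).filter
    (fun i => ((Xq ξ q i).card : ℝ) * K ≤ 2 ^ (n - q))).card : ℝ) + Bd.card = 2 ^ q := by
    rw [hBd]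
    exact_mod_cast hcard
  linarith

end Pool.Agent.H729R2.FO
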