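import Mathlib
import Pool.Agent.H729R2.FO.Stubs

set_option autoImplicit false

/-! counting the points of a separated set in a ball (`sep_count`, also used by T_COL), sums over separated sets -/

namespace Pool.Agent.H729R2.FO

open MeasureTheory Pool.Agent.H729R2.CB Pool.Agent.Helper150.Cub

open scoped Classical

theorem count_hm_ball (x : G) (s : ℝ) :
    hm (Metric.closedBall x s) ≤ ENNReal.ofReal (s / Real.pi) ∧
    (s ≤ Real.pi → hm (Metric.closedBall x s) = ENNReal.ofReal (s / Real.pi)) := by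
  have hpi := Real.pi_pos
  have h1 := AddCircle.volume_closedBall (2 * Real.pi) (x := x) s
  have h2 := AddCircle.volume_eq_smul_haarAddCircle (T := 2 * Real.pi)
  rw [h2, Measure.smul_apply, smul_eq_mul] at h1
  have h3 : hm (Metric.closedBall x s) =
      ENNReal.ofReal (2 * Real.pi)⁻¹ * (ENNReal.ofReal (2 * Real.pi) * hm (Metric.closedBall x s)) := by
    rw [← mul_assoc, ← ENNReal.ofReal_mul (by positivity), inv_mul_cancel₀ (by positivity)]
    simp
  rw [h3, h1, ← ENNReal.ofReal_mul (by positivity)]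
  constructor
  · apply ENNReal.ofReal_le_ofReal
    calc (2 * Real.pi)⁻¹ * min (2 * Real.pi) (2 * s) ≤ (2 * Real.pi)⁻¹ * (2 * s) := by
          gcongr
          exact min_le_right _ _
      _ = s / Real.pi := by field_simp
  · intro h
    rw [min_eq_right (by linarith)]
    congr 1
    field_simp

theorem count_aux {σ R s : ℝ} (hs : 0 ≤ s) (hsπ : s ≤ Real.pi) (hsσ : 2 * s < σ) (hR : 0 < R)
    {S : Finset G} (h : Sepd σ S) (x : G) (hS : ∀ y ∈ S, ‖x - y‖ < R) :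
    (S.card : ℝ) * s ≤ R + s := by
  have hpi := Real.pi_pos
  have h1 : hm (⋃ y ∈ S, Metric.closedBall y s) = ∑ y ∈ S, hm (Metric.closedBall y s) := by
    refine measure_biUnion_finset ?_ fun y _ => Metric.isClosed_closedBall.measurableSet
    intro y hy y' hy' hne
    rw [Function.onFun, Set.disjoint_left]
    intro z hz hz'
    rw [Metric.mem_closedBall, dist_eq_norm] at hz hz'
    have h2 := h y hy y' hy' hne
    have h3 : ‖y - y'‖ ≤ ‖z - y‖ + ‖z - y'‖ := by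
      have : y - y' = (z - y') - (z - y) := by abel
      rw [this, add_comm]
      exact norm_sub_le _ _
    linarith
  have h2 : (⋃ y ∈ S, Metric.closedBall y s) ⊆ Metric.closedBall x (R + s) := by
    intro z hz
    simp only [Set.mem_iUnion, exists_prop] at hz
    obtain ⟨y, hy, hz⟩ := hz
    rw [Metric.mem_closedBall, dist_eq_norm] at hz ⊢
    have h3 := hS y hy
    have h4 : ‖z - x‖ ≤ ‖z - y‖ + ‖x - y‖ := by
      have : z - x = (z - y) - (x - y) := by abel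
      rw [this]
      exact norm_sub_le _ _
    linarith
  have h3 := measure_mono (μ := hm) h2
  rw [h1, Finset.sum_congr rfl fun y _ => (count_hm_ball y s).2 hsπ, Finset.sum_const,
    nsmul_eq_mul] at h3
  have h4 := h3.trans (count_hm_ball x (R + s)).1
  rw [← ENNReal.ofReal_natCast, ← ENNReal.ofReal_mul (Nat.cast_nonneg _),
    ENNReal.ofReal_le_ofReal_iff (by positivity), ← mul_div_assoc,
    div_le_div_iff_of_pos_right hpi] at h4
  exact h4

theorem count_norm_le (x : G) : ‖x‖ ≤ Real.pi := by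
  have h := AddCircle.norm_le_half_period (2 * Real.pi) (x := x) (by positivity)
  rw [abs_of_pos (by positivity : 0 < 2 * Real.pi)] at h
  linarith

/-- at most `2R/σ + 1` points of a `σ`-separated set in a ball of radius `R` -/
theorem sep_count {σ R : ℝ} (hσ : 0 < σ) (hR : 0 < R) {S : Finset G} (h : Sepd σ S) (x : G) :
    ((S.filter (fun y => ‖x - y‖ < R)).card : ℝ) ≤ 2 * R / σ + 1 := by
  set T := S.filter (fun y => ‖x - y‖ < R) with hT
  have hTS : Sepd σ T := fun y hy y' hy' hne =>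
    h y (Finset.mem_filter.1 hy).1 y' (Finset.mem_filter.1 hy').1 hne
  have hTR : ∀ y ∈ T, ‖x - y‖ < R := fun y hy => (Finset.mem_filter.1 hy).2
  by_contra hcon
  push Not at hcon
  have hpos : 0 < 2 * R / σ := by positivity
  have hN : 1 < (T.card : ℝ) := by linarith
  have hN' : 1 < T.card := by exact_mod_cast hN
  obtain ⟨y, hy, y', hy', hne⟩ := Finset.one_lt_card.1 hN'
  have hσπ : σ ≤ Real.pi := (hTS y hy y' hy' hne).trans (count_norm_le _)
  have h1 : R < ((T.card : ℝ) - 1) * (σ / 2) := by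
    have h2 : 2 * R / σ < (T.card : ℝ) - 1 := by linarith
    rw [div_lt_iff₀ hσ] at h2
    linarith
  have hN1 : 0 < (T.card : ℝ) - 1 := by linarith
  have h2 : R / ((T.card : ℝ) - 1) < σ / 2 := by
    rw [div_lt_iff₀ hN1]
    linarith
  obtain ⟨s, hs1, hs2⟩ := exists_between h2
  have hs0 : 0 < s := lt_trans (by positivity) hs1
  have h3 := count_aux hs0.le (by linarith) (by linarith : 2 * s < σ) hR hTS x hTR
  rw [div_lt_iff₀ hN1] at hs1
  nlinarith

/-! ### sums over separated sets -/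

theorem sep_term (a ρ : ℝ) (hρ : 0 < ρ) (k : ℕ) :
    (2 ^ k * ρ) * (2 ^ k * ρ) ^ (-a) = ((2 : ℝ) ^ (1 - a)) ^ k * ρ ^ (1 - a) := by
  have h2 : (0 : ℝ) < 2 ^ k := by positivity
  have h1 : (0 : ℝ) < 2 ^ k * ρ := by positivity
  calc (2 ^ k * ρ) * (2 ^ k * ρ) ^ (-a) = (2 ^ k * ρ) ^ (1 : ℝ) * (2 ^ k * ρ) ^ (-a) := by
        rw [Real.rpow_one]
    _ = (2 ^ k * ρ) ^ (1 - a) := by rw [← Real.rpow_add h1]; congr 1
    _ = ((2 : ℝ) ^ k) ^ (1 - a) * ρ ^ (1 - a) := Real.mul_rpow h2.le hρ.le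
    _ = ((2 : ℝ) ^ (1 - a)) ^ k * ρ ^ (1 - a) := by
        congr 1
        rw [← Real.rpow_natCast 2 k, ← Real.rpow_mul (by norm_num), mul_comm,
          Real.rpow_mul (by norm_num), Real.rpow_natCast]

theorem sep_shell {a σ ρ : ℝ} (ha : 1 < a) (hσ : 0 < σ) (hρ : 0 < ρ) (hσρ : σ ≤ 2 * ρ)
    {S : Finset G} (h : Sepd σ S) (x : G) (hS : ∀ y ∈ S, ρ ≤ ‖x - y‖) (n : ℕ) :
    ∑ y ∈ S.filter (fun y => ‖x - y‖ < 2 ^ n * ρ), ‖x - y‖ ^ (-a) ≤
      ∑ k ∈ Finset.range n, 6 / σ * (((2 : ℝ) ^ (1 - a)) ^ k * ρ ^ (1 - a)) := by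
  induction n with
  | zero =>
    rw [Finset.range_zero, Finset.sum_empty, Finset.filter_false_of_mem, Finset.sum_empty]
    intro y hy
    have := hS y hy
    rw [pow_zero, one_mul]
    linarith
  | succ n ih =>
    rw [Finset.sum_range_succ]
    have hsub : S.filter (fun y => ‖x - y‖ < 2 ^ (n + 1) * ρ) ⊆
        S.filter (fun y => ‖x - y‖ < 2 ^ n * ρ) ∪
        S.filter (fun y => 2 ^ n * ρ ≤ ‖x - y‖ ∧ ‖x - y‖ < 2 ^ (n + 1) * ρ) := by
      intro y hy
      rw [Finset.mem_filter] at hy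
      rw [Finset.mem_union, Finset.mem_filter, Finset.mem_filter]
      rcases lt_or_ge (‖x - y‖) (2 ^ n * ρ) with h1 | h1
      · exact Or.inl ⟨hy.1, h1⟩
      · exact Or.inr ⟨hy.1, h1, hy.2⟩
    have hnn : ∀ y : G, 0 ≤ ‖x - y‖ ^ (-a) := fun y => Real.rpow_nonneg (norm_nonneg _) _
    have h1 : ∑ y ∈ S.filter (fun y => ‖x - y‖ < 2 ^ (n + 1) * ρ), ‖x - y‖ ^ (-a) ≤
        ∑ y ∈ S.filter (fun y => ‖x - y‖ < 2 ^ n * ρ), ‖x - y‖ ^ (-a) +
        ∑ y ∈ S.filter (fun y => 2 ^ n * ρ ≤ ‖x - y‖ ∧ ‖x - y‖ < 2 ^ (n + 1) * ρ),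
          ‖x - y‖ ^ (-a) := by
      refine (Finset.sum_le_sum_of_subset_of_nonneg hsub fun y _ _ => hnn y).trans ?_
      have h2 := Finset.sum_union_inter (s₁ := S.filter (fun y => ‖x - y‖ < 2 ^ n * ρ))
        (s₂ := S.filter (fun y => 2 ^ n * ρ ≤ ‖x - y‖ ∧ ‖x - y‖ < 2 ^ (n + 1) * ρ))
        (f := fun y => ‖x - y‖ ^ (-a))
      have h3 : 0 ≤ ∑ y ∈ S.filter (fun y => ‖x - y‖ < 2 ^ n * ρ) ∩
        S.filter (fun y => 2 ^ n * ρ ≤ ‖x - y‖ ∧ ‖x - y‖ < 2 ^ (n + 1) * ρ), ‖x - y‖ ^ (-a) :=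
        Finset.sum_nonneg fun y _ => hnn y
      linarith
    have hp : (0 : ℝ) < 2 ^ n * ρ := by positivity
    have h4 : ∑ y ∈ S.filter (fun y => 2 ^ n * ρ ≤ ‖x - y‖ ∧ ‖x - y‖ < 2 ^ (n + 1) * ρ),
          ‖x - y‖ ^ (-a) ≤ (6 * (2 ^ n * ρ) / σ) * (2 ^ n * ρ) ^ (-a) := by
      have h5 : ∀ y ∈ S.filter (fun y => 2 ^ n * ρ ≤ ‖x - y‖ ∧ ‖x - y‖ < 2 ^ (n + 1) * ρ),
          ‖x - y‖ ^ (-a) ≤ (2 ^ n * ρ) ^ (-a) := by
        intro y hy
        exact Real.rpow_le_rpow_of_nonpos hp (Finset.mem_filter.1 hy).2.1 (by linarith)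
      refine (Finset.sum_le_card_nsmul _ _ _ h5).trans ?_
      rw [nsmul_eq_mul]
      refine mul_le_mul_of_nonneg_right ?_ (Real.rpow_nonneg hp.le _)
      have h6 : ((S.filter (fun y => 2 ^ n * ρ ≤ ‖x - y‖ ∧ ‖x - y‖ < 2 ^ (n + 1) * ρ)).card : ℝ) ≤
          ((S.filter (fun y => ‖x - y‖ < 2 ^ (n + 1) * ρ)).card : ℝ) := by
        exact_mod_cast Finset.card_le_card fun y hy => by
          rw [Finset.mem_filter] at hy ⊢
          exact ⟨hy.1, hy.2.2⟩
      have h7 := sep_count hσ (show (0 : ℝ) < 2 ^ (n + 1) * ρ by positivity) h x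
      refine (h6.trans h7).trans ?_
      rw [div_add_one hσ.ne', div_le_div_iff_of_pos_right hσ, pow_succ]
      have h8 : (1 : ℝ) ≤ 2 ^ n := one_le_pow₀ (by norm_num)
      nlinarith
    have h5 := sep_term a ρ hρ n
    have h6 : (6 * (2 ^ n * ρ) / σ) * (2 ^ n * ρ) ^ (-a) =
        6 / σ * (((2 : ℝ) ^ (1 - a)) ^ n * ρ ^ (1 - a)) := by
      rw [← h5]
      ring
    rw [h6] at h4
    linarith

theorem sep_far {a σ ρ : ℝ} (ha : 1 < a) (hσ : 0 < σ) (hρ : 0 < ρ) (hσρ : σ ≤ 2 * ρ)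
    {S : Finset G} (h : Sepd σ S) (x : G) (hS : ∀ y ∈ S, ρ ≤ ‖x - y‖) :
    ∑ y ∈ S, ‖x - y‖ ^ (-a) ≤ 6 * (1 - (2 : ℝ) ^ (1 - a))⁻¹ * ρ ^ (1 - a) / σ := by
  obtain ⟨n, hn⟩ : ∃ n : ℕ, Real.pi / ρ < 2 ^ n := pow_unbounded_of_one_lt _ (by norm_num)
  rw [div_lt_iff₀ hρ] at hn
  have h1 : S.filter (fun y => ‖x - y‖ < 2 ^ n * ρ) = S :=
    Finset.filter_true_of_mem fun y _ => lt_of_le_of_lt (count_norm_le _) hn
  have h2 := sep_shell ha hσ hρ hσρ h x hS n
  rw [h1] at h2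
  refine h2.trans ?_
  have hq0 : 0 < (2 : ℝ) ^ (1 - a) := by positivity
  have hq1 : (2 : ℝ) ^ (1 - a) < 1 := Real.rpow_lt_one_of_one_lt_of_neg (by norm_num) (by linarith)
  have hρa : 0 < ρ ^ (1 - a) := by positivity
  have h3 : ∑ k ∈ Finset.range n, ((2 : ℝ) ^ (1 - a)) ^ k ≤ (1 - (2 : ℝ) ^ (1 - a))⁻¹ := by
    rw [← tsum_geometric_of_lt_one hq0.le hq1]
    exact (summable_geometric_of_lt_one hq0.le hq1).sum_le_tsum _ fun k _ => by positivity
  rw [← Finset.mul_sum, ← Finset.sum_mul]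
  calc 6 / σ * ((∑ k ∈ Finset.range n, ((2 : ℝ) ^ (1 - a)) ^ k) * ρ ^ (1 - a))
      ≤ 6 / σ * ((1 - (2 : ℝ) ^ (1 - a))⁻¹ * ρ ^ (1 - a)) := by gcongr
    _ = 6 * (1 - (2 : ℝ) ^ (1 - a))⁻¹ * ρ ^ (1 - a) / σ := by ring

theorem t_SEP : S_SEP := by
  intro a ha
  have hq0 : 0 < (2 : ℝ) ^ (1 - a) := by positivity
  have hq1 : (2 : ℝ) ^ (1 - a) < 1 := Real.rpow_lt_one_of_one_lt_of_neg (by norm_num) (by linarith)
  have hK0 : 0 < (1 - (2 : ℝ) ^ (1 - a))⁻¹ := inv_pos.2 (by linarith)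
  set K := 6 * (1 - (2 : ℝ) ^ (1 - a))⁻¹ with hK
  have hKp : 0 < K := by positivity
  refine ⟨K + 3, by linarith, ?_, ?_⟩
  · intro S σ ρ x hσ hσρ hS hfar
    have hρ : 0 < ρ := by linarith
    refine (sep_far ha hσ hρ hσρ hS x hfar).trans ?_
    rw [← hK]
    have : 0 < ρ ^ (1 - a) := by positivity
    gcongr
    linarith
  · intro S σ s x hσ hs hS
    set ρ := max s σ with hρd
    have hρ : 0 < ρ := lt_of_lt_of_le hs (le_max_left _ _)
    have hσρ : σ ≤ 2 * ρ := by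
      have := le_max_right s σ
      linarith
    have hρs : ρ ≤ s + σ := max_le (by linarith) (by linarith)
    rw [← Finset.sum_filter_add_sum_filter_not S (fun y => ‖x - y‖ < ρ)]
    have h1 : ∑ y ∈ S.filter (fun y => ‖x - y‖ < ρ), (1 + ‖x - y‖ / s) ^ (-a) ≤
        2 * (s / σ) + 3 := by
      have h2 : ∀ y ∈ S.filter (fun y => ‖x - y‖ < ρ), (1 + ‖x - y‖ / s) ^ (-a) ≤ 1 := by
        intro y _
        refine Real.rpow_le_one_of_one_le_of_nonpos ?_ (by linarith)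
        have : 0 ≤ ‖x - y‖ / s := by positivity
        linarith
      refine (Finset.sum_le_card_nsmul _ _ _ h2).trans ?_
      rw [nsmul_eq_mul, mul_one]
      refine (sep_count hσ hρ hS x).trans ?_
      have h3 : 2 * ρ / σ ≤ 2 * (s / σ) + 2 := by
        rw [div_le_iff₀ hσ, add_mul, mul_assoc 2 (s / σ) σ, div_mul_cancel₀ _ hσ.ne']
        linarith
      linarith
    have h2 : ∑ y ∈ S.filter (fun y => ¬ ‖x - y‖ < ρ), (1 + ‖x - y‖ / s) ^ (-a) ≤
        K * (s / σ) := by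
      have h3 : ∀ y ∈ S.filter (fun y => ¬ ‖x - y‖ < ρ), (1 + ‖x - y‖ / s) ^ (-a) ≤
          s ^ a * ‖x - y‖ ^ (-a) := by
        intro y hy
        have hy2 : ρ ≤ ‖x - y‖ := not_lt.1 (Finset.mem_filter.1 hy).2
        have hy0 : 0 < ‖x - y‖ := lt_of_lt_of_le hρ hy2
        calc (1 + ‖x - y‖ / s) ^ (-a) ≤ (‖x - y‖ / s) ^ (-a) :=
              Real.rpow_le_rpow_of_nonpos (by positivity) (by linarith) (by linarith)
          _ = s ^ a * ‖x - y‖ ^ (-a) := by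
              rw [Real.div_rpow hy0.le hs.le, Real.rpow_neg hs.le, div_inv_eq_mul, mul_comm]
      refine (Finset.sum_le_sum h3).trans ?_
      rw [← Finset.mul_sum]
      have h4 := sep_far ha hσ hρ hσρ
        (fun y hy y' hy' hne => hS y (Finset.mem_filter.1 hy).1 y' (Finset.mem_filter.1 hy').1 hne :
          Sepd σ (S.filter (fun y => ¬ ‖x - y‖ < ρ))) x
        (fun y hy => not_lt.1 (Finset.mem_filter.1 hy).2)
      rw [← hK] at h4
      have hsa : 0 < s ^ a := by positivity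
      calc s ^ a * ∑ y ∈ S.filter (fun y => ¬ ‖x - y‖ < ρ), ‖x - y‖ ^ (-a)
          ≤ s ^ a * (K * ρ ^ (1 - a) / σ) := mul_le_mul_of_nonneg_left h4 hsa.le
        _ ≤ s ^ a * (K * s ^ (1 - a) / σ) := by
            have h5 : ρ ^ (1 - a) ≤ s ^ (1 - a) :=
              Real.rpow_le_rpow_of_nonpos hs (le_max_left _ _) (by linarith)
            gcongr
        _ = K * (s ^ a * s ^ (1 - a)) / σ := by ring
        _ = K * (s / σ) := by
            rw [← Real.rpow_add hs]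
            have : a + (1 - a) = 1 := by ring
            rw [this, Real.rpow_one]
            ring
    have h3 : 0 < s / σ := by positivity
    nlinarith

end Pool.Agent.H729R2.FO
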