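import Mathlib
import Pool.Agent.H729R2.FO.Stubs
import Pool.Agent.H729R2.FO.T_SEP

set_option autoImplicit false

namespace Pool.Agent.H729R2.FO

open MeasureTheory Pool.Agent.H729R2.CB Pool.Agent.Helper150.Cub

open scoped Classical

/-- greedy colouring -/
theorem col_greedy {σ τ : ℝ} (hσ : 0 < σ) (hστ : σ ≤ τ) (S : Finset G) : Sepd σ S →
    ∃ c : G → ℕ, (∀ x ∈ S, c x < ⌊2 * τ / σ⌋₊ + 1) ∧
      ∀ x ∈ S, ∀ y ∈ S, x ≠ y → ‖x - y‖ < τ → c x ≠ c y := by
  have hτ : 0 < τ := lt_of_lt_of_le hσ hστ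
  induction S using Finset.induction_on with
  | empty => intro _; exact ⟨fun _ => 0, by simp, by simp⟩
  | insert a S ha ih =>
    intro h
    obtain ⟨c, hc1, hc2⟩ := ih fun x hx y hy hne =>
      h x (Finset.mem_insert_of_mem hx) y (Finset.mem_insert_of_mem hy) hne
    have hcard : (S.filter (fun y => ‖a - y‖ < τ)).card ≤ ⌊2 * τ / σ⌋₊ := by
      apply Nat.le_floor
      have h1 := sep_count hσ hτ h a
      rw [Finset.filter_insert, if_pos (by rw [sub_self, norm_zero]; exact hτ),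
        Finset.card_insert_of_notMem (fun h2 => ha (Finset.mem_filter.1 h2).1)] at h1
      push_cast at h1
      linarith
    obtain ⟨k, hk1, hk2⟩ : ∃ k ∈ Finset.range (⌊2 * τ / σ⌋₊ + 1),
        k ∉ (S.filter (fun y => ‖a - y‖ < τ)).image c := by
      by_contra hcon
      push Not at hcon
      have h1 := Finset.card_le_card (show Finset.range (⌊2 * τ / σ⌋₊ + 1) ⊆
        (S.filter (fun y => ‖a - y‖ < τ)).image c from hcon)
      rw [Finset.card_range] at h1
      have h2 := Finset.card_image_le (s := S.filter (fun y => ‖a - y‖ < τ)) (f := c)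
      omega
    have hnb : ∀ y ∈ S, ‖a - y‖ < τ → c y ≠ k := fun y hy h1 h2 =>
      hk2 (Finset.mem_image.2 ⟨y, Finset.mem_filter.2 ⟨hy, h1⟩, h2⟩)
    have hne : ∀ y ∈ S, y ≠ a := fun y hy h1 => ha (h1 ▸ hy)
    refine ⟨Function.update c a k, ?_, ?_⟩
    · intro x hx
      rcases Finset.mem_insert.1 hx with rfl | hx
      · rw [Function.update_self]
        exact Finset.mem_range.1 hk1
      · rw [Function.update_of_ne (hne x hx)]
        exact hc1 x hx
    · intro x hx y hy hxy hd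
      rcases Finset.mem_insert.1 hx with h1 | h1 <;> rcases Finset.mem_insert.1 hy with h2 | h2
      · exact absurd (h1.trans h2.symm) hxy
      · rw [h1, Function.update_self, Function.update_of_ne (hne y h2)]
        exact (hnb y h2 (h1 ▸ hd)).symm
      · rw [h2, Function.update_self, Function.update_of_ne (hne x h1)]
        exact hnb x h1 (by rw [norm_sub_rev, ← h2]; exact hd)
      · rw [Function.update_of_ne (hne x h1), Function.update_of_ne (hne y h2)]
        exact hc2 x h1 y h2 hxy hd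

theorem t_COL : S_COL := by
  intro a CH σ τ S bb hσ hστ hCH hbb hS hsum x
  have hτ : 0 < τ := lt_of_lt_of_le hσ hστ
  obtain ⟨c, hc1, hc2⟩ := col_greedy hσ hστ S hS
  rw [← Finset.sum_fiberwise_of_maps_to (s := S) (t := Finset.range (⌊2 * τ / σ⌋₊ + 1)) (g := c)
    (fun y hy => Finset.mem_range.2 (hc1 y hy))]
  have h1 : ∀ k ∈ Finset.range (⌊2 * τ / σ⌋₊ + 1),
      ∑ y ∈ S.filter (fun y => c y = k), bb y * (1 + ‖x - y‖ / τ) ^ (-a) ≤ CH * bb x := by
    intro k _
    apply hsum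
    intro y hy y' hy' hne
    rw [Finset.mem_filter] at hy hy'
    by_contra hlt
    push Not at hlt
    exact hc2 y hy.1 y' hy'.1 hne hlt (hy.2.trans hy'.2.symm)
  refine (Finset.sum_le_card_nsmul _ _ _ h1).trans ?_
  rw [Finset.card_range, nsmul_eq_mul]
  have h2 : ((⌊2 * τ / σ⌋₊ : ℕ) : ℝ) ≤ 2 * τ / σ := Nat.floor_le (by positivity)
  have h3 : 1 ≤ τ / σ := by rw [le_div_iff₀ hσ]; linarith
  have h4 : 2 * τ / σ = 2 * (τ / σ) := by ring
  have h5 : 0 ≤ CH * bb x := mul_nonneg hCH (hbb x)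
  push_cast
  calc ((⌊2 * τ / σ⌋₊ : ℝ) + 1) * (CH * bb x) ≤ (4 * (τ / σ)) * (CH * bb x) := by
        apply mul_le_mul_of_nonneg_right _ h5
        linarith
    _ = 4 * (τ / σ) * CH * bb x := by ring

end Pool.Agent.H729R2.FO
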