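import Mathlib
import Pool.Agent.H729R2.FO.Stubs2

/-!
First part of the decomposition theorem: the corrected function.
-/

set_option autoImplicit false

namespace Pool.Agent.H729R2.FO

open MeasureTheory Pool.Agent.H729R2.CB Pool.Agent.Helper150.Cub

open scoped Classical

theorem dea_cint (f : G → ℝ) (hf : Continuous f) : Integrable f hm :=
  hf.integrable_of_hasCompactSupport (HasCompactSupport.of_compactSpace f)

theorem dea_bdd (f : G → ℝ) (hf : Continuous f) : ∃ B, ∀ x, |f x| ≤ B := by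
  obtain ⟨B, hB⟩ := isCompact_univ.exists_bound_of_continuousOn hf.continuousOn
  exact ⟨B, fun x => hB x (Set.mem_univ x)⟩

theorem dea_pos (β D : ℝ) (cr : G → ℝ) (x : G) : 0 < bbf β D cr x := by
  unfold bbf
  exact Real.rpow_pos_of_pos (lt_of_lt_of_le one_pos (le_max_left _ _)) _

theorem dea_le (β D : ℝ) (hβ : 0 ≤ β) (cr : G → ℝ) (x : G) : bbf β D cr x ≤ 1 := by
  unfold bbf
  exact Real.rpow_le_one_of_one_le_of_nonpos (le_max_left _ _) (by linarith)

theorem dea_har (τ β D : ℝ) (b : ℕ) (hτ : 0 ≤ τ) (hβ : 0 ≤ β) (hD : 1 ≤ D) (cr : G → ℝ)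
    (hc : ∀ x y, cr x ≤ (1 + 2 ^ b * ‖x - y‖) ^ τ * cr y) (x y : G) :
    bbf β D cr x ≤ (1 + 2 ^ b * ‖x - y‖) ^ (τ * β) * bbf β D cr y := by
  unfold bbf
  set w : ℝ := 1 + 2 ^ b * ‖x - y‖ with hw
  have hw1 : 1 ≤ w := by
    rw [hw]
    have : (0 : ℝ) ≤ 2 ^ b * ‖x - y‖ := by positivity
    linarith
  have hw0 : 0 < w := by linarith
  have hwτ : 1 ≤ w ^ τ := Real.one_le_rpow hw1 hτ
  set m : ℝ := max 1 (cr x / D) with hm
  set n : ℝ := max 1 (cr y / D) with hn
  have hm1 : 1 ≤ m := le_max_left _ _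
  have hn1 : 1 ≤ n := le_max_left _ _
  have hm0 : 0 < m := by linarith
  have hn0 : 0 < n := by linarith
  have h1 : n ≤ w ^ τ * m := by
    refine max_le ?_ ?_
    · nlinarith
    · have h2 := hc y x
      rw [norm_sub_rev] at h2
      have h3 : cr y / D ≤ w ^ τ * (cr x / D) := by
        rw [← mul_div_assoc]
        exact div_le_div_of_nonneg_right h2 (by linarith)
      exact h3.trans (mul_le_mul_of_nonneg_left (le_max_right _ _) (by linarith))
  have h3 : n ^ β ≤ w ^ (τ * β) * m ^ β := by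
    have := Real.rpow_le_rpow hn0.le h1 hβ
    rwa [Real.mul_rpow (by positivity) hm0.le, ← Real.rpow_mul hw0.le] at this
  rw [Real.rpow_neg hm0.le, Real.rpow_neg hn0.le]
  have hmβ : 0 < m ^ β := Real.rpow_pos_of_pos hm0 _
  have hnβ : 0 < n ^ β := Real.rpow_pos_of_pos hn0 _
  rw [← div_eq_mul_inv, inv_eq_one_div, div_le_div_iff₀ hmβ hnβ, one_mul]
  exact h3

theorem t_DEA (hC : S_CC) (hS : S_SEP) : S_DEA := by
  intro r a C z₀ F M K Y hk τ β C₁ hτ hβ hβ2 hτβ hC₁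
  have ha3 := hk.ha3
  set γ : ℝ := τ * β with hγ
  have hγ1 : 0 ≤ γ := by positivity
  have hγ2 : γ ≤ 2 := by linarith
  obtain ⟨CS, hCS, -, hsep⟩ := hS (a - γ) (by linarith)
  have hCH : (1 : ℝ) ≤ max 9 (2 * CS) := le_trans (by norm_num) (le_max_left _ _)
  obtain ⟨C₂, β₁, hC₂, hβ₁, hcc⟩ := hC r a C z₀ F M K Y hk (max 9 (2 * CS)) hCH
  refine ⟨1 + 16 * C₂, β₁, by linarith, hβ₁, ?_⟩
  intro β₀ J₁ D₀ b j₀ Jm X cr U h D A c₁ hβ₀ hD hb hj hgau hU hA hUb hUl hUc hh hc₁ hEQ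
  set t₀ : ℝ := ta β₀ b j₀ with ht₀
  have ht0 : 0 < t₀ := by
    rw [ht₀]
    unfold ta
    positivity
  have ht1 : t₀ ≤ (1 / 2) ^ b := by
    rw [ht₀]
    unfold ta
    exact pow_le_pow_of_le_one (by norm_num) (by norm_num) (Nat.le_add_right _ _)
  have h2b : (2 : ℝ) ^ b * (1 / 2) ^ b = 1 := by
    rw [← mul_pow]
    norm_num
  have h2t : (2 : ℝ) ^ b * t₀ ≤ 1 := by
    rw [← h2b]
    exact mul_le_mul_of_nonneg_left ht1 (by positivity)
  have hhar := dea_har τ β D b (by linarith) (by linarith) hD cr hgau.harn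
  rw [← hγ] at hhar
  have hpos := dea_pos β D cr
  have hle := dea_le β D (by linarith) cr
  have hHcc : Hcc a (max 9 (2 * CS)) β₀ b j₀ X (fun x => 16 * A * bbf β D cr x) U (16 * A) := by
    constructor
    · exact hU
    · intro x
      have := (hpos x).le
      positivity
    · intro x
      have := hle x
      nlinarith
    · intro x y hxy
      have h1 := hhar x y
      have h2 : (1 + 2 ^ b * ‖x - y‖) ^ γ ≤ 9 := by
        have h3 : 1 + 2 ^ b * ‖x - y‖ ≤ 3 := by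
          have : (2 : ℝ) ^ b * ‖x - y‖ ≤ 2 ^ b * (2 * t₀) :=
            mul_le_mul_of_nonneg_left hxy (by positivity)
          nlinarith
        have h4 : (0 : ℝ) ≤ 1 + 2 ^ b * ‖x - y‖ := by positivity
        calc (1 + 2 ^ b * ‖x - y‖) ^ γ ≤ 3 ^ γ := Real.rpow_le_rpow h4 h3 hγ1
          _ ≤ 3 ^ (2 : ℝ) := Real.rpow_le_rpow_of_exponent_le (by norm_num) hγ2
          _ = 9 := by norm_num
      have h5 : bbf β D cr x ≤ max 9 (2 * CS) * bbf β D cr y :=
        h1.trans (mul_le_mul_of_nonneg_right (h2.trans (le_max_left _ _)) (hpos y).le)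
      show 16 * A * bbf β D cr x ≤ max 9 (2 * CS) * (16 * A * bbf β D cr y)
      calc 16 * A * bbf β D cr x ≤ 16 * A * (max 9 (2 * CS) * bbf β D cr y) :=
            mul_le_mul_of_nonneg_left h5 (by positivity)
        _ = _ := by ring
    · intro S hSs x
      have h1 := hsep S t₀ t₀ x ht0 ht0 hSs
      have h2 : ∑ y ∈ S, 16 * A * bbf β D cr y * (1 + ‖x - y‖ / t₀) ^ (-a) ≤
          ∑ y ∈ S, 16 * A * bbf β D cr x * (1 + ‖x - y‖ / t₀) ^ (-(a - γ)) := by
        refine Finset.sum_le_sum fun y _ => ?_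
        have h3 := hhar y x
        rw [norm_sub_rev] at h3
        have h4 : (0 : ℝ) < 1 + ‖x - y‖ / t₀ := by positivity
        have h5 : (1 + 2 ^ b * ‖x - y‖) ^ γ ≤ (1 + ‖x - y‖ / t₀) ^ γ := by
          refine Real.rpow_le_rpow (by positivity) ?_ hγ1
          have h6 : (2 : ℝ) ^ b * ‖x - y‖ ≤ ‖x - y‖ / t₀ := by
            rw [le_div_iff₀ ht0]
            calc (2 : ℝ) ^ b * ‖x - y‖ * t₀ = ‖x - y‖ * (2 ^ b * t₀) := by ring
              _ ≤ ‖x - y‖ * 1 := mul_le_mul_of_nonneg_left h2t (norm_nonneg _)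
              _ = ‖x - y‖ := mul_one _
          linarith
        have h7 : bbf β D cr y ≤ (1 + ‖x - y‖ / t₀) ^ γ * bbf β D cr x :=
          h3.trans (mul_le_mul_of_nonneg_right h5 (hpos x).le)
        have h8 : (1 + ‖x - y‖ / t₀) ^ (-(a - γ)) =
            (1 + ‖x - y‖ / t₀) ^ γ * (1 + ‖x - y‖ / t₀) ^ (-a) := by
          rw [← Real.rpow_add h4]
          congr 1
          ring
        rw [h8]
        have h9 : (0 : ℝ) ≤ (1 + ‖x - y‖ / t₀) ^ (-a) := by positivity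
        calc 16 * A * bbf β D cr y * (1 + ‖x - y‖ / t₀) ^ (-a)
            ≤ 16 * A * ((1 + ‖x - y‖ / t₀) ^ γ * bbf β D cr x) * (1 + ‖x - y‖ / t₀) ^ (-a) := by
              refine mul_le_mul_of_nonneg_right ?_ h9
              exact mul_le_mul_of_nonneg_left h7 (by positivity)
          _ = _ := by ring
      refine h2.trans ?_
      rw [← Finset.mul_sum]
      have h10 : ∑ y ∈ S, (1 + ‖x - y‖ / t₀) ^ (-(a - γ)) ≤ max 9 (2 * CS) := by
        refine h1.trans ?_
        rw [div_self ht0.ne']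
        exact le_trans (by linarith) (le_max_right _ _)
      have h11 := (hpos x).le
      calc 16 * A * bbf β D cr x * ∑ y ∈ S, (1 + ‖x - y‖ / t₀) ^ (-(a - γ))
          ≤ 16 * A * bbf β D cr x * max 9 (2 * CS) :=
            mul_le_mul_of_nonneg_left h10 (by positivity)
        _ = _ := by ring
    · intro ξ _ x hx
      have h1 := hhar x ξ
      have h2 : (1 + 2 ^ b * ‖x - ξ‖) ^ γ ≤ 16 := by
        have h3 : 1 + 2 ^ b * ‖x - ξ‖ ≤ 2 := by
          have : (2 : ℝ) ^ b * ‖x - ξ‖ ≤ 2 ^ b * t₀ :=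
            mul_le_mul_of_nonneg_left hx (by positivity)
          linarith
        have h4 : (0 : ℝ) ≤ 1 + 2 ^ b * ‖x - ξ‖ := by positivity
        calc (1 + 2 ^ b * ‖x - ξ‖) ^ γ ≤ 2 ^ γ := Real.rpow_le_rpow h4 h3 hγ1
          _ ≤ 2 ^ (2 : ℝ) := Real.rpow_le_rpow_of_exponent_le (by norm_num) hγ2
          _ ≤ 16 := by norm_num
      have h5 : bbf β D cr x ≤ 16 * bbf β D cr ξ :=
        h1.trans (mul_le_mul_of_nonneg_right h2 (hpos ξ).le)
      calc |U x| ≤ A * bbf β D cr x := hUb x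
        _ ≤ A * (16 * bbf β D cr ξ) := mul_le_mul_of_nonneg_left h5 hA
        _ = _ := by ring
    · intro ξ hξ x y hx hy
      refine (hUl ξ hξ x y hx hy).trans ?_
      have h1 := (hpos ξ).le
      have h2 : 0 ≤ A * bbf β D cr ξ * (‖x - y‖ / t₀) := by positivity
      calc A * bbf β D cr ξ * (‖x - y‖ / t₀) ≤ 16 * (A * bbf β D cr ξ * (‖x - y‖ / t₀)) := by
            linarith
        _ = _ := by ring
  obtain ⟨ψ, hψ⟩ := hcc β₀ hβ₀ b j₀ Jm X _ U (16 * A) hb hj hHcc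
  have hψc := hψ.cont
  have huc : Continuous fun x => U x + ψ x := hU.add hψc
  refine ⟨fun x => U x + ψ x, huc, ?_, ?_, ?_, ?_⟩
  · have h1 := hEQ ψ hψc.measurable (dea_bdd ψ hψc) hψ.node
    have h2 : ∫ x, h x * (U x + ψ x) ∂hm = (∫ x, h x * U x ∂hm) + ∫ x, h x * ψ x ∂hm := by
      have e := integral_add (dea_cint (fun x => h x * U x) (hh.mul hU))
        (dea_cint (fun x => h x * ψ x) (hh.mul hψc))
      rw [← e]
      refine integral_congr_ae (Filter.Eventually.of_forall fun x => ?_)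
      show h x * (U x + ψ x) = h x * U x + h x * ψ x
      ring
    rw [h2, h1]
    have h3 : (∫ x, h x * U x ∂hm) - ((∫ x, h x * U x ∂hm) + -c₁ * ∫ x, ψ x ∂hm) =
        c₁ * ∫ x, ψ x ∂hm := by ring
    rw [h3, abs_mul, abs_of_nonneg hc₁]
    have h4 : |∫ x, ψ x ∂hm| ≤ C₂ * (16 * A) * X.card * ((1 / 2) ^ b) ^ (1 + r) := by
      refine hψ.int.trans ?_
      have h5 : t₀ ^ (1 + r) ≤ ((1 / 2) ^ b) ^ (1 + r) :=
        Real.rpow_le_rpow ht0.le ht1 (by linarith [hk.hr])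
      exact mul_le_mul_of_nonneg_left h5 (by positivity)
    have h6 : (0 : ℝ) ≤ A * (c₁ * X.card * ((1 / 2) ^ b) ^ (1 + r)) := by positivity
    calc c₁ * |∫ x, ψ x ∂hm| ≤ c₁ * (C₂ * (16 * A) * X.card * ((1 / 2) ^ b) ^ (1 + r)) :=
          mul_le_mul_of_nonneg_left h4 hc₁
      _ = 16 * C₂ * (A * (c₁ * X.card * ((1 / 2) ^ b) ^ (1 + r))) := by ring
      _ ≤ (1 + 16 * C₂) * (A * (c₁ * X.card * ((1 / 2) ^ b) ^ (1 + r))) :=
          mul_le_mul_of_nonneg_right (by linarith) h6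
      _ = _ := by ring
  · intro x
    have hp := (hpos x).le
    have hAp : 0 ≤ A * bbf β D cr x := by positivity
    by_cases hfar : ∀ ξ ∈ X, t₀ ≤ ‖x - ξ‖
    · have h1 := hψ.far x hfar
      have h2 := hUb x
      calc |U x + ψ x| ≤ |U x| + |ψ x| := abs_add_le _ _
        _ ≤ A * bbf β D cr x + C₂ * (16 * A * bbf β D cr x) := add_le_add h2 h1
        _ = _ := by ring
    · push Not at hfar
      have h1 := hψ.near x j₀ le_rfl hj hfar
      rw [Nat.sub_self, Nat.zero_sub, pow_zero, mul_one] at h1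
      calc |U x + ψ x| ≤ C₂ * (16 * A * bbf β D cr x) := h1
        _ = 16 * C₂ * (A * bbf β D cr x) := by ring
        _ ≤ (1 + 16 * C₂) * (A * bbf β D cr x) :=
            mul_le_mul_of_nonneg_right (by linarith) hAp
        _ = _ := by ring
  · intro x j hj1 hj2 hx
    have h1 := hψ.near x j hj1 hj2 hx
    have hnn : nn X x (2 * t₀) ≤ nn X x (2 * (1 / 2) ^ b) := by
      unfold nn
      refine Finset.card_le_card fun ξ hξ => ?_
      rw [Finset.mem_filter] at hξ ⊢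
      exact ⟨hξ.1, hξ.2.trans_le (by linarith)⟩
    have h2 : ((1 : ℝ) / 2) ^ (j - j₀ - nn X x (2 * t₀)) ≤
        (1 / 2) ^ (j - j₀ - nn X x (2 * (1 / 2) ^ b)) :=
      pow_le_pow_of_le_one (by norm_num) (by norm_num) (by omega)
    have hp := (hpos x).le
    have h3 : C₂ * (16 * A * bbf β D cr x) ≤ (1 + 16 * C₂) * A := by
      have h4 : 16 * C₂ * A * bbf β D cr x ≤ 16 * C₂ * A * 1 :=
        mul_le_mul_of_nonneg_left (hle x) (by positivity)
      calc C₂ * (16 * A * bbf β D cr x) = 16 * C₂ * A * bbf β D cr x := by ring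
        _ ≤ 16 * C₂ * A * 1 := h4
        _ ≤ _ := by nlinarith
    refine h1.trans ?_
    exact mul_le_mul h3 h2 (by positivity) (by positivity)
  · intro j i
    have h1 := hψ.cell j i
    have h2 := hUc j i
    have h3 : ∫ x in Cell j i, (U x + ψ x) ∂hm =
        (∫ x in Cell j i, U x ∂hm) + ∫ x in Cell j i, ψ x ∂hm :=
      integral_add (dea_cint _ hU).integrableOn (dea_cint _ hψc).integrableOn
    have h4 : C₂ * (16 * A) * t₀ ≤ C₂ * (16 * A) * (1 / 2) ^ b :=
      mul_le_mul_of_nonneg_left ht1 (by positivity)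
    rw [h3]
    calc |(∫ x in Cell j i, U x ∂hm) + ∫ x in Cell j i, ψ x ∂hm|
        ≤ |∫ x in Cell j i, U x ∂hm| + |∫ x in Cell j i, ψ x ∂hm| := abs_add_le _ _
      _ ≤ A * (1 / 2) ^ b + C₂ * (16 * A) * (1 / 2) ^ b := add_le_add h2 (h1.trans h4)
      _ = _ := by ring

end Pool.Agent.H729R2.FO
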