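import Mathlib
import Pool.Agent.H729R2.FO.Stubs

set_option autoImplicit false

namespace Pool.Agent.H729R2.FO

open MeasureTheory Pool.Agent.H729R2.CB Pool.Agent.Helper150.Cub

open scoped Classical

noncomputable section

theorem dec_NN_nonneg (b D : ℕ) (S : Set G) (h : G → ℝ) : 0 ≤ NN b D S h := by
  unfold NN
  by_cases hb : BddAbove {t | ∃ v, Adm b D S v ∧ t = ∫ x, h x * v x ∂hm}
  · apply le_csSup hb
    refine ⟨fun _ => 0, ⟨measurable_const, by simp, by simp, by simp⟩, by simp⟩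
  · rw [Real.sSup_of_not_bddAbove hb]

theorem dec_TT_mono (β₀ : ℕ) : Monotone (TT β₀) := by
  intro i j hij
  unfold TT
  exact Finset.sum_le_sum_of_subset (Finset.range_subset_range.2 hij)

theorem dec_ta_pos (β₀ b j : ℕ) : 0 < ta β₀ b j := by unfold ta; positivity

theorem dec_ta_anti (β₀ b : ℕ) : Antitone (ta β₀ b) := by
  intro i j hij
  unfold ta
  exact pow_le_pow_of_le_one (by norm_num) (by norm_num) (by have := dec_TT_mono β₀ hij; omega)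

theorem dec_ta_le (β₀ b j : ℕ) : ta β₀ b j ≤ (1 / 2) ^ b := by
  unfold ta
  exact pow_le_pow_of_le_one (by norm_num) (by norm_num) (by omega)

theorem dec_bbf_nonneg (β D : ℝ) (cr : G → ℝ) (x : G) : 0 ≤ bbf β D cr x := by
  unfold bbf; positivity

theorem dec_bbf_le_one (β D : ℝ) (hβ : 0 ≤ β) (cr : G → ℝ) (x : G) : bbf β D cr x ≤ 1 := by
  unfold bbf
  exact Real.rpow_le_one_of_one_le_of_nonpos (le_max_left _ _) (by linarith)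

theorem dec_bbf_har (τ β D : ℝ) (hτ : 0 ≤ τ) (hβ : 0 ≤ β) (hD : 0 < D) (b : ℕ) (cr : G → ℝ)
    (hh : ∀ x y, cr x ≤ (1 + 2 ^ b * ‖x - y‖) ^ τ * cr y) (x y : G) :
    bbf β D cr x ≤ (1 + 2 ^ b * ‖x - y‖) ^ (τ * β) * bbf β D cr y := by
  unfold bbf
  set w : ℝ := 1 + 2 ^ b * ‖x - y‖ with hw
  have hw1 : 1 ≤ w := by
    have : 0 ≤ 2 ^ b * ‖x - y‖ := by positivity
    linarith
  have hw0 : 0 < w := by linarith
  have hwt : 1 ≤ w ^ τ := Real.one_le_rpow hw1 hτ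
  have hmx : 1 ≤ max 1 (cr x / D) := le_max_left _ _
  have hmy : 1 ≤ max 1 (cr y / D) := le_max_left _ _
  have key : max 1 (cr y / D) ≤ w ^ τ * max 1 (cr x / D) := by
    apply max_le
    · nlinarith
    · have h1 := hh y x
      rw [norm_sub_rev, ← hw] at h1
      calc cr y / D ≤ (w ^ τ * cr x) / D := by gcongr
        _ = w ^ τ * (cr x / D) := by ring
        _ ≤ w ^ τ * max 1 (cr x / D) := by
            apply mul_le_mul_of_nonneg_left (le_max_right _ _) (by positivity)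
  have h2 : (w ^ τ * max 1 (cr x / D)) ^ (-β) ≤ (max 1 (cr y / D)) ^ (-β) :=
    Real.rpow_le_rpow_of_nonpos (by linarith) key (by linarith)
  rw [Real.mul_rpow (by positivity) (by positivity), ← Real.rpow_mul hw0.le] at h2
  have h3 : w ^ (τ * β) * (w ^ (τ * -β) * (max 1 (cr x / D)) ^ (-β)) ≤
      w ^ (τ * β) * (max 1 (cr y / D)) ^ (-β) :=
    mul_le_mul_of_nonneg_left h2 (by positivity)
  rw [← mul_assoc, ← Real.rpow_add hw0] at h3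
  have h4 : τ * β + τ * -β = 0 := by ring
  rw [h4, Real.rpow_zero, one_mul] at h3
  exact h3

theorem dec_theta (β : ℝ) (h1 : 0 < β) (h2 : β ≤ 2) :
    1 / 4 ≤ (2 : ℝ) ^ (-β) ∧ (2 : ℝ) ^ (-β) ≤ 1 := by
  constructor
  · have : (2 : ℝ) ^ (-(2:ℝ)) ≤ (2 : ℝ) ^ (-β) :=
      Real.rpow_le_rpow_of_exponent_le (by norm_num) (by linarith)
    have h3 : (2 : ℝ) ^ (-(2:ℝ)) = 1 / 4 := by
      rw [Real.rpow_neg (by norm_num)]
      norm_num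
    rw [h3] at this
    exact this
  · exact Real.rpow_le_one_of_one_le_of_nonpos (by norm_num) (by linarith)

theorem dec_bbf_le (β κ : ℝ) (D₀ l l' : ℕ) (hβ0 : 0 ≤ β) (hβ2 : β ≤ 2) (hκ : 1 ≤ κ) (hD₀ : 1 ≤ D₀)
    (hl : l ≤ l') (cr : G → ℝ) (x : G) (hx : (D₀ : ℝ) * 2 ^ l' ≤ κ * cr x) :
    bbf β (D₀ * 2 ^ l) cr x ≤ κ ^ 2 * ((2 : ℝ) ^ (-β)) ^ (l' - l) := by
  unfold bbf
  have hD0 : (0 : ℝ) < D₀ := by exact_mod_cast hD₀
  have hDl : (0 : ℝ) < D₀ * 2 ^ l := by positivity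
  have hκ0 : 0 < κ := by linarith
  have h1 : (2 : ℝ) ^ (l' - l) / κ ≤ cr x / (D₀ * 2 ^ l) := by
    rw [div_le_div_iff₀ hκ0 hDl]
    have : (2 : ℝ) ^ (l' - l) * (D₀ * 2 ^ l) = D₀ * 2 ^ l' := by
      have h : l' - l + l = l' := by omega
      calc (2 : ℝ) ^ (l' - l) * (D₀ * 2 ^ l) = D₀ * (2 ^ (l' - l) * 2 ^ l) := by ring
        _ = D₀ * 2 ^ l' := by rw [← pow_add, h]
    rw [this]
    linarith
  have h2 : (2 : ℝ) ^ (l' - l) / κ ≤ max 1 (cr x / (D₀ * 2 ^ l)) := h1.trans (le_max_right _ _)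
  have h3 : (max 1 (cr x / (D₀ * 2 ^ l))) ^ (-β) ≤ ((2 : ℝ) ^ (l' - l) / κ) ^ (-β) :=
    Real.rpow_le_rpow_of_nonpos (by positivity) h2 (by linarith)
  refine h3.trans ?_
  rw [Real.div_rpow (by positivity) hκ0.le]
  have h4 : ((2 : ℝ) ^ (l' - l)) ^ (-β) = ((2 : ℝ) ^ (-β)) ^ (l' - l) := by
    rw [← Real.rpow_natCast, ← Real.rpow_mul (by norm_num), ← Real.rpow_natCast ((2:ℝ)^(-β)),
      ← Real.rpow_mul (by norm_num), mul_comm]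
  have h5 : κ ^ β ≤ κ ^ 2 := by
    rw [← Real.rpow_natCast κ 2]
    exact Real.rpow_le_rpow_of_exponent_le hκ (by norm_num; exact hβ2)
  rw [h4, Real.rpow_neg hκ0.le, div_inv_eq_mul, mul_comm]
  exact mul_le_mul_of_nonneg_right h5 (by positivity)

theorem dec_num (θ C₁ C₂ A : ℝ) (l l' : ℕ) (hθ : 1 / 4 ≤ θ) (hC₁ : 1 ≤ C₁) (hC₂ : 1 ≤ C₂)
    (hA : 0 ≤ A) (hl : l ≤ l') :
    17 * C₂ * A * (C₁ ^ 2 * ((l' : ℝ) + 1) ^ 4 * θ ^ (l' - l)) ≤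
      68 * C₂ * C₁ ^ 2 * A * WW θ l (l' + 1) := by
  unfold WW
  have h1 : l' + 1 - l = (l' - l) + 1 := by omega
  rw [h1, pow_succ θ]
  push_cast
  have hl0 : (0 : ℝ) ≤ l' := Nat.cast_nonneg _
  have h2 : ((l' : ℝ) + 1) ^ 4 ≤ ((l' : ℝ) + 1 + 2) ^ 6 := by
    calc ((l' : ℝ) + 1) ^ 4 ≤ ((l' : ℝ) + 1 + 2) ^ 4 :=
          pow_le_pow_left₀ (by linarith) (by linarith) 4
      _ ≤ ((l' : ℝ) + 1 + 2) ^ 6 := pow_le_pow_right₀ (by linarith) (by norm_num)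
  have hθ0 : 0 < θ := by linarith
  have h3 : 0 ≤ 17 * C₂ * A * C₁ ^ 2 * θ ^ (l' - l) := by positivity
  calc 17 * C₂ * A * (C₁ ^ 2 * ((l' : ℝ) + 1) ^ 4 * θ ^ (l' - l))
      = 17 * C₂ * A * C₁ ^ 2 * θ ^ (l' - l) * ((l' : ℝ) + 1) ^ 4 := by ring
    _ ≤ 17 * C₂ * A * C₁ ^ 2 * θ ^ (l' - l) * ((l' : ℝ) + 1 + 2) ^ 6 :=
        mul_le_mul_of_nonneg_left h2 h3
    _ = 68 * C₂ * A * C₁ ^ 2 * θ ^ (l' - l) * ((l' : ℝ) + 1 + 2) ^ 6 * (1 / 4) := by ring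
    _ ≤ 68 * C₂ * A * C₁ ^ 2 * θ ^ (l' - l) * ((l' : ℝ) + 1 + 2) ^ 6 * θ :=
        mul_le_mul_of_nonneg_left hθ (by positivity)
    _ = _ := by ring

theorem dec_WW (θ : ℝ) (l l' : ℕ) (hθ0 : 0 ≤ θ) (hθ : θ ≤ 1) (hl : l ≤ l') :
    WW θ l (l' + 1) ≤ 12 * WW θ l l' := by
  unfold WW
  have h1 : l' + 1 - l = (l' - l) + 1 := by omega
  rw [h1, pow_succ θ]
  push_cast
  have hl0 : (0 : ℝ) ≤ l' := Nat.cast_nonneg _
  have h2 : ((l' : ℝ) + 1 + 2) ^ 6 ≤ 12 * ((l' : ℝ) + 2) ^ 6 := by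
    calc ((l' : ℝ) + 1 + 2) ^ 6 ≤ (3 / 2 * ((l' : ℝ) + 2)) ^ 6 := by gcongr; linarith
      _ = (729 / 64) * ((l' : ℝ) + 2) ^ 6 := by ring
      _ ≤ 12 * ((l' : ℝ) + 2) ^ 6 := by
          apply mul_le_mul_of_nonneg_right (by norm_num) (by positivity)
  have h4 : θ ^ (l' - l) * θ ≤ θ ^ (l' - l) * 1 := mul_le_mul_of_nonneg_left hθ (by positivity)
  calc ((l' : ℝ) + 1 + 2) ^ 6 * (θ ^ (l' - l) * θ) ≤ (12 * ((l' : ℝ) + 2) ^ 6) * (θ ^ (l' - l) * 1) := by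
        apply mul_le_mul h2 h4 (by positivity) (by positivity)
    _ = _ := by ring

theorem dec_WW_nonneg (θ : ℝ) (l l' : ℕ) (hθ0 : 0 ≤ θ) : 0 ≤ WW θ l l' := by
  unfold WW; positivity

theorem dec_two_pow (n : ℕ) : 2 * n ≤ 2 ^ n := by
  induction n with
  | zero => simp
  | succ n ih =>
    rcases Nat.eq_zero_or_pos n with h | h
    · subst h; norm_num
    · rw [pow_succ]
      have : 2 ≤ 2 ^ n := by
        calc 2 = 2 ^ 1 := by norm_num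
          _ ≤ 2 ^ n := Nat.pow_le_pow_right (by norm_num) h
      omega

/-- `2^{-m} ≤ θ^{l'-l}` if `m ≥ 2 l'` -/
theorem dec_half_pow (θ : ℝ) (l l' m : ℕ) (hθ : 1 / 4 ≤ θ) (hm : 2 * l' ≤ m) :
    (1 / 2 : ℝ) ^ m ≤ θ ^ (l' - l) := by
  calc (1 / 2 : ℝ) ^ m ≤ (1 / 2 : ℝ) ^ (2 * (l' - l)) :=
        pow_le_pow_of_le_one (by norm_num) (by norm_num) (by omega)
    _ = (1 / 4 : ℝ) ^ (l' - l) := by rw [pow_mul]; norm_num
    _ ≤ θ ^ (l' - l) := by gcongr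

theorem dec_Gs_meas (β₀ J₁ D b : ℕ) (X : Finset G) (cr : G → ℝ) (hm : Measurable cr) :
    MeasurableSet (Gs β₀ J₁ D b X cr) := by
  have : Gs β₀ J₁ D b X cr = {x | cr x ≤ D} ∩ ⋂ ξ ∈ X, {x | ta β₀ b (J₁ * D) ≤ ‖x - ξ‖} := by
    ext x; simp [Gs]
  rw [this]
  apply MeasurableSet.inter
  · exact measurableSet_le hm measurable_const
  · apply Finset.measurableSet_biInter
    intro ξ _
    exact measurableSet_le measurable_const (by fun_prop)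

theorem dec_Gs_mono (β₀ J₁ b : ℕ) (X : Finset G) (cr : G → ℝ) :
    Monotone (fun D => Gs β₀ J₁ D b X cr) := by
  intro D D' hDD x hx
  obtain ⟨h1, h2⟩ := hx
  refine ⟨h1.trans (by exact_mod_cast hDD), fun ξ hξ => le_trans ?_ (h2 ξ hξ)⟩
  exact dec_ta_anti β₀ b (Nat.mul_le_mul_left _ hDD)

theorem dec_nn_mono (X : Finset G) (x : G) {ρ ρ' : ℝ} (h : ρ ≤ ρ') : nn X x ρ ≤ nn X x ρ' := by
  unfold nn
  apply Finset.card_le_card
  intro ξ hξ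
  simp only [Finset.mem_filter] at hξ ⊢
  exact ⟨hξ.1, hξ.2.trans_le h⟩

theorem dec_fin1 (C₁ C₂ A E : ℝ) (h1 : 1 ≤ C₁ ^ 2) (h2 : 1 ≤ C₂) (hA : 0 ≤ A) (hE : 0 ≤ E) :
    16 * C₂ * A * E ≤ 10 ^ 4 * C₂ * C₁ ^ 2 * A * E := by
  apply mul_le_mul_of_nonneg_right _ hE
  have : 0 ≤ C₂ * A := by positivity
  nlinarith

theorem dec_fin2 (Q Sg W E : ℝ) (hQ : 0 ≤ Q) (hS : 0 ≤ Sg) (hW : 0 ≤ W) :
    (4 * (13 * (68 * Q) * Sg) + 4 * (12 * (68 * Q) * W)) + 10 ^ 4 * Q * E ≤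
      10 ^ 4 * Q * (Sg + W + E) := by
  have h1 : 0 ≤ Q * Sg := by positivity
  have h2 : 0 ≤ Q * W := by positivity
  nlinarith

theorem dec_fin3 (P J V Sr Sg Wr W E Q : ℝ) (hQ : 0 ≤ Q) (hS : 0 ≤ Sg) (hW : 0 ≤ W)
    (habs : P ≤ V + J) (htra : V ≤ 4 * Sr + 4 * Wr) (hsr : Sr ≤ 13 * (68 * Q) * Sg)
    (hwr : Wr ≤ 12 * (68 * Q) * W) (hJ : J ≤ 10 ^ 4 * Q * E) : P ≤ 10 ^ 4 * Q * (Sg + W + E) := by
  have := dec_fin2 Q Sg W E hQ hS hW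
  linarith

theorem dec_kap (C₁ : ℝ) (l' : ℕ) (hC₁ : 1 ≤ C₁) : 1 ≤ C₁ * ((l' : ℝ) + 1) ^ 2 := by
  have hl0 : (0 : ℝ) ≤ l' := Nat.cast_nonneg _
  have h2 : 1 ≤ ((l' : ℝ) + 1) ^ 2 := one_le_pow₀ (by linarith)
  nlinarith

theorem dec_main (r a C z₀ : ℝ) (F : G → ℝ) (M K Y : ℝ → G → ℝ) (hK : Kn r a C z₀ F M K Y)
    (τ β C₁ CS C₂ : ℝ) (hτ : 1 < τ) (hβ1 : 1 < β) (hβ2 : β < 2) (hτβ : τ * β < a - 1) (hC₁ : 1 ≤ C₁)
    (hCS1 : 1 ≤ CS)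
    (hCS : ∀ (S : Finset G) (σ s : ℝ) (x : G), 0 < σ → 0 < s → Sepd σ S →
      ∑ y ∈ S, (1 + ‖x - y‖ / s) ^ (-(a - τ * β)) ≤ CS * (1 + s / σ))
    (hC₂ : 1 ≤ C₂) (β₀ : ℕ)
    (hcc : ∀ (b j₀ Jm : ℕ) (X : Finset G) (bb U : G → ℝ) (B : ℝ),
      (1 / 2) ^ b ≤ z₀ → j₀ ≤ Jm → Hcc a (9 + 2 * CS) β₀ b j₀ X bb U B →
      ∃ ψ : G → ℝ, Occ r C₂ F β₀ b j₀ Jm X bb U B ψ)
    (hT : S_TRA) (e₀ J₁ D₀ b L l j₀ : ℕ) (X : Finset G) (cr U h : G → ℝ) (A H c₁ : ℝ)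
    (hJ₁ : 2 * (⌈C₁⌉₊ + 12 + e₀) ≤ J₁) (hD₀ : 1 ≤ D₀) (hz : (1 / 2) ^ b ≤ z₀)
    (hLb : 2 * (L + 1) ≤ b) (hlL : l ≤ L) (hj₀ : j₀ ≤ J₁ * (D₀ * 2 ^ l) + 1 + (e₀ + 10 * l))
    (hG : Gau τ C₁ β₀ J₁ D₀ b X cr) (hU : Continuous U) (hA : 0 ≤ A)
    (hUb : ∀ x, |U x| ≤ A * bbf β (D₀ * 2 ^ l) cr x)
    (hUl : ∀ ξ ∈ X, ∀ x y, ‖x - ξ‖ ≤ ta β₀ b j₀ → ‖y - ξ‖ ≤ ta β₀ b j₀ →
      |U x - U y| ≤ A * bbf β (D₀ * 2 ^ l) cr ξ * (‖x - y‖ / ta β₀ b j₀))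
    (hUc : ∀ j i, |∫ x in Cell j i, U x ∂hm| ≤ A * (1 / 2) ^ b)
    (hh : Continuous h) (hH : ∀ x, |h x| ≤ H) (hc₁ : 0 ≤ c₁) (hEQ : EQ F X c₁ h) :
    |∫ x, h x * U x ∂hm| ≤ 10 ^ 4 * C₂ * C₁ ^ 2 * A * (∑ l' ∈ Finset.Icc l L,
        WW (2 ^ (-β)) l l' * NN b (D₀ * 2 ^ l') (Gs β₀ J₁ (D₀ * 2 ^ l') b X cr) h
      + WW (2 ^ (-β)) l L * H + c₁ * X.card * ((1 / 2) ^ b) ^ (1 + r)) := by
  have ht0 : 0 < ta β₀ b j₀ := dec_ta_pos _ _ _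
  have htb : ta β₀ b j₀ ≤ (1 / 2) ^ b := dec_ta_le _ _ _
  have hD0 : (0 : ℝ) < D₀ := by exact_mod_cast hD₀
  have hDl : (0 : ℝ) < D₀ * 2 ^ l := by positivity
  have hH0 : 0 ≤ H := (abs_nonneg _).trans (hH 0)
  have hτβ0 : 0 < τ * β := by positivity
  have hτβ2 : τ * β < 2 := by linarith [hK.ha3]
  have hhar := dec_bbf_har τ β (D₀ * 2 ^ l) (by linarith) (by linarith) hDl b cr hG.harn
  have h2b : (2 : ℝ) ^ b * (1 / 2) ^ b = 1 := by rw [← mul_pow]; norm_num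
  have h2b0 : (0 : ℝ) < 2 ^ b := by positivity
  -- local Harnack
  have hloc : ∀ (c : ℕ) (x y : G), ‖x - y‖ ≤ c * ta β₀ b j₀ →
      bbf β (D₀ * 2 ^ l) cr x ≤ (1 + c) ^ 2 * bbf β (D₀ * 2 ^ l) cr y := by
    intro c x y hxy
    refine (hhar x y).trans (mul_le_mul_of_nonneg_right ?_ (dec_bbf_nonneg _ _ _ _))
    have h1 : 1 + 2 ^ b * ‖x - y‖ ≤ 1 + (c : ℝ) := by
      have : 2 ^ b * ‖x - y‖ ≤ 2 ^ b * (c * (1 / 2) ^ b) := by
        apply mul_le_mul_of_nonneg_left _ h2b0.le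
        exact hxy.trans (mul_le_mul_of_nonneg_left htb (Nat.cast_nonneg _))
      have h3 : (2 : ℝ) ^ b * (c * (1 / 2) ^ b) = c := by
        calc (2 : ℝ) ^ b * (c * (1 / 2) ^ b) = c * (2 ^ b * (1 / 2) ^ b) := by ring
          _ = c := by rw [h2b, mul_one]
      linarith
    have h0 : 0 ≤ 1 + 2 ^ b * ‖x - y‖ := by positivity
    calc (1 + 2 ^ b * ‖x - y‖) ^ (τ * β) ≤ (1 + (c : ℝ)) ^ (τ * β) :=
          Real.rpow_le_rpow h0 h1 hτβ0.le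
      _ ≤ (1 + (c : ℝ)) ^ (2 : ℝ) := by
          apply Real.rpow_le_rpow_of_exponent_le _ hτβ2.le
          have : (0 : ℝ) ≤ c := Nat.cast_nonneg _
          linarith
      _ = (1 + (c : ℝ)) ^ 2 := by norm_cast
  set bb : G → ℝ := fun x => 16 * A * bbf β (D₀ * 2 ^ l) cr x with hbb
  have hbb0 : ∀ x, 0 ≤ bb x := fun x => by
    have := dec_bbf_nonneg β (D₀ * 2 ^ l) cr x
    simp only [hbb]; positivity
  have hHcc : Hcc a (9 + 2 * CS) β₀ b j₀ X bb U (16 * A) := by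
    refine ⟨hU, hbb0, ?_, ?_, ?_, ?_, ?_⟩
    · intro x
      have := dec_bbf_le_one β (D₀ * 2 ^ l) (by linarith) cr x
      simp only [hbb]
      nlinarith
    · intro x y hxy
      have h1 := hloc 2 x y (by exact_mod_cast hxy)
      have h0 := dec_bbf_nonneg β (D₀ * 2 ^ l) cr y
      simp only [hbb]
      have h2 : 16 * A * bbf β (D₀ * 2 ^ l) cr x ≤ 16 * A * (9 * bbf β (D₀ * 2 ^ l) cr y) := by
        apply mul_le_mul_of_nonneg_left _ (by positivity)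
        calc _ ≤ _ := h1
          _ = 9 * bbf β (D₀ * 2 ^ l) cr y := by norm_num
      have h3 : 0 ≤ 16 * A * bbf β (D₀ * 2 ^ l) cr y := by positivity
      nlinarith
    · intro S hS x
      have h1 := hCS S (ta β₀ b j₀) (ta β₀ b j₀) x ht0 ht0 hS
      rw [div_self ht0.ne'] at h1
      have h2 : ∀ y ∈ S, bb y * (1 + ‖x - y‖ / ta β₀ b j₀) ^ (-a) ≤
          bb x * (1 + ‖x - y‖ / ta β₀ b j₀) ^ (-(a - τ * β)) := by
        intro y _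
        have hw : 0 < 1 + ‖x - y‖ / ta β₀ b j₀ := by positivity
        have h3 : bbf β (D₀ * 2 ^ l) cr y ≤
            (1 + ‖x - y‖ / ta β₀ b j₀) ^ (τ * β) * bbf β (D₀ * 2 ^ l) cr x := by
          refine (hhar y x).trans (mul_le_mul_of_nonneg_right ?_ (dec_bbf_nonneg _ _ _ _))
          apply Real.rpow_le_rpow (by positivity) _ hτβ0.le
          rw [norm_sub_rev y x]
          have h4 : (2 : ℝ) ^ b ≤ 1 / ta β₀ b j₀ := by
            rw [le_div_iff₀ ht0]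
            calc (2 : ℝ) ^ b * ta β₀ b j₀ ≤ 2 ^ b * (1 / 2) ^ b := by gcongr
              _ = 1 := h2b
          have h5 : (2 : ℝ) ^ b * ‖x - y‖ ≤ 1 / ta β₀ b j₀ * ‖x - y‖ := by gcongr
          calc 1 + (2 : ℝ) ^ b * ‖x - y‖ ≤ 1 + 1 / ta β₀ b j₀ * ‖x - y‖ := by linarith
            _ = 1 + ‖x - y‖ / ta β₀ b j₀ := by ring
        have h6 : (1 + ‖x - y‖ / ta β₀ b j₀) ^ (-(a - τ * β)) =
            (1 + ‖x - y‖ / ta β₀ b j₀) ^ (τ * β) * (1 + ‖x - y‖ / ta β₀ b j₀) ^ (-a) := by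
          rw [← Real.rpow_add hw]
          congr 1; ring
        rw [h6]
        simp only [hbb]
        have h7 : 0 ≤ (1 + ‖x - y‖ / ta β₀ b j₀) ^ (-a) := by positivity
        calc 16 * A * bbf β (D₀ * 2 ^ l) cr y * (1 + ‖x - y‖ / ta β₀ b j₀) ^ (-a)
            ≤ 16 * A * ((1 + ‖x - y‖ / ta β₀ b j₀) ^ (τ * β) * bbf β (D₀ * 2 ^ l) cr x) *
              (1 + ‖x - y‖ / ta β₀ b j₀) ^ (-a) := by gcongr
          _ = _ := by ring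
      calc ∑ y ∈ S, bb y * (1 + ‖x - y‖ / ta β₀ b j₀) ^ (-a)
          ≤ ∑ y ∈ S, bb x * (1 + ‖x - y‖ / ta β₀ b j₀) ^ (-(a - τ * β)) := Finset.sum_le_sum h2
        _ = bb x * ∑ y ∈ S, (1 + ‖x - y‖ / ta β₀ b j₀) ^ (-(a - τ * β)) := by
            rw [Finset.mul_sum]
        _ ≤ bb x * (CS * (1 + 1)) := mul_le_mul_of_nonneg_left h1 (hbb0 x)
        _ ≤ (9 + 2 * CS) * bb x := by nlinarith [hbb0 x]
    · intro ξ _ x hx
      have h1 := hloc 1 x ξ (by simpa using hx)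
      have h0 := dec_bbf_nonneg β (D₀ * 2 ^ l) cr ξ
      have h2 : A * bbf β (D₀ * 2 ^ l) cr x ≤ A * (4 * bbf β (D₀ * 2 ^ l) cr ξ) := by
        apply mul_le_mul_of_nonneg_left _ hA
        calc _ ≤ _ := h1
          _ = 4 * bbf β (D₀ * 2 ^ l) cr ξ := by norm_num
      have h3 : 0 ≤ A * bbf β (D₀ * 2 ^ l) cr ξ := by positivity
      have h4 := hUb x
      simp only [hbb]
      nlinarith
    · intro ξ hξ x y hx hy
      have h1 := hUl ξ hξ x y hx hy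
      refine h1.trans (mul_le_mul_of_nonneg_right ?_ (by positivity))
      have h0 := dec_bbf_nonneg β (D₀ * 2 ^ l) cr ξ
      have h3 : 0 ≤ A * bbf β (D₀ * 2 ^ l) cr ξ := by positivity
      simp only [hbb]
      nlinarith
  have hjm : j₀ ≤ J₁ * (D₀ * 2 ^ L) + 1 + (e₀ + 10 * L) := by
    have h1 : 2 ^ l ≤ 2 ^ L := Nat.pow_le_pow_right (by norm_num) hlL
    have h2 : J₁ * (D₀ * 2 ^ l) ≤ J₁ * (D₀ * 2 ^ L) :=
      Nat.mul_le_mul_left _ (Nat.mul_le_mul_left _ h1)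
    omega
  obtain ⟨ψ, hψ⟩ := hcc b j₀ (J₁ * (D₀ * 2 ^ L) + 1 + (e₀ + 10 * L)) X bb U (16 * A) hz hjm hHcc
  set u : G → ℝ := fun x => U x + ψ x with hu
  have hucont : Continuous u := hU.add hψ.cont
  -- the crude bound
  have hub : ∀ x, |u x| ≤ 17 * C₂ * A * bbf β (D₀ * 2 ^ l) cr x := by
    intro x
    have h0 := dec_bbf_nonneg β (D₀ * 2 ^ l) cr x
    have hAb : 0 ≤ A * bbf β (D₀ * 2 ^ l) cr x := by positivity
    by_cases hx : ∀ ξ ∈ X, ta β₀ b j₀ ≤ ‖x - ξ‖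
    · have h1 := hψ.far x hx
      have h2 : |u x| ≤ |U x| + |ψ x| := abs_add_le _ _
      have h3 := hUb x
      simp only [hbb] at h1
      nlinarith
    · push Not at hx
      have h1 := hψ.near x j₀ le_rfl hjm hx
      have h2 : j₀ - j₀ - nn X x (2 * ta β₀ b j₀) = 0 := by omega
      rw [h2, pow_zero, mul_one] at h1
      simp only [hbb] at h1
      have h5 : 0 ≤ C₂ * (A * bbf β (D₀ * 2 ^ l) cr x) := by positivity
      calc |u x| ≤ _ := h1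
        _ ≤ _ := by nlinarith
  obtain ⟨hθ1, hθ2⟩ := dec_theta β (by linarith) hβ2.le
  set θ : ℝ := (2 : ℝ) ^ (-β) with hθ
  have hθ0 : 0 < θ := by linarith
  have hC₁C : C₁ ≤ (⌈C₁⌉₊ : ℝ) := Nat.le_ceil _
  -- bounds of u
  have hsq : ∀ l' : ℕ, 1 ≤ C₁ ^ 2 * ((l' : ℝ) + 1) ^ 4 := by
    intro l'
    have hl0 : (0 : ℝ) ≤ l' := Nat.cast_nonneg _
    have h1 : 1 ≤ C₁ ^ 2 := one_le_pow₀ hC₁
    have h2 : 1 ≤ ((l' : ℝ) + 1) ^ 4 := one_le_pow₀ (by linarith)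
    nlinarith
  have hAnum : ∀ l' : ℕ, l ≤ l' → ∀ v : ℝ, v ≤ 17 * C₂ * A * θ ^ (l' - l) →
      v ≤ 68 * C₂ * C₁ ^ 2 * A * WW θ l (l' + 1) := by
    intro l' hl' v hv
    refine hv.trans (le_trans ?_ (dec_num θ C₁ C₂ A l l' hθ1 hC₁ hC₂ hA hl'))
    apply mul_le_mul_of_nonneg_left _ (by positivity)
    have := hsq l'
    have h0 : 0 ≤ θ ^ (l' - l) := by positivity
    nlinarith
  have hbig : ∀ l' : ℕ, l ≤ l' → ∀ x, (D₀ : ℝ) * 2 ^ l' ≤ C₁ * ((l' : ℝ) + 1) ^ 2 * cr x →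
      |u x| ≤ 68 * C₂ * C₁ ^ 2 * A * WW θ l (l' + 1) := by
    intro l' hl' x hx
    have hl0 : (0 : ℝ) ≤ l' := Nat.cast_nonneg _
    have h1 := dec_bbf_le β (C₁ * ((l' : ℝ) + 1) ^ 2) D₀ l l' (by linarith) hβ2.le
      (dec_kap C₁ l' hC₁) hD₀ hl' cr x hx
    refine (hub x).trans (le_trans ?_ (dec_num θ C₁ C₂ A l l' hθ1 hC₁ hC₂ hA hl'))
    apply mul_le_mul_of_nonneg_left _ (by positivity)
    refine h1.trans (le_of_eq ?_)
    rw [← hθ]; ring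
  have hout : ∀ l', l ≤ l' → l' ≤ L → ∀ x, x ∉ Gs β₀ J₁ (D₀ * 2 ^ l') b X cr →
      |u x| ≤ 68 * C₂ * C₁ ^ 2 * A * WW θ l (l' + 1) := by
    intro l' hl' hlL' x hx
    by_cases hcr : cr x ≤ D₀ * 2 ^ l'
    · -- near a node
      have hx2 : ∃ ξ ∈ X, ‖x - ξ‖ < ta β₀ b (J₁ * (D₀ * 2 ^ l')) := by
        by_contra hcon
        push Not at hcon
        exact hx ⟨by exact_mod_cast hcr, hcon⟩
      rcases eq_or_lt_of_le hl' with heq | hlt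
      · subst heq
        apply hAnum _ le_rfl
        have h1 := hub x
        have h2 := dec_bbf_le_one β (D₀ * 2 ^ l) (by linarith) cr x
        simp only [Nat.sub_self, pow_zero, mul_one]
        refine h1.trans ?_
        have : 0 ≤ 17 * C₂ * A := by positivity
        nlinarith
      · have hDD : 2 * (D₀ * 2 ^ l) ≤ D₀ * 2 ^ l' := by
          have h1 : 2 ^ (l + 1) ≤ 2 ^ l' := Nat.pow_le_pow_right (by norm_num) hlt
          calc 2 * (D₀ * 2 ^ l) = D₀ * 2 ^ (l + 1) := by ring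
            _ ≤ D₀ * 2 ^ l' := Nat.mul_le_mul_left _ h1
        have hlD : l ≤ D₀ * 2 ^ l' ∧ 1 ≤ D₀ * 2 ^ l' ∧ 2 * l' ≤ D₀ * 2 ^ l' := by
          have h1 : 2 * l' ≤ 2 ^ l' := dec_two_pow l'
          have h2 : 1 ≤ 2 ^ l' := Nat.one_le_two_pow
          have h3 : 2 ^ l' ≤ D₀ * 2 ^ l' := Nat.le_mul_of_pos_left _ (by omega)
          refine ⟨by omega, by omega, by omega⟩
        have hnn : nn X x (2 * ta β₀ b j₀) ≤ ⌈C₁⌉₊ * (D₀ * 2 ^ l') := by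
          have h1 : nn X x (2 * ta β₀ b j₀) ≤ nn X x (2 * (1 / 2) ^ b) :=
            dec_nn_mono X x (by linarith)
          have h2 := hG.cnt x
          have h3 : C₁ * cr x ≤ ⌈C₁⌉₊ * (D₀ * 2 ^ l') := by
            have h4 := hG.nonneg x
            calc C₁ * cr x ≤ ⌈C₁⌉₊ * cr x := mul_le_mul_of_nonneg_right hC₁C h4
              _ ≤ ⌈C₁⌉₊ * (D₀ * 2 ^ l') := mul_le_mul_of_nonneg_left hcr (Nat.cast_nonneg _)
          have h5 : (nn X x (2 * (1 / 2) ^ b) : ℝ) ≤ ((⌈C₁⌉₊ * (D₀ * 2 ^ l') : ℕ) : ℝ) := by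
            push_cast
            exact h2.trans h3
          exact h1.trans (by exact_mod_cast h5)
        obtain ⟨hlD1, hlD2, hlD3⟩ := hlD
        set Dp : ℕ := D₀ * 2 ^ l' with hDp
        set Dm : ℕ := D₀ * 2 ^ l with hDm
        have hexp : j₀ + nn X x (2 * ta β₀ b j₀) + Dp ≤ J₁ * Dp := by
          have h1 : 2 * (J₁ * Dm) ≤ J₁ * Dp := by
            calc 2 * (J₁ * Dm) = J₁ * (2 * Dm) := by ring
              _ ≤ J₁ * Dp := Nat.mul_le_mul_left _ hDD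
          have h2 : 2 * (⌈C₁⌉₊ + 12 + e₀) * Dp ≤ J₁ * Dp := Nat.mul_le_mul_right _ hJ₁
          have h3 : 2 * (⌈C₁⌉₊ + 12 + e₀) * Dp = 2 * (⌈C₁⌉₊ * Dp) + 24 * Dp + 2 * (e₀ * Dp) := by
            ring
          have h4 : e₀ ≤ e₀ * Dp := Nat.le_mul_of_pos_right _ (by omega)
          omega
        have hle1 : j₀ ≤ J₁ * Dp := by omega
        have hle2 : J₁ * Dp ≤ J₁ * (D₀ * 2 ^ L) + 1 + (e₀ + 10 * L) := by
          have h1 : 2 ^ l' ≤ 2 ^ L := Nat.pow_le_pow_right (by norm_num) hlL'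
          have h2 : J₁ * Dp ≤ J₁ * (D₀ * 2 ^ L) :=
            Nat.mul_le_mul_left _ (Nat.mul_le_mul_left _ h1)
          omega
        have h1 := hψ.near x (J₁ * Dp) hle1 hle2 hx2
        apply hAnum _ hl'
        have h2 : (1 / 2 : ℝ) ^ (J₁ * Dp - j₀ - nn X x (2 * ta β₀ b j₀)) ≤ θ ^ (l' - l) :=
          dec_half_pow θ l l' _ hθ1 (by omega)
        have h3 := dec_bbf_le_one β (D₀ * 2 ^ l) (by linarith) cr x
        have h0 := dec_bbf_nonneg β (D₀ * 2 ^ l) cr x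
        calc |u x| ≤ _ := h1
          _ ≤ C₂ * (16 * A * 1) * θ ^ (l' - l) := by
              simp only [hbb]
              gcongr
          _ ≤ 17 * C₂ * A * θ ^ (l' - l) := by
              have : 0 ≤ C₂ * A * θ ^ (l' - l) := by positivity
              nlinarith
    · push Not at hcr
      apply hbig l' hl' x
      have h4 := hG.nonneg x
      have h5 := dec_kap C₁ l' hC₁
      have h6 : 1 * cr x ≤ C₁ * ((l' : ℝ) + 1) ^ 2 * cr x := mul_le_mul_of_nonneg_right h5 h4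
      linarith
  have hcellu : ∀ j i, |∫ x in Cell j i, u x ∂hm| ≤ 17 * C₂ * A * (1 / 2) ^ b := by
    intro j i
    have hiU : Integrable U hm := hU.integrable_of_hasCompactSupport (HasCompactSupport.of_compactSpace _)
    have hiψ : Integrable ψ hm :=
      hψ.cont.integrable_of_hasCompactSupport (HasCompactSupport.of_compactSpace _)
    have h1 : ∫ x in Cell j i, u x ∂hm = ∫ x in Cell j i, U x ∂hm + ∫ x in Cell j i, ψ x ∂hm :=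
      integral_add hiU.integrableOn hiψ.integrableOn
    rw [h1]
    have h2 := hUc j i
    have h3 := hψ.cell j i
    have h4 : C₂ * (16 * A) * ta β₀ b j₀ ≤ C₂ * (16 * A) * (1 / 2) ^ b :=
      mul_le_mul_of_nonneg_left htb (by positivity)
    have h5 : 0 ≤ A * (1 / 2) ^ b := by positivity
    calc |∫ x in Cell j i, U x ∂hm + ∫ x in Cell j i, ψ x ∂hm|
        ≤ |∫ x in Cell j i, U x ∂hm| + |∫ x in Cell j i, ψ x ∂hm| := abs_add_le _ _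
      _ ≤ A * (1 / 2) ^ b + C₂ * (16 * A) * (1 / 2) ^ b := by linarith
      _ ≤ 17 * C₂ * A * (1 / 2) ^ b := by nlinarith
  have hmean : ∀ l', l ≤ l' → l' ≤ L → ∀ i, i < 2 ^ (b - D₀ * 2 ^ l') →
      |∫ x in Cell (b - D₀ * 2 ^ l') i, u x ∂hm| ≤
        (1 / 2) ^ (b - D₀ * 2 ^ l') * (68 * C₂ * C₁ ^ 2 * A * WW θ l (l' + 1)) := by
    intro l' hl' hlL' i _
    have h1 := hcellu (b - D₀ * 2 ^ l') i
    have hpow : (1 / 2 : ℝ) ^ b ≤ (1 / 2) ^ (b - D₀ * 2 ^ l') * θ ^ (l' - l) := by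
      by_cases hDb : D₀ * 2 ^ l' ≤ b
      · have h2 : (1 / 2 : ℝ) ^ b = (1 / 2) ^ (b - D₀ * 2 ^ l') * (1 / 2) ^ (D₀ * 2 ^ l') := by
          rw [← pow_add]; congr 1; omega
        rw [h2]
        apply mul_le_mul_of_nonneg_left _ (by positivity)
        apply dec_half_pow θ l l' _ hθ1
        have h3 : 2 * l' ≤ 2 ^ l' := dec_two_pow l'
        have h4 : 2 ^ l' ≤ D₀ * 2 ^ l' := Nat.le_mul_of_pos_left _ (by omega)
        omega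
      · have h2 : b - D₀ * 2 ^ l' = 0 := by omega
        rw [h2, pow_zero, one_mul]
        apply dec_half_pow θ l l' _ hθ1
        omega
    refine h1.trans ?_
    calc 17 * C₂ * A * (1 / 2) ^ b ≤ 17 * C₂ * A * ((1 / 2) ^ (b - D₀ * 2 ^ l') * θ ^ (l' - l)) :=
          mul_le_mul_of_nonneg_left hpow (by positivity)
      _ = (1 / 2) ^ (b - D₀ * 2 ^ l') * (17 * C₂ * A * θ ^ (l' - l)) := by ring
      _ ≤ _ := mul_le_mul_of_nonneg_left (hAnum l' hl' _ le_rfl) (by positivity)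
  -- transport
  have htra := hT b l L (fun l' => D₀ * 2 ^ l') (fun l' => Gs β₀ J₁ (D₀ * 2 ^ l') b X cr)
    (fun l' => 68 * C₂ * C₁ ^ 2 * A * WW θ l l') u h H hlL
    (by
      intro i j hij
      exact Nat.mul_le_mul_left _ (Nat.pow_le_pow_right (by norm_num) hij))
    (by
      intro i j hij
      exact dec_Gs_mono β₀ J₁ b X cr (Nat.mul_le_mul_left _ (Nat.pow_le_pow_right (by norm_num) hij)))
    (fun l' => dec_Gs_meas _ _ _ _ _ _ hG.meas)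
    (fun l' => mul_nonneg (by positivity) (dec_WW_nonneg θ l l' hθ0.le))
    hucont.measurable hh.measurable hH
    (by
      intro x
      have h1 := hub x
      have h2 := dec_bbf_le_one β (D₀ * 2 ^ l) (by linarith) cr x
      have h0 : 0 ≤ 17 * C₂ * A := by positivity
      have h3 : 1 ≤ WW θ l l := by
        unfold WW
        simp only [Nat.sub_self, pow_zero, mul_one]
        exact one_le_pow₀ (by have : (0 : ℝ) ≤ l := Nat.cast_nonneg _; linarith)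
      have h4 : 1 ≤ C₁ ^ 2 := one_le_pow₀ hC₁
      calc |u x| ≤ 17 * C₂ * A * bbf β (D₀ * 2 ^ l) cr x := h1
        _ ≤ 17 * C₂ * A * 1 := mul_le_mul_of_nonneg_left h2 h0
        _ ≤ 17 * C₂ * A * (C₁ ^ 2 * WW θ l l) := by
            apply mul_le_mul_of_nonneg_left _ h0
            nlinarith
        _ ≤ 68 * C₂ * C₁ ^ 2 * A * WW θ l l := by
            have : 0 ≤ C₂ * A * (C₁ ^ 2 * WW θ l l) := by positivity
            nlinarith)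
    (fun l' h1 h2 x hx => hout l' h1 h2 x hx)
    (by
      intro l' h1 h2 i hi
      rcases hG.cell l' i hi with h3 | h3
      · left; exact h3
      · right
        intro x hx
        exact hbig l' h1 x (h3 x hx))
    (fun l' h1 h2 i hi => hmean l' h1 h2 i hi)
  -- the correction
  have hψb : ∃ B, ∀ x, |ψ x| ≤ B := by
    obtain ⟨B, hB⟩ := isCompact_univ.exists_bound_of_continuousOn hψ.cont.continuousOn
    exact ⟨B, fun x => by simpa using hB x (Set.mem_univ _)⟩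
  have heq := hEQ ψ hψ.cont.measurable hψb hψ.node
  have hψi : |∫ x, h x * ψ x ∂hm| ≤ 16 * C₂ * A * (c₁ * X.card * ((1 / 2) ^ b) ^ (1 + r)) := by
    rw [heq, neg_mul, abs_neg, abs_mul, abs_of_nonneg hc₁]
    have h1 := hψ.int
    have h2 : (ta β₀ b j₀) ^ (1 + r) ≤ ((1 / 2 : ℝ) ^ b) ^ (1 + r) :=
      Real.rpow_le_rpow ht0.le htb (by linarith [hK.hr])
    calc c₁ * |∫ x, ψ x ∂hm| ≤ c₁ * (C₂ * (16 * A) * X.card * (ta β₀ b j₀) ^ (1 + r)) :=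
          mul_le_mul_of_nonneg_left h1 hc₁
      _ ≤ c₁ * (C₂ * (16 * A) * X.card * ((1 / 2 : ℝ) ^ b) ^ (1 + r)) := by gcongr
      _ = _ := by ring
  have hsplit : ∫ x, h x * U x ∂hm = ∫ x, h x * u x ∂hm - ∫ x, h x * ψ x ∂hm := by
    have hi1 : Integrable (fun x => h x * u x) hm :=
      (hh.mul hucont).integrable_of_hasCompactSupport (HasCompactSupport.of_compactSpace _)
    have hi2 : Integrable (fun x => h x * ψ x) hm :=
      (hh.mul hψ.cont).integrable_of_hasCompactSupport (HasCompactSupport.of_compactSpace _)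
    rw [← integral_sub hi1 hi2]
    congr 1
    funext x
    simp only [hu]; ring
  -- final summation
  have hNN : ∀ l', 0 ≤ NN b (D₀ * 2 ^ l') (Gs β₀ J₁ (D₀ * 2 ^ l') b X cr) h :=
    fun l' => dec_NN_nonneg _ _ _ _
  have hE0 : 0 ≤ c₁ * X.card * ((1 / 2 : ℝ) ^ b) ^ (1 + r) := by positivity
  have hWH : 0 ≤ WW θ l L * H := mul_nonneg (dec_WW_nonneg θ l L hθ0.le) hH0
  have hSg0 : 0 ≤ ∑ l' ∈ Finset.Icc l L, WW θ l l' * NN b (D₀ * 2 ^ l') (Gs β₀ J₁ (D₀ * 2 ^ l') b X cr) h :=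
    Finset.sum_nonneg fun l' _ => mul_nonneg (dec_WW_nonneg θ l l' hθ0.le) (hNN l')
  have hsum : ∑ l' ∈ Finset.Icc l L, (68 * C₂ * C₁ ^ 2 * A * WW θ l l' +
      68 * C₂ * C₁ ^ 2 * A * WW θ l (l' + 1)) * NN b (D₀ * 2 ^ l') (Gs β₀ J₁ (D₀ * 2 ^ l') b X cr) h ≤
      13 * (68 * C₂ * C₁ ^ 2 * A) * ∑ l' ∈ Finset.Icc l L,
        WW θ l l' * NN b (D₀ * 2 ^ l') (Gs β₀ J₁ (D₀ * 2 ^ l') b X cr) h := by
    rw [Finset.mul_sum]
    apply Finset.sum_le_sum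
    intro l' hl'
    have h1 := dec_WW θ l l' hθ0.le hθ2 (Finset.mem_Icc.1 hl').1
    have h2 : 0 ≤ 68 * C₂ * C₁ ^ 2 * A := by positivity
    have h3 := mul_le_mul_of_nonneg_left h1 h2
    calc _ ≤ (68 * C₂ * C₁ ^ 2 * A * WW θ l l' + 68 * C₂ * C₁ ^ 2 * A * (12 * WW θ l l')) *
          NN b (D₀ * 2 ^ l') (Gs β₀ J₁ (D₀ * 2 ^ l') b X cr) h := by
            apply mul_le_mul_of_nonneg_right _ (hNN l')
            linarith
      _ = _ := by ring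
  have hlast : 68 * C₂ * C₁ ^ 2 * A * WW θ l (L + 1) * H ≤ 12 * (68 * C₂ * C₁ ^ 2 * A) * (WW θ l L * H) := by
    have h1 := dec_WW θ l L hθ0.le hθ2 hlL
    have h2 : 0 ≤ 68 * C₂ * C₁ ^ 2 * A := by positivity
    calc _ ≤ 68 * C₂ * C₁ ^ 2 * A * (12 * WW θ l L) * H := by gcongr
      _ = _ := by ring
  have h1C : 1 ≤ C₁ ^ 2 := one_le_pow₀ hC₁
  have hfin1 : 16 * C₂ * A * (c₁ * X.card * ((1 / 2 : ℝ) ^ b) ^ (1 + r)) ≤
      10 ^ 4 * C₂ * C₁ ^ 2 * A * (c₁ * X.card * ((1 / 2 : ℝ) ^ b) ^ (1 + r)) :=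
    dec_fin1 _ _ _ _ h1C hC₂ hA hE0
  rw [hsplit]
  have hQ0 : 0 ≤ C₂ * C₁ ^ 2 * A := by positivity
  have habs : |∫ x, h x * u x ∂hm - ∫ x, h x * ψ x ∂hm|
      ≤ |∫ x, h x * u x ∂hm| + |∫ x, h x * ψ x ∂hm| := abs_sub _ _
  have e1 : 68 * C₂ * C₁ ^ 2 * A = 68 * (C₂ * C₁ ^ 2 * A) := by ring
  have e2 : 10 ^ 4 * C₂ * C₁ ^ 2 * A = 10 ^ 4 * (C₂ * C₁ ^ 2 * A) := by ring
  have e3 : 4 * (68 * C₂ * C₁ ^ 2 * A * WW θ l (L + 1)) * H =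
      4 * (68 * C₂ * C₁ ^ 2 * A * WW θ l (L + 1) * H) := by ring
  have hJ := hψi.trans hfin1
  rw [e3] at htra
  rw [e1] at hsum hlast htra
  rw [e2] at hJ ⊢
  exact dec_fin3 _ _ _ _ _ _ _ _ _ hQ0 hSg0 hWH habs htra hsum hlast hJ

theorem t_DEC (hS : S_SEP) (hCC : S_CC) (hT : S_TRA) : S_DEC := by
  intro r a C z₀ F M K Y hK τ β C₁ hτ hβ1 hβ2 hτβ hC₁
  obtain ⟨CS, hCS1, -, hCS⟩ := hS (a - τ * β) (by linarith)
  obtain ⟨C₂, β₁, hC₂, hβ₁, hcc⟩ := hCC r a C z₀ F M K Y hK (9 + 2 * CS) (by linarith)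
  refine ⟨10 ^ 4 * C₂ * C₁ ^ 2, β₁, ?_, hβ₁, fun e₀ => ⟨2 * (⌈C₁⌉₊ + 12 + e₀), by omega, ?_⟩⟩
  · have h1 : 1 ≤ C₁ ^ 2 := one_le_pow₀ hC₁
    nlinarith
  intro β₀ J₁ D₀ b L l j₀ X cr U h A H c₁ hβ₀ hJ₁ hD₀ hz hLb hlL hj₀ hG hU hA hUb hUl hUc hh hH hc₁ hEQ
  exact dec_main r a C z₀ F M K Y hK τ β C₁ CS C₂ hτ hβ1 hβ2 hτβ hC₁ hCS1 hCS hC₂ β₀ (hcc β₀ hβ₀) hT
    e₀ J₁ D₀ b L l j₀ X cr U h A H c₁ hJ₁ hD₀ hz hLb hlL hj₀ hG hU hA hUb hUl hUc hh hH hc₁ hEQ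

end

end Pool.Agent.H729R2.FO
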