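import Mathlib
import Pool.Agent.H729R2.FO.Stubs

set_option autoImplicit false

namespace Pool.Agent.H729R2.FO

open MeasureTheory Pool.Agent.H729R2.CB Pool.Agent.Helper150.Cub

open scoped Classical

noncomputable section

theorem eqh_int {g : G → ℝ} (hg : Continuous g) : Integrable g hm :=
  hg.integrable_of_hasCompactSupport (HasCompactSupport.of_compactSpace g)

/-- integrals over the circle of functions of the norm -/
theorem eqh_norm_int (φ : ℝ → ℝ) : ∫ x : G, φ ‖x‖ ∂hm =
    (2 * Real.pi)⁻¹ * ∫ t in Set.Ioc (-Real.pi) Real.pi, φ |t| := by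
  have hπ := Real.pi_pos
  have h1 : ∫ x : G, φ ‖x‖ ∂hm = (2 * Real.pi)⁻¹ • ∫ x : G, φ ‖x‖ :=
    AddCircle.integral_haarAddCircle
  rw [h1, smul_eq_mul, ← AddCircle.integral_preimage (2 * Real.pi) (-Real.pi)]
  have e : -Real.pi + 2 * Real.pi = Real.pi := by ring
  rw [e]
  congr 1
  refine setIntegral_congr_fun measurableSet_Ioc ?_
  intro t ht
  have hp : (2 * Real.pi) ≠ 0 := by positivity
  have hle : |t| ≤ |2 * Real.pi| / 2 := by
    rw [abs_of_pos (by positivity : (0:ℝ) < 2 * Real.pi)]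
    rw [abs_le]
    constructor
    · linarith [ht.1]
    · linarith [ht.2]
  have h2 : ‖(t : AddCircle (2 * Real.pi))‖ = |t| :=
    (AddCircle.norm_coe_eq_abs_iff (p := 2 * Real.pi) (x := t) hp).2 hle
  show φ ‖(t : AddCircle (2 * Real.pi))‖ = φ |t|
  rw [h2]

/-- the majorants have bounded integrals -/
theorem eqh_L1 (a C : ℝ) (ha : 2 < a) (hC : 0 ≤ C) (s : ℝ) (hs : 0 < s) (g : G → ℝ)
    (hg : Bd a C s g) : ∫ x, |g x| ∂hm ≤
      (2 * Real.pi)⁻¹ * (C * ∫ t : ℝ, (1 + |t|) ^ (-a)) := by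
  have hI : Integrable (fun t : ℝ => (1 + |t|) ^ (-a)) := by
    have := integrable_one_add_norm (E := ℝ) (μ := volume) (r := a) (by
      simp; linarith)
    simpa using this
  have hI2 : Integrable (fun t : ℝ => C / s * (1 + |t| / s) ^ (-a)) := by
    have h1 := (hI.comp_div hs.ne').const_mul (C / s)
    refine h1.congr (Filter.Eventually.of_forall fun t => ?_)
    simp only [abs_div, abs_of_pos hs]
  have h0 : ∫ x, |g x| ∂hm ≤ ∫ x : G, C / s * (1 + ‖x‖ / s) ^ (-a) ∂hm := by
    apply integral_mono (eqh_int hg.cont.abs)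
    · refine eqh_int ?_
      refine continuous_const.mul ?_
      refine Continuous.rpow_const (by fun_prop) ?_
      intro x
      left
      have : 0 ≤ ‖x‖ / s := by positivity
      linarith
    · exact hg.bd
  refine h0.trans ?_
  rw [eqh_norm_int (fun t => C / s * (1 + t / s) ^ (-a))]
  apply mul_le_mul_of_nonneg_left _ (by positivity)
  have h3 : ∫ t in Set.Ioc (-Real.pi) Real.pi, C / s * (1 + |t| / s) ^ (-a) ≤
      ∫ t : ℝ, C / s * (1 + |t| / s) ^ (-a) :=
    setIntegral_le_integral hI2 (Filter.Eventually.of_forall fun t => by positivity)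
  refine h3.trans (le_of_eq ?_)
  have h4 : ∫ t : ℝ, (fun u : ℝ => (1 + |u|) ^ (-a)) (t / s) = |s| • ∫ u : ℝ, (1 + |u|) ^ (-a) :=
    Measure.integral_comp_div (fun u : ℝ => (1 + |u|) ^ (-a)) s
  have h5 : ∀ t : ℝ, C / s * (1 + |t| / s) ^ (-a) =
      C / s * (fun u : ℝ => (1 + |u|) ^ (-a)) (t / s) := by
    intro t
    simp only [abs_div, abs_of_pos hs]
  simp only [h5]
  rw [integral_const_mul, h4, abs_of_pos hs, smul_eq_mul]
  field_simp

theorem eqh_formula (r α a C z₀ : ℝ) (M K Y : ℝ → G → ℝ) (hK : Kn r a C z₀ (FG r α) M K Y)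
    (m : ℕ) (w : Fin m → ℝ) (ξ : Fin m → G × G) (q i : ℕ) (y : G) :
    hq (errF r α w ξ) M q i y =
      ∑ μ, w μ * Fc (FG r α) (M ((1 / 2) ^ q)) ((ξ μ).1 - cen q i) * FG r α ((ξ μ).2 - y) -
        ((1 / 2) ^ q) ^ r := by
  have hs0 : (0:ℝ) < (1 / 2) ^ q := by positivity
  have hs1 : ((1:ℝ) / 2) ^ q ≤ 1 := pow_le_one₀ (by norm_num) (by norm_num)
  have hM := (hK.Mb _ hs0 hs1).cont
  have hFc := hK.Fcont
  unfold hq
  have e : ∀ s, errF r α w ξ (s, y) * M ((1 / 2) ^ q) (s - cen q i) =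
      ∑ μ, w μ * FG r α ((ξ μ).2 - y) *
        (M ((1 / 2) ^ q) (s - cen q i) * FG r α (((ξ μ).1 - cen q i) - (s - cen q i))) -
        M ((1 / 2) ^ q) (s - cen q i) := by
    intro s
    unfold errF
    rw [sub_mul, one_mul, Finset.sum_mul]
    congr 1
    refine Finset.sum_congr rfl fun μ _ => ?_
    rw [sub_sub_sub_cancel_right]
    ring
  simp only [e]
  rw [integral_sub, integral_finsetSum]
  · congr 1
    · refine Finset.sum_congr rfl fun μ _ => ?_
      rw [integral_const_mul]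
      have h1 : ∫ s, M ((1 / 2) ^ q) (s - cen q i) *
          FG r α (((ξ μ).1 - cen q i) - (s - cen q i)) ∂hm =
          Fc (FG r α) (M ((1 / 2) ^ q)) ((ξ μ).1 - cen q i) := by
        unfold Fc
        exact integral_sub_right_eq_self
          (fun t => M ((1 / 2) ^ q) t * FG r α (((ξ μ).1 - cen q i) - t)) (cen q i)
      rw [h1]
      ring
    · rw [integral_sub_right_eq_self (fun t => M ((1 / 2) ^ q) t) (cen q i)]
      exact hK.Mm _ hs0 hs1
  · intro μ _
    exact eqh_int (by fun_prop)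
  · exact eqh_int (by fun_prop)
  · exact eqh_int (by fun_prop)

theorem t_EQH : S_EQH := by
  intro r α a C z₀ M K Y hK
  obtain ⟨C₁, hC₁⟩ : ∃ C₁, C₁ = (2 * Real.pi)⁻¹ * (C * ∫ t : ℝ, (1 + |t|) ^ (-a)) := ⟨_, rfl⟩
  refine ⟨max 1 C₁, le_max_left _ _, ?_⟩
  intro m w ξ EE hE q i
  have hs0 : (0:ℝ) < (1 / 2) ^ q := by positivity
  have hs1 : ((1:ℝ) / 2) ^ q ≤ 1 := pow_le_one₀ (by norm_num) (by norm_num)
  have hMb := hK.Mb _ hs0 hs1
  have hM := hMb.cont
  have hFc := hK.Fcont
  have hform := eqh_formula r α a C z₀ M K Y hK m w ξ q i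
  have hEE : 0 ≤ EE := (abs_nonneg _).trans (hE (0, 0))
  refine ⟨?_, ?_, ?_⟩
  · have : hq (errF r α w ξ) M q i = fun y => ∑ μ, w μ *
        Fc (FG r α) (M ((1 / 2) ^ q)) ((ξ μ).1 - cen q i) * FG r α ((ξ μ).2 - y) -
        ((1 / 2) ^ q) ^ r := funext hform
    rw [this]
    fun_prop
  · intro y
    have hEc : Continuous (fun s => errF r α w ξ (s, y)) := by
      unfold errF
      fun_prop
    have h1 : |hq (errF r α w ξ) M q i y| ≤ ∫ s, EE * |M ((1 / 2) ^ q) (s - cen q i)| ∂hm := by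
      unfold hq
      refine abs_integral_le_integral_abs.trans ?_
      apply integral_mono
      · exact eqh_int (by fun_prop)
      · exact eqh_int (by fun_prop)
      · intro s
        simp only [abs_mul]
        exact mul_le_mul_of_nonneg_right (hE _) (abs_nonneg _)
    have h2 : ∫ s, |M ((1 / 2) ^ q) (s - cen q i)| ∂hm = ∫ s, |M ((1 / 2) ^ q) s| ∂hm :=
      integral_sub_right_eq_self (fun t => |M ((1 / 2) ^ q) t|) (cen q i)
    rw [integral_const_mul, h2] at h1
    have h3 := eqh_L1 a C hK.ha (by linarith [hK.hC]) _ hs0 _ hMb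
    rw [← hC₁] at h3
    have h4 : ∫ s, |M ((1 / 2) ^ q) s| ∂hm ≤ max 1 C₁ := h3.trans (le_max_right _ _)
    calc |hq (errF r α w ξ) M q i y| ≤ EE * ∫ s, |M ((1 / 2) ^ q) s| ∂hm := h1
      _ ≤ EE * max 1 C₁ := mul_le_mul_of_nonneg_left h4 hEE
      _ = _ := mul_comm _ _
  · intro u hu hB hX
    obtain ⟨B, hB⟩ := hB
    have hui : Integrable u hm := by
      refine Integrable.of_bound hu.aestronglyMeasurable B ?_
      exact Filter.Eventually.of_forall fun x => by simpa using hB x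
    have hug : ∀ g : G → ℝ, Continuous g → Integrable (fun x => u x * g x) hm := by
      intro g hg
      obtain ⟨Cg, hCg⟩ := (isCompact_univ (X := G)).exists_bound_of_continuousOn
        (f := g) hg.continuousOn
      refine Integrable.of_bound (hu.mul hg.measurable).aestronglyMeasurable (B * Cg) ?_
      refine Filter.Eventually.of_forall fun x => ?_
      rw [norm_mul]
      have h1 : ‖u x‖ ≤ B := by simpa using hB x
      have h2 := hCg x (Set.mem_univ _)
      have h3 : 0 ≤ B := (norm_nonneg _).trans h1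
      exact mul_le_mul h1 h2 (norm_nonneg _) h3
    have e : ∀ x, hq (errF r α w ξ) M q i x * u x =
        ∑ μ, w μ * Fc (FG r α) (M ((1 / 2) ^ q)) ((ξ μ).1 - cen q i) *
          (u x * FG r α ((ξ μ).2 - x)) - ((1 / 2) ^ q) ^ r * u x := by
      intro x
      rw [hform, sub_mul, Finset.sum_mul]
      congr 1
      refine Finset.sum_congr rfl fun μ _ => ?_
      ring
    simp only [e]
    rw [integral_sub, integral_finsetSum]
    · have hz : ∑ μ, ∫ x, w μ * Fc (FG r α) (M ((1 / 2) ^ q)) ((ξ μ).1 - cen q i) *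
          (u x * FG r α ((ξ μ).2 - x)) ∂hm = 0 := by
        refine Finset.sum_eq_zero fun μ _ => ?_
        rw [integral_const_mul]
        by_cases h : ‖(ξ μ).1 - cen q i‖ < (1 / 2) ^ q
        · have h2 : (ξ μ).2 ∈ Xq ξ q i := by
            unfold Xq
            exact Finset.mem_image.2 ⟨μ, Finset.mem_filter.2 ⟨Finset.mem_univ _, h⟩, rfl⟩
          have h3 := hX _ h2
          unfold Fc at h3
          rw [h3, mul_zero]
        · rw [hK.Ms _ hs0 hs1 _ (not_lt.1 h), mul_zero, zero_mul]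
      rw [hz, integral_const_mul, zero_sub, neg_mul]
    · intro μ _
      exact (hug _ (by fun_prop)).const_mul _
    · exact integrable_finsetSum _ fun μ _ => (hug _ (by fun_prop)).const_mul _
    · exact hui.const_mul _

end

end Pool.Agent.H729R2.FO
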