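import Mathlib
import Pool.Agent.H729R2.FO.Stubs

set_option autoImplicit false

namespace Pool.Agent.H729R2.FO

open MeasureTheory Pool.Agent.H729R2.CB Pool.Agent.Helper150.Cub

open scoped Classical

theorem ga1_pos (τ : ℝ) (b : ℕ) (x y : G) : 0 < ph0 τ b x y := by
  unfold ph0; positivity

theorem ga1_le1 (τ : ℝ) (hτ : 0 ≤ τ) (b : ℕ) (x y : G) : ph0 τ b x y ≤ 1 := by
  unfold ph0
  apply Real.rpow_le_one_of_one_le_of_nonpos
  · have : 0 ≤ (2:ℝ) ^ b * ‖x - y‖ := by positivity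
    linarith
  · linarith

theorem ga1_symm (τ : ℝ) (b : ℕ) (x y : G) : ph0 τ b x y = ph0 τ b y x := by
  unfold ph0; rw [norm_sub_rev]

theorem ga1_harn (τ : ℝ) (hτ : 0 ≤ τ) (b : ℕ) (x y z : G) :
    ph0 τ b x z ≤ (1 + 2 ^ b * ‖x - y‖) ^ τ * ph0 τ b y z := by
  unfold ph0
  have h1 : ‖y - z‖ ≤ ‖x - y‖ + ‖x - z‖ := by
    have := norm_sub_le_norm_sub_add_norm_sub y x z
    rwa [norm_sub_rev y x] at this
  have ha : 0 ≤ ‖x - y‖ := norm_nonneg _
  have hb : 0 ≤ ‖x - z‖ := norm_nonneg _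
  have hp : (0:ℝ) < 2 ^ b := by positivity
  have h2 : 1 + 2 ^ b * ‖y - z‖ ≤ (1 + 2 ^ b * ‖x - y‖) * (1 + 2 ^ b * ‖x - z‖) := by
    have e1 : (2:ℝ) ^ b * ‖y - z‖ ≤ 2 ^ b * (‖x - y‖ + ‖x - z‖) :=
      mul_le_mul_of_nonneg_left h1 hp.le
    have e2 : 0 ≤ ((2:ℝ) ^ b * ‖x - y‖) * (2 ^ b * ‖x - z‖) := by positivity
    nlinarith
  have h3 : (1 + 2 ^ b * ‖y - z‖) ^ τ ≤
      (1 + 2 ^ b * ‖x - y‖) ^ τ * (1 + 2 ^ b * ‖x - z‖) ^ τ := by
    rw [← Real.mul_rpow (by positivity) (by positivity)]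
    exact Real.rpow_le_rpow (by positivity) h2 hτ
  rw [Real.rpow_neg (by positivity), Real.rpow_neg (by positivity)]
  rw [← div_eq_mul_inv, inv_eq_one_div, div_le_div_iff₀ (by positivity) (by positivity)]
  linarith

theorem ga1_cont (τ : ℝ) (hτ : 0 ≤ τ) (b : ℕ) (f : G → ℝ)
    (h : ∀ x y, f x ≤ (1 + 2 ^ b * ‖x - y‖) ^ τ * f y) : Continuous f := by
  rw [continuous_iff_continuousAt]
  intro y
  have hc : Continuous (fun x : G => (1 + (2:ℝ) ^ b * ‖x - y‖)) := by fun_prop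
  have h1 : Filter.Tendsto (fun x : G => (1 + (2:ℝ) ^ b * ‖x - y‖) ^ τ * f y) (nhds y)
      (nhds (f y)) := by
    have h2 : Continuous (fun x : G => (1 + (2:ℝ) ^ b * ‖x - y‖) ^ τ * f y) :=
      (hc.rpow_const (fun x => Or.inr hτ)).mul continuous_const
    have h3 := h2.tendsto y
    simpa using h3
  have h1' : Filter.Tendsto (fun x : G => (1 + (2:ℝ) ^ b * ‖x - y‖) ^ (-τ) * f y) (nhds y)
      (nhds (f y)) := by
    have h2 : Continuous (fun x : G => (1 + (2:ℝ) ^ b * ‖x - y‖) ^ (-τ) * f y) := by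
      refine (hc.rpow_const (fun x => Or.inl ?_)).mul continuous_const
      positivity
    have h3 := h2.tendsto y
    simpa using h3
  refine tendsto_of_tendsto_of_tendsto_of_le_of_le h1' h1 ?_ ?_
  · intro x
    have h4 := h y x
    simp only
    rw [norm_sub_rev y x] at h4
    rw [Real.rpow_neg (by positivity), inv_mul_le_iff₀ (by positivity)]
    exact h4
  · intro x
    exact h x y

/-- the sup of the profile over a cell -/
noncomputable def ga1_S (τ : ℝ) (b g i : ℕ) (x : G) : ℝ := sSup (ph0 τ b x '' Cell g i)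

theorem ga1_S_nonneg (τ : ℝ) (b g i : ℕ) (x : G) : 0 ≤ ga1_S τ b g i x := by
  unfold ga1_S
  apply Real.sSup_nonneg
  rintro _ ⟨z, _, rfl⟩
  exact (ga1_pos τ b x z).le

theorem ga1_S_ge (τ : ℝ) (hτ : 0 ≤ τ) (b g i : ℕ) (x z : G) (hz : z ∈ Cell g i) :
    ph0 τ b x z ≤ ga1_S τ b g i x := by
  unfold ga1_S
  apply le_csSup
  · refine ⟨1, ?_⟩
    rintro _ ⟨z, _, rfl⟩
    exact ga1_le1 τ hτ b x z
  · exact ⟨z, hz, rfl⟩

theorem ga1_S_harn (τ : ℝ) (hτ : 0 ≤ τ) (b g i : ℕ) (x y : G) :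
    ga1_S τ b g i x ≤ (1 + 2 ^ b * ‖x - y‖) ^ τ * ga1_S τ b g i y := by
  have h0 := ga1_S_nonneg τ b g i y
  unfold ga1_S
  apply Real.sSup_le
  · rintro _ ⟨z, hz, rfl⟩
    refine (ga1_harn τ hτ b x y z).trans ?_
    apply mul_le_mul_of_nonneg_left _ (by positivity)
    exact ga1_S_ge τ hτ b g i y z hz
  · exact mul_nonneg (by positivity) h0

theorem ga1_crf_eq (τ c ε : ℝ) (D₀ b : ℕ) (X : Finset G) (x : G) :
    crf τ c ε D₀ b X x = ∑ ξ ∈ X, ph0 τ b x ξ + ∑ l ∈ Finset.range b, (ε * (D₀ * 2 ^ l) / ((l : ℝ) + 1) ^ 2) *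
      ∑ i ∈ badc c D₀ b l X, ga1_S τ b (b - D₀ * 2 ^ l) i x := rfl

theorem ga1_crf_nonneg (τ c ε : ℝ) (hε : 0 ≤ ε) (D₀ b : ℕ) (X : Finset G) (x : G) :
    0 ≤ crf τ c ε D₀ b X x := by
  rw [ga1_crf_eq]
  apply add_nonneg
  · exact Finset.sum_nonneg (fun ξ _ => (ga1_pos τ b x ξ).le)
  · apply Finset.sum_nonneg
    intro l _
    apply mul_nonneg (by positivity)
    exact Finset.sum_nonneg (fun i _ => ga1_S_nonneg _ _ _ _ _)

theorem ga1_crf_harn (τ c ε : ℝ) (hτ : 0 ≤ τ) (hε : 0 ≤ ε) (D₀ b : ℕ) (X : Finset G) (x y : G) :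
    crf τ c ε D₀ b X x ≤ (1 + 2 ^ b * ‖x - y‖) ^ τ * crf τ c ε D₀ b X y := by
  rw [ga1_crf_eq, ga1_crf_eq, mul_add, Finset.mul_sum, Finset.mul_sum]
  apply add_le_add
  · exact Finset.sum_le_sum (fun ξ _ => ga1_harn τ hτ b x y ξ)
  · apply Finset.sum_le_sum
    intro l _
    rw [mul_left_comm ((1 + 2 ^ b * ‖x - y‖) ^ τ) (ε * (D₀ * 2 ^ l) / ((l : ℝ) + 1) ^ 2)]
    apply mul_le_mul_of_nonneg_left _ (by positivity)
    rw [Finset.mul_sum]
    exact Finset.sum_le_sum (fun i _ => ga1_S_harn τ hτ b _ i x y)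

theorem ga1_cnt (τ c ε : ℝ) (hτ : 0 ≤ τ) (hτ2 : τ ≤ 2) (hε : 0 ≤ ε) (D₀ b : ℕ) (X : Finset G) (x : G) :
    (nn X x (2 * (1 / 2) ^ b) : ℝ) ≤ 9 * crf τ c ε D₀ b X x := by
  have h1 : ∑ ξ ∈ X, ph0 τ b x ξ ≤ crf τ c ε D₀ b X x := by
    rw [ga1_crf_eq]
    have : 0 ≤ ∑ l ∈ Finset.range b, (ε * (D₀ * 2 ^ l) / ((l : ℝ) + 1) ^ 2) *
      ∑ i ∈ badc c D₀ b l X, ga1_S τ b (b - D₀ * 2 ^ l) i x := by
      apply Finset.sum_nonneg
      intro l _
      apply mul_nonneg (by positivity)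
      exact Finset.sum_nonneg (fun i _ => ga1_S_nonneg _ _ _ _ _)
    linarith
  have h2 : (nn X x (2 * (1 / 2) ^ b) : ℝ) * (1 / 9) ≤ ∑ ξ ∈ X, ph0 τ b x ξ := by
    unfold nn
    rw [← nsmul_eq_mul, ← Finset.sum_const]
    refine le_trans (Finset.sum_le_sum (g := fun ξ => ph0 τ b x ξ) ?_) ?_
    · intro ξ hξ
      rw [Finset.mem_filter] at hξ
      have h3 := hξ.2
      have h4 : (2:ℝ) ^ b * ‖x - ξ‖ ≤ 2 := by
        have h5 : (2:ℝ) ^ b * ‖x - ξ‖ ≤ 2 ^ b * (2 * (1 / 2) ^ b) :=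
          mul_le_mul_of_nonneg_left h3.le (by positivity)
        have h6 : (2:ℝ) ^ b * (2 * (1 / 2) ^ b) = 2 := by
          rw [mul_left_comm, ← mul_pow]; norm_num
        linarith
      unfold ph0
      have h7 : ((3:ℝ)) ^ (-τ) ≤ (1 + 2 ^ b * ‖x - ξ‖) ^ (-τ) := by
        apply Real.rpow_le_rpow_of_nonpos (by positivity) (by linarith) (by linarith)
      have h8 : ((3:ℝ)) ^ (-(2:ℝ)) ≤ 3 ^ (-τ) := by
        apply Real.rpow_le_rpow_of_exponent_le (by norm_num) (by linarith)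
      have h9 : ((3:ℝ)) ^ (-(2:ℝ)) = 1 / 9 := by
        rw [Real.rpow_neg (by norm_num)]; norm_num
      rw [← h9]
      exact h8.trans h7
    · exact Finset.sum_le_sum_of_subset_of_nonneg (Finset.filter_subset _ _)
        (fun ξ _ _ => (ga1_pos τ b x ξ).le)
  linarith

theorem ga1_intble (f : G → ℝ) (hf : Continuous f) : Integrable f hm :=
  hf.integrable_of_hasCompactSupport (HasCompactSupport.of_compactSpace f)

theorem ga1_ph_cont (τ : ℝ) (hτ : 0 ≤ τ) (b : ℕ) (y : G) : Continuous (fun x => ph0 τ b x y) :=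
  ga1_cont τ hτ b _ (fun x z => ga1_harn τ hτ b x z y)

theorem ga1_S_cont (τ : ℝ) (hτ : 0 ≤ τ) (b g i : ℕ) : Continuous (ga1_S τ b g i) :=
  ga1_cont τ hτ b _ (fun x z => ga1_S_harn τ hτ b g i x z)

theorem ga1_pi (τ : ℝ) (hτ : 0 ≤ τ) (hτ2 : τ ≤ 2) (b : ℕ) (u : ℝ) (hu : 0 ≤ u)
    (hu2 : u ≤ Real.pi * (1 / 2) ^ b) : (1 + 2 ^ b * u) ^ τ ≤ (25 : ℝ) := by
  have hp : (2:ℝ) ^ b * u ≤ Real.pi := by
    have h5 : (2:ℝ) ^ b * u ≤ 2 ^ b * (Real.pi * (1 / 2) ^ b) :=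
      mul_le_mul_of_nonneg_left hu2 (by positivity)
    have h6 : (2:ℝ) ^ b * (Real.pi * (1 / 2) ^ b) = Real.pi := by
      rw [mul_left_comm, ← mul_pow]; norm_num
    linarith
  have hpi := Real.pi_lt_four
  calc (1 + 2 ^ b * u) ^ τ ≤ (5:ℝ) ^ τ :=
        Real.rpow_le_rpow (by positivity) (by linarith) hτ
    _ ≤ (5:ℝ) ^ (2:ℝ) := Real.rpow_le_rpow_of_exponent_le (by norm_num) hτ2
    _ = 25 := by norm_num

/-- the integral of the profile -/
theorem ga1_int (hC : S_CEL) (hI : S_CIN) (hS : S_SEP) (τ : ℝ) (h1 : 1 < τ) (h2 : τ ≤ 2) :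
    ∃ C : ℝ, 1 ≤ C ∧ ∀ (b : ℕ) (y : G), ∫ x, ph0 τ b x y ∂hm ≤ C * (1 / 2) ^ b := by
  obtain ⟨c1, c2, c3, c4, c5, c6, c7, c8⟩ := hC
  obtain ⟨C, hC1, hsep, hsep2⟩ := hS τ h1
  refine ⟨25 * (2 * C), by linarith, ?_⟩
  intro b y
  have hτ : 0 ≤ τ := by linarith
  have hint := ga1_intble _ (ga1_ph_cont τ hτ b y)
  rw [(hI _ hint).1 b]
  have hstep : ∀ i ∈ Finset.range (2 ^ b), ∫ x in Cell b i, ph0 τ b x y ∂hm ≤
      (25 * (1 / 2) ^ b) * ph0 τ b (cen b i) y := by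
    intro i hi
    rw [Finset.mem_range] at hi
    have hb : ∀ x ∈ Cell b i, ph0 τ b x y ≤ 25 * ph0 τ b (cen b i) y := by
      intro x hx
      have hx' : cidx b x = i := hx
      have h3 := c7 b x
      rw [hx'] at h3
      refine (ga1_harn τ hτ b x (cen b i) y).trans ?_
      exact mul_le_mul_of_nonneg_right (ga1_pi τ hτ h2 b _ (norm_nonneg _) h3)
        (ga1_pos τ b _ y).le
    have h4 : ∫ x in Cell b i, ph0 τ b x y ∂hm ≤ ∫ x in Cell b i, 25 * ph0 τ b (cen b i) y ∂hm := by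
      apply setIntegral_mono_on hint.integrableOn (integrable_const _).integrableOn (c1 b i) hb
    refine h4.trans ?_
    rw [setIntegral_const, Measure.real, c3 b i hi, smul_eq_mul]
    apply le_of_eq
    ring
  refine (Finset.sum_le_sum hstep).trans ?_
  rw [← Finset.mul_sum]
  have hinj : Set.InjOn (fun i => cen b i) (Finset.range (2 ^ b) : Set ℕ) := by
    intro i hi j hj hij
    by_contra hne
    simp only [Finset.coe_range, Set.mem_Iio] at hi hj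
    have h5 := c8 b i j hi hj hne
    simp only at hij
    rw [hij, sub_self, norm_zero] at h5
    have : 0 < 2 * Real.pi * (1 / 2) ^ b := by positivity
    linarith
  have h6 : ∑ i ∈ Finset.range (2 ^ b), ph0 τ b (cen b i) y =
      ∑ z ∈ (Finset.range (2 ^ b)).image (fun i => cen b i), (1 + ‖y - z‖ / (1 / 2) ^ b) ^ (-τ) := by
    rw [Finset.sum_image hinj]
    apply Finset.sum_congr rfl
    intro i _
    rw [ga1_symm]
    unfold ph0
    congr 2
    rw [one_div, inv_pow, div_inv_eq_mul, mul_comm]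
  have h7 := hsep2 ((Finset.range (2 ^ b)).image (fun i => cen b i)) (2 * Real.pi * (1 / 2) ^ b)
    ((1 / 2) ^ b) y (by positivity) (by positivity) (by
      intro x hx z hz hxz
      rw [Finset.mem_image] at hx hz
      obtain ⟨i, hi, rfl⟩ := hx
      obtain ⟨j, hj, rfl⟩ := hz
      rw [Finset.mem_range] at hi hj
      apply c8 b i j hi hj
      rintro rfl
      exact hxz rfl)
  rw [h6]
  have h8 : (1:ℝ) + (1 / 2) ^ b / (2 * Real.pi * (1 / 2) ^ b) ≤ 2 := by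
    have : ((1:ℝ) / 2) ^ b / (2 * Real.pi * (1 / 2) ^ b) = 1 / (2 * Real.pi) := by
      field_simp
    rw [this]
    have h9 : 1 / (2 * Real.pi) ≤ 1 := by
      rw [div_le_one (by positivity)]
      have := Real.pi_gt_three
      linarith
    linarith
  have h10 : C * (1 + (1 / 2) ^ b / (2 * Real.pi * (1 / 2) ^ b)) ≤ C * 2 :=
    mul_le_mul_of_nonneg_left h8 (by linarith)
  calc 25 * (1 / 2) ^ b * ∑ z ∈ (Finset.range (2 ^ b)).image (fun i => cen b i), (1 + ‖y - z‖ / (1 / 2) ^ b) ^ (-τ)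
      ≤ 25 * (1 / 2) ^ b * (C * 2) := by
        apply mul_le_mul_of_nonneg_left (h7.trans h10) (by positivity)
    _ = 25 * (2 * C) * (1 / 2) ^ b := by ring

/-- the sup over a cell is bounded by a sum over subcells -/
theorem ga1_S_le (hC : S_CEL) (τ : ℝ) (h1 : 1 < τ) (h2 : τ ≤ 2) (b g i : ℕ) (hg : g ≤ b) (x : G) :
    ga1_S τ b g i x ≤ 25 * ∑ m ∈ (Finset.range (2 ^ b)).filter (fun m => m / 2 ^ (b - g) = i),
      ph0 τ b x (cen b m) := by
  obtain ⟨c1, c2, c3, c4, c5, c6, c7, c8⟩ := hC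
  have hτ : 0 ≤ τ := by linarith
  have hnn : 0 ≤ 25 * ∑ m ∈ (Finset.range (2 ^ b)).filter (fun m => m / 2 ^ (b - g) = i),
      ph0 τ b x (cen b m) := by
    apply mul_nonneg (by norm_num)
    exact Finset.sum_nonneg (fun m _ => (ga1_pos τ b x _).le)
  unfold ga1_S
  apply Real.sSup_le _ hnn
  rintro _ ⟨z, hz, rfl⟩
  have hz' : cidx g z = i := hz
  have h3 := c4 g (b - g) z
  rw [Nat.add_sub_cancel' hg, hz'] at h3
  have h4 := c7 b z
  have h5 : ph0 τ b x z ≤ 25 * ph0 τ b x (cen b (cidx b z)) := by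
    rw [ga1_symm τ b x z, ga1_symm τ b x (cen b (cidx b z))]
    refine (ga1_harn τ hτ b z (cen b (cidx b z)) x).trans ?_
    exact mul_le_mul_of_nonneg_right (ga1_pi τ hτ h2 b _ (norm_nonneg _) h4) (ga1_pos τ b _ x).le
  refine h5.trans ?_
  apply mul_le_mul_of_nonneg_left _ (by norm_num)
  apply Finset.single_le_sum (f := fun m => ph0 τ b x (cen b m)) (fun m _ => (ga1_pos τ b x _).le)
  rw [Finset.mem_filter, Finset.mem_range]
  exact ⟨c2 b z, h3.symm⟩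

theorem ga1_card (b g i : ℕ) :
    (((Finset.range (2 ^ b)).filter (fun m => m / 2 ^ (b - g) = i)).card : ℝ) ≤ 2 ^ (b - g) := by
  have h1 : (Finset.range (2 ^ b)).filter (fun m => m / 2 ^ (b - g) = i) ⊆
      Finset.Ico (i * 2 ^ (b - g)) ((i + 1) * 2 ^ (b - g)) := by
    intro m hm
    rw [Finset.mem_filter] at hm
    have hp : 0 < 2 ^ (b - g) := by positivity
    have h2 := hm.2
    rw [Finset.mem_Ico]
    rw [← h2]
    refine ⟨Nat.div_mul_le_self _ _, ?_⟩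
    exact Nat.lt_mul_of_div_lt (Nat.lt_succ_self _) hp
  have h2 := Finset.card_le_card h1
  rw [Nat.card_Ico] at h2
  have h3 : (i + 1) * 2 ^ (b - g) - i * 2 ^ (b - g) = 2 ^ (b - g) := by
    rw [add_mul, one_mul, Nat.add_sub_cancel_left]
  rw [h3] at h2
  exact_mod_cast h2

theorem ga1_S_int (hC : S_CEL) (τ : ℝ) (h1 : 1 < τ) (h2 : τ ≤ 2) (C : ℝ) (hC0 : 0 ≤ C)
    (hint : ∀ (b : ℕ) (y : G), ∫ x, ph0 τ b x y ∂hm ≤ C * (1 / 2) ^ b) (b g i : ℕ) (hg : g ≤ b) :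
    ∫ x, ga1_S τ b g i x ∂hm ≤ 25 * C * (1 / 2) ^ g := by
  have hτ : 0 ≤ τ := by linarith
  have h3 : ∫ x, ga1_S τ b g i x ∂hm ≤ ∫ x, (25 * ∑ m ∈ (Finset.range (2 ^ b)).filter (fun m => m / 2 ^ (b - g) = i),
      ph0 τ b x (cen b m)) ∂hm := by
    apply integral_mono (ga1_intble _ (ga1_S_cont τ hτ b g i)) _ (fun x => ga1_S_le hC τ h1 h2 b g i hg x)
    apply ga1_intble
    apply continuous_const.mul
    apply continuous_finsetSum
    intro m _
    exact ga1_ph_cont τ hτ b _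
  refine h3.trans ?_
  rw [integral_const_mul, integral_finsetSum _ (fun m _ => ga1_intble _ (ga1_ph_cont τ hτ b _))]
  have h4 : ∑ m ∈ (Finset.range (2 ^ b)).filter (fun m => m / 2 ^ (b - g) = i),
      ∫ x, ph0 τ b x (cen b m) ∂hm ≤ 2 ^ (b - g) * (C * (1 / 2) ^ b) := by
    refine (Finset.sum_le_sum (fun m _ => hint b (cen b m))).trans ?_
    rw [Finset.sum_const, nsmul_eq_mul]
    exact mul_le_mul_of_nonneg_right (ga1_card b g i) (by positivity)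
  have h5 : (2:ℝ) ^ (b - g) * (C * (1 / 2) ^ b) = C * (1 / 2) ^ g := by
    obtain ⟨k, rfl⟩ := Nat.exists_eq_add_of_le hg
    rw [Nat.add_sub_cancel_left, pow_add]
    have : (2:ℝ) ^ k * (1 / 2) ^ k = 1 := by rw [← mul_pow]; norm_num
    calc (2:ℝ) ^ k * (C * ((1 / 2) ^ g * (1 / 2) ^ k)) = C * (1 / 2) ^ g * (2 ^ k * (1 / 2) ^ k) := by ring
      _ = C * (1 / 2) ^ g := by rw [this, mul_one]
  rw [h5] at h4
  nlinarith

theorem ga1_bad (hC : S_CEL) (c : ℝ) (D₀ b l : ℕ) (X : Finset G) :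
    ((badc c D₀ b l X).card : ℝ) * (c * (D₀ * 2 ^ l) * 2 ^ b * (1 / 2) ^ (b - D₀ * 2 ^ l)) ≤ X.card := by
  obtain ⟨c1, c2, c3, c4, c5, c6, c7, c8⟩ := hC
  have h1 : X.card = ∑ i ∈ Finset.range (2 ^ (b - D₀ * 2 ^ l)), nc X (b - D₀ * 2 ^ l) i := by
    unfold nc
    apply Finset.card_eq_sum_card_fiberwise
    intro ξ _
    simp only [Finset.coe_range, Set.mem_Iio]
    exact c2 _ ξ
  have h2 : ∑ i ∈ badc c D₀ b l X, (nc X (b - D₀ * 2 ^ l) i : ℝ) ≤ X.card := by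
    rw [h1]
    push_cast
    apply Finset.sum_le_sum_of_subset_of_nonneg
    · unfold badc
      exact Finset.filter_subset _ _
    · intro i _ _
      positivity
  refine le_trans ?_ h2
  rw [← nsmul_eq_mul, ← Finset.sum_const]
  apply Finset.sum_le_sum
  intro i hi
  unfold badc at hi
  rw [Finset.mem_filter] at hi
  exact hi.2

theorem ga1_sum2 (n : ℕ) : ∑ l ∈ Finset.range (n + 1), 1 / ((l : ℝ) + 1) ^ 2 ≤ 2 - 1 / ((n:ℝ) + 1) := by
  induction n with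
  | zero => norm_num
  | succ n ih =>
    rw [Finset.sum_range_succ]
    have h1 : 1 / ((n:ℝ) + 1 + 1) ^ 2 ≤ 1 / ((n:ℝ) + 1) - 1 / ((n : ℝ) + 1 + 1) := by
      rw [div_sub_div _ _ (by positivity) (by positivity), div_le_div_iff₀ (by positivity) (by positivity)]
      have : (0:ℝ) ≤ n := Nat.cast_nonneg n
      nlinarith
    push_cast
    linarith

theorem ga1_sum (b : ℕ) : ∑ l ∈ Finset.range b, 1 / ((l : ℝ) + 1) ^ 2 ≤ 2 := by
  cases b with
  | zero => simp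
  | succ n =>
    have h1 := ga1_sum2 n
    have h2 : 0 ≤ 1 / ((n:ℝ) + 1) := by positivity
    linarith

theorem t_GA1 (hC : S_CEL) (hI : S_CIN) (hS : S_SEP) : S_GA1 := by
  intro τ h1 h2 c ε hc hc1 hε hε1
  have hτ : 0 ≤ τ := by linarith
  obtain ⟨C, hC1, hint⟩ := ga1_int hC hI hS τ h1 h2
  have hC0 : 0 ≤ C := by linarith
  refine ⟨9 + C + 50 * C * (ε / c), ?_, ?_⟩
  · have : 0 ≤ 50 * C * (ε / c) := by positivity
    linarith
  intro D₀ b X hD
  have hK : 0 ≤ 50 * C * (ε / c) := by positivity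
  refine ⟨?_, ga1_crf_nonneg τ c ε hε.le D₀ b X, ga1_crf_harn τ c ε hτ hε.le D₀ b X, ?_, ?_⟩
  · exact (ga1_cont τ hτ b _ (ga1_crf_harn τ c ε hτ hε.le D₀ b X)).measurable
  · intro x
    refine (ga1_cnt τ c ε hτ h2 hε.le D₀ b X x).trans ?_
    apply mul_le_mul_of_nonneg_right _ (ga1_crf_nonneg τ c ε hε.le D₀ b X x)
    linarith
  · have e1 : ∫ x, crf τ c ε D₀ b X x ∂hm = ∑ ξ ∈ X, ∫ x, ph0 τ b x ξ ∂hm +
        ∑ l ∈ Finset.range b, (ε * (D₀ * 2 ^ l) / ((l : ℝ) + 1) ^ 2) *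
          ∑ i ∈ badc c D₀ b l X, ∫ x, ga1_S τ b (b - D₀ * 2 ^ l) i x ∂hm := by
      simp only [ga1_crf_eq]
      rw [integral_add, integral_finsetSum, integral_finsetSum]
      · congr 1
        apply Finset.sum_congr rfl
        intro l _
        rw [integral_const_mul, integral_finsetSum]
        intro i _
        exact ga1_intble _ (ga1_S_cont τ hτ b _ i)
      · intro l _
        apply ga1_intble
        apply continuous_const.mul
        apply continuous_finsetSum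
        intro i _
        exact ga1_S_cont τ hτ b _ i
      · intro ξ _
        exact ga1_intble _ (ga1_ph_cont τ hτ b ξ)
      · apply ga1_intble
        apply continuous_finsetSum
        intro ξ _
        exact ga1_ph_cont τ hτ b ξ
      · apply ga1_intble
        apply continuous_finsetSum
        intro l _
        apply continuous_const.mul
        apply continuous_finsetSum
        intro i _
        exact ga1_S_cont τ hτ b _ i
    rw [e1]
    have e2 : ∑ ξ ∈ X, ∫ x, ph0 τ b x ξ ∂hm ≤ C * X.card * (1 / 2) ^ b := by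
      refine (Finset.sum_le_sum (fun ξ _ => hint b ξ)).trans ?_
      rw [Finset.sum_const, nsmul_eq_mul]
      apply le_of_eq
      ring
    have e3 : ∀ l ∈ Finset.range b, (ε * (D₀ * 2 ^ l) / ((l : ℝ) + 1) ^ 2) *
          ∑ i ∈ badc c D₀ b l X, ∫ x, ga1_S τ b (b - D₀ * 2 ^ l) i x ∂hm ≤
        (25 * C * (ε / c) * X.card * (1 / 2) ^ b) * (1 / ((l : ℝ) + 1) ^ 2) := by
      intro l _
      have f1 : ∑ i ∈ badc c D₀ b l X, ∫ x, ga1_S τ b (b - D₀ * 2 ^ l) i x ∂hm ≤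
          (badc c D₀ b l X).card * (25 * C * (1 / 2) ^ (b - D₀ * 2 ^ l)) := by
        refine (Finset.sum_le_sum (fun i _ =>
          ga1_S_int hC τ h1 h2 C hC0 hint b (b - D₀ * 2 ^ l) i (Nat.sub_le _ _))).trans ?_
        rw [Finset.sum_const, nsmul_eq_mul]
      have f2 := ga1_bad hC c D₀ b l X
      have hD' : (0:ℝ) < D₀ := by exact_mod_cast hD
      have f3 : (ε * (D₀ * 2 ^ l) / ((l : ℝ) + 1) ^ 2) *
          ∑ i ∈ badc c D₀ b l X, ∫ x, ga1_S τ b (b - D₀ * 2 ^ l) i x ∂hm ≤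
          (ε * (D₀ * 2 ^ l) / ((l : ℝ) + 1) ^ 2) *
          ((badc c D₀ b l X).card * (25 * C * (1 / 2) ^ (b - D₀ * 2 ^ l))) :=
        mul_le_mul_of_nonneg_left f1 (by positivity)
      refine f3.trans ?_
      have hpp : (2:ℝ) ^ b * (1 / 2) ^ b = 1 := by rw [← mul_pow]; norm_num
      have f4 : (ε * (D₀ * 2 ^ l) / ((l : ℝ) + 1) ^ 2) *
          ((badc c D₀ b l X).card * (25 * C * (1 / 2) ^ (b - D₀ * 2 ^ l))) =
          (25 * C * (ε / c) * (1 / 2) ^ b * (1 / ((l : ℝ) + 1) ^ 2)) *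
          (((badc c D₀ b l X).card : ℝ) * (c * (D₀ * 2 ^ l) * 2 ^ b * (1 / 2) ^ (b - D₀ * 2 ^ l))) := by
        have hcc : ε / c * c = ε := by field_simp
        calc (ε * (D₀ * 2 ^ l) / ((l : ℝ) + 1) ^ 2) *
          ((badc c D₀ b l X).card * (25 * C * (1 / 2) ^ (b - D₀ * 2 ^ l))) =
            ε * 1 * (25 * C * (1 / ((l : ℝ) + 1) ^ 2) * (badc c D₀ b l X).card * (D₀ * 2 ^ l) * (1 / 2) ^ (b - D₀ * 2 ^ l)) := by
              ring
          _ = (ε / c * c) * ((2:ℝ) ^ b * (1 / 2) ^ b) * (25 * C * (1 / ((l : ℝ) + 1) ^ 2) * (badc c D₀ b l X).card * (D₀ * 2 ^ l) * (1 / 2) ^ (b - D₀ * 2 ^ l)) := by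
              rw [hcc, hpp]
          _ = _ := by ring
      rw [f4]
      have f5 : (25 * C * (ε / c) * (1 / 2) ^ b * (1 / ((l : ℝ) + 1) ^ 2)) *
          (((badc c D₀ b l X).card : ℝ) * (c * (D₀ * 2 ^ l) * 2 ^ b * (1 / 2) ^ (b - D₀ * 2 ^ l))) ≤
          (25 * C * (ε / c) * (1 / 2) ^ b * (1 / ((l : ℝ) + 1) ^ 2)) * X.card :=
        mul_le_mul_of_nonneg_left f2 (by positivity)
      refine f5.trans (le_of_eq ?_)
      ring
    have e4 := Finset.sum_le_sum e3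
    rw [← Finset.mul_sum] at e4
    have e5 : (25 * C * (ε / c) * X.card * (1 / 2) ^ b) * ∑ l ∈ Finset.range b, 1 / ((l : ℝ) + 1) ^ 2 ≤
        (25 * C * (ε / c) * X.card * (1 / 2) ^ b) * 2 :=
      mul_le_mul_of_nonneg_left (ga1_sum b) (by positivity)
    have e6 : 0 ≤ 9 * (X.card : ℝ) * (1 / 2) ^ b := by positivity
    calc _ ≤ C * X.card * (1 / 2) ^ b + (25 * C * (ε / c) * X.card * (1 / 2) ^ b) * 2 :=
          add_le_add e2 (e4.trans e5)
      _ ≤ C * X.card * (1 / 2) ^ b + (25 * C * (ε / c) * X.card * (1 / 2) ^ b) * 2 + 9 * (X.card : ℝ) * (1 / 2) ^ b := by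
          linarith
      _ = (9 + C + 50 * C * (ε / c)) * X.card * (1 / 2) ^ b := by ring

end Pool.Agent.H729R2.FO
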