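import Mathlib
import Pool.Agent.H729R2.FO.Stubs

/-!
# GA2: the dichotomy for the gauge function
-/

set_option autoImplicit false

namespace Pool.Agent.H729R2.FO

open MeasureTheory Pool.Agent.H729R2.CB Pool.Agent.Helper150.Cub

open scoped Classical

noncomputable section

lemma ga2_one_le (b : ℕ) (x y : G) : (1 : ℝ) ≤ 1 + 2 ^ b * ‖x - y‖ := by
  have : 0 ≤ (2 : ℝ) ^ b * ‖x - y‖ := by positivity
  linarith

lemma ga2_ph0_pos (τ : ℝ) (b : ℕ) (x y : G) : 0 < ph0 τ b x y :=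
  Real.rpow_pos_of_pos (lt_of_lt_of_le one_pos (ga2_one_le b x y)) _

lemma ga2_ph0_le_one {τ : ℝ} (hτ : 0 ≤ τ) (b : ℕ) (x y : G) : ph0 τ b x y ≤ 1 :=
  Real.rpow_le_one_of_one_le_of_nonpos (ga2_one_le b x y) (by linarith)

lemma ga2_ph0_self (τ : ℝ) (b : ℕ) (x : G) : ph0 τ b x x = 1 := by
  simp [ph0]

lemma ga2_ph0_comm (τ : ℝ) (b : ℕ) (x y : G) : ph0 τ b x y = ph0 τ b y x := by
  simp only [ph0, norm_sub_rev]

lemma ga2_rpow {τ A P Q : ℝ} (hτ2 : τ ≤ 2) (hτ : 0 ≤ τ) (hA : 1 ≤ A) (_hP : 0 < P) (hQ : 0 < Q)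
    (h : Q ≤ A * P) : P ^ (-τ) ≤ A ^ 2 * Q ^ (-τ) := by
  have hA0 : 0 < A := by linarith
  have h1 : Q / A ≤ P := by
    rw [div_le_iff₀ hA0]
    linarith [mul_comm A P]
  have h2 : P ^ (-τ) ≤ (Q / A) ^ (-τ) :=
    Real.rpow_le_rpow_of_nonpos (by positivity) h1 (by linarith)
  have h3 : (Q / A) ^ (-τ) = A ^ τ * Q ^ (-τ) := by
    rw [Real.div_rpow hQ.le hA0.le, Real.rpow_neg hA0.le, div_inv_eq_mul, mul_comm]
  have h4 : A ^ τ ≤ A ^ (2 : ℝ) := Real.rpow_le_rpow_of_exponent_le hA hτ2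
  rw [Real.rpow_two] at h4
  rw [h3] at h2
  exact h2.trans (mul_le_mul_of_nonneg_right h4 (Real.rpow_nonneg hQ.le _))

lemma ga2_ph0_cmp {τ A : ℝ} (hτ2 : τ ≤ 2) (hτ : 0 ≤ τ) (hA : 1 ≤ A) (b : ℕ) (x x' y : G)
    (h : ‖x' - y‖ ≤ A * ‖x - y‖) : ph0 τ b x y ≤ A ^ 2 * ph0 τ b x' y := by
  unfold ph0
  refine ga2_rpow hτ2 hτ hA (lt_of_lt_of_le one_pos (ga2_one_le b x y))
    (lt_of_lt_of_le one_pos (ga2_one_le b x' y)) ?_
  have h1 : (2 : ℝ) ^ b * ‖x' - y‖ ≤ 2 ^ b * (A * ‖x - y‖) :=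
    mul_le_mul_of_nonneg_left h (by positivity)
  nlinarith

lemma ga2_bdd {τ : ℝ} (hτ : 0 ≤ τ) (b : ℕ) (x : G) (s : Set G) : BddAbove (ph0 τ b x '' s) :=
  ⟨1, by rintro _ ⟨y, -, rfl⟩; exact ga2_ph0_le_one hτ b x y⟩

lemma ga2_le_sup {τ : ℝ} (hτ : 0 ≤ τ) (b : ℕ) (x y : G) (s : Set G) (hy : y ∈ s) :
    ph0 τ b x y ≤ sSup (ph0 τ b x '' s) :=
  le_csSup (ga2_bdd hτ b x s) ⟨y, hy, rfl⟩

lemma ga2_sup_nonneg (τ : ℝ) (b : ℕ) (x : G) (s : Set G) : 0 ≤ sSup (ph0 τ b x '' s) :=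
  Real.sSup_nonneg (by rintro _ ⟨y, -, rfl⟩; exact (ga2_ph0_pos τ b x y).le)

lemma ga2_sumsup (hC : S_CEL) (hS : S_SEP) (τ : ℝ) (h1 : 1 < τ) (h2 : τ ≤ 2) :
    ∃ T : ℝ, 1 ≤ T ∧ ∀ (b g : ℕ), g ≤ b → ∀ (s : Finset ℕ), s ⊆ Finset.range (2 ^ g) → ∀ x : G,
      ∑ i ∈ s, sSup (ph0 τ b x '' Cell g i) ≤ T := by
  obtain ⟨C, hC1, -, hsep⟩ := hS τ h1
  obtain ⟨hcm, hcl, hcv, hcn, hcd, hcc, hce, hcs⟩ := hC
  refine ⟨36 * C, by linarith, ?_⟩
  intro b g hg s hs x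
  have hpi := Real.pi_gt_three
  have hpi2 := Real.pi_lt_d2
  have hg0 : (0 : ℝ) < (1 / 2) ^ g := by positivity
  have h5 : (2 : ℝ) ^ g * (1 / 2) ^ g = 1 := by rw [← mul_pow]; norm_num
  have hterm : ∀ i ∈ s, sSup (ph0 τ b x '' Cell g i) ≤
      18 * (1 + ‖x - cen g i‖ / (1 / 2) ^ g) ^ (-τ) := by
    intro i hi
    refine Real.sSup_le ?_ (by positivity)
    rintro _ ⟨y, hy, rfl⟩
    have hy' : cidx g y = i := hy
    have h3 := hce g y
    rw [hy'] at h3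
    have h4 : ‖x - cen g i‖ ≤ ‖x - y‖ + ‖y - cen g i‖ := by
      have := norm_add_le (x - y) (y - cen g i)
      simpa using this
    have h6 : (2 : ℝ) ^ g ≤ 2 ^ b := pow_le_pow_right₀ (by norm_num) hg
    have h7 : ‖x - cen g i‖ / (1 / 2) ^ g = 2 ^ g * ‖x - cen g i‖ := by
      rw [div_eq_iff hg0.ne']
      linear_combination (-‖x - cen g i‖) * h5
    have h8 : (1 + 2 ^ b * ‖x - y‖) ^ (-τ) ≤
        (1 + Real.pi) ^ 2 * (1 + ‖x - cen g i‖ / (1 / 2) ^ g) ^ (-τ) := by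
      refine ga2_rpow h2 (by linarith) (by linarith) (by positivity) (by positivity) ?_
      rw [h7]
      have h9 : (2 : ℝ) ^ g * ‖x - cen g i‖ ≤ 2 ^ g * ‖x - y‖ + Real.pi := by
        calc (2 : ℝ) ^ g * ‖x - cen g i‖ ≤ 2 ^ g * (‖x - y‖ + Real.pi * (1 / 2) ^ g) :=
              mul_le_mul_of_nonneg_left (by linarith) (by positivity)
          _ = 2 ^ g * ‖x - y‖ + Real.pi * (2 ^ g * (1 / 2) ^ g) := by ring
          _ = 2 ^ g * ‖x - y‖ + Real.pi := by rw [h5, mul_one]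
      have h10 : (2 : ℝ) ^ g * ‖x - y‖ ≤ 2 ^ b * ‖x - y‖ :=
        mul_le_mul_of_nonneg_right h6 (norm_nonneg _)
      have h11 : 0 ≤ Real.pi * (2 ^ b * ‖x - y‖) := by positivity
      nlinarith
    refine h8.trans (mul_le_mul_of_nonneg_right ?_ (by positivity))
    nlinarith
  have hinj : Set.InjOn (cen g) s := by
    intro i hi i' hi' he
    by_contra hne
    have h3 := hcs g i i' (Finset.mem_range.1 (hs hi)) (Finset.mem_range.1 (hs hi')) hne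
    rw [he, sub_self, norm_zero] at h3
    have : 0 < 2 * Real.pi * (1 / 2) ^ g := by positivity
    linarith
  have hsepd : Sepd (2 * Real.pi * (1 / 2) ^ g) (s.image (cen g)) := by
    intro u hu v hv huv
    obtain ⟨i, hi, rfl⟩ := Finset.mem_image.1 hu
    obtain ⟨i', hi', rfl⟩ := Finset.mem_image.1 hv
    exact hcs g i i' (Finset.mem_range.1 (hs hi)) (Finset.mem_range.1 (hs hi'))
      (fun h => huv (by rw [h]))
  have h12 := hsep (s.image (cen g)) (2 * Real.pi * (1 / 2) ^ g) ((1 / 2) ^ g) x (by positivity)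
    hg0 hsepd
  rw [Finset.sum_image hinj] at h12
  have h13 : (1 / 2 : ℝ) ^ g / (2 * Real.pi * (1 / 2) ^ g) ≤ 1 := by
    rw [div_le_one (by positivity)]
    nlinarith
  calc ∑ i ∈ s, sSup (ph0 τ b x '' Cell g i)
      ≤ ∑ i ∈ s, 18 * (1 + ‖x - cen g i‖ / (1 / 2) ^ g) ^ (-τ) := Finset.sum_le_sum hterm
    _ = 18 * ∑ i ∈ s, (1 + ‖x - cen g i‖ / (1 / 2) ^ g) ^ (-τ) := by rw [Finset.mul_sum]
    _ ≤ 18 * (C * (1 + 1)) := by
      refine mul_le_mul_of_nonneg_left (h12.trans ?_) (by norm_num)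
      exact mul_le_mul_of_nonneg_left (by linarith) (by linarith)
    _ = 36 * C := by ring

lemma ga2_cont (τ : ℝ) (b : ℕ) (y : G) : Continuous (fun x => ph0 τ b x y) := by
  unfold ph0
  refine Continuous.rpow_const (by fun_prop) (fun x => Or.inl ?_)
  exact (lt_of_lt_of_le one_pos (ga2_one_le b x y)).ne'

lemma ga2_intble {τ : ℝ} (b : ℕ) (y : G) : Integrable (fun x => ph0 τ b x y) hm :=
  (ga2_cont τ b y).integrable_of_hasCompactSupport (HasCompactSupport.of_compactSpace _)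

lemma ga2_int (hC : S_CEL) (hI : S_CIN) {τ T : ℝ} (hτ : 0 ≤ τ)
    (hT : ∀ (b g : ℕ), g ≤ b → ∀ (s : Finset ℕ), s ⊆ Finset.range (2 ^ g) → ∀ x : G,
      ∑ i ∈ s, sSup (ph0 τ b x '' Cell g i) ≤ T) (b : ℕ) (y : G) :
    ∫ x, ph0 τ b x y ∂hm ≤ T * (1 / 2) ^ b := by
  obtain ⟨hcm, hcl, hcv, hcn, hcd, hcc, hce, hcs⟩ := hC
  rw [(hI _ (ga2_intble b y)).1 b]
  calc ∑ i ∈ Finset.range (2 ^ b), ∫ x in Cell b i, ph0 τ b x y ∂hm
      ≤ ∑ i ∈ Finset.range (2 ^ b), sSup (ph0 τ b y '' Cell b i) * (1 / 2) ^ b := by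
        refine Finset.sum_le_sum fun i hi => ?_
        have h1 : ∫ x in Cell b i, ph0 τ b x y ∂hm ≤
            ∫ x in Cell b i, sSup (ph0 τ b y '' Cell b i) ∂hm := by
          refine setIntegral_mono_on (ga2_intble b y).integrableOn (integrable_const _).integrableOn
            (hcm b i) ?_
          intro x hx
          rw [ga2_ph0_comm]
          exact ga2_le_sup hτ b y x _ hx
        refine h1.trans (le_of_eq ?_)
        rw [setIntegral_const, smul_eq_mul, mul_comm]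
        congr 1
        exact hcv b i (Finset.mem_range.1 hi)
    _ = (∑ i ∈ Finset.range (2 ^ b), sSup (ph0 τ b y '' Cell b i)) * (1 / 2) ^ b := by
        rw [Finset.sum_mul]
    _ ≤ T * (1 / 2) ^ b :=
        mul_le_mul_of_nonneg_right (hT b b le_rfl _ (Finset.Subset.refl _) y) (by positivity)

lemma ga2_rep (x : G) : 0 ≤ rep x ∧ rep x < 2 * Real.pi ∧ ((rep x : ℝ) : G) = x := by
  have h := (AddCircle.equivIco (2 * Real.pi) 0 x).2
  refine ⟨h.1, by simpa [rep] using h.2, AddCircle.coe_equivIco⟩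

lemma ga2_geo (g i k : ℕ) (x y : G) (hk : 1 ≤ k) (hk2 : k ≤ 14) (hi : i < 2 ^ g)
    (hx : cidx (g + 4) x = 16 * i + k) (hy : cidx g y ≠ i) :
    2 * Real.pi * (1 / 2) ^ (g + 4) ≤ ‖x - y‖ := by
  obtain ⟨ha0, ha1, hax⟩ := ga2_rep x
  obtain ⟨hc0, hc1, hcy⟩ := ga2_rep y
  obtain ⟨h, hh⟩ : ∃ h, h = 2 * Real.pi * (1 / 2 : ℝ) ^ (g + 4) := ⟨_, rfl⟩
  have hh0 : 0 < h := by rw [hh]; positivity
  have h2 : (2 : ℝ) ^ (g + 4) * (1 / 2) ^ (g + 4) = 1 := by rw [← mul_pow]; norm_num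
  have hh1 : h * 2 ^ (g + 4) = 2 * Real.pi := by rw [hh]; linear_combination (2 * Real.pi) * h2
  have hh2 : 16 * h * 2 ^ g = 2 * Real.pi := by rw [← hh1]; ring
  have hiR : ((i : ℝ) + 1) ≤ 2 ^ g := by exact_mod_cast hi
  have h3 : 16 * h * ((i : ℝ) + 1) ≤ 2 * Real.pi := by
    rw [← hh2]
    exact mul_le_mul_of_nonneg_left hiR (by positivity)
  -- floors
  unfold cidx at hx hy
  have e1 : rep x * 2 ^ (g + 4) / (2 * Real.pi) = rep x / h := by
    rw [← hh1, mul_div_mul_right _ _ (by positivity)]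
  have e2 : rep y * 2 ^ g / (2 * Real.pi) = rep y / (16 * h) := by
    rw [← hh2, mul_div_mul_right _ _ (by positivity)]
  rw [e1, Nat.floor_eq_iff (by positivity)] at hx
  rw [e2, Ne, Nat.floor_eq_iff (by positivity)] at hy
  rw [le_div_iff₀ hh0, div_lt_iff₀ hh0] at hx
  rw [le_div_iff₀ (by positivity), div_lt_iff₀ (by positivity)] at hy
  obtain ⟨hx1, hx2⟩ := hx
  push_cast at hx1 hx2
  have hkR : (1 : ℝ) ≤ k := by exact_mod_cast hk
  have hkR2 : (k : ℝ) ≤ 14 := by exact_mod_cast hk2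
  have hi0 : (0 : ℝ) ≤ i := Nat.cast_nonneg i
  have hx3 : (16 * (i : ℝ) + 1) * h ≤ rep x := by nlinarith
  have hx4 : rep x < (16 * (i : ℝ) + 15) * h := by nlinarith
  have hx5 : 0 ≤ (i : ℝ) * h := by positivity
  rw [← hh]
  by_contra hlt
  push Not at hlt
  apply hy
  have e3 : ‖x - y‖ = |(rep x - rep y) - round ((2 * Real.pi)⁻¹ * (rep x - rep y)) * (2 * Real.pi)| := by
    rw [← AddCircle.norm_eq]
    congr 1
    rw [AddCircle.coe_sub, hax, hcy]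
  rw [e3, abs_lt] at hlt
  obtain ⟨n, hn⟩ : ∃ n : ℤ, n = round ((2 * Real.pi)⁻¹ * (rep x - rep y)) := ⟨_, rfl⟩
  rw [← hn] at hlt
  obtain ⟨hlt1, hlt2⟩ := hlt
  have hpi := Real.pi_pos
  rcases lt_trichotomy n 0 with h0 | h0 | h0
  · exfalso
    have : (n : ℝ) ≤ -1 := by exact_mod_cast Int.le_sub_one_of_lt h0
    nlinarith
  · subst h0
    rw [← hn] at *
    simp only [Int.cast_zero, zero_mul, sub_zero] at hlt1 hlt2
    constructor <;> nlinarith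
  · exfalso
    have : (1 : ℝ) ≤ n := by exact_mod_cast h0
    nlinarith

lemma ga2_TT (β₀ j : ℕ) (h : 1 ≤ β₀) : 2 * j ≤ TT β₀ j := by
  unfold TT
  calc 2 * j = ∑ i ∈ Finset.range j, 2 := by simp [mul_comm]
    _ ≤ _ := Finset.sum_le_sum fun i _ => by unfold be; omega

lemma ga2_k (k : ℕ) : (k + 1) ^ 2 ≤ 4 * 2 ^ k := by
  induction k with
  | zero => norm_num
  | succ n ih =>
    rcases Nat.lt_or_ge n 2 with h | h
    · interval_cases n <;> norm_num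
    · have : (2 : ℕ) ^ (n + 1) = 2 * 2 ^ n := by ring
      nlinarith

lemma ga2_w (l l' : ℕ) (h : l ≤ l') :
    ((l' : ℝ) + 1) ^ 2 * 2 ^ l ≤ 4 * ((l : ℝ) + 1) ^ 2 * 2 ^ l' := by
  obtain ⟨k, rfl⟩ := Nat.exists_eq_add_of_le h
  have h1 : ((k : ℝ) + 1) ^ 2 ≤ 4 * 2 ^ k := by exact_mod_cast ga2_k k
  have h2 : (((l + k : ℕ) : ℝ) + 1) ≤ ((l : ℝ) + 1) * ((k : ℝ) + 1) := by
    push_cast
    have : (0 : ℝ) ≤ (l : ℝ) * k := by positivity
    nlinarith
  have h3 : (((l + k : ℕ) : ℝ) + 1) ^ 2 ≤ (((l : ℝ) + 1) * ((k : ℝ) + 1)) ^ 2 :=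
    pow_le_pow_left₀ (by positivity) h2 2
  have h4 : (((l : ℝ) + 1) * ((k : ℝ) + 1)) ^ 2 ≤ ((l : ℝ) + 1) ^ 2 * (4 * 2 ^ k) := by
    rw [mul_pow]
    exact mul_le_mul_of_nonneg_left h1 (by positivity)
  calc (((l + k : ℕ) : ℝ) + 1) ^ 2 * 2 ^ l ≤ (((l : ℝ) + 1) ^ 2 * (4 * 2 ^ k)) * 2 ^ l :=
        mul_le_mul_of_nonneg_right (h3.trans h4) (by positivity)
    _ = 4 * ((l : ℝ) + 1) ^ 2 * 2 ^ (l + k) := by rw [pow_add]; ring

lemma ga2_ball (ξ : G) (t : ℝ) (ht : 0 ≤ t) : (hm.real (Metric.closedBall ξ t)) ≤ t := by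
  have h1 := AddCircle.volume_closedBall (2 * Real.pi) (x := ξ) t
  rw [AddCircle.volume_eq_smul_haarAddCircle, Measure.smul_apply, smul_eq_mul] at h1
  have h2 := congrArg ENNReal.toReal h1
  rw [ENNReal.toReal_mul, ENNReal.toReal_ofReal (by positivity),
    ENNReal.toReal_ofReal (le_min (by positivity) (by positivity))] at h2
  have h3 : 2 * Real.pi * hm.real (Metric.closedBall ξ t) ≤ 2 * t := by
    have : hm.real (Metric.closedBall ξ t) = (hm (Metric.closedBall ξ t)).toReal := rfl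
    rw [this, h2]
    exact min_le_right _ _
  have h4 : 0 ≤ hm.real (Metric.closedBall ξ t) := measureReal_nonneg
  have hpi := Real.pi_gt_three
  nlinarith

theorem t_GA2 (hC : S_CEL) (hI : S_CIN) (hS : S_SEP) (_hG : S_GA1) : S_GA2 := by
  intro τ h1 h2
  obtain ⟨T, hT1, hT⟩ := ga2_sumsup hC hS τ h1 h2
  have hτ0 : 0 ≤ τ := by linarith
  obtain ⟨c, hc⟩ : ∃ c : ℝ, c = 1 / (128 * T) := ⟨_, rfl⟩
  obtain ⟨ε, hε⟩ : ∃ ε : ℝ, ε = 1 / (16 * T) := ⟨_, rfl⟩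
  have hc0 : 0 < c := by rw [hc]; positivity
  have hε0 : 0 < ε := by rw [hε]; positivity
  have hcT : c * T = 1 / 128 := by rw [hc]; field_simp
  have hεT : ε * T = 1 / 16 := by rw [hε]; field_simp
  have hc1 : c ≤ 1 / 128 := by
    calc c = c * 1 := (mul_one c).symm
      _ ≤ c * T := mul_le_mul_of_nonneg_left hT1 hc0.le
      _ = 1 / 128 := hcT
  have hε1 : ε ≤ 1 / 16 := by
    calc ε = ε * 1 := (mul_one ε).symm
      _ ≤ ε * T := mul_le_mul_of_nonneg_left hT1 hε0.le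
      _ = 1 / 16 := hεT
  refine ⟨c, ε, 64 * T + 1156, 256 * T, hc0, by linarith, hε0, by linarith, by linarith,
    by linarith, ?_⟩
  intro β₀ J₁ D₀ b hβ hJ hD X hX l i hi
  have hint := fun y => ga2_int hC hI hτ0 hT b y
  obtain ⟨hcm, hcl, hcv, hcn, hcd, hcc, hce, hcs⟩ := hC
  obtain ⟨D, hDd⟩ : ∃ D, D = D₀ * 2 ^ l := ⟨_, rfl⟩
  obtain ⟨g, hg⟩ : ∃ g, g = b - D := ⟨_, rfl⟩
  have hD1 : 1 ≤ D := by rw [hDd]; exact Nat.mul_pos hD (by positivity)
  have hDR : (D₀ : ℝ) * 2 ^ l = D := by rw [hDd]; push_cast; ring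
  have hDR1 : (1 : ℝ) ≤ D := by exact_mod_cast hD1
  have hgb : g ≤ b := by omega
  have hmono : ∀ l', l ≤ l' → b - D₀ * 2 ^ l' ≤ g := by
    intro l' hl
    have : D₀ * 2 ^ l ≤ D₀ * 2 ^ l' := Nat.mul_le_mul_left _ (Nat.pow_le_pow_right (by norm_num) hl)
    omega
  rw [← hDd, ← hg] at hi
  rw [← hDd, ← hg, hDR]
  -- abbreviations
  obtain ⟨w, hw⟩ : ∃ w : ℕ → ℝ, w = fun l' : ℕ => ε * (D₀ * 2 ^ l') / ((l' : ℝ) + 1) ^ 2 :=
    exists_eq
  obtain ⟨V, hV⟩ : ∃ V : ℕ → G → ℝ, V = fun (l' : ℕ) (x : G) => ∑ i' ∈ badc c D₀ b l' X,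
      sSup (ph0 τ b x '' Cell (b - D₀ * 2 ^ l') i') := exists_eq
  have hw0 : ∀ l', 0 ≤ w l' := by intro l'; rw [hw]; positivity
  have hV0 : ∀ l' x, 0 ≤ V l' x := by
    intro l' x; rw [hV]; exact Finset.sum_nonneg fun i' _ => ga2_sup_nonneg _ _ _ _
  have hcr : ∀ x, crf τ c ε D₀ b X x = ∑ ξ ∈ X, ph0 τ b x ξ + ∑ l' ∈ Finset.range b, w l' * V l' x := by
    intro x; rw [hw, hV]; rfl
  have hbs : ∀ l', badc c D₀ b l' X ⊆ Finset.range (2 ^ (b - D₀ * 2 ^ l')) := fun l' =>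
    Finset.filter_subset _ _
  by_cases hbad : ∃ l', l ≤ l' ∧ l' < b ∧ i / 2 ^ (g - (b - D₀ * 2 ^ l')) ∈ badc c D₀ b l' X
  · right
    obtain ⟨l', hll, hlb, hmem⟩ := hbad
    intro x hx
    have hx' : cidx g x = i := hx
    have hx2 : cidx (b - D₀ * 2 ^ l') x = i / 2 ^ (g - (b - D₀ * 2 ^ l')) := by
      rw [hcn _ (g - (b - D₀ * 2 ^ l')) x, show b - D₀ * 2 ^ l' + (g - (b - D₀ * 2 ^ l')) = g by
        have := hmono l' hll; omega, hx']
    have hV1 : 1 ≤ V l' x := by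
      rw [hV]
      have h3 := Finset.single_le_sum (f := fun i' => sSup (ph0 τ b x '' Cell (b - D₀ * 2 ^ l') i'))
        (fun i' _ => ga2_sup_nonneg τ b x _) hmem
      refine le_trans ?_ h3
      rw [← ga2_ph0_self τ b x]
      exact ga2_le_sup hτ0 b x x _ hx2
    have h3 : w l' ≤ crf τ c ε D₀ b X x := by
      rw [hcr]
      have h4 := Finset.single_le_sum (f := fun l' => w l' * V l' x)
        (fun l'' _ => mul_nonneg (hw0 l'') (hV0 l'' x)) (Finset.mem_range.2 hlb)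
      have h5 : 0 ≤ ∑ ξ ∈ X, ph0 τ b x ξ := Finset.sum_nonneg fun ξ _ => (ga2_ph0_pos τ b x ξ).le
      have h6 : w l' * 1 ≤ w l' * V l' x := mul_le_mul_of_nonneg_left hV1 (hw0 l')
      linarith
    have h7 : (D : ℝ) ≤ 64 * T * ((l : ℝ) + 1) ^ 2 * w l' := by
      have h8 := ga2_w l l' hll
      have h9 : w l' * ((l' : ℝ) + 1) ^ 2 = ε * (D₀ * 2 ^ l') := by
        rw [hw]; field_simp
      have h10 : (0 : ℝ) < ((l' : ℝ) + 1) ^ 2 := by positivity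
      rw [← mul_le_mul_iff_left₀ h10]
      calc (D : ℝ) * ((l' : ℝ) + 1) ^ 2 = D₀ * (((l' : ℝ) + 1) ^ 2 * 2 ^ l) := by rw [← hDR]; ring
        _ ≤ D₀ * (4 * ((l : ℝ) + 1) ^ 2 * 2 ^ l') := mul_le_mul_of_nonneg_left h8 (by positivity)
        _ = 64 * ((l : ℝ) + 1) ^ 2 * (1 / 16) * (D₀ * 2 ^ l') := by ring
        _ = 64 * ((l : ℝ) + 1) ^ 2 * (ε * T) * (D₀ * 2 ^ l') := by rw [hεT]
        _ = 64 * T * ((l : ℝ) + 1) ^ 2 * (ε * (D₀ * 2 ^ l')) := by ring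
        _ = 64 * T * ((l : ℝ) + 1) ^ 2 * w l' * ((l' : ℝ) + 1) ^ 2 := by rw [← h9]; ring
    have h11 : 0 ≤ crf τ c ε D₀ b X x := (hw0 l').trans h3
    calc (D : ℝ) ≤ 64 * T * ((l : ℝ) + 1) ^ 2 * w l' := h7
      _ ≤ 64 * T * ((l : ℝ) + 1) ^ 2 * crf τ c ε D₀ b X x :=
        mul_le_mul_of_nonneg_left h3 (by positivity)
      _ ≤ (64 * T + 1156) * ((l : ℝ) + 1) ^ 2 * crf τ c ε D₀ b X x := by
        refine mul_le_mul_of_nonneg_right (mul_le_mul_of_nonneg_right (by linarith) (by positivity)) h11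
  push Not at hbad
  -- number of nodes in the cell
  obtain ⟨N, hN⟩ : ∃ N, N = nc X g i := ⟨_, rfl⟩
  have hNJ : (N : ℝ) < c * D * 2 ^ b * (1 / 2) ^ g := by
    rcases Nat.lt_or_ge l b with hlb | hlb
    · have h3 := hbad l le_rfl hlb
      rw [← hDd, ← hg, Nat.sub_self, pow_zero, Nat.div_one, badc, ← hDd, ← hg, Finset.mem_filter,
        Finset.mem_range] at h3
      rw [hN]
      by_contra h4
      push Not at h4
      apply h3
      refine ⟨hi, ?_⟩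
      rw [hDR]
      exact h4
    · have h3 : l < 2 ^ l := Nat.lt_two_pow_self
      have h4 : 2 ^ l ≤ D := by rw [hDd]; exact Nat.le_mul_of_pos_left _ hD
      have hg0 : g = 0 := by omega
      have h5 : (N : ℝ) ≤ X.card := by
        rw [hN]; exact_mod_cast Finset.card_filter_le _ _
      have h6 : (N : ℝ) * (256 * T) ≤ 2 ^ b :=
        le_trans (mul_le_mul_of_nonneg_right h5 (by positivity)) hX
      rw [hg0, pow_zero, mul_one]
      have h7 : (0 : ℝ) < 2 ^ b := by positivity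
      have h8 : (N : ℝ) * 2 = (N : ℝ) * (256 * T) * c := by
        have : (256 * T) * c = 2 := by linarith
        rw [mul_assoc, this]
      have h9 : (N : ℝ) * 2 ≤ c * 2 ^ b := by
        rw [h8]
        nlinarith
      have h10 : c * 2 ^ b ≤ c * D * 2 ^ b := by
        refine mul_le_mul_of_nonneg_right ?_ h7.le
        nlinarith
      have h11 : 0 < c * 2 ^ b := by positivity
      linarith
  have hdisj : ∀ l', l ≤ l' → l' < b → ∀ i' ∈ badc c D₀ b l' X, ∀ y ∈ Cell (b - D₀ * 2 ^ l') i',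
      cidx g y ≠ i := by
    intro l' hll hlb i' hi' y hy hyi
    have hy' : cidx (b - D₀ * 2 ^ l') y = i' := hy
    rw [hcn _ (g - (b - D₀ * 2 ^ l')) y, show b - D₀ * 2 ^ l' + (g - (b - D₀ * 2 ^ l')) = g by
        have := hmono l' hll; omega, hyi] at hy'
    exact hbad l' hll hlb (by rw [hy']; exact hi')
  obtain ⟨f1, hf1⟩ : ∃ f1 : G → ℝ, f1 = fun x => ∑ ξ ∈ X.filter (fun ξ => cidx g ξ = i), ph0 τ b x ξ :=
    exists_eq
  obtain ⟨f2, hf2⟩ : ∃ f2 : G → ℝ, f2 = fun x => ∑ l' ∈ (Finset.range b).filter (fun l' => ¬ l ≤ l'),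
      w l' * V l' x := exists_eq
  obtain ⟨fo, hfo⟩ : ∃ fo : G → ℝ, fo = fun x => ∑ ξ ∈ X.filter (fun ξ => ¬ cidx g ξ = i), ph0 τ b x ξ +
      ∑ l' ∈ (Finset.range b).filter (fun l' => l ≤ l'), w l' * V l' x := exists_eq
  have hsplit : ∀ x, crf τ c ε D₀ b X x = f1 x + f2 x + fo x := by
    intro x
    rw [hcr, hf1, hf2, hfo]
    have h3 := Finset.sum_filter_add_sum_filter_not X (fun ξ => cidx g ξ = i) (fun ξ => ph0 τ b x ξ)
    have h4 := Finset.sum_filter_add_sum_filter_not (Finset.range b) (fun l' => l ≤ l')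
      (fun l' => w l' * V l' x)
    simp only
    linarith
  have hf10 : ∀ x, 0 ≤ f1 x := by
    intro x; rw [hf1]; exact Finset.sum_nonneg fun ξ _ => (ga2_ph0_pos τ b x ξ).le
  have hf20 : ∀ x, 0 ≤ f2 x := by
    intro x; rw [hf2]; exact Finset.sum_nonneg fun l' _ => mul_nonneg (hw0 l') (hV0 l' x)
  have hf2b : ∀ x, f2 x ≤ D / 16 := by
    intro x
    rw [hf2]
    have h3 : ∀ l' ∈ (Finset.range b).filter (fun l' => ¬ l ≤ l'), w l' * V l' x ≤
        (1 / 16 * D₀) * 2 ^ l' := by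
      intro l' _
      have h4 : V l' x ≤ T := by
        rw [hV]; exact hT b _ (Nat.sub_le _ _) _ (hbs l') x
      have h5 : w l' ≤ ε * (D₀ * 2 ^ l') := by
        rw [hw]
        refine div_le_self (by positivity) ?_
        have : (0 : ℝ) ≤ l' := Nat.cast_nonneg l'
        nlinarith
      calc w l' * V l' x ≤ (ε * (D₀ * 2 ^ l')) * T :=
            mul_le_mul h5 h4 (hV0 l' x) (by positivity)
        _ = (ε * T) * (D₀ * 2 ^ l') := by ring
        _ = (1 / 16 * D₀) * 2 ^ l' := by rw [hεT]; ring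
    refine (Finset.sum_le_sum h3).trans ?_
    have h6 : ∑ l' ∈ (Finset.range b).filter (fun l' => ¬ l ≤ l'), (1 / 16 * (D₀ : ℝ)) * 2 ^ l' ≤
        ∑ l' ∈ Finset.range l, (1 / 16 * (D₀ : ℝ)) * 2 ^ l' := by
      refine Finset.sum_le_sum_of_subset_of_nonneg ?_ (fun _ _ _ => by positivity)
      intro l' hl'
      rw [Finset.mem_filter] at hl'
      exact Finset.mem_range.2 (by omega)
    refine h6.trans ?_
    rw [← Finset.mul_sum, ← hDR]
    have h7 : ∑ l' ∈ Finset.range l, (2 : ℝ) ^ l' ≤ 2 ^ l := by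
      rw [geom_sum_eq (by norm_num)]
      norm_num
    calc 1 / 16 * (D₀ : ℝ) * ∑ l' ∈ Finset.range l, (2 : ℝ) ^ l' ≤ 1 / 16 * (D₀ : ℝ) * 2 ^ l :=
          mul_le_mul_of_nonneg_left h7 (by positivity)
      _ = D₀ * 2 ^ l / 16 := by ring
  have hcmp : ∀ x₀ k, 1 ≤ k → k ≤ 14 → cidx (g + 4) x₀ = 16 * i + k → ∀ x ∈ Cell g i,
      fo x₀ ≤ 289 * fo x := by
    intro x₀ k hk1 hk2 hk x hx
    have hx' : cidx g x = i := hx
    have hx₀ : cidx g x₀ = i := by rw [hcn g 4 x₀, hk]; omega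
    have h3 : ‖x - x₀‖ ≤ 2 * Real.pi * (1 / 2) ^ g := hcd g x x₀ (by rw [hx', hx₀])
    have h4 : ∀ y, cidx g y ≠ i → ph0 τ b x₀ y ≤ 289 * ph0 τ b x y := by
      intro y hy
      have h5 := ga2_geo g i k x₀ y hk1 hk2 hi hk hy
      have h6 : ‖x - y‖ ≤ ‖x - x₀‖ + ‖x₀ - y‖ := by
        have := norm_add_le (x - x₀) (x₀ - y)
        simpa using this
      have h7 : 2 * Real.pi * (1 / 2) ^ g = 16 * (2 * Real.pi * (1 / 2) ^ (g + 4)) := by
        rw [pow_add]; ring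
      have h8 := ga2_ph0_cmp (τ := τ) (A := 17) h2 hτ0 (by norm_num) b x₀ x y (by linarith)
      norm_num at h8
      exact h8
    rw [hfo]
    simp only
    rw [mul_add, Finset.mul_sum, Finset.mul_sum]
    refine add_le_add (Finset.sum_le_sum fun ξ hξ => h4 ξ (Finset.mem_filter.1 hξ).2)
      (Finset.sum_le_sum fun l' hl' => ?_)
    rw [Finset.mem_filter, Finset.mem_range] at hl'
    have h9 : V l' x₀ ≤ 289 * V l' x := by
      rw [hV]
      simp only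
      rw [Finset.mul_sum]
      refine Finset.sum_le_sum fun i' hi' => ?_
      refine Real.sSup_le ?_ (mul_nonneg (by norm_num) (ga2_sup_nonneg _ _ _ _))
      rintro _ ⟨y, hy, rfl⟩
      refine (h4 y (hdisj l' hl'.2 hl'.1 i' hi' y hy)).trans ?_
      exact mul_le_mul_of_nonneg_left (ga2_le_sup hτ0 b x y _ hy) (by norm_num)
    calc w l' * V l' x₀ ≤ w l' * (289 * V l' x) := mul_le_mul_of_nonneg_left h9 (hw0 l')
      _ = 289 * (w l' * V l' x) := by ring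
  by_cases hx0 : ∃ x₀ k, 1 ≤ k ∧ k ≤ 14 ∧ cidx (g + 4) x₀ = 16 * i + k ∧ (D : ℝ) / 4 ≤ fo x₀
  · right
    obtain ⟨x₀, k, hk1, hk2, hk, hfx⟩ := hx0
    intro x hx
    have h3 := hcmp x₀ k hk1 hk2 hk x hx
    have h4 : fo x ≤ crf τ c ε D₀ b X x := by
      rw [hsplit]; linarith [hf10 x, hf20 x]
    have h5 : (D : ℝ) ≤ 1156 * crf τ c ε D₀ b X x := by linarith
    have h6 : 0 ≤ crf τ c ε D₀ b X x := by linarith
    have h7 : (1 : ℝ) ≤ ((l : ℝ) + 1) ^ 2 := by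
      have : (0 : ℝ) ≤ l := Nat.cast_nonneg l
      nlinarith
    calc (D : ℝ) ≤ 1156 * crf τ c ε D₀ b X x := h5
      _ ≤ ((64 * T + 1156) * ((l : ℝ) + 1) ^ 2) * crf τ c ε D₀ b X x := by
        refine mul_le_mul_of_nonneg_right ?_ h6
        nlinarith
  push Not at hx0
  left
  obtain ⟨t, ht⟩ : ∃ t, t = ta β₀ b (J₁ * D) := ⟨_, rfl⟩
  have ht0 : 0 ≤ t := by rw [ht, ta]; positivity
  have ht1 : t ≤ (1 / 2) ^ (b + 2 * D) := by
    rw [ht, ta]
    refine pow_le_pow_of_le_one (by norm_num) (by norm_num) ?_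
    have h3 := ga2_TT β₀ (J₁ * D) hβ
    have h4 : D ≤ J₁ * D := Nat.le_mul_of_pos_left _ hJ
    omega
  have ht2 : t ≤ 2 * Real.pi * (1 / 2) ^ (g + 4) := by
    have h3 : (1 / 2 : ℝ) ^ (b + 2 * D) ≤ (1 / 2) ^ (g + 2) :=
      pow_le_pow_of_le_one (by norm_num) (by norm_num) (by omega)
    have h4 : (1 / 2 : ℝ) ^ (g + 2) = 4 * (1 / 2) ^ (g + 4) := by
      rw [pow_add, pow_add]; ring
    have h5 : (0 : ℝ) < (1 / 2) ^ (g + 4) := by positivity
    have hpi := Real.pi_gt_three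
    nlinarith
  obtain ⟨Mid, hMid⟩ : ∃ M : Set G, M = ⋃ k ∈ Finset.Icc 1 14, Cell (g + 4) (16 * i + k) := ⟨_, rfl⟩
  obtain ⟨A, hA⟩ : ∃ A : Set G, A = {x | (D : ℝ) / 8 ≤ f1 x} := ⟨_, rfl⟩
  obtain ⟨B, hB⟩ : ∃ B : Set G, B = ⋃ ξ ∈ X.filter (fun ξ => cidx g ξ = i), Metric.closedBall ξ t :=
    ⟨_, rfl⟩
  have hMm : hm.real Mid = 14 * (1 / 2) ^ (g + 4) := by
    rw [hMid, measureReal_biUnion_finset]
    · have h3 : ∀ k ∈ Finset.Icc 1 14, hm.real (Cell (g + 4) (16 * i + k)) = (1 / 2) ^ (g + 4) := by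
        intro k hk
        rw [Finset.mem_Icc] at hk
        refine hcv (g + 4) (16 * i + k) ?_
        have : 2 ^ (g + 4) = 16 * 2 ^ g := by rw [pow_add]; ring
        omega
      rw [Finset.sum_congr rfl h3]
      simp
    · intro k _ k' _ hkk
      refine Set.disjoint_left.2 fun x hx hx' => hkk ?_
      have h3 : cidx (g + 4) x = 16 * i + k := hx
      have h4 : cidx (g + 4) x = 16 * i + k' := hx'
      omega
    · intro k _
      exact hcm _ _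
  have hAm : hm.real A ≤ (1 / 16) * (1 / 2) ^ g := by
    have h3 : Integrable f1 hm := by
      rw [hf1]
      exact integrable_finsetSum _ fun ξ _ => ga2_intble b ξ
    have h4 := mul_meas_ge_le_integral_of_nonneg (μ := hm) (f := f1)
      (Filter.Eventually.of_forall hf10) h3 ((D : ℝ) / 8)
    have h5 : ∫ x, f1 x ∂hm ≤ N * (T * (1 / 2) ^ b) := by
      rw [hf1]
      simp only
      rw [integral_finsetSum _ (fun ξ _ => ga2_intble b ξ), hN, nc]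
      refine (Finset.sum_le_sum fun ξ _ => hint ξ).trans ?_
      rw [Finset.sum_const, nsmul_eq_mul]
    have h6 : (D : ℝ) / 8 * hm.real A ≤ N * (T * (1 / 2) ^ b) := by
      rw [hA]
      exact h4.trans h5
    have h7 : (2 : ℝ) ^ b * (1 / 2) ^ b = 1 := by rw [← mul_pow]; norm_num
    have h8 : (N : ℝ) * (T * (1 / 2) ^ b) ≤ (D : ℝ) / 128 * (1 / 2) ^ g := by
      calc (N : ℝ) * (T * (1 / 2) ^ b) ≤ (c * D * 2 ^ b * (1 / 2) ^ g) * (T * (1 / 2) ^ b) :=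
            mul_le_mul_of_nonneg_right hNJ.le (by positivity)
        _ = (c * T) * D * (1 / 2) ^ g * (2 ^ b * (1 / 2) ^ b) := by ring
        _ = (D : ℝ) / 128 * (1 / 2) ^ g := by rw [hcT, h7]; ring
    have h9 : (D : ℝ) / 8 * hm.real A ≤ (D : ℝ) / 8 * ((1 / 16) * (1 / 2) ^ g) := by
      refine (h6.trans h8).trans (le_of_eq (by ring))
    exact le_of_mul_le_mul_left h9 (by positivity)
  have hBm : hm.real B ≤ (1 / 128) * (1 / 2) ^ g := by
    have h3 : hm.real B ≤ N * t := by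
      rw [hB, hN, nc]
      refine (measureReal_biUnion_finset_le _ _).trans ?_
      refine (Finset.sum_le_sum fun ξ _ => ga2_ball ξ t ht0).trans ?_
      rw [Finset.sum_const, nsmul_eq_mul]
    have h7 : (2 : ℝ) ^ b * (1 / 2) ^ b = 1 := by rw [← mul_pow]; norm_num
    have h8 : (D : ℝ) * (1 / 2) ^ (2 * D) ≤ 1 := by
      have h9 : D < 4 ^ D := Nat.lt_pow_self (by norm_num)
      have h10 : (D : ℝ) ≤ 4 ^ D := by exact_mod_cast h9.le
      have h11 : (4 : ℝ) ^ D * (1 / 2) ^ (2 * D) = 1 := by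
        rw [pow_mul, ← mul_pow]; norm_num
      calc (D : ℝ) * (1 / 2) ^ (2 * D) ≤ 4 ^ D * (1 / 2) ^ (2 * D) :=
            mul_le_mul_of_nonneg_right h10 (by positivity)
        _ = 1 := h11
    calc hm.real B ≤ N * t := h3
      _ ≤ (c * D * 2 ^ b * (1 / 2) ^ g) * (1 / 2) ^ (b + 2 * D) :=
        mul_le_mul hNJ.le ht1 ht0 (by positivity)
      _ = c * (1 / 2) ^ g * (D * (1 / 2) ^ (2 * D)) * (2 ^ b * (1 / 2) ^ b) := by
        rw [pow_add]; ring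
      _ ≤ c * (1 / 2) ^ g * 1 * 1 := by
        rw [h7]
        refine mul_le_mul_of_nonneg_right (mul_le_mul_of_nonneg_left h8 (by positivity)) (by norm_num)
      _ ≤ (1 / 128) * (1 / 2) ^ g := by
        rw [mul_one, mul_one]
        exact mul_le_mul_of_nonneg_right hc1 (by positivity)
  have hsub : Mid \ (A ∪ B) ⊆ Cell g i ∩ Gs β₀ J₁ D b X (crf τ c ε D₀ b X) := by
    rintro x ⟨hxM, hxAB⟩
    rw [hMid] at hxM
    simp only [Set.mem_iUnion, Finset.mem_Icc, exists_prop] at hxM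
    obtain ⟨k, ⟨hk1, hk2⟩, hk⟩ := hxM
    have hk' : cidx (g + 4) x = 16 * i + k := hk
    have hxi : cidx g x = i := by rw [hcn g 4 x, hk']; omega
    refine ⟨hxi, ?_, ?_⟩
    · have h3 : f1 x < D / 8 := by
        by_contra h4
        push Not at h4
        exact hxAB (Or.inl (by rw [hA]; exact h4))
      have h5 := hx0 x k hk1 hk2 hk'
      rw [hsplit]
      linarith [hf2b x]
    · intro ξ hξ
      rw [← ht]
      by_cases hxξ : cidx g ξ = i
      · by_contra h4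
        push Not at h4
        apply hxAB
        right
        rw [hB]
        simp only [Set.mem_iUnion, exists_prop]
        exact ⟨ξ, Finset.mem_filter.2 ⟨hξ, hxξ⟩, by
          rw [Metric.mem_closedBall, dist_eq_norm]; exact h4.le⟩
      · exact ht2.trans (ga2_geo g i k x ξ hk1 hk2 hi hk' hxξ)
  have h3 : hm.real (Mid \ (A ∪ B)) ≤
      hm.real (Cell g i ∩ Gs β₀ J₁ D b X (crf τ c ε D₀ b X)) := measureReal_mono hsub
  have h4 : hm.real Mid - hm.real (A ∪ B) ≤ hm.real (Mid \ (A ∪ B)) := le_measureReal_sdiff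
  have h5 : hm.real (A ∪ B) ≤ hm.real A + hm.real B := measureReal_union_le _ _
  have h6 : (1 / 2 : ℝ) ^ (g + 4) = (1 / 16) * (1 / 2) ^ g := by rw [pow_add]; norm_num; ring
  have h7 : (0 : ℝ) < (1 / 2) ^ g := by positivity
  change (1 / 2) * (1 / 2) ^ g ≤ hm.real (Cell g i ∩ Gs β₀ J₁ D b X (crf τ c ε D₀ b X))
  rw [h6] at hMm
  nlinarith

end

end Pool.Agent.H729R2.FO
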