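import Mathlib
import Pool.Agent.H729R2.FO.Stubs
import Pool.Agent.H729R2.FO.Stubs2

set_option autoImplicit false

namespace Pool.Agent.H729R2.FO

open MeasureTheory Pool.Agent.H729R2.CB Pool.Agent.Helper150.Cub

open scoped Classical

noncomputable section

theorem gad_ball (x : G) (ε : ℝ) :
    hm (Metric.closedBall x ε) ≤ ENNReal.ofReal (ε / Real.pi) := by
  have hpi := Real.pi_pos
  have h1 := AddCircle.volume_closedBall (2 * Real.pi) (x := x) ε
  have h2 := AddCircle.volume_eq_smul_haarAddCircle (T := 2 * Real.pi)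
  rw [h2, Measure.smul_apply, smul_eq_mul] at h1
  have h3 : hm (Metric.closedBall x ε) =
      ENNReal.ofReal (2 * Real.pi)⁻¹ * (ENNReal.ofReal (2 * Real.pi) * hm (Metric.closedBall x ε)) := by
    rw [← mul_assoc, ← ENNReal.ofReal_mul (by positivity), inv_mul_cancel₀ (by positivity)]
    simp
  rw [h3, h1, ← ENNReal.ofReal_mul (by positivity)]
  apply ENNReal.ofReal_le_ofReal
  calc (2 * Real.pi)⁻¹ * min (2 * Real.pi) (2 * ε) ≤ (2 * Real.pi)⁻¹ * (2 * ε) := by
        gcongr
        exact min_le_right _ _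
    _ = ε / Real.pi := by field_simp

theorem t_GAD (_hC : S_CEL) (hO : S_GAO) : S_GAD := by
  intro g i X t ht _ht1 _hg hi
  have hpi := Real.pi_pos
  set Y : Finset G := X.filter (fun ξ => cidx g ξ = i) with hY
  have hsub : {x | x ∈ Cell g i ∧ ∃ ξ ∈ X, ‖x - ξ‖ < t} ⊆
      (⋃ ξ ∈ Y, Metric.closedBall ξ t) ∪
        (Metric.closedBall (endp g i) t ∪ Metric.closedBall (endp g (i + 1)) t) := by
    rintro x ⟨hx, ξ, hξ, hd⟩
    by_cases hc : cidx g ξ = i
    · left
      refine Set.mem_biUnion (x := ξ) ?_ ?_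
      · show ξ ∈ Y
        rw [hY, Finset.mem_filter]
        exact ⟨hξ, hc⟩
      · rw [Metric.mem_closedBall, dist_eq_norm]
        exact hd.le
    · right
      have hξn : ξ ∉ Cell g i := hc
      have h := (hO g i hi).1 x ξ hx hξn
      have h2 : min ‖x - endp g i‖ ‖x - endp g (i + 1)‖ ≤ t := h.trans hd.le
      rcases min_le_iff.mp h2 with h3 | h3
      · left
        rw [Metric.mem_closedBall, dist_eq_norm]
        exact h3
      · right
        rw [Metric.mem_closedBall, dist_eq_norm]
        exact h3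
  have hcard : (nc X g i : ℝ) = (Y.card : ℝ) := rfl
  have hmeas : hm {x | x ∈ Cell g i ∧ ∃ ξ ∈ X, ‖x - ξ‖ < t} ≤
      ENNReal.ofReal (((Y.card : ℝ) + 2) * t / Real.pi) := by
    refine (measure_mono hsub).trans ?_
    refine (measure_union_le _ _).trans ?_
    have h1 : hm (⋃ ξ ∈ Y, Metric.closedBall ξ t) ≤ ENNReal.ofReal ((Y.card : ℝ) * (t / Real.pi)) := by
      refine (measure_biUnion_finset_le Y _).trans ?_
      refine (Finset.sum_le_sum (fun ξ _ => gad_ball ξ t)).trans ?_
      rw [Finset.sum_const, nsmul_eq_mul, ENNReal.ofReal_mul (by positivity)]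
      simp
    have h2 : hm (Metric.closedBall (endp g i) t ∪ Metric.closedBall (endp g (i + 1)) t) ≤
        ENNReal.ofReal (2 * (t / Real.pi)) := by
      refine (measure_union_le _ _).trans ?_
      refine (add_le_add (gad_ball _ t) (gad_ball _ t)).trans ?_
      rw [← ENNReal.ofReal_add (by positivity) (by positivity)]
      apply ENNReal.ofReal_le_ofReal
      linarith
    refine (add_le_add h1 h2).trans ?_
    rw [← ENNReal.ofReal_add (by positivity) (by positivity)]
    apply ENNReal.ofReal_le_ofReal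
    apply le_of_eq
    ring
  rw [hcard]
  exact ENNReal.toReal_le_of_le_ofReal (by positivity) hmeas

end

end Pool.Agent.H729R2.FO
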