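import Mathlib
import Pool.Agent.H729R2.FO.Stubs
import Pool.Agent.H729R2.FO.Stubs2

set_option autoImplicit false

namespace Pool.Agent.H729R2.FO

open MeasureTheory Pool.Agent.H729R2.CB Pool.Agent.Helper150.Cub

open scoped Classical

theorem gao_rep_mem (x : G) : 0 ≤ rep x ∧ rep x < 2 * Real.pi := by
  have h := (AddCircle.equivIco (2 * Real.pi) 0 x).2
  unfold rep
  constructor
  · exact h.1
  · exact lt_of_lt_of_eq h.2 (zero_add _)

theorem gao_rep_coe (x : G) : ((rep x : ℝ) : G) = x := AddCircle.coe_equivIco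

theorem gao_coe_rep {y : ℝ} (h0 : 0 ≤ y) (h1 : y < 2 * Real.pi) : rep (y : G) = y := by
  unfold rep
  exact AddCircle.equivIco_coe_of_mem ⟨h0, by rw [zero_add]; exact h1⟩

theorem gao_rep_meas : Measurable rep :=
  measurable_subtype_coe.comp (AddCircle.measurableEquivIco (2 * Real.pi) 0).measurable

theorem gao_cell_iff (j : ℕ) (x : G) (i : ℕ) : x ∈ Cell j i ↔
    (i : ℝ) * (2 * Real.pi) / 2 ^ j ≤ rep x ∧ rep x < ((i : ℝ) + 1) * (2 * Real.pi) / 2 ^ j := by
  have hT : (0 : ℝ) < 2 * Real.pi := by positivity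
  have h2 : (0 : ℝ) < 2 ^ j := by positivity
  have h0 := (gao_rep_mem x).1
  show ⌊rep x * 2 ^ j / (2 * Real.pi)⌋₊ = i ↔ _
  rw [Nat.floor_eq_iff (by positivity), le_div_iff₀ hT, div_lt_iff₀ hT, div_le_iff₀ h2,
    lt_div_iff₀ h2]

theorem gao_norm_le (z : ℝ) : ‖(z : G)‖ ≤ |z| := by
  have hT : (0 : ℝ) < 2 * Real.pi := by positivity
  rw [AddCircle.norm_eq' _ hT]
  have h := round_le ((2 * Real.pi)⁻¹ * z) 0
  rw [Int.cast_zero, sub_zero, abs_mul, abs_of_pos (inv_pos.2 hT)] at h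
  calc 2 * Real.pi * |(2 * Real.pi)⁻¹ * z - round ((2 * Real.pi)⁻¹ * z)|
      ≤ 2 * Real.pi * ((2 * Real.pi)⁻¹ * |z|) := mul_le_mul_of_nonneg_left h hT.le
    _ = |z| := by field_simp

theorem gao_norm_ge (z c : ℝ) (h1 : c ≤ |z|) (h2 : c ≤ 2 * Real.pi - |z|) : c ≤ ‖(z : G)‖ := by
  have hT : (0 : ℝ) < 2 * Real.pi := by positivity
  rw [AddCircle.norm_eq]
  set n : ℤ := round ((2 * Real.pi)⁻¹ * z) with hn
  rcases lt_trichotomy n 0 with h | h | h
  · have h3 : (n : ℝ) ≤ -1 := by exact_mod_cast Int.le_sub_one_of_lt h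
    have h4 : (n : ℝ) * (2 * Real.pi) ≤ -1 * (2 * Real.pi) := mul_le_mul_of_nonneg_right h3 hT.le
    have h5 := le_abs_self (z - n * (2 * Real.pi))
    have h6 := neg_abs_le z
    linarith
  · rw [h]
    simpa using h1
  · have h3 : (1 : ℝ) ≤ n := by exact_mod_cast h
    have h4 : 1 * (2 * Real.pi) ≤ (n : ℝ) * (2 * Real.pi) := mul_le_mul_of_nonneg_right h3 hT.le
    have h5 := neg_abs_le (z - n * (2 * Real.pi))
    have h6 := le_abs_self z
    linarith

theorem gao_main (g i : ℕ) (hi : i < 2 ^ g) (x y : G) (hx : x ∈ Cell g i) (hy : y ∉ Cell g i) (c : ℝ)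
    (h1 : c ≤ rep x - (i : ℝ) * (2 * Real.pi) / 2 ^ g)
    (h2 : c ≤ ((i : ℝ) + 1) * (2 * Real.pi) / 2 ^ g - rep x) : c ≤ ‖x - y‖ := by
  have hT : (0 : ℝ) < 2 * Real.pi := by positivity
  have hp : (0 : ℝ) < 2 ^ g := by positivity
  rw [gao_cell_iff] at hx hy
  have hv := gao_rep_mem y
  have he1 : 0 ≤ (i : ℝ) * (2 * Real.pi) / 2 ^ g := by positivity
  have he2 : ((i : ℝ) + 1) * (2 * Real.pi) / 2 ^ g ≤ 2 * Real.pi := by
    have hi' : (i : ℝ) + 1 ≤ 2 ^ g := by exact_mod_cast hi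
    rw [div_le_iff₀ hp, mul_comm (2 * Real.pi)]
    exact mul_le_mul_of_nonneg_right hi' hT.le
  have hxy : x - y = ((rep x - rep y : ℝ) : G) := by
    rw [AddCircle.coe_sub, gao_rep_coe, gao_rep_coe]
  rw [hxy]
  have hy' : rep y < (i : ℝ) * (2 * Real.pi) / 2 ^ g ∨ ((i : ℝ) + 1) * (2 * Real.pi) / 2 ^ g ≤ rep y := by
    by_contra hcon
    push Not at hcon
    exact hy hcon
  rcases hy' with h | h
  · have h3 : |rep x - rep y| = rep x - rep y := abs_of_nonneg (by linarith [hx.1])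
    exact gao_norm_ge _ _ (by rw [h3]; linarith) (by rw [h3]; linarith [hv.1])
  · have h3 : |rep x - rep y| = -(rep x - rep y) := abs_of_nonpos (by linarith [hx.2])
    exact gao_norm_ge _ _ (by rw [h3]; linarith) (by rw [h3]; linarith [hv.2])

theorem gao_meas (a b : ℝ) (ha : 0 ≤ a) (hab : a ≤ b) (hb : b ≤ 2 * Real.pi) :
    (hm {x | a ≤ rep x ∧ rep x < b}).toReal = (b - a) / (2 * Real.pi) := by
  have hT : (0 : ℝ) < 2 * Real.pi := by positivity
  have hms : MeasurableSet {x : G | a ≤ rep x ∧ rep x < b} :=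
    (measurableSet_le measurable_const gao_rep_meas).inter (measurableSet_lt gao_rep_meas measurable_const)
  have h1 := AddCircle.add_projection_respects_measure (2 * Real.pi) 0 hms
  have h3 : (volume : Measure ℝ) (QuotientAddGroup.mk ⁻¹' {x : G | a ≤ rep x ∧ rep x < b} ∩
      Set.Ioc 0 (0 + 2 * Real.pi)) = volume (Set.Ico a b) := by
    apply measure_congr
    have hnull : ∀ᵐ y ∂(volume : Measure ℝ), y ∉ ({0, 2 * Real.pi} : Set ℝ) := by
      rw [ae_iff]
      simp only [not_not]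
      exact (Set.toFinite ({0, 2 * Real.pi} : Set ℝ)).measure_zero volume
    filter_upwards [hnull] with y hy
    simp only [Set.mem_insert_iff, Set.mem_singleton_iff, not_or] at hy
    apply propext
    constructor
    · rintro ⟨h4, h5, h6⟩
      rw [zero_add] at h6
      have h7 : rep (y : G) = y := gao_coe_rep h5.le (lt_of_le_of_ne h6 hy.2)
      have h8 : a ≤ rep (y : G) ∧ rep (y : G) < b := h4
      rw [h7] at h8
      exact h8
    · intro h4
      have h5 : 0 ≤ y := le_trans ha h4.1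
      have h6 : y < 2 * Real.pi := lt_of_lt_of_le h4.2 hb
      refine ⟨?_, lt_of_le_of_ne h5 (Ne.symm hy.1), by rw [zero_add]; exact h6.le⟩
      show a ≤ rep (y : G) ∧ rep (y : G) < b
      rw [gao_coe_rep h5 h6]
      exact h4
  rw [h3, Real.volume_Ico] at h1
  have h4 := AddCircle.volume_eq_smul_haarAddCircle (T := 2 * Real.pi)
  rw [h4, Measure.smul_apply, smul_eq_mul] at h1
  have h5 := congrArg ENNReal.toReal h1
  rw [ENNReal.toReal_mul, ENNReal.toReal_ofReal hT.le, ENNReal.toReal_ofReal (by linarith)] at h5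
  rw [eq_div_iff hT.ne', mul_comm]
  exact h5

theorem t_GAO (_hC : S_CEL) : S_GAO := by
  have hT : (0 : ℝ) < 2 * Real.pi := by positivity
  intro g i hi
  have hp : (0 : ℝ) < 2 ^ g := by positivity
  have he1 : 0 ≤ (i : ℝ) * (2 * Real.pi) / 2 ^ g := by positivity
  have he2 : ((i : ℝ) + 1) * (2 * Real.pi) / 2 ^ g ≤ 2 * Real.pi := by
    have hi' : (i : ℝ) + 1 ≤ 2 ^ g := by exact_mod_cast hi
    rw [div_le_iff₀ hp, mul_comm (2 * Real.pi)]
    exact mul_le_mul_of_nonneg_right hi' hT.le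
  constructor
  · intro x y hx hy
    have hx' := (gao_cell_iff g x i).1 hx
    apply gao_main g i hi x y hx hy
    · refine (min_le_left _ _).trans ?_
      have h : x - endp g i = ((rep x - (i : ℝ) * (2 * Real.pi) / 2 ^ g : ℝ) : G) := by
        rw [AddCircle.coe_sub, gao_rep_coe]
        rfl
      rw [h]
      refine (gao_norm_le _).trans ?_
      rw [abs_of_nonneg (by linarith [hx'.1])]
    · refine (min_le_right _ _).trans ?_
      have h : x - endp g (i + 1) = ((rep x - ((i : ℝ) + 1) * (2 * Real.pi) / 2 ^ g : ℝ) : G) := by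
        rw [AddCircle.coe_sub, gao_rep_coe]
        unfold endp
        push_cast
        rfl
      rw [h]
      refine (gao_norm_le _).trans ?_
      rw [abs_of_nonpos (by linarith [hx'.2])]
      linarith
  · set δ : ℝ := Real.pi / 8 * (1 / 2) ^ g with hδ
    have hδ0 : 0 ≤ δ := by positivity
    have hlen : ((i : ℝ) + 1) * (2 * Real.pi) / 2 ^ g = (i : ℝ) * (2 * Real.pi) / 2 ^ g + 16 * δ := by
      rw [hδ, div_pow, one_pow]
      field_simp
      ring
    have hm1 := gao_meas ((i : ℝ) * (2 * Real.pi) / 2 ^ g + δ) (((i : ℝ) + 1) * (2 * Real.pi) / 2 ^ g - δ)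
      (by linarith) (by linarith) (by linarith)
    have hval : (((i : ℝ) + 1) * (2 * Real.pi) / 2 ^ g - δ - ((i : ℝ) * (2 * Real.pi) / 2 ^ g + δ)) /
        (2 * Real.pi) = (1 - 1 / 8) * (1 / 2) ^ g := by
      rw [hlen, hδ]
      field_simp
      ring
    rw [hval] at hm1
    rw [← hm1]
    apply ENNReal.toReal_mono (measure_ne_top _ _)
    apply measure_mono
    rintro x ⟨h1, h2⟩
    have hx : x ∈ Cell g i := (gao_cell_iff g x i).2 ⟨by linarith, by linarith⟩
    exact ⟨hx, fun y hy => gao_main g i hi x y hx hy δ (by linarith) (by linarith)⟩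

end Pool.Agent.H729R2.FO
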