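import Mathlib
import Pool.Agent.H729R2.FO.Stubs
import Pool.Agent.H729R2.FO.Stubs2

set_option autoImplicit false

namespace Pool.Agent.H729R2.FO

open MeasureTheory Pool.Agent.H729R2.CB Pool.Agent.Helper150.Cub

open scoped Classical

noncomputable section

lemma gas_base_pos (b : ℕ) (x y : G) : 1 ≤ 1 + (2 : ℝ) ^ b * ‖x - y‖ := by
  have : 0 ≤ (2 : ℝ) ^ b * ‖x - y‖ := by positivity
  linarith

lemma gas_ph0_nonneg (τ : ℝ) (b : ℕ) (x y : G) : 0 ≤ ph0 τ b x y :=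
  Real.rpow_nonneg (by linarith [gas_base_pos b x y]) _

lemma gas_ph0_symm (τ : ℝ) (b : ℕ) (x y : G) : ph0 τ b x y = ph0 τ b y x := by
  unfold ph0
  rw [norm_sub_rev]

lemma gas_ph0_le (hC : S_CEL) (τ : ℝ) (hτ : 1 < τ) (b g i : ℕ) (hg : g ≤ b) (x y : G)
    (hy : y ∈ Cell g i) :
    ph0 τ b x y ≤ (1 + Real.pi) ^ τ * (1 + ‖x - cen g i‖ / (1 / 2) ^ g) ^ (-τ) := by
  obtain ⟨-, -, -, -, -, -, h7, -⟩ := hC
  have h1 : ‖y - cen g i‖ ≤ Real.pi * (1 / 2) ^ g := by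
    have := h7 g y
    rwa [show cidx g y = i from hy] at this
  have h2 : ‖x - cen g i‖ ≤ ‖x - y‖ + ‖y - cen g i‖ := by
    have := norm_add_le (x - y) (y - cen g i)
    rwa [sub_add_sub_cancel] at this
  have hpi := Real.pi_pos
  have h2g : (0 : ℝ) < (1 / 2) ^ g := by positivity
  have hgg : ((1 : ℝ) / 2) ^ g * 2 ^ g = 1 := by
    rw [← mul_pow]
    norm_num
  have h3 : (2 : ℝ) ^ g ≤ 2 ^ b := pow_le_pow_right₀ (by norm_num) hg
  have h4 : 1 + ‖x - cen g i‖ / (1 / 2) ^ g ≤ (1 + Real.pi) * (1 + 2 ^ b * ‖x - y‖) := by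
    have e1 : ‖x - cen g i‖ / (1 / 2) ^ g = 2 ^ g * ‖x - cen g i‖ := by
      rw [div_eq_iff h2g.ne']
      linear_combination (-‖x - cen g i‖) * hgg
    rw [e1]
    have e2 : (2 : ℝ) ^ g * ‖x - cen g i‖ ≤ 2 ^ g * ‖x - y‖ + Real.pi := by
      have : (2 : ℝ) ^ g * ‖x - cen g i‖ ≤ 2 ^ g * (‖x - y‖ + Real.pi * (1 / 2) ^ g) := by
        apply mul_le_mul_of_nonneg_left _ (by positivity)
        linarith
      have e3 : (2 : ℝ) ^ g * (‖x - y‖ + Real.pi * (1 / 2) ^ g) = 2 ^ g * ‖x - y‖ + Real.pi := by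
        linear_combination Real.pi * hgg
      linarith
    have e4 : (2 : ℝ) ^ g * ‖x - y‖ ≤ 2 ^ b * ‖x - y‖ :=
      mul_le_mul_of_nonneg_right h3 (norm_nonneg _)
    have e5 : 0 ≤ Real.pi * (2 ^ b * ‖x - y‖) := by positivity
    nlinarith
  have h5 : 0 < 1 + 2 ^ b * ‖x - y‖ := by linarith [gas_base_pos b x y]
  have h6 : 0 < 1 + ‖x - cen g i‖ / (1 / 2) ^ g := by
    have : 0 ≤ ‖x - cen g i‖ / (1 / 2) ^ g := by positivity
    linarith
  unfold ph0
  have h7 : ((1 + Real.pi) * (1 + 2 ^ b * ‖x - y‖)) ^ (-τ) ≤ (1 + ‖x - cen g i‖ / (1 / 2) ^ g) ^ (-τ) :=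
    Real.rpow_le_rpow_of_nonpos h6 h4 (by linarith)
  rw [Real.mul_rpow (by positivity) h5.le] at h7
  calc (1 + 2 ^ b * ‖x - y‖) ^ (-τ)
      = (1 + Real.pi) ^ τ * ((1 + Real.pi) ^ (-τ) * (1 + 2 ^ b * ‖x - y‖) ^ (-τ)) := by
        rw [← mul_assoc, ← Real.rpow_add (by positivity)]
        simp
    _ ≤ _ := mul_le_mul_of_nonneg_left h7 (by positivity)

lemma gas_sup_le (hC : S_CEL) (τ : ℝ) (hτ : 1 < τ) (b g i : ℕ) (hi : i < 2 ^ g) (hg : g ≤ b) (x : G) :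
    sSup (ph0 τ b x '' Cell g i) ≤ (1 + Real.pi) ^ τ * (1 + ‖x - cen g i‖ / (1 / 2) ^ g) ^ (-τ) := by
  have h6 := hC.2.2.2.2.2.1 g i hi
  apply csSup_le
  · exact ⟨_, cen g i, h6, rfl⟩
  · rintro _ ⟨y, hy, rfl⟩
    exact gas_ph0_le hC τ hτ b g i hg x y hy

lemma gas_sum (hS : S_SEP) (hC : S_CEL) (τ : ℝ) (hτ : 1 < τ) : ∃ C : ℝ, 1 ≤ C ∧
    ∀ (b g : ℕ) (x : G), g ≤ b → ∑ i ∈ Finset.range (2 ^ g), sSup (ph0 τ b x '' Cell g i) ≤ C := by
  obtain ⟨C, hC1, -, hC3⟩ := hS τ hτ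
  have hpi := Real.pi_pos
  have h8 := hC.2.2.2.2.2.2.2
  refine ⟨(1 + Real.pi) ^ τ * (C * 2), ?_, ?_⟩
  · have : 1 ≤ (1 + Real.pi) ^ τ := Real.one_le_rpow (by linarith) (by linarith)
    nlinarith
  · intro b g x hg
    have hgp : (0 : ℝ) < (1 / 2) ^ g := by positivity
    have hinj : Set.InjOn (cen g) (Finset.range (2 ^ g) : Set ℕ) := by
      intro i hi i' hi' he
      by_contra hne
      have := h8 g i i' (by simpa using hi) (by simpa using hi') hne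
      rw [he, sub_self, norm_zero] at this
      have : 0 < 2 * Real.pi * (1 / 2) ^ g := by positivity
      linarith
    have hsep : Sepd (2 * Real.pi * (1 / 2) ^ g) ((Finset.range (2 ^ g)).image (cen g)) := by
      intro y hy y' hy' hne
      simp only [Finset.mem_image, Finset.mem_range] at hy hy'
      obtain ⟨i, hi, rfl⟩ := hy
      obtain ⟨i', hi', rfl⟩ := hy'
      exact h8 g i i' hi hi' (fun h => hne (by rw [h]))
    have h1 := hC3 ((Finset.range (2 ^ g)).image (cen g)) (2 * Real.pi * (1 / 2) ^ g) ((1 / 2) ^ g) x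
      (by positivity) hgp hsep
    rw [Finset.sum_image hinj] at h1
    have h2 : C * (1 + (1 / 2) ^ g / (2 * Real.pi * (1 / 2) ^ g)) ≤ C * 2 := by
      apply mul_le_mul_of_nonneg_left _ (by linarith)
      have : (1 / 2 : ℝ) ^ g / (2 * Real.pi * (1 / 2) ^ g) ≤ 1 := by
        rw [div_le_one (by positivity)]
        nlinarith [Real.pi_gt_three]
      linarith
    calc ∑ i ∈ Finset.range (2 ^ g), sSup (ph0 τ b x '' Cell g i)
        ≤ ∑ i ∈ Finset.range (2 ^ g), (1 + Real.pi) ^ τ * (1 + ‖x - cen g i‖ / (1 / 2) ^ g) ^ (-τ) :=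
          Finset.sum_le_sum fun i hi => gas_sup_le hC τ hτ b g i (Finset.mem_range.mp hi) hg x
      _ = (1 + Real.pi) ^ τ * ∑ i ∈ Finset.range (2 ^ g), (1 + ‖x - cen g i‖ / (1 / 2) ^ g) ^ (-τ) := by
          rw [Finset.mul_sum]
      _ ≤ (1 + Real.pi) ^ τ * (C * 2) :=
          mul_le_mul_of_nonneg_left (h1.trans h2) (by positivity)

lemma gas_cont (τ : ℝ) (b : ℕ) (y : G) : Continuous (fun x => ph0 τ b x y) := by
  unfold ph0
  refine Continuous.rpow_const (by fun_prop) ?_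
  intro x
  left
  linarith [gas_base_pos b x y]

lemma gas_ph0_le_one (τ : ℝ) (hτ : 0 ≤ τ) (b : ℕ) (x y : G) : ph0 τ b x y ≤ 1 :=
  Real.rpow_le_one_of_one_le_of_nonpos (gas_base_pos b x y) (by linarith)

lemma gas_integrable (τ : ℝ) (hτ : 0 ≤ τ) (b : ℕ) (y : G) : Integrable (fun x => ph0 τ b x y) hm := by
  refine Integrable.of_bound (gas_cont τ b y).aestronglyMeasurable 1 ?_
  filter_upwards with x
  rw [Real.norm_of_nonneg (gas_ph0_nonneg τ b x y)]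
  exact gas_ph0_le_one τ hτ b x y

theorem t_GAS (hS : S_SEP) (hC : S_CEL) : S_GAS := by
  intro τ hτ _
  obtain ⟨C, hC1, hC2⟩ := gas_sum hS hC τ hτ
  refine ⟨C, hC1, ?_, hC2⟩
  intro b y
  have hmeas := hC.1
  have hlt := hC.2.1
  have hvol := hC.2.2.1
  have hcov : (⋃ i ∈ Finset.range (2 ^ b), Cell b i) = (Set.univ : Set G) := by
    ext x
    simp only [Set.mem_iUnion, Set.mem_univ, iff_true, Finset.mem_range]
    exact ⟨cidx b x, hlt b x, rfl⟩
  have hint := gas_integrable τ (by linarith) b y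
  have hsum : ∫ x, ph0 τ b x y ∂hm = ∑ i ∈ Finset.range (2 ^ b), ∫ x in Cell b i, ph0 τ b x y ∂hm := by
    rw [← setIntegral_univ, ← hcov, integral_biUnion_finset]
    · intro i _
      exact hmeas b i
    · intro i _ i' _ hne
      refine Set.disjoint_left.mpr ?_
      intro x hx hx'
      exact hne ((show cidx b x = i from hx).symm.trans (show cidx b x = i' from hx'))
    · intro i _
      exact hint.integrableOn
  rw [hsum]
  have hle : ∀ i ∈ Finset.range (2 ^ b), ∫ x in Cell b i, ph0 τ b x y ∂hm ≤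
      sSup (ph0 τ b y '' Cell b i) * (1 / 2) ^ b := by
    intro i hi
    have h1 : ∫ x in Cell b i, ph0 τ b x y ∂hm ≤ ∫ x in Cell b i, sSup (ph0 τ b y '' Cell b i) ∂hm := by
      refine setIntegral_mono_on hint.integrableOn (by simp) (hmeas b i) ?_
      intro x hx
      rw [gas_ph0_symm]
      refine le_csSup ⟨1, ?_⟩ ⟨x, hx, rfl⟩
      rintro _ ⟨z, _, rfl⟩
      exact gas_ph0_le_one τ (by linarith) b y z
    refine h1.trans (le_of_eq ?_)
    rw [setIntegral_const, smul_eq_mul, Measure.real, hvol b i (Finset.mem_range.mp hi), mul_comm]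
  calc ∑ i ∈ Finset.range (2 ^ b), ∫ x in Cell b i, ph0 τ b x y ∂hm
      ≤ ∑ i ∈ Finset.range (2 ^ b), sSup (ph0 τ b y '' Cell b i) * (1 / 2) ^ b := Finset.sum_le_sum hle
    _ = (∑ i ∈ Finset.range (2 ^ b), sSup (ph0 τ b y '' Cell b i)) * (1 / 2) ^ b := by
        rw [Finset.sum_mul]
    _ ≤ C * (1 / 2) ^ b := mul_le_mul_of_nonneg_right (hC2 b b y le_rfl) (by positivity)

end

end Pool.Agent.H729R2.FO
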