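import Mathlib
import Pool.Agent.H729R2.FO.Stubs

set_option autoImplicit false

namespace Pool.Agent.H729R2.FO

open MeasureTheory Pool.Agent.H729R2.CB Pool.Agent.Helper150.Cub

open scoped Classical

/-- the gauge function -/
theorem t_GAU (h1 : S_GA1) (h2 : S_GA2) : S_GAU := by
  intro τ hτ1 hτ2
  obtain ⟨c, ε, C₁', K, hc0, hc1, hε0, hε1, hC', hK, H2⟩ := h2 τ hτ1 hτ2
  obtain ⟨C₁'', hC'', H1⟩ := h1 τ hτ1 hτ2 c ε hc0 hc1 hε0 hε1
  refine ⟨max C₁' C₁'', K, le_max_of_le_left hC', hK, ?_⟩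
  intro β₀ J₁ D₀ b hβ hJ hD X hX
  obtain ⟨g1, g2, g3, g4, g5⟩ := H1 D₀ b X hD
  have hcell := H2 β₀ J₁ D₀ b hβ hJ hD X hX
  refine ⟨crf τ c ε D₀ b X, g1, g2, g3, ?_, ?_, ?_⟩
  · intro x
    exact (g4 x).trans (mul_le_mul_of_nonneg_right (le_max_right _ _) (g2 x))
  · refine g5.trans ?_
    have : (0:ℝ) ≤ X.card * (1 / 2) ^ b := by positivity
    have h3 := mul_le_mul_of_nonneg_right (le_max_right C₁' C₁'') this
    nlinarith [h3]
  · intro l i hi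
    rcases hcell l i hi with h | h
    · exact Or.inl h
    · refine Or.inr fun x hx => (h x hx).trans ?_
      have h4 : (0:ℝ) ≤ ((l : ℝ) + 1) ^ 2 * crf τ c ε D₀ b X x := mul_nonneg (by positivity) (g2 x)
      have h3 := mul_le_mul_of_nonneg_right (le_max_left C₁' C₁'') h4
      calc C₁' * ((l : ℝ) + 1) ^ 2 * crf τ c ε D₀ b X x
          = C₁' * (((l : ℝ) + 1) ^ 2 * crf τ c ε D₀ b X x) := by ring
        _ ≤ max C₁' C₁'' * (((l : ℝ) + 1) ^ 2 * crf τ c ε D₀ b X x) := h3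
        _ = max C₁' C₁'' * ((l : ℝ) + 1) ^ 2 * crf τ c ε D₀ b X x := by ring

end Pool.Agent.H729R2.FO
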