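import Mathlib
import Pool.Agent.H729R2.FO.Stubs

set_option autoImplicit false

namespace Pool.Agent.H729R2.FO

open MeasureTheory Pool.Agent.H729R2.CB Pool.Agent.Helper150.Cub

open scoped Classical

lemma ggc_ta_pos (β₀ b j : ℕ) : 0 < ta β₀ b j := by
  unfold ta; positivity

lemma ggc_ta_succ (β₀ b j : ℕ) (h : 1 ≤ β₀) : ta β₀ b (j + 1) ≤ ta β₀ b j / 4 := by
  unfold ta TT
  rw [Finset.sum_range_succ, ← add_assoc, pow_add (1 / 2 : ℝ) _ (be β₀ j)]
  have h1 : (1 / 2 : ℝ) ^ (be β₀ j) ≤ (1 / 2) ^ 2 := by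
    apply pow_le_pow_of_le_one (by norm_num) (by norm_num)
    unfold be
    omega
  have h2 : (0 : ℝ) < (1 / 2) ^ (b + ∑ i ∈ Finset.range j, be β₀ i) := by positivity
  nlinarith

lemma ggc_ta_anti (β₀ b : ℕ) (h : 1 ≤ β₀) : Antitone (ta β₀ b) := by
  apply antitone_nat_of_succ_le
  intro j
  have h1 := ggc_ta_succ β₀ b j h
  have h2 := ggc_ta_pos β₀ b j
  linarith

theorem t_GGC : S_GGC := by
  intro β₀ b j₀ X Z hβ hZ
  have hanti := ggc_ta_anti β₀ b hβ
  refine ⟨?_, ?_, ?_⟩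
  · intro k ξ hξ x hx
    -- non-free levels
    set NF := (Finset.range k).filter
      (fun i => ¬ ∃ ζ ∈ Z (j₀ + i), ‖ξ - ζ‖ < ta β₀ b (j₀ + i + 1)) with hNF
    have hex : ∀ i ∈ NF, ∃ η ∈ X, ‖η - ξ‖ < ta β₀ b (j₀ + i) ∧
        ta β₀ b (j₀ + i + 1) ≤ ‖η - ξ‖ := by
      intro i hi
      rw [hNF, Finset.mem_filter] at hi
      by_contra hcon
      push Not at hcon
      exact hi.2 ((hZ (j₀ + i)).cov ξ hξ hcon)
    choose! η hη1 hη2 hη3 using hex
    have hinj : Set.InjOn η NF := by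
      have key : ∀ i ∈ NF, ∀ i' ∈ NF, i < i' → η i ≠ η i' := by
        intro i hi i' hi' hlt heq
        have h1 := hη3 i hi
        have h2 := hη2 i' hi'
        have h3 : ta β₀ b (j₀ + i') ≤ ta β₀ b (j₀ + i + 1) := hanti (by omega)
        rw [heq] at h1
        linarith
      intro i hi i' hi' heq
      rcases lt_trichotomy i i' with h | h | h
      · exact absurd heq (key i hi i' hi' h)
      · exact h
      · exact absurd heq.symm (key i' hi' i hi h)
    have hcard : NF.card ≤ nn X x (2 * ta β₀ b j₀) := by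
      unfold nn
      rw [← Finset.card_image_of_injOn hinj]
      apply Finset.card_le_card
      intro y hy
      rw [Finset.mem_image] at hy
      obtain ⟨i, hi, rfl⟩ := hy
      rw [Finset.mem_filter]
      refine ⟨hη1 i hi, ?_⟩
      have h1 : ‖x - η i‖ ≤ ‖x - ξ‖ + ‖η i - ξ‖ := by
        have e : x - η i = (x - ξ) + -(η i - ξ) := by abel
        rw [e]
        refine (norm_add_le _ _).trans ?_
        rw [norm_neg]
      have h2 := hη2 i hi
      have h3 : ta β₀ b (j₀ + k) ≤ ta β₀ b j₀ := hanti (by omega)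
      have h4 : ta β₀ b (j₀ + i) ≤ ta β₀ b j₀ := hanti (by omega)
      linarith
    have hsum := Finset.card_filter_add_card_filter_not (s := Finset.range k)
      (fun i => ∃ ζ ∈ Z (j₀ + i), ‖ξ - ζ‖ < ta β₀ b (j₀ + i + 1))
    rw [Finset.card_range] at hsum
    unfold gg
    apply pow_le_pow_of_le_one (by norm_num) (by norm_num)
    have h5 : NF.card = ((Finset.range k).filter
      (fun i => ¬ ∃ ζ ∈ Z (j₀ + i), ‖ξ - ζ‖ < ta β₀ b (j₀ + i + 1))).card := rfl
    omega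
  · have key : ∀ k, ∀ ξ ∈ X, ∀ ξ' ∈ X, ‖ξ - ξ'‖ < ta β₀ b (j₀ + k) → ∀ i ∈ Finset.range k,
        (∃ ζ ∈ Z (j₀ + i), ‖ξ - ζ‖ < ta β₀ b (j₀ + i + 1)) →
        ∃ ζ ∈ Z (j₀ + i), ‖ξ' - ζ‖ < ta β₀ b (j₀ + i + 1) := by
      rintro k ξ hξ ξ' hξ' hd i hi ⟨ζ, hζ, hζd⟩
      rw [Finset.mem_range] at hi
      refine ⟨ζ, hζ, (hZ (j₀ + i)).iso ζ hζ ξ' hξ' ?_⟩
      have h1 : ‖ξ' - ζ‖ ≤ ‖ξ - ξ'‖ + ‖ξ - ζ‖ := by
        have e : ξ' - ζ = -(ξ - ξ') + (ξ - ζ) := by abel
        rw [e]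
        refine (norm_add_le _ _).trans ?_
        rw [norm_neg]
      have h2 : ta β₀ b (j₀ + k) ≤ ta β₀ b (j₀ + i + 1) := hanti (by omega)
      have h3 := ggc_ta_succ β₀ b (j₀ + i) hβ
      have h4 := ggc_ta_pos β₀ b (j₀ + i)
      linarith
    intro k ξ hξ ξ' hξ' hd
    unfold gg
    congr 2
    apply Finset.filter_congr
    intro i hi
    constructor
    · exact key k ξ hξ ξ' hξ' hd i hi
    · exact key k ξ' hξ' ξ hξ (by rw [← norm_neg, neg_sub]; exact hd) i hi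
  · intro k ξ
    unfold gg
    have hsub : ((Finset.range k).filter
        (fun i => ∃ ζ ∈ Z (j₀ + i), ‖ξ - ζ‖ < ta β₀ b (j₀ + i + 1))).card ≤
        ((Finset.range (k + 1)).filter
        (fun i => ∃ ζ ∈ Z (j₀ + i), ‖ξ - ζ‖ < ta β₀ b (j₀ + i + 1))).card := by
      apply Finset.card_le_card
      apply Finset.filter_subset_filter
      exact Finset.range_mono (Nat.le_succ k)
    have hle : ((Finset.range (k + 1)).filter
        (fun i => ∃ ζ ∈ Z (j₀ + i), ‖ξ - ζ‖ < ta β₀ b (j₀ + i + 1))).card ≤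
        ((Finset.range k).filter
        (fun i => ∃ ζ ∈ Z (j₀ + i), ‖ξ - ζ‖ < ta β₀ b (j₀ + i + 1))).card + 1 := by
      rw [Finset.range_add_one, Finset.filter_insert]
      split_ifs
      · exact Finset.card_insert_le _ _
      · exact Nat.le_succ _
    refine ⟨by positivity, ?_, ?_, ?_⟩
    · apply pow_le_one₀ (by norm_num) (by norm_num)
    · exact pow_le_pow_of_le_one (by norm_num) (by norm_num) hsub
    · have h1 := pow_le_pow_of_le_one (by norm_num : (0 : ℝ) ≤ 1 / 2) (by norm_num) hle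
      rw [pow_succ] at h1
      linarith

end Pool.Agent.H729R2.FO
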