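import Mathlib
import Pool.Agent.H729R2.FO.Stubs

set_option autoImplicit false

namespace Pool.Agent.H729R2.FO

open MeasureTheory Pool.Agent.H729R2.CB Pool.Agent.Helper150.Cub

open scoped Classical

open Set Filter Topology in
lemma kn1_gam (a : ℝ) (ha : 0 < a) (w : ℂ) (hw : 0 < w.re) :
    ∫ u in Ioi (0:ℝ), (((u ^ (a - 1) : ℝ)) : ℂ) * Complex.exp (-(w * u)) =
      (1 / w) ^ (a : ℂ) * Complex.Gamma a := by
  set U : Set ℂ := {w | 0 < w.re} with hU
  have hUo : IsOpen U := isOpen_lt continuous_const Complex.continuous_re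
  have hUc : Convex ℝ U := convex_halfSpace_re_gt 0
  set f : ℂ → ℂ := fun w => ∫ u in Ioi (0:ℝ), (((u ^ (a - 1) : ℝ)) : ℂ) * Complex.exp (-(w * u))
  set g : ℂ → ℂ := fun w => (1 / w) ^ (a : ℂ) * Complex.Gamma a
  have hbi : ∀ (s b : ℝ), -1 < s → 0 < b →
      IntegrableOn (fun u : ℝ => u ^ s * Real.exp (-(b * u))) (Ioi 0) := by
    intro s b hs hb
    have := integrableOn_rpow_mul_exp_neg_mul_rpow hs (by norm_num : (0:ℝ) < 1) hb
    refine this.congr_fun ?_ measurableSet_Ioi
    intro u hu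
    simp only [Real.rpow_one, neg_mul]
  have hf : DifferentiableOn ℂ f U := by
    intro w₀ hw₀
    have hw₀' : 0 < w₀.re := hw₀
    apply DifferentiableAt.differentiableWithinAt
    have key := hasDerivAt_integral_of_dominated_loc_of_deriv_le (μ := volume.restrict (Ioi (0:ℝ)))
      (F := fun (w : ℂ) (u : ℝ) => (((u ^ (a - 1) : ℝ)) : ℂ) * Complex.exp (-(w * u)))
      (F' := fun (w : ℂ) (u : ℝ) => (((u ^ (a - 1) : ℝ)) : ℂ) * (Complex.exp (-(w * u)) * (-(u:ℂ))))
      (x₀ := w₀) (s := Metric.ball w₀ (w₀.re / 2))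
      (bound := fun u => u ^ a * Real.exp (-((w₀.re / 2) * u)))
      (Metric.ball_mem_nhds _ (by positivity)) ?_ ?_ ?_ ?_ ?_ ?_
    · exact key.2.differentiableAt
    · refine Eventually.of_forall (fun w => ?_)
      refine Measurable.aestronglyMeasurable ?_
      fun_prop
    · have := hbi (a - 1) w₀.re (by linarith) hw₀'
      refine Integrable.mono' this ?_ ?_
      · refine Measurable.aestronglyMeasurable ?_
        fun_prop
      · refine (ae_restrict_mem measurableSet_Ioi).mono (fun u hu => ?_)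
        have hu' : 0 < u := hu
        rw [norm_mul, Complex.norm_real, Complex.norm_exp, Real.norm_of_nonneg (by positivity)]
        simp
    · refine Measurable.aestronglyMeasurable ?_
      fun_prop
    · refine (ae_restrict_mem measurableSet_Ioi).mono (fun u hu w hwb => ?_)
      have hu' : 0 < u := hu
      rw [norm_mul, norm_mul, Complex.norm_real, Complex.norm_exp,
        Real.norm_of_nonneg (by positivity), norm_neg, Complex.norm_real,
        Real.norm_of_nonneg hu'.le]
      have h1 : |w.re - w₀.re| < w₀.re / 2 := by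
        have := Complex.abs_re_le_norm (w - w₀)
        rw [Metric.mem_ball, dist_eq_norm] at hwb
        rw [Complex.sub_re] at this
        linarith
      have h2 : w₀.re / 2 < w.re := by
        have := (abs_lt.1 h1).1
        linarith
      have h3 : (-(w * (u:ℂ))).re = -(w.re * u) := by simp
      rw [h3]
      have h4 : u ^ (a - 1) * (Real.exp (-(w.re * u)) * u) = u ^ a * Real.exp (-(w.re * u)) := by
        have : u ^ a = u ^ (a - 1) * u := by
          rw [← Real.rpow_add_one hu'.ne']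
          congr 1; ring
        rw [this]; ring
      rw [h4]
      apply mul_le_mul_of_nonneg_left _ (by positivity)
      apply Real.exp_le_exp.2
      nlinarith
    · exact hbi a (w₀.re / 2) (by linarith) (by positivity)
    · refine Eventually.of_forall (fun u w _ => ?_)
      have h1 : HasDerivAt (fun w : ℂ => -(w * (u:ℂ))) (-(u:ℂ)) w := by
        simpa using ((hasDerivAt_id w).mul_const (u:ℂ)).fun_neg
      exact (h1.cexp).const_mul _
  have hg : DifferentiableOn ℂ g U := by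
    intro w₀ hw₀
    have hw₀' : 0 < w₀.re := hw₀
    apply DifferentiableAt.differentiableWithinAt
    have hne : w₀ ≠ 0 := by
      rintro rfl
      simp at hw₀'
    have h1 : DifferentiableAt ℂ (fun w : ℂ => 1 / w) w₀ := by
      simpa using (differentiableAt_inv hne)
    have h2 : (1 / w₀) ∈ Complex.slitPlane := by
      left
      rw [one_div, Complex.inv_re]
      have : 0 < Complex.normSq w₀ := Complex.normSq_pos.2 hne
      positivity
    exact (h1.cpow_const h2).mul_const _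
  have hfg : Set.EqOn f g U := by
    refine AnalyticOnNhd.eqOn_of_preconnected_of_frequently_eq (hf.analyticOnNhd hUo)
      (hg.analyticOnNhd hUo) hUc.isPreconnected (z₀ := (1:ℂ)) (by simp [hU]) ?_
    have hT : Tendsto (fun t : ℝ => (t : ℂ)) (𝓝[≠] (1:ℝ)) (𝓝[≠] (1:ℂ)) := by
      apply tendsto_nhdsWithin_of_tendsto_nhds_of_eventually_within
      · exact (Complex.continuous_ofReal.tendsto' 1 1 (by simp)).mono_left nhdsWithin_le_nhds
      · filter_upwards [self_mem_nhdsWithin] with t ht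
        have ht' : t ≠ 1 := ht
        simpa using ht'
    apply hT.frequently
    apply Eventually.frequently
    filter_upwards [mem_nhdsWithin_of_mem_nhds (Ioi_mem_nhds (by norm_num : (0:ℝ) < 1))] with t ht
    have ht' : 0 < t := ht
    show (∫ u in Ioi (0:ℝ), (((u ^ (a - 1) : ℝ)) : ℂ) * Complex.exp (-((t:ℂ) * u))) =
      (1 / (t:ℂ)) ^ (a : ℂ) * Complex.Gamma a
    rw [← Complex.integral_cpow_mul_exp_neg_mul_Ioi (a := (a:ℂ)) (by simpa using ha) ht']
    apply setIntegral_congr_fun measurableSet_Ioi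
    intro u hu
    have hu' : 0 < u := hu
    simp only
    rw [Complex.ofReal_cpow hu'.le]
    simp
  exact hfg hw

open Set in
lemma kn1_unif (c : ℝ) (hc : 0 < c) : ∃ μ : Measure ℝ, IsProbabilityMeasure μ ∧
    (∀ᵐ y ∂μ, |y| ≤ c) ∧
    ∀ u : ℝ, ∫ y, Complex.exp (((u * y : ℝ) : ℂ) * Complex.I) ∂μ = ((Real.sinc (c * u) : ℝ) : ℂ) := by
  have hpos : (ENNReal.ofReal (2 * c)) ≠ 0 := by
    rw [Ne, ENNReal.ofReal_eq_zero]; linarith
  have htop : (ENNReal.ofReal (2 * c)) ≠ ⊤ := ENNReal.ofReal_ne_top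
  refine ⟨(ENNReal.ofReal (2 * c))⁻¹ • volume.restrict (Ioc (-c) c), ⟨?_⟩, ?_, ?_⟩
  · rw [Measure.smul_apply, Measure.restrict_apply MeasurableSet.univ, univ_inter, Real.volume_Ioc,
      smul_eq_mul]
    have : c - -c = 2 * c := by ring
    rw [this]
    exact ENNReal.inv_mul_cancel hpos htop
  · apply Measure.ae_smul_measure
    refine (ae_restrict_mem measurableSet_Ioc).mono (fun y hy => ?_)
    rw [abs_le]
    exact ⟨hy.1.le, hy.2⟩
  · intro u
    rw [integral_smul_measure, ← intervalIntegral.integral_of_le (by linarith),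
      ENNReal.toReal_inv, ENNReal.toReal_ofReal (by linarith)]
    rcases eq_or_ne u 0 with hu | hu
    · subst hu
      simp only [zero_mul, Complex.ofReal_zero, Complex.exp_zero, intervalIntegral.integral_const,
        mul_zero, Real.sinc_zero, Complex.ofReal_one]
      rw [smul_smul]
      have : (2 * c)⁻¹ * (c - -c) = 1 := by
        field_simp; ring
      rw [this, one_smul]
    · have h1 := intervalIntegral.integral_comp_mul_left (a := -c) (b := c)
        (fun t : ℝ => Complex.exp ((t : ℂ) * Complex.I)) hu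
      rw [h1]
      have h2 : u * -c = -(u * c) := by ring
      rw [h2, integral_exp_mul_I_eq_sinc, smul_smul, mul_comm c u]
      rw [Complex.real_smul]
      push_cast
      have hc' : (c : ℂ) ≠ 0 := by exact_mod_cast hc.ne'
      have hu' : (u : ℂ) ≠ 0 := by exact_mod_cast hu
      field_simp

open Set in
lemma kn1_meas (c : ℝ) (hc : 0 < c) (q : ℕ) : ∃ ν : Measure ℝ, IsProbabilityMeasure ν ∧
    (∀ᵐ y ∂ν, |y| ≤ q * c) ∧
    ∀ u : ℝ, ∫ y, Complex.exp (((u * y : ℝ) : ℂ) * Complex.I) ∂ν =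
      (((Real.sinc (c * u)) ^ q : ℝ) : ℂ) := by
  induction q with
  | zero =>
    refine ⟨Measure.dirac 0, inferInstance, ?_, ?_⟩
    · rw [ae_dirac_eq]
      simp
    · intro u
      simp
  | succ q ih =>
    obtain ⟨ν, hν, hae, hint⟩ := ih
    obtain ⟨μ, hμ, hae', hint'⟩ := kn1_unif c hc
    have hm : Measurable (fun p : ℝ × ℝ => p.1 + p.2) := by fun_prop
    refine ⟨(ν.prod μ).map (fun p => p.1 + p.2),
      Measure.isProbabilityMeasure_map hm.aemeasurable, ?_, ?_⟩
    · rw [ae_map_iff hm.aemeasurable (measurableSet_le (by fun_prop) (by fun_prop))]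
      have h1 : ∀ᵐ p ∂(ν.prod μ), |p.1| ≤ q * c :=
        Measure.quasiMeasurePreserving_fst.ae hae
      have h2 : ∀ᵐ p ∂(ν.prod μ), |p.2| ≤ c :=
        Measure.quasiMeasurePreserving_snd.ae hae'
      filter_upwards [h1, h2] with p hp1 hp2
      have := abs_add_le p.1 p.2
      push_cast
      linarith
    · intro u
      rw [integral_map hm.aemeasurable
        (Measurable.aestronglyMeasurable (by fun_prop))]
      have h3 : ∀ p : ℝ × ℝ, Complex.exp (((u * (p.1 + p.2) : ℝ) : ℂ) * Complex.I) =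
          Complex.exp (((u * p.1 : ℝ) : ℂ) * Complex.I) *
            Complex.exp (((u * p.2 : ℝ) : ℂ) * Complex.I) := by
        intro p
        rw [← Complex.exp_add]
        congr 1
        push_cast
        ring
      simp_rw [h3]
      rw [integral_prod_mul (fun y : ℝ => Complex.exp (((u * y : ℝ) : ℂ) * Complex.I))
        (fun y : ℝ => Complex.exp (((u * y : ℝ) : ℂ) * Complex.I)), hint u, hint' u, pow_succ]
      push_cast
      rfl

open Set in
lemma kn1_int (r c : ℝ) (q : ℕ) (hr : 1 < r) (hc : 0 < c) (hq : r + 10 ≤ q) :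
    IntegrableOn (fun u : ℝ => u ^ r * |Real.sinc (c * u)| ^ q) (Ioi 0) := by
  have hsplit : Ioi (0:ℝ) = Ioc 0 1 ∪ Ioi 1 := (Ioc_union_Ioi_eq_Ioi zero_le_one).symm
  have hcont : Continuous (fun u : ℝ => u ^ r * |Real.sinc (c * u)| ^ q) := by
    have h1 : Continuous (fun u : ℝ => u ^ r) := Real.continuous_rpow_const (by linarith)
    have h2 : Continuous (fun u : ℝ => Real.sinc (c * u)) :=
      Real.continuous_sinc.comp (by fun_prop)
    exact h1.mul (h2.abs.pow q)
  rw [hsplit]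
  apply IntegrableOn.union
  · exact (hcont.integrableOn_Icc).mono_set Ioc_subset_Icc_self
  · have hi : IntegrableOn (fun t : ℝ => (1 / c) ^ q * t ^ (r - q)) (Ioi 1) :=
      (integrableOn_Ioi_rpow_of_lt (by linarith) one_pos).const_mul _
    refine Integrable.mono' hi hcont.measurable.aestronglyMeasurable ?_
    refine (ae_restrict_mem measurableSet_Ioi).mono (fun u hu => ?_)
    have hu1 : (1:ℝ) < u := hu
    have hu0 : 0 < u := by linarith
    have hcu : 0 < c * u := by positivity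
    rw [Real.norm_of_nonneg (by positivity)]
    have hs : |Real.sinc (c * u)| ≤ 1 / (c * u) := by
      rw [Real.sinc_of_ne_zero hcu.ne', abs_div, abs_of_pos hcu]
      exact div_le_div_of_nonneg_right (Real.abs_sin_le_one _) hcu.le
    calc u ^ r * |Real.sinc (c * u)| ^ q ≤ u ^ r * (1 / (c * u)) ^ q := by gcongr
      _ = (1 / c) ^ q * u ^ (r - q) := by
        rw [Real.rpow_sub hu0, Real.rpow_natCast]
        have h5 : (1 / (c * u)) ^ q = (1 / c) ^ q / u ^ q := by
          rw [← div_pow]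
          congr 1
          field_simp
        rw [h5]
        ring

/-- the integral with the regularising factor `e^{-eps u}` -/
noncomputable def kn1_L (r c e : ℝ) (q : ℕ) (ε : ℝ) : ℂ :=
  ∫ u in Set.Ioi (0:ℝ), (((u ^ r * (Real.sinc (c * u)) ^ q : ℝ)) : ℂ) *
    Complex.exp (-((ε : ℂ) * u) + (e : ℂ) * u * Complex.I)

open Set in
lemma kn1_fub (r c e : ℝ) (q : ℕ) (hr : 1 < r) (ν : Measure ℝ) [IsProbabilityMeasure ν]
    (hν : ∀ u : ℝ, ∫ y, Complex.exp (((u * y : ℝ) : ℂ) * Complex.I) ∂ν =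
      (((Real.sinc (c * u)) ^ q : ℝ) : ℂ)) (ε : ℝ) (hε : 0 < ε) :
    kn1_L r c e q ε = ∫ y, (1 / ((ε : ℂ) - ((e + y : ℝ) : ℂ) * Complex.I)) ^ (((r + 1 : ℝ)) : ℂ) *
      Complex.Gamma ((r + 1 : ℝ) : ℂ) ∂ν := by
  have h1 : kn1_L r c e q ε = ∫ u in Ioi (0:ℝ), ∫ y, ((u ^ r : ℝ) : ℂ) *
      Complex.exp (-(((ε : ℂ) - ((e + y : ℝ) : ℂ) * Complex.I) * u)) ∂ν := by
    unfold kn1_L
    congr 1
    funext u
    have h2 : ∀ y : ℝ, ((u ^ r : ℝ) : ℂ) *
        Complex.exp (-(((ε : ℂ) - ((e + y : ℝ) : ℂ) * Complex.I) * u)) =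
        (((u ^ r : ℝ) : ℂ) * Complex.exp (-((ε : ℂ) * u) + (e : ℂ) * u * Complex.I)) *
          Complex.exp (((u * y : ℝ) : ℂ) * Complex.I) := by
      intro y
      rw [mul_assoc, ← Complex.exp_add]
      congr 2
      push_cast
      ring
    simp_rw [h2]
    rw [integral_const_mul, hν u]
    push_cast
    ring
  rw [h1, integral_integral_swap]
  · congr 1
    funext y
    have h3 := kn1_gam (r + 1) (by linarith) ((ε : ℂ) - ((e + y : ℝ) : ℂ) * Complex.I) (by
      simpa using hε)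
    rw [add_sub_cancel_right] at h3
    exact h3
  · have hbi : IntegrableOn (fun u : ℝ => u ^ r * Real.exp (-(ε * u))) (Ioi 0) := by
      have := integrableOn_rpow_mul_exp_neg_mul_rpow (by linarith : -1 < r)
        (by norm_num : (0:ℝ) < 1) hε
      refine this.congr_fun ?_ measurableSet_Ioi
      intro u hu
      simp only [Real.rpow_one, neg_mul]
    have hb2 := (Integrable.norm hbi).comp_fst ν
    refine Integrable.mono' hb2 ?_ ?_
    · refine Measurable.aestronglyMeasurable ?_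
      unfold Function.uncurry
      fun_prop
    · refine Filter.Eventually.of_forall (fun p => ?_)
      simp only [Function.uncurry]
      rw [norm_mul, Complex.norm_real, Complex.norm_exp, norm_mul, Real.norm_eq_abs (Real.exp _),
        Real.abs_exp]
      apply le_of_eq
      congr 2
      simp

open Set Filter Topology in
lemma kn1_lim1 (r c e : ℝ) (q : ℕ) (hr : 1 < r) (hc : 0 < c) (hq : r + 10 ≤ q) :
    Tendsto (kn1_L r c e q) (𝓝[>] 0) (𝓝 (kn1_L r c e q 0)) := by
  unfold kn1_L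
  apply tendsto_integral_filter_of_dominated_convergence
    (fun u : ℝ => u ^ r * |Real.sinc (c * u)| ^ q)
  · refine Eventually.of_forall (fun ε => ?_)
    refine Measurable.aestronglyMeasurable ?_
    have h2 : Measurable (fun u : ℝ => Real.sinc (c * u)) :=
      (Real.continuous_sinc.comp (by fun_prop)).measurable
    fun_prop
  · filter_upwards [self_mem_nhdsWithin] with ε hε
    have hε' : 0 < ε := hε
    refine (ae_restrict_mem measurableSet_Ioi).mono (fun u hu => ?_)
    have hu' : 0 < u := hu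
    rw [norm_mul, Complex.norm_real, Complex.norm_exp, Real.norm_eq_abs, abs_mul, abs_pow,
      abs_of_nonneg (Real.rpow_nonneg hu'.le r)]
    have h3 : (-((ε : ℂ) * u) + (e : ℂ) * u * Complex.I).re = -(ε * u) := by simp
    rw [h3]
    have h4 : Real.exp (-(ε * u)) ≤ 1 := Real.exp_le_one_iff.2 (by nlinarith)
    have h5 : 0 ≤ u ^ r * |Real.sinc (c * u)| ^ q := by positivity
    nlinarith
  · exact kn1_int r c q hr hc hq
  · refine Eventually.of_forall (fun u => ?_)
    apply Tendsto.mono_left _ nhdsWithin_le_nhds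
    apply Continuous.tendsto'
    · fun_prop
    · simp

open Set Filter Topology in
lemma kn1_lim2 (r e ρ : ℝ) (hr : 1 < r) (he : e = 1 ∨ e = -1) (hρ : ρ ≤ 1 / 4)
    (ν : Measure ℝ) [IsProbabilityMeasure ν] (hν : ∀ᵐ y ∂ν, |y| ≤ ρ) :
    Tendsto (fun ε : ℝ => ∫ y, (1 / ((ε : ℂ) - ((e + y : ℝ) : ℂ) * Complex.I)) ^ (((r + 1 : ℝ)) : ℂ) *
      Complex.Gamma ((r + 1 : ℝ) : ℂ) ∂ν) (𝓝[>] 0)
      (𝓝 (∫ y, (1 / (((0:ℝ) : ℂ) - ((e + y : ℝ) : ℂ) * Complex.I)) ^ (((r + 1 : ℝ)) : ℂ) *
      Complex.Gamma ((r + 1 : ℝ) : ℂ) ∂ν)) := by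
  have hey : ∀ y : ℝ, |y| ≤ ρ → 3 / 4 ≤ |e + y| := by
    intro y hy
    have h1 := abs_sub_abs_le_abs_sub e (-y)
    rw [abs_neg, sub_neg_eq_add] at h1
    have h2 : |e| = 1 := by
      rcases he with h | h <;> rw [h] <;> norm_num
    linarith
  apply tendsto_integral_filter_of_dominated_convergence
    (fun _ => (4 / 3) ^ (r + 1) * ‖Complex.Gamma ((r + 1 : ℝ) : ℂ)‖)
  · refine Eventually.of_forall (fun ε => ?_)
    refine Measurable.aestronglyMeasurable ?_
    fun_prop
  · refine Eventually.of_forall (fun ε => ?_)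
    filter_upwards [hν] with y hy
    rw [norm_mul, Complex.norm_cpow_real, norm_div, norm_one]
    apply mul_le_mul_of_nonneg_right _ (norm_nonneg _)
    apply Real.rpow_le_rpow (by positivity) _ (by linarith)
    have h1 := Complex.abs_im_le_norm ((ε : ℂ) - ((e + y : ℝ) : ℂ) * Complex.I)
    have h2 : ((ε : ℂ) - ((e + y : ℝ) : ℂ) * Complex.I).im = -(e + y) := by simp
    rw [h2, abs_neg] at h1
    have h3 := hey y hy
    rw [div_le_div_iff₀ (by linarith) (by norm_num)]
    linarith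
  · exact integrable_const _
  · filter_upwards [hν] with y hy
    apply Tendsto.mono_left _ nhdsWithin_le_nhds
    have h3 := hey y hy
    have hne : (e + y) ≠ 0 := by
      intro h
      rw [h] at h3
      norm_num at h3
    have hne' : ((0:ℝ) : ℂ) - ((e + y : ℝ) : ℂ) * Complex.I ≠ 0 := by
      intro h
      have := congrArg Complex.im h
      simp at this
      exact hne (by linarith)
    have hc1 : ContinuousAt (fun ε : ℝ => 1 / ((ε : ℂ) - ((e + y : ℝ) : ℂ) * Complex.I)) 0 := by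
      have hd : ContinuousAt (fun ε : ℝ => (ε : ℂ) - ((e + y : ℝ) : ℂ) * Complex.I) 0 := by
        fun_prop
      exact (continuousAt_const (y := (1:ℂ))).div hd hne'
    have hsl : 1 / (((0:ℝ) : ℂ) - ((e + y : ℝ) : ℂ) * Complex.I) ∈ Complex.slitPlane := by
      right
      rw [one_div, Complex.inv_im]
      have h4 : Complex.normSq (((0:ℝ) : ℂ) - ((e + y : ℝ) : ℂ) * Complex.I) ≠ 0 := by
        rwa [Ne, Complex.normSq_eq_zero]
      have h5 : (((0:ℝ) : ℂ) - ((e + y : ℝ) : ℂ) * Complex.I).im = -(e + y) := by simp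
      rw [h5, neg_neg]
      exact div_ne_zero hne h4
    have hc2 := (ContinuousAt.cpow hc1 (continuousAt_const (y := (((r + 1 : ℝ)) : ℂ))) hsl).mul
      (continuousAt_const (y := Complex.Gamma ((r + 1 : ℝ) : ℂ)))
    exact hc2

lemma kn1_pow (r e x : ℝ) (he : e = 1 ∨ e = -1) (hx : 0 < x * e) :
    (1 / (((0:ℝ) : ℂ) - ((x : ℝ) : ℂ) * Complex.I)) ^ (((r + 1 : ℝ)) : ℂ) =
      (((1 / |x|) ^ (r + 1) : ℝ) : ℂ) *
        Complex.exp (((e * (r + 1) * Real.pi / 2 : ℝ) : ℂ) * Complex.I) := by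
  have hxne : x ≠ 0 := by
    rintro rfl
    simp at hx
  have habs : |x| = x * e := by
    rcases he with h | h
    · subst h
      rw [mul_one] at hx ⊢
      exact abs_of_pos hx
    · subst h
      rw [abs_of_neg (by linarith)]
      ring
  have hpos : 0 < 1 / |x| := by positivity
  have h1 : 1 / (((0:ℝ) : ℂ) - ((x : ℝ) : ℂ) * Complex.I) =
      ((1 / |x| : ℝ) : ℂ) * ((e : ℂ) * Complex.I) := by
    rw [habs]
    have hxC : (x : ℂ) ≠ 0 := by exact_mod_cast hxne
    rcases he with h | h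
    · subst h
      have hI := Complex.I_ne_zero
      push_cast
      rw [div_eq_iff (by simpa using hxne)]
      field_simp
      ring_nf
      simp
    · subst h
      push_cast
      rw [div_eq_iff (by simpa using hxne)]
      field_simp
      ring_nf
      simp
  have h2 : Complex.log ((e : ℂ) * Complex.I) = ((e * Real.pi / 2 : ℝ) : ℂ) * Complex.I := by
    rcases he with h | h
    · subst h
      simp only [Complex.ofReal_one, one_mul, Complex.log_I]
      push_cast
      ring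
    · subst h
      have : ((-1 : ℝ) : ℂ) * Complex.I = -Complex.I := by push_cast; ring
      rw [this, Complex.log_neg_I]
      push_cast
      ring
  have h3 : ((e : ℂ) * Complex.I) ≠ 0 := by
    apply mul_ne_zero _ Complex.I_ne_zero
    rcases he with h | h <;> subst h <;> norm_num
  have h4 : ((1 / |x| : ℝ) : ℂ) * ((e : ℂ) * Complex.I) ≠ 0 := by
    apply mul_ne_zero _ h3
    exact_mod_cast hpos.ne'
  rw [h1, Complex.cpow_def_of_ne_zero h4, Complex.log_ofReal_mul hpos h3, h2,
    Real.rpow_def_of_pos hpos, Complex.ofReal_exp, ← Complex.exp_add]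
  congr 1
  push_cast
  ring

open Set Filter Topology in
lemma kn1_val (r c : ℝ) (q : ℕ) (hr : 1 < r) (hc : 0 < c) (hq1 : q * c ≤ 1 / 4)
    (hq : r + 10 ≤ q) (e : ℝ) (he : e = 1 ∨ e = -1) :
    ∃ Q : ℝ, 0 < Q ∧ kn1_L r c e q 0 =
      ((Q : ℝ) : ℂ) * Complex.exp (((e * (r + 1) * Real.pi / 2 : ℝ) : ℂ) * Complex.I) := by
  obtain ⟨ν, hν, hae, hint⟩ := kn1_meas c hc q
  have h1 := kn1_lim1 r c e q hr hc hq
  have h2 := kn1_lim2 r e (q * c) hr he hq1 ν hae
  have h3 : (fun ε : ℝ => ∫ y, (1 / ((ε : ℂ) - ((e + y : ℝ) : ℂ) * Complex.I)) ^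
      (((r + 1 : ℝ)) : ℂ) * Complex.Gamma ((r + 1 : ℝ) : ℂ) ∂ν) =ᶠ[𝓝[>] 0] kn1_L r c e q := by
    filter_upwards [self_mem_nhdsWithin] with ε hε
    exact (kn1_fub r c e q hr ν hint ε hε).symm
  have h4 := tendsto_nhds_unique h1 (h2.congr' h3)
  have hee : e * e = 1 := by
    rcases he with h | h <;> rw [h] <;> norm_num
  have hey : ∀ y : ℝ, |y| ≤ q * c → 3 / 4 ≤ |e + y| ∧ |e + y| ≤ 5 / 4 ∧ 0 < (e + y) * e := by
    intro y hy
    have h5 : |y| ≤ 1 / 4 := hy.trans hq1
    have h6 := abs_le.1 h5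
    rcases he with h | h
    · subst h
      rw [abs_of_pos (by linarith)]
      refine ⟨by linarith, by linarith, by linarith⟩
    · subst h
      rw [abs_of_neg (by linarith)]
      refine ⟨by linarith, by linarith, by linarith⟩
  have hbd : ∀ᵐ y ∂ν, ‖(1 / |e + y|) ^ (r + 1)‖ ≤ (4 / 3) ^ (r + 1) := by
    filter_upwards [hae] with y hy
    obtain ⟨h5, -, -⟩ := hey y hy
    rw [Real.norm_of_nonneg (by positivity)]
    apply Real.rpow_le_rpow (by positivity) _ (by linarith)
    rw [div_le_div_iff₀ (by linarith) (by norm_num)]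
    linarith
  have hmeas : AEStronglyMeasurable (fun y : ℝ => (1 / |e + y|) ^ (r + 1)) ν := by
    refine Measurable.aestronglyMeasurable ?_
    fun_prop
  have hint2 : Integrable (fun y : ℝ => (1 / |e + y|) ^ (r + 1)) ν :=
    Integrable.mono' (integrable_const _) hmeas hbd
  have hpos : 0 < ∫ y, (1 / |e + y|) ^ (r + 1) ∂ν := by
    have h7 : ∫ _y : ℝ, (4 / 5 : ℝ) ^ (r + 1) ∂ν ≤ ∫ y, (1 / |e + y|) ^ (r + 1) ∂ν := by
      apply integral_mono_ae (integrable_const _) hint2
      filter_upwards [hae] with y hy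
      obtain ⟨h5, h6, -⟩ := hey y hy
      apply Real.rpow_le_rpow (by positivity) _ (by linarith)
      rw [div_le_div_iff₀ (by norm_num) (by linarith)]
      linarith
    rw [integral_const] at h7
    simp only [probReal_univ, smul_eq_mul, one_mul] at h7
    have : (0:ℝ) < (4 / 5 : ℝ) ^ (r + 1) := by positivity
    linarith
  have hG : 0 < Real.Gamma (r + 1) := Real.Gamma_pos_of_pos (by linarith)
  refine ⟨(∫ y, (1 / |e + y|) ^ (r + 1) ∂ν) * Real.Gamma (r + 1), by positivity, ?_⟩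
  rw [h4]
  have h8 : ∀ᵐ y ∂ν, (1 / (((0:ℝ) : ℂ) - ((e + y : ℝ) : ℂ) * Complex.I)) ^ (((r + 1 : ℝ)) : ℂ) *
      Complex.Gamma ((r + 1 : ℝ) : ℂ) = (((1 / |e + y|) ^ (r + 1) : ℝ) : ℂ) *
        (Complex.exp (((e * (r + 1) * Real.pi / 2 : ℝ) : ℂ) * Complex.I) *
          Complex.Gamma ((r + 1 : ℝ) : ℂ)) := by
    filter_upwards [hae] with y hy
    obtain ⟨-, -, h5⟩ := hey y hy
    rw [kn1_pow r e (e + y) he h5]
    ring
  have h9 : ∫ y, (((1 / |e + y|) ^ (r + 1) : ℝ) : ℂ) ∂ν =
      ((∫ y, (1 / |e + y|) ^ (r + 1) ∂ν : ℝ) : ℂ) := integral_ofReal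
  rw [integral_congr_ae h8, integral_mul_const, h9, Complex.Gamma_ofReal]
  push_cast
  ring

theorem t_KN1 : S_KN1 := by
  intro r α κ q hr hloc hκ hq1 hq
  have hc : 0 < κ / 4 := by positivity
  have hq1' : (q : ℝ) * (κ / 4) ≤ 1 / 4 := by linarith
  have hform : ∀ e : ℝ, (e = 1 ∨ e = -1) → ∃ Q : ℝ, 0 < Q ∧
      (∫ u in Set.Ioi (0:ℝ), sM r α κ q ((1 / 4) * u) *
        Complex.exp (((e * u : ℝ) : ℂ) * Complex.I)).re =
        Q * Real.cos (α * Real.pi / 2 + e * (r + 1) * Real.pi / 2) := by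
    intro e he
    obtain ⟨Q, hQ, hL⟩ := kn1_val r (κ / 4) q hr hc hq1' hq e he
    have hfac : (0:ℝ) < (1 / 4 : ℝ) ^ r := by positivity
    refine ⟨(1 / 4 : ℝ) ^ r * Q, by positivity, ?_⟩
    have h1 : (∫ u in Set.Ioi (0:ℝ), sM r α κ q ((1 / 4) * u) *
        Complex.exp (((e * u : ℝ) : ℂ) * Complex.I)) =
        (Complex.exp (((α * Real.pi / 2 : ℝ) : ℂ) * Complex.I) * (((1 / 4 : ℝ) ^ r : ℝ) : ℂ)) *
          kn1_L r (κ / 4) e q 0 := by
      unfold kn1_L
      rw [← integral_const_mul]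
      apply setIntegral_congr_fun measurableSet_Ioi
      intro u hu
      have hu' : 0 < u := hu
      simp only [sM]
      rw [Real.mul_rpow (by norm_num) hu'.le]
      have h2 : κ * (1 / 4 * u) = κ / 4 * u := by ring
      have h3 : -(((0:ℝ) : ℂ) * (u:ℂ)) + (e : ℂ) * u * Complex.I =
          ((e * u : ℝ) : ℂ) * Complex.I := by
        push_cast
        ring
      rw [h2, h3]
      push_cast
      ring
    rw [h1, hL]
    have h4 : Complex.exp (((α * Real.pi / 2 : ℝ) : ℂ) * Complex.I) * (((1 / 4 : ℝ) ^ r : ℝ) : ℂ) *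
        (((Q : ℝ) : ℂ) * Complex.exp (((e * (r + 1) * Real.pi / 2 : ℝ) : ℂ) * Complex.I)) =
        (((1 / 4 : ℝ) ^ r * Q : ℝ) : ℂ) *
          Complex.exp (((α * Real.pi / 2 + e * (r + 1) * Real.pi / 2 : ℝ) : ℂ) * Complex.I) := by
      have h5 : ((α * Real.pi / 2 + e * (r + 1) * Real.pi / 2 : ℝ) : ℂ) * Complex.I =
          ((α * Real.pi / 2 : ℝ) : ℂ) * Complex.I +
            ((e * (r + 1) * Real.pi / 2 : ℝ) : ℂ) * Complex.I := by
        push_cast
        ring
      rw [h5, Complex.exp_add]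
      push_cast
      ring
    rw [h4, Complex.re_ofReal_mul, Complex.exp_ofReal_mul_I_re]
  obtain ⟨Q1, hQ1, h1⟩ := hform 1 (Or.inl rfl)
  obtain ⟨Q2, hQ2, h2⟩ := hform (-1) (Or.inr rfl)
  by_contra hcon
  push Not at hcon
  have h3 := hcon 1 (Or.inl rfl)
  have h4 := hcon (-1) (Or.inr rfl)
  rw [h1] at h3
  rw [h2] at h4
  have h5 := (mul_eq_zero.1 h3).resolve_left hQ1.ne'
  have h6 := (mul_eq_zero.1 h4).resolve_left hQ2.ne'
  rw [Real.cos_eq_zero_iff] at h5 h6
  obtain ⟨k, hk⟩ := h5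
  obtain ⟨l, hl⟩ := h6
  have hpi := Real.pi_pos
  have e1 : α + (r + 1) = 2 * k + 1 := by
    have : (α + (r + 1)) * Real.pi = (2 * k + 1) * Real.pi := by linarith
    exact mul_right_cancel₀ hpi.ne' this
  have e2 : α - (r + 1) = 2 * l + 1 := by
    have : (α - (r + 1)) * Real.pi = (2 * l + 1) * Real.pi := by linarith
    exact mul_right_cancel₀ hpi.ne' this
  have e3 : r = ((k - l - 1 : ℤ) : ℝ) := by push_cast; linarith
  have e4 : (0:ℤ) ≤ k - l - 1 := by
    have : (0:ℝ) < ((k - l - 1 : ℤ) : ℝ) := by rw [← e3]; linarith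
    exact_mod_cast this.le
  apply hloc
  refine ⟨(k - l - 1).toNat, l + 1, ?_, ?_⟩
  · have h7 : (((k - l - 1).toNat : ℤ)) = k - l - 1 := Int.toNat_of_nonneg e4
    rw [e3, ← h7]
    simp
  · have h7 : (((k - l - 1).toNat : ℤ)) = k - l - 1 := Int.toNat_of_nonneg e4
    have h8 : (((k - l - 1).toNat : ℕ) : ℝ) = r := by
      rw [e3]
      exact_mod_cast h7
    rw [h8]
    push_cast
    linarith

end Pool.Agent.H729R2.FO
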