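import Mathlib
import Pool.Agent.H729R2.FO.Stubs
import Pool.Agent.H729R2.CB.T_FCF
import Pool.Agent.H729R2.CB.T_PAR

set_option autoImplicit false

namespace Pool.Agent.H729R2.FO

open MeasureTheory Pool.Agent.H729R2.CB Pool.Agent.Helper150.Cub

open scoped Classical

/-- monotonicity of `Sym` in the constant -/
theorem kna_sym {a B B' σ₀ : ℝ} {σ σ₁ σ₂ σ₃ : ℝ → ℂ} (hB : B ≤ B') (h : Sym a B σ₀ σ σ₁ σ₂ σ₃) :
    Sym a B' σ₀ σ σ₁ σ₂ σ₃ where
  d1 := h.d1
  d2 := h.d2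
  d3 := h.d3
  b0 := fun u hu => (h.b0 u hu).trans (mul_le_mul_of_nonneg_right hB (by positivity))
  b1 := fun u hu => (h.b1 u hu).trans (by
    apply mul_le_mul_of_nonneg_right _ (by positivity)
    exact mul_le_mul_of_nonneg_right hB (by positivity))
  b2 := fun u hu => (h.b2 u hu).trans (by
    apply mul_le_mul_of_nonneg_right _ (by positivity)
    exact mul_le_mul_of_nonneg_right hB (by positivity))
  b3 := fun u hu => (h.b3 u hu).trans (by
    apply mul_le_mul_of_nonneg_right _ (by positivity)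
    exact mul_le_mul_of_nonneg_right hB (by positivity))
  lim := fun u hu => (h.lim u hu).trans (mul_le_mul_of_nonneg_right hB (by positivity))

/-- monotonicity of `Bd` in the constant -/
theorem kna_bd {a C C' s : ℝ} {g : G → ℝ} (hs : 0 < s) (hC : C ≤ C') (h : Bd a C s g) :
    Bd a C' s g where
  cont := h.cont
  bd := fun x => (h.bd x).trans (by
    apply mul_le_mul_of_nonneg_right _ (by positivity)
    exact div_le_div_of_nonneg_right hC hs.le)
  lip := fun x y => (h.lip x y).trans (by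
    apply mul_le_mul_of_nonneg_right _ (by positivity)
    apply mul_le_mul_of_nonneg_right _ (by positivity)
    exact div_le_div_of_nonneg_right hC hs.le)

theorem kna_FC (r α : ℝ) (hr : 1 < r) : Continuous (FG r α) ∧ ∫ x, FG r α x ∂hm = 1 := by
  obtain ⟨h1, h2, h3⟩ := t_FCF r α hr
  refine ⟨h1, ?_⟩
  obtain ⟨_, h4, _⟩ := t_PAR (fc r α) h2
  have h5 := h4 0
  have h6 : (fun x : G => ∑' k, fc r α k * fourier k x) = fun x => ((FG r α x : ℝ) : ℂ) :=
    funext fun x => (h3 x).symm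
  rw [h6] at h5
  unfold fourierCoeff at h5
  have h7 : (∫ t : G, (fourier (-(0:ℤ)) t : ℂ) • ((FG r α t : ℝ) : ℂ) ∂hm) =
      ∫ t : G, ((FG r α t : ℝ) : ℂ) ∂hm := by
    apply integral_congr_ae
    filter_upwards with t
    simp
  rw [h7, integral_complex_ofReal] at h5
  have h8 : fc r α 0 = 1 := by unfold fc; rw [if_pos rfl]
  rw [h8] at h5
  exact_mod_cast h5

theorem kna_norm (e z : ℝ) (he : e = 1 ∨ e = -1) (hz0 : 0 < z) (hz1 : z ≤ 1) :
    ‖((e * z : ℝ) : G)‖ = z := by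
  have h1 : ‖((z : ℝ) : G)‖ = z := by
    have h2 : |z| ≤ |2 * Real.pi| / 2 := by
      rw [abs_of_pos hz0, abs_of_pos (by positivity)]
      have := Real.pi_gt_three
      linarith
    rw [(AddCircle.norm_coe_eq_abs_iff (2 * Real.pi) (x := z) (by positivity)).mpr h2,
      abs_of_pos hz0]
  rcases he with h | h
  · rw [h, one_mul, h1]
  · rw [h]
    have : ((-1 * z : ℝ) : G) = -((z : ℝ) : G) := by
      rw [← AddCircle.coe_neg]; congr 1; ring
    rw [this, norm_neg, h1]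

theorem t_KNA (h1 : S_SYM) (h2 : S_SMU) (h3 : S_SKQ) (h4 : S_C12) (h5 : S_KSM) (h6 : S_KSU)
    (h7 : S_KND) : S_KNA := by
  intro r α hr hL
  -- the parameters
  obtain ⟨a, ha⟩ : ∃ a : ℝ, a = 1 + min r (3 / 2) := ⟨_, rfl⟩
  have hm1 : 1 < min r (3 / 2) := lt_min hr (by norm_num)
  have ha2 : 2 < a := by rw [ha]; linarith
  have ha52 : a ≤ 5 / 2 := by rw [ha]; have := min_le_right r (3 / 2 : ℝ); linarith
  have har : a - 1 ≤ r := by rw [ha]; have := min_le_left r (3 / 2 : ℝ); linarith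
  obtain ⟨q, hq⟩ : ∃ q : ℕ, q = ⌈r⌉₊ + 10 := ⟨_, rfl⟩
  have hqr : r + 10 ≤ q := by
    rw [hq]; push_cast
    have := Nat.le_ceil r
    linarith
  have hq0 : (0 : ℝ) < q := by linarith
  obtain ⟨κ, hκ⟩ : ∃ κ : ℝ, κ = 1 / (2 * q) := ⟨_, rfl⟩
  have hκ0 : 0 < κ := by rw [hκ]; positivity
  have hκq : 2 * q * κ = 1 := by rw [hκ]; field_simp
  have hκ1 : κ ≤ 1 := by
    have : (1 : ℝ) ≤ 2 * q := by linarith
    nlinarith
  have hκq' : q * κ ≤ 1 := by linarith
  obtain ⟨c₁, c₂, hc12⟩ := h4 r α κ q hr hκ0 hκ1 hqr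
  obtain ⟨B₁, s₁, s₂, s₃, hB₁, hS₁⟩ := h2 r α κ q hr hκ0 hκ1 hqr
  obtain ⟨B₂, t₁, t₂, t₃, hB₂, hS₂⟩ := h3 r α κ c₁ c₂ q hr hκ0 hκ1 hqr hc12
  obtain ⟨η, c₀, z₀, e, hη0, hη1, hc0, hz0, hz1, he, hnd⟩ := h7 r α κ q hr hL hκ0 hκq' hqr
  rw [← ha] at hS₁ hS₂
  obtain ⟨B, hB⟩ : ∃ B : ℝ, B = max (max B₁ B₂) (|c₁| / r) := ⟨_, rfl⟩
  have hBB₁ : B₁ ≤ B := by rw [hB]; exact le_max_of_le_left (le_max_left _ _)
  have hBB₂ : B₂ ≤ B := by rw [hB]; exact le_max_of_le_left (le_max_right _ _)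
  have hBc : |c₁| / r ≤ B := by rw [hB]; exact le_max_right _ _
  have hB1 : 1 ≤ B := hB₁.trans hBB₁
  obtain ⟨C, hC1, hSYM⟩ := h1 a B ha2 (by linarith) hB1
  have hpow : ∀ s : ℝ, 0 < s → s ≤ 1 → s ^ r ≤ s ^ (a - 1) := fun s hs0 hs1 =>
    Real.rpow_le_rpow_of_exponent_ge hs0 hs1 har
  -- the kernels
  let M : ℝ → G → ℝ := fun s => fs (cs (s ^ r) (sM r α κ q) s)
  let K : ℝ → G → ℝ := fun t => fs (cs (1 - c₁ * t ^ r / r) (sK r α κ c₁ c₂ q) t)
  let Y : ℝ → G → ℝ := fun z x => M (η * z) (x + ((e * z : ℝ) : G)) / M (η * z) ((e * z : ℝ) : G)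
  have hMb : ∀ s, 0 < s → s ≤ 1 → Bd a C s (M s) := by
    intro s hs0 hs1
    refine (hSYM 0 _ _ _ _ (kna_sym hBB₁ hS₁) s (s ^ r) hs0 hs1 ?_).2.1
    rw [sub_zero, abs_of_nonneg (by positivity)]
    have h0 : 0 ≤ s ^ (a - 1) := by positivity
    nlinarith [hpow s hs0 hs1]
  have hKb : ∀ t, 0 < t → t ≤ 1 → Bd a C t (K t) := by
    intro t ht0 ht1
    refine (hSYM 1 _ _ _ _ (kna_sym hBB₂ hS₂) t (1 - c₁ * t ^ r / r) ht0 ht1 ?_).2.1
    have e1 : (1 : ℝ) - c₁ * t ^ r / r - 1 = -(c₁ / r * t ^ r) := by ring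
    rw [e1, abs_neg, abs_mul, abs_div, abs_of_pos (show (0 : ℝ) < r by linarith),
      abs_of_nonneg (show 0 ≤ t ^ r by positivity)]
    exact mul_le_mul hBc (hpow t ht0 ht1) (by positivity) (by linarith)
  have hMs : ∀ s, 0 < s → s ≤ 1 → ∀ x, s ≤ ‖x‖ → Fc (FG r α) (M s) x = 0 := fun s hs0 hs1 =>
    (h5 r α κ q hr hκ0 hκq' hqr s hs0 hs1).2
  have hMm : ∀ s, 0 < s → s ≤ 1 → ∫ t, M s t ∂hm = s ^ r := fun s hs0 hs1 =>
    (h5 r α κ q hr hκ0 hκq' hqr s hs0 hs1).1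
  have hKs : ∀ t, 0 < t → t ≤ 1 → ∀ x, t ≤ ‖x‖ → Fc (FG r α) (K t) x = FG r α x :=
    fun t ht0 ht1 => h6 r α κ c₁ c₂ q hr hκ0 hκq.le hqr hc12 t ht0 ht1
  obtain ⟨hFc, hFi⟩ := kna_FC r α hr
  -- the size of the denominator
  have hden : ∀ z, 0 < z → z ≤ z₀ → c₀ / z ≤ |M (η * z) ((e * z : ℝ) : G)| := hnd
  have hηz : ∀ z, 0 < z → z ≤ z₀ → 0 < η * z ∧ η * z ≤ 1 ∧ η * z ≤ z / 2 := by
    intro z hz hzz
    refine ⟨by positivity, ?_, ?_⟩ <;> nlinarith
  have hen : ∀ z, 0 < z → z ≤ z₀ → ‖((e * z : ℝ) : G)‖ = z := fun z hz hzz =>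
    kna_norm e z he hz (hzz.trans hz1)
  have hdpos : ∀ z, 0 < z → z ≤ z₀ → 0 < |M (η * z) ((e * z : ℝ) : G)| := fun z hz hzz =>
    lt_of_lt_of_le (by positivity) (hden z hz hzz)
  -- the weight
  have hwt : ∀ z, 0 < z → z ≤ z₀ → ∀ x : G,
      (1 + ‖x + ((e * z : ℝ) : G)‖ / (η * z)) ^ (-a) ≤ 8 * (1 + ‖x‖ / z) ^ (-a) := by
    intro z hz hzz x
    have b1 : ‖x‖ ≤ ‖x + ((e * z : ℝ) : G)‖ + z := by
      have := norm_sub_le (x + ((e * z : ℝ) : G)) ((e * z : ℝ) : G)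
      rw [add_sub_cancel_right, hen z hz hzz] at this
      exact this
    have b2 : ‖x + ((e * z : ℝ) : G)‖ / z ≤ ‖x + ((e * z : ℝ) : G)‖ / (η * z) := by
      apply div_le_div_of_nonneg_left (norm_nonneg _) (hηz z hz hzz).1
      have := (hηz z hz hzz).2.2
      linarith
    have b3 : ‖x‖ / z ≤ ‖x + ((e * z : ℝ) : G)‖ / z + 1 := by
      rw [div_le_iff₀ hz, add_mul, div_mul_cancel₀ _ hz.ne', one_mul]
      exact b1
    have b4 : (1 + ‖x‖ / z) / 2 ≤ 1 + ‖x + ((e * z : ℝ) : G)‖ / (η * z) := by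
      have : 0 ≤ ‖x + ((e * z : ℝ) : G)‖ / (η * z) := div_nonneg (norm_nonneg _) (hηz z hz hzz).1.le
      linarith
    have b5 : 0 < 1 + ‖x‖ / z := by positivity
    calc (1 + ‖x + ((e * z : ℝ) : G)‖ / (η * z)) ^ (-a) ≤ ((1 + ‖x‖ / z) / 2) ^ (-a) :=
          Real.rpow_le_rpow_of_nonpos (by positivity) b4 (by linarith)
      _ = (2 : ℝ) ^ a * (1 + ‖x‖ / z) ^ (-a) := by
          rw [Real.div_rpow b5.le (by norm_num), Real.rpow_neg (by norm_num : (0 : ℝ) ≤ 2), div_inv_eq_mul]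
          ring
      _ ≤ 8 * (1 + ‖x‖ / z) ^ (-a) := by
          apply mul_le_mul_of_nonneg_right _ (by positivity)
          calc (2 : ℝ) ^ a ≤ (2 : ℝ) ^ (3 : ℝ) :=
                Real.rpow_le_rpow_of_exponent_le (by norm_num) (by linarith)
            _ = 8 := by norm_num
  -- the constant
  obtain ⟨CY, hCY⟩ : ∃ CY : ℝ, CY = 8 * C / (η ^ 2 * c₀) := ⟨_, rfl⟩
  have hC0 : 0 < C := by linarith
  have hCY0 : 0 < CY := by rw [hCY]; positivity
  have hYb : ∀ z, 0 < z → z ≤ z₀ → Bd a (CY * z) z (Y z) := by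
    intro z hz hzz
    have hb := hMb (η * z) (hηz z hz hzz).1 (hηz z hz hzz).2.1
    have hd := hden z hz hzz
    have hdp := hdpos z hz hzz
    have hw := hwt z hz hzz
    have hinv : 1 / |M (η * z) ((e * z : ℝ) : G)| ≤ z / c₀ := by
      rw [div_le_div_iff₀ hdp hc0, one_mul]
      rw [div_le_iff₀ hz] at hd
      linarith
    refine ⟨?_, ?_, ?_⟩
    · show Continuous (fun x => M (η * z) (x + ((e * z : ℝ) : G)) / M (η * z) ((e * z : ℝ) : G))
      exact (hb.cont.comp (continuous_id.add continuous_const)).div_const _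
    · intro x
      have e1 : |Y z x| = |M (η * z) (x + ((e * z : ℝ) : G))| * (1 / |M (η * z) ((e * z : ℝ) : G)|) := by
        show |M (η * z) (x + ((e * z : ℝ) : G)) / M (η * z) ((e * z : ℝ) : G)| = _
        rw [abs_div]; ring
      rw [e1, mul_div_assoc, div_self hz.ne', mul_one]
      calc |M (η * z) (x + ((e * z : ℝ) : G))| * (1 / |M (η * z) ((e * z : ℝ) : G)|)
          ≤ (C / (η * z) * (8 * (1 + ‖x‖ / z) ^ (-a))) * (z / c₀) := by
            apply mul_le_mul _ hinv (by positivity) (by positivity)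
            exact (hb.bd _).trans (mul_le_mul_of_nonneg_left (hw x) (by positivity))
        _ = (8 * C / (η * c₀)) * (1 + ‖x‖ / z) ^ (-a) := by
            field_simp
        _ ≤ CY * (1 + ‖x‖ / z) ^ (-a) := by
            apply mul_le_mul_of_nonneg_right _ (by positivity)
            rw [hCY]
            apply div_le_div_of_nonneg_left (by positivity) (by positivity)
            have h10 : η ^ 2 ≤ η := by nlinarith
            exact mul_le_mul_of_nonneg_right h10 hc0.le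
    · intro x y
      have e1 : |Y z x - Y z y| = |M (η * z) (x + ((e * z : ℝ) : G)) - M (η * z) (y + ((e * z : ℝ) : G))| *
          (1 / |M (η * z) ((e * z : ℝ) : G)|) := by
        show |M (η * z) (x + ((e * z : ℝ) : G)) / M (η * z) ((e * z : ℝ) : G) -
          M (η * z) (y + ((e * z : ℝ) : G)) / M (η * z) ((e * z : ℝ) : G)| = _
        rw [← sub_div, abs_div]; ring
      rw [e1, mul_div_assoc CY, div_self hz.ne', mul_one]
      have hl := hb.lip (x + ((e * z : ℝ) : G)) (y + ((e * z : ℝ) : G))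
      rw [add_sub_add_right_eq_sub] at hl
      calc |M (η * z) (x + ((e * z : ℝ) : G)) - M (η * z) (y + ((e * z : ℝ) : G))| *
            (1 / |M (η * z) ((e * z : ℝ) : G)|)
          ≤ (C / (η * z) * (‖x - y‖ / (η * z)) *
              (8 * (1 + ‖x‖ / z) ^ (-a) + 8 * (1 + ‖y‖ / z) ^ (-a))) * (z / c₀) := by
            apply mul_le_mul _ hinv (by positivity) (by positivity)
            exact hl.trans (mul_le_mul_of_nonneg_left (add_le_add (hw x) (hw y)) (by positivity))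
        _ = CY * (‖x - y‖ / z) * ((1 + ‖x‖ / z) ^ (-a) + (1 + ‖y‖ / z) ^ (-a)) := by
            rw [hCY]
            field_simp
  have hFcY : ∀ z, ∀ x : G, Fc (FG r α) (Y z) x =
      Fc (FG r α) (M (η * z)) (x + ((e * z : ℝ) : G)) / M (η * z) ((e * z : ℝ) : G) := by
    intro z x
    unfold Fc
    have e1 : ∀ t : G, Y z t * FG r α (x - t) =
        (fun t' => M (η * z) t' * FG r α (x + ((e * z : ℝ) : G) - t')) (t + ((e * z : ℝ) : G)) /
          M (η * z) ((e * z : ℝ) : G) := by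
      intro t
      show M (η * z) (t + ((e * z : ℝ) : G)) / M (η * z) ((e * z : ℝ) : G) * FG r α (x - t) = _
      simp only [add_sub_add_right_eq_sub]
      ring
    rw [integral_congr_ae (Filter.Eventually.of_forall e1), integral_div,
      integral_add_right_eq_self (μ := hm)
        (fun t' => M (η * z) t' * FG r α (x + ((e * z : ℝ) : G) - t')) ((e * z : ℝ) : G)]
  obtain ⟨C', hC'⟩ : ∃ C' : ℝ, C' = max (max C CY) (1 / c₀) := ⟨_, rfl⟩
  have hCC : C ≤ C' := by rw [hC']; exact le_max_of_le_left (le_max_left _ _)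
  have hCYC : CY ≤ C' := by rw [hC']; exact le_max_of_le_left (le_max_right _ _)
  have hcC : 1 / c₀ ≤ C' := by rw [hC']; exact le_max_right _ _
  refine ⟨a, C', z₀, M, K, Y, ?_⟩
  constructor
  · exact hr
  · exact ha2
  · linarith
  · linarith
  · exact hz0
  · exact hz1
  · exact hFc
  · exact hFi
  · exact fun s hs0 hs1 => kna_bd hs0 hCC (hMb s hs0 hs1)
  · exact hMm
  · exact hMs
  · exact fun t ht0 ht1 => kna_bd ht0 hCC (hKb t ht0 ht1)
  · exact hKs
  · exact fun z hz hzz => kna_bd hz (mul_le_mul_of_nonneg_right hCYC hz.le) (hYb z hz hzz)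
  · intro z hz hzz
    show M (η * z) (0 + ((e * z : ℝ) : G)) / M (η * z) ((e * z : ℝ) : G) = 1
    rw [zero_add]
    exact div_self (abs_pos.mp (hdpos z hz hzz))
  · intro z hz hzz x hx
    rw [hFcY z x, hMs (η * z) (hηz z hz hzz).1 (hηz z hz hzz).2.1, zero_div]
    have h8 := (hηz z hz hzz).2.2
    have h9 := hen z hz hzz
    rcases hx with hx | hx
    · have := norm_sub_le (x + ((e * z : ℝ) : G)) x
      rw [add_sub_cancel_left, h9] at this
      linarith
    · have := norm_sub_le (x + ((e * z : ℝ) : G)) ((e * z : ℝ) : G)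
      rw [add_sub_cancel_right, h9] at this
      linarith
  · intro z hz hzz
    have e1 : ∫ x, Y z x ∂hm = (η * z) ^ r / M (η * z) ((e * z : ℝ) : G) := by
      show ∫ x, M (η * z) (x + ((e * z : ℝ) : G)) / M (η * z) ((e * z : ℝ) : G) ∂hm = _
      rw [integral_div, integral_add_right_eq_self (μ := hm) (fun t => M (η * z) t) ((e * z : ℝ) : G),
        hMm (η * z) (hηz z hz hzz).1 (hηz z hz hzz).2.1]
    have hdp := hdpos z hz hzz
    have hd := hden z hz hzz
    have hinv : 1 / |M (η * z) ((e * z : ℝ) : G)| ≤ z / c₀ := by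
      rw [div_le_div_iff₀ hdp hc0, one_mul]
      rw [div_le_iff₀ hz] at hd
      linarith
    have h8 : (η * z) ^ r ≤ z ^ r := Real.rpow_le_rpow (by positivity) (by nlinarith) (by linarith)
    rw [e1, abs_div, abs_of_nonneg (show 0 ≤ (η * z) ^ r by positivity)]
    calc (η * z) ^ r / |M (η * z) ((e * z : ℝ) : G)| =
          (η * z) ^ r * (1 / |M (η * z) ((e * z : ℝ) : G)|) := by ring
      _ ≤ z ^ r * (z / c₀) := mul_le_mul h8 hinv (by positivity) (by positivity)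
      _ = 1 / c₀ * z ^ (1 + r) := by
          rw [Real.rpow_add hz, Real.rpow_one]; ring
      _ ≤ C' * z ^ (1 + r) := mul_le_mul_of_nonneg_right hcC (by positivity)

end Pool.Agent.H729R2.FO
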