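import Mathlib
import Pool.Agent.H729R2.FO.Stubs

set_option autoImplicit false

namespace Pool.Agent.H729R2.FO

open MeasureTheory Pool.Agent.H729R2.CB Pool.Agent.Helper150.Cub

open scoped Classical

theorem t_KND (h1 : S_KN1) (h2 : S_KN2) : S_KND := by
  intro r α κ q hr hloc hκ hqκ hrq
  obtain ⟨e, he, hne⟩ := h1 r α κ q hr hloc hκ hqκ hrq
  have hlim := h2 r α κ e q hr hκ hqκ hrq
  set L : ℝ := 2 * (∫ u in Set.Ioi (0:ℝ), sM r α κ q ((1 / 4) * u) *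
    Complex.exp (((e * u : ℝ) : ℂ) * Complex.I)).re with hL
  have hL0 : L ≠ 0 := by
    rw [hL]
    exact mul_ne_zero two_ne_zero hne
  have hLpos : 0 < |L| := abs_pos.mpr hL0
  have habs := hlim.abs
  have hev : ∀ᶠ z in nhdsWithin (0:ℝ) (Set.Ioi 0), |L| / 2 <
      |z * fs (cs (((1 / 4) * z) ^ r) (sM r α κ q) ((1 / 4) * z)) ((e * z : ℝ) : G)| :=
    habs.eventually_const_lt (by linarith)
  obtain ⟨δ, hδ, hsub⟩ := (mem_nhdsGT_iff_exists_Ioo_subset).mp hev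
  have hδ0 : (0:ℝ) < δ := hδ
  refine ⟨1 / 4, |L| / 2, min (δ / 2) 1, e, by norm_num, by norm_num, by linarith,
    lt_min (by linarith) one_pos, min_le_right _ _, he, ?_⟩
  intro z hz hz0
  have hzδ : z < δ := lt_of_le_of_lt (hz0.trans (min_le_left _ _)) (by linarith)
  have h3 : |L| / 2 <
      |z * fs (cs (((1 / 4) * z) ^ r) (sM r α κ q) ((1 / 4) * z)) ((e * z : ℝ) : G)| :=
    hsub ⟨hz, hzδ⟩
  rw [abs_mul z, abs_of_pos hz] at h3
  rw [div_le_iff₀ hz, mul_comm]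
  exact h3.le

end Pool.Agent.H729R2.FO
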