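import Mathlib
import Pool.Agent.H729R2.FO.Stubs
import Pool.Agent.H729R2.CB.T_SPL
import Pool.Agent.H729R2.CB.T_PAR
import Pool.Agent.H729R2.CB.T_FCF
import Pool.Agent.H729R2.CB.T_CON

set_option autoImplicit false

namespace Pool.Agent.H729R2.FO

open MeasureTheory Pool.Agent.H729R2.CB Pool.Agent.Helper150.Cub

open scoped Classical

noncomputable section

theorem ksm_conj_mc (r α κ : ℝ) (q : ℕ) (δ : ℝ) (k : ℤ) :
    (starRingEnd ℂ) (mc r α κ q δ k) = mc r α κ q δ (-k) := by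
  unfold mc
  by_cases hk : k = 0
  · subst hk
    simp
  · rw [if_neg hk, if_neg (neg_ne_zero.2 hk), map_mul, Complex.conj_ofReal]
    congr 1
    · rw [Int.cast_neg, abs_neg]
    · unfold ph
      rw [← Complex.exp_conj, map_mul, Complex.conj_ofReal, Complex.conj_I]
      congr 1
      rw [Int.sign_neg]
      push_cast
      ring

/-- the coefficients of `FO` are those of `CB` -/
theorem ksm_cs (r α κ : ℝ) (q : ℕ) (s : ℝ) (k : ℤ) : cs (s ^ r) (sM r α κ q) s k = mc r α κ q s k := by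
  unfold cs
  rcases lt_trichotomy k 0 with hk | hk | hk
  · rw [if_neg hk.ne, if_neg (by omega)]
    unfold mc sM
    rw [if_neg hk.ne, map_mul, ← Complex.exp_conj, map_mul, Complex.conj_ofReal, Complex.conj_ofReal,
      Complex.conj_I, mul_comm]
    congr 1
    · unfold mu
      rw [mul_comm s |(k : ℝ)|]
    · unfold ph
      congr 1
      rw [Int.sign_eq_neg_one_of_neg hk]
      push_cast
      ring
  · subst hk
    unfold mc
    simp
  · rw [if_neg hk.ne', if_pos hk]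
    unfold mc sM
    rw [if_neg hk.ne', mul_comm]
    congr 1
    · unfold mu
      rw [mul_comm s |(k : ℝ)|]
    · unfold ph
      congr 1
      rw [Int.sign_eq_one_of_pos hk]
      push_cast
      ring

theorem ksm_fs (r α κ : ℝ) (q : ℕ) (s : ℝ) (x : G) :
    ((fs (cs (s ^ r) (sM r α κ q) s) x : ℝ) : ℂ) = ∑' k : ℤ, mc r α κ q s k * fourier k x := by
  have e0 : cs (s ^ r) (sM r α κ q) s = mc r α κ q s := funext (ksm_cs r α κ q s)
  unfold fs
  rw [e0, ← Complex.conj_eq_iff_re, Complex.conj_tsum]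
  have e : (fun k : ℤ => (starRingEnd ℂ) (mc r α κ q s k * fourier k x)) =
      fun k : ℤ => (fun j : ℤ => mc r α κ q s j * fourier j x) ((Equiv.neg ℤ) k) := by
    funext k
    simp only [Equiv.neg_apply]
    rw [map_mul, ksm_conj_mc, fourier_neg]
  rw [e]
  exact (Equiv.neg ℤ).tsum_eq (fun j : ℤ => mc r α κ q s j * fourier j x)

theorem ksm_mul (r α κ : ℝ) (q : ℕ) (δ : ℝ) (hδ : 0 < δ) (k : ℤ) :
    mc r α κ q δ k * fc r α k = ((δ ^ r : ℝ) : ℂ) * ((Real.sinc (k * (κ * δ)) ^ q : ℝ) : ℂ) := by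
  unfold mc fc
  by_cases hk : k = 0
  · subst hk
    simp
  · rw [if_neg hk, if_neg hk]
    have hk0 : (0 : ℝ) < |(k : ℝ)| := abs_pos.2 (by exact_mod_cast hk)
    have hph : ph (-α) k * ph α k = 1 := by
      unfold ph
      rw [← Complex.exp_add, ← Complex.exp_zero]
      congr 1
      push_cast
      ring
    have hmu : mu r κ q (|(k : ℝ)| * δ) * |(k : ℝ)| ^ (-r) =
        δ ^ r * Real.sinc (k * (κ * δ)) ^ q := by
      unfold mu
      rw [Real.mul_rpow hk0.le hδ.le, Real.rpow_neg hk0.le]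
      have hs : Real.sinc (κ * (|(k : ℝ)| * δ)) = Real.sinc (k * (κ * δ)) := by
        rcases abs_choice (k : ℝ) with h | h
        · rw [h]; congr 1; ring
        · rw [h, ← Real.sinc_neg]; congr 1; ring
      rw [hs]
      have : (|(k : ℝ)|) ^ r ≠ 0 := (Real.rpow_pos_of_pos hk0 r).ne'
      field_simp
    calc ((mu r κ q (|(k : ℝ)| * δ) : ℝ) : ℂ) * ph (-α) k * ((((|(k : ℝ)|) ^ (-r) : ℝ) : ℂ) * ph α k)
        = ((mu r κ q (|(k : ℝ)| * δ) * |(k : ℝ)| ^ (-r) : ℝ) : ℂ) * (ph (-α) k * ph α k) := by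
          push_cast; ring
      _ = _ := by rw [hph, hmu, mul_one]; push_cast; ring

theorem ksm_sinc (y : ℝ) (hy : 0 < y) : |Real.sinc y| ≤ y⁻¹ := by
  rw [Real.sinc_of_ne_zero hy.ne', abs_div, abs_of_pos hy, div_eq_mul_inv]
  calc |Real.sin y| * y⁻¹ ≤ 1 * y⁻¹ := by
        gcongr
        exact Real.abs_sin_le_one y
    _ = y⁻¹ := one_mul _

theorem ksm_ph (α : ℝ) (k : ℤ) : ‖ph α k‖ = 1 := by
  unfold ph
  exact Complex.norm_exp_ofReal_mul_I _

theorem ksm_sum (r α κ : ℝ) (q : ℕ) (hr : 1 < r) (hκ : 0 < κ) (hq : r + 10 ≤ q) (s : ℝ) (hs : 0 < s) :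
    Summable (fun k : ℤ => ‖mc r α κ q s k‖) := by
  have h1 : Summable (fun k : ℤ => |(k : ℝ)| ^ (-2 : ℝ)) := by
    have := Real.summable_abs_int_rpow (b := 2) (by norm_num)
    simpa using this
  have h2 := (h1.mul_left (s ^ r * ((κ * s)⁻¹) ^ q)).add
    (summable_of_ne_finset_zero (f := fun k : ℤ => if k = 0 then ‖mc r α κ q s 0‖ else 0) (s := {0})
      (fun b hb => by
        have : b ≠ 0 := by simpa using hb
        simp [this]))
  refine Summable.of_nonneg_of_le (fun _ => norm_nonneg _) (fun k => ?_) h2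
  by_cases hk : k = 0
  · subst hk
    have : 0 ≤ s ^ r * ((κ * s)⁻¹) ^ q * |((0 : ℤ) : ℝ)| ^ (-2 : ℝ) := by positivity
    simp only [if_true]
    linarith
  · simp only [hk, if_false, add_zero]
    unfold mc
    rw [if_neg hk, norm_mul, ksm_ph, mul_one, Complex.norm_real, Real.norm_eq_abs]
    have hk1 : (1 : ℝ) ≤ |(k : ℝ)| := by
      have := Int.one_le_abs hk
      have h3 : ((|k| : ℤ) : ℝ) = |(k : ℝ)| := by push_cast; rfl
      rw [← h3]
      exact_mod_cast this
    have hk0 : (0 : ℝ) < |(k : ℝ)| := by linarith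
    unfold mu
    rw [abs_mul, abs_pow, abs_of_nonneg (Real.rpow_nonneg (by positivity) r), Real.mul_rpow hk0.le hs.le]
    have h4 : |Real.sinc (κ * (|(k : ℝ)| * s))| ^ q ≤ ((κ * s)⁻¹) ^ q * |(k : ℝ)| ^ (-(q : ℝ)) := by
      calc |Real.sinc (κ * (|(k : ℝ)| * s))| ^ q ≤ ((κ * (|(k : ℝ)| * s))⁻¹) ^ q :=
            pow_le_pow_left₀ (abs_nonneg _) (ksm_sinc _ (by positivity)) q
        _ = ((κ * s)⁻¹ * |(k : ℝ)|⁻¹) ^ q := by
            congr 1
            rw [← mul_inv]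
            congr 1
            ring
        _ = ((κ * s)⁻¹) ^ q * |(k : ℝ)| ^ (-(q : ℝ)) := by
            rw [mul_pow, Real.rpow_neg hk0.le, Real.rpow_natCast, inv_pow |(k : ℝ)|]
    have h5 : |(k : ℝ)| ^ r * |(k : ℝ)| ^ (-(q : ℝ)) ≤ |(k : ℝ)| ^ (-2 : ℝ) := by
      rw [← Real.rpow_add hk0]
      exact Real.rpow_le_rpow_of_exponent_le hk1 (by linarith)
    calc |(k : ℝ)| ^ r * s ^ r * |Real.sinc (κ * (|(k : ℝ)| * s))| ^ q
        ≤ |(k : ℝ)| ^ r * s ^ r * (((κ * s)⁻¹) ^ q * |(k : ℝ)| ^ (-(q : ℝ))) := by gcongr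
      _ = s ^ r * ((κ * s)⁻¹) ^ q * (|(k : ℝ)| ^ r * |(k : ℝ)| ^ (-(q : ℝ))) := by ring
      _ ≤ s ^ r * ((κ * s)⁻¹) ^ q * |(k : ℝ)| ^ (-2 : ℝ) := by gcongr

/-- a continuous function vanishing for `‖x‖ > ρ` vanishes for `‖x‖ = ρ < π` -/
theorem ksm_ext (N : G → ℝ) (hN : Continuous N) (ρ : ℝ) (hρ0 : 0 < ρ) (hρ : ρ ≤ 1)
    (h0 : ∀ x, ρ < ‖x‖ → N x = 0) (x : G) (hx : ρ ≤ ‖x‖) : N x = 0 := by
  rcases lt_or_eq_of_le hx with h | h
  · exact h0 x h
  · obtain ⟨t, ht, htx⟩ : ∃ t : ℝ, ((t : ℝ) : G) = x ∧ |t| = ‖x‖ := by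
      induction x using QuotientAddGroup.induction_on with
      | H y =>
        refine ⟨y - round ((2 * Real.pi)⁻¹ * y) * (2 * Real.pi), ?_, ?_⟩
        · rw [AddCircle.coe_sub]
          have : (((round ((2 * Real.pi)⁻¹ * y) : ℝ) * (2 * Real.pi) : ℝ) : G) = 0 := by
            rw [← zsmul_eq_mul, AddCircle.coe_zsmul, AddCircle.coe_period, smul_zero]
          rw [this, sub_zero]
        · exact (AddCircle.norm_eq (2 * Real.pi)).symm
    have hpi := Real.pi_gt_three
    have hclosed : IsClosed {ε : ℝ | N (((1 + ε) * t : ℝ) : G) = 0} := by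
      apply isClosed_eq _ continuous_const
      exact hN.comp ((AddCircle.continuous_mk' (2 * Real.pi)).comp (by fun_prop))
    have hsub : Set.Ioo (0 : ℝ) 1 ⊆ {ε : ℝ | N (((1 + ε) * t : ℝ) : G) = 0} := by
      intro ε hε
      simp only [Set.mem_ofPred_eq]
      apply h0
      have h1 : |(1 + ε) * t| = (1 + ε) * ρ := by
        rw [abs_mul, htx, ← h, abs_of_pos (by linarith [hε.1])]
      have h2 : ‖(((1 + ε) * t : ℝ) : G)‖ = |(1 + ε) * t| := by
        rw [AddCircle.norm_coe_eq_abs_iff (2 * Real.pi) (by positivity), h1, abs_of_pos (by positivity)]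
        have := hε.2
        nlinarith
      rw [h2, h1]
      nlinarith [hε.1]
    have hmem : (0 : ℝ) ∈ closure (Set.Ioo (0 : ℝ) 1) := by
      rw [closure_Ioo (by norm_num)]
      exact ⟨le_rfl, by norm_num⟩
    have := (hclosed.closure_subset_iff.2 hsub) hmem
    simp only [Set.mem_ofPred_eq, add_zero, one_mul] at this
    rw [ht] at this
    exact this

theorem t_KSM : S_KSM := by
  intro r α κ q hr hκ hqκ hrq s h0 h1
  have hq11 : (11 : ℝ) < q := by linarith
  have hq2 : 2 ≤ q := by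
    have : (11 : ℕ) < q := by exact_mod_cast hq11
    omega
  have hs := ksm_sum r α κ q hr hκ hrq s h0
  refine ⟨?_, ?_⟩
  · have h := (t_PAR _ hs).2.1 0
    rw [fourierCoeff] at h
    simp only [neg_zero, fourier_zero, one_smul] at h
    have e : ∫ x : G, ((fs (cs (s ^ r) (sM r α κ q) s) x : ℝ) : ℂ) ∂hm = ((s ^ r : ℝ) : ℂ) := by
      simp_rw [ksm_fs]
      rw [h]
      unfold mc
      rw [if_pos rfl]
    rw [integral_complex_ofReal] at e
    exact_mod_cast e
  · intro x hx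
    obtain ⟨hF1, hF2, hF3⟩ := t_FCF r α hr
    have hc := t_CON t_PAR _ _ (fs (cs (s ^ r) (sM r α κ q) s)) (FG r α) hs hF2
      (fun x => ksm_fs r α κ q s x) hF3 x
    have hqh : (q : ℝ) * (κ * s) ≤ s := by
      calc (q : ℝ) * (κ * s) = (q * κ) * s := by ring
        _ ≤ 1 * s := by gcongr
        _ = s := one_mul s
    obtain ⟨N, hN1, hN2, hN3⟩ := t_SPL q (κ * s) hq2 (by positivity) (by linarith)
    have hδr : (0 : ℝ) < s ^ r := Real.rpow_pos_of_pos h0 r
    have hsum : Summable (fun k : ℤ => ‖mc r α κ q s k * fc r α k‖) := by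
      refine Summable.of_nonneg_of_le (fun _ => norm_nonneg _) (fun k => ?_)
        (hs.mul_right (∑' k, ‖fc r α k‖))
      rw [norm_mul]
      exact mul_le_mul_of_nonneg_left (hF2.le_tsum k (fun _ _ => norm_nonneg _)) (norm_nonneg _)
    have hsum2 : Summable (fun k : ℤ => ((Real.sinc (k * (κ * s)) ^ q : ℝ) : ℂ)) := by
      have h := hsum.of_norm.mul_left (((s ^ r : ℝ) : ℂ))⁻¹
      refine h.congr fun k => ?_
      rw [ksm_mul r α κ q s h0 k, ← mul_assoc, inv_mul_cancel₀ (by exact_mod_cast hδr.ne'), one_mul]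
    let NC : C(G, ℂ) := ⟨fun x => (N x : ℂ), Complex.continuous_ofReal.comp hN1⟩
    have hNC : ∀ k : ℤ, fourierCoeff NC k = ((Real.sinc (k * (κ * s)) ^ q : ℝ) : ℂ) := hN2
    have hser : HasSum (fun i : ℤ => fourierCoeff NC i • fourier i x) (NC x) :=
      has_pointwise_sum_fourier_series_of_summable (by
        have : (fourierCoeff NC : ℤ → ℂ) = fun k : ℤ => ((Real.sinc (k * (κ * s)) ^ q : ℝ) : ℂ) :=
          funext hNC
        rw [this]; exact hsum2) x
    have hval : ∑' k : ℤ, mc r α κ q s k * fc r α k * fourier k x = ((s ^ r : ℝ) : ℂ) * (N x : ℂ) := by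
      have h2 := hser.mul_left (((s ^ r : ℝ) : ℂ))
      have e : (fun k : ℤ => mc r α κ q s k * fc r α k * fourier k x) =
          fun i : ℤ => ((s ^ r : ℝ) : ℂ) * (fourierCoeff NC i • fourier i x) := by
        funext k
        rw [ksm_mul r α κ q s h0 k, hNC, smul_eq_mul, mul_assoc]
      rw [e]
      exact h2.tsum_eq
    have hN0 : N x = 0 := by
      refine ksm_ext N hN1 s h0 h1 (fun y hy => hN3 y (by linarith)) x hx
    rw [hval, hN0] at hc
    simp only [Complex.ofReal_zero, mul_zero] at hc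
    unfold Fc
    exact_mod_cast hc

end

end Pool.Agent.H729R2.FO
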