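import Mathlib
import Pool.Agent.H729R2.FO.Stubs
import Pool.Agent.H729R2.CB.T_SPL
import Pool.Agent.H729R2.CB.T_PAR
import Pool.Agent.H729R2.CB.T_FCF
import Pool.Agent.H729R2.CB.T_CON

set_option autoImplicit false

namespace Pool.Agent.H729R2.FO

open MeasureTheory Pool.Agent.H729R2.CB Pool.Agent.Helper150.Cub

open scoped Classical

noncomputable section

theorem ksu_sin (y : ℝ) : y * Real.sinc y = Real.sin y := by
  by_cases h : y = 0
  · simp [h]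
  · rw [Real.sinc_of_ne_zero h]; field_simp

theorem ksu_pow (y : ℝ) (hy : y ≠ 0) (m : ℕ) (p : ℝ) (hp0 : 0 ≤ p) (hpm : p ≤ m) :
    |Real.sinc y| ^ m ≤ |y| ^ (-p) := by
  have hy0 : 0 < |y| := abs_pos.2 hy
  rcases le_total |y| 1 with h | h
  · have h1 : |Real.sinc y| ^ m ≤ 1 := pow_le_one₀ (abs_nonneg _) (Real.abs_sinc_le_one y)
    have h2 : 1 ≤ |y| ^ (-p) :=
      Real.one_le_rpow_of_pos_of_le_one_of_nonpos hy0 h (by linarith)
    linarith
  · have h1 : |Real.sinc y| ≤ |y|⁻¹ := by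
      rw [Real.sinc_of_ne_zero hy, abs_div, div_eq_mul_inv]
      have h3 := Real.abs_sin_le_one y
      have h2 : 0 ≤ |y|⁻¹ := by positivity
      nlinarith
    calc |Real.sinc y| ^ m ≤ (|y|⁻¹) ^ m := pow_le_pow_left₀ (abs_nonneg _) h1 m
      _ = |y| ^ (-(m : ℝ)) := by
        rw [Real.rpow_neg hy0.le, Real.rpow_natCast, inv_pow]
      _ ≤ |y| ^ (-p) := Real.rpow_le_rpow_of_exponent_le h (by linarith)

theorem ksu_summ (h : ℝ) (hh : 0 < h) (m : ℕ) (hm : 2 ≤ m) :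
    Summable (fun k : ℤ => ((Real.sinc (k * h) ^ m : ℝ) : ℂ)) := by
  have h0 : Summable (fun k : ℤ => |(k : ℝ)| ^ (-(2 : ℝ)) * h ^ (-(2 : ℝ))) :=
    (Real.summable_abs_int_rpow (by norm_num)).mul_right _
  refine Summable.of_norm_bounded_eventually h0 ?_
  have : ∀ᶠ k : ℤ in Filter.cofinite, k ≠ 0 := by
    rw [Filter.eventually_cofinite]
    simp
  filter_upwards [this] with k hk
  have hk' : (k : ℝ) ≠ 0 := by exact_mod_cast hk
  rw [Complex.norm_real, Real.norm_eq_abs, abs_pow]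
  refine (ksu_pow (k * h) (mul_ne_zero hk' hh.ne') m 2 (by norm_num) (by exact_mod_cast hm)).trans ?_
  rw [abs_mul, abs_of_pos hh, Real.mul_rpow (abs_nonneg _) hh.le]

theorem ksu_fadd (k : ℤ) (x y : G) : (fourier k (x + y) : ℂ) = fourier k x * fourier k y := by
  rw [fourier_apply, smul_add, AddCircle.toCircle_add, Circle.coe_mul]
  rfl

theorem ksu_fcoe (k : ℤ) (h : ℝ) :
    (fourier k ((h : ℝ) : G) : ℂ) = Complex.exp (((k * h : ℝ) : ℂ) * Complex.I) := by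
  rw [fourier_coe_apply]
  congr 1
  push_cast
  have : (Real.pi : ℂ) ≠ 0 := by exact_mod_cast Real.pi_ne_zero
  field_simp

theorem ksu_hasSum (m : ℕ) (h : ℝ) (hm : 2 ≤ m) (hh : 0 < h) (hmh : m * h ≤ 1) (x : G)
    (hx : m * h < ‖x‖) :
    HasSum (fun k : ℤ => ((Real.sinc (k * h) ^ m : ℝ) : ℂ) * fourier k x) 0 := by
  obtain ⟨N, hN1, hN2, hN3⟩ := t_SPL m h hm hh hmh
  let NC : C(G, ℂ) := ⟨fun x => (N x : ℂ), Complex.continuous_ofReal.comp hN1⟩
  have hNC : ∀ k : ℤ, fourierCoeff NC k = ((Real.sinc (k * h) ^ m : ℝ) : ℂ) := hN2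
  have hser : HasSum (fun i : ℤ => fourierCoeff NC i • fourier i x) (NC x) :=
    has_pointwise_sum_fourier_series_of_summable (by
      have : (fourierCoeff NC : ℤ → ℂ) = fun k : ℤ => ((Real.sinc (k * h) ^ m : ℝ) : ℂ) :=
        funext hNC
      rw [this]; exact ksu_summ h hh m hm) x
  have h0 : NC x = 0 := by
    show ((N x : ℝ) : ℂ) = 0
    rw [hN3 x hx, Complex.ofReal_zero]
  rw [h0] at hser
  simpa only [hNC, smul_eq_mul] using hser

theorem ksu_nrm (x : G) (h : ℝ) : ‖x‖ - |h| ≤ ‖x + ((h : ℝ) : G)‖ := by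
  have h2 : ‖x‖ ≤ ‖x + (h : G)‖ + ‖(h : G)‖ := by
    have := norm_sub_le (x + (h : G)) (h : G)
    rwa [add_sub_cancel_right] at this
  have h3 : ‖(h : G)‖ ≤ |h| := by
    have := QuotientAddGroup.norm_mk_le_norm (S := AddSubgroup.zmultiples (2 * Real.pi)) (m := h)
    rwa [Real.norm_eq_abs] at this
  linarith

/-- the series at a fixed scale vanishes off the support of the splines -/
theorem ksu_ser (c₁ c₂ h : ℝ) (q : ℕ) (hq : 2 ≤ q) (hh : 0 < h) (hqh : 2 * q * h ≤ 1) (x : G)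
    (hx : 2 * q * h < ‖x‖) :
    ∑' k : ℤ, ((c₁ : ℂ) + Complex.I * ((c₂ * (k * h) : ℝ) : ℂ)) *
      ((Real.sinc (k * h) ^ (2 * q) : ℝ) : ℂ) * fourier k x = 0 := by
  have e1 : ((2 * q : ℕ) : ℝ) = 2 * q := by push_cast; ring
  have e2 : ((2 * q - 1 : ℕ) : ℝ) = 2 * q - 1 := by
    rw [Nat.cast_sub (by omega)]; push_cast; ring
  have s1 := ksu_hasSum (2 * q) h (by omega) hh (by rw [e1]; exact hqh) x (by rw [e1]; exact hx)
  have hqh' : ((2 * q - 1 : ℕ) : ℝ) * h ≤ 1 := by rw [e2]; nlinarith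
  have s2 := ksu_hasSum (2 * q - 1) h (by omega) hh hqh' (x + ((h : ℝ) : G)) (by
    rw [e2]
    have := ksu_nrm x h
    rw [abs_of_pos hh] at this
    linarith)
  have s3 := ksu_hasSum (2 * q - 1) h (by omega) hh hqh' (x + (((-h : ℝ)) : G)) (by
    rw [e2]
    have := ksu_nrm x (-h)
    rw [abs_neg, abs_of_pos hh] at this
    linarith)
  have s4 := (s1.mul_left (c₁ : ℂ)).add (((s2.sub s3)).mul_left ((c₂ : ℂ) / 2))
  simp only [mul_zero, sub_zero, add_zero] at s4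
  have e : (fun k : ℤ => ((c₁ : ℂ) + Complex.I * ((c₂ * (k * h) : ℝ) : ℂ)) *
      ((Real.sinc (k * h) ^ (2 * q) : ℝ) : ℂ) * fourier k x) =
      fun k : ℤ => (c₁ : ℂ) * (((Real.sinc (k * h) ^ (2 * q) : ℝ) : ℂ) * fourier k x) +
      (c₂ : ℂ) / 2 * (((Real.sinc (k * h) ^ (2 * q - 1) : ℝ) : ℂ) * fourier k (x + ((h : ℝ) : G)) -
        ((Real.sinc (k * h) ^ (2 * q - 1) : ℝ) : ℂ) * fourier k (x + (((-h : ℝ)) : G))) := by
    funext k
    rw [ksu_fadd, ksu_fadd, ksu_fcoe, ksu_fcoe, Complex.exp_mul_I, Complex.exp_mul_I]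
    have hc : Complex.cos ((k * -h : ℝ) : ℂ) = Complex.cos ((k * h : ℝ) : ℂ) := by
      rw [mul_neg, Complex.ofReal_neg, Complex.cos_neg]
    have hs : Complex.sin ((k * -h : ℝ) : ℂ) = - Complex.sin ((k * h : ℝ) : ℂ) := by
      rw [mul_neg, Complex.ofReal_neg, Complex.sin_neg]
    rw [hc, hs]
    have hsin : Complex.sin ((k * h : ℝ) : ℂ) = ((k * h : ℝ) : ℂ) * ((Real.sinc (k * h) : ℝ) : ℂ) := by
      rw [← Complex.ofReal_sin, ← ksu_sin]; push_cast; ring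
    rw [hsin]
    have hp : Real.sinc (k * h) ^ (2 * q) = Real.sinc (k * h) * Real.sinc (k * h) ^ (2 * q - 1) := by
      rw [← pow_succ']
      congr 1
      omega
    rw [hp]
    push_cast
    ring
  rw [e]
  exact s4.tsum_eq

/-- the integrand -/
def ksu_A (c₁ c₂ κ : ℝ) (q : ℕ) (s : ℝ) (k : ℤ) : ℂ :=
  ((c₁ : ℂ) + Complex.I * ((c₂ * (k * (κ * s)) : ℝ) : ℂ)) * ((Real.sinc (k * (κ * s)) ^ (2 * q) : ℝ) : ℂ)

theorem ksu_pos (r α κ c₁ c₂ : ℝ) (q : ℕ)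
    (hint : ∫ v in Set.Ioi (0:ℝ), dK r α κ c₁ c₂ q v = 1) (t : ℝ) (ht : 0 < t) (K : ℝ) (hK : 0 < K) :
    (((K ^ (-r) : ℝ) : ℂ) * Complex.exp (((-(α * Real.pi / 2) : ℝ) : ℂ) * Complex.I)) *
      (1 - sK r α κ c₁ c₂ q (t * K)) =
    ∫ s in (0:ℝ)..t, ((s ^ (r - 1) : ℝ) : ℂ) *
      (((c₁ : ℂ) + Complex.I * ((c₂ * (K * (κ * s)) : ℝ) : ℂ)) *
        ((Real.sinc (K * (κ * s)) ^ (2 * q) : ℝ) : ℂ)) := by
  have hI : IntegrableOn (dK r α κ c₁ c₂ q) (Set.Ioi 0) :=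
    Integrable.of_integral_ne_zero (by rw [hint]; exact one_ne_zero)
  have h1 : 1 - sK r α κ c₁ c₂ q (t * K) = ∫ v in (0:ℝ)..(t * K), dK r α κ c₁ c₂ q v := by
    rw [← intervalIntegral.integral_Ioi_sub_Ioi hI (by positivity), hint]
    rfl
  have h2 : ∫ v in (0:ℝ)..(t * K), dK r α κ c₁ c₂ q v =
      (K : ℂ) * ∫ s in (0:ℝ)..t, dK r α κ c₁ c₂ q (s * K) := by
    have := intervalIntegral.integral_comp_mul_right (a := 0) (b := t) (dK r α κ c₁ c₂ q) hK.ne'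
    rw [zero_mul] at this
    rw [this, Complex.real_smul, ← mul_assoc, Complex.ofReal_inv, mul_inv_cancel₀, one_mul]
    exact_mod_cast hK.ne'
  rw [h1, h2, ← mul_assoc, ← intervalIntegral.integral_const_mul]
  refine intervalIntegral.integral_congr fun s hs => ?_
  rw [Set.uIcc_of_le ht.le] at hs
  simp only [dK]
  rw [Real.mul_rpow hs.1 hK.le]
  have e0 : κ * (s * K) = K * (κ * s) := by ring
  rw [e0]
  have e1 : Complex.exp (((-(α * Real.pi / 2) : ℝ) : ℂ) * Complex.I) *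
      Complex.exp (((α * Real.pi / 2 : ℝ) : ℂ) * Complex.I) = 1 := by
    rw [← Complex.exp_add, ← Complex.exp_zero]
    congr 1
    push_cast
    ring
  have e2 : K ^ (-r) * K * K ^ (r - 1) = 1 := by
    rw [← Real.rpow_add_one hK.ne', ← Real.rpow_add hK]
    rw [show -r + 1 + (r - 1) = 0 by ring, Real.rpow_zero]
  have e2' : ((K ^ (-r) : ℝ) : ℂ) * (K : ℂ) * ((K ^ (r - 1) : ℝ) : ℂ) = 1 := by
    exact_mod_cast e2
  calc (((K ^ (-r) : ℝ) : ℂ) * Complex.exp (((-(α * Real.pi / 2) : ℝ) : ℂ) * Complex.I)) * (K : ℂ) *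
        (Complex.exp (((α * Real.pi / 2 : ℝ) : ℂ) * Complex.I) *
          ((c₁ : ℂ) + Complex.I * ((c₂ * (K * (κ * s)) : ℝ) : ℂ)) *
          ((s ^ (r - 1) * K ^ (r - 1) * (Real.sinc (K * (κ * s))) ^ (2 * q) : ℝ) : ℂ))
      = (((K ^ (-r) : ℝ) : ℂ) * (K : ℂ) * ((K ^ (r - 1) : ℝ) : ℂ)) *
        (Complex.exp (((-(α * Real.pi / 2) : ℝ) : ℂ) * Complex.I) *
          Complex.exp (((α * Real.pi / 2 : ℝ) : ℂ) * Complex.I)) *
        (((s ^ (r - 1) : ℝ) : ℂ) * (((c₁ : ℂ) + Complex.I * ((c₂ * (K * (κ * s)) : ℝ) : ℂ)) *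
          ((Real.sinc (K * (κ * s)) ^ (2 * q) : ℝ) : ℂ))) := by
        push_cast
        ring
    _ = _ := by rw [e1, e2', one_mul, one_mul]

theorem ksu_conj_A (c₁ c₂ κ : ℝ) (q : ℕ) (s : ℝ) (k : ℤ) :
    ksu_A c₁ c₂ κ q s (-k) = (starRingEnd ℂ) (ksu_A c₁ c₂ κ q s k) := by
  unfold ksu_A
  rw [map_mul, map_add, map_mul, Complex.conj_ofReal, Complex.conj_ofReal, Complex.conj_ofReal,
    Complex.conj_I]
  have : ((-k : ℤ) : ℝ) * (κ * s) = -((k : ℝ) * (κ * s)) := by push_cast; ring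
  rw [this, Real.sinc_neg]
  push_cast
  ring

theorem ksu_coef (r α κ c₁ c₂ : ℝ) (q : ℕ) (hr : 1 < r)
    (hint : ∫ v in Set.Ioi (0:ℝ), dK r α κ c₁ c₂ q v = 1) (t : ℝ) (ht : 0 < t) (k : ℤ) :
    fc r α k * (1 - cs (1 - c₁ * t ^ r / r) (sK r α κ c₁ c₂ q) t k) =
    ∫ s in (0:ℝ)..t, ((s ^ (r - 1) : ℝ) : ℂ) * ksu_A c₁ c₂ κ q s k := by
  have key : ∀ n : ℤ, 0 < n → fc r α n * (1 - cs (1 - c₁ * t ^ r / r) (sK r α κ c₁ c₂ q) t n) =
      ∫ s in (0:ℝ)..t, ((s ^ (r - 1) : ℝ) : ℂ) * ksu_A c₁ c₂ κ q s n := by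
    intro n hn
    have hn' : (0 : ℝ) < n := by exact_mod_cast hn
    have h := ksu_pos r α κ c₁ c₂ q hint t ht (n : ℝ) hn'
    unfold fc cs ksu_A ph
    rw [if_neg hn.ne', if_neg hn.ne', if_pos hn, abs_of_pos hn', Int.sign_eq_one_of_pos hn]
    rw [← h]
    push_cast
    ring_nf
  rcases lt_trichotomy k 0 with hk | hk | hk
  · have hn : 0 < -k := by omega
    have h := key (-k) hn
    have h2 := congrArg (starRingEnd ℂ) h
    have h3 : (starRingEnd ℂ) (∫ s in (0:ℝ)..t, ((s ^ (r - 1) : ℝ) : ℂ) * ksu_A c₁ c₂ κ q s (-k)) =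
        ∫ s in (0:ℝ)..t, ((s ^ (r - 1) : ℝ) : ℂ) * ksu_A c₁ c₂ κ q s k := by
      rw [intervalIntegral.integral_of_le ht.le, intervalIntegral.integral_of_le ht.le, ← integral_conj]
      congr 1
      funext s
      rw [map_mul, Complex.conj_ofReal, ← ksu_conj_A, neg_neg]
    rw [h3] at h2
    rw [← h2, map_mul, map_sub, map_one]
    have hk' : (k : ℝ) ≠ 0 := by exact_mod_cast hk.ne
    congr 1
    · unfold fc ph
      rw [if_neg hk.ne, if_neg hn.ne', map_mul, Complex.conj_ofReal, ← Complex.exp_conj, map_mul,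
        Complex.conj_ofReal, Complex.conj_I, Int.sign_neg]
      congr 2
      · push_cast
        rw [abs_neg]
      · push_cast
        ring
    · congr 1
      unfold cs
      rw [if_neg hk.ne, if_neg hn.ne', if_neg (by omega), if_pos hn]
      congr 3
      push_cast
      rw [abs_neg]
  · subst hk
    unfold fc cs ksu_A
    simp only [if_true, Int.cast_zero, zero_mul, mul_zero, Real.sinc_zero, one_pow, Complex.ofReal_zero,
      add_zero, Complex.ofReal_one, mul_one, one_mul]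
    have h : ∫ s in (0:ℝ)..t, ((s ^ (r - 1) : ℝ) : ℂ) * (c₁ : ℂ) =
        ((∫ s in (0:ℝ)..t, s ^ (r - 1) * c₁ : ℝ) : ℂ) := by
      rw [← intervalIntegral.integral_ofReal]
      congr 1
      funext s
      push_cast
      ring
    rw [h, intervalIntegral.integral_mul_const, integral_rpow (Or.inl (by linarith))]
    rw [show r - 1 + 1 = r by ring, Real.zero_rpow (by linarith)]
    push_cast
    ring
  · exact key k hk

theorem ksu_bd (c₁ c₂ κ : ℝ) (q : ℕ) (hq : 2 ≤ q) (s : ℝ) (k : ℤ) (p : ℝ) (hp0 : 0 ≤ p) (hp2 : p ≤ 2)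
    (hy : (k : ℝ) * (κ * s) ≠ 0) :
    ‖ksu_A c₁ c₂ κ q s k‖ ≤ (|c₁| + |c₂|) * |(k : ℝ) * (κ * s)| ^ (-p) := by
  unfold ksu_A
  set y : ℝ := (k : ℝ) * (κ * s) with hyd
  rw [norm_mul, Complex.norm_real, Real.norm_eq_abs, abs_pow]
  have h1 : ‖(c₁ : ℂ) + Complex.I * ((c₂ * y : ℝ) : ℂ)‖ ≤ |c₁| + |c₂| * |y| := by
    refine (norm_add_le _ _).trans ?_
    rw [norm_mul, Complex.norm_I, one_mul, Complex.norm_real, Complex.norm_real, Real.norm_eq_abs,
      Real.norm_eq_abs, abs_mul]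
  have hq' : (2 : ℝ) ≤ q := by exact_mod_cast hq
  have h2 : |Real.sinc y| ^ (2 * q) ≤ |y| ^ (-p) :=
    ksu_pow y hy _ p hp0 (by push_cast; linarith)
  have h3 : |y| * |Real.sinc y| ^ (2 * q) ≤ |y| ^ (-p) := by
    have e : |y| * |Real.sinc y| ^ (2 * q) = |Real.sin y| * |Real.sinc y| ^ (2 * q - 1) := by
      have hs : |Real.sin y| = |y| * |Real.sinc y| := by
        rw [← abs_mul, ksu_sin]
      have : |Real.sinc y| ^ (2 * q) = |Real.sinc y| * |Real.sinc y| ^ (2 * q - 1) := by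
        rw [← pow_succ']; congr 1; omega
      rw [hs, this]; ring
    rw [e]
    have h4 := ksu_pow y hy (2 * q - 1) p hp0 (by
      rw [Nat.cast_sub (by omega)]; push_cast; linarith)
    have h5 := Real.abs_sin_le_one y
    have h6 : 0 ≤ |Real.sinc y| ^ (2 * q - 1) := by positivity
    nlinarith
  have h7 : 0 ≤ |Real.sinc y| ^ (2 * q) := by positivity
  calc ‖(c₁ : ℂ) + Complex.I * ((c₂ * y : ℝ) : ℂ)‖ * |Real.sinc y| ^ (2 * q)
      ≤ (|c₁| + |c₂| * |y|) * |Real.sinc y| ^ (2 * q) := by gcongr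
    _ = |c₁| * |Real.sinc y| ^ (2 * q) + |c₂| * (|y| * |Real.sinc y| ^ (2 * q)) := by ring
    _ ≤ |c₁| * |y| ^ (-p) + |c₂| * |y| ^ (-p) := by gcongr
    _ = _ := by ring

theorem ksu_cont (r c₁ c₂ κ : ℝ) (q : ℕ) (hr : 1 < r) (k : ℤ) :
    Continuous (fun s : ℝ => ((s ^ (r - 1) : ℝ) : ℂ) * ksu_A c₁ c₂ κ q s k) := by
  unfold ksu_A
  have h : Continuous (fun s : ℝ => s ^ (r - 1)) := Real.continuous_rpow_const (by linarith)
  have h2 : Continuous (fun s : ℝ => (k : ℝ) * (κ * s)) := by fun_prop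
  have h3 : Continuous (fun s : ℝ => Real.sinc ((k : ℝ) * (κ * s)) ^ (2 * q)) :=
    (Real.continuous_sinc.comp h2).pow _
  fun_prop

/-- exchange of sum and integral -/
theorem ksu_zero (r c₁ c₂ κ : ℝ) (q : ℕ) (hr : 1 < r) (hκ : 0 < κ) (hq : 2 ≤ q) (hqκ : 2 * q * κ ≤ 1)
    (t : ℝ) (ht : 0 < t) (ht1 : t ≤ 1) (x : G) (hx : t ≤ ‖x‖) :
    ∑' k : ℤ, (∫ s in (0:ℝ)..t, ((s ^ (r - 1) : ℝ) : ℂ) * ksu_A c₁ c₂ κ q s k) * fourier k x = 0 := by
  obtain ⟨p, hp1, hp2, hpr⟩ : ∃ p : ℝ, 1 < p ∧ p ≤ 2 ∧ p < r := by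
    refine ⟨min 2 ((1 + r) / 2), ?_, min_le_left _ _, ?_⟩
    · rw [lt_min_iff]; constructor <;> linarith
    · exact (min_le_right _ _).trans_lt (by linarith)
  let F : ℤ → ℝ → ℂ := fun k s => (((s ^ (r - 1) : ℝ) : ℂ) * ksu_A c₁ c₂ κ q s k) * fourier k x
  have hFc : ∀ k, Continuous (F k) := fun k => (ksu_cont r c₁ c₂ κ q hr k).mul continuous_const
  have hFi : ∀ k, Integrable (F k) (volume.restrict (Set.Ioc 0 t)) := fun k =>
    ((hFc k).integrableOn_Icc (a := 0) (b := t)).mono_set Set.Ioc_subset_Icc_self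
  have hfn : ∀ k : ℤ, ‖(fourier k x : ℂ)‖ = 1 := by
    intro k; rw [fourier_apply, Circle.norm_coe]
  have hJ : IntegrableOn (fun s : ℝ => s ^ (r - 1 - p)) (Set.Ioc 0 t) := by
    have := intervalIntegral.intervalIntegrable_rpow' (a := 0) (b := t) (r := r - 1 - p) (by linarith)
    rwa [intervalIntegrable_iff_integrableOn_Ioc_of_le ht.le] at this
  have hsum : Summable (fun k => ∫ s in Set.Ioc 0 t, ‖F k s‖) := by
    have h0 : Summable (fun k : ℤ => |(k : ℝ)| ^ (-p) *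
        ((|c₁| + |c₂|) * κ ^ (-p) * ∫ s in Set.Ioc 0 t, s ^ (r - 1 - p))) :=
      (Real.summable_abs_int_rpow hp1).mul_right _
    refine Summable.of_norm_bounded_eventually h0 ?_
    have : ∀ᶠ k : ℤ in Filter.cofinite, k ≠ 0 := by
      rw [Filter.eventually_cofinite]
      simp
    filter_upwards [this] with k hk
    have hk' : (k : ℝ) ≠ 0 := by exact_mod_cast hk
    rw [Real.norm_of_nonneg (integral_nonneg fun s => norm_nonneg _), ← mul_assoc,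
      ← integral_const_mul]
    refine integral_mono_ae (hFi k).norm (hJ.const_mul _) ?_
    rw [Filter.EventuallyLE, ae_restrict_iff' measurableSet_Ioc]
    refine Filter.Eventually.of_forall fun s hs => ?_
    have hs0 : 0 < s := hs.1
    simp only [F]
    rw [norm_mul, norm_mul, hfn, mul_one, Complex.norm_real, Real.norm_eq_abs,
      abs_of_nonneg (Real.rpow_nonneg hs0.le _)]
    have hb := ksu_bd c₁ c₂ κ q hq s k p (by linarith) hp2 (mul_ne_zero hk' (by positivity))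
    rw [abs_mul, abs_of_pos (mul_pos hκ hs0), Real.mul_rpow (abs_nonneg _) (by positivity),
      Real.mul_rpow hκ.le hs0.le] at hb
    calc s ^ (r - 1) * ‖ksu_A c₁ c₂ κ q s k‖
        ≤ s ^ (r - 1) * ((|c₁| + |c₂|) * (|(k : ℝ)| ^ (-p) * (κ ^ (-p) * s ^ (-p)))) := by gcongr
      _ = |(k : ℝ)| ^ (-p) * ((|c₁| + |c₂|) * κ ^ (-p)) * (s ^ (r - 1) * s ^ (-p)) := by ring
      _ = |(k : ℝ)| ^ (-p) * ((|c₁| + |c₂|) * κ ^ (-p)) * s ^ (r - 1 - p) := by
          rw [← Real.rpow_add hs0]; congr 2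
  have hex := integral_tsum_of_summable_integral_norm hFi hsum
  have e : ∀ k : ℤ, (∫ s in (0:ℝ)..t, ((s ^ (r - 1) : ℝ) : ℂ) * ksu_A c₁ c₂ κ q s k) * fourier k x =
      ∫ s in Set.Ioc 0 t, F k s := by
    intro k
    rw [intervalIntegral.integral_of_le ht.le, ← integral_mul_const]
  simp_rw [e]
  rw [hex]
  have hz : ∀ᵐ s ∂(volume.restrict (Set.Ioc 0 t)), (∑' k, F k s) = 0 := by
    rw [ae_restrict_iff' measurableSet_Ioc]
    have hne : ∀ᵐ s : ℝ ∂volume, s ≠ t := by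
      rw [ae_iff]
      simp
    filter_upwards [hne] with s hst hs
    have hs0 : 0 < s := hs.1
    have hst' : s < t := lt_of_le_of_ne hs.2 hst
    have h1 := ksu_ser c₁ c₂ (κ * s) q hq (by positivity) (by nlinarith) x (by nlinarith)
    simp only [F]
    have h2 : (fun k : ℤ => ((s ^ (r - 1) : ℝ) : ℂ) * ksu_A c₁ c₂ κ q s k * fourier k x) =
        fun k : ℤ => ((s ^ (r - 1) : ℝ) : ℂ) * (((c₁ : ℂ) + Complex.I * ((c₂ * (k * (κ * s)) : ℝ) : ℂ)) *
      ((Real.sinc (k * (κ * s)) ^ (2 * q) : ℝ) : ℂ) * fourier k x) := by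
      funext k
      unfold ksu_A
      ring
    rw [h2, tsum_mul_left, h1, mul_zero]
  rw [integral_congr_ae (g := fun _ => (0 : ℂ)) hz]
  simp

theorem ksu_sym_mono {a B B' σ₀ : ℝ} {σ σ₁ σ₂ σ₃ : ℝ → ℂ} (h : Sym a B σ₀ σ σ₁ σ₂ σ₃)
    (hB : B ≤ B') : Sym a B' σ₀ σ σ₁ σ₂ σ₃ where
  d1 := h.d1
  d2 := h.d2
  d3 := h.d3
  b0 := fun u hu => (h.b0 u hu).trans (by gcongr)
  b1 := fun u hu => (h.b1 u hu).trans (by gcongr)
  b2 := fun u hu => (h.b2 u hu).trans (by gcongr)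
  b3 := fun u hu => (h.b3 u hu).trans (by gcongr)
  lim := fun u hu => (h.lim u hu).trans (by gcongr)

theorem t_KSU (hSYM : S_SYM) (hSKQ : S_SKQ) : S_KSU := by
  intro r α κ c₁ c₂ q hr hκ hqκ hrq hint t ht ht1 x hx
  have hq0 : (11 : ℝ) < q := by linarith
  have hq : 2 ≤ q := by
    have : (2 : ℝ) ≤ q := by linarith
    exact_mod_cast this
  have hκ1 : κ ≤ 1 := by nlinarith
  obtain ⟨B, σ₁, σ₂, σ₃, hB1, hS⟩ := hSKQ r α κ c₁ c₂ q hr hκ hκ1 hrq hint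
  set B' : ℝ := B + |c₁| / r with hB'
  have hc0 : 0 ≤ |c₁| / r := by positivity
  have hmin1 : 1 < min r (3 / 2 : ℝ) := by rw [lt_min_iff]; constructor <;> linarith
  have hmin2 : min r (3 / 2 : ℝ) ≤ 3 / 2 := min_le_right _ _
  obtain ⟨C, -, hC⟩ := hSYM (1 + min r (3 / 2)) B' (by linarith) (by linarith) (by linarith)
  have hcl : |(1 - c₁ * t ^ r / r) - 1| ≤ B' * t ^ (1 + min r (3 / 2) - 1) := by
    have e : (1 - c₁ * t ^ r / r) - 1 = - (c₁ * t ^ r / r) := by ring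
    rw [e, abs_neg, abs_div, abs_mul, abs_of_pos (by linarith : 0 < r),
      abs_of_nonneg (Real.rpow_nonneg ht.le r)]
    have h1 : t ^ r ≤ t ^ (1 + min r (3 / 2) - 1) := by
      refine Real.rpow_le_rpow_of_exponent_ge ht ht1 ?_
      have := min_le_left r (3 / 2 : ℝ)
      linarith
    have h2 : 0 ≤ t ^ (1 + min r (3 / 2) - 1) := Real.rpow_nonneg ht.le _
    calc |c₁| * t ^ r / r = |c₁| / r * t ^ r := by ring
      _ ≤ |c₁| / r * t ^ (1 + min r (3 / 2) - 1) := by gcongr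
      _ ≤ B' * t ^ (1 + min r (3 / 2) - 1) := by
          apply mul_le_mul_of_nonneg_right _ h2
          rw [hB']; linarith
  obtain ⟨hs1, -, hs3⟩ := hC 1 _ σ₁ σ₂ σ₃ (ksu_sym_mono hS (by linarith)) t _ ht ht1 hcl
  obtain ⟨hF1, hF2, hF3⟩ := t_FCF r α hr
  have hcon := t_CON t_PAR _ _ _ _ hs1 hF2 hs3 hF3 x
  have hz := ksu_zero r c₁ c₂ κ q hr hκ hq hqκ t ht ht1 x hx
  simp_rw [← ksu_coef r α κ c₁ c₂ q hr hint t ht] at hz
  have hfn : ∀ k : ℤ, ‖(fourier k x : ℂ)‖ = 1 := by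
    intro k; rw [fourier_apply, Circle.norm_coe]
  have hsF : Summable (fun k : ℤ => fc r α k * fourier k x) := by
    apply Summable.of_norm
    refine hF2.congr fun k => ?_
    rw [norm_mul, hfn, mul_one]
  have hsC : Summable (fun k : ℤ => cs (1 - c₁ * t ^ r / r) (sK r α κ c₁ c₂ q) t k * fc r α k *
      fourier k x) := by
    apply Summable.of_norm
    refine Summable.of_nonneg_of_le (fun _ => norm_nonneg _) (fun k => ?_)
      (hs1.mul_right (∑' k, ‖fc r α k‖))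
    rw [norm_mul, hfn, mul_one, norm_mul]
    exact mul_le_mul_of_nonneg_left (hF2.le_tsum k (fun _ _ => norm_nonneg _)) (norm_nonneg _)
  have e : (fun k : ℤ => fc r α k * (1 - cs (1 - c₁ * t ^ r / r) (sK r α κ c₁ c₂ q) t k) *
      (fourier k x : ℂ)) = fun k : ℤ => fc r α k * fourier k x -
      cs (1 - c₁ * t ^ r / r) (sK r α κ c₁ c₂ q) t k * fc r α k * fourier k x := by
    funext k; ring
  rw [e, hsF.tsum_sub hsC, ← hF3 x, ← hcon, sub_eq_zero] at hz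
  have hz' : FG r α x = ∫ t_1, fs (cs (1 - c₁ * t ^ r / r) (sK r α κ c₁ c₂ q) t) t_1 *
      FG r α (x - t_1) ∂hm := by exact_mod_cast hz
  exact hz'.symm

end

end Pool.Agent.H729R2.FO
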