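import Mathlib
import Pool.Agent.H729R2.FO.Stubs

set_option autoImplicit false

namespace Pool.Agent.H729R2.FO

open MeasureTheory Pool.Agent.H729R2.CB Pool.Agent.Helper150.Cub

open scoped Classical

noncomputable section

theorem lev_cidx_meas (hC : S_CEL) (g : ℕ) : Measurable (cidx g) :=
  measurable_to_countable' (fun i => hC.1 g i)

/-- the correction factor -/
def lev_F (g : ℕ) (v w : G → ℝ) (k : ℕ) : ℝ :=
  (∫ x in Cell g k, v x ∂hm) / ∫ x in Cell g k, w x ∂hm

/-- the corrected weight -/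
def lev_u (g : ℕ) (v w : G → ℝ) (y : G) : ℝ := w y * lev_F g v w (cidx g y)

theorem lev_int_le (hC : S_CEL) {g k : ℕ} (hk : k < 2 ^ g) {v : G → ℝ} (hv : ∀ x, |v x| ≤ 1) :
    |∫ x in Cell g k, v x ∂hm| ≤ (1 / 2) ^ g := by
  have h := norm_setIntegral_le_of_norm_le_const (μ := hm) (s := Cell g k) (f := v) (C := 1)
    (measure_lt_top _ _) (fun x _ => hv x)
  rw [Real.norm_eq_abs, one_mul] at h
  exact h.trans (hC.2.2.1 g k hk).le

theorem lev_bdd_int {f : G → ℝ} (hf : Measurable f) {B : ℝ} (hB : ∀ x, |f x| ≤ B) :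
    Integrable f hm := by
  refine Integrable.of_bound hf.aestronglyMeasurable B (Filter.Eventually.of_forall fun x => ?_)
  exact hB x

theorem lev_fair_int {g : ℕ} {w : G → ℝ} (hw : Fair g w) : Integrable w hm := by
  obtain ⟨B, hB⟩ := hw.bdd
  refine lev_bdd_int hw.meas (B := B) (fun x => ?_)
  rw [abs_of_nonneg (hw.nonneg x)]; exact hB x

theorem lev_F_le (hC : S_CEL) {g : ℕ} {v w : G → ℝ} (hv : ∀ x, |v x| ≤ 1) (hw : Fair g w)
    {k : ℕ} (hk : k < 2 ^ g) : |lev_F g v w k| ≤ 2 := by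
  have h1 := lev_int_le hC hk hv
  have h2 := hw.lo k hk
  have h0 : (0 : ℝ) < (1 / 2) * (1 / 2) ^ g := by positivity
  have h3 : 0 < ∫ x in Cell g k, w x ∂hm := lt_of_lt_of_le h0 h2
  unfold lev_F
  rw [abs_div, abs_of_pos h3, div_le_iff₀ h3]
  linarith

theorem lev_u_le (hC : S_CEL) {g : ℕ} {v w : G → ℝ} (hv : ∀ x, |v x| ≤ 1) (hw : Fair g w)
    (y : G) : |lev_u g v w y| ≤ 2 * w y := by
  unfold lev_u
  rw [abs_mul, abs_of_nonneg (hw.nonneg y)]
  have := lev_F_le hC hv hw (hC.2.1 g y)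
  nlinarith [hw.nonneg y]

theorem lev_u_meas (hC : S_CEL) {g : ℕ} {v w : G → ℝ} (hw : Measurable w) :
    Measurable (lev_u g v w) := by
  unfold lev_u
  exact hw.mul ((measurable_from_nat (f := lev_F g v w)).comp (lev_cidx_meas hC g))

/-- on a cell of generation `g` the factor is constant -/
theorem lev_cell (hC : S_CEL) {g k : ℕ} {v w : G → ℝ} :
    ∫ x in Cell g k, lev_u g v w x ∂hm = lev_F g v w k * ∫ x in Cell g k, w x ∂hm := by
  rw [← integral_const_mul]
  refine setIntegral_congr_fun (hC.1 g k) (fun x hx => ?_)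
  have hx' : cidx g x = k := hx
  simp only [lev_u, hx']
  ring

theorem lev_cell_abs (hC : S_CEL) {g k : ℕ} {v w : G → ℝ} (hw : ∀ x, 0 ≤ w x) :
    ∫ x in Cell g k, |lev_u g v w x| ∂hm = |lev_F g v w k| * ∫ x in Cell g k, w x ∂hm := by
  rw [← integral_const_mul]
  refine setIntegral_congr_fun (hC.1 g k) (fun x hx => ?_)
  have hx' : cidx g x = k := hx
  simp only [lev_u, hx', abs_mul, abs_of_nonneg (hw x)]
  ring

theorem lev_cell_eq (hC : S_CEL) {g k : ℕ} (hk : k < 2 ^ g) {v w : G → ℝ} (hw : Fair g w) :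
    ∫ x in Cell g k, lev_u g v w x ∂hm = ∫ x in Cell g k, v x ∂hm := by
  have h2 := hw.lo k hk
  have h0 : (0 : ℝ) < (1 / 2) * (1 / 2) ^ g := by positivity
  have h3 : 0 < ∫ x in Cell g k, w x ∂hm := lt_of_lt_of_le h0 h2
  rw [lev_cell hC, lev_F, div_mul_cancel₀ _ h3.ne']

theorem lev_cell_abs_eq (hC : S_CEL) {g k : ℕ} (hk : k < 2 ^ g) {v w : G → ℝ} (hw : Fair g w) :
    ∫ x in Cell g k, |lev_u g v w x| ∂hm = |∫ x in Cell g k, v x ∂hm| := by
  have h2 := hw.lo k hk
  have h0 : (0 : ℝ) < (1 / 2) * (1 / 2) ^ g := by positivity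
  have h3 : 0 < ∫ x in Cell g k, w x ∂hm := lt_of_lt_of_le h0 h2
  rw [lev_cell_abs hC hw.nonneg, lev_F, abs_div, abs_of_pos h3, div_mul_cancel₀ _ h3.ne']

/-- mean zero on the coarse cells -/
theorem lev_mean (hC : S_CEL) (hI : S_CIN) {j g : ℕ} (hjg : j ≤ g) {v w : G → ℝ}
    (hvm : Measurable v) (hv : ∀ x, |v x| ≤ 1) (hw : Fair g w)
    (hv0 : ∀ i, i < 2 ^ j → ∫ x in Cell j i, v x ∂hm = 0) (i : ℕ) (hi : i < 2 ^ j) :
    ∫ x in Cell j i, lev_u g v w x ∂hm = 0 := by
  obtain ⟨k, rfl⟩ := Nat.exists_eq_add_of_le hjg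
  have hui : Integrable (lev_u (j + k) v w) hm := by
    obtain ⟨B, hB⟩ := hw.bdd
    refine lev_bdd_int (lev_u_meas hC hw.meas) (B := 2 * B) (fun x => ?_)
    exact (lev_u_le hC hv hw x).trans (by linarith [hB x])
  have hvi : Integrable v hm := lev_bdd_int hvm hv
  rw [(hI _ hui).2 j k i, ← hv0 i hi, (hI _ hvi).2 j k i]
  refine Finset.sum_congr rfl (fun i' hi' => ?_)
  have hi'' := Finset.mem_range.mp hi'
  refine lev_cell_eq hC ?_ hw
  calc i * 2 ^ k + i' < i * 2 ^ k + 2 ^ k := by omega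
    _ = (i + 1) * 2 ^ k := by ring
    _ ≤ 2 ^ j * 2 ^ k := Nat.mul_le_mul_right _ hi
    _ = 2 ^ (j + k) := by rw [pow_add]

/-- the section transforms are measurable -/
theorem lev_hq_meas {E : G × G → ℝ} (hE : Continuous E) {M : ℝ → G → ℝ} {q : ℕ}
    (hM : Continuous (M ((1 / 2) ^ q))) (i : ℕ) : Measurable (hq E M q i) := by
  have hc : Continuous (Function.uncurry (fun (y s : G) =>
      E (s, y) * M ((1 / 2) ^ q) (s - cen q i))) := by
    have h1 : Continuous (fun p : G × G => E (p.2, p.1)) :=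
      hE.comp (continuous_snd.prodMk continuous_fst)
    have h2 : Continuous (fun p : G × G => M ((1 / 2) ^ q) (p.2 - cen q i)) :=
      hM.comp (continuous_snd.sub continuous_const)
    exact h1.mul h2
  have h3 := hc.stronglyMeasurable.integral_prod_right (ν := hm)
  exact h3.measurable

theorem lev_hq_bdd {E : G × G → ℝ} {𝔈 : ℝ} (hE : ∀ x, |E x| ≤ 𝔈) {M : ℝ → G → ℝ} {q : ℕ}
    {a C : ℝ} (ha : 2 < a) (hC1 : 1 ≤ C)
    (hM : Bd a C ((1 / 2) ^ q) (M ((1 / 2) ^ q))) (i : ℕ) :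
    ∀ y, |hq E M q i y| ≤ 𝔈 * (C / (1 / 2) ^ q) := by
  intro y
  unfold hq
  have hs : (0 : ℝ) < (1 / 2) ^ q := by positivity
  have hpt : ∀ s : G, ‖E (s, y) * M ((1 / 2) ^ q) (s - cen q i)‖ ≤ 𝔈 * (C / (1 / 2) ^ q) := by
    intro s
    rw [Real.norm_eq_abs, abs_mul]
    have h1 := hM.bd (s - cen q i)
    have h2 : (1 + ‖s - cen q i‖ / (1 / 2) ^ q) ^ (-a) ≤ 1 := by
      refine Real.rpow_le_one_of_one_le_of_nonpos ?_ (by linarith)
      have : 0 ≤ ‖s - cen q i‖ / (1 / 2) ^ q := by positivity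
      linarith
    have h3 : 0 ≤ C / (1 / 2) ^ q := by positivity
    have h4 : |M ((1 / 2) ^ q) (s - cen q i)| ≤ C / (1 / 2) ^ q :=
      h1.trans (mul_le_of_le_one_right h3 h2)
    exact mul_le_mul (hE _) h4 (abs_nonneg _) ((abs_nonneg _).trans (hE (s, y)))
  have h := norm_integral_le_of_norm_le_const (μ := hm) (C := 𝔈 * (C / (1 / 2) ^ q))
    (Filter.Eventually.of_forall hpt)
  simpa using h

theorem t_LEV (hR : S_RZ) (hN : S_NNF) (hC : S_CEL) (hI : S_CIN) : S_LEV := by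
  intro a C ha hC1
  obtain ⟨C₅, hC5, hRZ⟩ := hR a C ha hC1
  refine ⟨200 * C₅, by linarith, ?_⟩
  intro M hM n q₀ N D d hqN E 𝔈 hE hEb gd S Err hgd hSm hErr
  have hC50 : (0 : ℝ) < C₅ := by linarith
  have hDd : (0 : ℝ) < ((D + d + 1 : ℕ) : ℝ) := by positivity
  set γ : ℝ := 1 / (100 * C₅ * ((D + d + 1 : ℕ) : ℝ)) with hγ
  have hγ0 : 0 < γ := by positivity
  have hγ1 : 100 * C₅ * γ * ((D + d + 1 : ℕ) : ℝ) ≤ 1 := by
    rw [hγ]; apply le_of_eq; field_simp
  -- the kernels
  have hMb : ∀ q : ℕ, Bd a C ((1 / 2) ^ q) (M ((1 / 2) ^ q)) := fun q =>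
    hM _ (by positivity) (pow_le_one₀ (by norm_num) (by norm_num))
  have hmeas : ∀ q i, Measurable (hq E M q i) := fun q i => lev_hq_meas hE (hMb q).cont i
  have hbd : ∀ q i, ∀ y, |hq E M q i y| ≤ 𝔈 * (C / (1 / 2) ^ q) := fun q i =>
    lev_hq_bdd hEb ha hC1 (hMb q) i
  -- the test functions
  have hvex : ∀ q i, ∃ v : G → ℝ, (q₀ ≤ q → q < q₀ + N → i ∈ gd q → Adm (n - q) D (S q i) v ∧
      NN (n - q) D (S q i) (hq E M q i) / 2 ≤ ∫ x, hq E M q i x * v x ∂hm) := by
    intro q i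
    by_cases h : q₀ ≤ q ∧ q < q₀ + N ∧ i ∈ gd q
    · obtain ⟨h1, h2, h3⟩ := h
      obtain ⟨v, hv1, hv2⟩ := (hN (n - q) D (S q i) (hq E M q i) _ (hSm q i h1 h2 h3)
        (hmeas q i) (hbd q i)).2.2.2
      exact ⟨v, fun _ _ _ => ⟨hv1, hv2⟩⟩
    · exact ⟨0, fun h1 h2 h3 => absurd ⟨h1, h2, h3⟩ h⟩
  choose v hv using hvex
  set sel : ℕ → ℕ → (G → ℝ) → G → ℝ := fun q i w =>
    if q₀ ≤ q ∧ q < q₀ + N ∧ i ∈ gd q then lev_u (n - q + d) (v q i) w else 0 with hsel
  obtain ⟨w, hw1, hw2⟩ := hRZ M hM n q₀ N D d γ hqN hγ0.le hγ1 sel (by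
    intro q i w hq1 hq2 hi hw
    by_cases h : i ∈ gd q
    · have hs : sel q i w = lev_u (n - q + d) (v q i) w := by
        simp only [hsel]; rw [if_pos ⟨hq1, hq2, h⟩]
      obtain ⟨hA, -⟩ := hv q i hq1 hq2 h
      rw [hs]
      refine ⟨lev_u_meas hC hw.meas, lev_u_le hC hA.le hw, ?_⟩
      intro i' hi'
      exact lev_mean hC hI (by omega) hA.meas hA.le hw hA.mean i' hi'
    · have hs : sel q i w = 0 := by
        simp only [hsel]; rw [if_neg (fun h' => h h'.2.2)]
      rw [hs]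
      refine ⟨measurable_const, ?_, ?_⟩
      · intro y
        simp only [Pi.zero_apply, abs_zero]
        have := hw.nonneg y
        linarith
      · intro i' _
        simp) E 𝔈 hE hEb
  -- the comparison for one pair
  have hone : ∀ q i, q₀ ≤ q → q < q₀ + N → i ∈ gd q →
      NN (n - q) D (S q i) (hq E M q i) / 2 - Err q i ≤
        ∫ y, hq E M q i y * sel q i (w q i) y ∂hm := by
    intro q i hq1 hq2 hi
    obtain ⟨hA, hA2⟩ := hv q i hq1 hq2 hi
    have hi2 : i < 2 ^ q := Finset.mem_range.mp (hgd q hi)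
    have hF := hw1 q i hq1 hq2 hi2
    have hs : sel q i (w q i) = lev_u (n - q + d) (v q i) (w q i) := by
      simp only [hsel]; rw [if_pos ⟨hq1, hq2, hi⟩]
    rw [hs]
    set g := n - q + d with hg
    set u := lev_u g (v q i) (w q i) with hu
    have hum : Measurable u := lev_u_meas hC hF.meas
    obtain ⟨B, hB⟩ := hF.bdd
    have hub : ∀ x, |u x| ≤ 2 * B := fun x =>
      (lev_u_le hC hA.le hF x).trans (by linarith [hB x])
    have hui : Integrable u hm := lev_bdd_int hum hub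
    have hvi : Integrable (v q i) hm := lev_bdd_int hA.meas hA.le
    have hE1 := hErr q i hq1 hq2 hi (fun x => v q i x - u x) (hA.meas.sub hum)
      ⟨1 + 2 * B, fun x => (abs_sub _ _).trans (by linarith [hA.le x, hub x])⟩ (by
        intro x hx
        by_cases hvx : v q i x = 0
        · have hux : u x ≠ 0 := by
            intro h0; exact hx (by rw [hvx, h0, sub_zero])
          have hFx : lev_F g (v q i) (w q i) (cidx g x) ≠ 0 := by
            intro h0; apply hux; rw [hu, lev_u, h0, mul_zero]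
          have hint : ∫ y in Cell g (cidx g x), v q i y ∂hm ≠ 0 := by
            intro h0; apply hFx; rw [lev_F, h0, zero_div]
          by_contra hcon
          push Not at hcon
          apply hint
          refine setIntegral_eq_zero_of_forall_eq_zero (fun y hy => ?_)
          by_contra hvy
          have hyS : y ∈ S q i := by
            by_contra hn
            exact hvy (hA.supp y hn)
          exact hcon y hyS hy
        · refine ⟨x, ?_, rfl⟩
          by_contra hn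
          exact hvx (hA.supp x hn)) (by
        intro i' hi'
        rw [integral_sub hvi.integrableOn hui.integrableOn, lev_cell_eq hC hi' hF, sub_self]) (by
        intro i' hi'
        have h1 : ∫ x in Cell g i', |v q i x - u x| ∂hm ≤
            ∫ x in Cell g i', (|v q i x| + |u x|) ∂hm := by
          refine integral_mono (hvi.sub hui).abs.integrableOn
            (hvi.abs.add hui.abs).integrableOn (fun x => ?_)
          exact abs_sub _ _
        have h2 : ∫ x in Cell g i', (|v q i x| + |u x|) ∂hm =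
            ∫ x in Cell g i', |v q i x| ∂hm + ∫ x in Cell g i', |u x| ∂hm :=
          integral_add hvi.abs.integrableOn hui.abs.integrableOn
        have h3 : ∫ x in Cell g i', |u x| ∂hm ≤ (1 / 2) ^ g := by
          rw [hu, lev_cell_abs_eq hC hi' hF]
          exact lev_int_le hC hi' hA.le
        have h4 : ∫ x in Cell g i', |v q i x| ∂hm ≤ (1 / 2) ^ g := by
          have := lev_int_le (v := fun x => |v q i x|) hC hi' (fun x => by
            rw [abs_abs]; exact hA.le x)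
          exact (le_abs_self _).trans this
        linarith)
    have hhb := hbd q i
    have hI1 : Integrable (fun x => hq E M q i x * v q i x) hm :=
      lev_bdd_int ((hmeas q i).mul hA.meas) (B := 𝔈 * (C / (1 / 2) ^ q) * 1) (fun x => by
        rw [abs_mul]
        exact mul_le_mul (hhb x) (hA.le x) (abs_nonneg _) ((abs_nonneg _).trans (hhb x)))
    have hI2 : Integrable (fun x => hq E M q i x * u x) hm :=
      lev_bdd_int ((hmeas q i).mul hum) (B := 𝔈 * (C / (1 / 2) ^ q) * (2 * B)) (fun x => by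
        rw [abs_mul]
        exact mul_le_mul (hhb x) (hub x) (abs_nonneg _) ((abs_nonneg _).trans (hhb x)))
    have h5 : ∫ x, hq E M q i x * (v q i x - u x) ∂hm =
        ∫ x, hq E M q i x * v q i x ∂hm - ∫ x, hq E M q i x * u x ∂hm := by
      rw [← integral_sub hI1 hI2]
      refine integral_congr_ae (Filter.Eventually.of_forall fun x => ?_)
      simp only
      ring
    rw [h5] at hE1
    have h6 := (abs_le.mp hE1).2
    linarith
  -- summation
  have hsum : ∑ q ∈ Finset.Ico q₀ (q₀ + N), (1 / 2 : ℝ) ^ q * ∑ i ∈ gd q,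
      (NN (n - q) D (S q i) (hq E M q i) / 2 - Err q i) ≤
      ∑ q ∈ Finset.Ico q₀ (q₀ + N), (1 / 2 : ℝ) ^ q * ∑ i ∈ Finset.range (2 ^ q),
        ∫ y, hq E M q i y * sel q i (w q i) y ∂hm := by
    refine Finset.sum_le_sum (fun q hq => ?_)
    obtain ⟨hq1, hq2⟩ := Finset.mem_Ico.mp hq
    refine mul_le_mul_of_nonneg_left ?_ (by positivity)
    have h1 : ∑ i ∈ gd q, ∫ y, Pool.Agent.H729R2.FO.hq E M q i y * sel q i (w q i) y ∂hm =
        ∑ i ∈ Finset.range (2 ^ q),
          ∫ y, Pool.Agent.H729R2.FO.hq E M q i y * sel q i (w q i) y ∂hm := by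
      refine Finset.sum_subset (hgd q) (fun i _ hi => ?_)
      have hs : sel q i (w q i) = 0 := by
        simp only [hsel]; rw [if_neg (fun h' => hi h'.2.2)]
      rw [hs]
      simp
    rw [← h1]
    exact Finset.sum_le_sum (fun i hi => hone q i hq1 hq2 hi)
  have h7 : ∑ q ∈ Finset.Ico q₀ (q₀ + N), (1 / 2 : ℝ) ^ q * ∑ i ∈ Finset.range (2 ^ q),
      ∫ y, hq E M q i y * sel q i (w q i) y ∂hm ≤ 2 * 𝔈 / γ := by
    rw [le_div_iff₀ hγ0, mul_comm]
    exact hw2
  refine (hsum.trans h7).trans (le_of_eq ?_)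
  rw [hγ]
  field_simp
  ring

end

end Pool.Agent.H729R2.FO
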