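import Mathlib
import Pool.Agent.H729R2.FO.Stubs

set_option autoImplicit false

namespace Pool.Agent.H729R2.FO

open MeasureTheory Pool.Agent.H729R2.CB Pool.Agent.Helper150.Cub

open scoped Classical

theorem nnf_zero (b D : ℕ) (S : Set G) : Adm b D S (fun _ => 0) :=
  ⟨measurable_const, fun x => by simp, fun x _ => rfl, fun i _ => by simp⟩

theorem nnf_le (h v : G → ℝ) (H : ℝ) (hh : ∀ x, |h x| ≤ H) (hv : ∀ x, |v x| ≤ 1) :
    |∫ x, h x * v x ∂hm| ≤ H := by
  have h0 : 0 ≤ H := le_trans (abs_nonneg _) (hh 0)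
  have := norm_integral_le_of_norm_le_const (μ := hm) (f := fun x => h x * v x) (C := H)
    (Filter.Eventually.of_forall (fun x => by
      rw [Real.norm_eq_abs, abs_mul]
      calc |h x| * |v x| ≤ H * 1 := mul_le_mul (hh x) (hv x) (abs_nonneg _) h0
        _ = H := mul_one H))
  simpa using this

theorem nnf_bdd (b D : ℕ) (S : Set G) (h : G → ℝ) (H : ℝ) (hh : ∀ x, |h x| ≤ H) :
    BddAbove {t | ∃ v, Adm b D S v ∧ t = ∫ x, h x * v x ∂hm} := by
  refine ⟨H, ?_⟩
  rintro t ⟨v, hv, rfl⟩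
  exact le_trans (le_abs_self _) (nnf_le h v H hh hv.le)

theorem t_NNF : S_NNF := by
  intro b D S h H _ _ hh
  have hne : ({t | ∃ v, Adm b D S v ∧ t = ∫ x, h x * v x ∂hm} : Set ℝ).Nonempty :=
    ⟨_, _, nnf_zero b D S, rfl⟩
  have hb := nnf_bdd b D S h H hh
  have hN0 : 0 ≤ NN b D S h := by
    refine le_csSup hb ⟨_, nnf_zero b D S, ?_⟩
    simp
  have hNN : ∀ v, Adm b D S v → ∫ x, h x * v x ∂hm ≤ NN b D S h :=
    fun v hv => le_csSup hb ⟨v, hv, rfl⟩
  refine ⟨hN0, ?_, ?_, ?_⟩
  · refine csSup_le hne ?_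
    rintro t ⟨v, hv, rfl⟩
    exact le_trans (le_abs_self _) (nnf_le h v H hh hv.le)
  · intro v A hA hvm hvA hvS hvi
    rcases hA.eq_or_lt with hA0 | hA0
    · have : ∀ x, v x = 0 := fun x => by
        have := hvA x
        rw [← hA0] at this
        exact abs_eq_zero.mp (le_antisymm this (abs_nonneg _))
      simp [this, ← hA0]
    · have key : ∀ s : ℝ, |s| = 1 → Adm b D S (fun x => s * A⁻¹ * v x) := by
        intro s hs
        refine ⟨hvm.const_mul _, fun x => ?_, fun x hx => ?_, fun i hi => ?_⟩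
        · rw [abs_mul, abs_mul, hs, one_mul, abs_of_pos (inv_pos.mpr hA0), inv_mul_le_iff₀ hA0,
            mul_one]
          exact hvA x
        · rw [hvS x hx, mul_zero]
        · rw [integral_const_mul, hvi i hi, mul_zero]
      have k2 : ∀ s : ℝ, |s| = 1 → s * ∫ x, h x * v x ∂hm ≤ A * NN b D S h := by
        intro s hs
        have h1 := hNN _ (key s hs)
        have h2 : ∫ x, h x * (s * A⁻¹ * v x) ∂hm = s * A⁻¹ * ∫ x, h x * v x ∂hm := by
          rw [← integral_const_mul]
          exact integral_congr_ae (Filter.Eventually.of_forall (fun x => by ring))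
        rw [h2] at h1
        have h3 : s * ∫ x, h x * v x ∂hm = A * (s * A⁻¹ * ∫ x, h x * v x ∂hm) := by
          field_simp
        rw [h3]
        exact mul_le_mul_of_nonneg_left h1 hA
      rw [abs_le']
      constructor
      · simpa using k2 1 (by simp)
      · simpa using k2 (-1) (by simp)
  · rcases hN0.eq_or_lt with h0 | h0
    · refine ⟨_, nnf_zero b D S, ?_⟩
      rw [← h0]
      simp
    · obtain ⟨t, ⟨v, hv, rfl⟩, ht⟩ := exists_lt_of_lt_csSup hne
        (show NN b D S h / 2 < sSup {t | ∃ v, Adm b D S v ∧ t = ∫ x, h x * v x ∂hm} from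
          half_lt_self h0)
      exact ⟨v, hv, ht.le⟩

end Pool.Agent.H729R2.FO
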