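import Mathlib
import Pool.Agent.H729R2.FO.Stubs

set_option autoImplicit false

namespace Pool.Agent.H729R2.FO

open MeasureTheory Pool.Agent.H729R2.CB Pool.Agent.Helper150.Cub

open scoped Classical

noncomputable section

lemma num_summable (x : ℝ) (hx0 : 0 < x) (hx1 : x < 1) :
    Summable (fun k : ℕ => ((k : ℝ) + 2) ^ 7 * x ^ k) := by
  have h1 : Summable (fun n : ℕ => (n : ℝ) ^ 7 * x ^ n) :=
    summable_pow_mul_geometric_of_norm_lt_one 7 (by rw [Real.norm_eq_abs, abs_of_pos hx0]; exact hx1)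
  have h2 := ((summable_nat_add_iff 2).2 h1).mul_right ((x ^ 2)⁻¹)
  refine h2.congr fun k => ?_
  have hx2 : x ^ 2 ≠ 0 := by positivity
  rw [pow_add]
  push_cast
  field_simp

lemma num_sum (θ : ℝ) (h0 : 1 / 4 < θ) (h1 : θ < 1 / 2) (l L : ℕ) :
    ∑ l' ∈ Finset.Icc l L, WW θ l l' * (((l' : ℝ) + 1) * 2 ^ l') ≤
      2 ^ l * ((l : ℝ) + 1) ^ 7 * ∑' k : ℕ, ((k : ℝ) + 2) ^ 7 * (2 * θ) ^ k := by
  have hs := num_summable (2 * θ) (by linarith) (by linarith)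
  have hI : Finset.Icc l L = Finset.Ico l (L + 1) := by
    ext a; simp only [Finset.mem_Icc, Finset.mem_Ico]; omega
  rw [hI, Finset.sum_Ico_eq_sum_range]
  have h3 : ∑ k ∈ Finset.range (L + 1 - l), ((k : ℝ) + 2) ^ 7 * (2 * θ) ^ k ≤
      ∑' k : ℕ, ((k : ℝ) + 2) ^ 7 * (2 * θ) ^ k :=
    hs.sum_le_tsum _ fun k _ => by
      have : 0 < θ := by linarith
      positivity
  refine le_trans ?_ (mul_le_mul_of_nonneg_left h3 (by positivity))
  rw [Finset.mul_sum]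
  apply Finset.sum_le_sum
  intro k _
  unfold WW
  have hθ : 0 < θ := by linarith
  rw [Nat.add_sub_cancel_left]
  have a1 : (((l + k : ℕ) : ℝ) + 2) ≤ ((l : ℝ) + 1) * ((k : ℝ) + 2) := by
    push_cast
    nlinarith [mul_nonneg (Nat.cast_nonneg (α := ℝ) l) (Nat.cast_nonneg (α := ℝ) k),
      (Nat.cast_nonneg (α := ℝ) l)]
  have a2 : (((l + k : ℕ) : ℝ) + 1) ≤ ((l : ℝ) + 1) * ((k : ℝ) + 2) := by linarith
  have a3 : (((l + k : ℕ) : ℝ) + 2) ^ 6 ≤ (((l : ℝ) + 1) * ((k : ℝ) + 2)) ^ 6 :=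
    pow_le_pow_left₀ (by positivity) a1 6
  have a4 : (((l + k : ℕ) : ℝ) + 2) ^ 6 * (((l + k : ℕ) : ℝ) + 1) ≤
      (((l : ℝ) + 1) * ((k : ℝ) + 2)) ^ 6 * (((l : ℝ) + 1) * ((k : ℝ) + 2)) :=
    mul_le_mul a3 a2 (by positivity) (by positivity)
  calc (((l + k : ℕ) : ℝ) + 2) ^ 6 * θ ^ k * ((((l + k : ℕ) : ℝ) + 1) * 2 ^ (l + k))
      = ((((l + k : ℕ) : ℝ) + 2) ^ 6 * (((l + k : ℕ) : ℝ) + 1)) * (2 ^ l * (2 * θ) ^ k) := by
        rw [pow_add, mul_pow]; ring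
    _ ≤ ((((l : ℝ) + 1) * ((k : ℝ) + 2)) ^ 6 * (((l : ℝ) + 1) * ((k : ℝ) + 2))) *
        (2 ^ l * (2 * θ) ^ k) := mul_le_mul_of_nonneg_right a4 (by positivity)
    _ = 2 ^ l * ((l : ℝ) + 1) ^ 7 * (((k : ℝ) + 2) ^ 7 * (2 * θ) ^ k) := by ring

theorem t_NUM : S_NUM := by
  intro θ C₄ c₄ C₆ hθ0 hθ1 hC4 hc4 hC6
  have hθ : 0 < θ := by linarith
  set S7 : ℝ := ∑' k : ℕ, ((k : ℝ) + 2) ^ 7 * (2 * θ) ^ k with hS7
  have hS70 : 0 ≤ S7 := tsum_nonneg fun k => by positivity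
  -- choice of `e₀`
  obtain ⟨e1, he1⟩ : ∃ e : ℕ, (1 / 2 : ℝ) ^ e < min (1 / (4 * C₄ * (S7 + 1))) (c₄ / (8 * C₄ ^ 2 * (S7 + 1))) :=
    exists_pow_lt_of_lt_one (by positivity) (by norm_num)
  set e₀ : ℕ := e1 + 4 with he0
  have hpow : (1 / 2 : ℝ) ^ e₀ ≤ (1 / 2) ^ e1 :=
    pow_le_pow_of_le_one (by norm_num) (by norm_num) (by omega)
  have hε0 : (0 : ℝ) < (1 / 2) ^ e₀ := by positivity
  have hε1 : (1 / 2 : ℝ) ^ e₀ ≤ 1 := pow_le_one₀ (by norm_num) (by norm_num)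
  obtain ⟨ε, hε⟩ : ∃ ε : ℝ, ε = (1 / 2) ^ e₀ := ⟨_, rfl⟩
  rw [← hε] at hε0 hε1 hpow
  have hA : 2 * C₄ * ε * S7 ≤ 1 / 2 := by
    have h1 : ε ≤ 1 / (4 * C₄ * (S7 + 1)) := (hpow.trans he1.le).trans (min_le_left _ _)
    rw [le_div_iff₀ (by positivity)] at h1
    have h2 : 0 ≤ ε * C₄ := by positivity
    nlinarith
  have hB : 4 * C₄ ^ 2 * S7 * ε ≤ c₄ / 2 := by
    have h1 : ε ≤ c₄ / (8 * C₄ ^ 2 * (S7 + 1)) := (hpow.trans he1.le).trans (min_le_right _ _)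
    rw [le_div_iff₀ (by positivity)] at h1
    have h2 : 0 ≤ ε * C₄ ^ 2 := by positivity
    nlinarith
  refine ⟨e₀, by omega, ?_⟩
  intro C₅ hC5
  obtain ⟨K1, hK1⟩ : ∃ K1 : ℝ, K1 = 4 * C₆ * (C₅ + e₀ + 11) + 4 * C₄ * C₆ := ⟨_, rfl⟩
  have hK10 : 0 < K1 := by rw [hK1]; positivity
  refine ⟨2 / c₄ * (C₄ * S7 * K1 + C₄ * C₆), by positivity, ?_⟩
  intro N L P E s hE hP hs hN hmain hl
  -- the maximum
  obtain ⟨l0, hl0, hmax⟩ := Finset.exists_max_image (Finset.range (L + 1))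
    (fun l => s l / (((l : ℝ) + 1) * 2 ^ l)) ⟨0, by simp⟩
  obtain ⟨B, hBdef⟩ : ∃ B : ℝ, B = s l0 / (((l0 : ℝ) + 1) * 2 ^ l0) := ⟨_, rfl⟩
  have hB0 : 0 ≤ B := by rw [hBdef]; exact div_nonneg (hs _) (by positivity)
  have hsB : ∀ l, l ≤ L → s l ≤ B * (((l : ℝ) + 1) * 2 ^ l) := by
    intro l hlL
    have h1 := hmax l (Finset.mem_range.2 (by omega))
    rw [← hBdef, div_le_iff₀ (by positivity)] at h1
    exact h1
  -- bound of the sums
  have hsum : ∀ l, ∑ l' ∈ Finset.Icc l L, WW θ l l' * s l' ≤ B * (2 ^ l * ((l : ℝ) + 1) ^ 7 * S7) := by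
    intro l
    calc ∑ l' ∈ Finset.Icc l L, WW θ l l' * s l'
        ≤ ∑ l' ∈ Finset.Icc l L, WW θ l l' * (B * (((l' : ℝ) + 1) * 2 ^ l')) := by
          apply Finset.sum_le_sum
          intro l' hl'
          apply mul_le_mul_of_nonneg_left (hsB l' (Finset.mem_Icc.1 hl').2)
          unfold WW; positivity
      _ = B * ∑ l' ∈ Finset.Icc l L, WW θ l l' * (((l' : ℝ) + 1) * 2 ^ l') := by
          rw [Finset.mul_sum]; refine Finset.sum_congr rfl fun _ _ => ?_; ring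
      _ ≤ _ := mul_le_mul_of_nonneg_left (num_sum θ hθ0 hθ1 l L) hB0
  -- every level
  have hlev : ∀ l, l ≤ L → s l ≤ (((l : ℝ) + 1) * 2 ^ l) *
      (2 * C₆ * (C₅ + e₀ + 11) * E + 2 * C₄ * ε * (B * S7 + C₆ * E + P)) := by
    intro l hlL
    obtain ⟨γ, hγ⟩ : ∃ γ : ℝ, γ = ((l : ℝ) + 1) * 2 ^ l := ⟨_, rfl⟩
    have hγ1 : 1 ≤ γ := by
      rw [hγ]
      have h2 : (1 : ℝ) ≤ 2 ^ l := one_le_pow₀ (by norm_num)
      have h3 : (0 : ℝ) ≤ l := Nat.cast_nonneg l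
      nlinarith
    have hl' := hl l hlL
    rw [← hγ]
    -- the three pieces
    have e10 : (1 / 2 : ℝ) ^ (e₀ + 10 * l) = ε * (1 / 2) ^ (10 * l) := by rw [pow_add, hε]
    have t1 : (1 / 2 : ℝ) ^ (10 * l) * ∑ l' ∈ Finset.Icc l L, WW θ l l' * s l' ≤ γ * (B * S7) := by
      have h1 := mul_le_mul_of_nonneg_left (hsum l) (show (0 : ℝ) ≤ (1 / 2) ^ (10 * l) by positivity)
      refine h1.trans ?_
      have h2 : ((l : ℝ) + 1) ^ 6 * (1 / 2) ^ (10 * l) ≤ 1 := by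
        have h3 : ((l : ℝ) + 1) ≤ 2 ^ l := by
          have := one_add_mul_le_pow (show (-2 : ℝ) ≤ 1 by norm_num) l
          norm_num at this
          linarith
        have h4 : ((l : ℝ) + 1) ^ 6 ≤ (2 ^ l) ^ 6 := pow_le_pow_left₀ (by positivity) h3 6
        have h5 : ((2 : ℝ) ^ l) ^ 6 * (1 / 2) ^ (10 * l) ≤ 1 := by
          have h6 : (1 / 2 : ℝ) ^ (10 * l) = ((1 / 2) ^ l) ^ 10 := by rw [← pow_mul, mul_comm]
          rw [h6]
          have h7 : (2 : ℝ) ^ l * (1 / 2) ^ l = 1 := by rw [← mul_pow]; norm_num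
          have h8 : ((2 : ℝ) ^ l) ^ 6 * ((1 / 2) ^ l) ^ 10 =
              ((2 : ℝ) ^ l * (1 / 2) ^ l) ^ 6 * ((1 / 2) ^ l) ^ 4 := by ring
          rw [h8, h7, one_pow, one_mul]
          exact pow_le_one₀ (by positivity) (pow_le_one₀ (by norm_num) (by norm_num))
        exact (mul_le_mul_of_nonneg_right h4 (by positivity)).trans h5
      calc (1 / 2 : ℝ) ^ (10 * l) * (B * (2 ^ l * ((l : ℝ) + 1) ^ 7 * S7))
          = (((l : ℝ) + 1) ^ 6 * (1 / 2) ^ (10 * l)) * (γ * (B * S7)) := by rw [hγ]; ring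
        _ ≤ 1 * (γ * (B * S7)) := mul_le_mul_of_nonneg_right h2 (by positivity)
        _ = _ := one_mul _
    have t2 : (1 / 2 : ℝ) ^ (10 * l) * (WW θ l L * (N * C₆ * E)) ≤ C₆ * E := by
      have h1 : (1 / 2 : ℝ) ^ (10 * l) * (WW θ l L * N) ≤ 1 := by
        have h2 : WW θ 0 L = WW θ l L * θ ^ l := by
          unfold WW
          rw [mul_assoc, ← pow_add]
          congr 2
          omega
        rw [h2] at hN
        have h3 : (1 / 2 : ℝ) ^ (10 * l) ≤ θ ^ l := by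
          rw [pow_mul]
          apply pow_le_pow_left₀ (by positivity)
          norm_num
          linarith
        have h4 : 0 ≤ WW θ l L * N := by unfold WW; positivity
        calc (1 / 2 : ℝ) ^ (10 * l) * (WW θ l L * N) ≤ θ ^ l * (WW θ l L * N) :=
              mul_le_mul_of_nonneg_right h3 h4
          _ = (N : ℝ) * (WW θ l L * θ ^ l) := by ring
          _ ≤ 1 := hN
      calc (1 / 2 : ℝ) ^ (10 * l) * (WW θ l L * (N * C₆ * E))
          = ((1 / 2 : ℝ) ^ (10 * l) * (WW θ l L * N)) * (C₆ * E) := by ring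
        _ ≤ 1 * (C₆ * E) := mul_le_mul_of_nonneg_right h1 (by positivity)
        _ = _ := one_mul _
    have t3 : (1 / 2 : ℝ) ^ (10 * l) * P ≤ P := by
      have : (1 / 2 : ℝ) ^ (10 * l) ≤ 1 := pow_le_one₀ (by norm_num) (by norm_num)
      nlinarith
    have t4 : C₆ * (C₅ * ((l : ℝ) + 1) * 2 ^ l + (e₀ + 10 * l : ℕ) + 1) * E ≤
        γ * (C₆ * (C₅ + e₀ + 11) * E) := by
      have h1 : C₅ * ((l : ℝ) + 1) * 2 ^ l + (e₀ + 10 * l : ℕ) + 1 ≤ γ * (C₅ + e₀ + 11) := by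
        have h2 : ((e₀ + 10 * l : ℕ) : ℝ) + 1 ≤ γ * (e₀ + 11) := by
          have h3 : ((e₀ + 10 * l : ℕ) : ℝ) + 1 ≤ ((l : ℝ) + 1) * (e₀ + 11) := by
            push_cast
            nlinarith [mul_nonneg (Nat.cast_nonneg (α := ℝ) l) (Nat.cast_nonneg (α := ℝ) e₀),
              (Nat.cast_nonneg (α := ℝ) l)]
          have h4 : ((l : ℝ) + 1) ≤ γ := by
            rw [hγ]
            have h2 : (1 : ℝ) ≤ 2 ^ l := one_le_pow₀ (by norm_num)
            have h3 : (0 : ℝ) ≤ l := Nat.cast_nonneg l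
            nlinarith
          exact h3.trans (mul_le_mul_of_nonneg_right h4 (by positivity))
        have h5 : C₅ * ((l : ℝ) + 1) * 2 ^ l = γ * C₅ := by rw [hγ]; ring
        rw [h5]
        nlinarith
      have h6 : 0 ≤ C₆ * E := by positivity
      calc C₆ * (C₅ * ((l : ℝ) + 1) * 2 ^ l + (e₀ + 10 * l : ℕ) + 1) * E
          = (C₆ * E) * (C₅ * ((l : ℝ) + 1) * 2 ^ l + (e₀ + 10 * l : ℕ) + 1) := by ring
        _ ≤ (C₆ * E) * (γ * (C₅ + e₀ + 11)) := mul_le_mul_of_nonneg_left h1 h6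
        _ = _ := by ring
    have t5 : C₄ * (1 / 2) ^ (e₀ + 10 * l) *
        (∑ l' ∈ Finset.Icc l L, WW θ l l' * s l' + WW θ l L * (N * C₆ * E) + P) ≤
        γ * (C₄ * ε * (B * S7 + C₆ * E + P)) := by
      rw [e10]
      have h1 : (1 / 2 : ℝ) ^ (10 * l) *
          (∑ l' ∈ Finset.Icc l L, WW θ l l' * s l' + WW θ l L * (N * C₆ * E) + P) ≤
          γ * (B * S7 + C₆ * E + P) := by
        have h2 : C₆ * E ≤ γ * (C₆ * E) := by
          have : 0 ≤ C₆ * E := by positivity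
          nlinarith
        have h3 : P ≤ γ * P := by nlinarith
        calc (1 / 2 : ℝ) ^ (10 * l) *
            (∑ l' ∈ Finset.Icc l L, WW θ l l' * s l' + WW θ l L * (N * C₆ * E) + P)
            = (1 / 2 : ℝ) ^ (10 * l) * (∑ l' ∈ Finset.Icc l L, WW θ l l' * s l') +
              (1 / 2 : ℝ) ^ (10 * l) * (WW θ l L * (N * C₆ * E)) +
              (1 / 2 : ℝ) ^ (10 * l) * P := by ring
          _ ≤ γ * (B * S7) + γ * (C₆ * E) + γ * P :=
              add_le_add (add_le_add t1 (t2.trans h2)) (t3.trans h3)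
          _ = _ := by ring
      have h4 : 0 ≤ C₄ * ε := by positivity
      calc C₄ * (ε * (1 / 2) ^ (10 * l)) *
          (∑ l' ∈ Finset.Icc l L, WW θ l l' * s l' + WW θ l L * (N * C₆ * E) + P)
          = (C₄ * ε) * ((1 / 2 : ℝ) ^ (10 * l) *
            (∑ l' ∈ Finset.Icc l L, WW θ l l' * s l' + WW θ l L * (N * C₆ * E) + P)) := by ring
        _ ≤ (C₄ * ε) * (γ * (B * S7 + C₆ * E + P)) := mul_le_mul_of_nonneg_left h1 h4
        _ = _ := by ring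
    have t6 : s l / 2 ≤ γ * (C₆ * (C₅ + e₀ + 11) * E) + γ * (C₄ * ε * (B * S7 + C₆ * E + P)) := by
      linarith
    calc s l = 2 * (s l / 2) := by ring
      _ ≤ 2 * (γ * (C₆ * (C₅ + e₀ + 11) * E) + γ * (C₄ * ε * (B * S7 + C₆ * E + P))) := by linarith
      _ = _ := by ring
  -- the bound of `B`
  have hBb : B ≤ K1 * E + 4 * C₄ * ε * P := by
    have h1 := hlev l0 (by have := Finset.mem_range.1 hl0; omega)
    have h2 : B ≤ 2 * C₆ * (C₅ + e₀ + 11) * E + 2 * C₄ * ε * (B * S7 + C₆ * E + P) := by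
      rw [hBdef, div_le_iff₀ (by positivity), ← hBdef, mul_comm]
      exact h1
    have h3 : 2 * C₄ * ε * (B * S7) ≤ B / 2 := by
      calc 2 * C₄ * ε * (B * S7) = (2 * C₄ * ε * S7) * B := by ring
        _ ≤ (1 / 2) * B := mul_le_mul_of_nonneg_right hA hB0
        _ = _ := by ring
    have h4 : 2 * C₄ * ε * (C₆ * E) ≤ 2 * C₄ * C₆ * E := by
      calc 2 * C₄ * ε * (C₆ * E) = ε * (2 * C₄ * C₆ * E) := by ring
        _ ≤ 1 * (2 * C₄ * C₆ * E) := mul_le_mul_of_nonneg_right hε1 (by positivity)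
        _ = _ := one_mul _
    have h5 : 2 * C₄ * ε * (B * S7 + C₆ * E + P) =
        2 * C₄ * ε * (B * S7) + 2 * C₄ * ε * (C₆ * E) + 2 * C₄ * ε * P := by ring
    rw [h5] at h2
    have h6 : K1 * E + 4 * C₄ * ε * P = 2 * (2 * C₆ * (C₅ + e₀ + 11) * E) +
        2 * (2 * C₄ * C₆ * E) + 2 * (2 * C₄ * ε * P) := by rw [hK1]; ring
    rw [h6]
    linarith
  -- conclusion
  have hfin : c₄ * P ≤ C₄ * (B * S7 + C₆ * E) := by
    refine hmain.trans (mul_le_mul_of_nonneg_left ?_ (by linarith))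
    have h1 : ∑ l ∈ Finset.range (L + 1), WW θ 0 l * s l ≤ B * S7 := by
      have h2 := hsum 0
      have h3 : Finset.Icc 0 L = Finset.range (L + 1) := by
        ext a; simp only [Finset.mem_Icc, Finset.mem_range]; omega
      rw [h3] at h2
      simpa using h2
    have h2 : WW θ 0 L * (N * C₆ * E) ≤ C₆ * E := by
      have h3 : 0 ≤ C₆ * E := by positivity
      have h4 := mul_le_mul_of_nonneg_right hN h3
      calc WW θ 0 L * (N * C₆ * E) = (N : ℝ) * WW θ 0 L * (C₆ * E) := by ring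
        _ ≤ 1 * (C₆ * E) := h4
        _ = _ := one_mul _
    linarith
  have h5 : C₄ * (B * S7) ≤ C₄ * S7 * K1 * E + (c₄ / 2) * P := by
    have h6 := mul_le_mul_of_nonneg_left hBb (show 0 ≤ C₄ * S7 by positivity)
    have h7 := mul_le_mul_of_nonneg_right hB hP
    calc C₄ * (B * S7) = C₄ * S7 * B := by ring
      _ ≤ C₄ * S7 * (K1 * E + 4 * C₄ * ε * P) := h6
      _ = C₄ * S7 * K1 * E + 4 * C₄ ^ 2 * S7 * ε * P := by ring
      _ ≤ _ := by linarith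
  have h8 : c₄ / 2 * P ≤ (C₄ * S7 * K1 + C₄ * C₆) * E := by
    have h9 : (C₄ * S7 * K1 + C₄ * C₆) * E = C₄ * S7 * K1 * E + C₄ * (C₆ * E) := by ring
    have h10 : C₄ * (B * S7 + C₆ * E) = C₄ * (B * S7) + C₄ * (C₆ * E) := by ring
    rw [h9]
    rw [h10] at hfin
    linarith
  rw [div_mul_eq_mul_div, div_mul_eq_mul_div, le_div_iff₀ hc4]
  linarith

end

end Pool.Agent.H729R2.FO
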