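import Mathlib
import Pool.Agent.H729R2.FO.Stubs
import Pool.Agent.H729R2.FO.Stubs2

set_option autoImplicit false

namespace Pool.Agent.H729R2.FO

open MeasureTheory Pool.Agent.H729R2.CB Pool.Agent.Helper150.Cub

open scoped Classical

theorem obu_pw (a s s' k : ℝ) (_ha : 0 ≤ a) (ha3 : a ≤ 3) (hs : 0 < s) (hk : 1 ≤ k)
    (h : s ≤ k * s') : s' ^ (-a) ≤ k ^ 3 * s ^ (-a) := by
  have hk0 : 0 < k := by linarith
  have hs' : s / k ≤ s' := by rw [div_le_iff₀ hk0]; linarith
  have h0 : 0 < s / k := by positivity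
  calc s' ^ (-a) ≤ (s / k) ^ (-a) := Real.rpow_le_rpow_of_nonpos h0 hs' (by linarith)
    _ = k ^ a * s ^ (-a) := by
        rw [Real.div_rpow hs.le hk0.le, Real.rpow_neg hk0.le a]
        field_simp
    _ ≤ k ^ 3 * s ^ (-a) := by
        refine mul_le_mul_of_nonneg_right ?_ (Real.rpow_nonneg hs.le _)
        calc k ^ a ≤ k ^ (3 : ℝ) := Real.rpow_le_rpow_of_exponent_le hk ha3
          _ = k ^ 3 := by norm_cast

/-- sums over the centres of the cells -/
theorem obu_sum (hC : S_CEL) (a' CS : ℝ)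
    (hCS : ∀ (S : Finset G) (σ s : ℝ) (x : G), 0 < σ → 0 < s → Sepd σ S →
      ∑ y ∈ S, (1 + ‖x - y‖ / s) ^ (-a') ≤ CS * (1 + s / σ)) (hCS1 : 1 ≤ CS)
    (g : ℕ) (t : ℝ) (ht : 0 < t) (h8 : 8 * (1 / 2) ^ g ≤ t) (y : G) :
    (1 / 2) ^ g / t * ∑ i ∈ Finset.range (2 ^ g), (1 + ‖y - cen g i‖ / t) ^ (-a') ≤ CS := by
  have hpi := Real.pi_pos
  have hpi3 := Real.pi_gt_three
  have hh : (0 : ℝ) < (1 / 2) ^ g := by positivity
  have hsep := hC.2.2.2.2.2.2.2 g
  have hinj : Set.InjOn (cen g) (Finset.range (2 ^ g) : Set ℕ) := by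
    intro i hi i' hi' hii
    by_contra hne
    have h1 := hsep i i' (by simpa using hi) (by simpa using hi') hne
    rw [hii, sub_self, norm_zero] at h1
    have : 0 < 2 * Real.pi * (1 / 2) ^ g := by positivity
    linarith
  have hS : Sepd (2 * Real.pi * (1 / 2) ^ g) ((Finset.range (2 ^ g)).image (cen g)) := by
    intro x hx x' hx' hne
    rw [Finset.mem_image] at hx hx'
    obtain ⟨i, hi, rfl⟩ := hx
    obtain ⟨i', hi', rfl⟩ := hx'
    exact hsep i i' (Finset.mem_range.mp hi) (Finset.mem_range.mp hi') (fun h => hne (by rw [h]))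
  have h1 := hCS _ (2 * Real.pi * (1 / 2) ^ g) t y (by positivity) ht hS
  rw [Finset.sum_image hinj] at h1
  calc (1 / 2) ^ g / t * ∑ i ∈ Finset.range (2 ^ g), (1 + ‖y - cen g i‖ / t) ^ (-a')
      ≤ (1 / 2) ^ g / t * (CS * (1 + t / (2 * Real.pi * (1 / 2) ^ g))) :=
        mul_le_mul_of_nonneg_left h1 (by positivity)
    _ = CS * ((1 / 2) ^ g / t + 1 / (2 * Real.pi)) := by field_simp
    _ ≤ CS * 1 := by
        refine mul_le_mul_of_nonneg_left ?_ (by linarith)
        have e1 : (1 / 2 : ℝ) ^ g / t ≤ 1 / 8 := by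
          rw [div_le_div_iff₀ ht (by norm_num)]
          linarith
        have e2 : 1 / (2 * Real.pi) ≤ 1 / 6 := by
          apply one_div_le_one_div_of_le (by norm_num)
          linarith
        linarith
    _ = CS := mul_one _

theorem obu_act (hC : S_CEL) (a τ β D t : ℝ) (b g : ℕ) (cr : G → ℝ) (ht : 0 < t)
    (h8 : 8 * (1 / 2) ^ g ≤ t) (h2b : 2 ^ b * t ≤ 1) (hτ : 1 < τ) (hβ : 1 < β) (hτβ : τ * β ≤ 2)
    (hD : 1 ≤ D) (hcr : ∀ x, 0 ≤ cr x)
    (hharn : ∀ x y, cr x ≤ (1 + 2 ^ b * ‖x - y‖) ^ τ * cr y) (i : ℕ) (z : G)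
    (hz : cr z ≤ D) (hzi : cidx g z = i) (y : G) :
    (1 + ‖y - cen g i‖ / t) ^ (-a) ≤
      (1 + ‖y - cen g i‖ / t) ^ (-(a - τ * β)) * (4 * bbf β D cr y) := by
  set w : ℝ := 1 + ‖y - cen g i‖ / t with hw
  have hw1 : 1 ≤ w := by
    rw [hw]
    have : 0 ≤ ‖y - cen g i‖ / t := by positivity
    linarith
  have hw0 : 0 < w := by linarith
  have hpi4 := Real.pi_lt_four
  have hzc : ‖z - cen g i‖ ≤ Real.pi * (1 / 2) ^ g := by
    have := hC.2.2.2.2.2.2.1 g z
    rwa [hzi] at this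
  have hdist : ‖y - z‖ ≤ ‖y - cen g i‖ + ‖z - cen g i‖ := by
    have : y - z = (y - cen g i) - (z - cen g i) := by abel
    rw [this]
    exact norm_sub_le _ _
  have hzt : ‖z - cen g i‖ ≤ t := by
    have : Real.pi * (1 / 2) ^ g ≤ 8 * (1 / 2) ^ g :=
      mul_le_mul_of_nonneg_right (by linarith) (by positivity)
    linarith
  have h2w : 1 + 2 ^ b * ‖y - z‖ ≤ 2 * w := by
    have h1 : (2 : ℝ) ^ b ≤ 1 / t := by rw [le_div_iff₀ ht]; exact h2b
    have h2 : 2 ^ b * ‖y - z‖ ≤ 1 / t * (‖y - cen g i‖ + t) :=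
      mul_le_mul h1 (hdist.trans (by linarith)) (norm_nonneg _) (by positivity)
    have h3 : 1 / t * (‖y - cen g i‖ + t) = ‖y - cen g i‖ / t + 1 := by field_simp
    rw [h3] at h2
    linarith
  have hm : max 1 (cr y / D) ≤ (2 * w) ^ τ := by
    apply max_le
    · exact Real.one_le_rpow (by linarith) (by linarith)
    · rw [div_le_iff₀ (by linarith)]
      calc cr y ≤ (1 + 2 ^ b * ‖y - z‖) ^ τ * cr z := hharn y z
        _ ≤ (2 * w) ^ τ * D := by
            refine mul_le_mul ?_ hz (hcr z) (by positivity)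
            exact Real.rpow_le_rpow (by positivity) h2w (by linarith)
  have hm1 : 1 ≤ max 1 (cr y / D) := le_max_left _ _
  have hb1 : (2 * w) ^ (-(τ * β)) ≤ bbf β D cr y := by
    unfold bbf
    calc (2 * w) ^ (-(τ * β)) = ((2 * w) ^ τ) ^ (-β) := by
          rw [← Real.rpow_mul (by positivity)]
          congr 1
          ring
      _ ≤ (max 1 (cr y / D)) ^ (-β) :=
          Real.rpow_le_rpow_of_nonpos (by linarith) hm (by linarith)
  have h4 : w ^ (-(τ * β)) ≤ 4 * bbf β D cr y := by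
    have e1 : (2 * w) ^ (-(τ * β)) = 2 ^ (-(τ * β)) * w ^ (-(τ * β)) :=
      Real.mul_rpow (by norm_num) hw0.le
    have e2 : (1 / 4 : ℝ) ≤ 2 ^ (-(τ * β)) := by
      calc (1 / 4 : ℝ) = 2 ^ (-(2 : ℝ)) := by
            rw [Real.rpow_neg (by norm_num)]
            norm_num
        _ ≤ 2 ^ (-(τ * β)) := Real.rpow_le_rpow_of_exponent_le (by norm_num) (by linarith)
    have e3 : 0 ≤ w ^ (-(τ * β)) := Real.rpow_nonneg hw0.le _
    rw [e1] at hb1
    nlinarith
  have e4 : w ^ (-a) = w ^ (-(a - τ * β)) * w ^ (-(τ * β)) := by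
    rw [← Real.rpow_add hw0]
    congr 1
    ring
  rw [e4]
  exact mul_le_mul_of_nonneg_left h4 (Real.rpow_nonneg hw0.le _)

theorem obu_int_mul {f φ : G → ℝ} {B B' : ℝ} (hf : Measurable f) (hfB : ∀ x, |f x| ≤ B)
    (hφ : Measurable φ) (hφB : ∀ x, |φ x| ≤ B') : Integrable (fun x => f x * φ x) hm := by
  refine Integrable.of_bound (hf.mul hφ).aestronglyMeasurable (B * B') (Filter.Eventually.of_forall fun x => ?_)
  rw [Real.norm_eq_abs, abs_mul]
  exact mul_le_mul (hfB x) (hφB x) (abs_nonneg _) ((abs_nonneg _).trans (hfB x))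

theorem obu_cell0 {f φ : G → ℝ} {B B' : ℝ} (hf : Measurable f) (hfB : ∀ x, |f x| ≤ B)
    (hφ : Measurable φ) (hφB : ∀ x, |φ x| ≤ B') (S : Set G) (hS : MeasurableSet S) (O : ℝ)
    (hO : ∀ x ∈ S, |φ x| ≤ O) : |∫ x in S, f x * φ x ∂hm| ≤ O * ∫ x in S, |f x| ∂hm := by
  have hint := obu_int_mul hf hfB hφ hφB
  have hfi : Integrable (fun x => |f x|) hm := by
    refine Integrable.of_bound hf.abs.aestronglyMeasurable B (Filter.Eventually.of_forall fun x => ?_)
    rw [Real.norm_eq_abs, abs_abs]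
    exact hfB x
  calc |∫ x in S, f x * φ x ∂hm| ≤ ∫ x in S, |f x * φ x| ∂hm := abs_integral_le_integral_abs
    _ ≤ ∫ x in S, O * |f x| ∂hm := by
        refine setIntegral_mono_on hint.abs.integrableOn (hfi.const_mul O).integrableOn hS
          fun x hx => ?_
        rw [abs_mul, mul_comm]
        exact mul_le_mul_of_nonneg_right (hO x hx) (abs_nonneg _)
    _ = O * ∫ x in S, |f x| ∂hm := integral_const_mul _ _

theorem obu_cell1 {f φ : G → ℝ} {B B' : ℝ} (hf : Measurable f) (hfB : ∀ x, |f x| ≤ B)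
    (hφ : Measurable φ) (hφB : ∀ x, |φ x| ≤ B') (S : Set G) (hS : MeasurableSet S) (O v : ℝ)
    (hO : ∀ x ∈ S, |φ x - v| ≤ O) (hf0 : ∫ x in S, f x ∂hm = 0) :
    |∫ x in S, f x * φ x ∂hm| ≤ O * ∫ x in S, |f x| ∂hm := by
  have hfi : Integrable f hm :=
    Integrable.of_bound hf.aestronglyMeasurable B (Filter.Eventually.of_forall hfB)
  have e1 : ∫ x in S, f x * φ x ∂hm = ∫ x in S, f x * (φ x - v) ∂hm := by
    have e2 : ∀ x, f x * (φ x - v) = f x * φ x - v * f x := fun x => by ring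
    simp_rw [e2]
    rw [integral_sub (obu_int_mul hf hfB hφ hφB).integrableOn (hfi.const_mul v).integrableOn,
      integral_const_mul, hf0]
    ring
  rw [e1]
  refine obu_cell0 hf hfB (hφ.sub_const v) (B' := B' + |v|) (fun x => ?_) S hS O hO
  calc |φ x - v| ≤ |φ x| + |v| := abs_sub _ _
    _ ≤ B' + |v| := by linarith [hφB x]

/-- splitting into cells -/
theorem obu_split (hC : S_CEL) (hI : S_CIN) (g : ℕ) {f φ : G → ℝ} {B B' : ℝ} (hf : Measurable f)
    (hfB : ∀ x, |f x| ≤ B) (hφ : Measurable φ) (hφB : ∀ x, |φ x| ≤ B') (W : ℕ → ℝ)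
    (hW : ∀ i, i < 2 ^ g → |∫ x in Cell g i, f x * φ x ∂hm| ≤ W i) :
    |∫ x, f x * φ x ∂hm| ≤ ∑ i ∈ Finset.range (2 ^ g), W i := by
  rw [(hI _ (obu_int_mul hf hfB hφ hφB)).1 g]
  refine (Finset.abs_sum_le_sum_abs _ _).trans (Finset.sum_le_sum fun i hi => ?_)
  exact hW i (Finset.mem_range.mp hi)

theorem obu_shift (t a : ℝ) (ht : 0 < t) (ha : 0 ≤ a) (ha3 : a ≤ 3) (g : ℕ) (h8 : 8 * (1 / 2) ^ g ≤ t) (c x : G)
    (hx : ‖x - c‖ ≤ Real.pi * (1 / 2) ^ g) (y : G) :
    (1 + ‖y - x‖ / t) ^ (-a) ≤ 8 * (1 + ‖y - c‖ / t) ^ (-a) := by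
  have hpi4 := Real.pi_lt_four
  have h1 := obu_pw a (1 + ‖y - c‖ / t) (1 + ‖y - x‖ / t) 2 ha ha3 (by positivity) (by norm_num) ?_
  · calc _ ≤ _ := h1
      _ = _ := by norm_num
  · have h2 : ‖y - c‖ ≤ ‖y - x‖ + ‖x - c‖ := by
      have : y - c = (y - x) + (x - c) := by abel
      rw [this]
      exact norm_add_le _ _
    have h3 : ‖x - c‖ ≤ t := by
      have : Real.pi * (1 / 2) ^ g ≤ 8 * (1 / 2) ^ g :=
        mul_le_mul_of_nonneg_right (by linarith) (by positivity)
      linarith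
    have h4 : ‖y - c‖ / t ≤ ‖y - x‖ / t + 1 := by
      rw [div_add_one ht.ne']
      gcongr
      linarith
    have h5 : 0 ≤ ‖y - x‖ / t := by positivity
    linarith

/-- measure of a ball -/
theorem obu_ball (p : G) (ρ : ℝ) (hρ : 0 ≤ ρ) :
    (hm (Metric.closedBall p ρ)).toReal ≤ ρ / Real.pi := by
  have hpi := Real.pi_pos
  have h1 : (volume : Measure G) = ENNReal.ofReal (2 * Real.pi) • hm :=
    AddCircle.volume_eq_smul_haarAddCircle
  have h2 := AddCircle.volume_closedBall (2 * Real.pi) (x := p) ρ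
  rw [h1, Measure.smul_apply, smul_eq_mul] at h2
  have h3 : ENNReal.ofReal (2 * Real.pi) * hm (Metric.closedBall p ρ) ≤ ENNReal.ofReal (2 * ρ) := by
    rw [h2]
    exact ENNReal.ofReal_le_ofReal (min_le_right _ _)
  have h4 := ENNReal.toReal_mono ENNReal.ofReal_ne_top h3
  rw [ENNReal.toReal_mul, ENNReal.toReal_ofReal (by positivity), ENNReal.toReal_ofReal (by positivity)] at h4
  rw [le_div_iff₀ hpi]
  linarith

theorem obu_bbf_pos (β D : ℝ) (cr : G → ℝ) (y : G) : 0 ≤ bbf β D cr y := by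
  unfold bbf
  exact Real.rpow_nonneg (le_max_of_le_left zero_le_one) _

theorem obu_bbf_le (β D : ℝ) (hβ : 0 ≤ β) (cr : G → ℝ) (y : G) : bbf β D cr y ≤ 1 := by
  unfold bbf
  exact Real.rpow_le_one_of_one_le_of_nonpos (le_max_left _ _) (by linarith)

theorem obu_kbd (t C a : ℝ) (k : G → ℝ) (ht : 0 < t) (ha : 0 ≤ a) (hC : 0 ≤ C)
    (hk : Bd a C t k) (x : G) : |k x| ≤ C / t := by
  refine (hk.bd x).trans ?_
  calc C / t * (1 + ‖x‖ / t) ^ (-a) ≤ C / t * 1 := by
        refine mul_le_mul_of_nonneg_left ?_ (by positivity)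
        refine Real.rpow_le_one_of_one_le_of_nonpos ?_ (by linarith)
        have : 0 ≤ ‖x‖ / t := by positivity
        linarith
    _ = C / t := mul_one _

/-- the data of the smoothing -/
structure ObuD (a C τ β t D : ℝ) (b g : ℕ) (k cr f : G → ℝ) (B : ℝ) : Prop where
  ht : 0 < t
  h8 : 8 * (1 / 2) ^ g ≤ t
  h2b : 2 ^ b * t ≤ 1
  ha : 2 < a
  ha3 : a ≤ 3
  hC : 1 ≤ C
  hτ : 1 < τ
  hβ : 1 < β
  hτβ : τ * β < a - 1
  hD : 1 ≤ D
  hcr : ∀ x, 0 ≤ cr x
  hharn : ∀ x y, cr x ≤ (1 + 2 ^ b * ‖x - y‖) ^ τ * cr y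
  hk : Bd a C t k
  hf : Measurable f
  hfB : ∀ x, |f x| ≤ B
  act : ∀ x, f x ≠ 0 → ∃ y, cr y ≤ D ∧ cidx g y = cidx g x
  m0 : ∀ i, i < 2 ^ g → ∫ x in Cell g i, f x ∂hm = 0
  m1 : ∀ i, i < 2 ^ g → ∫ x in Cell g i, |f x| ∂hm ≤ 2 * (1 / 2) ^ g

theorem obu_case (hC' : S_CEL) {a C τ β t D : ℝ} {b g : ℕ} {k cr f : G → ℝ} {B : ℝ}
    (h : ObuD a C τ β t D b g k cr f B) (i : ℕ) :
    (∀ x ∈ Cell g i, f x = 0) ∨ ∀ y, (1 + ‖y - cen g i‖ / t) ^ (-a) ≤
      (1 + ‖y - cen g i‖ / t) ^ (-(a - τ * β)) * (4 * bbf β D cr y) := by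
  by_cases hx : ∃ x ∈ Cell g i, f x ≠ 0
  · right
    obtain ⟨x, hxi, hfx⟩ := hx
    obtain ⟨z, hz, hzx⟩ := h.act x hfx
    have hzi : cidx g z = i := by rw [hzx]; exact hxi
    intro y
    exact obu_act hC' a τ β D t b g cr h.ht h.h8 h.h2b h.hτ h.hβ (by linarith [h.hτβ, h.ha3]) h.hD
      h.hcr h.hharn i z hz hzi y
  · left
    push Not at hx
    exact hx

theorem obu_size (hC' : S_CEL) (hI : S_CIN) {a C τ β t D : ℝ} {b g : ℕ} {k cr f : G → ℝ} {B : ℝ}
    (h : ObuD a C τ β t D b g k cr f B) (CS : ℝ)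
    (hCS : ∀ (S : Finset G) (σ s : ℝ) (x : G), 0 < σ → 0 < s → Sepd σ S →
      ∑ y ∈ S, (1 + ‖x - y‖ / s) ^ (-(a - τ * β)) ≤ CS * (1 + s / σ)) (hCS1 : 1 ≤ CS) (y : G) :
    |∫ x, f x * k (y - x) ∂hm| ≤ 72 * Real.pi * C * CS * ((1 / 2) ^ g / t) * bbf β D cr y := by
  have hpi := Real.pi_pos
  have ht := h.ht
  have hC := h.hC
  have ha := h.ha
  set η : ℝ := (1 / 2) ^ g with hη
  have hη0 : 0 < η := by positivity
  have hb := obu_bbf_pos β D cr y
  have hφm : Measurable (fun x => k (y - x)) :=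
    (h.hk.cont.comp (continuous_const.sub continuous_id)).measurable
  refine (obu_split hC' hI g h.hf h.hfB hφm (fun x => obu_kbd t C a k ht (by linarith)
    (by linarith) h.hk (y - x))
    (fun i => (C / t * (Real.pi * η / t) * (9 * ((1 + ‖y - cen g i‖ / t) ^ (-(a - τ * β)) *
      (4 * bbf β D cr y)))) * (2 * η)) ?_).trans ?_
  · intro i hi
    have hp0 : 0 ≤ (1 + ‖y - cen g i‖ / t) ^ (-(a - τ * β)) := Real.rpow_nonneg (by positivity) _
    rcases obu_case hC' h i with h0 | h1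
    · have : ∫ x in Cell g i, f x * k (y - x) ∂hm = 0 := by
        rw [setIntegral_congr_fun (hC'.1 g i) (g := fun _ => (0 : ℝ))
          (fun x hx => by simp only [h0 x hx, zero_mul])]
        simp
      rw [this, abs_zero]
      positivity
    · have hm1 := h.m1 i hi
      have hO : 0 ≤ C / t * (Real.pi * η / t) * (9 * ((1 + ‖y - cen g i‖ / t) ^ (-(a - τ * β)) *
          (4 * bbf β D cr y))) := by positivity
      refine (obu_cell1 h.hf h.hfB hφm (fun x => obu_kbd t C a k ht (by linarith)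
        (by linarith) h.hk (y - x)) (Cell g i) (hC'.1 g i)
        (C / t * (Real.pi * η / t) * (9 * ((1 + ‖y - cen g i‖ / t) ^ (-(a - τ * β)) *
          (4 * bbf β D cr y)))) (k (y - cen g i)) ?_ (h.m0 i hi)).trans
        (mul_le_mul_of_nonneg_left hm1 hO)
      intro x hx
      have hxc : ‖x - cen g i‖ ≤ Real.pi * η := by
        have := hC'.2.2.2.2.2.2.1 g x
        rwa [show cidx g x = i from hx] at this
      refine (h.hk.lip (y - x) (y - cen g i)).trans ?_
      have e1 : ‖y - x - (y - cen g i)‖ = ‖x - cen g i‖ := by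
        rw [sub_sub_sub_cancel_left, norm_sub_rev]
      rw [e1]
      have e2 := obu_shift t a ht (by linarith) h.ha3 g h.h8 (cen g i) x hxc y
      have e3 := h1 y
      have e4 : (1 + ‖y - x‖ / t) ^ (-a) + (1 + ‖y - cen g i‖ / t) ^ (-a) ≤
          9 * ((1 + ‖y - cen g i‖ / t) ^ (-(a - τ * β)) * (4 * bbf β D cr y)) := by linarith
      refine mul_le_mul (mul_le_mul_of_nonneg_left ?_ (by positivity)) e4 ?_ (by positivity)
      · gcongr
      · positivity
  · rw [← Finset.sum_mul]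
    have hs := obu_sum hC' (a - τ * β) CS hCS hCS1 g t ht h.h8 y
    rw [← hη] at hs
    have e1 : ∑ i ∈ Finset.range (2 ^ g), C / t * (Real.pi * η / t) *
        (9 * ((1 + ‖y - cen g i‖ / t) ^ (-(a - τ * β)) * (4 * bbf β D cr y))) =
        C / t * (Real.pi * η / t) * 36 * bbf β D cr y *
        ∑ i ∈ Finset.range (2 ^ g), (1 + ‖y - cen g i‖ / t) ^ (-(a - τ * β)) := by
      rw [Finset.mul_sum]
      refine Finset.sum_congr rfl fun i _ => ?_
      ring
    rw [e1]
    have e2 : C / t * (Real.pi * η / t) * 36 * bbf β D cr y *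
        (∑ i ∈ Finset.range (2 ^ g), (1 + ‖y - cen g i‖ / t) ^ (-(a - τ * β))) * (2 * η) =
        (72 * Real.pi * C * (η / t) * bbf β D cr y) * (η / t *
        ∑ i ∈ Finset.range (2 ^ g), (1 + ‖y - cen g i‖ / t) ^ (-(a - τ * β))) := by
      field_simp
      ring
    rw [e2]
    calc (72 * Real.pi * C * (η / t) * bbf β D cr y) * (η / t *
        ∑ i ∈ Finset.range (2 ^ g), (1 + ‖y - cen g i‖ / t) ^ (-(a - τ * β)))
        ≤ (72 * Real.pi * C * (η / t) * bbf β D cr y) * CS :=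
          mul_le_mul_of_nonneg_left hs (by positivity)
      _ = 72 * Real.pi * C * CS * (η / t) * bbf β D cr y := by ring

theorem obu_lip (hC' : S_CEL) (hI : S_CIN) {a C τ β t D : ℝ} {b g : ℕ} {k cr f : G → ℝ} {B : ℝ}
    (h : ObuD a C τ β t D b g k cr f B) (CS : ℝ)
    (hCS : ∀ (S : Finset G) (σ s : ℝ) (x : G), 0 < σ → 0 < s → Sepd σ S →
      ∑ y ∈ S, (1 + ‖x - y‖ / s) ^ (-(a - τ * β)) ≤ CS * (1 + s / σ)) (hCS1 : 1 ≤ CS) (y y' : G) :
    |(∫ x, f x * k (y - x) ∂hm) - ∫ x, f x * k (y' - x) ∂hm| ≤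
      64 * C * CS * (‖y - y'‖ / t) * (bbf β D cr y + bbf β D cr y') := by
  have ht := h.ht
  have hC := h.hC
  have ha := h.ha
  set η : ℝ := (1 / 2) ^ g with hη
  have hη0 : 0 < η := by positivity
  have hb := obu_bbf_pos β D cr y
  have hb' := obu_bbf_pos β D cr y'
  have hφm : ∀ z : G, Measurable (fun x => k (z - x)) := fun z =>
    (h.hk.cont.comp (continuous_const.sub continuous_id)).measurable
  have hkb : ∀ x, |k x| ≤ C / t := fun x => obu_kbd t C a k ht (by linarith) (by linarith) h.hk x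
  have e0 : (∫ x, f x * k (y - x) ∂hm) - ∫ x, f x * k (y' - x) ∂hm =
      ∫ x, f x * (k (y - x) - k (y' - x)) ∂hm := by
    rw [← integral_sub (obu_int_mul h.hf h.hfB (hφm y) (fun x => hkb (y - x)))
      (obu_int_mul h.hf h.hfB (hφm y') (fun x => hkb (y' - x)))]
    congr 1
    ext x
    ring
  rw [e0]
  have hφB : ∀ x, |k (y - x) - k (y' - x)| ≤ C / t + C / t := fun x =>
    (abs_sub _ _).trans (add_le_add (hkb _) (hkb _))
  have hφm2 : Measurable (fun x => k (y - x) - k (y' - x)) := (hφm y).sub (hφm y')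
  refine (obu_split hC' hI g h.hf h.hfB hφm2 hφB
    (fun i => (C / t * (‖y - y'‖ / t) * (8 * ((1 + ‖y - cen g i‖ / t) ^ (-(a - τ * β)) *
      (4 * bbf β D cr y)) + 8 * ((1 + ‖y' - cen g i‖ / t) ^ (-(a - τ * β)) *
      (4 * bbf β D cr y')))) * (2 * η)) ?_).trans ?_
  · intro i hi
    have hp0 : 0 ≤ (1 + ‖y - cen g i‖ / t) ^ (-(a - τ * β)) := Real.rpow_nonneg (by positivity) _
    have hp0' : 0 ≤ (1 + ‖y' - cen g i‖ / t) ^ (-(a - τ * β)) := Real.rpow_nonneg (by positivity) _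
    rcases obu_case hC' h i with h0 | h1
    · have : ∫ x in Cell g i, f x * (k (y - x) - k (y' - x)) ∂hm = 0 := by
        rw [setIntegral_congr_fun (hC'.1 g i) (g := fun _ => (0 : ℝ))
          (fun x hx => by simp only [h0 x hx, zero_mul])]
        simp
      rw [this, abs_zero]
      positivity
    · have hm1 := h.m1 i hi
      refine (obu_cell0 h.hf h.hfB hφm2 hφB (Cell g i) (hC'.1 g i)
        (C / t * (‖y - y'‖ / t) * (8 * ((1 + ‖y - cen g i‖ / t) ^ (-(a - τ * β)) *
      (4 * bbf β D cr y)) + 8 * ((1 + ‖y' - cen g i‖ / t) ^ (-(a - τ * β)) *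
      (4 * bbf β D cr y')))) ?_).trans
        (mul_le_mul_of_nonneg_left hm1 (by positivity))
      intro x hx
      have hxc : ‖x - cen g i‖ ≤ Real.pi * η := by
        have := hC'.2.2.2.2.2.2.1 g x
        rwa [show cidx g x = i from hx] at this
      refine (h.hk.lip (y - x) (y' - x)).trans ?_
      have e1 : ‖y - x - (y' - x)‖ = ‖y - y'‖ := by
        rw [sub_sub_sub_cancel_right]
      rw [e1]
      have e2 := obu_shift t a ht (by linarith) h.ha3 g h.h8 (cen g i) x hxc y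
      have e2' := obu_shift t a ht (by linarith) h.ha3 g h.h8 (cen g i) x hxc y'
      have e3 := h1 y
      have e3' := h1 y'
      refine mul_le_mul_of_nonneg_left ?_ (by positivity)
      linarith
  · rw [← Finset.sum_mul]
    have hs := obu_sum hC' (a - τ * β) CS hCS hCS1 g t ht h.h8 y
    have hs' := obu_sum hC' (a - τ * β) CS hCS hCS1 g t ht h.h8 y'
    rw [← hη] at hs hs'
    have e1 : ∑ i ∈ Finset.range (2 ^ g), C / t * (‖y - y'‖ / t) *
        (8 * ((1 + ‖y - cen g i‖ / t) ^ (-(a - τ * β)) * (4 * bbf β D cr y)) +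
         8 * ((1 + ‖y' - cen g i‖ / t) ^ (-(a - τ * β)) * (4 * bbf β D cr y'))) =
        C / t * (‖y - y'‖ / t) * 32 * (bbf β D cr y *
        ∑ i ∈ Finset.range (2 ^ g), (1 + ‖y - cen g i‖ / t) ^ (-(a - τ * β)) +
        bbf β D cr y' * ∑ i ∈ Finset.range (2 ^ g), (1 + ‖y' - cen g i‖ / t) ^ (-(a - τ * β))) := by
      rw [Finset.mul_sum, Finset.mul_sum, ← Finset.sum_add_distrib, Finset.mul_sum]
      refine Finset.sum_congr rfl fun i _ => ?_
      ring
    rw [e1]
    have e2 : C / t * (‖y - y'‖ / t) * 32 * (bbf β D cr y *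
        (∑ i ∈ Finset.range (2 ^ g), (1 + ‖y - cen g i‖ / t) ^ (-(a - τ * β))) +
        bbf β D cr y' * (∑ i ∈ Finset.range (2 ^ g), (1 + ‖y' - cen g i‖ / t) ^ (-(a - τ * β)))) *
          (2 * η) =
        (64 * C * (‖y - y'‖ / t)) * (bbf β D cr y * (η / t *
        ∑ i ∈ Finset.range (2 ^ g), (1 + ‖y - cen g i‖ / t) ^ (-(a - τ * β))) +
        bbf β D cr y' * (η / t *
        ∑ i ∈ Finset.range (2 ^ g), (1 + ‖y' - cen g i‖ / t) ^ (-(a - τ * β)))) := by
      field_simp
      ring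
    rw [e2]
    calc _ ≤ (64 * C * (‖y - y'‖ / t)) * (bbf β D cr y * CS + bbf β D cr y' * CS) := by
          refine mul_le_mul_of_nonneg_left ?_ (by positivity)
          exact add_le_add (mul_le_mul_of_nonneg_left hs hb) (mul_le_mul_of_nonneg_left hs' hb')
      _ = 64 * C * CS * (‖y - y'‖ / t) * (bbf β D cr y + bbf β D cr y') := by ring

/-- difference of the cell integrals of two translates -/
theorem obu_kappa (hO : S_GAO) {a C t : ℝ} {g : ℕ} {k : G → ℝ} (ht : 0 < t) (ha : 2 < a)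
    (ha3 : a ≤ 3) (hC : 1 ≤ C) (hk : Bd a C t k) (h8 : 8 * (1 / 2) ^ g ≤ t) (j i : ℕ)
    (hi : i < 2 ^ j) (hS : MeasurableSet (Cell j i)) (x c : G)
    (hxc : ‖x - c‖ ≤ Real.pi * (1 / 2) ^ g) :
    |(∫ y in Cell j i, k (y - x) ∂hm) - ∫ y in Cell j i, k (y - c) ∂hm| ≤
      16 * (C / t) * (1 / 2) ^ g * ((1 + ‖endp j i - c‖ / t) ^ (-a) +
        (1 + ‖endp j (i + 1) - c‖ / t) ^ (-a)) := by
  have hpi := Real.pi_pos
  have hpi4 := Real.pi_lt_four
  set η : ℝ := (1 / 2) ^ g with hη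
  have hη0 : 0 < η := by positivity
  set S := Cell j i with hSdef
  have hkb : ∀ x, |k x| ≤ C / t := fun x => obu_kbd t C a k ht (by linarith) (by linarith) hk x
  have hki : ∀ z : G, Integrable (fun w => S.indicator (fun _ => (1 : ℝ)) (w + z) * k w) hm := by
    intro z
    refine Integrable.of_bound ?_ (1 * (C / t)) (Filter.Eventually.of_forall fun w => ?_)
    · refine Measurable.aestronglyMeasurable (Measurable.mul ?_ hk.cont.measurable)
      exact (measurable_const.indicator hS).comp (measurable_id.add_const z)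
    · rw [Real.norm_eq_abs, abs_mul]
      refine mul_le_mul ?_ (hkb w) (abs_nonneg _) zero_le_one
      by_cases hw : w + z ∈ S
      · rw [Set.indicator_of_mem hw, abs_one]
      · rw [Set.indicator_of_notMem hw, abs_zero]; exact zero_le_one
  have htr : ∀ z : G, ∫ y in S, k (y - z) ∂hm =
      ∫ w, S.indicator (fun _ => (1 : ℝ)) (w + z) * k w ∂hm := by
    intro z
    rw [← integral_indicator hS]
    have e1 : ∀ y, S.indicator (fun y => k (y - z)) y =
        (fun w => S.indicator (fun _ => (1 : ℝ)) (w + z) * k w) (y - z) := by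
      intro y
      simp only [sub_add_cancel]
      by_cases hy : y ∈ S
      · rw [Set.indicator_of_mem hy, Set.indicator_of_mem hy, one_mul]
      · rw [Set.indicator_of_notMem hy, Set.indicator_of_notMem hy, zero_mul]
    simp_rw [e1]
    exact integral_sub_right_eq_self (μ := hm)
      (fun w => S.indicator (fun _ => (1 : ℝ)) (w + z) * k w) z
  rw [htr x, htr c, ← integral_sub (hki x) (hki c)]
  -- the two balls
  set M : G → ℝ := fun e => C / t * (8 * (1 + ‖e - c‖ / t) ^ (-a)) with hM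
  have hM0 : ∀ e, 0 ≤ M e := fun e => by
    have : 0 ≤ (1 + ‖e - c‖ / t) ^ (-a) := Real.rpow_nonneg (by positivity) _
    simp only [hM]
    positivity
  have hbnd : ∀ e w : G, w ∈ Metric.closedBall (e - c) (2 * (Real.pi * η)) → |k w| ≤ M e := by
    intro e w hw
    rw [Metric.mem_closedBall, dist_eq_norm] at hw
    refine (hk.bd w).trans ?_
    simp only [hM]
    refine mul_le_mul_of_nonneg_left ?_ (by positivity)
    have h1 := obu_pw a (1 + ‖e - c‖ / t) (1 + ‖w‖ / t) 2 (by linarith) ha3 (by positivity)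
      (by norm_num) ?_
    · calc _ ≤ _ := h1
        _ = _ := by norm_num
    · have h2 : ‖e - c‖ ≤ ‖w‖ + ‖w - (e - c)‖ := by
        have : e - c = w - (w - (e - c)) := by abel
        calc ‖e - c‖ = ‖w - (w - (e - c))‖ := by rw [← this]
          _ ≤ _ := norm_sub_le _ _
      have h3 : 2 * (Real.pi * η) ≤ t := by nlinarith
      have h4 : ‖e - c‖ / t ≤ ‖w‖ / t + 1 := by
        rw [div_add_one ht.ne']
        gcongr
        linarith
      have h5 : 0 ≤ ‖w‖ / t := by positivity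
      linarith
  have hpt : ∀ w : G, |S.indicator (fun _ => (1 : ℝ)) (w + x) * k w -
      S.indicator (fun _ => (1 : ℝ)) (w + c) * k w| ≤
      (Metric.closedBall (endp j i - c) (2 * (Real.pi * η))).indicator (fun _ => M (endp j i)) w +
      (Metric.closedBall (endp j (i + 1) - c) (2 * (Real.pi * η))).indicator
        (fun _ => M (endp j (i + 1))) w := by
    intro w
    have hr0 : 0 ≤ (Metric.closedBall (endp j i - c) (2 * (Real.pi * η))).indicator
        (fun _ => M (endp j i)) w := Set.indicator_nonneg (fun _ _ => hM0 _) _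
    have hr1 : 0 ≤ (Metric.closedBall (endp j (i + 1) - c) (2 * (Real.pi * η))).indicator
        (fun _ => M (endp j (i + 1))) w := Set.indicator_nonneg (fun _ _ => hM0 _) _
    have hgeo := (hO j i hi).1
    -- membership of `w` in one of the balls suffices
    have hfin : (w ∈ Metric.closedBall (endp j i - c) (2 * (Real.pi * η)) ∨
        w ∈ Metric.closedBall (endp j (i + 1) - c) (2 * (Real.pi * η))) → |k w| ≤
      (Metric.closedBall (endp j i - c) (2 * (Real.pi * η))).indicator (fun _ => M (endp j i)) w +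
      (Metric.closedBall (endp j (i + 1) - c) (2 * (Real.pi * η))).indicator
        (fun _ => M (endp j (i + 1))) w := by
      rintro (hw | hw)
      · have := hbnd _ _ hw
        rw [Set.indicator_of_mem hw]
        linarith
      · have := hbnd _ _ hw
        rw [Set.indicator_of_mem hw (f := fun _ => M (endp j (i + 1)))]
        linarith
    by_cases h1 : w + x ∈ S <;> by_cases h2 : w + c ∈ S
    · rw [Set.indicator_of_mem h1, Set.indicator_of_mem h2, sub_self, abs_zero]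
      linarith
    · rw [Set.indicator_of_mem h1, Set.indicator_of_notMem h2, one_mul, zero_mul, sub_zero]
      apply hfin
      have h3 := hgeo (w + x) (w + c) h1 h2
      have h4 : ‖w + x - (w + c)‖ = ‖x - c‖ := by rw [add_sub_add_left_eq_sub]
      rw [h4, min_le_iff] at h3
      have key : ∀ e : G, ‖w + x - e‖ ≤ ‖x - c‖ →
          w ∈ Metric.closedBall (e - c) (2 * (Real.pi * η)) := by
        intro e he
        rw [Metric.mem_closedBall, dist_eq_norm]
        have : w - (e - c) = (w + x - e) - (x - c) := by abel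
        rw [this]
        refine (norm_sub_le _ _).trans ?_
        linarith
      rcases h3 with h3 | h3
      · exact Or.inl (key _ h3)
      · exact Or.inr (key _ h3)
    · rw [Set.indicator_of_notMem h1, Set.indicator_of_mem h2, one_mul, zero_mul, zero_sub, abs_neg]
      apply hfin
      have h3 := hgeo (w + c) (w + x) h2 h1
      have h4 : ‖w + c - (w + x)‖ = ‖x - c‖ := by rw [add_sub_add_left_eq_sub, norm_sub_rev]
      rw [h4, min_le_iff] at h3
      have key : ∀ e : G, ‖w + c - e‖ ≤ ‖x - c‖ →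
          w ∈ Metric.closedBall (e - c) (2 * (Real.pi * η)) := by
        intro e he
        rw [Metric.mem_closedBall, dist_eq_norm]
        have : w - (e - c) = w + c - e := by abel
        rw [this]
        have : 0 ≤ Real.pi * η := by positivity
        linarith
      rcases h3 with h3 | h3
      · exact Or.inl (key _ h3)
      · exact Or.inr (key _ h3)
    · rw [Set.indicator_of_notMem h1, Set.indicator_of_notMem h2, sub_self, abs_zero]
      linarith
  have hbm : ∀ e : G, MeasurableSet (Metric.closedBall (e - c) (2 * (Real.pi * η))) :=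
    fun e => Metric.isClosed_closedBall.measurableSet
  have hbi : ∀ e : G, Integrable ((Metric.closedBall (e - c) (2 * (Real.pi * η))).indicator
      (fun _ => M e)) hm := fun e => (integrable_const _).indicator (hbm e)
  have hbe : ∀ e : G, ∫ w, (Metric.closedBall (e - c) (2 * (Real.pi * η))).indicator
      (fun _ => M e) w ∂hm ≤ 2 * η * M e := by
    intro e
    rw [integral_indicator (hbm e), setIntegral_const, smul_eq_mul]
    refine mul_le_mul_of_nonneg_right ?_ (hM0 e)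
    have h1 := obu_ball (e - c) (2 * (Real.pi * η)) (by positivity)
    have h2 : 2 * (Real.pi * η) / Real.pi = 2 * η := by field_simp
    rw [h2] at h1
    exact h1
  calc _ ≤ ∫ w, |S.indicator (fun _ => (1 : ℝ)) (w + x) * k w -
      S.indicator (fun _ => (1 : ℝ)) (w + c) * k w| ∂hm := abs_integral_le_integral_abs
    _ ≤ ∫ w, ((Metric.closedBall (endp j i - c) (2 * (Real.pi * η))).indicator
          (fun _ => M (endp j i)) w +
      (Metric.closedBall (endp j (i + 1) - c) (2 * (Real.pi * η))).indicator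
        (fun _ => M (endp j (i + 1))) w) ∂hm :=
        integral_mono ((hki x).sub (hki c)).abs ((hbi _).add (hbi _)) hpt
    _ = ∫ w, (Metric.closedBall (endp j i - c) (2 * (Real.pi * η))).indicator
          (fun _ => M (endp j i)) w ∂hm +
      ∫ w, (Metric.closedBall (endp j (i + 1) - c) (2 * (Real.pi * η))).indicator
        (fun _ => M (endp j (i + 1))) w ∂hm := integral_add (hbi _) (hbi _)
    _ ≤ 2 * η * M (endp j i) + 2 * η * M (endp j (i + 1)) := add_le_add (hbe _) (hbe _)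
    _ = _ := by simp only [hM]; ring

theorem obu_cells (hC' : S_CEL) (hI : S_CIN) (hO : S_GAO) {a C τ β t D : ℝ} {b g : ℕ}
    {k cr f : G → ℝ} {B : ℝ}
    (h : ObuD a C τ β t D b g k cr f B) (CS : ℝ)
    (hCS : ∀ (S : Finset G) (σ s : ℝ) (x : G), 0 < σ → 0 < s → Sepd σ S →
      ∑ y ∈ S, (1 + ‖x - y‖ / s) ^ (-a) ≤ CS * (1 + s / σ)) (hCS1 : 1 ≤ CS) (j i : ℕ) :
    |∫ y in Cell j i, (∫ x, f x * k (y - x) ∂hm) ∂hm| ≤ 64 * C * CS * (1 / 2) ^ g := by
  have ht := h.ht
  have hC := h.hC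
  have ha := h.ha
  set η : ℝ := (1 / 2) ^ g with hη
  have hη0 : 0 < η := by positivity
  by_cases hi : i < 2 ^ j
  swap
  · have : Cell j i = ∅ := by
      ext x
      simp only [Cell, Set.mem_ofPred_eq, Set.mem_empty_iff_false, iff_false]
      intro h'
      exact hi (h' ▸ hC'.2.1 j x)
    rw [this, setIntegral_empty, abs_zero]
    positivity
  have hS := hC'.1 j i
  have hkb : ∀ x, |k x| ≤ C / t := fun x => obu_kbd t C a k ht (by linarith) (by linarith) h.hk x
  have hB0 : 0 ≤ B := (abs_nonneg _).trans (h.hfB 0)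
  -- Fubini
  have hFub : ∫ y in Cell j i, (∫ x, f x * k (y - x) ∂hm) ∂hm =
      ∫ x, f x * (∫ y in Cell j i, k (y - x) ∂hm) ∂hm := by
    rw [integral_integral_swap]
    · congr 1
      ext x
      exact integral_const_mul _ _
    · refine Integrable.of_bound ?_ (B * (C / t)) (Filter.Eventually.of_forall fun p => ?_)
      · refine Measurable.aestronglyMeasurable ?_
        exact (h.hf.comp measurable_snd).mul
          (h.hk.cont.measurable.comp (measurable_fst.sub measurable_snd))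
      · show ‖f p.2 * k (p.1 - p.2)‖ ≤ _
        rw [Real.norm_eq_abs, abs_mul]
        exact mul_le_mul (h.hfB _) (hkb _) (abs_nonneg _) hB0
  rw [hFub]
  set κ : G → ℝ := fun x => ∫ y in Cell j i, k (y - x) ∂hm with hκ
  have hki : ∀ x, Integrable (fun y => k (y - x)) (hm.restrict (Cell j i)) := by
    intro x
    refine Integrable.of_bound ?_ (C / t) (Filter.Eventually.of_forall fun y => hkb _)
    exact (h.hk.cont.comp (continuous_id.sub continuous_const)).aestronglyMeasurable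
  have hκB : ∀ x, |κ x| ≤ C / t := by
    intro x
    have h1 := norm_setIntegral_le_of_norm_le_const (μ := hm) (s := Cell j i)
      (f := fun y => k (y - x)) (C := C / t) (measure_lt_top _ _) (fun y _ => hkb _)
    rw [Real.norm_eq_abs] at h1
    refine h1.trans ?_
    calc C / t * hm.real (Cell j i) ≤ C / t * 1 :=
          mul_le_mul_of_nonneg_left measureReal_le_one (by positivity)
      _ = C / t := mul_one _
  have hκm : Measurable κ := by
    have hcont : Continuous κ := by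
      have hlip : LipschitzWith (C / t * (2 / t)).toNNReal κ := by
        apply LipschitzWith.of_dist_le'
        intro x x'
        rw [Real.dist_eq, dist_eq_norm]
        simp only [hκ]
        rw [← integral_sub (hki x) (hki x')]
        have h1 := norm_setIntegral_le_of_norm_le_const (μ := hm) (s := Cell j i)
          (f := fun y => k (y - x) - k (y - x')) (C := C / t * (2 / t) * ‖x - x'‖)
          (measure_lt_top _ _) (fun y _ => ?_)
        · rw [Real.norm_eq_abs] at h1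
          refine h1.trans ?_
          calc C / t * (2 / t) * ‖x - x'‖ * hm.real (Cell j i)
              ≤ C / t * (2 / t) * ‖x - x'‖ * 1 :=
                mul_le_mul_of_nonneg_left measureReal_le_one (by positivity)
            _ = C / t * (2 / t) * ‖x - x'‖ := mul_one _
        · rw [Real.norm_eq_abs]
          refine (h.hk.lip (y - x) (y - x')).trans ?_
          have e1 : ‖y - x - (y - x')‖ = ‖x - x'‖ := by
            rw [sub_sub_sub_cancel_left, norm_sub_rev]
          rw [e1]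
          have hle : ∀ z : G, (1 + ‖z‖ / t) ^ (-a) ≤ 1 := by
            intro z
            refine Real.rpow_le_one_of_one_le_of_nonpos ?_ (by linarith)
            have : 0 ≤ ‖z‖ / t := by positivity
            linarith
          calc C / t * (‖x - x'‖ / t) * ((1 + ‖y - x‖ / t) ^ (-a) + (1 + ‖y - x'‖ / t) ^ (-a))
              ≤ C / t * (‖x - x'‖ / t) * (1 + 1) :=
                mul_le_mul_of_nonneg_left (add_le_add (hle _) (hle _)) (by positivity)
            _ = C / t * (2 / t) * ‖x - x'‖ := by ring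
      exact hlip.continuous
    exact hcont.measurable
  refine (obu_split hC' hI g h.hf h.hfB hκm hκB
    (fun l => (16 * (C / t) * η * ((1 + ‖endp j i - cen g l‖ / t) ^ (-a) +
        (1 + ‖endp j (i + 1) - cen g l‖ / t) ^ (-a))) * (2 * η)) ?_).trans ?_
  · intro l hl
    have hm1 := h.m1 l hl
    have hp0 : 0 ≤ (1 + ‖endp j i - cen g l‖ / t) ^ (-a) := Real.rpow_nonneg (by positivity) _
    have hp1 : 0 ≤ (1 + ‖endp j (i + 1) - cen g l‖ / t) ^ (-a) :=
      Real.rpow_nonneg (by positivity) _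
    refine (obu_cell1 h.hf h.hfB hκm hκB (Cell g l) (hC'.1 g l)
      (16 * (C / t) * η * ((1 + ‖endp j i - cen g l‖ / t) ^ (-a) +
        (1 + ‖endp j (i + 1) - cen g l‖ / t) ^ (-a))) (κ (cen g l)) ?_ (h.m0 l hl)).trans
      (mul_le_mul_of_nonneg_left hm1 (by positivity))
    intro x hx
    have hxc : ‖x - cen g l‖ ≤ Real.pi * η := by
      have := hC'.2.2.2.2.2.2.1 g x
      rwa [show cidx g x = l from hx] at this
    exact obu_kappa hO ht ha h.ha3 hC h.hk h.h8 j i hi hS x (cen g l) hxc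
  · rw [← Finset.sum_mul]
    have hs := obu_sum hC' a CS hCS hCS1 g t ht h.h8 (endp j i)
    have hs' := obu_sum hC' a CS hCS hCS1 g t ht h.h8 (endp j (i + 1))
    rw [← hη] at hs hs'
    have e1 : ∑ l ∈ Finset.range (2 ^ g), 16 * (C / t) * η *
        ((1 + ‖endp j i - cen g l‖ / t) ^ (-a) + (1 + ‖endp j (i + 1) - cen g l‖ / t) ^ (-a)) =
        16 * (C / t) * η * (∑ l ∈ Finset.range (2 ^ g), (1 + ‖endp j i - cen g l‖ / t) ^ (-a) +
        ∑ l ∈ Finset.range (2 ^ g), (1 + ‖endp j (i + 1) - cen g l‖ / t) ^ (-a)) := by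
      rw [← Finset.sum_add_distrib, Finset.mul_sum]
    rw [e1]
    have e2 : 16 * (C / t) * η * ((∑ l ∈ Finset.range (2 ^ g), (1 + ‖endp j i - cen g l‖ / t) ^ (-a)) +
        (∑ l ∈ Finset.range (2 ^ g), (1 + ‖endp j (i + 1) - cen g l‖ / t) ^ (-a))) * (2 * η) =
        32 * C * η * (η / t * (∑ l ∈ Finset.range (2 ^ g), (1 + ‖endp j i - cen g l‖ / t) ^ (-a)) +
        η / t * (∑ l ∈ Finset.range (2 ^ g), (1 + ‖endp j (i + 1) - cen g l‖ / t) ^ (-a))) := by
      field_simp
      ring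
    rw [e2]
    calc _ ≤ 32 * C * η * (CS + CS) :=
          mul_le_mul_of_nonneg_left (add_le_add hs hs') (by positivity)
      _ = 64 * C * CS * η := by ring

theorem t_OBU (hC : S_CEL) (hI : S_CIN) (hS : S_SEP) (hO : S_GAO) : S_OBU := by
  intro r a C z₀ F M K Y hK τ β hτ hβ hβ2 hτβ
  have hpi := Real.pi_pos
  have hC1 := hK.hC
  obtain ⟨CS, hCS1, -, hCS⟩ := hS (a - τ * β) (by linarith)
  obtain ⟨CS', hCS'1, -, hCS'⟩ := hS a (by linarith [hK.ha])
  have hCC1 : 1 ≤ C * CS := one_le_mul_of_one_le_of_one_le hC1 hCS1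
  have hCC2 : 1 ≤ C * CS' := one_le_mul_of_one_le_of_one_le hC1 hCS'1
  refine ⟨(144 * Real.pi + 128) * (C * CS) + 64 * (C * CS'), by nlinarith, ?_⟩
  intro b T e D cr f he hD hcr hharn hf hfB hact hm0 hm1
  obtain ⟨B, hfB⟩ := hfB
  set t : ℝ := (1 / 2) ^ (b + T) / 2 with htdef
  have ht : 0 < t := by positivity
  have ht1 : t ≤ 1 := by
    have : (1 / 2 : ℝ) ^ (b + T) ≤ 1 := pow_le_one₀ (by norm_num) (by norm_num)
    rw [htdef]; linarith
  have hg : (1 / 2 : ℝ) ^ (b + T + e) = 2 * t * (1 / 2) ^ e := by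
    rw [htdef, pow_add]; ring
  have he16 : (1 / 2 : ℝ) ^ e ≤ 1 / 16 := by
    calc (1 / 2 : ℝ) ^ e ≤ (1 / 2) ^ 4 := pow_le_pow_of_le_one (by norm_num) (by norm_num) he
      _ = 1 / 16 := by norm_num
  have hmul : (2 : ℝ) ^ (b + T) * (1 / 2) ^ (b + T) = 1 := by
    rw [← mul_pow]; norm_num
  have hdat : ObuD a C τ β t D b (b + T + e) (K t) cr f B := by
    refine ⟨ht, ?_, ?_, hK.ha, hK.ha3, hC1, hτ, hβ, hτβ, hD, hcr, hharn, hK.Kb t ht ht1, hf, hfB,
      ?_, hm0, hm1⟩
    · rw [hg]; nlinarith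
    · have h1 : (2 : ℝ) ^ b ≤ 2 ^ (b + T) := pow_le_pow_right₀ (by norm_num) (by omega)
      calc (2 : ℝ) ^ b * t ≤ 2 ^ (b + T) * t := mul_le_mul_of_nonneg_right h1 ht.le
        _ = (2 ^ (b + T) * (1 / 2) ^ (b + T)) / 2 := by rw [htdef]; ring
        _ ≤ 1 := by rw [hmul]; norm_num
    · intro x hx
      exact hact x hx
  have hbb : ∀ y, 0 ≤ bbf β D cr y := obu_bbf_pos β D cr
  have hlip : ∀ y y', |(∫ x, f x * K t (y - x) ∂hm) - ∫ x, f x * K t (y' - x) ∂hm|
      ≤ ((144 * Real.pi + 128) * (C * CS) + 64 * (C * CS')) * (2 ^ (b + T) * ‖y - y'‖) *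
        (bbf β D cr y + bbf β D cr y') := by
    intro y y'
    refine (obu_lip hC hI hdat CS hCS hCS1 y y').trans ?_
    have h1 : ‖y - y'‖ / t = 2 * (2 ^ (b + T) * ‖y - y'‖) := by
      rw [div_eq_iff ht.ne', htdef]
      calc ‖y - y'‖ = ‖y - y'‖ * (2 ^ (b + T) * (1 / 2) ^ (b + T)) := by rw [hmul, mul_one]
        _ = _ := by ring
    rw [h1]
    refine mul_le_mul_of_nonneg_right ?_ (add_nonneg (hbb _) (hbb _))
    have h2 : 0 ≤ 2 ^ (b + T) * ‖y - y'‖ := by positivity
    have h3 : 128 * (C * CS) ≤ (144 * Real.pi + 128) * (C * CS) + 64 * (C * CS') := by nlinarith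
    calc 64 * C * CS * (2 * (2 ^ (b + T) * ‖y - y'‖))
        = 128 * (C * CS) * (2 ^ (b + T) * ‖y - y'‖) := by ring
      _ ≤ _ := mul_le_mul_of_nonneg_right h3 h2
  refine ⟨?_, ?_, hlip, ?_⟩
  · have hl : LipschitzWith (((144 * Real.pi + 128) * (C * CS) + 64 * (C * CS')) * 2 ^ (b + T) *
        2).toNNReal (fun y => ∫ x, f x * K t (y - x) ∂hm) := by
      apply LipschitzWith.of_dist_le'
      intro y y'
      rw [Real.dist_eq, dist_eq_norm]
      refine (hlip y y').trans ?_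
      have h1 : bbf β D cr y + bbf β D cr y' ≤ 2 := by
        linarith [obu_bbf_le β D (by linarith) cr y, obu_bbf_le β D (by linarith) cr y']
      have h2 : 0 ≤ ((144 * Real.pi + 128) * (C * CS) + 64 * (C * CS')) *
          (2 ^ (b + T) * ‖y - y'‖) := by positivity
      calc _ ≤ ((144 * Real.pi + 128) * (C * CS) + 64 * (C * CS')) *
          (2 ^ (b + T) * ‖y - y'‖) * 2 := mul_le_mul_of_nonneg_left h1 h2
        _ = _ := by ring
    exact hl.continuous
  · intro y
    refine (obu_size hC hI hdat CS hCS hCS1 y).trans ?_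
    refine mul_le_mul_of_nonneg_right ?_ (hbb y)
    have h1 : (1 / 2 : ℝ) ^ (b + T + e) / t = 2 * (1 / 2) ^ e := by
      rw [hg]; field_simp
    rw [h1]
    have h3 : 144 * Real.pi * (C * CS) ≤ (144 * Real.pi + 128) * (C * CS) + 64 * (C * CS') := by
      nlinarith
    calc 72 * Real.pi * C * CS * (2 * (1 / 2) ^ e) = 144 * Real.pi * (C * CS) * (1 / 2) ^ e := by
          ring
      _ ≤ _ := mul_le_mul_of_nonneg_right h3 (by positivity)
  · intro j i
    refine (obu_cells hC hI hO hdat CS' hCS' hCS'1 j i).trans ?_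
    have h1 : (1 / 2 : ℝ) ^ (b + T + e) ≤ (1 / 2) ^ e * (1 / 2) ^ b := by
      rw [← pow_add]
      exact pow_le_pow_of_le_one (by norm_num) (by norm_num) (by omega)
    have h3 : 64 * (C * CS') ≤ (144 * Real.pi + 128) * (C * CS) + 64 * (C * CS') := by
      nlinarith
    calc 64 * C * CS' * (1 / 2) ^ (b + T + e) ≤ 64 * C * CS' * ((1 / 2) ^ e * (1 / 2) ^ b) :=
          mul_le_mul_of_nonneg_left h1 (by positivity)
      _ = 64 * (C * CS') * ((1 / 2) ^ e * (1 / 2) ^ b) := by ring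
      _ ≤ ((144 * Real.pi + 128) * (C * CS) + 64 * (C * CS')) * ((1 / 2) ^ e * (1 / 2) ^ b) :=
          mul_le_mul_of_nonneg_right h3 (by positivity)
      _ = _ := by ring

end Pool.Agent.H729R2.FO
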