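import Mathlib
import Pool.Agent.H729R2.FO.Stubs

/-! Task OFF (helper317): off-diagonal sums. -/

set_option autoImplicit false

namespace Pool.Agent.H729R2.FO

open MeasureTheory Pool.Agent.H729R2.CB Pool.Agent.Helper150.Cub

open scoped Classical

noncomputable section

theorem off_ta_pos (β₀ b j : ℕ) : 0 < ta β₀ b j := by
  unfold ta; positivity

theorem off_ta_succ {β₀ : ℕ} (h : 3 ≤ β₀) (b j : ℕ) : 64 * ta β₀ b (j + 1) ≤ ta β₀ b j := by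
  unfold ta TT
  rw [Finset.sum_range_succ, ← add_assoc, pow_add (1 / 2 : ℝ) (b + ∑ i ∈ Finset.range j, be β₀ i)]
  have h1 : ((1 : ℝ) / 2) ^ be β₀ j ≤ (1 / 2) ^ 6 := by
    apply pow_le_pow_of_le_one (by norm_num) (by norm_num)
    unfold be
    have : 0 ≤ Nat.log 2 (j + 2) := Nat.zero_le _
    omega
  have h2 : (0 : ℝ) < (1 / 2) ^ (b + ∑ i ∈ Finset.range j, be β₀ i) := by positivity
  have h3 : ((1 : ℝ) / 2) ^ 6 = 1 / 64 := by norm_num
  rw [h3] at h1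
  nlinarith

theorem off_ta_pow {β₀ : ℕ} (h : 3 ≤ β₀) (b j n : ℕ) : 64 ^ n * ta β₀ b (j + n) ≤ ta β₀ b j := by
  induction n with
  | zero => simp
  | succ n ih =>
    have h1 := off_ta_succ h b (j + n)
    rw [← add_assoc, pow_succ]
    have h2 : (0 : ℝ) < 64 ^ n := by positivity
    calc (64 : ℝ) ^ n * 64 * ta β₀ b (j + n + 1) = 64 ^ n * (64 * ta β₀ b (j + n + 1)) := by ring
      _ ≤ 64 ^ n * ta β₀ b (j + n) := mul_le_mul_of_nonneg_left h1 h2.le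
      _ ≤ _ := ih

theorem off_ta_mono {β₀ : ℕ} (h : 3 ≤ β₀) (b j₀ : ℕ) {i i' : ℕ} (hi : i ≤ i') :
    ta β₀ b (j₀ + i') ≤ ta β₀ b (j₀ + i) := by
  obtain ⟨n, rfl⟩ := Nat.exists_eq_add_of_le hi
  have h1 := off_ta_pow h b (j₀ + i) n
  rw [← add_assoc]
  have h2 : (1 : ℝ) ≤ 64 ^ n := one_le_pow₀ (by norm_num)
  have h3 := off_ta_pos β₀ b (j₀ + i + n)
  nlinarith

/-- powers of the scales -/
theorem off_ta_rpow {β₀ : ℕ} (h : 3 ≤ β₀) {a : ℝ} (ha : 2 < a) (b j₀ i n : ℕ) :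
    (ta β₀ b (j₀ + i)) ^ (1 - a) ≤ (1 / 64) ^ n * (ta β₀ b (j₀ + i + n)) ^ (1 - a) := by
  have h1 := off_ta_pow h b (j₀ + i) n
  have h3 := off_ta_pos β₀ b (j₀ + i + n)
  have h4 : (0 : ℝ) < 64 ^ n := by positivity
  have h5 : (ta β₀ b (j₀ + i)) ^ (1 - a) ≤ (64 ^ n * ta β₀ b (j₀ + i + n)) ^ (1 - a) :=
    Real.rpow_le_rpow_of_nonpos (by positivity) h1 (by linarith)
  refine h5.trans ?_
  rw [Real.mul_rpow h4.le h3.le]
  apply mul_le_mul_of_nonneg_right _ (Real.rpow_nonneg h3.le _)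
  have h6 : ((64 : ℝ) ^ n) ^ (1 - a) ≤ ((64 : ℝ) ^ n) ^ (-1 : ℝ) :=
    Real.rpow_le_rpow_of_exponent_le (one_le_pow₀ (by norm_num)) (by linarith)
  refine h6.trans (le_of_eq ?_)
  rw [Real.rpow_neg_one, one_div, inv_pow]

theorem off_gg0 (β₀ b j₀ : ℕ) (Z : ℕ → Finset G) (ξ : G) : gg β₀ b j₀ Z 0 ξ = 1 := by
  simp [gg]

theorem off_gg_mono {β₀ b j₀ : ℕ} {X : Finset G} {Z : ℕ → Finset G} (hG : S_GGC) (hb : 1 ≤ β₀)
    (hZ : ∀ j, Reps β₀ b j X (Z j)) (ξ : G) {k k' : ℕ} (h : k ≤ k') :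
    gg β₀ b j₀ Z k' ξ ≤ gg β₀ b j₀ Z k ξ := by
  obtain ⟨n, rfl⟩ := Nat.exists_eq_add_of_le h
  induction n with
  | zero => exact le_rfl
  | succ n ih => exact ((hG β₀ b j₀ X Z hb hZ).2.2 (k + n) ξ).2.2.1.trans (ih (by omega))

theorem off_gg_pow {β₀ b j₀ : ℕ} {X : Finset G} {Z : ℕ → Finset G} (hG : S_GGC) (hb : 1 ≤ β₀)
    (hZ : ∀ j, Reps β₀ b j X (Z j)) (ξ : G) (k n : ℕ) :
    gg β₀ b j₀ Z k ξ ≤ 2 ^ n * gg β₀ b j₀ Z (k + n) ξ := by
  induction n with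
  | zero => simp
  | succ n ih =>
    have h1 := ((hG β₀ b j₀ X Z hb hZ).2.2 (k + n) ξ).2.2.2
    rw [← add_assoc, pow_succ]
    calc gg β₀ b j₀ Z k ξ ≤ 2 ^ n * gg β₀ b j₀ Z (k + n) ξ := ih
      _ ≤ 2 ^ n * (2 * gg β₀ b j₀ Z (k + n + 1) ξ) := by gcongr
      _ = _ := by ring

/-- the far part -/
theorem off_far (hC : S_COL) {a CH : ℝ} (ha : 2 < a) (ha3 : a ≤ 3) (hCH : 1 ≤ CH) {β₀ b j₀ : ℕ}
    {X : Finset G} {bb U : G → ℝ} {B : ℝ} (hcc : Hcc a CH β₀ b j₀ X bb U B) {σ : ℝ} (hσ : 0 < σ)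
    (hσ' : σ ≤ ta β₀ b j₀) {S : Finset G} (hS : Sepd σ S) (x : G) :
    ∑ ζ ∈ S.filter (fun ζ => ta β₀ b j₀ ≤ ‖x - ζ‖), bb ζ * ‖x - ζ‖ ^ (-a) ≤
      32 * CH * ((ta β₀ b j₀) ^ (1 - a) / σ) * bb x := by
  have ht := off_ta_pos β₀ b j₀
  set t := ta β₀ b j₀ with htt
  have h1 := hC a CH σ t S bb hσ hσ' (by linarith) hcc.bb0 hS hcc.sum x
  have h2 : ∀ ζ ∈ S.filter (fun ζ => t ≤ ‖x - ζ‖), bb ζ * ‖x - ζ‖ ^ (-a) ≤
      (2 / t) ^ a * (bb ζ * (1 + ‖x - ζ‖ / t) ^ (-a)) := by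
    intro ζ hζ
    have hd : t ≤ ‖x - ζ‖ := (Finset.mem_filter.1 hζ).2
    have hd0 : 0 < ‖x - ζ‖ := lt_of_lt_of_le ht hd
    have h3 : (2 / t * ‖x - ζ‖) ^ (-a) ≤ (1 + ‖x - ζ‖ / t) ^ (-a) := by
      apply Real.rpow_le_rpow_of_nonpos (by positivity) _ (by linarith)
      have h4 : 1 ≤ ‖x - ζ‖ / t := by rwa [one_le_div ht]
      have h5 : 2 / t * ‖x - ζ‖ = 2 * (‖x - ζ‖ / t) := by ring
      rw [h5]; linarith
    have h6 : ‖x - ζ‖ ^ (-a) = (2 / t) ^ a * (2 / t * ‖x - ζ‖) ^ (-a) := by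
      rw [Real.mul_rpow (by positivity) hd0.le, ← mul_assoc, Real.rpow_neg (by positivity : (0:ℝ) ≤ 2 / t),
        mul_inv_cancel₀ (Real.rpow_pos_of_pos (by positivity) _).ne', one_mul]
    rw [h6]
    have h7 : 0 ≤ (2 / t) ^ a := Real.rpow_nonneg (by positivity) _
    have h8 := hcc.bb0 ζ
    calc bb ζ * ((2 / t) ^ a * (2 / t * ‖x - ζ‖) ^ (-a)) =
        (2 / t) ^ a * (bb ζ * (2 / t * ‖x - ζ‖) ^ (-a)) := by ring
      _ ≤ _ := mul_le_mul_of_nonneg_left (mul_le_mul_of_nonneg_left h3 h8) h7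
  have h9 : 0 ≤ (2 / t) ^ a := Real.rpow_nonneg (by positivity) _
  have h10 : ∑ ζ ∈ S.filter (fun ζ => t ≤ ‖x - ζ‖), bb ζ * (1 + ‖x - ζ‖ / t) ^ (-a) ≤
      ∑ ζ ∈ S, bb ζ * (1 + ‖x - ζ‖ / t) ^ (-a) := by
    apply Finset.sum_le_sum_of_subset_of_nonneg (Finset.filter_subset _ _)
    intro i _ _
    exact mul_nonneg (hcc.bb0 i) (Real.rpow_nonneg (by positivity) _)
  have h11 : (2 / t) ^ a * t ≤ 8 * t ^ (1 - a) := by
    rw [Real.div_rpow (by norm_num) ht.le, Real.rpow_sub ht, Real.rpow_one]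
    have h12 : (2 : ℝ) ^ a ≤ 8 := by
      calc (2 : ℝ) ^ a ≤ 2 ^ (3 : ℝ) := Real.rpow_le_rpow_of_exponent_le (by norm_num) ha3
        _ = 8 := by norm_num
    have h13 : 0 < t ^ a := Real.rpow_pos_of_pos ht _
    calc (2 : ℝ) ^ a / t ^ a * t = 2 ^ a * (t / t ^ a) := by ring
      _ ≤ 8 * (t / t ^ a) := mul_le_mul_of_nonneg_right h12 (by positivity)
  calc _ ≤ ∑ ζ ∈ S.filter (fun ζ => t ≤ ‖x - ζ‖), (2 / t) ^ a * (bb ζ * (1 + ‖x - ζ‖ / t) ^ (-a)) :=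
        Finset.sum_le_sum h2
    _ = (2 / t) ^ a * ∑ ζ ∈ S.filter (fun ζ => t ≤ ‖x - ζ‖), bb ζ * (1 + ‖x - ζ‖ / t) ^ (-a) := by
        rw [Finset.mul_sum]
    _ ≤ (2 / t) ^ a * (4 * (t / σ) * CH * bb x) :=
        mul_le_mul_of_nonneg_left (h10.trans h1) h9
    _ = ((2 / t) ^ a * t) * (4 / σ * CH * bb x) := by ring
    _ ≤ (8 * t ^ (1 - a)) * (4 / σ * CH * bb x) := by
        apply mul_le_mul_of_nonneg_right h11
        have := hcc.bb0 x
        positivity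
    _ = _ := by ring

/-- the geometric sum -/
theorem off_geo (i₀ : ℕ) : ∑ i ∈ Finset.range i₀, (2 : ℝ) ^ (i₀ - i + 1) * (1 / 64) ^ (i₀ - i - 1) ≤ 5 := by
  have h1 : ∑ i ∈ Finset.range i₀, (2 : ℝ) ^ (i₀ - i + 1) * (1 / 64) ^ (i₀ - i - 1) =
      ∑ m ∈ Finset.range i₀, 4 * ((1 : ℝ) / 32) ^ m := by
    rw [← Finset.sum_range_reflect]
    apply Finset.sum_congr rfl
    intro m hm
    rw [Finset.mem_range] at hm
    have e1 : i₀ - (i₀ - 1 - m) + 1 = m + 2 := by omega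
    have e2 : i₀ - (i₀ - 1 - m) - 1 = m := by omega
    rw [e1, e2, pow_add]
    have : (2 : ℝ) ^ m * 2 ^ 2 * (1 / 64) ^ m = 4 * (2 * (1 / 64)) ^ m := by
      rw [mul_pow]; ring
    rw [this]
    norm_num
  rw [h1, ← Finset.mul_sum]
  have h2 : ∀ n : ℕ, ∑ m ∈ Finset.range n, ((1 : ℝ) / 32) ^ m ≤ 32 / 31 - 32 / 31 * (1 / 32) ^ n := by
    intro n
    induction n with
    | zero => simp
    | succ n ih =>
      rw [Finset.sum_range_succ, pow_succ]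
      have : (0 : ℝ) < (1 / 32) ^ n := by positivity
      linarith
  have h3 := h2 i₀
  have h4 : (0 : ℝ) < (1 / 32) ^ i₀ := by positivity
  linarith

theorem off_shell (t : ℕ → ℝ) (i₀ : ℕ) (d : ℝ) (h0 : d < t 0) (h1 : t i₀ ≤ d) :
    ∃ i < i₀, t (i + 1) ≤ d ∧ d < t i := by
  induction i₀ with
  | zero => exact absurd h0 (not_lt.2 h1)
  | succ n ih =>
    by_cases h : t n ≤ d
    · obtain ⟨i, hi, h2⟩ := ih h
      exact ⟨i, by omega, h2⟩
    · exact ⟨n, by omega, h1, not_le.1 h⟩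

theorem t_OFF (hS : S_SEP) (hC : S_COL) (hG : S_GGC) : S_OFF := by
  intro a CH ha ha3 hCH
  obtain ⟨CS, hCS, hsep, -⟩ := hS a (by linarith)
  refine ⟨7 * CH * CS + 32 * CH ^ 2, by nlinarith [mul_le_mul hCH hCS (by norm_num) (by linarith)], ?_⟩
  intro β₀ hβ b j₀ X Z bb U B hZ hcc
  have hb1 : 1 ≤ β₀ := by omega
  set t : ℕ → ℝ := fun i => ta β₀ b (j₀ + i) with ht
  have htp : ∀ i, 0 < t i := fun i => off_ta_pos _ _ _
  have htm : ∀ {i i' : ℕ}, i ≤ i' → t i' ≤ t i := fun h => off_ta_mono hβ b j₀ h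
  have hts : ∀ i, 2 * t (i + 1) ≤ t i := by
    intro i
    have h1 := off_ta_succ hβ b (j₀ + i)
    have h2 := htp (i + 1)
    have h3 : t (i + 1) = ta β₀ b (j₀ + i + 1) := rfl
    have h4 : t i = ta β₀ b (j₀ + i) := rfl
    rw [h3] at h2 ⊢
    rw [h4]
    linarith
  have ht0 : t 0 = ta β₀ b j₀ := rfl
  have hZs : ∀ k, Sepd (t k) (Z (j₀ + k)) := fun k x hx y hy hxy => (hZ (j₀ + k)).sep x hx y hy hxy
  have hZX : ∀ k, ∀ ζ ∈ Z (j₀ + k), ζ ∈ X := fun k ζ hζ => (hZ (j₀ + k)).sub hζ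
  obtain ⟨-, hg2, hg3⟩ := hG β₀ b j₀ X Z hb1 hZ
  have hgp : ∀ k ξ, 0 < gg β₀ b j₀ Z k ξ := fun k ξ => (hg3 k ξ).1
  have hg1 : ∀ k ξ, gg β₀ b j₀ Z k ξ ≤ 1 := fun k ξ => (hg3 k ξ).2.1
  constructor
  · intro k i₀ hik ξ hξ x hx ρ hρ hρ'
    have hσ := htp k
    have hρ0 : 0 < ρ := by
      have : ta β₀ b (j₀ + k) = t k := rfl
      rw [this] at hρ
      linarith
    have hσρ : t k ≤ 2 * ρ := by
      have : ta β₀ b (j₀ + k) = t k := rfl
      rw [this] at hρ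
      linarith
    have hxt : ‖x - ξ‖ ≤ t i₀ := hx
    have hρt : ρ ≤ t i₀ := hρ'
    show _ ≤ (7 * CH * CS + 32 * CH ^ 2) * (ρ ^ (1 - a) / t k) * (bb ξ * gg β₀ b j₀ Z i₀ ξ)
    set g := gg β₀ b j₀ Z i₀ ξ with hgdef
    have hgpos : 0 < g := hgp _ _
    have hbξ := hcc.bb0 ξ
    set P : ℝ := CH * bb ξ * g with hP
    have hP0 : 0 ≤ P := by positivity
    -- pointwise bound
    have hcmp : ∀ ζ ∈ Z (j₀ + k), ∀ i, i ≤ i₀ → ‖x - ζ‖ < t i → ρ ≤ ‖x - ζ‖ →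
        bb ζ * gg β₀ b j₀ Z k ζ ≤ P * 2 ^ (i₀ - i + 1) := by
      intro ζ hζ i hi hd hρd
      have hdist : ‖ζ - ξ‖ < 2 * t i := by
        have h1 : ζ - ξ = -(x - ζ) + (x - ξ) := by abel
        rw [h1]
        refine (norm_add_le _ _).trans_lt ?_
        rw [norm_neg]
        have := htm hi
        linarith
      have hbb : bb ζ ≤ CH * bb ξ := by
        apply hcc.har
        rw [← ht0]
        have := htm (Nat.zero_le i)
        linarith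
      have hgg : gg β₀ b j₀ Z k ζ ≤ 2 ^ (i₀ - i + 1) * g := by
        rcases Nat.eq_zero_or_pos i with h0 | h0
        · subst h0
          have h1 := off_gg_pow hG hb1 hZ ξ 0 i₀ (j₀ := j₀)
          rw [off_gg0, Nat.zero_add] at h1
          calc gg β₀ b j₀ Z k ζ ≤ 1 := hg1 _ _
            _ ≤ 2 ^ i₀ * g := h1
            _ ≤ 2 ^ (i₀ - 0 + 1) * g := by
                apply mul_le_mul_of_nonneg_right _ hgpos.le
                exact pow_le_pow_right₀ (by norm_num) (by omega)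
        · obtain ⟨i', rfl⟩ : ∃ i', i = i' + 1 := ⟨i - 1, by omega⟩
          have h1 : ‖ζ - ξ‖ < ta β₀ b (j₀ + i') := lt_of_lt_of_le hdist (hts i')
          have h2 := hg2 i' ζ (hZX k ζ hζ) ξ hξ h1
          have h3 := off_gg_pow hG hb1 hZ ξ i' (i₀ - i') (j₀ := j₀)
          rw [show i' + (i₀ - i') = i₀ by omega] at h3
          calc gg β₀ b j₀ Z k ζ ≤ gg β₀ b j₀ Z i' ζ := off_gg_mono hG hb1 hZ ζ (by omega)
            _ = gg β₀ b j₀ Z i' ξ := h2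
            _ ≤ 2 ^ (i₀ - i') * g := h3
            _ = 2 ^ (i₀ - (i' + 1) + 1) * g := by
                rw [show i₀ - i' = i₀ - (i' + 1) + 1 by omega]
      calc bb ζ * gg β₀ b j₀ Z k ζ ≤ (CH * bb ξ) * (2 ^ (i₀ - i + 1) * g) :=
            mul_le_mul hbb hgg (hgp _ _).le (by positivity)
        _ = _ := by rw [hP]; ring
    have hpt : ∀ ζ ∈ (Z (j₀ + k)).filter (fun ζ => ρ ≤ ‖x - ζ‖),
        bb ζ * gg β₀ b j₀ Z k ζ * ‖x - ζ‖ ^ (-a) ≤ P * 2 * ‖x - ζ‖ ^ (-a) +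
          ∑ i ∈ Finset.range i₀, P * 2 ^ (i₀ - i + 1) *
            (if t (i + 1) ≤ ‖x - ζ‖ then ‖x - ζ‖ ^ (-a) else 0) +
          (if t 0 ≤ ‖x - ζ‖ then bb ζ * ‖x - ζ‖ ^ (-a) else 0) := by
      intro ζ hζ
      obtain ⟨hζ1, hρd⟩ := Finset.mem_filter.1 hζ
      have hda : 0 ≤ ‖x - ζ‖ ^ (-a) := Real.rpow_nonneg (norm_nonneg _) _
      have hn1 : 0 ≤ P * 2 * ‖x - ζ‖ ^ (-a) := by positivity
      have hn2i : ∀ i ∈ Finset.range i₀, 0 ≤ P * 2 ^ (i₀ - i + 1) *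
            (if t (i + 1) ≤ ‖x - ζ‖ then ‖x - ζ‖ ^ (-a) else 0) := by
        intro i _
        split_ifs
        · positivity
        · simp
      have hn2 := Finset.sum_nonneg hn2i
      have hn3 : 0 ≤ (if t 0 ≤ ‖x - ζ‖ then bb ζ * ‖x - ζ‖ ^ (-a) else 0) := by
        split_ifs
        · exact mul_nonneg (hcc.bb0 ζ) hda
        · exact le_rfl
      by_cases h0 : t 0 ≤ ‖x - ζ‖
      · have h1 : bb ζ * gg β₀ b j₀ Z k ζ * ‖x - ζ‖ ^ (-a) ≤ bb ζ * ‖x - ζ‖ ^ (-a) := by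
          apply mul_le_mul_of_nonneg_right _ hda
          exact mul_le_of_le_one_right (hcc.bb0 ζ) (hg1 _ _)
        rw [if_pos h0]
        linarith
      · rw [not_le] at h0
        by_cases h1 : ‖x - ζ‖ < t i₀
        · have h2 := hcmp ζ hζ1 i₀ le_rfl h1 hρd
          rw [Nat.sub_self, Nat.zero_add, pow_one] at h2
          have h3 := mul_le_mul_of_nonneg_right h2 hda
          linarith
        · obtain ⟨i, hi, h2, h3⟩ := off_shell t i₀ _ h0 (not_lt.1 h1)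
          have h4 := mul_le_mul_of_nonneg_right (hcmp ζ hζ1 i hi.le h3 hρd) hda
          have h5 := Finset.single_le_sum hn2i (Finset.mem_range.2 hi)
          simp only [if_pos h2] at h5
          linarith
    have hsum1 := hsep ((Z (j₀ + k)).filter (fun ζ => ρ ≤ ‖x - ζ‖)) (t k) ρ x hσ hσρ
      (fun y hy z hz => hZs k y (Finset.mem_filter.1 hy).1 z (Finset.mem_filter.1 hz).1)
      (fun y hy => (Finset.mem_filter.1 hy).2)
    have hsum2 : ∀ i ∈ Finset.range i₀, ∑ ζ ∈ (Z (j₀ + k)).filter (fun ζ => ρ ≤ ‖x - ζ‖),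
        (if t (i + 1) ≤ ‖x - ζ‖ then ‖x - ζ‖ ^ (-a) else 0) ≤
          CS * ((1 / 64) ^ (i₀ - i - 1) * ρ ^ (1 - a)) / t k := by
      intro i hi
      rw [Finset.mem_range] at hi
      rw [← Finset.sum_filter]
      have h1 := hsep (((Z (j₀ + k)).filter (fun ζ => ρ ≤ ‖x - ζ‖)).filter
        (fun ζ => t (i + 1) ≤ ‖x - ζ‖)) (t k) (t (i + 1)) x hσ
        (by have := htm (show i + 1 ≤ k by omega); have := htp (i + 1); linarith)
        (fun y hy z hz => hZs k y (Finset.mem_filter.1 (Finset.mem_filter.1 hy).1).1 z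
          (Finset.mem_filter.1 (Finset.mem_filter.1 hz).1).1)
        (fun y hy => (Finset.mem_filter.1 hy).2)
      refine h1.trans ?_
      apply div_le_div_of_nonneg_right _ hσ.le
      apply mul_le_mul_of_nonneg_left _ (by linarith)
      have h2 := off_ta_rpow hβ ha b j₀ (i + 1) (i₀ - i - 1)
      rw [show j₀ + (i + 1) + (i₀ - i - 1) = j₀ + i₀ by omega] at h2
      refine h2.trans ?_
      apply mul_le_mul_of_nonneg_left _ (by positivity)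
      exact Real.rpow_le_rpow_of_nonpos hρ0 hρt (by linarith)
    have hsum3 : ∑ ζ ∈ (Z (j₀ + k)).filter (fun ζ => ρ ≤ ‖x - ζ‖),
        (if t 0 ≤ ‖x - ζ‖ then bb ζ * ‖x - ζ‖ ^ (-a) else 0) ≤
          32 * CH ^ 2 * (ρ ^ (1 - a) / t k) * (bb ξ * g) := by
      rw [← Finset.sum_filter]
      have h1 := off_far hC ha ha3 hCH hcc hσ (by rw [← ht0]; exact htm (Nat.zero_le k))
        (S := (Z (j₀ + k)).filter (fun ζ => ρ ≤ ‖x - ζ‖))
        (fun y hy z hz => hZs k y (Finset.mem_filter.1 hy).1 z (Finset.mem_filter.1 hz).1) x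
      refine h1.trans ?_
      have h2 : bb x ≤ CH * bb ξ := by
        apply hcc.har
        rw [← ht0]
        have := htm (Nat.zero_le i₀)
        have := htp 0
        linarith
      have h3 : (ta β₀ b j₀) ^ (1 - a) ≤ g * ρ ^ (1 - a) := by
        have h4 := off_ta_rpow hβ ha b j₀ 0 i₀
        rw [Nat.add_zero] at h4
        have h5 : (ta β₀ b (j₀ + i₀)) ^ (1 - a) ≤ ρ ^ (1 - a) :=
          Real.rpow_le_rpow_of_nonpos hρ0 hρt (by linarith)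
        have h6 : ((1 : ℝ) / 64) ^ i₀ ≤ g := by
          have h7 := off_gg_pow hG hb1 hZ ξ 0 i₀ (j₀ := j₀)
          rw [off_gg0, Nat.zero_add] at h7
          have h8 : ((1 : ℝ) / 64) ^ i₀ ≤ (1 / 2) ^ i₀ :=
            pow_le_pow_left₀ (by norm_num) (by norm_num) _
          have h9 : ((1 : ℝ) / 2) ^ i₀ * 2 ^ i₀ = 1 := by
            rw [← mul_pow]; norm_num
          have h10 : (0 : ℝ) < (1 / 2) ^ i₀ := by positivity
          calc ((1 : ℝ) / 64) ^ i₀ ≤ (1 / 2) ^ i₀ * 1 := by linarith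
            _ ≤ (1 / 2) ^ i₀ * (2 ^ i₀ * g) := mul_le_mul_of_nonneg_left h7 h10.le
            _ = g := by rw [← mul_assoc, h9, one_mul]
        calc (ta β₀ b j₀) ^ (1 - a) ≤ (1 / 64) ^ i₀ * (ta β₀ b (j₀ + i₀)) ^ (1 - a) := h4
          _ ≤ g * ρ ^ (1 - a) := mul_le_mul h6 h5
              (Real.rpow_nonneg (off_ta_pos _ _ _).le _) hgpos.le
      have h11 : 0 ≤ ρ ^ (1 - a) := Real.rpow_nonneg hρ0.le _
      calc 32 * CH * ((ta β₀ b j₀) ^ (1 - a) / t k) * bb x ≤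
          32 * CH * ((g * ρ ^ (1 - a)) / t k) * (CH * bb ξ) := by
            apply mul_le_mul _ h2 (hcc.bb0 x) (by positivity)
            apply mul_le_mul_of_nonneg_left _ (by linarith)
            exact div_le_div_of_nonneg_right h3 hσ.le
        _ = _ := by ring
    have h11 : 0 ≤ ρ ^ (1 - a) := Real.rpow_nonneg hρ0.le _
    have hCS0 : 0 ≤ CS := by linarith
    refine (Finset.sum_le_sum hpt).trans ?_
    rw [Finset.sum_add_distrib, Finset.sum_add_distrib, ← Finset.mul_sum, Finset.sum_comm]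
    have hmid : ∑ i ∈ Finset.range i₀, ∑ ζ ∈ (Z (j₀ + k)).filter (fun ζ => ρ ≤ ‖x - ζ‖),
        P * 2 ^ (i₀ - i + 1) * (if t (i + 1) ≤ ‖x - ζ‖ then ‖x - ζ‖ ^ (-a) else 0) ≤
        P * (CS * ρ ^ (1 - a) / t k) * 5 := by
      calc _ = ∑ i ∈ Finset.range i₀, P * 2 ^ (i₀ - i + 1) *
            ∑ ζ ∈ (Z (j₀ + k)).filter (fun ζ => ρ ≤ ‖x - ζ‖),
              (if t (i + 1) ≤ ‖x - ζ‖ then ‖x - ζ‖ ^ (-a) else 0) := by
            apply Finset.sum_congr rfl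
            intro i _
            rw [Finset.mul_sum]
        _ ≤ ∑ i ∈ Finset.range i₀, P * 2 ^ (i₀ - i + 1) *
            (CS * ((1 / 64) ^ (i₀ - i - 1) * ρ ^ (1 - a)) / t k) := by
            apply Finset.sum_le_sum
            intro i hi
            exact mul_le_mul_of_nonneg_left (hsum2 i hi) (by positivity)
        _ = P * (CS * ρ ^ (1 - a) / t k) *
            ∑ i ∈ Finset.range i₀, (2 : ℝ) ^ (i₀ - i + 1) * (1 / 64) ^ (i₀ - i - 1) := by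
            rw [Finset.mul_sum]
            apply Finset.sum_congr rfl
            intro i _
            ring
        _ ≤ _ := mul_le_mul_of_nonneg_left (off_geo i₀) (by positivity)
    have hfst : P * 2 * ∑ ζ ∈ (Z (j₀ + k)).filter (fun ζ => ρ ≤ ‖x - ζ‖), ‖x - ζ‖ ^ (-a) ≤
        P * 2 * (CS * ρ ^ (1 - a) / t k) := mul_le_mul_of_nonneg_left hsum1 (by positivity)
    have htot := add_le_add (add_le_add hfst hmid) hsum3
    refine htot.trans (le_of_eq ?_)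
    rw [hP]
    ring
  · intro k x hx
    show _ ≤ (7 * CH * CS + 32 * CH ^ 2) * (t 0 ^ (1 - a) / t k) * bb x
    have hσ := htp k
    have h1 := off_far hC ha ha3 hCH hcc hσ (by rw [← ht0]; exact htm (Nat.zero_le k))
      (hZs k) x
    have h2 : (Z (j₀ + k)).filter (fun ζ => ta β₀ b j₀ ≤ ‖x - ζ‖) = Z (j₀ + k) := by
      apply Finset.filter_true_of_mem
      intro ζ hζ
      exact hx ζ (hZX k ζ hζ)
    rw [h2] at h1
    refine h1.trans ?_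
    have h3 : 0 ≤ t 0 ^ (1 - a) / t k :=
      div_nonneg (Real.rpow_nonneg (htp 0).le _) hσ.le
    have h4 := hcc.bb0 x
    have h5 : 32 * CH ≤ 7 * CH * CS + 32 * CH ^ 2 := by nlinarith
    have h6 : 32 * CH * (t 0 ^ (1 - a) / t k) ≤
        (7 * CH * CS + 32 * CH ^ 2) * (t 0 ^ (1 - a) / t k) := mul_le_mul_of_nonneg_right h5 h3
    exact mul_le_mul_of_nonneg_right h6 h4

end

end Pool.Agent.H729R2.FO
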