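import Mathlib
import Pool.Agent.H729R2.FO.Stubs

set_option autoImplicit false

namespace Pool.Agent.H729R2.FO

open MeasureTheory Pool.Agent.H729R2.CB Pool.Agent.Helper150.Cub

open scoped Classical

noncomputable section

/-- continuous functions on the circle are integrable -/
theorem ona_int {f : G → ℝ} (hf : Continuous f) : Integrable f hm :=
  hf.integrable_of_hasCompactSupport (HasCompactSupport.of_compactSpace f)

/-- no node near a typical centre -/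
theorem ona_near {τ C₁ : ℝ} {β₀ J₁ D₀ b : ℕ} {X : Finset G} {cr : G → ℝ} (hg : Gau τ C₁ β₀ J₁ D₀ b X cr)
    (h1 : 1 ≤ C₁) {c : G} (hc : cr c < 1 / (2 * C₁)) {ξ : G} (hξ : ξ ∈ X) : (1/2:ℝ)^b ≤ ‖ξ - c‖ := by
  by_contra hlt
  push Not at hlt
  have h2 := hg.cnt c
  have h3 : 1 ≤ nn X c (2 * (1/2)^b) := by
    unfold nn
    rw [Nat.one_le_iff_ne_zero, Finset.card_ne_zero]
    refine ⟨ξ, Finset.mem_filter.2 ⟨hξ, ?_⟩⟩
    rw [norm_sub_rev]
    have : (0:ℝ) < (1/2)^b := by positivity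
    linarith
  have h4 : (1:ℝ) ≤ (nn X c (2 * (1/2)^b) : ℝ) := by exact_mod_cast h3
  have h5 : C₁ * cr c < 1 := by
    rw [lt_div_iff₀ (by positivity)] at hc
    nlinarith
  linarith

/-- the test function -/
def onaU (s : ℝ) (m : G → ℝ) (T : Finset G) (x : G) : ℝ := s * ∑ c ∈ T, m (x - c)

theorem ona_cont (s : ℝ) {m : G → ℝ} (hm' : Continuous m) (T : Finset G) : Continuous (onaU s m T) := by
  unfold onaU
  exact continuous_const.mul (continuous_finsetSum _ fun c _ => hm'.comp (continuous_id.sub continuous_const))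

theorem ona_Fc (s : ℝ) {F m : G → ℝ} (hF : Continuous F) (hm' : Continuous m) (T : Finset G) (ξ : G) :
    Fc F (onaU s m T) ξ = s * ∑ c ∈ T, Fc F m (ξ - c) := by
  unfold Fc onaU
  have h1 : ∀ t, (s * ∑ c ∈ T, m (t - c)) * F (ξ - t) = s * ∑ c ∈ T, m (t - c) * F (ξ - t) := by
    intro t
    rw [mul_assoc, Finset.sum_mul]
  simp_rw [h1]
  rw [integral_const_mul, integral_finsetSum]
  · congr 1
    refine Finset.sum_congr rfl fun c _ => ?_
    rw [← integral_sub_right_eq_self (fun t => m t * F (ξ - c - t)) c]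
    refine integral_congr_ae (Filter.Eventually.of_forall fun t => ?_)
    simp only
    congr 2
    abel
  · intro c _
    exact ona_int ((hm'.comp (continuous_id.sub continuous_const)).mul (hF.comp (continuous_const.sub continuous_id)))

theorem ona_mean (s : ℝ) {m : G → ℝ} (hm' : Continuous m) (T : Finset G) :
    ∫ x, onaU s m T x ∂hm = s * (T.card * ∫ x, m x ∂hm) := by
  unfold onaU
  rw [integral_const_mul, integral_finsetSum]
  · congr 1
    rw [Finset.sum_congr rfl fun c _ => integral_sub_right_eq_self m c]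
    simp
  · intro c _
    exact ona_int (hm'.comp (continuous_id.sub continuous_const))

theorem ona_cellint (s : ℝ) {m : G → ℝ} (hm' : Continuous m) (T : Finset G) (j i : ℕ) :
    ∫ x in Cell j i, onaU s m T x ∂hm = s * ∑ c ∈ T, ∫ x in Cell j i, m (x - c) ∂hm := by
  unfold onaU
  rw [integral_const_mul, integral_finsetSum]
  intro c _
  exact (ona_int (hm'.comp (continuous_id.sub continuous_const))).integrableOn

theorem ona_sum {a' CS : ℝ} (h1 : 1 ≤ CS) (h : ∀ (S : Finset G) (σ s : ℝ) (x : G), 0 < σ → 0 < s → Sepd σ S →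
      ∑ y ∈ S, (1 + ‖x - y‖ / s) ^ (-a') ≤ CS * (1 + s / σ)) {T : Finset G} {s : ℝ} (hs : 0 < s)
    (hT : Sepd (2 * Real.pi * s) T) (x : G) : ∑ y ∈ T, (1 + ‖x - y‖ / s) ^ (-a') ≤ 2 * CS := by
  have hpi := Real.pi_gt_three
  refine (h T _ s x (by positivity) hs hT).trans ?_
  have : s / (2 * Real.pi * s) ≤ 1 := by
    rw [div_le_one (by positivity)]
    nlinarith
  nlinarith

/-- lower bound for the majorant -/
theorem ona_bbf {τ β D w : ℝ} {cr : G → ℝ} {x c : G} (hβ : 0 < β) (hτ : 0 < τ) (hD : 1 ≤ D) (hw : 1 ≤ w)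
    (harn : cr x ≤ w ^ τ * cr c) (hc : cr c ≤ 1) : w ^ (-(τ * β)) ≤ bbf β D cr x := by
  unfold bbf
  have hw1 : 1 ≤ w ^ τ := Real.one_le_rpow hw hτ.le
  have h1 : cr x / D ≤ w ^ τ := by
    rw [div_le_iff₀ (by linarith)]
    nlinarith
  have h2 : max 1 (cr x / D) ≤ w ^ τ := max_le hw1 h1
  have h3 : w ^ (-(τ * β)) = (w ^ τ) ^ (-β) := by
    rw [← Real.rpow_mul (by linarith)]
    congr 1
    ring
  rw [h3]
  exact Real.rpow_le_rpow_of_nonpos (lt_of_lt_of_le one_pos (le_max_left _ _)) h2 (by linarith)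

/-- the majorant varies slowly -/
theorem ona_bbf2 {τ β D : ℝ} {cr : G → ℝ} {x ξ : G} (hβ : 0 < β) (hτ : 0 < τ) (hτβ : τ * β ≤ 2) (hD : 1 ≤ D)
    (harn : cr ξ ≤ 2 ^ τ * cr x) : bbf β D cr x ≤ 4 * bbf β D cr ξ := by
  unfold bbf
  have h20 : (1:ℝ) ≤ 2 ^ τ := Real.one_le_rpow (by norm_num) hτ.le
  have hm1 : (1:ℝ) ≤ max 1 (cr x / D) := le_max_left _ _
  have h1 : max 1 (cr ξ / D) ≤ 2 ^ τ * max 1 (cr x / D) := by
    refine max_le (by nlinarith) ?_
    have : cr ξ / D ≤ 2 ^ τ * (cr x / D) := by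
      rw [← mul_div_assoc]
      exact div_le_div_of_nonneg_right harn (by linarith)
    refine this.trans ?_
    exact mul_le_mul_of_nonneg_left (le_max_right _ _) (by linarith)
  have h2 : (2 ^ τ * max 1 (cr x / D)) ^ (-β) ≤ (max 1 (cr ξ / D)) ^ (-β) :=
    Real.rpow_le_rpow_of_nonpos (lt_of_lt_of_le one_pos (le_max_left _ _)) h1 (by linarith)
  rw [Real.mul_rpow (by linarith) (by linarith), ← Real.rpow_mul (by norm_num)] at h2
  have h3 : (1:ℝ) / 4 ≤ 2 ^ (τ * -β) := by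
    have : (2:ℝ) ^ (-(2:ℝ)) ≤ 2 ^ (τ * -β) := Real.rpow_le_rpow_of_exponent_le (by norm_num) (by linarith)
    refine le_trans ?_ this
    rw [Real.rpow_neg (by norm_num), Real.rpow_two]
    norm_num
  have h4 : 0 ≤ (max 1 (cr x / D)) ^ (-β) := Real.rpow_nonneg (by linarith) _
  nlinarith

/-- pointwise bound of the sums -/
theorem ona_pt {a τ β D CS s : ℝ} {cr : G → ℝ} {T : Finset G} (hβ : 0 < β) (hτ : 0 < τ) (hD : 1 ≤ D) (hs : 0 < s)
    (h1 : 1 ≤ CS) (h : ∀ (S : Finset G) (σ s : ℝ) (x : G), 0 < σ → 0 < s → Sepd σ S →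
      ∑ y ∈ S, (1 + ‖x - y‖ / s) ^ (-(a - τ * β)) ≤ CS * (1 + s / σ))
    (hT : Sepd (2 * Real.pi * s) T) (hcr : ∀ c ∈ T, 0 ≤ cr c ∧ cr c ≤ 1)
    (harn : ∀ x y, cr x ≤ (1 + ‖x - y‖ / s) ^ τ * cr y) (x : G) :
    ∑ y ∈ T, (1 + ‖x - y‖ / s) ^ (-a) ≤ 2 * CS * bbf β D cr x := by
  have hb0 : 0 ≤ bbf β D cr x := Real.rpow_nonneg (le_trans zero_le_one (le_max_left _ _)) _
  have h2 : ∀ y ∈ T, (1 + ‖x - y‖ / s) ^ (-a) ≤ bbf β D cr x * (1 + ‖x - y‖ / s) ^ (-(a - τ * β)) := by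
    intro y hy
    have hw : 1 ≤ 1 + ‖x - y‖ / s := by
      have : 0 ≤ ‖x - y‖ / s := by positivity
      linarith
    have h3 := ona_bbf (β := β) (D := D) hβ hτ hD hw (harn x y) (hcr y hy).2
    have h4 : (1 + ‖x - y‖ / s) ^ (-a) = (1 + ‖x - y‖ / s) ^ (-(τ * β)) * (1 + ‖x - y‖ / s) ^ (-(a - τ * β)) := by
      rw [← Real.rpow_add (by linarith)]
      congr 1
      ring
    rw [h4]
    exact mul_le_mul_of_nonneg_right h3 (Real.rpow_nonneg (by linarith) _)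
  calc ∑ y ∈ T, (1 + ‖x - y‖ / s) ^ (-a) ≤ ∑ y ∈ T, bbf β D cr x * (1 + ‖x - y‖ / s) ^ (-(a - τ * β)) :=
        Finset.sum_le_sum h2
    _ = bbf β D cr x * ∑ y ∈ T, (1 + ‖x - y‖ / s) ^ (-(a - τ * β)) := by rw [Finset.mul_sum]
    _ ≤ bbf β D cr x * (2 * CS) := mul_le_mul_of_nonneg_left (ona_sum h1 h hs hT x) hb0
    _ = 2 * CS * bbf β D cr x := by ring

theorem ona_U1 {a C s : ℝ} {m : G → ℝ} (hs : 0 < s) (hb : Bd a C s m) (T : Finset G) (x : G) :
    |onaU s m T x| ≤ C * ∑ y ∈ T, (1 + ‖x - y‖ / s) ^ (-a) := by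
  unfold onaU
  rw [abs_mul, abs_of_pos hs]
  calc s * |∑ c ∈ T, m (x - c)| ≤ s * ∑ c ∈ T, |m (x - c)| :=
        mul_le_mul_of_nonneg_left (Finset.abs_sum_le_sum_abs _ _) hs.le
    _ ≤ s * ∑ c ∈ T, C / s * (1 + ‖x - c‖ / s) ^ (-a) :=
        mul_le_mul_of_nonneg_left (Finset.sum_le_sum fun c _ => hb.bd (x - c)) hs.le
    _ = C * ∑ y ∈ T, (1 + ‖x - y‖ / s) ^ (-a) := by
        rw [← Finset.mul_sum, ← mul_assoc]
        congr 1
        field_simp

theorem ona_U2 {a C s : ℝ} {m : G → ℝ} (hs : 0 < s) (hb : Bd a C s m) (T : Finset G) (x y : G) :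
    |onaU s m T x - onaU s m T y| ≤ C * (‖x - y‖ / s) * (∑ z ∈ T, (1 + ‖x - z‖ / s) ^ (-a) +
      ∑ z ∈ T, (1 + ‖y - z‖ / s) ^ (-a)) := by
  unfold onaU
  rw [← mul_sub, ← Finset.sum_sub_distrib, abs_mul, abs_of_pos hs]
  calc s * |∑ c ∈ T, (m (x - c) - m (y - c))| ≤ s * ∑ c ∈ T, |m (x - c) - m (y - c)| :=
        mul_le_mul_of_nonneg_left (Finset.abs_sum_le_sum_abs _ _) hs.le
    _ ≤ s * ∑ c ∈ T, C / s * (‖x - y‖ / s) * ((1 + ‖x - c‖ / s) ^ (-a) + (1 + ‖y - c‖ / s) ^ (-a)) := by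
        refine mul_le_mul_of_nonneg_left (Finset.sum_le_sum fun c _ => ?_) hs.le
        have := hb.lip (x - c) (y - c)
        rwa [sub_sub_sub_cancel_right] at this
    _ = C * (‖x - y‖ / s) * (∑ z ∈ T, (1 + ‖x - z‖ / s) ^ (-a) + ∑ z ∈ T, (1 + ‖y - z‖ / s) ^ (-a)) := by
        rw [← Finset.mul_sum, Finset.sum_add_distrib, ← mul_assoc]
        congr 1
        field_simp

/-- the gauge function is integrable -/
theorem ona_crint {τ C₁ : ℝ} {β₀ J₁ D₀ b : ℕ} {X : Finset G} {cr : G → ℝ}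
    (hg : Gau τ C₁ β₀ J₁ D₀ b X cr) (hτ0 : 0 < τ) : Integrable cr hm := by
  have hc : Continuous (fun x : G => (1 + 2 ^ b * ‖x - 0‖) ^ τ * cr 0) := by
    refine Continuous.mul ?_ continuous_const
    refine Continuous.rpow_const ?_ (fun x => Or.inr hτ0.le)
    exact continuous_const.add (continuous_const.mul (continuous_norm.comp (continuous_id.sub continuous_const)))
  refine (ona_int hc).mono' hg.meas.aestronglyMeasurable (Filter.Eventually.of_forall fun x => ?_)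
  rw [Real.norm_eq_abs, abs_of_nonneg (hg.nonneg x)]
  exact hg.harn x 0

/-- most centres are typical -/
theorem ona_count (hC : S_CEL) (hI : S_CIN) {τ C₁ K₁ : ℝ} {β₀ J₁ D₀ b : ℕ} {X : Finset G} {cr : G → ℝ}
    (hg : Gau τ C₁ β₀ J₁ D₀ b X cr) (h1 : 1 ≤ C₁) (hτ0 : 0 < τ) (hτ : τ ≤ 2)
    (hK : 8 * C₁ ^ 2 * (1 + Real.pi) ^ 2 ≤ K₁) (hX : (X.card : ℝ) * K₁ ≤ 2 ^ b) :
    3 / 4 ≤ ((((Finset.range (2 ^ b)).filter (fun i => cr (cen b i) < 1 / (2 * C₁))).card : ℕ) : ℝ) * (1/2)^b := by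
  obtain ⟨cM, -, cH, -, -, -, cD, -⟩ := hC
  have hpi := Real.pi_gt_three
  set A := (Finset.range (2 ^ b)).filter (fun i => cr (cen b i) < 1 / (2 * C₁)) with hAd
  set B := (Finset.range (2 ^ b)).filter (fun i => ¬ cr (cen b i) < 1 / (2 * C₁)) with hBd
  have hAB : A.card + B.card = 2 ^ b := by
    rw [hAd, hBd, Finset.card_filter_add_card_filter_not, Finset.card_range]
  set s : ℝ := (1/2)^b with hs
  have hs0 : 0 < s := by positivity
  have h2s : (2:ℝ) ^ b * s = 1 := by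
    rw [hs, ← mul_pow]; norm_num
  have hint := ona_crint hg hτ0
  set κ : ℝ := 1 / (2 * C₁ * (1 + Real.pi) ^ 2) with hκ
  have hκ0 : 0 < κ := by positivity
  have hcell : ∀ i ∈ B, κ * s ≤ ∫ x in Cell b i, cr x ∂hm := by
    intro i hi
    rw [hBd, Finset.mem_filter, Finset.mem_range] at hi
    obtain ⟨hi1, hi2⟩ := hi
    push Not at hi2
    have h3 : ∀ x ∈ Cell b i, κ ≤ cr x := by
      intro x hx
      have hx' : cidx b x = i := hx
      have h4 := cD b x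
      rw [hx'] at h4
      have h5 := hg.harn (cen b i) x
      have h6 : 1 + 2 ^ b * ‖cen b i - x‖ ≤ 1 + Real.pi := by
        rw [norm_sub_rev]
        have : 2 ^ b * ‖x - cen b i‖ ≤ 2 ^ b * (Real.pi * s) := mul_le_mul_of_nonneg_left h4 (by positivity)
        have h7 : 2 ^ b * (Real.pi * s) = Real.pi := by
          rw [mul_left_comm, h2s, mul_one]
        linarith
      have h60 : 0 ≤ 2 ^ b * ‖cen b i - x‖ := by positivity
      have h7 : (1 + 2 ^ b * ‖cen b i - x‖) ^ τ ≤ (1 + Real.pi) ^ 2 := by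
        calc (1 + 2 ^ b * ‖cen b i - x‖) ^ τ ≤ (1 + Real.pi) ^ τ :=
              Real.rpow_le_rpow (by linarith) h6 hτ0.le
          _ ≤ (1 + Real.pi) ^ (2:ℝ) := Real.rpow_le_rpow_of_exponent_le (by linarith) hτ
          _ = (1 + Real.pi) ^ 2 := Real.rpow_two _
      have h8 : 1 / (2 * C₁) ≤ (1 + Real.pi) ^ 2 * cr x :=
        hi2.trans (h5.trans (mul_le_mul_of_nonneg_right h7 (hg.nonneg x)))
      rw [hκ, div_le_iff₀ (by positivity)]
      rw [div_le_iff₀ (by positivity)] at h8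
      linarith
    have h9 := setIntegral_ge_of_const_le_real (cM b i) (measure_ne_top hm _) h3 hint.integrableOn
    have h10 : hm.real (Cell b i) = s := cH b i hi1
    rwa [h10] at h9
  have hkey : (B.card : ℝ) * (κ * s) ≤ ∫ x, cr x ∂hm := by
    rw [(hI cr hint).1 b]
    calc (B.card : ℝ) * (κ * s) = ∑ _i ∈ B, κ * s := by rw [Finset.sum_const, nsmul_eq_mul]
      _ ≤ ∑ i ∈ B, ∫ x in Cell b i, cr x ∂hm := Finset.sum_le_sum hcell
      _ ≤ ∑ i ∈ Finset.range (2 ^ b), ∫ x in Cell b i, cr x ∂hm := by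
          refine Finset.sum_le_sum_of_subset_of_nonneg (Finset.filter_subset _ _) fun i _ _ => ?_
          exact integral_nonneg fun x => hg.nonneg x
  have h11 : (B.card : ℝ) * (κ * s) ≤ C₁ * X.card * s := hkey.trans hg.int
  have h12 : (X.card : ℝ) * K₁ * s ≤ 1 := by
    rw [← h2s]
    exact mul_le_mul_of_nonneg_right hX hs0.le
  have h13 : (B.card : ℝ) * s ≤ 1 / 4 := by
    have h14 : (B.card : ℝ) * s = (B.card : ℝ) * (κ * s) * (2 * C₁ * (1 + Real.pi) ^ 2) := by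
      rw [hκ]; field_simp
    have h15 : (B.card : ℝ) * s ≤ C₁ * X.card * s * (2 * C₁ * (1 + Real.pi) ^ 2) := by
      rw [h14]
      exact mul_le_mul_of_nonneg_right h11 (by positivity)
    have h16 : C₁ * X.card * s * (2 * C₁ * (1 + Real.pi) ^ 2) =
        (8 * C₁ ^ 2 * (1 + Real.pi) ^ 2) * (X.card * s) / 4 := by ring
    have h17 : (8 * C₁ ^ 2 * (1 + Real.pi) ^ 2) * (X.card * s) ≤ K₁ * (X.card * s) :=
      mul_le_mul_of_nonneg_right hK (by positivity)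
    nlinarith
  have h18 : ((A.card : ℝ) + B.card) * s = 1 := by
    have : ((A.card : ℝ) + B.card) = 2 ^ b := by exact_mod_cast hAB
    rw [this, h2s]
  linarith

/-- integrals of the test function over the cells -/
theorem ona_cell (hC : S_CEL) {a C CA CS' s : ℝ} {m : G → ℝ} {T : Finset G} {b : ℕ} {r : ℝ} (hs : 0 < s)
    (h1 : 1 ≤ CS') (hC0 : 0 ≤ C) (hCA : 0 ≤ CA)
    (h : ∀ (S : Finset G) (σ s : ℝ) (x : G), 0 < σ → 0 < s → Sepd σ S →
      ∑ y ∈ S, (1 + ‖x - y‖ / s) ^ (-(a - 1)) ≤ CS' * (1 + s / σ))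
    (hA : ∀ j i, i < 2 ^ j → ∀ y : G, |∫ x in Cell j i, m (x - y) ∂hm| ≤ CA * C *
      ((1 + ‖y - endp j i‖ / s) ^ (1 - a) + (1 + ‖y - endp j (i + 1)‖ / s) ^ (1 - a)) + |∫ x, m x ∂hm|)
    (hm' : Continuous m) (hmean : ∫ x, m x ∂hm = s ^ r) (hT : Sepd (2 * Real.pi * s) T)
    (hTc : (T.card : ℝ) ≤ 2 ^ b) (hbs : 2 ^ b * s ^ r ≤ 1) (j i : ℕ) :
    |∫ x in Cell j i, onaU s m T x ∂hm| ≤ (4 * CA * C * CS' + 1) * s := by
  have hpos : 0 ≤ (4 * CA * C * CS' + 1) * s := by positivity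
  by_cases hi : i < 2 ^ j
  · rw [ona_cellint s hm', abs_mul, abs_of_pos hs]
    have hsum : ∀ e : G, ∑ y ∈ T, (1 + ‖y - e‖ / s) ^ (1 - a) ≤ 2 * CS' := by
      intro e
      have := ona_sum h1 h hs hT e
      refine le_trans (le_of_eq ?_) this
      refine Finset.sum_congr rfl fun y _ => ?_
      rw [norm_sub_rev]
      congr 1
      ring
    have h2 : |∑ c ∈ T, ∫ x in Cell j i, m (x - c) ∂hm| ≤ CA * C * (2 * CS' + 2 * CS') + 1 := by
      calc |∑ c ∈ T, ∫ x in Cell j i, m (x - c) ∂hm| ≤ ∑ c ∈ T, |∫ x in Cell j i, m (x - c) ∂hm| :=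
            Finset.abs_sum_le_sum_abs _ _
        _ ≤ ∑ c ∈ T, (CA * C * ((1 + ‖c - endp j i‖ / s) ^ (1 - a) + (1 + ‖c - endp j (i + 1)‖ / s) ^ (1 - a))
              + s ^ r) := by
            refine Finset.sum_le_sum fun c _ => ?_
            have := hA j i hi c
            rwa [hmean, abs_of_nonneg (Real.rpow_nonneg hs.le r)] at this
        _ = CA * C * (∑ c ∈ T, (1 + ‖c - endp j i‖ / s) ^ (1 - a) +
              ∑ c ∈ T, (1 + ‖c - endp j (i + 1)‖ / s) ^ (1 - a)) + T.card * s ^ r := by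
            rw [Finset.sum_add_distrib, ← Finset.mul_sum, Finset.sum_add_distrib, Finset.sum_const, nsmul_eq_mul]
        _ ≤ CA * C * (2 * CS' + 2 * CS') + 1 := by
            have h3 : (T.card : ℝ) * s ^ r ≤ 1 :=
              (mul_le_mul_of_nonneg_right hTc (Real.rpow_nonneg hs.le r)).trans hbs
            have h4 := mul_le_mul_of_nonneg_left (add_le_add (hsum (endp j i)) (hsum (endp j (i + 1))))
              (mul_nonneg hCA hC0)
            linarith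
    calc s * |∑ c ∈ T, ∫ x in Cell j i, m (x - c) ∂hm| ≤ s * (CA * C * (2 * CS' + 2 * CS') + 1) :=
          mul_le_mul_of_nonneg_left h2 hs.le
      _ = (4 * CA * C * CS' + 1) * s := by ring
  · have : Cell j i = ∅ := by
      ext x
      simp only [Set.mem_empty_iff_false, iff_false]
      intro hx
      exact hi (hx ▸ hC.2.1 j x)
    rw [this, setIntegral_empty, abs_zero]
    exact hpos

theorem t_ONA (hD : S_DEC) (hC : S_CEL) (hI : S_CIN) (hS : S_SEP) (hA : S_ARC) : S_ONA := by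
  intro r a C z₀ F M K Y hK τ β C₁ hτ hβ hβ2 hτβ hC1
  obtain ⟨C₃, β₁, hC3, -, hDEC⟩ := hD r a C z₀ F M K Y hK τ β C₁ hτ hβ hβ2 hτβ hC1
  obtain ⟨J₂, -, hDEC⟩ := hDEC 0
  have ha2 := hK.ha
  have ha3 := hK.ha3
  have hC0 : 1 ≤ C := hK.hC
  have hr := hK.hr
  obtain ⟨CS, hCS, -, hSEP⟩ := hS (a - τ * β) (by linarith)
  obtain ⟨CS', hCS', -, hSEP'⟩ := hS (a - 1) (by linarith)
  obtain ⟨CA, hCA, hARC⟩ := hA a ha2 ha3
  have hpi := Real.pi_gt_three
  obtain ⟨A, hAd⟩ : ∃ A : ℝ, A = 16 * C * CS + 4 * CA * C * CS' + 1 := ⟨_, rfl⟩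
  have hA1 : 1 ≤ A := by
    have h1 : 0 ≤ 16 * C * CS := by positivity
    have h2 : 0 ≤ 4 * CA * C * CS' := by positivity
    linarith
  have hA2 : 4 * CA * C * CS' + 1 ≤ A := by
    have h1 : 0 ≤ 16 * C * CS := by positivity
    linarith
  have hA3 : 16 * C * CS ≤ A := by
    have h2 : 0 ≤ 4 * CA * C * CS' := by positivity
    linarith
  have hτ2 : τ ≤ 2 := by nlinarith
  have hCA1 : 1 ≤ C₃ * A := by nlinarith
  refine ⟨C₃ * A, 1 / 2, 8 * C₁ ^ 2 * (1 + Real.pi) ^ 2 + 4 * (C₃ * A), β₁, J₂, hCA1, by norm_num, ?_, ?_⟩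
  · have : 0 ≤ 8 * C₁ ^ 2 * (1 + Real.pi) ^ 2 := by positivity
    linarith
  intro β₀ J₁ D₀ b L X cr h H c₁ hβ0 hJ1 hD0 hbz hLb hX hg hh hhH hc1 hEQ
  obtain ⟨s, hs⟩ : ∃ s : ℝ, s = (1 / 2) ^ b := ⟨_, rfl⟩
  have hs0 : 0 < s := by rw [hs]; positivity
  have hs1 : s ≤ 1 := by rw [hs]; exact pow_le_one₀ (by norm_num) (by norm_num)
  have h2s : (2:ℝ) ^ b * s = 1 := by
    rw [hs, ← mul_pow]; norm_num
  have hsb : ∀ v : ℝ, v / s = 2 ^ b * v := by
    intro v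
    rw [div_eq_iff hs0.ne']
    calc v = 2 ^ b * s * v := by rw [h2s, one_mul]
      _ = 2 ^ b * v * s := by ring
  have harn : ∀ x y, cr x ≤ (1 + ‖x - y‖ / s) ^ τ * cr y := by
    intro x y
    rw [hsb]
    exact hg.harn x y
  have hKbig : 0 ≤ 8 * C₁ ^ 2 * (1 + Real.pi) ^ 2 := by positivity
  -- the typical centres
  obtain ⟨Typ, hTyp⟩ : ∃ Typ : Finset ℕ, Typ = (Finset.range (2 ^ b)).filter
    (fun i => cr (cen b i) < 1 / (2 * C₁)) := ⟨_, rfl⟩
  have hcount := ona_count (K₁ := 8 * C₁ ^ 2 * (1 + Real.pi) ^ 2 + 4 * (C₃ * A)) hC hI hg hC1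
    (by linarith) hτ2 (by linarith) hX
  rw [← hTyp, ← hs] at hcount
  obtain ⟨T, hTd⟩ : ∃ T : Finset G, T = Typ.image (cen b) := ⟨_, rfl⟩
  have hsepc : ∀ i i', i < 2 ^ b → i' < 2 ^ b → i ≠ i' → 2 * Real.pi * s ≤ ‖cen b i - cen b i'‖ := by
    intro i i' hi hi' hne
    rw [hs]
    exact hC.2.2.2.2.2.2.2 b i i' hi hi' hne
  have hTypR : ∀ i ∈ Typ, i < 2 ^ b := by
    intro i hi
    rw [hTyp, Finset.mem_filter, Finset.mem_range] at hi
    exact hi.1
  have hinj : Set.InjOn (cen b) (Typ : Set ℕ) := by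
    intro i hi i' hi' hEq
    by_contra hne
    have := hsepc i i' (hTypR i hi) (hTypR i' hi') hne
    rw [hEq, sub_self, norm_zero] at this
    have : 0 < 2 * Real.pi * s := by positivity
    linarith
  have hTcard : T.card = Typ.card := by rw [hTd]; exact Finset.card_image_of_injOn hinj
  have hTsep : Sepd (2 * Real.pi * s) T := by
    intro x hx y hy hxy
    rw [hTd, Finset.mem_image] at hx hy
    obtain ⟨i, hi, rfl⟩ := hx
    obtain ⟨i', hi', rfl⟩ := hy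
    exact hsepc i i' (hTypR i hi) (hTypR i' hi') (fun hne => hxy (by rw [hne]))
  have hTlt : ∀ c ∈ T, cr c < 1 / (2 * C₁) := by
    intro c hc
    rw [hTd, Finset.mem_image] at hc
    obtain ⟨i, hi, rfl⟩ := hc
    rw [hTyp, Finset.mem_filter] at hi
    exact hi.2
  have hTcr : ∀ c ∈ T, 0 ≤ cr c ∧ cr c ≤ 1 := by
    intro c hc
    refine ⟨hg.nonneg c, (hTlt c hc).le.trans ?_⟩
    rw [div_le_one (by positivity)]
    linarith
  have hTc : (T.card : ℝ) ≤ 2 ^ b := by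
    rw [hTcard, hTyp]
    have := Finset.card_filter_le (Finset.range (2 ^ b)) (fun i => cr (cen b i) < 1 / (2 * C₁))
    rw [Finset.card_range] at this
    exact_mod_cast this
  have hTs : 3 / 4 ≤ (T.card : ℝ) * s := by rw [hTcard]; exact hcount
  -- the kernel
  have hMb := hK.Mb s hs0 hs1
  have hMc := hMb.cont
  have hMm := hK.Mm s hs0 hs1
  obtain ⟨U, hU⟩ : ∃ U : G → ℝ, U = onaU s (M s) T := ⟨_, rfl⟩
  have hUc : Continuous U := by rw [hU]; exact ona_cont s hMc T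
  obtain ⟨D, hDd⟩ : ∃ D : ℝ, D = (D₀ : ℝ) * 2 ^ 0 := ⟨_, rfl⟩
  have hD1 : 1 ≤ D := by
    rw [hDd, pow_zero, mul_one]
    exact_mod_cast hD0
  have hpt : ∀ x, ∑ y ∈ T, (1 + ‖x - y‖ / s) ^ (-a) ≤ 2 * CS * bbf β D cr x := fun x =>
    ona_pt (by linarith) (by linarith) hD1 hs0 hCS hSEP hTsep hTcr harn x
  have hbb0 : ∀ x, 0 ≤ bbf β D cr x := fun x => Real.rpow_nonneg (le_trans zero_le_one (le_max_left _ _)) _
  have hUb : ∀ x, |U x| ≤ A * bbf β D cr x := by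
    intro x
    rw [hU]
    calc |onaU s (M s) T x| ≤ C * ∑ y ∈ T, (1 + ‖x - y‖ / s) ^ (-a) := ona_U1 hs0 hMb T x
      _ ≤ C * (2 * CS * bbf β D cr x) := mul_le_mul_of_nonneg_left (hpt x) (by linarith)
      _ = (2 * C * CS) * bbf β D cr x := by ring
      _ ≤ A * bbf β D cr x := by
          refine mul_le_mul_of_nonneg_right ?_ (hbb0 x)
          have h2 : 0 ≤ 14 * C * CS := by positivity
          linarith
  have hta : ta β₀ b 0 = s := by
    rw [hs]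
    simp [ta, TT]
  have hUl : ∀ ξ ∈ X, ∀ x y, ‖x - ξ‖ ≤ ta β₀ b 0 → ‖y - ξ‖ ≤ ta β₀ b 0 →
      |U x - U y| ≤ A * bbf β D cr ξ * (‖x - y‖ / ta β₀ b 0) := by
    intro ξ _ x y hx hy
    rw [hta] at hx hy ⊢
    have hcmp : ∀ z, ‖z - ξ‖ ≤ s → bbf β D cr z ≤ 4 * bbf β D cr ξ := by
      intro z hz
      refine ona_bbf2 (τ := τ) (by linarith) (by linarith) (by linarith) hD1 ?_
      refine (harn ξ z).trans (mul_le_mul_of_nonneg_right ?_ (hg.nonneg z))
      refine Real.rpow_le_rpow (by positivity) ?_ (by linarith)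
      rw [norm_sub_rev]
      have : ‖z - ξ‖ / s ≤ 1 := (div_le_one hs0).2 hz
      linarith
    rw [hU]
    have h1 := ona_U2 hs0 hMb T x y
    have h2 : ∑ z ∈ T, (1 + ‖x - z‖ / s) ^ (-a) + ∑ z ∈ T, (1 + ‖y - z‖ / s) ^ (-a) ≤
        16 * CS * bbf β D cr ξ := by
      have h3 := hpt x
      have h4 := hpt y
      have h5 := mul_le_mul_of_nonneg_left (hcmp x hx) (by positivity : 0 ≤ 2 * CS)
      have h6 := mul_le_mul_of_nonneg_left (hcmp y hy) (by positivity : 0 ≤ 2 * CS)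
      linarith
    have h0 : 0 ≤ C * (‖x - y‖ / s) := by positivity
    calc |onaU s (M s) T x - onaU s (M s) T y| ≤ C * (‖x - y‖ / s) * (16 * CS * bbf β D cr ξ) :=
          h1.trans (mul_le_mul_of_nonneg_left h2 h0)
      _ = (16 * C * CS) * (bbf β D cr ξ * (‖x - y‖ / s)) := by ring
      _ ≤ A * (bbf β D cr ξ * (‖x - y‖ / s)) :=
          mul_le_mul_of_nonneg_right hA3 (mul_nonneg (hbb0 ξ) (by positivity))
      _ = A * bbf β D cr ξ * (‖x - y‖ / s) := by ring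
  have hbs : 2 ^ b * s ^ r ≤ 1 := by
    have h1 : s ^ r ≤ s := by
      calc s ^ r ≤ s ^ (1:ℝ) := Real.rpow_le_rpow_of_exponent_ge hs0 hs1 hr.le
        _ = s := Real.rpow_one s
    calc 2 ^ b * s ^ r ≤ 2 ^ b * s := mul_le_mul_of_nonneg_left h1 (by positivity)
      _ = 1 := h2s
  have hUcell : ∀ j i, |∫ x in Cell j i, U x ∂hm| ≤ A * (1 / 2) ^ b := by
    intro j i
    rw [hU, ← hs]
    refine (ona_cell hC hs0 hCS' (by linarith) (by linarith) hSEP'
      (hARC C s (M s) (by linarith) hs0 hs1 hMb).2 hMc hMm hTsep hTc hbs j i).trans ?_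
    exact mul_le_mul_of_nonneg_right hA2 hs0.le
  have hfin := hDEC β₀ J₁ D₀ b L 0 0 X cr U h A H c₁ hβ0 hJ1 hD0 hbz hLb (Nat.zero_le _) (Nat.zero_le _) hg hUc
    (by linarith) (by rw [← hDd]; exact hUb) (by rw [← hDd]; exact hUl) hUcell hh hhH hc1 hEQ
  -- the weak equation
  have hUB : ∃ B, ∀ x, |U x| ≤ B := by
    obtain ⟨B, hB⟩ := isCompact_univ.exists_bound_of_continuousOn hUc.continuousOn
    exact ⟨B, fun x => hB x (Set.mem_univ x)⟩
  have hnode : ∀ ξ ∈ X, Fc F U ξ = 0 := by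
    intro ξ hξ
    rw [hU, ona_Fc s hK.Fcont hMc]
    rw [Finset.sum_eq_zero, mul_zero]
    intro c hc
    refine hK.Ms s hs0 hs1 _ ?_
    rw [hs]
    exact ona_near hg hC1 (hTlt c hc) hξ
  have heq := hEQ U hUc.measurable hUB hnode
  have hmean : ∫ x, U x ∂hm = s * (T.card * s ^ r) := by
    rw [hU, ona_mean s hMc, hMm]
  rw [hmean] at heq
  have hsr0 : 0 ≤ s ^ r := Real.rpow_nonneg hs0.le r
  have hcs : 0 ≤ c₁ * s ^ r := mul_nonneg hc1 hsr0
  have hlow : 3 / 4 * (c₁ * s ^ r) ≤ |∫ x, h x * U x ∂hm| := by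
    rw [heq]
    have h1 : |-c₁ * (s * (T.card * s ^ r))| = (T.card * s) * (c₁ * s ^ r) := by
      rw [show -c₁ * (s * (T.card * s ^ r)) = - ((T.card * s) * (c₁ * s ^ r)) by ring, abs_neg,
        abs_of_nonneg (by positivity)]
    rw [h1]
    exact mul_le_mul_of_nonneg_right hTs hcs
  have hXs : (X.card : ℝ) * s * (4 * (C₃ * A)) ≤ 1 := by
    have h1 : (X.card : ℝ) * (8 * C₁ ^ 2 * (1 + Real.pi) ^ 2 + 4 * (C₃ * A)) * s ≤ 2 ^ b * s :=
      mul_le_mul_of_nonneg_right hX hs0.le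
    rw [h2s] at h1
    have h2 : 0 ≤ (X.card : ℝ) * (8 * C₁ ^ 2 * (1 + Real.pi) ^ 2) * s := by positivity
    have h3 : (X.card : ℝ) * (8 * C₁ ^ 2 * (1 + Real.pi) ^ 2 + 4 * (C₃ * A)) * s =
      (X.card : ℝ) * (8 * C₁ ^ 2 * (1 + Real.pi) ^ 2) * s + (X.card : ℝ) * s * (4 * (C₃ * A)) := by ring
    linarith
  have hIcc : Finset.Icc 0 L = Finset.range (L + 1) := by
    ext x
    simp
  rw [hIcc, ← hs, Real.rpow_add hs0, Real.rpow_one] at hfin
  rw [← hs]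
  generalize (∑ l ∈ Finset.range (L + 1), WW (2 ^ (-β)) 0 l *
    NN b (D₀ * 2 ^ l) (Gs β₀ J₁ (D₀ * 2 ^ l) b X cr) h) + WW (2 ^ (-β)) 0 L * H = Q at hfin ⊢
  have h4 : C₃ * A * (Q + c₁ * X.card * (s * s ^ r)) =
      C₃ * A * Q + (X.card * s * (4 * (C₃ * A))) * (c₁ * s ^ r) / 4 := by ring
  have h5 := mul_le_mul_of_nonneg_right hXs hcs
  have h6 := hlow.trans hfin
  rw [h4] at h6
  linarith

end

end Pool.Agent.H729R2.FO
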