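import Mathlib
import Pool.Agent.H729R2.FO.Stubs

set_option autoImplicit false

namespace Pool.Agent.H729R2.FO

open MeasureTheory Pool.Agent.H729R2.CB Pool.Agent.Helper150.Cub

open scoped Classical

noncomputable section

/-! ### Integrals -/

theorem onb_intg (f : G → ℝ) (hf : Measurable f) (B : ℝ) (hB : ∀ x, |f x| ≤ B) :
    Integrable f hm :=
  Integrable.of_bound hf.aestronglyMeasurable B (ae_of_all _ (fun x => by
    rw [Real.norm_eq_abs]; exact hB x))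

theorem onb_bdd (K : G → ℝ) (hK : Continuous K) : ∃ B, 0 ≤ B ∧ ∀ x, |K x| ≤ B := by
  obtain ⟨B, hB⟩ := isCompact_univ.exists_bound_of_continuousOn (hK.continuousOn (s := Set.univ))
  exact ⟨max B 0, le_max_right _ _, fun x => (hB x (Set.mem_univ x)).trans (le_max_left _ _)⟩

theorem onb_fub (w f K : G → ℝ) (hw : Measurable w) (hf : Measurable f) (hK : Continuous K)
    (Bw Bf : ℝ) (hBw : ∀ x, |w x| ≤ Bw) (hBf : ∀ x, |f x| ≤ Bf) :
    ∫ y, w y * (∫ x, f x * K (y - x) ∂hm) ∂hm = ∫ x, f x * (∫ y, w y * K (y - x) ∂hm) ∂hm := by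
  obtain ⟨BK, hBK0, hBK⟩ := onb_bdd K hK
  have h1 : ∀ y, w y * (∫ x, f x * K (y - x) ∂hm) = ∫ x, w y * (f x * K (y - x)) ∂hm :=
    fun y => (integral_const_mul _ _).symm
  have h2 : ∀ x, f x * (∫ y, w y * K (y - x) ∂hm) = ∫ y, w y * (f x * K (y - x)) ∂hm := by
    intro x
    rw [← integral_const_mul]
    congr 1
    ext y
    ring
  simp only [h1, h2]
  apply integral_integral_swap
  have hBw0 : 0 ≤ Bw := (abs_nonneg _).trans (hBw 0)
  have hBf0 : 0 ≤ Bf := (abs_nonneg _).trans (hBf 0)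
  apply Integrable.of_bound (C := Bw * (Bf * BK))
  · apply Measurable.aestronglyMeasurable
    exact (hw.comp measurable_fst).mul ((hf.comp measurable_snd).mul
      (hK.measurable.comp (measurable_fst.sub measurable_snd)))
  · apply ae_of_all
    rintro ⟨y, x⟩
    simp only [Function.uncurry]
    rw [Real.norm_eq_abs, abs_mul, abs_mul]
    exact mul_le_mul (hBw y) (mul_le_mul (hBf x) (hBK _) (abs_nonneg _) hBf0)
      (by positivity) hBw0

theorem onb_cont1 (f K : G → ℝ) (hf : Measurable f) (hK : Continuous K)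
    (Bf : ℝ) (hBf : ∀ x, |f x| ≤ Bf) : Continuous (fun y => ∫ x, f x * K (y - x) ∂hm) := by
  obtain ⟨BK, hBK0, hBK⟩ := onb_bdd K hK
  have hBf0 : 0 ≤ Bf := (abs_nonneg _).trans (hBf 0)
  apply continuous_of_dominated (bound := fun _ => Bf * BK)
  · intro y
    exact (hf.mul (hK.measurable.comp (measurable_const.sub measurable_id))).aestronglyMeasurable
  · intro y
    apply ae_of_all
    intro x
    rw [Real.norm_eq_abs, abs_mul]
    exact mul_le_mul (hBf x) (hBK _) (abs_nonneg _) hBf0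
  · exact integrable_const _
  · apply ae_of_all
    intro x
    fun_prop

theorem onb_cont2 (w K : G → ℝ) (hw : Measurable w) (hK : Continuous K)
    (Bw : ℝ) (hBw : ∀ x, |w x| ≤ Bw) : Continuous (fun x => ∫ y, w y * K (y - x) ∂hm) := by
  obtain ⟨BK, hBK0, hBK⟩ := onb_bdd K hK
  have hBw0 : 0 ≤ Bw := (abs_nonneg _).trans (hBw 0)
  apply continuous_of_dominated (bound := fun _ => Bw * BK)
  · intro y
    exact (hw.mul (hK.measurable.comp (measurable_id.sub measurable_const))).aestronglyMeasurable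
  · intro y
    apply ae_of_all
    intro x
    rw [Real.norm_eq_abs, abs_mul]
    exact mul_le_mul (hBw x) (hBK _) (abs_nonneg _) hBw0
  · exact integrable_const _
  · apply ae_of_all
    intro x
    fun_prop

/-- the active cells -/
def onb_act (g : ℕ) (f : G → ℝ) : Finset ℕ :=
  (Finset.range (2 ^ g)).filter (fun i => ∃ x, cidx g x = i ∧ f x ≠ 0)

theorem onb_cells (hC : S_CEL) (hI : S_CIN) (g : ℕ) (f φ : G → ℝ) (hf : Measurable f)
    (B : ℝ) (hB : ∀ x, |f x| ≤ B) (hφ : Measurable φ) (B' : ℝ) (hB' : ∀ x, |φ x| ≤ B')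
    (hmean : ∀ i, i < 2 ^ g → ∫ x in Cell g i, f x ∂hm = 0)
    (habs : ∀ i, i < 2 ^ g → ∫ x in Cell g i, |f x| ∂hm ≤ 2 * (1 / 2) ^ g)
    (Bi : ℕ → ℝ) (hBi : ∀ i ∈ onb_act g f, ∀ x, cidx g x = i → |φ x - φ (cen g i)| ≤ Bi i) :
    |∫ x, f x * φ x ∂hm| ≤ 2 * (1 / 2) ^ g * ∑ i ∈ onb_act g f, Bi i := by
  have hB0 : 0 ≤ B := (abs_nonneg _).trans (hB 0)
  have hB0' : 0 ≤ B' := (abs_nonneg _).trans (hB' 0)
  have hfi : Integrable f hm := onb_intg f hf B hB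
  have hfφ : Integrable (fun x => f x * φ x) hm := onb_intg _ (hf.mul hφ) (B * B') (fun x => by
    rw [abs_mul]; exact mul_le_mul (hB x) (hB' x) (abs_nonneg _) hB0)
  rw [(hI _ hfφ).1 g]
  refine (Finset.abs_sum_le_sum_abs _ _).trans ?_
  have hact : ∑ i ∈ onb_act g f, |∫ x in Cell g i, f x * φ x ∂hm| =
      ∑ i ∈ Finset.range (2 ^ g), |∫ x in Cell g i, f x * φ x ∂hm| := by
    apply Finset.sum_subset (Finset.filter_subset _ _)
    intro i hi hi'
    rw [abs_eq_zero]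
    apply setIntegral_eq_zero_of_forall_eq_zero
    intro x hx
    have : f x = 0 := by
      by_contra h
      exact hi' (Finset.mem_filter.2 ⟨hi, x, hx, h⟩)
    rw [this, zero_mul]
  rw [← hact, Finset.mul_sum]
  apply Finset.sum_le_sum
  intro i hi
  have hi2 := Finset.mem_filter.1 hi
  have hir : i < 2 ^ g := Finset.mem_range.1 hi2.1
  have hbi := hBi i hi
  have hbi0 : 0 ≤ Bi i := by
    obtain ⟨x, hx, -⟩ := hi2.2
    exact (abs_nonneg _).trans (hbi x hx)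
  have hms : MeasurableSet (Cell g i) := hC.1 g i
  have e1 : ∫ x in Cell g i, f x * φ x ∂hm = ∫ x in Cell g i, f x * (φ x - φ (cen g i)) ∂hm := by
    have h1 : ∫ x in Cell g i, f x * (φ x - φ (cen g i)) ∂hm =
        ∫ x in Cell g i, (f x * φ x - f x * φ (cen g i)) ∂hm := by
      congr 1; ext x; ring
    rw [h1, integral_sub hfφ.integrableOn (hfi.mul_const _).integrableOn, integral_mul_const,
      hmean i hir, zero_mul, sub_zero]
  rw [e1]
  have h2 : |∫ x in Cell g i, f x * (φ x - φ (cen g i)) ∂hm| ≤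
      ∫ x in Cell g i, |f x| * Bi i ∂hm := by
    refine (abs_integral_le_integral_abs).trans ?_
    apply setIntegral_mono_on
    · apply Integrable.integrableOn
      apply Integrable.abs
      exact onb_intg _ (hf.mul (hφ.sub measurable_const)) (B * (B' + B')) (fun x => by
        rw [abs_mul]
        apply mul_le_mul (hB x) _ (abs_nonneg _) hB0
        exact (abs_sub _ _).trans (add_le_add (hB' _) (hB' _)))
    · exact (hfi.abs.mul_const _).integrableOn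
    · exact hms
    · intro x hx
      rw [abs_mul]
      exact mul_le_mul_of_nonneg_left (hbi x hx) (abs_nonneg _)
  refine h2.trans ?_
  rw [integral_mul_const]
  exact mul_le_mul_of_nonneg_right (habs i hir) hbi0

/-! ### Comparisons -/

theorem onb_cmp (p P Q : ℝ) (hp0 : 0 ≤ p) (hp : p ≤ 3) (hP : 0 < P) (hQ : 3 / 5 * P ≤ Q) :
    Q ^ (-p) ≤ 5 * P ^ (-p) := by
  have h1 : Q ^ (-p) ≤ (3 / 5 * P) ^ (-p) :=
    Real.rpow_le_rpow_of_nonpos (by positivity) hQ (by linarith)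
  have h2 : (3 / 5 * P) ^ (-p) = (3 / 5 : ℝ) ^ (-p) * P ^ (-p) :=
    Real.mul_rpow (by norm_num) hP.le
  have h3 : (3 / 5 : ℝ) ^ (-p) ≤ (3 / 5 : ℝ) ^ (-(3 : ℝ)) :=
    Real.rpow_le_rpow_of_exponent_ge (by norm_num) (by norm_num) (by linarith)
  have h4 : (3 / 5 : ℝ) ^ (-(3 : ℝ)) ≤ 5 := by
    rw [Real.rpow_neg (by norm_num)]
    norm_num
  rw [h2] at h1
  exact h1.trans (mul_le_mul_of_nonneg_right (h3.trans h4) (Real.rpow_nonneg hP.le _))

theorem onb_cmp2 (p t : ℝ) (x c : G) (ht : 0 < t) (hp0 : 0 ≤ p) (hp : p ≤ 3)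
    (h : ‖x - c‖ ≤ 2 / 5 * t) : (1 + ‖x‖ / t) ^ (-p) ≤ 5 * (1 + ‖c‖ / t) ^ (-p) := by
  apply onb_cmp p _ _ hp0 hp (by positivity)
  have h1 : ‖c‖ ≤ ‖x‖ + ‖x - c‖ := by
    have := norm_sub_norm_le c x
    rw [norm_sub_rev c x] at this
    linarith
  have h2 : ‖c‖ / t ≤ ‖x‖ / t + 2 / 5 := by
    rw [div_le_iff₀ ht, add_mul, div_mul_cancel₀ _ ht.ne']
    linarith
  linarith [div_nonneg (norm_nonneg x) ht.le, div_nonneg (norm_nonneg c) ht.le]

/-- the centres of the active cells -/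
theorem onb_sum (hC : S_CEL) (p Cs : ℝ)
    (hS : ∀ (S : Finset G) (σ s : ℝ) (x : G), 0 < σ → 0 < s → Sepd σ S →
      ∑ y ∈ S, (1 + ‖x - y‖ / s) ^ (-p) ≤ Cs * (1 + s / σ)) (hCs : 1 ≤ Cs)
    (g e : ℕ) (t : ℝ) (ht : 0 < t) (hg : (1 / 2 : ℝ) ^ g = 2 * t * (1 / 2) ^ e) (he : 1 ≤ e)
    (J : Finset ℕ) (hJ : ∀ i ∈ J, i < 2 ^ g) (y : G) :
    ∑ i ∈ J, (1 + ‖y - cen g i‖ / t) ^ (-p) ≤ Cs * 2 ^ e := by
  obtain ⟨-, -, -, -, -, hcc, -, hsep⟩ := hC
  have hinj : ∀ i ∈ J, ∀ i' ∈ J, cen g i = cen g i' → i = i' := by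
    intro i hi i' hi' h
    rw [← hcc g i (hJ i hi), ← hcc g i' (hJ i' hi'), h]
  have h1 : ∑ i ∈ J, (1 + ‖y - cen g i‖ / t) ^ (-p) =
      ∑ z ∈ J.image (cen g), (1 + ‖y - z‖ / t) ^ (-p) := by
    rw [Finset.sum_image (fun i hi i' hi' h => hinj i hi i' hi' h)]
  have hsp : Sepd (2 * Real.pi * (1 / 2) ^ g) (J.image (cen g)) := by
    intro x hx z hz hxz
    obtain ⟨i, hi, rfl⟩ := Finset.mem_image.1 hx
    obtain ⟨i', hi', rfl⟩ := Finset.mem_image.1 hz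
    exact hsep g i i' (hJ i hi) (hJ i' hi') (fun h => hxz (by rw [h]))
  rw [h1]
  refine (hS _ _ t y (by positivity) ht hsp).trans ?_
  apply mul_le_mul_of_nonneg_left _ (by linarith)
  have hpi := Real.pi_gt_three
  have h2 : t / (2 * Real.pi * (1 / 2) ^ g) = 2 ^ e / (4 * Real.pi) := by
    rw [hg, one_div, inv_pow]
    field_simp
    ring
  rw [h2]
  have h3 : (2 : ℝ) ^ e / (4 * Real.pi) ≤ 2 ^ e / 2 := by
    apply div_le_div_of_nonneg_left (by positivity) (by norm_num)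
    linarith
  have h4 : (2 : ℝ) ≤ 2 ^ e := by
    calc (2 : ℝ) = 2 ^ 1 := by norm_num
      _ ≤ 2 ^ e := pow_le_pow_right₀ (by norm_num) he
  linarith

/-- lower bound for the majorant -/
theorem onb_bbf (β τ t D : ℝ) (b : ℕ) (cr : G → ℝ) (y y₀ c : G) (ht : 0 < t)
    (hb : (2 : ℝ) ^ b * t ≤ 1) (hβ : 0 ≤ β) (hτ : 0 ≤ τ) (hτβ : τ * β ≤ 2) (hD : 0 < D)
    (hcr : cr y ≤ (1 + 2 ^ b * ‖y - y₀‖) ^ τ * cr y₀) (hy₀ : cr y₀ ≤ D)
    (h : ‖y₀ - c‖ ≤ 2 / 5 * t) : (1 + ‖y - c‖ / t) ^ (-(τ * β)) ≤ 2 * bbf β D cr y := by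
  set R : ℝ := 1 + 2 ^ b * ‖y - y₀‖ with hR
  set P : ℝ := 1 + ‖y - c‖ / t with hP
  have hR1 : 1 ≤ R := by rw [hR]; linarith [mul_nonneg (pow_nonneg (zero_le_two (α := ℝ)) b) (norm_nonneg (y - y₀))]
  have hP1 : 1 ≤ P := by rw [hP]; linarith [div_nonneg (norm_nonneg (y - c)) ht.le]
  have hRP : R ≤ 7 / 5 * P := by
    have h1 : ‖y - y₀‖ ≤ ‖y - c‖ + ‖y₀ - c‖ := by
      have := norm_sub_le (y - c) (y₀ - c)
      have e : y - c - (y₀ - c) = y - y₀ := by abel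
      rwa [e] at this
    have h2 : (2 : ℝ) ^ b ≤ 1 / t := by rw [le_div_iff₀ ht]; exact hb
    have h3 : (2 : ℝ) ^ b * ‖y - y₀‖ ≤ 1 / t * (‖y - c‖ + 2 / 5 * t) :=
      mul_le_mul h2 (by linarith) (norm_nonneg _) (by positivity)
    have h4 : 1 / t * (‖y - c‖ + 2 / 5 * t) = ‖y - c‖ / t + 2 / 5 := by
      field_simp
    rw [hR, hP]
    have := div_nonneg (norm_nonneg (y - c)) ht.le
    linarith
  have hm : max 1 (cr y / D) ≤ R ^ τ := by
    apply max_le (Real.one_le_rpow hR1 hτ)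
    rw [div_le_iff₀ hD]
    exact hcr.trans (mul_le_mul_of_nonneg_left hy₀ (Real.rpow_nonneg (by linarith) _))
  have h5 : (R ^ τ) ^ (-β) ≤ bbf β D cr y :=
    Real.rpow_le_rpow_of_nonpos (lt_of_lt_of_le one_pos (le_max_left _ _)) hm (by linarith)
  have h6 : (R ^ τ) ^ (-β) = R ^ (-(τ * β)) := by
    rw [← Real.rpow_mul (by linarith)]
    congr 1; ring
  have h7 : (7 / 5 * P) ^ (-(τ * β)) ≤ R ^ (-(τ * β)) :=
    Real.rpow_le_rpow_of_nonpos (by linarith) hRP (by linarith [mul_nonneg hτ hβ])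
  have h8 : (7 / 5 * P) ^ (-(τ * β)) = (7 / 5 : ℝ) ^ (-(τ * β)) * P ^ (-(τ * β)) :=
    Real.mul_rpow (by norm_num) (by linarith)
  have h9 : (1 / 2 : ℝ) ≤ (7 / 5 : ℝ) ^ (-(τ * β)) := by
    have h10 : (7 / 5 : ℝ) ^ (-(2 : ℝ)) ≤ (7 / 5 : ℝ) ^ (-(τ * β)) :=
      Real.rpow_le_rpow_of_exponent_le (by norm_num) (by linarith)
    have h11 : (1 / 2 : ℝ) ≤ (7 / 5 : ℝ) ^ (-(2 : ℝ)) := by
      rw [Real.rpow_neg (by norm_num)]
      norm_num
    linarith
  have h12 : 1 / 2 * P ^ (-(τ * β)) ≤ (7 / 5 : ℝ) ^ (-(τ * β)) * P ^ (-(τ * β)) :=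
    mul_le_mul_of_nonneg_right h9 (Real.rpow_nonneg (by linarith) _)
  linarith

theorem onb_bbf2 (β τ D : ℝ) (b : ℕ) (cr : G → ℝ) (x ξ : G) (s : ℝ)
    (hb : (2 : ℝ) ^ b * s ≤ 1) (hβ : 0 ≤ β) (hτ : 0 ≤ τ) (hτβ : τ * β ≤ 2) (hD : 0 < D)
    (hcr : cr ξ ≤ (1 + 2 ^ b * ‖ξ - x‖) ^ τ * cr x) (h0 : 0 ≤ cr x)
    (h : ‖x - ξ‖ ≤ s) : bbf β D cr x ≤ 4 * bbf β D cr ξ := by
  have h1 : 1 + 2 ^ b * ‖ξ - x‖ ≤ 2 := by
    rw [norm_sub_rev]
    have : (2 : ℝ) ^ b * ‖x - ξ‖ ≤ 2 ^ b * s := mul_le_mul_of_nonneg_left h (by positivity)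
    linarith
  have h2 : (1 + 2 ^ b * ‖ξ - x‖) ^ τ ≤ (2 : ℝ) ^ τ := Real.rpow_le_rpow (by positivity) h1 hτ
  have h3 : cr ξ ≤ 2 ^ τ * cr x := hcr.trans (mul_le_mul_of_nonneg_right h2 h0)
  have h2τ : (1 : ℝ) ≤ 2 ^ τ := Real.one_le_rpow (by norm_num) hτ
  have hm1 : (1 : ℝ) ≤ max 1 (cr x / D) := le_max_left _ _
  have h4 : max 1 (cr ξ / D) ≤ 2 ^ τ * max 1 (cr x / D) := by
    apply max_le
    · calc (1 : ℝ) = 1 * 1 := (one_mul 1).symm
        _ ≤ _ := mul_le_mul h2τ hm1 zero_le_one (by linarith)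
    · calc cr ξ / D ≤ 2 ^ τ * cr x / D := div_le_div_of_nonneg_right h3 hD.le
        _ = 2 ^ τ * (cr x / D) := by ring
        _ ≤ _ := mul_le_mul_of_nonneg_left (le_max_right _ _) (by linarith)
  have h5 : (2 ^ τ * max 1 (cr x / D)) ^ (-β) ≤ bbf β D cr ξ :=
    Real.rpow_le_rpow_of_nonpos (lt_of_lt_of_le one_pos (le_max_left _ _)) h4 (by linarith)
  have h6 : (2 ^ τ * max 1 (cr x / D)) ^ (-β) = (2 ^ τ) ^ (-β) * bbf β D cr x :=
    Real.mul_rpow (by linarith) (by linarith)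
  have h7 : (1 / 4 : ℝ) ≤ ((2 : ℝ) ^ τ) ^ (-β) := by
    rw [← Real.rpow_mul (by norm_num)]
    have h8 : (2 : ℝ) ^ (-(2 : ℝ)) ≤ (2 : ℝ) ^ (τ * -β) :=
      Real.rpow_le_rpow_of_exponent_le (by norm_num) (by linarith)
    have h9 : (2 : ℝ) ^ (-(2 : ℝ)) = 1 / 4 := by
      rw [Real.rpow_neg (by norm_num)]; norm_num
    rwa [h9] at h8
  have hb0 : 0 ≤ bbf β D cr x := Real.rpow_nonneg (by linarith) _
  have h10 : 1 / 4 * bbf β D cr x ≤ ((2 : ℝ) ^ τ) ^ (-β) * bbf β D cr x :=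
    mul_le_mul_of_nonneg_right h7 hb0
  linarith

/-! ### Scales -/

theorem onb_TT (β₀ n k : ℕ) : TT β₀ n + 2 * k ≤ TT β₀ (n + k) := by
  induction k with
  | zero => simp
  | succ k ih =>
    have h1 : TT β₀ (n + (k + 1)) = TT β₀ (n + k) + be β₀ (n + k) := by
      unfold TT
      rw [← add_assoc, Finset.sum_range_succ]
    have h2 : 2 ≤ be β₀ (n + k) := by
      unfold be
      have : 1 ≤ Nat.log 2 (n + k + 2) := Nat.log_pos (by norm_num) (by omega)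
      omega
    omega

theorem onb_TT0 (β₀ n : ℕ) : 2 * n ≤ TT β₀ n := by
  have := onb_TT β₀ 0 n
  rw [zero_add] at this
  omega

/-! ### The smoothed function -/

/-- the common data -/
structure OnbH (a C t : ℝ) (g e : ℕ) (K f : G → ℝ) (Bf : ℝ) : Prop where
  ha : 2 < a
  ha3 : a ≤ 3
  hC : 1 ≤ C
  ht : 0 < t
  hg : (1 / 2 : ℝ) ^ g = 2 * t * (1 / 2) ^ e
  he : 4 ≤ e
  Kb : Bd a C t K
  fm : Measurable f
  fb : ∀ x, |f x| ≤ Bf
  mean : ∀ i, i < 2 ^ g → ∫ x in Cell g i, f x ∂hm = 0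
  abs : ∀ i, i < 2 ^ g → ∫ x in Cell g i, |f x| ∂hm ≤ 2 * (1 / 2) ^ g

theorem onb_pow_e (e : ℕ) (he : 4 ≤ e) : (1 / 2 : ℝ) ^ e ≤ 1 / 16 := by
  calc (1 / 2 : ℝ) ^ e ≤ (1 / 2) ^ 4 := pow_le_pow_of_le_one (by norm_num) (by norm_num) he
    _ = 1 / 16 := by norm_num

theorem onb_dist (hC : S_CEL) {a C t : ℝ} {g e : ℕ} {K f : G → ℝ} {Bf : ℝ}
    (H : OnbH a C t g e K f Bf) (x : G) (i : ℕ) (hx : cidx g x = i) :
    ‖x - cen g i‖ ≤ 2 * Real.pi * (1 / 2) ^ e * t ∧ ‖x - cen g i‖ ≤ 2 / 5 * t := by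
  have h1 := hC.2.2.2.2.2.2.1 g x
  rw [hx, H.hg] at h1
  have h2 : Real.pi * (2 * t * (1 / 2) ^ e) = 2 * Real.pi * (1 / 2) ^ e * t := by ring
  rw [h2] at h1
  refine ⟨h1, h1.trans ?_⟩
  apply mul_le_mul_of_nonneg_right _ H.ht.le
  have h3 := onb_pow_e e H.he
  have h4 := Real.pi_lt_d2
  have h5 := Real.pi_pos
  nlinarith [mul_le_mul h4.le h3 (by positivity) (by norm_num : (0:ℝ) ≤ 3.15)]

theorem onb_size (hC : S_CEL) (hI : S_CIN) {a C t : ℝ} {g e : ℕ} {K f : G → ℝ} {Bf : ℝ}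
    (H : OnbH a C t g e K f Bf) (y : G) :
    |∫ x, f x * K (y - x) ∂hm| ≤ 152 * C * (1 / 2) ^ e * (1 / 2) ^ e *
      ∑ i ∈ onb_act g f, (1 + ‖y - cen g i‖ / t) ^ (-a) := by
  obtain ⟨BK, hBK0, hBK⟩ := onb_bdd K H.Kb.cont
  have ht := H.ht
  have hC1 := H.hC
  have ha := H.ha
  have hmain := onb_cells hC hI g f (fun x => K (y - x)) H.fm Bf H.fb
    (H.Kb.cont.measurable.comp (measurable_const.sub measurable_id)) BK (fun x => hBK _)
    H.mean H.abs (fun i => 38 * (C / t) * (1 / 2) ^ e * (1 + ‖y - cen g i‖ / t) ^ (-a)) (by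
      intro i _ x hx
      have hd := onb_dist hC H x i hx
      have h1 := H.Kb.lip (y - x) (y - cen g i)
      have e1 : y - x - (y - cen g i) = cen g i - x := by abel
      rw [e1, norm_sub_rev] at h1
      have h2 : (1 + ‖y - x‖ / t) ^ (-a) ≤ 5 * (1 + ‖y - cen g i‖ / t) ^ (-a) := by
        apply onb_cmp2 a t _ _ ht (by linarith) H.ha3
        rw [e1, norm_sub_rev]
        exact hd.2
      set Q : ℝ := (1 + ‖y - cen g i‖ / t) ^ (-a) with hQ
      have hQ0 : 0 ≤ Q := Real.rpow_nonneg (by positivity) _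
      have h3 : ‖x - cen g i‖ / t ≤ 2 * Real.pi * (1 / 2) ^ e := by
        rw [div_le_iff₀ ht]; exact hd.1
      refine h1.trans ?_
      have h4 : C / t * (‖x - cen g i‖ / t) * ((1 + ‖y - x‖ / t) ^ (-a) + Q) ≤
          C / t * (2 * Real.pi * (1 / 2) ^ e) * (6 * Q) := by
        apply mul_le_mul
        · exact mul_le_mul_of_nonneg_left h3 (by positivity)
        · linarith
        · exact add_nonneg (Real.rpow_nonneg (by positivity) _) hQ0
        · positivity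
      refine h4.trans ?_
      have h5 : 12 * Real.pi ≤ 38 := by linarith [Real.pi_lt_d2]
      have h6 : C / t * (2 * Real.pi * (1 / 2) ^ e) * (6 * Q) =
          12 * Real.pi * (C / t * (1 / 2) ^ e * Q) := by ring
      have h7 : 38 * (C / t) * (1 / 2) ^ e * Q = 38 * (C / t * (1 / 2) ^ e * Q) := by ring
      rw [h6, h7]
      exact mul_le_mul_of_nonneg_right h5 (by positivity))
  refine hmain.trans (le_of_eq ?_)
  rw [← Finset.mul_sum, H.hg]
  field_simp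
  ring

theorem onb_lip (hC : S_CEL) (hI : S_CIN) {a C t : ℝ} {g e : ℕ} {K f : G → ℝ} {Bf : ℝ}
    (H : OnbH a C t g e K f Bf) (x y : G) :
    |(∫ z, f z * K (x - z) ∂hm) - ∫ z, f z * K (y - z) ∂hm| ≤
      24 * C * (1 / 2) ^ e * (‖x - y‖ / t) *
      (∑ i ∈ onb_act g f, (1 + ‖x - cen g i‖ / t) ^ (-a) +
        ∑ i ∈ onb_act g f, (1 + ‖y - cen g i‖ / t) ^ (-a)) := by
  obtain ⟨BK, hBK0, hBK⟩ := onb_bdd K H.Kb.cont
  have ht := H.ht
  have hC1 := H.hC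
  have ha := H.ha
  have hBf0 : 0 ≤ Bf := (abs_nonneg _).trans (H.fb 0)
  have hme : ∀ x : G, Measurable (fun z : G => K (x - z)) := fun x =>
    H.Kb.cont.measurable.comp (measurable_const.sub measurable_id)
  have hi : ∀ x : G, Integrable (fun z : G => f z * K (x - z)) hm := fun x =>
    onb_intg _ (H.fm.mul (hme x)) (Bf * BK) (fun z => by
      rw [abs_mul]; exact mul_le_mul (H.fb z) (hBK _) (abs_nonneg _) hBf0)
  have e0 : (∫ z, f z * K (x - z) ∂hm) - ∫ z, f z * K (y - z) ∂hm =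
      ∫ z, f z * (K (x - z) - K (y - z)) ∂hm := by
    rw [← integral_sub (hi x) (hi y)]
    congr 1; ext z; ring
  rw [e0]
  have hmain := onb_cells hC hI g f (fun z => K (x - z) - K (y - z)) H.fm Bf H.fb
    ((hme x).sub (hme y)) (BK + BK) (fun z => (abs_sub _ _).trans (add_le_add (hBK _) (hBK _)))
    H.mean H.abs (fun i => 6 * (C / t) * (‖x - y‖ / t) * ((1 + ‖x - cen g i‖ / t) ^ (-a) +
      (1 + ‖y - cen g i‖ / t) ^ (-a))) (by
      intro i _ z hz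
      have hd := onb_dist hC H z i hz
      have hcmp : ∀ x : G, (1 + ‖x - z‖ / t) ^ (-a) ≤ 5 * (1 + ‖x - cen g i‖ / t) ^ (-a) := by
        intro x
        apply onb_cmp2 a t _ _ ht (by linarith) H.ha3
        have e1 : x - z - (x - cen g i) = cen g i - z := by abel
        rw [e1, norm_sub_rev]
        exact hd.2
      have hlip : ∀ z : G, |K (x - z) - K (y - z)| ≤ C / t * (‖x - y‖ / t) *
          ((1 + ‖x - z‖ / t) ^ (-a) + (1 + ‖y - z‖ / t) ^ (-a)) := by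
        intro z
        have h1 := H.Kb.lip (x - z) (y - z)
        have e1 : x - z - (y - z) = x - y := by abel
        rwa [e1] at h1
      have h1 := hlip z
      have h2 := hlip (cen g i)
      have h3 := hcmp x
      have h4 := hcmp y
      set Qx : ℝ := (1 + ‖x - cen g i‖ / t) ^ (-a) with hQx
      set Qy : ℝ := (1 + ‖y - cen g i‖ / t) ^ (-a) with hQy
      have hc0 : 0 ≤ C / t * (‖x - y‖ / t) := by positivity
      have h5 : |K (x - z) - K (y - z)| ≤ C / t * (‖x - y‖ / t) * (5 * (Qx + Qy)) :=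
        h1.trans (mul_le_mul_of_nonneg_left (by linarith) hc0)
      refine (abs_sub _ _).trans ((add_le_add h5 h2).trans (le_of_eq ?_))
      ring)
  refine hmain.trans (le_of_eq ?_)
  rw [← Finset.mul_sum, Finset.sum_add_distrib, H.hg]
  field_simp
  ring

theorem onb_diffBd {a C t : ℝ} {K : G → ℝ} (ha : 2 < a) (ha3 : a ≤ 3) (hC1 : 1 ≤ C) (ht : 0 < t)
    (hK : Bd a C t K) (d : G) (hd : ‖d‖ ≤ 2 / 5 * t) :
    Bd a (6 * C) t (fun w => K (w - d) - K w) := by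
  have hcmp : ∀ w : G, (1 + ‖w - d‖ / t) ^ (-a) ≤ 5 * (1 + ‖w‖ / t) ^ (-a) := by
    intro w
    apply onb_cmp2 a t _ _ ht (by linarith) ha3
    have e1 : w - d - w = -d := by abel
    rw [e1, norm_neg]
    exact hd
  refine ⟨(hK.cont.comp (continuous_id.sub continuous_const)).sub hK.cont, ?_, ?_⟩
  · intro w
    have h1 := hK.bd (w - d)
    have h2 := hK.bd w
    have h3 := hcmp w
    have h4 : C / t * (1 + ‖w - d‖ / t) ^ (-a) ≤ C / t * (5 * (1 + ‖w‖ / t) ^ (-a)) :=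
      mul_le_mul_of_nonneg_left h3 (by positivity)
    refine (abs_sub _ _).trans ((add_le_add (h1.trans h4) h2).trans (le_of_eq ?_))
    ring
  · intro w w'
    have h1 := hK.lip (w - d) (w' - d)
    have e1 : w - d - (w' - d) = w - w' := by abel
    rw [e1] at h1
    have h2 := hK.lip w w'
    have h3 := hcmp w
    have h4 := hcmp w'
    have h5 : C / t * (‖w - w'‖ / t) * ((1 + ‖w - d‖ / t) ^ (-a) + (1 + ‖w' - d‖ / t) ^ (-a)) ≤
        C / t * (‖w - w'‖ / t) * (5 * ((1 + ‖w‖ / t) ^ (-a) + (1 + ‖w'‖ / t) ^ (-a))) :=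
      mul_le_mul_of_nonneg_left (by linarith) (by positivity)
    have e2 : K (w - d) - K w - (K (w' - d) - K w') =
        (K (w - d) - K (w' - d)) - (K w - K w') := by ring
    rw [e2]
    refine (abs_sub _ _).trans ((add_le_add (h1.trans h5) h2).trans (le_of_eq ?_))
    ring

theorem onb_cell (hC : S_CEL) (hI : S_CIN) {a C t : ℝ} {g e : ℕ} {K f : G → ℝ} {Bf : ℝ}
    (H : OnbH a C t g e K f Bf) (ht1 : t ≤ 1) (CA : ℝ)
    (hA : ∀ (C₀ s : ℝ) (g : G → ℝ), 0 ≤ C₀ → 0 < s → s ≤ 1 →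
      Bd a C₀ s g → (∫ x, |g x| ∂hm ≤ CA * C₀) ∧ ∀ j i, i < 2 ^ j → ∀ y : G,
      |∫ x in Cell j i, g (x - y) ∂hm| ≤ CA * C₀ * ((1 + ‖y - endp j i‖ / s) ^ (1 - a) +
        (1 + ‖y - endp j (i + 1)‖ / s) ^ (1 - a)) + |∫ x, g x ∂hm|) (j i' : ℕ) (hi' : i' < 2 ^ j) :
    |∫ y in Cell j i', (∫ x, f x * K (y - x) ∂hm) ∂hm| ≤ 24 * C * CA * t * (1 / 2) ^ e *
      (∑ i ∈ onb_act g f, (1 + ‖endp j i' - cen g i‖ / t) ^ (1 - a) +
        ∑ i ∈ onb_act g f, (1 + ‖endp j (i' + 1) - cen g i‖ / t) ^ (1 - a)) := by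
  obtain ⟨BK, hBK0, hBK⟩ := onb_bdd K H.Kb.cont
  have ht := H.ht
  have hC1 := H.hC
  have ha := H.ha
  have hms : MeasurableSet (Cell j i') := hC.1 j i'
  set w : G → ℝ := (Cell j i').indicator (fun _ => 1) with hw
  have hwm : Measurable w := measurable_const.indicator hms
  have hw1 : ∀ x, |w x| ≤ 1 := by
    intro x
    rw [hw]
    by_cases hx : x ∈ Cell j i'
    · rw [Set.indicator_of_mem hx]; simp
    · rw [Set.indicator_of_notMem hx]; simp
  have hind : ∀ φ : G → ℝ, ∫ y in Cell j i', φ y ∂hm = ∫ y, w y * φ y ∂hm := by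
    intro φ
    rw [← integral_indicator hms]
    congr 1
    ext y
    rw [hw]
    by_cases hy : y ∈ Cell j i'
    · rw [Set.indicator_of_mem hy, Set.indicator_of_mem hy, one_mul]
    · rw [Set.indicator_of_notMem hy, Set.indicator_of_notMem hy, zero_mul]
  rw [hind, onb_fub w f K hwm H.fm H.Kb.cont 1 Bf hw1 H.fb]
  have hκc := onb_cont2 w K hwm H.Kb.cont 1 hw1
  obtain ⟨Bκ, -, hBκ⟩ := onb_bdd _ hκc
  have hmain := onb_cells hC hI g f (fun x => ∫ y, w y * K (y - x) ∂hm) H.fm Bf H.fb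
    hκc.measurable Bκ hBκ H.mean H.abs
    (fun i => 6 * C * CA * ((1 + ‖endp j i' - cen g i‖ / t) ^ (1 - a) +
      (1 + ‖endp j (i' + 1) - cen g i‖ / t) ^ (1 - a))) (by
      intro i _ x hx
      have hd := onb_dist hC H x i hx
      have hKm : ∀ x : G, Integrable (fun y => K (y - x)) hm := fun x =>
        onb_intg _ (H.Kb.cont.measurable.comp (measurable_id.sub measurable_const)) BK
          (fun y => hBK _)
      have e1 : (∫ y, w y * K (y - x) ∂hm) - ∫ y, w y * K (y - cen g i) ∂hm =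
          ∫ y in Cell j i', (K (y - cen g i - (x - cen g i)) - K (y - cen g i)) ∂hm := by
        rw [← hind, ← hind, ← integral_sub (hKm x).integrableOn (hKm _).integrableOn]
        congr 1
        ext y
        congr 2
        abel
      rw [e1]
      have h1 := (hA (6 * C) t (fun w => K (w - (x - cen g i)) - K w) (by positivity) ht ht1
        (onb_diffBd ha H.ha3 hC1 ht H.Kb _ hd.2)).2 j i' hi' (cen g i)
      have h0 : ∫ w, (K (w - (x - cen g i)) - K w) ∂hm = 0 := by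
        rw [integral_sub (hKm _)
          (onb_intg _ H.Kb.cont.measurable BK hBK), integral_sub_right_eq_self, sub_self]
      rw [h0, abs_zero, add_zero] at h1
      refine h1.trans (le_of_eq ?_)
      rw [norm_sub_rev (cen g i), norm_sub_rev (cen g i)]
      ring)
  refine hmain.trans (le_of_eq ?_)
  rw [← Finset.mul_sum, Finset.sum_add_distrib, H.hg]
  ring

theorem onb_sum2 (hC : S_CEL) {a C t : ℝ} {g e : ℕ} {K f : G → ℝ} {Bf : ℝ}
    (H : OnbH a C t g e K f Bf) (β τ D Cs : ℝ) (b : ℕ) (cr : G → ℝ)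
    (hS : ∀ (S : Finset G) (σ s : ℝ) (x : G), 0 < σ → 0 < s → Sepd σ S →
      ∑ y ∈ S, (1 + ‖x - y‖ / s) ^ (-(a - τ * β)) ≤ Cs * (1 + s / σ)) (hCs : 1 ≤ Cs)
    (hb : (2 : ℝ) ^ b * t ≤ 1) (hβ : 0 ≤ β) (hτ : 0 ≤ τ) (hτβ : τ * β ≤ 2) (hD : 0 < D)
    (hcr : ∀ x y, cr x ≤ (1 + 2 ^ b * ‖x - y‖) ^ τ * cr y)
    (hact : ∀ x, f x ≠ 0 → ∃ y₀, cr y₀ ≤ D ∧ cidx g y₀ = cidx g x) (y : G) :
    ∑ i ∈ onb_act g f, (1 + ‖y - cen g i‖ / t) ^ (-a) ≤ 2 * bbf β D cr y * (Cs * 2 ^ e) := by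
  have ht := H.ht
  have hb0 : 0 ≤ bbf β D cr y :=
    Real.rpow_nonneg (le_trans zero_le_one (le_max_left _ _)) _
  have h1 : ∀ i ∈ onb_act g f, (1 + ‖y - cen g i‖ / t) ^ (-a) ≤
      2 * bbf β D cr y * (1 + ‖y - cen g i‖ / t) ^ (-(a - τ * β)) := by
    intro i hi
    obtain ⟨-, x, hx, hfx⟩ := Finset.mem_filter.1 hi
    obtain ⟨y₀, hy₀, hy₀x⟩ := hact x hfx
    have hd := onb_dist hC H y₀ i (hy₀x.trans hx)
    have h2 := onb_bbf β τ t D b cr y y₀ (cen g i) ht hb hβ hτ hτβ hD (hcr y y₀) hy₀ hd.2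
    have hP : 0 < 1 + ‖y - cen g i‖ / t := by positivity
    have h3 : (1 + ‖y - cen g i‖ / t) ^ (-a) = (1 + ‖y - cen g i‖ / t) ^ (-(τ * β)) *
        (1 + ‖y - cen g i‖ / t) ^ (-(a - τ * β)) := by
      rw [← Real.rpow_add hP]
      congr 1; ring
    rw [h3]
    exact mul_le_mul_of_nonneg_right h2 (Real.rpow_nonneg hP.le _)
  refine (Finset.sum_le_sum h1).trans ?_
  rw [← Finset.mul_sum]
  apply mul_le_mul_of_nonneg_left _ (by positivity)
  exact onb_sum hC _ Cs hS hCs g e t ht H.hg (by have := H.he; omega) _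
    (fun i hi => Finset.mem_range.1 (Finset.mem_filter.1 hi).1) y

theorem onb_half_pow (b : ℕ) : (2 : ℝ) ^ b * (1 / 2) ^ b = 1 := by
  rw [← mul_pow]; norm_num

set_option maxHeartbeats 4000000 in
theorem t_ONB (hD : S_DEC) (hC : S_CEL) (hI : S_CIN) (hS : S_SEP) (hA : S_ARC) : S_ONB := by
  intro r a C z₀ F M K Y hKn τ β C₁ hτ hβ hβ2 hτβ hC₁
  obtain ⟨C₃, β₁, hC₃, hβ₁, hDEC⟩ := hD r a C z₀ F M K Y hKn τ β C₁ hτ hβ hβ2 hτβ hC₁
  have ha := hKn.ha
  have ha3 := hKn.ha3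
  have hC1 := hKn.hC
  obtain ⟨Cs, hCs, -, hSs⟩ := hS (a - τ * β) (by linarith)
  obtain ⟨Ct, hCt, -, hSt⟩ := hS (a - 1) (by linarith)
  obtain ⟨CA, hCA, hAA⟩ := hA a ha ha3
  set C' : ℝ := 400 * C * (Cs + CA * Ct) with hC'
  have hCACt : 1 ≤ CA * Ct := by
    calc (1 : ℝ) = 1 * 1 := (one_mul 1).symm
      _ ≤ CA * Ct := mul_le_mul hCA hCt zero_le_one (by linarith)
  have hCCs : 1 ≤ C * Cs := by
    calc (1 : ℝ) = 1 * 1 := (one_mul 1).symm
      _ ≤ C * Cs := mul_le_mul hC1 hCs zero_le_one (by linarith)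
  have hCCA : 1 ≤ C * (CA * Ct) := by
    calc (1 : ℝ) = 1 * 1 := (one_mul 1).symm
      _ ≤ C * (CA * Ct) := mul_le_mul hC1 hCACt zero_le_one (by linarith)
  have hC'eq : C' = 400 * (C * Cs) + 400 * (C * (CA * Ct)) := by rw [hC']; ring
  have hC'1 : 1 ≤ C' := by rw [hC'eq]; linarith
  refine ⟨C₃ * C', β₁, ?_, fun e₀ => ?_⟩
  · calc (1 : ℝ) = 1 * 1 := (one_mul 1).symm
      _ ≤ C₃ * C' := mul_le_mul hC₃ hC'1 zero_le_one (by linarith)
  obtain ⟨J₂, hJ₂, hDEC⟩ := hDEC e₀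
  refine ⟨max J₂ (e₀ + 10), ?_⟩
  intro β₀ J₁ D₀ b L l e X cr h f H c₁ hβ₀ hJ₁ hD₀ hbz hLb hX hlL he4 hee hGau hcont hH hc₁ hEQ
    hfm hfb hsupp hmean habs
  obtain ⟨Bf, hBf⟩ := hfb
  set Dn : ℕ := D₀ * 2 ^ l with hDn
  set Tn : ℕ := TT β₀ (J₁ * Dn) with hTn
  set g : ℕ := b + Tn + e with hgdef
  set t : ℝ := (1 / 2) ^ (b + Tn + 1) with htdef
  have ht : 0 < t := by rw [htdef]; positivity
  have ht1 : t ≤ 1 := pow_le_one₀ (by norm_num) (by norm_num)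
  have hta : ta β₀ b (J₁ * Dn) = 2 * t := by
    rw [htdef]
    show (1 / 2 : ℝ) ^ (b + Tn) = _
    rw [pow_succ]; ring
  have hg : (1 / 2 : ℝ) ^ g = 2 * t * (1 / 2) ^ e := by
    rw [hgdef, pow_add, htdef, pow_succ (1 / 2 : ℝ) (b + Tn)]; ring
  have hl2 : l + 1 ≤ 2 ^ l := Nat.lt_two_pow_self
  have hDl : l + 1 ≤ Dn := by
    rw [hDn]
    calc l + 1 ≤ 1 * 2 ^ l := by rw [one_mul]; exact hl2
      _ ≤ D₀ * 2 ^ l := Nat.mul_le_mul_right _ hD₀
  have hDpos : 0 < Dn := by omega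
  have hDR : ((Dn : ℕ) : ℝ) = (D₀ : ℝ) * 2 ^ l := by rw [hDn]; push_cast; ring
  have hDRpos : (0 : ℝ) < (D₀ : ℝ) * 2 ^ l := by rw [← hDR]; exact_mod_cast hDpos
  -- `e ≤ Tn`
  have heT : e ≤ Tn := by
    have h1 := onb_TT0 β₀ (J₁ * Dn)
    have h2 : (e₀ + 10) * (l + 1) ≤ J₁ * Dn := Nat.mul_le_mul (le_trans (le_max_right _ _) hJ₁) hDl
    have h3 : e₀ + 10 * l ≤ (e₀ + 10) * (l + 1) := by nlinarith
    omega
  have hbt : (2 : ℝ) ^ b * t ≤ 1 := by
    rw [htdef]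
    calc (2 : ℝ) ^ b * (1 / 2) ^ (b + Tn + 1) ≤ 2 ^ b * (1 / 2) ^ b := by
          apply mul_le_mul_of_nonneg_left _ (by positivity)
          exact pow_le_pow_of_le_one (by norm_num) (by norm_num) (by omega)
      _ = 1 := onb_half_pow b
  have htb : t ≤ (1 / 2) ^ e * (1 / 2) ^ b := by
    rw [htdef, ← pow_add]
    exact pow_le_pow_of_le_one (by norm_num) (by norm_num) (by omega)
  have hKt := hKn.Kb t ht ht1
  have HH : OnbH a C t g e (K t) f Bf :=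
    ⟨ha, ha3, hC1, ht, hg, he4, hKt, hfm, hBf, hmean, habs⟩
  set U : G → ℝ := fun y => ∫ x, f x * K t (y - x) ∂hm with hU
  have hUc : Continuous U := onb_cont1 f (K t) hfm hKt.cont Bf hBf
  have hτβ0 : 0 ≤ τ * β := by positivity
  have hτβ2 : τ * β ≤ 2 := by linarith
  have hact : ∀ x, f x ≠ 0 → ∃ y₀, cr y₀ ≤ (D₀ : ℝ) * 2 ^ l ∧ cidx g y₀ = cidx g x := by
    intro x hx
    obtain ⟨y, hy, hyx⟩ := hsupp x hx
    refine ⟨y, ?_, hyx⟩
    rw [← hDR]
    exact hy.1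
  have hsum2 := onb_sum2 hC HH β τ ((D₀ : ℝ) * 2 ^ l) Cs b cr hSs hCs hbt (by linarith) (by linarith)
    hτβ2 hDRpos hGau.harn hact
  have h2e : (1 / 2 : ℝ) ^ e * 2 ^ e = 1 := by rw [← mul_pow]; norm_num
  have h2e0 : (0 : ℝ) < (1 / 2) ^ e := by positivity
  have hbbf0 : ∀ x, 0 ≤ bbf β ((D₀ : ℝ) * 2 ^ l) cr x := fun x =>
    Real.rpow_nonneg (le_trans zero_le_one (le_max_left _ _)) _
  -- size
  have hsize : ∀ x, |U x| ≤ C' * (1 / 2) ^ e * bbf β ((D₀ : ℝ) * 2 ^ l) cr x := by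
    intro x
    have h1 := onb_size hC hI HH x
    refine h1.trans ?_
    have h2 : 152 * C * (1 / 2) ^ e * (1 / 2) ^ e *
        ∑ i ∈ onb_act g f, (1 + ‖x - cen g i‖ / t) ^ (-a) ≤
        152 * C * (1 / 2) ^ e * (1 / 2) ^ e *
          (2 * bbf β ((D₀ : ℝ) * 2 ^ l) cr x * (Cs * 2 ^ e)) :=
      mul_le_mul_of_nonneg_left (hsum2 x) (by positivity)
    refine h2.trans ?_
    have h3 : 152 * C * (1 / 2) ^ e * (1 / 2) ^ e *
          (2 * bbf β ((D₀ : ℝ) * 2 ^ l) cr x * (Cs * 2 ^ e)) =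
        304 * (C * Cs) * (1 / 2) ^ e * bbf β ((D₀ : ℝ) * 2 ^ l) cr x * ((1 / 2) ^ e * 2 ^ e) := by
      ring
    rw [h3, h2e, mul_one]
    apply mul_le_mul_of_nonneg_right _ (hbbf0 x)
    apply mul_le_mul_of_nonneg_right _ h2e0.le
    rw [hC'eq]
    linarith
  -- Lipschitz
  set j₀ : ℕ := J₁ * Dn + 1 + e with hj₀
  have htaj : ta β₀ b j₀ ≤ t * (1 / 2) ^ e := by
    have h1 := onb_TT β₀ (J₁ * Dn) (1 + e)
    rw [← add_assoc, ← hj₀, ← hTn] at h1
    rw [htdef, ← pow_add]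
    show (1 / 2 : ℝ) ^ (b + TT β₀ j₀) ≤ _
    exact pow_le_pow_of_le_one (by norm_num) (by norm_num) (by omega)
  have htaj0 : 0 < ta β₀ b j₀ := by
    show (0 : ℝ) < (1 / 2) ^ (b + TT β₀ j₀)
    positivity
  have hbta : (2 : ℝ) ^ b * ta β₀ b j₀ ≤ 1 := by
    have h1 : ta β₀ b j₀ ≤ t := htaj.trans (by
      calc t * (1 / 2) ^ e ≤ t * 1 := by
            apply mul_le_mul_of_nonneg_left _ ht.le
            exact pow_le_one₀ (by norm_num) (by norm_num)
        _ = t := mul_one t)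
    exact (mul_le_mul_of_nonneg_left h1 (by positivity)).trans hbt
  have hlip : ∀ ξ ∈ X, ∀ x y, ‖x - ξ‖ ≤ ta β₀ b j₀ → ‖y - ξ‖ ≤ ta β₀ b j₀ →
      |U x - U y| ≤ C' * (1 / 2) ^ e * bbf β ((D₀ : ℝ) * 2 ^ l) cr ξ *
        (‖x - y‖ / ta β₀ b j₀) := by
    intro ξ _ x y hx hy
    have h1 := onb_lip hC hI HH x y
    have hbx := onb_bbf2 β τ ((D₀ : ℝ) * 2 ^ l) b cr x ξ (ta β₀ b j₀) hbta (by linarith)
      (by linarith) hτβ2 hDRpos (hGau.harn ξ x) (hGau.nonneg x) hx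
    have hby := onb_bbf2 β τ ((D₀ : ℝ) * 2 ^ l) b cr y ξ (ta β₀ b j₀) hbta (by linarith)
      (by linarith) hτβ2 hDRpos (hGau.harn ξ y) (hGau.nonneg y) hy
    have h2 := hsum2 x
    have h3 := hsum2 y
    have h2' : ∑ i ∈ onb_act g f, (1 + ‖x - cen g i‖ / t) ^ (-a) ≤
        8 * bbf β ((D₀ : ℝ) * 2 ^ l) cr ξ * (Cs * 2 ^ e) :=
      h2.trans (mul_le_mul_of_nonneg_right (by linarith) (by positivity))
    have h3' : ∑ i ∈ onb_act g f, (1 + ‖y - cen g i‖ / t) ^ (-a) ≤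
        8 * bbf β ((D₀ : ℝ) * 2 ^ l) cr ξ * (Cs * 2 ^ e) :=
      h3.trans (mul_le_mul_of_nonneg_right (by linarith) (by positivity))
    have h4 : ‖x - y‖ / t ≤ (1 / 2) ^ e * (‖x - y‖ / ta β₀ b j₀) := by
      rw [div_le_iff₀ ht]
      have h5 : (1 / 2) ^ e * (‖x - y‖ / ta β₀ b j₀) * t =
          ‖x - y‖ * ((t * (1 / 2) ^ e) / ta β₀ b j₀) := by ring
      rw [h5]
      have h6 : 1 ≤ (t * (1 / 2) ^ e) / ta β₀ b j₀ := by rw [one_le_div htaj0]; exact htaj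
      calc ‖x - y‖ = ‖x - y‖ * 1 := (mul_one _).symm
        _ ≤ _ := mul_le_mul_of_nonneg_left h6 (norm_nonneg _)
    refine h1.trans ?_
    have h7 : 24 * C * (1 / 2) ^ e * (‖x - y‖ / t) *
        (∑ i ∈ onb_act g f, (1 + ‖x - cen g i‖ / t) ^ (-a) +
          ∑ i ∈ onb_act g f, (1 + ‖y - cen g i‖ / t) ^ (-a)) ≤
        24 * C * (1 / 2) ^ e * ((1 / 2) ^ e * (‖x - y‖ / ta β₀ b j₀)) *
        (16 * bbf β ((D₀ : ℝ) * 2 ^ l) cr ξ * (Cs * 2 ^ e)) := by
      apply mul_le_mul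
      · exact mul_le_mul_of_nonneg_left h4 (by positivity)
      · linarith
      · exact add_nonneg (Finset.sum_nonneg (fun i _ => Real.rpow_nonneg (by positivity) _))
          (Finset.sum_nonneg (fun i _ => Real.rpow_nonneg (by positivity) _))
      · positivity
    refine h7.trans ?_
    have h8 : 24 * C * (1 / 2) ^ e * ((1 / 2) ^ e * (‖x - y‖ / ta β₀ b j₀)) *
        (16 * bbf β ((D₀ : ℝ) * 2 ^ l) cr ξ * (Cs * 2 ^ e)) =
        384 * (C * Cs) * (1 / 2) ^ e * bbf β ((D₀ : ℝ) * 2 ^ l) cr ξ *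
          (‖x - y‖ / ta β₀ b j₀) * ((1 / 2) ^ e * 2 ^ e) := by ring
    rw [h8, h2e, mul_one]
    apply mul_le_mul_of_nonneg_right _ (by positivity)
    apply mul_le_mul_of_nonneg_right _ (hbbf0 ξ)
    apply mul_le_mul_of_nonneg_right _ h2e0.le
    rw [hC'eq]
    linarith
  -- cells
  have hcell : ∀ j i, |∫ x in Cell j i, U x ∂hm| ≤ C' * (1 / 2) ^ e * (1 / 2) ^ b := by
    intro j i
    by_cases hi : i < 2 ^ j
    · have h1 := onb_cell hC hI HH ht1 CA hAA j i hi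
      have hs : ∀ z : G, ∑ i ∈ onb_act g f, (1 + ‖z - cen g i‖ / t) ^ (1 - a) ≤ Ct * 2 ^ e := by
        intro z
        have e1 : (1 - a) = -(a - 1) := by ring
        rw [e1]
        exact onb_sum hC (a - 1) Ct hSt hCt g e t ht hg (by omega) _
          (fun i hi => Finset.mem_range.1 (Finset.mem_filter.1 hi).1) z
      have h2 : 24 * C * CA * t * (1 / 2) ^ e *
          (∑ i' ∈ onb_act g f, (1 + ‖endp j i - cen g i'‖ / t) ^ (1 - a) +
          ∑ i' ∈ onb_act g f, (1 + ‖endp j (i + 1) - cen g i'‖ / t) ^ (1 - a)) ≤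
          24 * C * CA * t * (1 / 2) ^ e * (2 * (Ct * 2 ^ e)) := by
        apply mul_le_mul_of_nonneg_left _ (by positivity)
        linarith [hs (endp j i), hs (endp j (i + 1))]
      have h3 : 24 * C * CA * t * (1 / 2) ^ e * (2 * (Ct * 2 ^ e)) =
          48 * (C * (CA * Ct)) * t * ((1 / 2) ^ e * 2 ^ e) := by ring
      rw [h3, h2e, mul_one] at h2
      refine (h1.trans h2).trans ?_
      have h4 : 48 * (C * (CA * Ct)) * t ≤ 48 * (C * (CA * Ct)) * ((1 / 2) ^ e * (1 / 2) ^ b) :=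
        mul_le_mul_of_nonneg_left htb (by positivity)
      refine h4.trans ?_
      rw [mul_assoc C' ((1 / 2 : ℝ) ^ e)]
      apply mul_le_mul_of_nonneg_right _ (by positivity)
      rw [hC'eq]
      linarith
    · have hempty : Cell j i = ∅ := by
        ext x
        simp only [Set.mem_empty_iff_false, iff_false]
        intro hx
        have h1 := hC.2.1 j x
        have h2 : cidx j x = i := hx
        omega
      rw [hempty, setIntegral_empty, abs_zero]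
      positivity
  -- the equation
  obtain ⟨BU, hBU0, hBU⟩ := onb_bdd U hUc
  have hfi : Integrable f hm := onb_intg f hfm Bf hBf
  have hUi : Integrable U hm := onb_intg U hUc.measurable BU hBU
  have hf0 : ∫ x, f x ∂hm = 0 := by
    rw [(hI f hfi).1 g]
    exact Finset.sum_eq_zero (fun i hi => hmean i (Finset.mem_range.1 hi))
  have hU0 : ∫ x, U x ∂hm = 0 := by
    have h1 := onb_fub (fun _ => (1 : ℝ)) f (K t) measurable_const hfm hKt.cont 1 Bf
      (fun x => by simp) hBf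
    simp only [one_mul] at h1
    have h2 : ∀ x : G, ∫ y, K t (y - x) ∂hm = ∫ y, K t y ∂hm := fun x =>
      integral_sub_right_eq_self _ x
    simp only [h2] at h1
    rw [integral_mul_const, hf0, zero_mul] at h1
    exact h1
  have hnode : ∀ ξ ∈ X, Fc F (fun x => f x - U x) ξ = 0 := by
    intro ξ hξ
    obtain ⟨BF, hBF0, hBF⟩ := onb_bdd F hKn.Fcont
    have hFm : Measurable (fun y : G => F (ξ - y)) :=
      hKn.Fcont.measurable.comp (measurable_const.sub measurable_id)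
    have h1 := onb_fub (fun y => F (ξ - y)) f (K t) hFm hfm hKt.cont BF Bf (fun x => hBF _) hBf
    have h2 : ∀ x : G, f x * ∫ y, F (ξ - y) * K t (y - x) ∂hm = f x * F (ξ - x) := by
      intro x
      by_cases hx : f x = 0
      · rw [hx, zero_mul, zero_mul]
      · congr 1
        have h3 : ∫ y, F (ξ - y) * K t (y - x) ∂hm = Fc F (K t) (ξ - x) := by
          unfold Fc
          rw [← integral_sub_right_eq_self (fun s => K t s * F (ξ - x - s)) x]
          congr 1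
          ext y
          have e1 : ξ - x - (y - x) = ξ - y := by abel
          rw [e1]; ring
        rw [h3]
        apply hKn.Ks t ht ht1
        obtain ⟨y, hy, hyx⟩ := hsupp x hx
        have h4 : 2 * t ≤ ‖y - ξ‖ := by
          have := hy.2 ξ hξ
          rwa [hta] at this
        have h5 := (onb_dist hC HH y (cidx g x) hyx).2
        have h6 := (onb_dist hC HH x (cidx g x) rfl).2
        have h7 : ‖y - ξ‖ ≤ ‖y - cen g (cidx g x)‖ + ‖x - cen g (cidx g x)‖ + ‖ξ - x‖ := by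
          have e1 : y - ξ = (y - cen g (cidx g x)) - (x - cen g (cidx g x)) - (ξ - x) := by abel
          rw [e1]
          exact (norm_sub_le _ _).trans (add_le_add (norm_sub_le _ _) le_rfl)
        linarith
    have h8 : ∫ y, F (ξ - y) * U y ∂hm = ∫ x, f x * F (ξ - x) ∂hm := by
      rw [h1]
      congr 1
      ext x
      exact h2 x
    have hBf0 : 0 ≤ Bf := (abs_nonneg _).trans (hBf 0)
    have hi1 : Integrable (fun x => f x * F (ξ - x)) hm :=
      onb_intg _ (hfm.mul hFm) (Bf * BF) (fun x => by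
        rw [abs_mul]; exact mul_le_mul (hBf x) (hBF _) (abs_nonneg _) hBf0)
    have hi2 : Integrable (fun x => U x * F (ξ - x)) hm :=
      onb_intg _ (hUc.measurable.mul hFm) (BU * BF) (fun x => by
        rw [abs_mul]; exact mul_le_mul (hBU x) (hBF _) (abs_nonneg _) hBU0)
    have h9 : Fc F (fun x => f x - U x) ξ =
        (∫ x, f x * F (ξ - x) ∂hm) - ∫ x, U x * F (ξ - x) ∂hm := by
      unfold Fc
      rw [← integral_sub hi1 hi2]
      congr 1
      ext x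
      ring
    rw [h9, ← h8, sub_eq_zero]
    congr 1
    ext x
    ring
  have hEQ1 := hEQ (fun x => f x - U x) (hfm.sub hUc.measurable) ⟨Bf + BU, fun x =>
    (abs_sub _ _).trans (add_le_add (hBf x) (hBU x))⟩ hnode
  have hH0 : 0 ≤ H := (abs_nonneg _).trans (hH 0)
  have hhf : Integrable (fun x => h x * f x) hm :=
    onb_intg _ (hcont.measurable.mul hfm) (H * Bf) (fun x => by
      rw [abs_mul]; exact mul_le_mul (hH x) (hBf x) (abs_nonneg _) hH0)
  have hhU : Integrable (fun x => h x * U x) hm :=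
    onb_intg _ (hcont.measurable.mul hUc.measurable) (H * BU) (fun x => by
      rw [abs_mul]; exact mul_le_mul (hH x) (hBU x) (abs_nonneg _) hH0)
  have hfU : ∫ x, h x * f x ∂hm = ∫ x, h x * U x ∂hm := by
    have h1 : ∫ x, h x * (f x - U x) ∂hm =
        (∫ x, h x * f x ∂hm) - ∫ x, h x * U x ∂hm := by
      rw [← integral_sub hhf hhU]
      congr 1
      ext x
      ring
    have h2 : ∫ x, (f x - U x) ∂hm = 0 := by
      rw [integral_sub hfi hUi, hf0, hU0, sub_zero]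
    rw [h1, h2, mul_zero, sub_eq_zero] at hEQ1
    exact hEQ1
  rw [hfU]
  have hfin := hDEC β₀ J₁ D₀ b L l j₀ X cr U h (C' * (1 / 2) ^ e) H c₁ hβ₀
    (le_trans (le_max_left _ _) hJ₁) hD₀ hbz hLb hlL (by rw [hj₀, hDn]; omega) hGau hUc
    (by positivity) hsize hlip hcell hcont hH hc₁ hEQ
  refine hfin.trans ?_
  have e1 : C₃ * C' * (1 / 2) ^ e = C₃ * (C' * (1 / 2) ^ e) := by ring
  rw [e1]
  apply mul_le_mul_of_nonneg_left _ (by positivity)
  have h10 : c₁ * X.card * ((1 / 2) ^ b) ^ (1 + r) ≤ c₁ * ((1 / 2) ^ b) ^ r := by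
    rw [Real.rpow_add (by positivity), Real.rpow_one, mul_assoc, ← mul_assoc (X.card : ℝ)]
    apply mul_le_mul_of_nonneg_left _ hc₁
    have h11 : (X.card : ℝ) * (1 / 2) ^ b ≤ 1 := by
      calc (X.card : ℝ) * (1 / 2) ^ b ≤ 2 ^ b * (1 / 2) ^ b :=
            mul_le_mul_of_nonneg_right hX (by positivity)
        _ = 1 := onb_half_pow b
    calc (X.card : ℝ) * (1 / 2) ^ b * ((1 / 2) ^ b) ^ r ≤ 1 * ((1 / 2) ^ b) ^ r :=
          mul_le_mul_of_nonneg_right h11 (by positivity)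
      _ = _ := one_mul _
  linarith

end

end Pool.Agent.H729R2.FO
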