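import Mathlib
import Pool.Agent.H729R2.FO.Stubs

/-!
The one-dimensional theorem from its two parts.
-/

set_option autoImplicit false

namespace Pool.Agent.H729R2.FO

open MeasureTheory Pool.Agent.H729R2.CB Pool.Agent.Helper150.Cub

open scoped Classical

theorem one_log (J₁ l i : ℕ) (hi : i < J₁ * (1 * 2 ^ l)) : Nat.log 2 (i + 2) ≤ J₁ + l + 1 := by
  have h1 : J₁ < 2 ^ J₁ := Nat.lt_two_pow_self
  have h2 : i + 2 < 2 ^ (J₁ + l + 2) := by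
    have h3 : J₁ * (1 * 2 ^ l) ≤ 2 ^ J₁ * 2 ^ l := by
      rw [one_mul]
      exact Nat.mul_le_mul_right _ h1.le
    have h4 : 2 ^ (J₁ + l + 2) = 4 * (2 ^ J₁ * 2 ^ l) := by
      rw [pow_add, pow_add]
      ring
    have h5 : 1 ≤ 2 ^ J₁ * 2 ^ l := Nat.one_le_iff_ne_zero.2 (by positivity)
    omega
  have h6 := Nat.log_lt_of_lt_pow (by omega) h2
  omega

theorem one_TT (β₀ J₁ l : ℕ) : TT β₀ (J₁ * (1 * 2 ^ l)) ≤
    J₁ * 2 ^ l * (2 * (β₀ + (J₁ + l + 1))) := by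
  unfold TT
  refine (Finset.sum_le_card_nsmul _ _ (2 * (β₀ + (J₁ + l + 1))) fun i hi => ?_).trans ?_
  · unfold be
    have := one_log J₁ l i (Finset.mem_range.1 hi)
    omega
  · rw [Finset.card_range, smul_eq_mul, one_mul]

theorem one_size (β₀ J₁ l : ℕ) :
    ((1 * 2 ^ l + TT β₀ (J₁ * (1 * 2 ^ l)) : ℕ) : ℝ) ≤
      (1 + 2 * (J₁ : ℝ) * (β₀ + J₁ + 3)) * ((l : ℝ) + 1) * 2 ^ l := by
  have h1 : 1 * 2 ^ l + TT β₀ (J₁ * (1 * 2 ^ l)) ≤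
      (1 + 2 * J₁ * (β₀ + J₁ + 3)) * (l + 1) * 2 ^ l := by
    have h2 := one_TT β₀ J₁ l
    have h3 : 1 * 2 ^ l + J₁ * 2 ^ l * (2 * (β₀ + (J₁ + l + 1))) =
        (1 + 2 * J₁ * (β₀ + J₁ + l + 1)) * 2 ^ l := by ring
    have h4 : 1 + 2 * J₁ * (β₀ + J₁ + l + 1) ≤ (1 + 2 * J₁ * (β₀ + J₁ + 3)) * (l + 1) := by
      have h5 : β₀ + J₁ + l + 1 ≤ (β₀ + J₁ + 3) * (l + 1) := by nlinarith
      have h6 : 2 * J₁ * (β₀ + J₁ + l + 1) ≤ 2 * J₁ * ((β₀ + J₁ + 3) * (l + 1)) :=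
        Nat.mul_le_mul_left _ h5
      nlinarith
    calc 1 * 2 ^ l + TT β₀ (J₁ * (1 * 2 ^ l))
        ≤ 1 * 2 ^ l + J₁ * 2 ^ l * (2 * (β₀ + (J₁ + l + 1))) := Nat.add_le_add_left h2 _
      _ = (1 + 2 * J₁ * (β₀ + J₁ + l + 1)) * 2 ^ l := h3
      _ ≤ _ := Nat.mul_le_mul_right _ h4
  calc ((1 * 2 ^ l + TT β₀ (J₁ * (1 * 2 ^ l)) : ℕ) : ℝ)
      ≤ (((1 + 2 * J₁ * (β₀ + J₁ + 3)) * (l + 1) * 2 ^ l : ℕ) : ℝ) := by exact_mod_cast h1
    _ = _ := by push_cast; ring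

theorem one_meas (β₀ J₁ D b : ℕ) (X : Finset G) (cr : G → ℝ) (hcr : Measurable cr) :
    MeasurableSet (Gs β₀ J₁ D b X cr) := by
  unfold Gs
  have h : {x : G | cr x ≤ D ∧ ∀ ξ ∈ X, ta β₀ b (J₁ * D) ≤ ‖x - ξ‖} =
      {x : G | cr x ≤ D} ∩ ⋂ ξ ∈ X, {x : G | ta β₀ b (J₁ * D) ≤ ‖x - ξ‖} := by
    ext x
    simp
  rw [h]
  refine (measurableSet_le hcr measurable_const).inter (Finset.measurableSet_biInter X fun ξ _ => ?_)
  have hc : Continuous fun x : G => ‖x - ξ‖ := continuous_norm.comp (continuous_id.sub continuous_const)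
  exact (isClosed_le continuous_const hc).measurableSet

theorem t_ONE (hG : S_GAU) (hA : S_ONA) (hB : S_ONB) : S_ONE := by
  intro r a C z₀ F M K Y hk
  have ha := hk.ha
  have ha3 := hk.ha3
  set β : ℝ := 1 + (a - 2) / 4 with hβ
  have hβ1 : 1 < β := by rw [hβ]; linarith
  have hβ2 : β ≤ 5 / 4 := by rw [hβ]; linarith
  have hββ : β * β < a - 1 := by
    rw [hβ]
    nlinarith
  obtain ⟨C₁, K', hC₁, hK', hGau⟩ := hG β hβ1 (by linarith)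
  obtain ⟨CA, c₄, K₁, β₁, J₂, hCA, hc₄, hK₁, hONA⟩ :=
    hA r a C z₀ F M K Y hk β β C₁ hβ1 hβ1 (by linarith) hββ hC₁
  obtain ⟨CB, β₁', hCB, hONB⟩ :=
    hB r a C z₀ F M K Y hk β β C₁ hβ1 hβ1 (by linarith) hββ hC₁
  have hθ1 : (1 : ℝ) / 4 < 2 ^ (-β) := by
    have h1 : (2 : ℝ) ^ (-2 : ℝ) < 2 ^ (-β) :=
      Real.rpow_lt_rpow_of_exponent_lt (by norm_num) (by linarith)
    have h2 : (2 : ℝ) ^ (-2 : ℝ) = 1 / 4 := by
      rw [Real.rpow_neg (by norm_num)]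
      norm_num
    rwa [h2] at h1
  have hθ2 : (2 : ℝ) ^ (-β) < 1 / 2 := by
    have h1 : (2 : ℝ) ^ (-β) < 2 ^ (-1 : ℝ) :=
      Real.rpow_lt_rpow_of_exponent_lt (by norm_num) (by linarith)
    have h2 : (2 : ℝ) ^ (-1 : ℝ) = 1 / 2 := by
      rw [Real.rpow_neg (by norm_num)]
      norm_num
    rwa [h2] at h1
  refine ⟨2 ^ (-β), max CA CB, c₄, hθ1, hθ2, hCA.trans (le_max_left _ _), hc₄, fun e₀ he₀ => ?_⟩
  obtain ⟨J₂', hONB⟩ := hONB e₀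
  set β₀ : ℕ := max (max β₁ β₁') 1 with hβ₀
  set J₁ : ℕ := max (max J₂ J₂') 1 with hJ₁
  have b1 : β₁ ≤ β₀ := (le_max_left _ _).trans (le_max_left _ _)
  have b2 : β₁' ≤ β₀ := (le_max_right _ _).trans (le_max_left _ _)
  have b3 : 1 ≤ β₀ := le_max_right _ _
  have j1 : J₂ ≤ J₁ := (le_max_left _ _).trans (le_max_left _ _)
  have j2 : J₂' ≤ J₁ := (le_max_right _ _).trans (le_max_left _ _)
  have j3 : 1 ≤ J₁ := le_max_right _ _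
  refine ⟨max K' K₁, 1 + 2 * (J₁ : ℝ) * (β₀ + J₁ + 3), fun l => 1 * 2 ^ l,
    fun l => TT β₀ (J₁ * (1 * 2 ^ l)), hK'.trans (le_max_left _ _), ?_, ?_, ?_⟩
  · have : (0 : ℝ) ≤ 2 * (J₁ : ℝ) * (β₀ + J₁ + 3) := by positivity
    linarith
  · intro l
    exact one_size β₀ J₁ l
  · intro b X hb hX
    have hX0 : (0 : ℝ) ≤ X.card := Nat.cast_nonneg _
    have hX1 : (X.card : ℝ) * K' ≤ 2 ^ b :=
      (mul_le_mul_of_nonneg_left (le_max_left _ _) hX0).trans hX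
    have hX2 : (X.card : ℝ) * K₁ ≤ 2 ^ b :=
      (mul_le_mul_of_nonneg_left (le_max_right _ _) hX0).trans hX
    have hX3 : (X.card : ℝ) ≤ 2 ^ b := by
      refine le_trans ?_ hX2
      nlinarith
    obtain ⟨cr, hcr⟩ := hGau β₀ J₁ 1 b b3 j3 le_rfl X hX1
    refine ⟨fun l => Gs β₀ J₁ (1 * 2 ^ l) b X cr, fun l => one_meas _ _ _ _ _ _ hcr.meas, ?_⟩
    intro L h H c₁ hL hh hH hc₁ hEQ
    refine ⟨?_, ?_⟩
    · have h1 := hONA β₀ J₁ 1 b L X cr h H c₁ b1 j1 le_rfl hb hL hX2 hcr hh hH hc₁ hEQ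
      have h0 : 0 ≤ c₄ * c₁ * ((1 / 2) ^ b) ^ r := by positivity
      have h2 := h0.trans h1
      have h3 := nonneg_of_mul_nonneg_right h2 (by linarith)
      exact h1.trans (mul_le_mul_of_nonneg_right (le_max_left _ _) h3)
    · intro l hl f hf hfB hf1 hf2 hf3
      have hidx : b + (TT β₀ (J₁ * (1 * 2 ^ l)) + (e₀ + 10 * l)) =
          b + TT β₀ (J₁ * (1 * 2 ^ l)) + (e₀ + 10 * l) := (Nat.add_assoc _ _ _).symm
      simp only [hidx] at hf1 hf2 hf3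
      have h1 := hONB β₀ J₁ 1 b L l (e₀ + 10 * l) X cr h f H c₁ b2 j2 le_rfl hb hL hX3 hl
        (by omega) le_rfl hcr hh hH hc₁ hEQ hf hfB hf1 hf2 hf3
      have h2 := (abs_nonneg _).trans h1
      have hpos : (0 : ℝ) < (1 / 2) ^ (e₀ + 10 * l) := by positivity
      have h3 := nonneg_of_mul_nonneg_right h2 (mul_pos (by linarith) hpos)
      refine h1.trans (mul_le_mul_of_nonneg_right ?_ h3)
      exact mul_le_mul_of_nonneg_right (le_max_right _ _) hpos.le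

end Pool.Agent.H729R2.FO
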