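import Mathlib
import Pool.Agent.H729R2.FO.Stubs

set_option autoImplicit false

namespace Pool.Agent.H729R2.FO

open MeasureTheory Pool.Agent.H729R2.CB Pool.Agent.Helper150.Cub

open scoped Classical

theorem rep_ta_pos (β₀ b j : ℕ) : 0 < ta β₀ b j := by unfold ta; positivity

theorem t_REP : S_REP := by
  intro β₀ b j X _
  have ht := rep_ta_pos β₀ b j
  obtain ⟨Z, hZ, hmax⟩ := Finset.exists_max_image
    ((X.filter (fun ξ => ∀ η ∈ X, ‖η - ξ‖ < ta β₀ b j → ‖η - ξ‖ < ta β₀ b (j + 1))).powerset.filter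
      (fun Z => Sepd (ta β₀ b j) Z)) Finset.card ⟨∅, by
    rw [Finset.mem_filter]
    exact ⟨Finset.empty_mem_powerset _, by intro x hx; simp at hx⟩⟩
  rw [Finset.mem_filter, Finset.mem_powerset] at hZ
  obtain ⟨hZ1, hZ2⟩ := hZ
  have hZI : ∀ ζ ∈ Z, ζ ∈ X ∧ ∀ η ∈ X, ‖η - ζ‖ < ta β₀ b j → ‖η - ζ‖ < ta β₀ b (j + 1) :=
    fun ζ hζ => Finset.mem_filter.1 (hZ1 hζ)
  refine ⟨Z, fun ζ hζ => (hZI ζ hζ).1, fun ζ hζ => (hZI ζ hζ).2, fun ζ hζ ζ' hζ' hne =>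
    hZ2 ζ hζ ζ' hζ' hne, ?_⟩
  intro ξ hξ hiso
  by_contra hcon
  push Not at hcon
  have hfar : ∀ ζ ∈ Z, ta β₀ b j ≤ ‖ξ - ζ‖ := by
    intro ζ hζ
    by_contra hlt
    push Not at hlt
    exact absurd ((hZI ζ hζ).2 ξ hξ hlt) (not_lt.2 (hcon ζ hζ))
  have hξZ : ξ ∉ Z := by
    intro h
    have h2 := hfar ξ h
    rw [sub_self, norm_zero] at h2
    linarith
  have hins : insert ξ Z ∈ ((X.filter (fun ξ => ∀ η ∈ X, ‖η - ξ‖ < ta β₀ b j →
      ‖η - ξ‖ < ta β₀ b (j + 1))).powerset.filter (fun Z => Sepd (ta β₀ b j) Z)) := by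
    rw [Finset.mem_filter, Finset.mem_powerset]
    refine ⟨Finset.insert_subset (Finset.mem_filter.2 ⟨hξ, hiso⟩) hZ1, ?_⟩
    intro x hx y hy hxy
    rw [Finset.mem_insert] at hx hy
    rcases hx with rfl | hx <;> rcases hy with rfl | hy
    · exact absurd rfl hxy
    · exact hfar y hy
    · rw [norm_sub_rev]
      exact hfar x hx
    · exact hZ2 x hx y hy hxy
  have h3 := hmax _ hins
  rw [Finset.card_insert_of_notMem hξZ] at h3
  omega

end Pool.Agent.H729R2.FO
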