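import Mathlib
import Pool.Agent.H729R2.FO.Stubs
import Pool.Agent.H729R2.CB.T_SUP
import Pool.Agent.H729R2.CB.T_FCF
import Pool.Agent.Results.MP_21a4ea_an.SobolevCase

set_option autoImplicit false

namespace Pool.Agent.H729R2.FO

open MeasureTheory Pool.Agent.H729R2.CB Pool.Agent.Helper150.Cub

open scoped Classical

/-- the result -/
theorem t_RES (hT : S_TOP) (hK : S_KNA) : S_RES := by
  intro 𝕜 _ r α hr
  by_cases hL : Local r α
  · obtain ⟨p, k, hp, hα⟩ := hL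
    have hp2 : 2 ≤ p := by
      have h1 : (1 : ℝ) < (p : ℝ) := by rw [← hp]; exact hr
      have h2 : 1 < p := by exact_mod_cast h1
      omega
    obtain ⟨c, hc, h⟩ := Pool.Agent.Results.MP_21a4ea_an.SobolevCase.result 𝕜 p hp2 α ⟨k, hα⟩
    refine ⟨c, hc, 1, fun m hm => ?_⟩
    have h1 := h m hm
    rw [mul_assoc] at h1
    rw [hp]
    exact h1
  · obtain ⟨c, hc, m₀, hm₀⟩ := hT r α hr (hK r α hr hL)
    refine ⟨c, hc, m₀, fun m hm => ?_⟩
    unfold kappa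
    refine le_iInf fun w => le_iInf fun ξ => ?_
    by_cases htop : cubErr (W 𝕜 r α) w ξ = ⊤
    · rw [htop]; exact le_top
    have hE0 : 0 ≤ (cubErr (W 𝕜 r α) w ξ).toReal := ENNReal.toReal_nonneg
    have hEe : ENNReal.ofReal (cubErr (W 𝕜 r α) w ξ).toReal = cubErr (W 𝕜 r α) w ξ :=
      ENNReal.ofReal_toReal htop
    have hsup := t_SUP t_FCF 𝕜 r α hr m w ξ (cubErr (W 𝕜 r α) w ξ).toReal hE0 hEe.ge
    have hmain := hm₀ m hm (fun μ => RCLike.re (w μ)) (fun μ => (((ξ μ).1 : G), ((ξ μ).2 : G)))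
      (cubErr (W 𝕜 r α) w ξ).toReal hsup
    rw [← hEe]
    exact ENNReal.ofReal_le_ofReal hmain

end Pool.Agent.H729R2.FO
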