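import Mathlib
import Pool.Agent.H729R2.FO.Stubs

set_option autoImplicit false

namespace Pool.Agent.H729R2.FO

open MeasureTheory Pool.Agent.H729R2.CB Pool.Agent.Helper150.Cub

open scoped Classical

noncomputable section

/-- the selected functions of stage `k` -/
def rzU (M : ℝ → G → ℝ) (γ : ℝ) (q₀ : ℕ) (sel : ℕ → ℕ → (G → ℝ) → G → ℝ) (k i : ℕ) : G → ℝ :=
  sel (q₀ + k) i (fun y => Ps M γ q₀ sel k (cen (q₀ + k) i, y))

/-- the properties of stage `k` -/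
structure RzG (M : ℝ → G → ℝ) (γ C₅ : ℝ) (q₀ n D : ℕ) (sel : ℕ → ℕ → (G → ℝ) → G → ℝ) (k : ℕ) :
    Prop where
  meas : ∀ i, i < 2 ^ (q₀ + k) → Measurable (rzU M γ q₀ sel k i)
  le : ∀ i, i < 2 ^ (q₀ + k) → ∀ y, |rzU M γ q₀ sel k i y| ≤ 2 * Ps M γ q₀ sel k (cen (q₀ + k) i, y)
  mean : ∀ i, i < 2 ^ (q₀ + k) → ∀ i', i' < 2 ^ (n - (q₀ + k) - D) →
    ∫ y in Cell (n - (q₀ + k) - D) i', rzU M γ q₀ sel k i y ∂hm = 0
  rg : Rg (q₀ + k) (Ps M γ q₀ sel k)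
  dif : ∀ x, |Ps M γ q₀ sel (k + 1) x - Ps M γ q₀ sel k x| ≤ C₅ * γ * Ps M γ q₀ sel k x

theorem rz_rg0 (q : ℕ) : Rg q (fun _ => 1) := by
  refine ⟨measurable_const, fun x => zero_le_one, ⟨1, fun x => le_rfl⟩, fun s t y => ?_, fun s t y => ?_⟩
  · simp
  · simp only [mul_one]
    have := Real.sqrt_nonneg (2 ^ q * ‖s - t‖)
    linarith

theorem rz_int {f : G → ℝ} (hf : Measurable f) {B : ℝ} (hB : ∀ x, |f x| ≤ B) : Integrable f hm :=
  Integrable.of_bound hf.aestronglyMeasurable B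
    (Filter.Eventually.of_forall (fun x => by simpa [Real.norm_eq_abs] using hB x))

theorem rz_rgint {q : ℕ} {Ψ : G × G → ℝ} (h : Rg q Ψ) (s : G) : Integrable (fun y => Ψ (s, y)) hm := by
  obtain ⟨B, hB⟩ := h.bdd
  exact rz_int (h.meas.comp measurable_prodMk_left) (B := B)
    (fun y => by rw [abs_of_nonneg (h.nonneg _)]; exact hB _)

theorem rz_mean0 (hI : S_CIN) {f : G → ℝ} (hf : Integrable f hm) (g g' : ℕ) (hg : g ≤ g')
    (h0 : ∀ i, i < 2 ^ g' → ∫ x in Cell g' i, f x ∂hm = 0) (i : ℕ) (hi : i < 2 ^ g) :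
    ∫ x in Cell g i, f x ∂hm = 0 := by
  obtain ⟨m, rfl⟩ := Nat.exists_eq_add_of_le hg
  rw [(hI f hf).2 g m i]
  apply Finset.sum_eq_zero
  intro i' hi'
  apply h0
  rw [Finset.mem_range] at hi'
  rw [pow_add]
  calc i * 2 ^ m + i' < i * 2 ^ m + 2 ^ m := by omega
    _ = (i + 1) * 2 ^ m := by ring
    _ ≤ 2 ^ g * 2 ^ m := Nat.mul_le_mul_right _ hi

variable {M : ℝ → G → ℝ} {γ C₅ : ℝ} {q₀ n D : ℕ} {sel : ℕ → ℕ → (G → ℝ) → G → ℝ}

theorem rz_Uint {k : ℕ} (hk : RzG M γ C₅ q₀ n D sel k) (i : ℕ) (hi : i < 2 ^ (q₀ + k)) :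
    Integrable (rzU M γ q₀ sel k i) hm := by
  obtain ⟨B, hB⟩ := hk.rg.bdd
  exact rz_int (hk.meas i hi) (B := 2 * B)
    (fun y => (hk.le i hi y).trans (by have := hB (cen (q₀ + k) i, y); linarith))

theorem rz_B (hC : S_CEL) (hI : S_CIN) (k : ℕ) (hG : ∀ j, j < k → RzG M γ C₅ q₀ n D sel j) (g : ℕ)
    (hg : ∀ j, j < k → g ≤ n - (q₀ + j) - D) (s : G) (i : ℕ) (hi : i < 2 ^ g) :
    ∫ y in Cell g i, Ps M γ q₀ sel k (s, y) ∂hm = (1 / 2) ^ g := by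
  induction k with
  | zero =>
    have e : ∀ y, Ps M γ q₀ sel 0 (s, y) = 1 := fun y => rfl
    simp only [e]
    rw [setIntegral_const, smul_eq_mul, mul_one]
    exact hC.2.2.1 g i hi
  | succ k ih =>
    have ih' := ih (fun j hj => hG j (by omega)) (fun j hj => hg j (by omega))
    have hk := hG k (by omega)
    rw [← ih']
    have e : ∀ y, Ps M γ q₀ sel (k + 1) (s, y) = Ps M γ q₀ sel k (s, y) -
        γ * (1 / 2) ^ (q₀ + k) * ∑ i ∈ Finset.range (2 ^ (q₀ + k)),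
          M ((1 / 2) ^ (q₀ + k)) (s - cen (q₀ + k) i) * rzU M γ q₀ sel k i y := fun y => rfl
    have hi1 : ∀ i' ∈ Finset.range (2 ^ (q₀ + k)), Integrable (fun y =>
        M ((1 / 2) ^ (q₀ + k)) (s - cen (q₀ + k) i') * rzU M γ q₀ sel k i' y) (hm.restrict (Cell g i)) := by
      intro i' hi'
      exact ((rz_Uint hk i' (Finset.mem_range.mp hi')).const_mul _).restrict
    have hz : ∫ y in Cell g i, ∑ i' ∈ Finset.range (2 ^ (q₀ + k)),
          M ((1 / 2) ^ (q₀ + k)) (s - cen (q₀ + k) i') * rzU M γ q₀ sel k i' y ∂hm = 0 := by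
      rw [integral_finsetSum _ hi1]
      apply Finset.sum_eq_zero
      intro i' hi'
      rw [integral_const_mul,
        rz_mean0 hI (rz_Uint hk i' (Finset.mem_range.mp hi')) g _ (hg k (by omega))
          (hk.mean i' (Finset.mem_range.mp hi')) i hi, mul_zero]
    simp only [e]
    rw [integral_sub (rz_rgint hk.rg s).restrict ((integrable_finsetSum _ hi1).const_mul _),
      integral_const_mul, hz, mul_zero, sub_zero]

theorem rz_C (h1 : C₅ * γ ≤ 1) (h0 : 0 ≤ C₅ * γ) (k m : ℕ)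
    (hG : ∀ j, j < k + m → RzG M γ C₅ q₀ n D sel j) (x : G × G) :
    (1 - C₅ * γ) ^ m * Ps M γ q₀ sel k x ≤ Ps M γ q₀ sel (k + m) x ∧
      Ps M γ q₀ sel (k + m) x ≤ (1 + C₅ * γ) ^ m * Ps M γ q₀ sel k x := by
  induction m with
  | zero => simp
  | succ m ih =>
    obtain ⟨i1, i2⟩ := ih (fun j hj => hG j (by omega))
    have hd := abs_le.mp ((hG (k + m) (by omega)).dif x)
    have e : k + (m + 1) = k + m + 1 := by ring
    rw [e]
    constructor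
    · calc (1 - C₅ * γ) ^ (m + 1) * Ps M γ q₀ sel k x
          = (1 - C₅ * γ) * ((1 - C₅ * γ) ^ m * Ps M γ q₀ sel k x) := by ring
        _ ≤ (1 - C₅ * γ) * Ps M γ q₀ sel (k + m) x := mul_le_mul_of_nonneg_left i1 (by linarith)
        _ ≤ Ps M γ q₀ sel (k + m + 1) x := by linarith [hd.1]
    · calc Ps M γ q₀ sel (k + m + 1) x ≤ (1 + C₅ * γ) * Ps M γ q₀ sel (k + m) x := by linarith [hd.2]
        _ ≤ (1 + C₅ * γ) * ((1 + C₅ * γ) ^ m * Ps M γ q₀ sel k x) :=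
            mul_le_mul_of_nonneg_left i2 (by linarith)
        _ = (1 + C₅ * γ) ^ (m + 1) * Ps M γ q₀ sel k x := by ring

theorem rz_num {x : ℝ} (hx : 0 ≤ x) (m L : ℕ) (hm' : m ≤ L) (h : 100 * x * ((L + 1 : ℕ) : ℝ) ≤ 1) :
    1 / 2 ≤ (1 - x) ^ m ∧ (1 + x) ^ m ≤ 2 := by
  have hmL : (m : ℝ) ≤ ((L + 1 : ℕ) : ℝ) := by exact_mod_cast (by omega : m ≤ L + 1)
  have hmx : (m : ℝ) * x ≤ 1 / 100 := by
    have : (m : ℝ) * x ≤ ((L + 1 : ℕ) : ℝ) * x := mul_le_mul_of_nonneg_right hmL hx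
    nlinarith
  have hx1 : x ≤ 1 / 100 := by
    have h1 : (1 : ℝ) ≤ ((L + 1 : ℕ) : ℝ) := by exact_mod_cast (by omega : 1 ≤ L + 1)
    nlinarith
  constructor
  · have := one_add_mul_le_pow (show (-2 : ℝ) ≤ -x by linarith) m
    have e : (1 + -x) ^ m = (1 - x) ^ m := by ring_nf
    rw [e] at this
    have : 1 + (m : ℝ) * -x ≤ (1 - x) ^ m := this
    nlinarith
  · have h2 : (1 + x) ^ m ≤ Real.exp (m * x) := by
      rw [Real.exp_nat_mul]
      exact pow_le_pow_left₀ (by linarith) (by linarith [Real.add_one_le_exp x]) m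
    have h3 : Real.exp (m * x) ≤ Real.exp (1 / 100) := Real.exp_le_exp.mpr hmx
    have h4 := Real.exp_bound_div_one_sub_of_interval (x := 1 / 100) (by norm_num) (by norm_num)
    have h5 : (1 : ℝ) / (1 - 1 / 100) ≤ 2 := by norm_num
    linarith

theorem rz_fair (hC : S_CEL) (hI : S_CIN) {d k : ℕ} (hn : q₀ + k ≤ n) (hC5 : 0 ≤ C₅) (hγ : 0 ≤ γ)
    (hb : 100 * C₅ * γ * ((D + d + 1 : ℕ) : ℝ) ≤ 1) (hrg : Rg (q₀ + k) (Ps M γ q₀ sel k))
    (hG : ∀ j, j < k → RzG M γ C₅ q₀ n D sel j) (s : G) :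
    Fair (n - (q₀ + k) + d) (fun y => Ps M γ q₀ sel k (s, y)) := by
  obtain ⟨B, hB⟩ := hrg.bdd
  have h0 : 0 ≤ C₅ * γ := mul_nonneg hC5 hγ
  have h1 : C₅ * γ ≤ 1 := by
    have h1 : (1 : ℝ) ≤ ((D + d + 1 : ℕ) : ℝ) := by exact_mod_cast (by omega : 1 ≤ D + d + 1)
    nlinarith
  obtain ⟨k', m, hk', hkm, hmL⟩ : ∃ k' m : ℕ, (∀ j, j < k' → j + (D + d) ≤ k) ∧ k' + m = k ∧ m ≤ D + d :=
    ⟨min k (k + 1 - (D + d)), k - min k (k + 1 - (D + d)), fun j hj => by omega, by omega, by omega⟩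
  obtain ⟨n1, n2⟩ := rz_num h0 m (D + d) hmL (by rw [← mul_assoc]; exact hb)
  have hGk' : ∀ j, j < k' → RzG M γ C₅ q₀ n D sel j := fun j hj => hG j (by omega)
  have hBB := fun i hi => rz_B hC hI k' hGk' (n - (q₀ + k) + d)
    (fun j hj => by have := hk' j hj; omega) s i hi
  have hrg' : Rg (q₀ + k') (Ps M γ q₀ sel k') := by
    rcases (Nat.le.intro hkm).lt_or_eq with h | h
    · exact (hG k' h).rg
    · rw [h]; exact hrg
  have hCC : ∀ x, (1 - C₅ * γ) ^ m * Ps M γ q₀ sel k' x ≤ Ps M γ q₀ sel k x ∧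
      Ps M γ q₀ sel k x ≤ (1 + C₅ * γ) ^ m * Ps M γ q₀ sel k' x := by
    intro x
    have := rz_C h1 h0 k' m (fun j hj => hG j (by omega)) x
    rwa [hkm] at this
  have hnn : (0 : ℝ) ≤ (1 / 2) ^ (n - (q₀ + k) + d) := by positivity
  refine ⟨hrg.meas.comp measurable_prodMk_left, fun y => hrg.nonneg _, ⟨B, fun y => hB _⟩, fun i hi => ?_,
    fun i hi => ?_⟩
  · calc (1 / 2) * (1 / 2) ^ (n - (q₀ + k) + d) ≤ (1 - C₅ * γ) ^ m * (1 / 2) ^ (n - (q₀ + k) + d) :=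
          mul_le_mul_of_nonneg_right n1 hnn
      _ = ∫ y in Cell (n - (q₀ + k) + d) i, (1 - C₅ * γ) ^ m * Ps M γ q₀ sel k' (s, y) ∂hm := by
          rw [integral_const_mul, hBB i hi]
      _ ≤ _ := integral_mono ((rz_rgint hrg' s).restrict.const_mul _) (rz_rgint hrg s).restrict
          (fun y => (hCC (s, y)).1)
  · calc ∫ y in Cell (n - (q₀ + k) + d) i, Ps M γ q₀ sel k (s, y) ∂hm
        ≤ ∫ y in Cell (n - (q₀ + k) + d) i, (1 + C₅ * γ) ^ m * Ps M γ q₀ sel k' (s, y) ∂hm :=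
          integral_mono (rz_rgint hrg s).restrict ((rz_rgint hrg' s).restrict.const_mul _)
            (fun y => (hCC (s, y)).2)
      _ = (1 + C₅ * γ) ^ m * (1 / 2) ^ (n - (q₀ + k) + d) := by
          rw [integral_const_mul, hBB i hi]
      _ ≤ 2 * (1 / 2) ^ (n - (q₀ + k) + d) := mul_le_mul_of_nonneg_right n2 hnn

theorem rz_main {a C : ℝ} (hC : S_CEL) (hI : S_CIN) {N d : ℕ} (hn : q₀ + N ≤ n) (hC5 : 1 ≤ C₅) (hγ : 0 ≤ γ)
    (hstp : ∀ (M : ℝ → G → ℝ) (q : ℕ),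
      Bd a C ((1 / 2) ^ q) (M ((1 / 2) ^ q)) → ∀ γ : ℝ, 0 ≤ γ → C₅ * γ ≤ 1 / 100 →
      ∀ (Ψ : G × G → ℝ) (u : ℕ → G → ℝ),
      Rg q Ψ → (∀ i, i < 2 ^ q → Measurable (u i) ∧ ∀ y, |u i y| ≤ 2 * Ψ (cen q i, y)) →
      Rg (q + 1) (stp M γ q u Ψ) ∧ ∀ x, |stp M γ q u Ψ x - Ψ x| ≤ C₅ * γ * Ψ x)
    (hM : ∀ s, 0 < s → s ≤ 1 → Bd a C s (M s))
    (hb : 100 * C₅ * γ * ((D + d + 1 : ℕ) : ℝ) ≤ 1)
    (hsel : ∀ q i w, q₀ ≤ q → q < q₀ + N → i < 2 ^ q → Fair (n - q + d) w → Measurable (sel q i w) ∧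
      (∀ y, |sel q i w y| ≤ 2 * w y) ∧
      ∀ i', i' < 2 ^ (n - q - D) → ∫ y in Cell (n - q - D) i', sel q i w y ∂hm = 0) (k : ℕ) (hk : k ≤ N) :
    (∀ j, j < k → RzG M γ C₅ q₀ n D sel j) ∧ Rg (q₀ + k) (Ps M γ q₀ sel k) := by
  induction k with
  | zero => exact ⟨fun j hj => absurd hj (Nat.not_lt_zero j), rz_rg0 _⟩
  | succ k ih =>
    obtain ⟨hG, hrg⟩ := ih (by omega)
    have hF := fun i : ℕ => rz_fair hC hI (show q₀ + k ≤ n by omega) (by linarith) hγ hb hrg hG (cen (q₀ + k) i)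
    have hs := fun (i : ℕ) (hi : i < 2 ^ (q₀ + k)) =>
      hsel (q₀ + k) i _ (Nat.le_add_right _ _) (by omega) hi (hF i)
    have h1 : C₅ * γ ≤ 1 / 100 := by
      have h1 : (1 : ℝ) ≤ ((D + d + 1 : ℕ) : ℝ) := by exact_mod_cast (by omega : 1 ≤ D + d + 1)
      have h0 : 0 ≤ C₅ * γ := by positivity
      nlinarith
    obtain ⟨r1, r2⟩ := hstp M (q₀ + k) (hM _ (by positivity) (pow_le_one₀ (by norm_num) (by norm_num))) γ hγ h1
      (Ps M γ q₀ sel k) (rzU M γ q₀ sel k) hrg (fun i hi => ⟨(hs i hi).1, (hs i hi).2.1⟩)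
    refine ⟨fun j hj => ?_, r1⟩
    rcases (Nat.lt_succ_iff.mp hj).lt_or_eq with h | h
    · exact hG j h
    · subst h
      exact ⟨fun i hi => (hs i hi).1, fun i hi => (hs i hi).2.1, fun i hi => (hs i hi).2.2, hrg, r2⟩

theorem rz_int2 {f : G × G → ℝ} (hf : Measurable f) {B : ℝ} (hB : ∀ x, |f x| ≤ B) : Integrable f hm2 :=
  Integrable.of_bound hf.aestronglyMeasurable B
    (Filter.Eventually.of_forall (fun x => by simpa [Real.norm_eq_abs] using hB x))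

theorem rz_intE {E : G × G → ℝ} (hE : Continuous E) {𝔈 : ℝ} (hE' : ∀ x, |E x| ≤ 𝔈) {q : ℕ}
    {Ψ : G × G → ℝ} (h : Rg q Ψ) : Integrable (fun x => E x * Ψ x) hm2 := by
  obtain ⟨B, hB⟩ := h.bdd
  have h0 : 0 ≤ 𝔈 := (abs_nonneg _).trans (hE' 0)
  refine rz_int2 (hE.measurable.mul h.meas) (B := 𝔈 * B) (fun x => ?_)
  rw [abs_mul, abs_of_nonneg (h.nonneg x)]
  exact mul_le_mul (hE' x) (hB x) (h.nonneg x) h0

theorem rz_pair {E : G × G → ℝ} (hE : Continuous E) {𝔈 : ℝ} (hE' : ∀ x, |E x| ≤ 𝔈) {k : ℕ}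
    (hMc : Continuous (M ((1 / 2) ^ (q₀ + k)))) (hk : RzG M γ C₅ q₀ n D sel k) :
    ∫ x, E x * Ps M γ q₀ sel (k + 1) x ∂hm2 = ∫ x, E x * Ps M γ q₀ sel k x ∂hm2 -
      γ * ((1 / 2) ^ (q₀ + k) * ∑ i ∈ Finset.range (2 ^ (q₀ + k)),
        ∫ y, hq E M (q₀ + k) i y * rzU M γ q₀ sel k i y ∂hm) := by
  obtain ⟨B, hB⟩ := hk.rg.bdd
  have hcont : ∀ i : ℕ, Continuous (fun x : G × G => E x * M ((1 / 2) ^ (q₀ + k)) (x.1 - cen (q₀ + k) i)) :=
    fun i => hE.mul (hMc.comp (continuous_fst.sub continuous_const))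
  have hint : ∀ i ∈ Finset.range (2 ^ (q₀ + k)), Integrable (fun x : G × G =>
      (E x * M ((1 / 2) ^ (q₀ + k)) (x.1 - cen (q₀ + k) i)) * rzU M γ q₀ sel k i x.2) hm2 := by
    intro i hi
    rw [Finset.mem_range] at hi
    obtain ⟨B', hB'⟩ := isCompact_univ.exists_bound_of_continuousOn (hcont i).continuousOn
    have hB0 : 0 ≤ B' := (norm_nonneg _).trans (hB' 0 (Set.mem_univ _))
    refine rz_int2 ((hcont i).measurable.mul ((hk.meas i hi).comp measurable_snd)) (B := B' * (2 * B))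
      (fun x => ?_)
    rw [abs_mul]
    refine mul_le_mul (hB' x (Set.mem_univ _)) ((hk.le i hi _).trans ?_) (abs_nonneg _) hB0
    have := hB (cen (q₀ + k) i, x.2)
    linarith
  have e : ∀ x, E x * Ps M γ q₀ sel (k + 1) x = E x * Ps M γ q₀ sel k x -
      γ * (1 / 2) ^ (q₀ + k) * ∑ i ∈ Finset.range (2 ^ (q₀ + k)),
        (E x * M ((1 / 2) ^ (q₀ + k)) (x.1 - cen (q₀ + k) i)) * rzU M γ q₀ sel k i x.2 := by
    intro x
    have e1 : Ps M γ q₀ sel (k + 1) x = Ps M γ q₀ sel k x -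
        γ * (1 / 2) ^ (q₀ + k) * ∑ i ∈ Finset.range (2 ^ (q₀ + k)),
          M ((1 / 2) ^ (q₀ + k)) (x.1 - cen (q₀ + k) i) * rzU M γ q₀ sel k i x.2 := rfl
    rw [e1, mul_sub]
    congr 1
    rw [Finset.mul_sum, Finset.mul_sum, Finset.mul_sum]
    exact Finset.sum_congr rfl (fun i _ => by ring)
  have hterm : ∀ i ∈ Finset.range (2 ^ (q₀ + k)), ∫ x : G × G,
      (E x * M ((1 / 2) ^ (q₀ + k)) (x.1 - cen (q₀ + k) i)) * rzU M γ q₀ sel k i x.2 ∂hm2 =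
      ∫ y, hq E M (q₀ + k) i y * rzU M γ q₀ sel k i y ∂hm := by
    intro i hi
    rw [integral_prod_symm _ (hint i hi)]
    refine integral_congr_ae (Filter.Eventually.of_forall (fun y => ?_))
    simp only [hq]
    rw [← integral_mul_const]
  simp only [e]
  rw [integral_sub (rz_intE hE hE' hk.rg) ((integrable_finsetSum _ hint).const_mul _), integral_const_mul,
    integral_finsetSum _ hint, Finset.sum_congr rfl hterm, mul_assoc]

theorem t_RZ (hP : S_STP) (hC : S_CEL) (hI : S_CIN) : S_RZ := by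
  intro a C ha hC1
  obtain ⟨C₅, hC5, hstp⟩ := hP a C ha hC1
  refine ⟨C₅, hC5, ?_⟩
  intro M hM n q₀ N D d γ hn hγ hb sel hsel E 𝔈 hE hE'
  have hmain := fun k hk => rz_main (a := a) (C := C) hC hI hn hC5 hγ hstp hM hb hsel k hk
  have h𝔈 : 0 ≤ 𝔈 := (abs_nonneg _).trans (hE' 0)
  refine ⟨fun q i y => Ps M γ q₀ sel (q - q₀) (cen q i, y), ?_, ?_⟩
  · intro q i h1 h2 hi
    obtain ⟨k, rfl⟩ := Nat.exists_eq_add_of_le h1
    obtain ⟨hG, hrg⟩ := hmain k (by omega)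
    have := rz_fair hC hI (show q₀ + k ≤ n by omega) (by linarith) hγ hb hrg hG (cen (q₀ + k) i)
    simpa using this
  · have hsum : ∀ k, k ≤ N → ∫ x, E x * Ps M γ q₀ sel k x ∂hm2 = ∫ x, E x * Ps M γ q₀ sel 0 x ∂hm2 -
        γ * ∑ j ∈ Finset.range k, (1 / 2) ^ (q₀ + j) * ∑ i ∈ Finset.range (2 ^ (q₀ + j)),
          ∫ y, hq E M (q₀ + j) i y * rzU M γ q₀ sel j i y ∂hm := by
      intro k hk
      induction k with
      | zero => simp
      | succ k ih =>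
        have hk' := (hmain (k + 1) hk).1 k (by omega)
        rw [rz_pair hE hE' (hM _ (by positivity) (pow_le_one₀ (by norm_num) (by norm_num))).cont hk',
          ih (by omega), Finset.sum_range_succ]
        ring
    have hN := hsum N le_rfl
    obtain ⟨hG, hrg⟩ := hmain N le_rfl
    have hPsN : ∫ x, Ps M γ q₀ sel N x ∂hm2 = 1 := by
      have hint : Integrable (Ps M γ q₀ sel N) hm2 := by
        obtain ⟨B, hB⟩ := hrg.bdd
        exact rz_int2 hrg.meas (B := B) (fun x => by rw [abs_of_nonneg (hrg.nonneg x)]; exact hB x)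
      rw [integral_prod _ hint]
      have : ∀ s, ∫ y, Ps M γ q₀ sel N (s, y) ∂hm = 1 := by
        intro s
        have h1 := (hI _ (rz_rgint hrg s)).1 0
        rw [h1]
        simp only [pow_zero, Finset.range_one, Finset.sum_singleton]
        have := rz_B hC hI N hG 0 (fun j _ => Nat.zero_le _) s 0 (by simp)
        simpa using this
      simp only [this]
      simp
    have hrg0 : Rg q₀ (Ps M γ q₀ sel 0) := (hmain 0 (Nat.zero_le _)).2
    have b0 : ∫ x, E x * Ps M γ q₀ sel 0 x ∂hm2 ≤ 𝔈 := by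
      calc ∫ x, E x * Ps M γ q₀ sel 0 x ∂hm2 ≤ ∫ x : G × G, 𝔈 ∂hm2 := by
            refine integral_mono (rz_intE hE hE' hrg0) (integrable_const _) (fun x => ?_)
            show E x * 1 ≤ 𝔈
            rw [mul_one]
            exact (le_abs_self _).trans (hE' x)
        _ = 𝔈 := by simp
    have bN : -𝔈 ≤ ∫ x, E x * Ps M γ q₀ sel N x ∂hm2 := by
      have hint : Integrable (Ps M γ q₀ sel N) hm2 := by
        obtain ⟨B, hB⟩ := hrg.bdd
        exact rz_int2 hrg.meas (B := B) (fun x => by rw [abs_of_nonneg (hrg.nonneg x)]; exact hB x)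
      calc -𝔈 = ∫ x, -𝔈 * Ps M γ q₀ sel N x ∂hm2 := by
            rw [integral_const_mul, hPsN, mul_one]
        _ ≤ ∫ x, E x * Ps M γ q₀ sel N x ∂hm2 := by
            refine integral_mono (hint.const_mul _) (rz_intE hE hE' hrg) (fun x => ?_)
            exact mul_le_mul_of_nonneg_right (abs_le.mp (hE' x)).1 (hrg.nonneg x)
    rw [Finset.sum_Ico_eq_sum_range]
    have e : q₀ + N - q₀ = N := by omega
    rw [e]
    have e2 : ∀ k i, sel (q₀ + k) i (fun y => Ps M γ q₀ sel (q₀ + k - q₀) (cen (q₀ + k) i, y)) =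
        rzU M γ q₀ sel k i := by
      intro k i
      simp [rzU]
    simp only [e2]
    linarith

end

end Pool.Agent.H729R2.FO
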