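import Mathlib
import Pool.Agent.H729R2.FO.Stubs2

set_option autoImplicit false

namespace Pool.Agent.H729R2.FO

open MeasureTheory Pool.Agent.H729R2.CB Pool.Agent.Helper150.Cub

open scoped Classical

theorem rzf_integrable {f : G → ℝ} (hf : Measurable f) {B : ℝ} (hB : ∀ x, |f x| ≤ B) :
    Integrable f hm :=
  Integrable.of_bound hf.aestronglyMeasurable B
    (Filter.Eventually.of_forall fun x => by simpa using hB x)

theorem rzf_zero (hI : S_CIN) {f : G → ℝ} (hf : Integrable f hm) {g g' : ℕ} (hg : g ≤ g')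
    (h0 : ∀ i, i < 2 ^ g' → ∫ x in Cell g' i, f x ∂hm = 0) (i : ℕ) (hi : i < 2 ^ g) :
    ∫ x in Cell g i, f x ∂hm = 0 := by
  obtain ⟨m, rfl⟩ := Nat.exists_eq_add_of_le hg
  rw [(hI f hf).2 g m i]
  refine Finset.sum_eq_zero fun i' hi' => h0 _ ?_
  rw [pow_add]
  have h1 := Finset.mem_range.1 hi'
  calc i * 2 ^ m + i' < i * 2 ^ m + 2 ^ m := by omega
    _ = (i + 1) * 2 ^ m := by ring
    _ ≤ 2 ^ g * 2 ^ m := Nat.mul_le_mul_right _ hi

theorem rzf_sec {Ψ : G × G → ℝ} (hm' : Measurable Ψ) (s : G) : Measurable (fun y => Ψ (s, y)) :=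
  hm'.comp (measurable_const.prodMk measurable_id)

theorem rzf_secint {q : ℕ} {Ψ : G × G → ℝ} (hR : Rg q Ψ) (s : G) :
    Integrable (fun y => Ψ (s, y)) hm := by
  obtain ⟨B, hB⟩ := hR.bdd
  refine rzf_integrable (rzf_sec hR.meas s) (B := B) fun y => ?_
  rw [abs_of_nonneg (hR.nonneg _)]
  exact hB _

theorem rzf_step (M : ℝ → G → ℝ) (γ : ℝ) (q : ℕ) (u : ℕ → G → ℝ) (Ψ : G × G → ℝ) (hR : Rg q Ψ)
    (hu : ∀ i, i < 2 ^ q → Integrable (u i) hm) (S : Set G)
    (hS0 : ∀ i, i < 2 ^ q → ∫ y in S, u i y ∂hm = 0) (s : G) :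
    ∫ y in S, stp M γ q u Ψ (s, y) ∂hm = ∫ y in S, Ψ (s, y) ∂hm := by
  have h1 : ∀ i ∈ Finset.range (2 ^ q),
      Integrable (fun y => M ((1 / 2) ^ q) (s - cen q i) * u i y) (hm.restrict S) := fun i hi =>
    (((hu i (Finset.mem_range.1 hi)).const_mul _).integrableOn : IntegrableOn _ S hm)
  have h2 : Integrable (fun y => ∑ i ∈ Finset.range (2 ^ q),
      M ((1 / 2) ^ q) (s - cen q i) * u i y) (hm.restrict S) := integrable_finset_sum _ h1
  have h3 : Integrable (fun y => Ψ (s, y)) (hm.restrict S) :=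
    ((rzf_secint hR s).integrableOn : IntegrableOn _ S hm)
  unfold stp
  rw [integral_sub h3 (h2.const_mul _), integral_const_mul, integral_finset_sum _ h1,
    Finset.sum_eq_zero, mul_zero, sub_zero]
  intro i hi
  rw [integral_const_mul, hS0 i (Finset.mem_range.1 hi), mul_zero]

theorem t_RZF (hP : S_STP) (hC : S_CEL) (hI : S_CIN) : S_RZF := by
  intro a C ha hC1
  obtain ⟨C₅, hC5, hstp⟩ := hP a C ha hC1
  refine ⟨C₅, hC5, ?_⟩
  intro M hM n q₀ N D d γ hn hγ hsm sel hsel
  have hδ : C₅ * γ * ((D : ℝ) + d + 1) ≤ 1 / 100 := by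
    push_cast at hsm
    linarith
  have hδ0 : 0 ≤ C₅ * γ := by positivity
  have hδ1 : C₅ * γ ≤ 1 / 100 := by
    have h1 : (1 : ℝ) ≤ (D : ℝ) + d + 1 := by
      have := Nat.cast_nonneg (α := ℝ) D
      have := Nat.cast_nonneg (α := ℝ) d
      linarith
    nlinarith
  have hMq : ∀ q : ℕ, Bd a C ((1 / 2) ^ q) (M ((1 / 2) ^ q)) := fun q =>
    hM _ (by positivity) (pow_le_one₀ (by norm_num) (by norm_num))
  have hPs : ∀ k, Ps M γ q₀ sel (k + 1) = stp M γ (q₀ + k) (fun i => sel (q₀ + k) i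
      (fun y => Ps M γ q₀ sel k (cen (q₀ + k) i, y))) (Ps M γ q₀ sel k) := fun k => rfl
  have hP0 : Ps M γ q₀ sel 0 = fun _ => 1 := rfl
  generalize hPdef : Ps M γ q₀ sel = P at *
  -- one step
  have hstep : ∀ j, j < N → Rg (q₀ + j) (P j) →
      (∀ i, i < 2 ^ (q₀ + j) → Fair (n - (q₀ + j) + d) (fun y => P j (cen (q₀ + j) i, y))) →
      Rg (q₀ + (j + 1)) (P (j + 1)) ∧ (∀ x, |P (j + 1) x - P j x| ≤ C₅ * γ * P j x) ∧
      ∀ g, g ≤ n - (q₀ + j) - D → ∀ i', i' < 2 ^ g → ∀ s,
        ∫ y in Cell g i', P (j + 1) (s, y) ∂hm = ∫ y in Cell g i', P j (s, y) ∂hm := by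
    intro j hj hR hF
    have hs := fun i hi => hsel (q₀ + j) i _ (by omega) (by omega) hi (hF i hi)
    have hu : ∀ i, i < 2 ^ (q₀ + j) →
        Measurable (sel (q₀ + j) i (fun y => P j (cen (q₀ + j) i, y))) ∧
        ∀ y, |sel (q₀ + j) i (fun y => P j (cen (q₀ + j) i, y)) y| ≤
          2 * P j (cen (q₀ + j) i, y) := fun i hi => ⟨(hs i hi).1, (hs i hi).2.1⟩
    obtain ⟨h1, h2⟩ := hstp M (q₀ + j) (hMq _) γ hγ hδ1 (P j)
      (fun i => sel (q₀ + j) i (fun y => P j (cen (q₀ + j) i, y))) hR hu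
    refine ⟨?_, ?_, ?_⟩
    · rw [hPs]
      exact h1
    · rw [hPs]
      exact h2
    · intro g hg i' hi' s
      rw [hPs]
      obtain ⟨B, hB⟩ := hR.bdd
      have hui : ∀ i, i < 2 ^ (q₀ + j) →
          Integrable (sel (q₀ + j) i (fun y => P j (cen (q₀ + j) i, y))) hm := fun i hi =>
        rzf_integrable (hu i hi).1 (B := 2 * B) fun y =>
          ((hu i hi).2 y).trans (by linarith [hB (cen (q₀ + j) i, y)])
      exact rzf_step M γ (q₀ + j) _ (P j) hR hui _
        (fun i hi => rzf_zero hI (hui i hi) hg (hs i hi).2.2 i' hi') s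
  -- fairness
  have hfair : ∀ k, k < N → (∀ j ≤ k, Rg (q₀ + j) (P j)) →
      (∀ j < k, ∀ i, i < 2 ^ (q₀ + j) →
        Fair (n - (q₀ + j) + d) (fun y => P j (cen (q₀ + j) i, y))) →
      ∀ i, i < 2 ^ (q₀ + k) → Fair (n - (q₀ + k) + d) (fun y => P k (cen (q₀ + k) i, y)) := by
    intro k hk hR hF i hi
    set g := n - (q₀ + k) + d with hg
    have hmean : ∀ j, j ≤ k - (D + d) → ∀ i', i' < 2 ^ g → ∀ s,
        ∫ y in Cell g i', P j (s, y) ∂hm = (1 / 2) ^ g := by
      intro j
      induction j with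
      | zero =>
        intro _ i' hi' s
        rw [hP0]
        simp only [integral_const, smul_eq_mul, mul_one]
        rw [measureReal_restrict_apply MeasurableSet.univ, Set.univ_inter]
        exact hC.2.2.1 g i' hi'
      | succ j ih =>
        intro hj i' hi' s
        rw [(hstep j (by omega) (hR j (by omega)) (hF j (by omega))).2.2 g (by omega) i' hi' s]
        exact ih (by omega) i' hi' s
    set K := k - (D + d) with hK
    have hcmp : ∀ t, K + t ≤ k → ∀ x, (1 - C₅ * γ) ^ t * P K x ≤ P (K + t) x ∧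
        P (K + t) x ≤ (1 + C₅ * γ) ^ t * P K x := by
      intro t
      induction t with
      | zero => intro _ x; simp
      | succ t ih =>
        intro ht x
        obtain ⟨h1, h2⟩ := ih (by omega) x
        have h3 := abs_le.1 ((hstep (K + t) (by omega) (hR _ (by omega))
          (hF _ (by omega))).2.1 x)
        rw [show K + (t + 1) = K + t + 1 from rfl]
        constructor
        · calc (1 - C₅ * γ) ^ (t + 1) * P K x = (1 - C₅ * γ) * ((1 - C₅ * γ) ^ t * P K x) := by
                ring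
            _ ≤ (1 - C₅ * γ) * P (K + t) x :=
                mul_le_mul_of_nonneg_left h1 (by linarith)
            _ ≤ P (K + t + 1) x := by linarith [h3.1]
        · calc P (K + t + 1) x ≤ (1 + C₅ * γ) * P (K + t) x := by linarith [h3.2]
            _ ≤ (1 + C₅ * γ) * ((1 + C₅ * γ) ^ t * P K x) :=
                mul_le_mul_of_nonneg_left h2 (by linarith)
            _ = (1 + C₅ * γ) ^ (t + 1) * P K x := by ring
    obtain ⟨t, ht, htD⟩ : ∃ t, K + t = k ∧ t ≤ D + d := ⟨k - K, by omega, by omega⟩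
    have hcmp' := hcmp t ht.le
    rw [ht] at hcmp'
    have htr : (t : ℝ) * (C₅ * γ) ≤ 1 / 100 := by
      have h1 : (t : ℝ) ≤ (D : ℝ) + d + 1 := by
        have h2 : (t : ℝ) ≤ ((D + d : ℕ) : ℝ) := by exact_mod_cast htD
        push_cast at h2
        linarith
      calc (t : ℝ) * (C₅ * γ) ≤ ((D : ℝ) + d + 1) * (C₅ * γ) :=
            mul_le_mul_of_nonneg_right h1 hδ0
        _ ≤ 1 / 100 := by linarith
    have hlo : (99 / 100 : ℝ) ≤ (1 - C₅ * γ) ^ t := by
      have h1 := one_add_mul_le_pow (a := -(C₅ * γ)) (by linarith) t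
      rw [← sub_eq_add_neg] at h1
      linarith
    have hhi : (1 + C₅ * γ) ^ t ≤ 2 := by
      have h1 : (1 + C₅ * γ) ^ t * (1 - C₅ * γ) ^ t ≤ 1 := by
        rw [← mul_pow]
        exact pow_le_one₀ (by nlinarith) (by nlinarith)
      have h2 : 0 ≤ (1 + C₅ * γ) ^ t := pow_nonneg (by linarith) _
      nlinarith
    have hRk := hR k le_rfl
    have hRK := hR K (by omega)
    obtain ⟨B, hB⟩ := hRk.bdd
    refine ⟨rzf_sec hRk.meas _, fun x => hRk.nonneg _, ⟨B, fun x => hB _⟩, ?_, ?_⟩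
    · intro i' hi'
      have h1 : ∫ y in Cell g i', (1 - C₅ * γ) ^ t * P K (cen (q₀ + k) i, y) ∂hm ≤
          ∫ y in Cell g i', P k (cen (q₀ + k) i, y) ∂hm :=
        integral_mono ((rzf_secint hRK _).const_mul _).integrableOn
          (rzf_secint hRk _).integrableOn fun y => (hcmp' (cen (q₀ + k) i, y)).1
      rw [integral_const_mul, hmean K le_rfl i' hi'] at h1
      have h2 : (0 : ℝ) ≤ (1 / 2) ^ g := by positivity
      nlinarith
    · intro i' hi'
      have h1 : ∫ y in Cell g i', P k (cen (q₀ + k) i, y) ∂hm ≤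
          ∫ y in Cell g i', (1 + C₅ * γ) ^ t * P K (cen (q₀ + k) i, y) ∂hm :=
        integral_mono (rzf_secint hRk _).integrableOn
          ((rzf_secint hRK _).const_mul _).integrableOn fun y => (hcmp' (cen (q₀ + k) i, y)).2
      rw [integral_const_mul, hmean K le_rfl i' hi'] at h1
      have h2 : (0 : ℝ) ≤ (1 / 2) ^ g := by positivity
      nlinarith
  -- induction
  have key : ∀ k, k ≤ N → (∀ j ≤ k, Rg (q₀ + j) (P j)) ∧ (∀ j < k, ∀ i, i < 2 ^ (q₀ + j) →
      Fair (n - (q₀ + j) + d) (fun y => P j (cen (q₀ + j) i, y))) := by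
    intro k
    induction k with
    | zero =>
      intro _
      refine ⟨fun j hj => ?_, fun j hj => absurd hj (Nat.not_lt_zero _)⟩
      obtain rfl : j = 0 := by omega
      rw [hP0]
      refine ⟨measurable_const, fun _ => zero_le_one, ⟨1, fun _ => le_rfl⟩, fun s t y _ => ?_,
        fun s t y => ?_⟩
      · rw [sub_self, abs_zero]
        positivity
      · have := Real.sqrt_nonneg (2 ^ (q₀ + 0) * ‖s - t‖)
        linarith
    | succ k ih =>
      intro hk
      obtain ⟨h1, h2⟩ := ih (by omega)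
      have h3 := hfair k (by omega) h1 h2
      have h4 := hstep k (by omega) (h1 k le_rfl) h3
      refine ⟨fun j hj => ?_, fun j hj => ?_⟩
      · rcases Nat.lt_or_ge j (k + 1) with h | h
        · exact h1 j (by omega)
        · obtain rfl : j = k + 1 := by omega
          exact h4.1
      · rcases Nat.lt_or_ge j k with h | h
        · exact h2 j h
        · obtain rfl : j = k := by omega
          exact h3
  intro k hk
  exact ⟨(key k hk).1 k le_rfl, fun hkN i hi => (key (k + 1) hkN).2 k (Nat.lt_succ_self k) i hi⟩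

end Pool.Agent.H729R2.FO
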