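import Mathlib
import Pool.Agent.H729R2.FO.Stubs
import Pool.Agent.H729R2.FO.Stubs2

set_option autoImplicit false

namespace Pool.Agent.H729R2.FO

open MeasureTheory Pool.Agent.H729R2.CB Pool.Agent.Helper150.Cub

open scoped Classical

/-- bounded measurable functions are integrable -/
theorem rzp_int {f : G × G → ℝ} (hf : Measurable f) (B : ℝ) (hB : ∀ x, |f x| ≤ B) :
    Integrable f (hm.prod hm) :=
  Integrable.of_bound hf.aestronglyMeasurable B
    (Filter.Eventually.of_forall (fun x => by rw [Real.norm_eq_abs]; exact hB x))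

theorem rzp_bdd {α : Type*} [TopologicalSpace α] [CompactSpace α] {f : α → ℝ} (hf : Continuous f) :
    ∃ B, ∀ x, |f x| ≤ B := by
  obtain ⟨B, hB⟩ := isCompact_univ.exists_bound_of_continuousOn hf.continuousOn
  exact ⟨B, fun x => hB x (Set.mem_univ x)⟩

theorem rzp_main (M : ℝ → G → ℝ) (γ : ℝ) (q : ℕ) (u : ℕ → G → ℝ) (Ψ E : G × G → ℝ)
    (hM : Continuous (M ((1 / 2) ^ q))) (hE : Continuous E) (hΨ : Measurable Ψ)
    (hΨb : ∃ B, ∀ x, |Ψ x| ≤ B)
    (hu : ∀ i, i < 2 ^ q → Measurable (u i) ∧ (∃ B, ∀ y, |u i y| ≤ B)) :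
    ∫ x, E x * stp M γ q u Ψ x ∂(hm.prod hm) = ∫ x, E x * Ψ x ∂(hm.prod hm) -
      γ * (1 / 2) ^ q * ∑ i ∈ Finset.range (2 ^ q), ∫ y, hq E M q i y * u i y ∂hm := by
  obtain ⟨BΨ, hBΨ⟩ := hΨb
  obtain ⟨BE, hBE⟩ := rzp_bdd hE
  obtain ⟨BM, hBM⟩ := rzp_bdd hM
  have hEm : Measurable E := hE.measurable
  have hMm : Measurable (M ((1 / 2) ^ q)) := hM.measurable
  have hterm : ∀ i, i < 2 ^ q → Integrable
      (fun x : G × G => E x * (M ((1 / 2) ^ q) (x.1 - cen q i) * u i x.2)) (hm.prod hm) := by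
    intro i hi
    obtain ⟨hum, Bu, hBu⟩ := hu i hi
    refine rzp_int ?_ (BE * (BM * Bu)) ?_
    · exact hEm.mul ((hMm.comp (measurable_fst.sub_const _)).mul (hum.comp measurable_snd))
    · intro x
      rw [abs_mul, abs_mul]
      have h0 : 0 ≤ BE := (abs_nonneg _).trans (hBE x)
      have h1 : 0 ≤ BM := (abs_nonneg _).trans (hBM (x.1 - cen q i))
      exact mul_le_mul (hBE x) (mul_le_mul (hBM _) (hBu _) (abs_nonneg _) h1)
        (by positivity) h0
  have hfub : ∀ i, i < 2 ^ q →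
      ∫ x, E x * (M ((1 / 2) ^ q) (x.1 - cen q i) * u i x.2) ∂(hm.prod hm) =
        ∫ y, hq E M q i y * u i y ∂hm := by
    intro i hi
    rw [integral_prod_symm _ (hterm i hi)]
    refine integral_congr_ae (Filter.Eventually.of_forall fun y => ?_)
    show ∫ s, E (s, y) * (M ((1 / 2) ^ q) (s - cen q i) * u i y) ∂hm = hq E M q i y * u i y
    unfold hq
    rw [← integral_mul_const]
    refine integral_congr_ae (Filter.Eventually.of_forall fun s => ?_)
    show E (s, y) * (M ((1 / 2) ^ q) (s - cen q i) * u i y) =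
      E (s, y) * M ((1 / 2) ^ q) (s - cen q i) * u i y
    ring
  have hEΨ : Integrable (fun x => E x * Ψ x) (hm.prod hm) := by
    refine rzp_int (hEm.mul hΨ) (BE * BΨ) ?_
    intro x
    rw [abs_mul]
    exact mul_le_mul (hBE x) (hBΨ x) (abs_nonneg _) ((abs_nonneg _).trans (hBE x))
  have hsum : Integrable (fun x => ∑ i ∈ Finset.range (2 ^ q),
      E x * (M ((1 / 2) ^ q) (x.1 - cen q i) * u i x.2)) (hm.prod hm) :=
    integrable_finset_sum _ (fun i hi => hterm i (Finset.mem_range.mp hi))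
  have e1 : (fun x => E x * stp M γ q u Ψ x) = fun x => E x * Ψ x -
      γ * (1 / 2) ^ q * ∑ i ∈ Finset.range (2 ^ q),
        E x * (M ((1 / 2) ^ q) (x.1 - cen q i) * u i x.2) := by
    funext x
    unfold stp
    rw [← Finset.mul_sum]
    ring
  rw [e1, integral_sub hEΨ (hsum.const_mul _), integral_const_mul,
    integral_finset_sum _ (fun i hi => hterm i (Finset.mem_range.mp hi))]
  congr 2
  exact Finset.sum_congr rfl (fun i hi => hfub i (Finset.mem_range.mp hi))

theorem t_RZP : S_RZP := by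
  intro M γ q u Ψ E hM hE hΨ hΨb hu
  refine ⟨rzp_main M γ q u Ψ E hM hE hΨ hΨb hu, fun h0 => ?_⟩
  have h1 := rzp_main M γ q u Ψ (fun _ => 1) hM continuous_const hΨ hΨb hu
  simp only [one_mul] at h1
  rw [h1]
  have h2 : ∑ i ∈ Finset.range (2 ^ q), ∫ y, hq (fun _ => 1) M q i y * u i y ∂hm = 0 := by
    apply Finset.sum_eq_zero
    intro i hi
    have h3 : (fun y => hq (fun _ => 1) M q i y * u i y) =
        fun y => (∫ s, M ((1 / 2) ^ q) (s - cen q i) ∂hm) * u i y := by
      funext y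
      unfold hq
      simp only [one_mul]
    rw [h3, integral_const_mul, h0 i (Finset.mem_range.mp hi), mul_zero]
  rw [h2, mul_zero, sub_zero]

end Pool.Agent.H729R2.FO
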