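import Mathlib
import Pool.Agent.H729R2.FO.Stubs

set_option autoImplicit false

namespace Pool.Agent.H729R2.FO

open MeasureTheory Pool.Agent.H729R2.CB Pool.Agent.Helper150.Cub
open scoped Classical

/-- two times differentiable on the positive half line, with bounds -/
def skq_K (p w : ℝ) (h : ℝ → ℂ) : Prop :=
  ∃ (C : ℝ) (h1 h2 : ℝ → ℂ), 0 ≤ C ∧ (∀ v, 0 < v → HasDerivAt h (h1 v) v) ∧
    (∀ v, 0 < v → HasDerivAt h1 (h2 v) v) ∧
    (∀ v, 0 < v → ‖h v‖ ≤ C * (v ^ p * (1 + v) ^ w)) ∧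
    (∀ v, 0 < v → ‖h1 v‖ ≤ C * (v ^ (p - 1) * (1 + v) ^ (w + 1))) ∧
    (∀ v, 0 < v → ‖h2 v‖ ≤ C * (v ^ (p - 2) * (1 + v) ^ (w + 2)))

theorem skq_mulaux {v : ℝ} (hv : 0 < v) {p w p' w' P W x y C C' : ℝ} (hP : p + p' = P)
    (hW : w + w' = W) (hC : 0 ≤ C) (hx0 : 0 ≤ x) (hy0 : 0 ≤ y)
    (hx : x ≤ C * (v ^ p * (1 + v) ^ w)) (hy : y ≤ C' * (v ^ p' * (1 + v) ^ w')) :
    x * y ≤ C * C' * (v ^ P * (1 + v) ^ W) := by
  have h1 : (0 : ℝ) < 1 + v := by linarith
  have e : C * C' * (v ^ P * (1 + v) ^ W) =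
      (C * (v ^ p * (1 + v) ^ w)) * (C' * (v ^ p' * (1 + v) ^ w')) := by
    rw [← hP, ← hW, Real.rpow_add hv, Real.rpow_add h1]
    ring
  rw [e]
  exact mul_le_mul hx hy hy0 (mul_nonneg hC (by positivity))

theorem skq_mul {p w p' w' P W : ℝ} {h k : ℝ → ℂ} (H : skq_K p w h) (H' : skq_K p' w' k)
    (hP : p + p' = P) (hW : w + w' = W) : skq_K P W (fun v => h v * k v) := by
  obtain ⟨C, h1, h2, hC, a1, a2, a3, a4, a5⟩ := H
  obtain ⟨C', k1, k2, hC', b1, b2, b3, b4, b5⟩ := H'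
  have hCC : 0 ≤ C * C' := mul_nonneg hC hC'
  refine ⟨4 * (C * C'), fun v => h1 v * k v + h v * k1 v,
    fun v => (h2 v * k v + h1 v * k1 v) + (h1 v * k1 v + h v * k2 v), by positivity,
    fun v hv => (a1 v hv).mul (b1 v hv), fun v hv => ((a2 v hv).mul (b1 v hv)).add
      ((a1 v hv).mul (b2 v hv)), fun v hv => ?_, fun v hv => ?_, fun v hv => ?_⟩
  · rw [norm_mul]
    have e := skq_mulaux hv hP hW hC (norm_nonneg _) (norm_nonneg _) (a3 v hv) (b3 v hv)
    refine e.trans ?_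
    have : 0 ≤ v ^ P * (1 + v) ^ W := by positivity
    nlinarith
  · have e1 := skq_mulaux (P := P - 1) (W := W + 1) hv (by linarith) (by linarith) hC
      (norm_nonneg _) (norm_nonneg _) (a4 v hv) (b3 v hv)
    have e2 := skq_mulaux (P := P - 1) (W := W + 1) hv (by linarith) (by linarith) hC
      (norm_nonneg _) (norm_nonneg _) (a3 v hv) (b4 v hv)
    have : 0 ≤ v ^ (P - 1) * (1 + v) ^ (W + 1) := by positivity
    calc ‖h1 v * k v + h v * k1 v‖ ≤ ‖h1 v‖ * ‖k v‖ + ‖h v‖ * ‖k1 v‖ := by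
          refine (norm_add_le _ _).trans ?_
          rw [norm_mul, norm_mul]
      _ ≤ _ := by nlinarith
  · have e1 := skq_mulaux (P := P - 2) (W := W + 2) hv (by linarith) (by linarith) hC
      (norm_nonneg _) (norm_nonneg _) (a5 v hv) (b3 v hv)
    have e2 := skq_mulaux (P := P - 2) (W := W + 2) hv (by linarith) (by linarith) hC
      (norm_nonneg _) (norm_nonneg _) (a4 v hv) (b4 v hv)
    have e3 := skq_mulaux (P := P - 2) (W := W + 2) hv (by linarith) (by linarith) hC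
      (norm_nonneg _) (norm_nonneg _) (a3 v hv) (b5 v hv)
    calc ‖(h2 v * k v + h1 v * k1 v) + (h1 v * k1 v + h v * k2 v)‖ ≤
          (‖h2 v‖ * ‖k v‖ + ‖h1 v‖ * ‖k1 v‖) + (‖h1 v‖ * ‖k1 v‖ + ‖h v‖ * ‖k2 v‖) := by
          refine (norm_add_le _ _).trans (add_le_add ((norm_add_le _ _).trans ?_)
            ((norm_add_le _ _).trans ?_)) <;> rw [norm_mul, norm_mul]
      _ ≤ _ := by nlinarith

theorem skq_const (c : ℂ) : skq_K 0 0 (fun _ => c) := by
  refine ⟨‖c‖, fun _ => 0, fun _ => 0, norm_nonneg _, fun v _ => hasDerivAt_const _ _,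
    fun v _ => hasDerivAt_const _ _, fun v hv => by simp, fun v hv => ?_, fun v hv => ?_⟩ <;>
  · rw [norm_zero]
    have := norm_nonneg c
    positivity

theorem skq_pow {p w : ℝ} {h : ℝ → ℂ} (H : skq_K p w h) (n : ℕ) :
    skq_K (n * p) (n * w) (fun v => h v ^ n) := by
  induction n with
  | zero => simpa using skq_const 1
  | succ n ih =>
    have := skq_mul (P := ((n + 1 : ℕ) : ℝ) * p) (W := ((n + 1 : ℕ) : ℝ) * w) ih H
      (by push_cast; ring) (by push_cast; ring)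
    simpa [pow_succ] using this

theorem skq_lin (c d : ℝ) : skq_K 0 1 (fun v => (c : ℂ) + Complex.I * ((d * v : ℝ) : ℂ)) := by
  have h0 : ∀ v : ℝ, HasDerivAt (fun v : ℝ => (c : ℂ) + Complex.I * ((d * v : ℝ) : ℂ))
      (Complex.I * ((d : ℝ) : ℂ)) v := by
    intro v
    have h1 : HasDerivAt (fun v : ℝ => d * v) d v := by
      simpa using (hasDerivAt_id v).const_mul d
    exact (h1.ofReal_comp.const_mul Complex.I).const_add _
  refine ⟨|c| + |d|, fun _ => Complex.I * ((d : ℝ) : ℂ), fun _ => 0, by positivity,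
    fun v _ => h0 v, fun v _ => hasDerivAt_const _ _, fun v hv => ?_, fun v hv => ?_,
    fun v hv => ?_⟩
  · have e : ‖(c : ℂ) + Complex.I * ((d * v : ℝ) : ℂ)‖ ≤ |c| + |d| * v := by
      refine (norm_add_le _ _).trans ?_
      rw [norm_mul, Complex.norm_I, one_mul, Complex.norm_real, Complex.norm_real, Real.norm_eq_abs,
        Real.norm_eq_abs, abs_mul, abs_of_pos hv]
    refine e.trans ?_
    rw [Real.rpow_zero, Real.rpow_one, one_mul]
    have := abs_nonneg c
    have := abs_nonneg d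
    nlinarith
  · rw [norm_mul, Complex.norm_I, one_mul, Complex.norm_real, Real.norm_eq_abs]
    have e : 1 ≤ v ^ ((0 : ℝ) - 1) * (1 + v) ^ ((1 : ℝ) + 1) := by
      rw [zero_sub, Real.rpow_neg_one, show (1 : ℝ) + 1 = ((2 : ℕ) : ℝ) by norm_num,
        Real.rpow_natCast, inv_mul_eq_div, le_div_iff₀ hv]
      nlinarith
    have := abs_nonneg c
    have := abs_nonneg d
    nlinarith
  · rw [norm_zero]
    positivity

theorem skq_rpow (s : ℝ) : skq_K s 0 (fun v => ((v ^ s : ℝ) : ℂ)) := by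
  refine ⟨1 + |s| + |s * (s - 1)|, fun v => ((s * v ^ (s - 1) : ℝ) : ℂ),
    fun v => ((s * ((s - 1) * v ^ (s - 1 - 1)) : ℝ) : ℂ), by positivity, fun v hv => ?_,
    fun v hv => ?_, fun v hv => ?_, fun v hv => ?_, fun v hv => ?_⟩
  · exact (Real.hasDerivAt_rpow_const (Or.inl hv.ne')).ofReal_comp
  · exact ((Real.hasDerivAt_rpow_const (Or.inl hv.ne')).const_mul s).ofReal_comp
  · rw [Complex.norm_real, Real.norm_eq_abs, abs_of_pos (Real.rpow_pos_of_pos hv _),
      Real.rpow_zero, mul_one]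
    have : 0 < v ^ s := Real.rpow_pos_of_pos hv _
    have := abs_nonneg s
    have := abs_nonneg (s * (s - 1))
    nlinarith
  · rw [Complex.norm_real, Real.norm_eq_abs, abs_mul, abs_of_pos (Real.rpow_pos_of_pos hv _),
      zero_add, Real.rpow_one]
    have h1 : 0 < v ^ (s - 1) := Real.rpow_pos_of_pos hv _
    have h2 := abs_nonneg s
    have h3 := abs_nonneg (s * (s - 1))
    have h4 : |s| * v ^ (s - 1) ≤ (1 + |s| + |s * (s - 1)|) * v ^ (s - 1) := by nlinarith
    refine h4.trans (mul_le_mul_of_nonneg_left ?_ (by positivity))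
    nlinarith
  · rw [Complex.norm_real, Real.norm_eq_abs, ← mul_assoc, abs_mul,
      abs_of_pos (Real.rpow_pos_of_pos hv _), zero_add]
    have e : s - 1 - 1 = s - 2 := by ring
    rw [e]
    have h1 : 0 < v ^ (s - 2) := Real.rpow_pos_of_pos hv _
    have h2 := abs_nonneg s
    have h3 := abs_nonneg (s * (s - 1))
    have h4 : |s * (s - 1)| * v ^ (s - 2) ≤ (1 + |s| + |s * (s - 1)|) * v ^ (s - 2) := by nlinarith
    refine h4.trans (mul_le_mul_of_nonneg_left ?_ (by positivity))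
    rw [show (2 : ℝ) = ((2 : ℕ) : ℝ) by norm_num, Real.rpow_natCast]
    push_cast
    have h5 : 1 ≤ (1 + v) ^ 2 := by nlinarith
    have h6 : 0 < v ^ (s - 2) := h1
    nlinarith

theorem skq_sinc (κ : ℝ) (hκ : 0 < κ) (hκ1 : κ ≤ 1) :
    skq_K 0 (-1) (fun v => ((Real.sinc (κ * v) : ℝ) : ℂ)) := by
  have hs : ∀ v, 0 < v → Real.sinc (κ * v) = Real.sin (κ * v) / (κ * v) := fun v hv =>
    Real.sinc_of_ne_zero (mul_pos hκ hv).ne'
  have dsin : ∀ v : ℝ, HasDerivAt (fun v => Real.sin (κ * v)) (κ * Real.cos (κ * v)) v := by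
    intro v
    have h3 : HasDerivAt (fun v : ℝ => κ * v) κ v := by
      simpa using (hasDerivAt_id v).const_mul κ
    exact h3.sin.congr_deriv (mul_comm _ _)
  have dcos : ∀ v : ℝ, HasDerivAt (fun v => Real.cos (κ * v)) (-(κ * Real.sin (κ * v))) v := by
    intro v
    have h3 : HasDerivAt (fun v : ℝ => κ * v) κ v := by
      simpa using (hasDerivAt_id v).const_mul κ
    exact h3.cos.congr_deriv (by ring)
  have habs : ∀ v, 0 < v → |Real.sin (κ * v)| ≤ κ * v := by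
    intro v hv
    have h := Real.abs_sin_le_abs (x := κ * v)
    rwa [abs_of_pos (mul_pos hκ hv)] at h
  let h1 : ℝ → ℝ := fun v => Real.cos (κ * v) / v - Real.sin (κ * v) / (κ * v ^ 2)
  let h2 : ℝ → ℝ := fun v => -(κ * Real.sin (κ * v)) / v - 2 * Real.cos (κ * v) / v ^ 2 +
    2 * Real.sin (κ * v) / (κ * v ^ 3)
  have D1 : ∀ v, 0 < v → HasDerivAt (fun v => Real.sinc (κ * v)) (h1 v) v := by
    intro v hv
    have e : HasDerivAt (fun v => Real.sin (κ * v) / (κ * v))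
        ((κ * Real.cos (κ * v) * (κ * v) - Real.sin (κ * v) * κ) / (κ * v) ^ 2) v := by
      have h3 : HasDerivAt (fun v : ℝ => κ * v) κ v := by
        simpa using (hasDerivAt_id v).const_mul κ
      exact (dsin v).div h3 (mul_pos hκ hv).ne'
    have e2 : (κ * Real.cos (κ * v) * (κ * v) - Real.sin (κ * v) * κ) / (κ * v) ^ 2 = h1 v := by
      simp only [h1]
      field_simp
    rw [e2] at e
    refine e.congr_of_eventuallyEq ?_
    filter_upwards [lt_mem_nhds hv] with x hx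
    exact hs x hx
  have D2 : ∀ v, 0 < v → HasDerivAt h1 (h2 v) v := by
    intro v hv
    have h3 : HasDerivAt (fun v : ℝ => κ * v ^ 2) (κ * (2 * v)) v := by
      simpa using (hasDerivAt_pow 2 v).const_mul κ
    have e := ((dcos v).div (hasDerivAt_id v) hv.ne').sub
      ((dsin v).div h3 (mul_pos hκ (pow_pos hv 2)).ne')
    refine e.congr_deriv ?_
    simp only [h2, id]
    field_simp
    ring
  refine ⟨5 / κ, fun v => ((h1 v : ℝ) : ℂ), fun v => ((h2 v : ℝ) : ℂ), by positivity,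
    fun v hv => (D1 v hv).ofReal_comp, fun v hv => (D2 v hv).ofReal_comp, fun v hv => ?_,
    fun v hv => ?_, fun v hv => ?_⟩
  · rw [Complex.norm_real, Real.norm_eq_abs, Real.rpow_zero, one_mul, Real.rpow_neg_one]
    have h3 : |Real.sinc (κ * v)| ≤ 1 := Real.abs_sinc_le_one _
    have h4 : |Real.sinc (κ * v)| * (κ * v) ≤ 1 := by
      rw [hs v hv, abs_div, abs_of_pos (mul_pos hκ hv), div_mul_cancel₀ _ (mul_pos hκ hv).ne']
      exact Real.abs_sin_le_one _
    rw [← div_eq_mul_inv, le_div_iff₀ (by linarith), le_div_iff₀ hκ]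
    nlinarith [abs_nonneg (Real.sinc (κ * v))]
  · rw [Complex.norm_real, Real.norm_eq_abs, zero_sub, neg_add_cancel, Real.rpow_zero, mul_one,
      Real.rpow_neg_one]
    have h3 : |Real.cos (κ * v) / v| ≤ v⁻¹ := by
      rw [abs_div, abs_of_pos hv, div_eq_mul_inv]
      exact mul_le_of_le_one_left (by positivity) (Real.abs_cos_le_one _)
    have h4 : |Real.sin (κ * v) / (κ * v ^ 2)| ≤ v⁻¹ := by
      rw [abs_div, abs_of_pos (by positivity : 0 < κ * v ^ 2), div_le_iff₀ (by positivity)]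
      refine (habs v hv).trans (le_of_eq ?_)
      field_simp
    have h5 : |h1 v| ≤ 2 * v⁻¹ := by
      simp only [h1]
      refine (abs_sub _ _).trans ?_
      linarith
    refine h5.trans (mul_le_mul_of_nonneg_right ?_ (by positivity))
    rw [le_div_iff₀ hκ]
    linarith
  · rw [Complex.norm_real, Real.norm_eq_abs, zero_sub, show (-1 : ℝ) + 2 = 1 by norm_num,
      Real.rpow_one, Real.rpow_neg hv.le, show (2 : ℝ) = ((2 : ℕ) : ℝ) by norm_num,
      Real.rpow_natCast]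
    have h3 : |(-(κ * Real.sin (κ * v)) / v)| ≤ (v ^ 2)⁻¹ * v := by
      rw [abs_div, abs_neg, abs_mul, abs_of_pos hv, abs_of_pos hκ, div_le_iff₀ hv]
      have h4 := Real.abs_sin_le_one (κ * v)
      have h5 := abs_nonneg (Real.sin (κ * v))
      have h6 : (v ^ 2)⁻¹ * v * v = 1 := by field_simp
      rw [h6]
      nlinarith
    have h4 : |2 * Real.cos (κ * v) / v ^ 2| ≤ 2 * (v ^ 2)⁻¹ := by
      rw [abs_div, abs_mul, abs_of_pos (by positivity : (0 : ℝ) < v ^ 2), div_eq_mul_inv,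
        abs_of_pos (by norm_num : (0 : ℝ) < 2)]
      refine mul_le_mul_of_nonneg_right ?_ (by positivity)
      linarith [Real.abs_cos_le_one (κ * v)]
    have h5 : |2 * Real.sin (κ * v) / (κ * v ^ 3)| ≤ 2 * (v ^ 2)⁻¹ := by
      rw [abs_div, abs_mul, abs_of_pos (by positivity : (0 : ℝ) < κ * v ^ 3),
        abs_of_pos (by norm_num : (0 : ℝ) < 2), div_le_iff₀ (by positivity)]
      have h6 : 2 * (v ^ 2)⁻¹ * (κ * v ^ 3) = 2 * (κ * v) := by field_simp
      rw [h6]
      linarith [habs v hv]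
    have h6 : |h2 v| ≤ (v ^ 2)⁻¹ * v + 2 * (v ^ 2)⁻¹ + 2 * (v ^ 2)⁻¹ := by
      simp only [h2]
      refine (abs_add_le _ _).trans (add_le_add ((abs_sub _ _).trans ?_) h5)
      exact add_le_add h3 h4
    have h7 : (0 : ℝ) < (v ^ 2)⁻¹ := by positivity
    have h8 : (5 : ℝ) ≤ 5 / κ := by
      rw [le_div_iff₀ hκ]
      linarith
    have h9 : |h2 v| ≤ 5 * ((v ^ 2)⁻¹ * (1 + v)) := by nlinarith
    refine h9.trans (mul_le_mul_of_nonneg_right h8 (by positivity))

theorem skq_conv {v : ℝ} (hv : 0 < v) {P P' W W' : ℝ} (h1 : P' ≤ P) (h2 : W + (P - P') ≤ W') :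
    v ^ P * (1 + v) ^ W ≤ v ^ P' * (1 + v) ^ W' := by
  have h0 : (0 : ℝ) < 1 + v := by linarith
  have e1 : v ^ P = v ^ P' * v ^ (P - P') := by
    rw [← Real.rpow_add hv]
    congr 1
    ring
  have e2 : v ^ (P - P') ≤ (1 + v) ^ (P - P') :=
    Real.rpow_le_rpow hv.le (by linarith) (by linarith)
  have e3 : (1 + v) ^ (P - P') * (1 + v) ^ W ≤ (1 + v) ^ W' := by
    rw [← Real.rpow_add h0]
    exact Real.rpow_le_rpow_of_exponent_le (by linarith) (by linarith)
  rw [e1, mul_assoc]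
  refine mul_le_mul_of_nonneg_left ?_ (by positivity)
  exact (mul_le_mul_of_nonneg_right e2 (by positivity)).trans e3

theorem skq_dK (r α κ c₁ c₂ : ℝ) (q : ℕ) (hκ : 0 < κ) (hκ1 : κ ≤ 1) :
    skq_K (r - 1) (1 - 2 * q) (dK r α κ c₁ c₂ q) := by
  have h1 := skq_const (Complex.exp (((α * Real.pi / 2 : ℝ) : ℂ) * Complex.I))
  have h2 := skq_lin c₁ (c₂ * κ)
  have h3 := skq_rpow (r - 1)
  have h4 := skq_pow (skq_sinc κ hκ hκ1) (2 * q)
  have h5 := skq_mul (skq_mul h1 h2 rfl rfl) (skq_mul h3 h4 rfl rfl) rfl rfl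
  have e1 : (0 : ℝ) + 0 + (r - 1 + ((2 * q : ℕ) : ℝ) * 0) = r - 1 := by ring
  have e2 : (0 : ℝ) + 1 + (0 + ((2 * q : ℕ) : ℝ) * (-1)) = 1 - 2 * q := by push_cast; ring
  rw [e1, e2] at h5
  convert h5 using 1
  funext v
  unfold dK
  rw [show c₂ * (κ * v) = c₂ * κ * v by ring]
  push_cast
  ring

theorem skq_dK_cont (r α κ c₁ c₂ : ℝ) (q : ℕ) (hr : 1 < r) : Continuous (dK r α κ c₁ c₂ q) := by
  have h1 : Continuous fun v : ℝ => v ^ (r - 1) := Real.continuous_rpow_const (by linarith)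
  have h2 : Continuous fun v : ℝ => Real.sinc (κ * v) :=
    Real.continuous_sinc.comp (continuous_const.mul continuous_id)
  unfold dK
  refine (continuous_const.mul ?_).mul (Complex.continuous_ofReal.comp (h1.mul (h2.pow _)))
  exact continuous_const.add (continuous_const.mul (Complex.continuous_ofReal.comp
    (continuous_const.mul (continuous_const.mul continuous_id))))

theorem t_SKQ : S_SKQ := by
  intro r α κ c₁ c₂ q hr hκ hκ1 hq hint
  obtain ⟨C, g1, g2, hC, hd1, hd2, hb0, hb1, hb2⟩ := skq_dK r α κ c₁ c₂ q hκ hκ1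
  have hcont := skq_dK_cont r α κ c₁ c₂ q hr
  set g := dK r α κ c₁ c₂ q with hg
  set m : ℝ := min r (3 / 2) with hm
  have hm1 : 1 < m := lt_min hr (by norm_num)
  have hmr : m ≤ r := min_le_left _ _
  have hq' : r + 10 ≤ (q : ℝ) := hq
  -- integrability
  have hI : IntegrableOn g (Set.Ioi 0) := by
    by_contra hn
    have h0 : ∫ v in Set.Ioi (0:ℝ), g v = 0 := integral_undef hn
    rw [h0] at hint
    exact zero_ne_one hint
  have hI' : ∀ u, 0 < u → IntegrableOn g (Set.Ioi u) := fun u hu =>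
    hI.mono_set (Set.Ioi_subset_Ioi hu.le)
  have hsplit : ∀ u, 0 < u → sK r α κ c₁ c₂ q u = 1 - ∫ v in (0:ℝ)..u, g v := by
    intro u hu
    have h := intervalIntegral.integral_interval_add_Ioi (f := g) (μ := volume) hI (hI' u hu)
    rw [hint] at h
    rw [← h]
    unfold sK
    ring
  -- bounds of the density
  have B0 : ∀ v, 0 < v → ‖g v‖ ≤ C * (v ^ (m - 1) * (1 + v) ^ (-(6:ℝ))) := fun v hv =>
    (hb0 v hv).trans (mul_le_mul_of_nonneg_left (skq_conv hv (by linarith) (by linarith)) hC)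
  have B1 : ∀ v, 0 < v → ‖g1 v‖ ≤ C * (v ^ (m - 2) * (1 + v) ^ (-(6:ℝ))) := fun v hv =>
    (hb1 v hv).trans (mul_le_mul_of_nonneg_left (skq_conv hv (by linarith) (by linarith)) hC)
  have B2 : ∀ v, 0 < v → ‖g2 v‖ ≤ C * (v ^ (m - 3) * (1 + v) ^ (-(6:ℝ))) := fun v hv =>
    (hb2 v hv).trans (mul_le_mul_of_nonneg_left (skq_conv hv (by linarith) (by linarith)) hC)
  refine ⟨4 * C + 1, fun u => -g u, fun u => -g1 u, fun u => -g2 u, by linarith, ?_⟩
  have ea2 : (1 + m) - 2 = m - 1 := by ring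
  have ea3 : (1 + m) - 3 = m - 2 := by ring
  have ea4 : (1 + m) - 4 = m - 3 := by ring
  have ea1 : (1 + m) - 1 = m := by ring
  have hup : ∀ x y : ℝ, 0 ≤ y → x ≤ C * y → x ≤ (4 * C + 1) * y := by
    intro x y hy hx
    nlinarith
  constructor
  · intro u hu
    have h1 : HasDerivAt (fun u => ∫ v in (0:ℝ)..u, g v) (g u) u :=
      intervalIntegral.integral_hasDerivAt_right (hcont.intervalIntegrable _ _)
        (hcont.stronglyMeasurableAtFilter _ _) hcont.continuousAt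
    refine ((h1.const_sub 1)).congr_of_eventuallyEq ?_
    filter_upwards [lt_mem_nhds hu] with x hx
    exact hsplit x hx
  · intro u hu
    exact (hd1 u hu).neg
  · intro u hu
    exact (hd2 u hu).neg
  · intro u hu
    have hpi : Real.pi ≤ 4 := Real.pi_le_four
    have h1 : ∀ v ∈ Set.Ioi u, ‖g v‖ ≤ C * (1 + u) ^ (-(4:ℝ)) * (1 + v ^ 2)⁻¹ := by
      intro v hv
      have hv' : u < v := hv
      have hv0 : 0 < v := hu.trans hv'
      have h2 : ‖g v‖ ≤ C * (v ^ (0:ℝ) * (1 + v) ^ (-(6:ℝ))) :=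
        (hb0 v hv0).trans (mul_le_mul_of_nonneg_left (skq_conv hv0 (by linarith) (by linarith)) hC)
      refine h2.trans ?_
      rw [Real.rpow_zero, one_mul, mul_assoc]
      refine mul_le_mul_of_nonneg_left ?_ hC
      have h3 : (0:ℝ) < 1 + v := by linarith
      have h4 : (1 + v) ^ (-(6:ℝ)) = (1 + v) ^ (-(4:ℝ)) * (1 + v) ^ (-(2:ℝ)) := by
        rw [← Real.rpow_add h3]
        norm_num
      rw [h4]
      have h5 : (1 + v) ^ (-(4:ℝ)) ≤ (1 + u) ^ (-(4:ℝ)) :=
        Real.rpow_le_rpow_of_nonpos (by linarith) (by linarith) (by norm_num)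
      have h6 : (1 + v) ^ (-(2:ℝ)) ≤ (1 + v ^ 2)⁻¹ := by
        rw [Real.rpow_neg h3.le, show (2 : ℝ) = ((2 : ℕ) : ℝ) by norm_num, Real.rpow_natCast]
        apply inv_anti₀ (by positivity)
        nlinarith
      exact mul_le_mul h5 h6 (by positivity) (by positivity)
    have hint2 : Integrable (fun v : ℝ => C * (1 + u) ^ (-(4:ℝ)) * (1 + v ^ 2)⁻¹) :=
      integrable_inv_one_add_sq.const_mul _
    have h7 : ‖∫ v in Set.Ioi u, g v‖ ≤
        ∫ v in Set.Ioi u, C * (1 + u) ^ (-(4:ℝ)) * (1 + v ^ 2)⁻¹ :=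
      norm_integral_le_of_norm_le hint2.integrableOn
        ((ae_restrict_iff' measurableSet_Ioi).2 (Filter.Eventually.of_forall h1))
    have h8 : ∫ v in Set.Ioi u, C * (1 + u) ^ (-(4:ℝ)) * (1 + v ^ 2)⁻¹ ≤
        ∫ v : ℝ, C * (1 + u) ^ (-(4:ℝ)) * (1 + v ^ 2)⁻¹ :=
      setIntegral_le_integral hint2 (Filter.Eventually.of_forall fun v => by positivity)
    have h10 : ∫ v : ℝ, C * (1 + u) ^ (-(4:ℝ)) * (1 + v ^ 2)⁻¹ =
        C * (1 + u) ^ (-(4:ℝ)) * Real.pi := by
      rw [integral_const_mul, integral_univ_inv_one_add_sq]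
    rw [h10] at h8
    have h9 : 0 ≤ (1 + u) ^ (-(4:ℝ)) := by positivity
    calc ‖sK r α κ c₁ c₂ q u‖ = ‖∫ v in Set.Ioi u, g v‖ := rfl
      _ ≤ C * (1 + u) ^ (-(4:ℝ)) * Real.pi := h7.trans h8
      _ ≤ C * (1 + u) ^ (-(4:ℝ)) * 4 := mul_le_mul_of_nonneg_left hpi (by positivity)
      _ ≤ (4 * C + 1) * (1 + u) ^ (-(4:ℝ)) := by nlinarith
  · intro u hu
    rw [norm_neg, ea2, mul_assoc]
    exact hup _ _ (by positivity) (B0 u hu)
  · intro u hu
    rw [norm_neg, ea3, mul_assoc]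
    exact hup _ _ (by positivity) (B1 u hu)
  · intro u hu
    rw [norm_neg, ea4, mul_assoc]
    exact hup _ _ (by positivity) (B2 u hu)
  · intro u hu
    rw [ea1, hsplit u hu]
    have e : (1 - ∫ v in (0:ℝ)..u, g v) - ((1 : ℝ) : ℂ) = -∫ v in (0:ℝ)..u, g v := by
      push_cast
      ring
    rw [e, norm_neg]
    have h1 : ‖∫ v in (0:ℝ)..u, g v‖ ≤ C * u ^ (m - 1) * |u - 0| := by
      apply intervalIntegral.norm_integral_le_of_norm_le_const
      intro v hv
      rw [Set.uIoc_of_le hu.le] at hv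
      refine (B0 v hv.1).trans (mul_le_mul_of_nonneg_left ?_ hC)
      have h2 : v ^ (m - 1) ≤ u ^ (m - 1) := Real.rpow_le_rpow hv.1.le hv.2 (by linarith)
      have h3 : (1 + v) ^ (-(6:ℝ)) ≤ 1 :=
        Real.rpow_le_one_of_one_le_of_nonpos (by linarith [hv.1]) (by norm_num)
      have h4 : 0 ≤ u ^ (m - 1) := by positivity
      have h5 : 0 ≤ (1 + v) ^ (-(6:ℝ)) := Real.rpow_nonneg (by linarith [hv.1]) _
      nlinarith [Real.rpow_nonneg hv.1.le (m - 1)]
    have h6 : u ^ (m - 1) * u = u ^ m := by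
      rw [← Real.rpow_add_one hu.ne']
      congr 1
      ring
    rw [sub_zero, abs_of_pos hu, mul_assoc, h6] at h1
    exact hup _ _ (by positivity) h1

end Pool.Agent.H729R2.FO
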