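import Mathlib
import Pool.Agent.H729R2.FO.Stubs

set_option autoImplicit false

namespace Pool.Agent.H729R2.FO

open MeasureTheory Pool.Agent.H729R2.CB Pool.Agent.Helper150.Cub
open scoped Classical

/-- linear combinations of `u ^ (r - q - j₁) sin (κ u) ^ m cos (κ u) ^ l` with `q ≤ m + j₂`,
`j₁ + j₂ ≤ i` -/
inductive SmuT (r κ : ℝ) (q : ℕ) : ℕ → (ℝ → ℝ) → Prop
  | term (i j₁ j₂ m l : ℕ) (h : j₁ + j₂ ≤ i) (hm : q ≤ m + j₂) :
      SmuT r κ q i (fun u => u ^ (r - q - j₁) * Real.sin (κ * u) ^ m * Real.cos (κ * u) ^ l)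
  | add (i : ℕ) (f g : ℝ → ℝ) (hf : SmuT r κ q i f) (hg : SmuT r κ q i g) :
      SmuT r κ q i (fun u => f u + g u)
  | smul (i : ℕ) (c : ℝ) (f : ℝ → ℝ) (hf : SmuT r κ q i f) : SmuT r κ q i (fun u => c * f u)

theorem smu_deriv {r κ : ℝ} {q i : ℕ} {f : ℝ → ℝ} (hf : SmuT r κ q i f) :
    ∃ f', SmuT r κ q (i + 1) f' ∧ ∀ u, 0 < u → HasDerivAt f (f' u) u := by
  induction hf with
  | term j₁ j₂ m l h hm =>
    refine ⟨fun u => ((r - q - j₁) * (u ^ (r - q - (j₁ + 1 : ℕ)) * Real.sin (κ * u) ^ m *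
        Real.cos (κ * u) ^ l) + (κ * m) * (u ^ (r - q - j₁) * Real.sin (κ * u) ^ (m - 1) *
        Real.cos (κ * u) ^ (l + 1))) + (-(κ * l)) * (u ^ (r - q - j₁) *
        Real.sin (κ * u) ^ (m + 1) * Real.cos (κ * u) ^ (l - 1)), ?_, ?_⟩
    · refine SmuT.add _ _ _ (SmuT.add _ _ _ (SmuT.smul _ _ _ ?_) (SmuT.smul _ _ _ ?_))
        (SmuT.smul _ _ _ ?_)
      · exact SmuT.term (i + 1) (j₁ + 1) j₂ m l (by omega) hm
      · exact SmuT.term (i + 1) j₁ (j₂ + 1) (m - 1) (l + 1) (by omega) (by omega)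
      · exact SmuT.term (i + 1) j₁ j₂ (m + 1) (l - 1) (by omega) (by omega)
    · intro u hu
      have h1 : HasDerivAt (fun u : ℝ => u ^ (r - q - j₁)) ((r - q - j₁) * u ^ (r - q - j₁ - 1))
          u := Real.hasDerivAt_rpow_const (Or.inl hu.ne')
      have hk : HasDerivAt (fun u : ℝ => κ * u) κ u := by
        simpa using (hasDerivAt_id u).const_mul κ
      have h2 : HasDerivAt (fun u : ℝ => Real.sin (κ * u)) (Real.cos (κ * u) * κ) u := hk.sin
      have h3 : HasDerivAt (fun u : ℝ => Real.cos (κ * u)) (-Real.sin (κ * u) * κ) u := hk.cos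
      have h4 := (h1.mul (h2.pow m)).mul (h3.pow l)
      refine h4.congr_deriv ?_
      have e1 : r - q - j₁ - 1 = r - q - ((j₁ + 1 : ℕ) : ℝ) := by push_cast; ring
      rw [e1]
      simp only [Pi.mul_apply, Pi.pow_apply]
      ring
  | add f g hf hg ihf ihg =>
    obtain ⟨f', h1, h2⟩ := ihf
    obtain ⟨g', h3, h4⟩ := ihg
    exact ⟨fun u => f' u + g' u, SmuT.add _ _ _ h1 h3, fun u hu => (h2 u hu).add (h4 u hu)⟩
  | smul c f hf ih =>
    obtain ⟨f', h1, h2⟩ := ih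
    exact ⟨fun u => c * f' u, SmuT.smul _ _ _ h1, fun u hu => (h2 u hu).const_mul c⟩

theorem smu_bound {r κ : ℝ} {q i : ℕ} {f : ℝ → ℝ} (hκ : 0 < κ) (hκ1 : κ ≤ 1)
    (hi : i ≤ q) (hf : SmuT r κ q i f) :
    ∃ B, 0 ≤ B ∧ ∀ u, 0 < u → (u ≤ 1 → |f u| ≤ B * u ^ (r - i)) ∧
      (1 ≤ u → |f u| ≤ B * u ^ (r - q)) := by
  induction hf with
  | term j₁ j₂ m l h hm =>
    refine ⟨1, zero_le_one, fun u hu => ?_⟩
    have hs1 : |Real.sin (κ * u)| ≤ 1 := Real.abs_sin_le_one _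
    have hc1 : |Real.cos (κ * u)| ^ l ≤ 1 := pow_le_one₀ (abs_nonneg _) (Real.abs_cos_le_one _)
    have hsu : |Real.sin (κ * u)| ≤ u := by
      refine (Real.abs_sin_le_abs (x := κ * u)).trans ?_
      rw [abs_of_pos (mul_pos hκ hu)]
      nlinarith
    have habs : |u ^ (r - q - j₁) * Real.sin (κ * u) ^ m * Real.cos (κ * u) ^ l| =
        u ^ (r - q - j₁) * |Real.sin (κ * u)| ^ m * |Real.cos (κ * u)| ^ l := by
      rw [abs_mul, abs_mul, abs_pow, abs_pow, abs_of_nonneg (Real.rpow_nonneg hu.le _)]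
    constructor
    · intro hu1
      rw [habs, one_mul]
      have h1 : |Real.sin (κ * u)| ^ m ≤ u ^ (q - j₂) := by
        calc |Real.sin (κ * u)| ^ m ≤ |Real.sin (κ * u)| ^ (q - j₂) :=
              pow_le_pow_of_le_one (abs_nonneg _) hs1 (by omega)
          _ ≤ u ^ (q - j₂) := pow_le_pow_left₀ (abs_nonneg _) hsu _
      calc u ^ (r - q - j₁) * |Real.sin (κ * u)| ^ m * |Real.cos (κ * u)| ^ l
          ≤ u ^ (r - q - j₁) * u ^ (q - j₂) * 1 := by
            refine mul_le_mul (mul_le_mul_of_nonneg_left h1 (Real.rpow_nonneg hu.le _)) hc1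
              (by positivity) (by positivity)
        _ = u ^ (r - (j₁ + j₂ : ℕ)) := by
            rw [mul_one, ← Real.rpow_natCast u (q - j₂), ← Real.rpow_add hu]
            congr 1
            rw [Nat.cast_sub (by omega)]
            push_cast
            ring
        _ ≤ u ^ (r - i) := by
            apply Real.rpow_le_rpow_of_exponent_ge hu hu1
            have : ((j₁ + j₂ : ℕ) : ℝ) ≤ i := by exact_mod_cast h
            linarith
    · intro hu1
      rw [habs, one_mul]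
      calc u ^ (r - q - j₁) * |Real.sin (κ * u)| ^ m * |Real.cos (κ * u)| ^ l
          ≤ u ^ (r - q - j₁) * 1 * 1 := by
            refine mul_le_mul (mul_le_mul_of_nonneg_left (pow_le_one₀ (abs_nonneg _) hs1)
              (Real.rpow_nonneg hu.le _)) hc1 (by positivity) (by positivity)
        _ = u ^ (r - q - j₁) := by ring
        _ ≤ u ^ (r - q) := by
            apply Real.rpow_le_rpow_of_exponent_le hu1
            have : (0 : ℝ) ≤ j₁ := Nat.cast_nonneg _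
            linarith
  | add f g hf hg ihf ihg =>
    obtain ⟨B1, h1, h2⟩ := ihf
    obtain ⟨B2, h3, h4⟩ := ihg
    refine ⟨B1 + B2, add_nonneg h1 h3, fun u hu => ⟨fun hu1 => ?_, fun hu1 => ?_⟩⟩
    · rw [add_mul]
      exact (abs_add_le _ _).trans (add_le_add ((h2 u hu).1 hu1) ((h4 u hu).1 hu1))
    · rw [add_mul]
      exact (abs_add_le _ _).trans (add_le_add ((h2 u hu).2 hu1) ((h4 u hu).2 hu1))
  | smul c f hf ih =>
    obtain ⟨B1, h1, h2⟩ := ih
    refine ⟨|c| * B1, by positivity, fun u hu => ⟨fun hu1 => ?_, fun hu1 => ?_⟩⟩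
    · rw [abs_mul, mul_assoc]
      exact mul_le_mul_of_nonneg_left ((h2 u hu).1 hu1) (abs_nonneg _)
    · rw [abs_mul, mul_assoc]
      exact mul_le_mul_of_nonneg_left ((h2 u hu).2 hu1) (abs_nonneg _)

/-- conversion of the bounds; `c` is the exponent near `0` -/
theorem smu_conv {c p d B x u : ℝ} {k : ℕ} (hB : 0 ≤ B) (hu : 0 < u)
    (hc : c ≤ p) (hd : d ≤ c - k) (h1 : u ≤ 1 → x ≤ B * u ^ p) (h2 : 1 ≤ u → x ≤ B * u ^ d) :
    x ≤ 2 ^ k * B * u ^ c * (1 + u) ^ (-(k : ℝ)) := by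
  have h3 : (1 + u) ^ (-(k : ℝ)) = ((1 + u) ^ k)⁻¹ := by
    rw [Real.rpow_neg (by linarith), Real.rpow_natCast]
  rw [h3]
  rcases le_total u 1 with hu1 | hu1
  · calc x ≤ B * u ^ p := h1 hu1
      _ ≤ B * u ^ c := mul_le_mul_of_nonneg_left
          (Real.rpow_le_rpow_of_exponent_ge hu hu1 hc) hB
      _ = 2 ^ k * B * u ^ c * ((2 : ℝ) ^ k)⁻¹ := by
          field_simp
      _ ≤ 2 ^ k * B * u ^ c * ((1 + u) ^ k)⁻¹ := by
          refine mul_le_mul_of_nonneg_left ?_ (by positivity)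
          exact inv_anti₀ (by positivity) (pow_le_pow_left₀ (by linarith) (by linarith) k)
  · calc x ≤ B * u ^ d := h2 hu1
      _ ≤ B * u ^ (c - k) := mul_le_mul_of_nonneg_left
          (Real.rpow_le_rpow_of_exponent_le hu1 hd) hB
      _ = 2 ^ k * B * u ^ c * ((2 * u) ^ k)⁻¹ := by
          rw [Real.rpow_sub hu, Real.rpow_natCast, mul_pow]
          field_simp
      _ ≤ 2 ^ k * B * u ^ c * ((1 + u) ^ k)⁻¹ := by
          refine mul_le_mul_of_nonneg_left ?_ (by positivity)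
          exact inv_anti₀ (by positivity) (pow_le_pow_left₀ (by linarith) (by linarith) k)

theorem t_SMU : S_SMU := by
  intro r α κ q hr hκ hκ1 hq
  have hq0 : 3 ≤ q := by
    have h1 : (3 : ℝ) ≤ q := by linarith
    exact_mod_cast h1
  -- the real functions
  obtain ⟨f₁, hf₁, hd₁⟩ := smu_deriv (SmuT.smul (r := r) (κ := κ) (q := q) 0 ((κ ^ q)⁻¹) _
    (SmuT.term 0 0 0 q 0 le_rfl le_rfl))
  obtain ⟨f₂, hf₂, hd₂⟩ := smu_deriv hf₁
  obtain ⟨f₃, hf₃, hd₃⟩ := smu_deriv hf₂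
  obtain ⟨B₀, hB₀, hb₀⟩ := smu_bound hκ hκ1 (by omega) (SmuT.smul (r := r) (κ := κ) (q := q) 0
    ((κ ^ q)⁻¹) _ (SmuT.term 0 0 0 q 0 le_rfl le_rfl))
  obtain ⟨B₁, hB₁, hb₁⟩ := smu_bound hκ hκ1 (by omega) hf₁
  obtain ⟨B₂, hB₂, hb₂⟩ := smu_bound hκ hκ1 (by omega) hf₂
  obtain ⟨B₃, hB₃, hb₃⟩ := smu_bound hκ hκ1 (by omega) hf₃
  have hf0 : ∀ u : ℝ, 0 < u → u ^ r * (Real.sinc (κ * u)) ^ q =
      (κ ^ q)⁻¹ * (u ^ (r - q - (0 : ℕ)) * Real.sin (κ * u) ^ q * Real.cos (κ * u) ^ 0) := by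
    intro u hu
    rw [Real.sinc_of_ne_zero (mul_pos hκ hu).ne', div_pow, mul_pow, pow_zero, mul_one,
      Nat.cast_zero, sub_zero, Real.rpow_sub hu, Real.rpow_natCast]
    field_simp
  set e : ℂ := Complex.exp (((α * Real.pi / 2 : ℝ) : ℂ) * Complex.I) with he
  have hen : ‖e‖ = 1 := Complex.norm_exp_ofReal_mul_I _
  have hnorm : ∀ x : ℝ, ‖e * (x : ℂ)‖ = |x| := by
    intro x
    rw [norm_mul, hen, one_mul, Complex.norm_real, Real.norm_eq_abs]
  have hsM : ∀ u : ℝ, 0 < u → sM r α κ q u = e * (((κ ^ q)⁻¹ *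
      (u ^ (r - q - (0 : ℕ)) * Real.sin (κ * u) ^ q * Real.cos (κ * u) ^ 0) : ℝ) : ℂ) := by
    intro u hu
    unfold sM
    rw [hf0 u hu]
  set a : ℝ := 1 + min r (3 / 2) with ha
  have ha1 : a - 1 ≤ r := by
    have := min_le_left r (3 / 2)
    linarith
  have ha2 : 2 ≤ a := by
    have : 1 ≤ min r (3 / 2) := le_min hr.le (by norm_num)
    linarith
  have ha3 : a ≤ 5 / 2 := by
    have := min_le_right r (3 / 2)
    linarith
  refine ⟨2 ^ 6 * (B₀ + B₁ + B₂ + B₃) + 1, fun u => e * (f₁ u : ℂ), fun u => e * (f₂ u : ℂ),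
    fun u => e * (f₃ u : ℂ), by nlinarith, ?_⟩
  have hBi : ∀ B' y : ℝ, 0 ≤ y → 0 ≤ B' → B' ≤ B₀ + B₁ + B₂ + B₃ → ∀ k : ℕ, k ≤ 6 →
      2 ^ k * B' * y ≤ (2 ^ 6 * (B₀ + B₁ + B₂ + B₃) + 1) * y := by
    intro B' y hy hB' hB'' k hk
    refine mul_le_mul_of_nonneg_right ?_ hy
    have h1 : (2 : ℝ) ^ k ≤ 2 ^ 6 := pow_le_pow_right₀ (by norm_num) hk
    calc 2 ^ k * B' ≤ 2 ^ 6 * (B₀ + B₁ + B₂ + B₃) := mul_le_mul h1 hB'' hB' (by positivity)
      _ ≤ _ := by linarith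
  constructor
  · intro u hu
    have h1 := ((hd₁ u hu).ofReal_comp).const_mul e
    refine h1.congr_of_eventuallyEq ?_
    filter_upwards [lt_mem_nhds hu] with v hv
    exact hsM v hv
  · intro u hu
    exact ((hd₂ u hu).ofReal_comp).const_mul e
  · intro u hu
    exact ((hd₃ u hu).ofReal_comp).const_mul e
  · intro u hu
    rw [hsM u hu, hnorm]
    have h1 := smu_conv (k := 4) (c := 0) (p := r - (0 : ℕ)) (d := r - q) hB₀ hu
      (by push_cast; linarith) (by push_cast; linarith) (hb₀ u hu).1 (hb₀ u hu).2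
    rw [Real.rpow_zero, mul_one] at h1
    refine h1.trans ?_
    push_cast
    exact hBi B₀ _ (by positivity) hB₀ (by linarith) 4 (by norm_num)
  · intro u hu
    rw [hnorm]
    have h1 := smu_conv (k := 6) (c := a - 2) (p := r - ((0 + 1 : ℕ) : ℝ)) (d := r - q) hB₁ hu
      (by push_cast; linarith) (by push_cast; linarith) (hb₁ u hu).1 (hb₁ u hu).2
    refine h1.trans ?_
    push_cast
    rw [mul_assoc, mul_assoc (2 ^ 6 * (B₀ + B₁ + B₂ + B₃) + 1)]
    exact hBi B₁ _ (by positivity) hB₁ (by linarith) 6 le_rfl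
  · intro u hu
    rw [hnorm]
    have h1 := smu_conv (k := 6) (c := a - 3) (p := r - ((0 + 1 + 1 : ℕ) : ℝ)) (d := r - q) hB₂ hu
      (by push_cast; linarith) (by push_cast; linarith) (hb₂ u hu).1 (hb₂ u hu).2
    refine h1.trans ?_
    push_cast
    rw [mul_assoc, mul_assoc (2 ^ 6 * (B₀ + B₁ + B₂ + B₃) + 1)]
    exact hBi B₂ _ (by positivity) hB₂ (by linarith) 6 le_rfl
  · intro u hu
    rw [hnorm]
    have h1 := smu_conv (k := 6) (c := a - 4) (p := r - ((0 + 1 + 1 + 1 : ℕ) : ℝ)) (d := r - q)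
      hB₃ hu (by push_cast; linarith) (by push_cast; linarith) (hb₃ u hu).1 (hb₃ u hu).2
    refine h1.trans ?_
    push_cast
    rw [mul_assoc, mul_assoc (2 ^ 6 * (B₀ + B₁ + B₂ + B₃) + 1)]
    exact hBi B₃ _ (by positivity) hB₃ (by linarith) 6 le_rfl
  · intro u hu
    rw [hsM u hu, Complex.ofReal_zero, sub_zero, hnorm]
    have h1 := smu_conv (k := 0) (c := a - 1) (p := r - (0 : ℕ)) (d := r - q) hB₀ hu
      (by push_cast; linarith) (by push_cast; linarith) (hb₀ u hu).1 (hb₀ u hu).2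
    have e0 : (1 + u) ^ (-((0 : ℕ) : ℝ)) = 1 := by
      rw [Nat.cast_zero, neg_zero, Real.rpow_zero]
    rw [e0, mul_one] at h1
    exact h1.trans (hBi B₀ _ (by positivity) hB₀ (by linarith) 0 (by norm_num))

end Pool.Agent.H729R2.FO
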