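import Mathlib
import Pool.Agent.H729R2.FO.Stubs
import Pool.Agent.H729R2.CB.T_NRM

set_option autoImplicit false
set_option maxHeartbeats 2000000

namespace Pool.Agent.H729R2.FO

open MeasureTheory Pool.Agent.H729R2.CB Pool.Agent.Helper150.Cub

open scoped Classical

theorem sq_sum1 (p : ℝ) (h0 : 0 < p) (h1 : p < 1) (N : ℕ) :
    ∑ n ∈ Finset.range N, (1 + (n : ℝ)) ^ (-p) ≤ (N : ℝ) ^ (1 - p) / (1 - p) := by
  have hp : 0 < 1 - p := by linarith
  induction N with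
  | zero => simp [Real.zero_rpow hp.ne']
  | succ n ih =>
    rw [Finset.sum_range_succ]
    have hy : (0 : ℝ) < (n : ℝ) + 1 := by positivity
    have key : (n : ℝ) ^ (1 - p) + (1 - p) * (1 + (n : ℝ)) ^ (-p) ≤ ((n : ℝ) + 1) ^ (1 - p) := by
      have e1 : (n : ℝ) = ((n : ℝ) + 1) * (1 + (-(1 / ((n : ℝ) + 1)))) := by field_simp; ring
      have hs : (-1 : ℝ) ≤ -(1 / ((n : ℝ) + 1)) := by
        have : 1 / ((n : ℝ) + 1) ≤ 1 := by
          rw [div_le_one hy]; linarith [(Nat.cast_nonneg n : (0 : ℝ) ≤ n)]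
        linarith
      have e2 := rpow_one_add_le_one_add_mul_self hs hp.le (by linarith : 1 - p ≤ 1)
      have e3 : (n : ℝ) ^ (1 - p) =
          ((n : ℝ) + 1) ^ (1 - p) * (1 + (-(1 / ((n : ℝ) + 1)))) ^ (1 - p) := by
        conv_lhs => rw [e1]
        rw [Real.mul_rpow hy.le (by linarith)]
      have e4 : ((n : ℝ) + 1) ^ (1 - p) * (1 / ((n : ℝ) + 1)) = (1 + (n : ℝ)) ^ (-p) := by
        rw [add_comm (1 : ℝ) (n : ℝ), show (-p : ℝ) = (1 - p) - 1 by ring, Real.rpow_sub_one hy.ne']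
        ring
      have e5 := mul_le_mul_of_nonneg_left e2 (Real.rpow_nonneg hy.le (1 - p))
      rw [← e3] at e5
      have e6 : ((n : ℝ) + 1) ^ (1 - p) * (1 + (1 - p) * -(1 / ((n : ℝ) + 1))) =
          ((n : ℝ) + 1) ^ (1 - p) - (1 - p) * (1 + (n : ℝ)) ^ (-p) := by
        rw [← e4]; ring
      linarith
    rw [le_div_iff₀ hp] at ih ⊢
    push_cast
    nlinarith

theorem sq_sum2 (p : ℝ) (h0 : 0 < p) (N : ℕ) (hN : 1 ≤ N) (m : ℕ) :
    ∑ n ∈ Finset.range m, (1 + ((n + N : ℕ) : ℝ)) ^ (-p - 1) ≤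
      ((N : ℝ) ^ (-p) - ((N : ℝ) + m) ^ (-p)) / p := by
  have hN' : (1 : ℝ) ≤ N := by exact_mod_cast hN
  induction m with
  | zero => simp
  | succ m ih =>
    rw [Finset.sum_range_succ]
    have hx : (0 : ℝ) < (N : ℝ) + m := by positivity
    have hy : (0 : ℝ) < (N : ℝ) + m + 1 := by positivity
    have key : p * (1 + ((m + N : ℕ) : ℝ)) ^ (-p - 1) ≤
        ((N : ℝ) + m) ^ (-p) - ((N : ℝ) + m + 1) ^ (-p) := by
      have e1 : (N : ℝ) + m = ((N : ℝ) + m + 1) * (1 - 1 / ((N : ℝ) + m + 1)) := by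
        field_simp; ring
      have hs : (0 : ℝ) < 1 - 1 / ((N : ℝ) + m + 1) := by
        have : 1 / ((N : ℝ) + m + 1) < 1 := by
          rw [div_lt_one hy]; linarith
        linarith
      have e2 : 1 + p * (1 / ((N : ℝ) + m + 1)) ≤ (1 - 1 / ((N : ℝ) + m + 1)) ^ (-p) := by
        rw [Real.rpow_def_of_pos hs]
        have l1 := Real.log_le_sub_one_of_pos hs
        have l2 := Real.add_one_le_exp (Real.log (1 - 1 / ((N : ℝ) + m + 1)) * -p)
        nlinarith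
      have e3 : ((N : ℝ) + m) ^ (-p) =
          ((N : ℝ) + m + 1) ^ (-p) * (1 - 1 / ((N : ℝ) + m + 1)) ^ (-p) := by
        conv_lhs => rw [e1]
        rw [Real.mul_rpow hy.le hs.le]
      have e4 : ((N : ℝ) + m + 1) ^ (-p) * (1 / ((N : ℝ) + m + 1)) =
          (1 + ((m + N : ℕ) : ℝ)) ^ (-p - 1) := by
        have : (1 + ((m + N : ℕ) : ℝ)) = (N : ℝ) + m + 1 := by push_cast; ring
        rw [this, Real.rpow_sub_one hy.ne']
        ring
      have e5 := mul_le_mul_of_nonneg_left e2 (Real.rpow_nonneg hy.le (-p))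
      rw [← e3] at e5
      have e6 : ((N : ℝ) + m + 1) ^ (-p) * (1 + p * (1 / ((N : ℝ) + m + 1))) =
          ((N : ℝ) + m + 1) ^ (-p) + p * (1 + ((m + N : ℕ) : ℝ)) ^ (-p - 1) := by
        rw [← e4]; ring
      linarith
    rw [le_div_iff₀ h0] at ih ⊢
    have e7 : ((N : ℝ) + ((m + 1 : ℕ) : ℝ)) = (N : ℝ) + m + 1 := by push_cast; ring
    rw [e7]
    nlinarith

theorem sq_tail (p : ℝ) (h0 : 0 < p) (N : ℕ) (hN : 1 ≤ N) :
    Summable (fun n : ℕ => (1 + ((n + N : ℕ) : ℝ)) ^ (-p - 1)) ∧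
    ∑' n : ℕ, (1 + ((n + N : ℕ) : ℝ)) ^ (-p - 1) ≤ (N : ℝ) ^ (-p) / p := by
  have hb : ∀ m : ℕ, ∑ n ∈ Finset.range m, (1 + ((n + N : ℕ) : ℝ)) ^ (-p - 1) ≤
      (N : ℝ) ^ (-p) / p := by
    intro m
    refine (sq_sum2 p h0 N hN m).trans ?_
    have : 0 ≤ ((N : ℝ) + m) ^ (-p) := Real.rpow_nonneg (by positivity) _
    gcongr
    linarith
  have hn : ∀ n : ℕ, 0 ≤ (1 + ((n + N : ℕ) : ℝ)) ^ (-p - 1) := fun n =>
    Real.rpow_nonneg (by positivity) _
  exact ⟨summable_of_sum_range_le hn hb, Real.tsum_le_of_sum_range_le hn hb⟩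

theorem sq_one (p : ℝ) (h0 : 0 < p) (h1 : p < 1) (f : ℕ → ℂ) (hf : Summable (fun n => ‖f n‖))
    (M : ℝ) (hM : 0 ≤ M) (b1 : ∀ n : ℕ, ‖f n‖ ≤ M * (1 + (n : ℝ)) ^ (-p))
    (b2 : ∀ n : ℕ, ‖f (n + 1) - f n‖ ≤ M * (1 + (n : ℝ)) ^ (-p - 1))
    (z : ℂ) (hz : ‖z‖ = 1) (hz1 : z ≠ 1) :
    ‖∑' n : ℕ, f n * z ^ n‖ ≤ (3 / (1 - p) + 1 + 1 / p) * M * ‖z - 1‖ ^ (p - 1) := by
  have hp : 0 < 1 - p := by linarith
  set δ := ‖z - 1‖ with hδ
  have hδ0 : 0 < δ := norm_pos_iff.mpr (sub_ne_zero.mpr hz1)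
  have hδ2 : δ ≤ 2 := by
    calc δ ≤ ‖z‖ + ‖(1 : ℂ)‖ := norm_sub_le _ _
      _ = 2 := by rw [hz, norm_one]; norm_num
  set N := ⌈1 / δ⌉₊ with hN
  have hN1 : 1 ≤ N := Nat.one_le_iff_ne_zero.mpr (by
    rw [hN]; exact (Nat.ceil_pos.mpr (by positivity)).ne')
  have hN1' : (1 : ℝ) ≤ N := by exact_mod_cast hN1
  have hNl : 1 / δ ≤ N := Nat.le_ceil _
  have hNu : (N : ℝ) ≤ 3 / δ := by
    have h := (Nat.ceil_lt_add_one (by positivity : 0 ≤ 1 / δ)).le
    have h2 : 1 ≤ 2 / δ := by rw [le_div_iff₀ hδ0]; linarith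
    calc (N : ℝ) ≤ 1 / δ + 1 := h
      _ ≤ 1 / δ + 2 / δ := by linarith
      _ = 3 / δ := by ring
  have hg : Summable (fun n : ℕ => f n * z ^ n) := by
    apply Summable.of_norm
    refine hf.congr (fun n => ?_)
    rw [norm_mul, norm_pow, hz, one_pow, mul_one]
  have hg1 : Summable (fun n : ℕ => f (n + N) * z ^ (n + N)) := (summable_nat_add_iff N).mpr hg
  have hg2 : Summable (fun n : ℕ => f (n + N + 1) * z ^ (n + N + 1)) :=
    (summable_nat_add_iff (N + 1)).mpr hg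
  rw [← hg.sum_add_tsum_nat_add N]
  set T := ∑' n : ℕ, f (n + N) * z ^ (n + N) with hT
  -- first part
  have p1 : ‖∑ n ∈ Finset.range N, f n * z ^ n‖ ≤ 3 / (1 - p) * M * δ ^ (p - 1) := by
    calc ‖∑ n ∈ Finset.range N, f n * z ^ n‖ ≤ ∑ n ∈ Finset.range N, ‖f n * z ^ n‖ :=
          norm_sum_le _ _
      _ ≤ ∑ n ∈ Finset.range N, M * (1 + (n : ℝ)) ^ (-p) := by
          apply Finset.sum_le_sum
          intro n _
          rw [norm_mul, norm_pow, hz, one_pow, mul_one]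
          exact b1 n
      _ = M * ∑ n ∈ Finset.range N, (1 + (n : ℝ)) ^ (-p) := by rw [Finset.mul_sum]
      _ ≤ M * ((N : ℝ) ^ (1 - p) / (1 - p)) :=
          mul_le_mul_of_nonneg_left (sq_sum1 p h0 h1 N) hM
      _ ≤ M * ((3 / δ) ^ (1 - p) / (1 - p)) := by gcongr
      _ ≤ M * ((3 * δ ^ (p - 1)) / (1 - p)) := by
          have h3 : (3 / δ) ^ (1 - p) ≤ 3 * δ ^ (p - 1) := by
            rw [Real.div_rpow (by norm_num) hδ0.le, show p - 1 = -(1 - p) by ring,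
              Real.rpow_neg hδ0.le, div_eq_mul_inv]
            have h4 : (3 : ℝ) ^ (1 - p) ≤ 3 := by
              calc (3 : ℝ) ^ (1 - p) ≤ (3 : ℝ) ^ (1 : ℝ) :=
                    Real.rpow_le_rpow_of_exponent_le (by norm_num) (by linarith)
                _ = 3 := Real.rpow_one _
            exact mul_le_mul_of_nonneg_right h4 (inv_nonneg.mpr (Real.rpow_nonneg hδ0.le _))
          gcongr
      _ = 3 / (1 - p) * M * δ ^ (p - 1) := by ring
  -- second part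
  have eT : (z - 1) * T = -(f N * z ^ N) -
      ∑' n : ℕ, (f (n + N + 1) - f (n + N)) * z ^ (n + N + 1) := by
    have t1 : T = f N * z ^ N + ∑' n : ℕ, f (n + N + 1) * z ^ (n + N + 1) := by
      rw [hT, hg1.tsum_eq_zero_add]
      simp only [zero_add]
      congr 1
      apply tsum_congr
      intro n
      rw [show n + 1 + N = n + N + 1 by ring]
    have t2 : z * T = ∑' n : ℕ, f (n + N) * z ^ (n + N + 1) := by
      rw [hT, ← tsum_mul_left]
      apply tsum_congr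
      intro n
      ring
    have t3 : Summable (fun n : ℕ => f (n + N) * z ^ (n + N + 1)) := by
      refine (hg1.mul_left z).congr (fun n => ?_)
      ring
    have t4 : ∑' n : ℕ, (f (n + N + 1) - f (n + N)) * z ^ (n + N + 1) =
        ∑' n : ℕ, f (n + N + 1) * z ^ (n + N + 1) - ∑' n : ℕ, f (n + N) * z ^ (n + N + 1) := by
      rw [← hg2.tsum_sub t3]
      apply tsum_congr
      intro n
      ring
    rw [t4, ← t2]
    linear_combination -t1
  obtain ⟨hs, hs2⟩ := sq_tail p h0 N hN1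
  have hNp : (N : ℝ) ^ (-p) ≤ δ ^ p := by
    rw [Real.rpow_neg (by positivity), ← Real.inv_rpow (by positivity)]
    apply Real.rpow_le_rpow (by positivity) _ h0.le
    rw [inv_le_comm₀ (by positivity) hδ0, ← one_div]
    exact hNl
  have p2 : ‖(z - 1) * T‖ ≤ (1 + 1 / p) * M * δ ^ p := by
    have q1 : ‖f N * z ^ N‖ ≤ M * (N : ℝ) ^ (-p) := by
      rw [norm_mul, norm_pow, hz, one_pow, mul_one]
      refine (b1 N).trans (mul_le_mul_of_nonneg_left ?_ hM)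
      apply Real.rpow_le_rpow_of_nonpos (by positivity) (by linarith) (by linarith)
    have q2 : ‖∑' n : ℕ, (f (n + N + 1) - f (n + N)) * z ^ (n + N + 1)‖ ≤
        M * ((N : ℝ) ^ (-p) / p) := by
      have hh : ∀ n : ℕ, ‖(f (n + N + 1) - f (n + N)) * z ^ (n + N + 1)‖ ≤
          M * (1 + ((n + N : ℕ) : ℝ)) ^ (-p - 1) := by
        intro n
        rw [norm_mul, norm_pow, hz, one_pow, mul_one]
        exact b2 (n + N)
      calc ‖∑' n : ℕ, (f (n + N + 1) - f (n + N)) * z ^ (n + N + 1)‖ ≤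
          ∑' n : ℕ, M * (1 + ((n + N : ℕ) : ℝ)) ^ (-p - 1) :=
            tsum_of_norm_bounded (hs.mul_left M).hasSum hh
        _ = M * ∑' n : ℕ, (1 + ((n + N : ℕ) : ℝ)) ^ (-p - 1) := tsum_mul_left
        _ ≤ M * ((N : ℝ) ^ (-p) / p) := mul_le_mul_of_nonneg_left hs2 hM
    rw [eT]
    calc ‖-(f N * z ^ N) - ∑' n : ℕ, (f (n + N + 1) - f (n + N)) * z ^ (n + N + 1)‖ ≤
        ‖-(f N * z ^ N)‖ + ‖∑' n : ℕ, (f (n + N + 1) - f (n + N)) * z ^ (n + N + 1)‖ :=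
          norm_sub_le _ _
      _ ≤ M * (N : ℝ) ^ (-p) + M * ((N : ℝ) ^ (-p) / p) := by
          rw [norm_neg]; exact add_le_add q1 q2
      _ = (1 + 1 / p) * M * (N : ℝ) ^ (-p) := by ring
      _ ≤ (1 + 1 / p) * M * δ ^ p := by gcongr
  have p3 : ‖T‖ ≤ (1 + 1 / p) * M * δ ^ (p - 1) := by
    rw [norm_mul, ← hδ] at p2
    rw [Real.rpow_sub_one hδ0.ne']
    have : (1 + 1 / p) * M * (δ ^ p / δ) = ((1 + 1 / p) * M * δ ^ p) / δ := by ring
    rw [this, le_div_iff₀ hδ0]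
    linarith
  calc ‖∑ n ∈ Finset.range N, f n * z ^ n + T‖ ≤ ‖∑ n ∈ Finset.range N, f n * z ^ n‖ + ‖T‖ :=
        norm_add_le _ _
    _ ≤ 3 / (1 - p) * M * δ ^ (p - 1) + (1 + 1 / p) * M * δ ^ (p - 1) := add_le_add p1 p3
    _ = (3 / (1 - p) + 1 + 1 / p) * M * δ ^ (p - 1) := by ring

theorem sq_four (x : G) (n : ℕ) : (fourier (n : ℤ) x : ℂ) = (fourier 1 x : ℂ) ^ n := by
  induction n with
  | zero => simp
  | succ n ih =>
    push_cast
    rw [fourier_add, ih, pow_succ]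

theorem sq_fourn (x : G) (n : ℕ) : (fourier (-(n : ℤ)) x : ℂ) = ((fourier 1 x : ℂ)⁻¹) ^ n := by
  have h : (fourier (-(n : ℤ)) x : ℂ) * (fourier (n : ℤ) x : ℂ) = 1 := by
    rw [← fourier_add]; simp
  rw [sq_four] at h
  rw [inv_pow]
  exact eq_inv_of_mul_eq_one_left h

theorem sq_norm (x : G) (k : ℤ) : ‖(fourier k x : ℂ)‖ = 1 := by
  rw [fourier_apply]
  exact Circle.norm_coe _

theorem sq_Ds (c : ℤ → ℂ) (hc : Summable (fun k => ‖c k‖)) :
    Summable (fun k : ℤ => ‖c (k + 1) - 2 * c k + c (k - 1)‖) := by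
  have hc1 : Summable (fun k : ℤ => ‖c (k + 1)‖) := (Equiv.addRight (1 : ℤ)).summable_iff.mpr hc
  have hcm : Summable (fun k : ℤ => ‖c (k - 1)‖) := (Equiv.subRight (1 : ℤ)).summable_iff.mpr hc
  refine Summable.of_nonneg_of_le (fun k => norm_nonneg _) (fun k => ?_)
    ((hc1.add (hc.mul_left 2)).add hcm)
  calc ‖c (k + 1) - 2 * c k + c (k - 1)‖ ≤ ‖c (k + 1) - 2 * c k‖ + ‖c (k - 1)‖ := norm_add_le _ _
    _ ≤ ‖c (k + 1)‖ + ‖2 * c k‖ + ‖c (k - 1)‖ := by gcongr; exact norm_sub_le _ _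
    _ = ‖c (k + 1)‖ + 2 * ‖c k‖ + ‖c (k - 1)‖ := by rw [norm_mul]; norm_num

theorem sq_key (c e : ℤ → ℂ) (z : ℂ) (he : ∀ k, e (k + 1) = e k * z) (hen : ∀ k, ‖e k‖ = 1)
    (hc : Summable (fun k => ‖c k‖)) :
    z * ∑' k : ℤ, (c (k + 1) - 2 * c k + c (k - 1)) * e k = (z - 1) ^ 2 * ∑' k, c k * e k := by
  have hcs : Summable (fun k : ℤ => c k * e k) := by
    apply Summable.of_norm
    refine hc.congr (fun k => ?_)
    rw [norm_mul, hen, mul_one]
  have s1 : Summable (fun k : ℤ => c (k + 1) * e (k + 1)) :=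
    (Equiv.addRight (1 : ℤ)).summable_iff.mpr hcs
  have s2 : Summable (fun k : ℤ => c (k - 1) * e (k - 1)) :=
    (Equiv.subRight (1 : ℤ)).summable_iff.mpr hcs
  have t1 : ∑' k : ℤ, c (k + 1) * e (k + 1) = ∑' k, c k * e k :=
    (Equiv.addRight (1 : ℤ)).tsum_eq (fun k => c k * e k)
  have t2 : ∑' k : ℤ, c (k - 1) * e (k - 1) = ∑' k, c k * e k :=
    (Equiv.subRight (1 : ℤ)).tsum_eq (fun k => c k * e k)
  have e1 : ∀ k : ℤ, z * ((c (k + 1) - 2 * c k + c (k - 1)) * e k) =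
      c (k + 1) * e (k + 1) - 2 * z * (c k * e k) +
        z ^ 2 * (c (k - 1) * e (k - 1)) := by
    intro k
    have f1 : e (k + 1) = e k * z := he k
    have f2 : e k = e (k - 1) * z := by
      have := he (k - 1)
      rwa [sub_add_cancel] at this
    rw [f1, f2]
    ring
  rw [← tsum_mul_left, tsum_congr e1,
    (s1.sub (hcs.mul_left (2 * z))).tsum_add (s2.mul_left (z ^ 2)),
    s1.tsum_sub (hcs.mul_left (2 * z)), tsum_mul_left, tsum_mul_left, t1, t2]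
  ring

theorem sq_two (p : ℝ) (h0 : 0 < p) (h1 : p < 1) (D e : ℤ → ℂ) (hD : Summable (fun k => ‖D k‖))
    (M : ℝ) (hM : 0 ≤ M) (b1 : ∀ k : ℤ, ‖D k‖ ≤ M * (1 + |(k : ℝ)|) ^ (-p))
    (b2 : ∀ k : ℤ, ‖D (k + 1) - D k‖ ≤ M * (1 + |(k : ℝ)|) ^ (-p - 1))
    (z : ℂ) (hz : ‖z‖ = 1) (hz1 : z ≠ 1) (he : ∀ n : ℕ, e n = z ^ n)
    (he' : ∀ n : ℕ, e (-((n : ℤ) + 1)) = (z⁻¹) ^ (n + 1)) (hen : ∀ k, ‖e k‖ = 1) :
    ‖∑' k : ℤ, D k * e k‖ ≤ 2 * ((3 / (1 - p) + 1 + 1 / p) * M * ‖z - 1‖ ^ (p - 1)) := by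
  have hDe : Summable (fun k : ℤ => D k * e k) := by
    apply Summable.of_norm
    refine hD.congr (fun k => ?_)
    rw [norm_mul, hen, mul_one]
  have ip : Function.Injective (fun n : ℕ => (n : ℤ)) := Nat.cast_injective
  have im : Function.Injective (fun n : ℕ => (-((n : ℤ) + 1) : ℤ)) := by
    intro m n h
    simp only at h
    omega
  have u1 : ‖∑' n : ℕ, D n * z ^ n‖ ≤ (3 / (1 - p) + 1 + 1 / p) * M * ‖z - 1‖ ^ (p - 1) := by
    apply sq_one p h0 h1 (fun n : ℕ => D n) (hD.comp_injective ip) M hM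
    · intro n
      have := b1 n
      simpa using this
    · intro n
      have := b2 n
      push_cast
      simpa using this
    · exact hz
    · exact hz1
  have u2 : ‖∑' n : ℕ, D (-((n : ℤ) + 1)) * (z⁻¹) ^ n‖ ≤
      (3 / (1 - p) + 1 + 1 / p) * M * ‖z⁻¹ - 1‖ ^ (p - 1) := by
    apply sq_one p h0 h1 (fun n : ℕ => D (-((n : ℤ) + 1))) (hD.comp_injective im) M hM
    · intro n
      refine (b1 (-((n : ℤ) + 1))).trans ?_
      have e : |((-((n : ℤ) + 1) : ℤ) : ℝ)| = (n : ℝ) + 1 := by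
        push_cast
        rw [abs_of_nonpos (by linarith [(Nat.cast_nonneg n : (0 : ℝ) ≤ n)])]
        ring
      rw [e]
      refine mul_le_mul_of_nonneg_left ?_ hM
      apply Real.rpow_le_rpow_of_nonpos (by positivity) (by linarith) (by linarith)
    · intro n
      have h3 := b2 (-((n : ℤ) + 2))
      have e3 : -((n : ℤ) + 2) + 1 = -((n : ℤ) + 1) := by ring
      have e4 : -((((n + 1 : ℕ) : ℤ)) + 1) = -((n : ℤ) + 2) := by push_cast; ring
      have e : |((-((n : ℤ) + 2) : ℤ) : ℝ)| = (n : ℝ) + 2 := by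
        push_cast
        rw [abs_of_nonpos (by linarith [(Nat.cast_nonneg n : (0 : ℝ) ≤ n)])]
        ring
      rw [e3, e] at h3
      show ‖D (-((((n + 1 : ℕ) : ℤ)) + 1)) - D (-((n : ℤ) + 1))‖ ≤ _
      rw [e4, norm_sub_rev]
      refine h3.trans ?_
      refine mul_le_mul_of_nonneg_left ?_ hM
      apply Real.rpow_le_rpow_of_nonpos (by positivity) (by linarith) (by linarith)
    · rw [norm_inv, hz, inv_one]
    · intro h
      exact hz1 (inv_eq_one.mp h)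
  have hz0 : z ≠ 0 := by
    intro h; rw [h, norm_zero] at hz; norm_num at hz
  have hzi : ‖z⁻¹ - 1‖ = ‖z - 1‖ := by
    have : z⁻¹ - 1 = -(z⁻¹ * (z - 1)) := by field_simp; ring
    rw [this, norm_neg, norm_mul, norm_inv, hz, inv_one, one_mul]
  have u3 : ∑' k : ℤ, D k * e k =
      ∑' n : ℕ, D n * z ^ n + z⁻¹ * ∑' n : ℕ, D (-((n : ℤ) + 1)) * (z⁻¹) ^ n := by
    rw [tsum_of_nat_of_neg_add_one (hDe.comp_injective ip) (hDe.comp_injective im),
      ← tsum_mul_left]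
    congr 1
    · apply tsum_congr
      intro n
      rw [he]
    · apply tsum_congr
      intro n
      rw [he' n, pow_succ]
      ring
  rw [u3]
  refine (norm_add_le _ _).trans ?_
  rw [norm_mul, norm_inv, hz, inv_one, one_mul]
  rw [hzi] at u2
  linarith

theorem sq_fin (a K M n ξ σ : ℝ) (ha2 : 2 < a) (ha3 : a < 3) (hK : 1 ≤ K) (hM : 0 ≤ M) (hn : 0 < n)
    (hξ : 0 < ξ) (hnξ : ξ ≤ 2 * n)
    (u5 : n ^ 2 * σ ≤ 2 * (K * M * n ^ ((3 - a) - 1))) :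
    σ ≤ 16 * K * M * ξ ^ (-a) := by
  have u6 : n ^ ((3 - a) - 1) = n ^ 2 * n ^ (-a) := by
    rw [show (3 - a) - 1 = 2 + -a by ring, Real.rpow_add hn]
    norm_num
  have u7 : σ ≤ 2 * (K * M) * n ^ (-a) := by
    rw [u6] at u5
    have h2 : 0 < n ^ 2 := by positivity
    have : n ^ 2 * σ ≤ n ^ 2 * (2 * (K * M) * n ^ (-a)) := by
      calc _ ≤ _ := u5
        _ = _ := by ring
    exact le_of_mul_le_mul_left this h2
  have u8 : n ^ (-a) ≤ 8 * ξ ^ (-a) := by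
    have e1 : n ^ (-a) ≤ (ξ / 2) ^ (-a) :=
      Real.rpow_le_rpow_of_nonpos (by positivity) (by linarith) (by linarith)
    have e2 : (ξ / 2) ^ (-a) = 2 ^ a * ξ ^ (-a) := by
      rw [Real.div_rpow hξ.le (by norm_num), Real.rpow_neg (by norm_num : (0:ℝ) ≤ 2)]
      field_simp
    have e3 : (2 : ℝ) ^ a ≤ 8 := by
      calc (2 : ℝ) ^ a ≤ (2 : ℝ) ^ (3 : ℝ) :=
            Real.rpow_le_rpow_of_exponent_le (by norm_num) (by linarith)
        _ = 8 := by norm_num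
    rw [e2] at e1
    exact e1.trans (mul_le_mul_of_nonneg_right e3 (Real.rpow_nonneg hξ.le _))
  have hKM : 0 ≤ K * M := mul_nonneg (by linarith) hM
  calc σ ≤ 2 * (K * M) * n ^ (-a) := u7
    _ ≤ 2 * (K * M) * (8 * ξ ^ (-a)) := by gcongr
    _ = 16 * K * M * ξ ^ (-a) := by ring

theorem t_SQ : S_SQ := by
  intro a ha2 ha3
  have h0 : 0 < 3 - a := by linarith
  have h1 : 3 - a < 1 := by linarith
  have hK1 : 1 ≤ 3 / (1 - (3 - a)) + 1 + 1 / (3 - a) := by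
    have e1 : 0 ≤ 3 / (1 - (3 - a)) := by
      apply div_nonneg <;> linarith
    have e2 : 0 ≤ 1 / (3 - a) := by positivity
    linarith
  refine ⟨16 * (3 / (1 - (3 - a)) + 1 + 1 / (3 - a)), by linarith, ?_⟩
  intro c A t ht ht1 hA hc b1 b2 x hx
  have hzn : ‖(fourier 1 x : ℂ)‖ = 1 := sq_norm x 1
  have hxp : 0 < ‖x‖ := norm_pos_iff.mpr hx
  have hnrm : ‖x‖ ≤ 2 * ‖(fourier 1 x : ℂ) - 1‖ := t_NRM x
  have hδ : 0 < ‖(fourier 1 x : ℂ) - 1‖ := by linarith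
  have hz1 : (fourier 1 x : ℂ) ≠ 1 := by
    intro h; rw [h, sub_self, norm_zero] at hδ; exact lt_irrefl _ hδ
  have hM0 : 0 ≤ A * t ^ (a - 1) := mul_nonneg hA (Real.rpow_nonneg ht.le _)
  have key := sq_key c (fun k => (fourier k x : ℂ)) (fourier 1 x)
    (fun k => by simp only [fourier_add]) (fun k => sq_norm x k) hc
  have u4 := sq_two (3 - a) h0 h1 (fun k => c (k + 1) - 2 * c k + c (k - 1))
    (fun k => (fourier k x : ℂ)) (sq_Ds c hc) (A * t ^ (a - 1)) hM0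
    (fun k => by rw [show -(3 - a) = a - 3 by ring]; exact b1 k)
    (fun k => by
      rw [show -(3 - a) - 1 = a - 4 by ring]
      have := b2 k
      rw [show k + 1 + 1 = k + 2 by ring, show k + 1 - 1 = k by ring]
      exact this)
    (fourier 1 x) hzn hz1 (fun n => sq_four x n)
    (fun n => by
      have := sq_fourn x (n + 1)
      push_cast at this
      exact this) (fun k => sq_norm x k)
  have h3 : 16 * (3 / (1 - (3 - a)) + 1 + 1 / (3 - a)) * A * t ^ (a - 1) * ‖x‖ ^ (-a) =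
    16 * (3 / (1 - (3 - a)) + 1 + 1 / (3 - a)) * (A * t ^ (a - 1)) * ‖x‖ ^ (-a) := by ring
  rw [h3]
  apply sq_fin a _ _ ‖(fourier 1 x : ℂ) - 1‖ ‖x‖ _ ha2 ha3 hK1 hM0 hδ hxp hnrm
  have h4 := congrArg norm key
  rw [norm_mul, hzn, one_mul, norm_mul, norm_pow] at h4
  rw [← h4]
  exact u4

end Pool.Agent.H729R2.FO
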