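import Mathlib
import Pool.Agent.H729R2.FO.Stubs

set_option autoImplicit false

namespace Pool.Agent.H729R2.FO

open MeasureTheory Pool.Agent.H729R2.CB Pool.Agent.Helper150.Cub

open scoped Classical

/-- `1 + √ρ ≤ 2 (1 + ρ)^{1/2}` -/
theorem stp_sqrt (ρ : ℝ) (hρ : 0 ≤ ρ) : 1 + Real.sqrt ρ ≤ 2 * (1 + ρ) ^ ((1:ℝ) / 2) := by
  rw [← Real.sqrt_eq_rpow]
  have h1 : (1:ℝ) ≤ Real.sqrt (1 + ρ) := by
    rw [show (1:ℝ) = Real.sqrt 1 from Real.sqrt_one.symm]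
    exact Real.sqrt_le_sqrt (by rw [Real.sqrt_one]; linarith)
  have h2 : Real.sqrt ρ ≤ Real.sqrt (1 + ρ) := Real.sqrt_le_sqrt (by linarith)
  linarith

theorem stp_half (q : ℕ) : ((1:ℝ) / 2) ^ q = (2 ^ q)⁻¹ := by
  rw [one_div, inv_pow]

/-- the sum over the centres -/
theorem stp_sum (hC : S_CEL) {a' CS : ℝ}
    (hS : ∀ (S : Finset G) (σ s : ℝ) (x : G), 0 < σ → 0 < s → Sepd σ S →
      ∑ y ∈ S, (1 + ‖x - y‖ / s) ^ (-a') ≤ CS * (1 + s / σ)) (hCS : 1 ≤ CS) (q : ℕ) (x : G) :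
    ∑ i ∈ Finset.range (2 ^ q), (1 + 2 ^ q * ‖x - cen q i‖) ^ (-a') ≤ 2 * CS := by
  obtain ⟨-, -, -, -, -, -, -, hsep⟩ := hC
  have hpos : (0:ℝ) < (1 / 2) ^ q := by positivity
  have hinj : Set.InjOn (cen q) (Finset.range (2 ^ q) : Set ℕ) := by
    intro i hi i' hi' h
    by_contra hne
    have h1 := hsep q i i' (Finset.mem_range.1 hi) (Finset.mem_range.1 hi') hne
    rw [h, sub_self, norm_zero] at h1
    have : 0 < 2 * Real.pi * (1 / 2) ^ q := by positivity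
    linarith
  have h2 := hS ((Finset.range (2 ^ q)).image (cen q)) (2 * Real.pi * (1 / 2) ^ q) ((1 / 2) ^ q) x
    (by positivity) hpos (by
      intro y hy y' hy' hne
      obtain ⟨i, hi, rfl⟩ := Finset.mem_image.1 hy
      obtain ⟨i', hi', rfl⟩ := Finset.mem_image.1 hy'
      exact hsep q i i' (Finset.mem_range.1 hi) (Finset.mem_range.1 hi')
        (fun h => hne (by rw [h])))
  rw [Finset.sum_image hinj] at h2
  have h3 : (1 / 2 : ℝ) ^ q / (2 * Real.pi * (1 / 2) ^ q) ≤ 1 := by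
    rw [div_le_one (by positivity)]
    have : 1 ≤ 2 * Real.pi := by linarith [Real.pi_gt_three]
    nlinarith
  have h4 : ∀ i, (1 + ‖x - cen q i‖ / (1 / 2) ^ q) ^ (-a') = (1 + 2 ^ q * ‖x - cen q i‖) ^ (-a') := by
    intro i
    rw [stp_half, div_inv_eq_mul, mul_comm]
  simp_rw [h4] at h2
  refine h2.trans ?_
  nlinarith

theorem t_STP (hC : S_CEL) (hS : S_SEP) : S_STP := by
  intro a C ha hC1
  obtain ⟨CS, hCS1, -, hCS⟩ := hS (a - 1 / 2) (by linarith)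
  refine ⟨8 * C * CS, by nlinarith, ?_⟩
  intro M q hM γ hγ0 hγ Ψ u hΨ hu
  obtain ⟨C₅, hC₅⟩ : ∃ C₅, C₅ = 8 * C * CS := ⟨_, rfl⟩
  rw [← hC₅] at hγ ⊢
  obtain ⟨g, hg⟩ : ∃ g, g = M ((1 / 2) ^ q) := ⟨_, rfl⟩
  rw [← hg] at hM
  have hhalf : (0:ℝ) < (1 / 2) ^ q := by positivity
  have htwo : (0:ℝ) < 2 ^ q := by positivity
  have hmul : ((1:ℝ) / 2) ^ q * 2 ^ q = 1 := by rw [stp_half, inv_mul_cancel₀ htwo.ne']
  -- weights
  obtain ⟨ρ, hρ⟩ : ∃ ρ : G → ℕ → ℝ, ρ = fun x i => 2 ^ q * ‖x - cen q i‖ := ⟨_, rfl⟩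
  have hρ0 : ∀ x i, 0 ≤ ρ x i := by intro x i; rw [hρ]; positivity
  have hsum : ∀ x, ∑ i ∈ Finset.range (2 ^ q), (1 + ρ x i) ^ (-(a - 1 / 2)) ≤ 2 * CS := by
    intro x; rw [hρ]; exact stp_sum hC hCS hCS1 q x
  -- values of `u`
  have huΨ : ∀ i, i < 2 ^ q → ∀ x y, |u i y| ≤ 4 * (1 + ρ x i) ^ ((1:ℝ) / 2) * Ψ (x, y) := by
    intro i hi x y
    have h1 := (hu i hi).2 y
    have h2 := hΨ.har (cen q i) x y
    have h3 : 2 ^ q * ‖cen q i - x‖ = ρ x i := by rw [hρ, norm_sub_rev]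
    rw [h3] at h2
    have h4 := stp_sqrt (ρ x i) (hρ0 x i)
    have h5 := hΨ.nonneg (x, y)
    nlinarith [mul_le_mul_of_nonneg_right h4 h5]
  -- products
  have hprod : ∀ i, i < 2 ^ q → ∀ x y, (1 + ρ x i) ^ (-a) * |u i y| ≤
      4 * (1 + ρ x i) ^ (-(a - 1 / 2)) * Ψ (x, y) := by
    intro i hi x y
    have h1 := huΨ i hi x y
    have hp : 0 < 1 + ρ x i := by linarith [hρ0 x i]
    have h2 : (1 + ρ x i) ^ (-a) * (1 + ρ x i) ^ ((1:ℝ) / 2) = (1 + ρ x i) ^ (-(a - 1 / 2)) := by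
      rw [← Real.rpow_add hp]; congr 1; ring
    have h3 : 0 ≤ (1 + ρ x i) ^ (-a) := (Real.rpow_pos_of_pos hp _).le
    calc (1 + ρ x i) ^ (-a) * |u i y| ≤ (1 + ρ x i) ^ (-a) * (4 * (1 + ρ x i) ^ ((1:ℝ) / 2) * Ψ (x, y)) :=
          mul_le_mul_of_nonneg_left h1 h3
      _ = 4 * ((1 + ρ x i) ^ (-a) * (1 + ρ x i) ^ ((1:ℝ) / 2)) * Ψ (x, y) := by ring
      _ = _ := by rw [h2]
  have hsumu : ∀ x y, ∑ i ∈ Finset.range (2 ^ q), C * ((1 + ρ x i) ^ (-a) * |u i y|) ≤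
      C₅ * Ψ (x, y) := by
    intro x y
    have h5 := hΨ.nonneg (x, y)
    calc ∑ i ∈ Finset.range (2 ^ q), C * ((1 + ρ x i) ^ (-a) * |u i y|)
        ≤ ∑ i ∈ Finset.range (2 ^ q), C * (4 * (1 + ρ x i) ^ (-(a - 1 / 2)) * Ψ (x, y)) := by
          refine Finset.sum_le_sum fun i hi => ?_
          exact mul_le_mul_of_nonneg_left (hprod i (Finset.mem_range.1 hi) x y) (by linarith)
      _ = 4 * C * Ψ (x, y) * ∑ i ∈ Finset.range (2 ^ q), (1 + ρ x i) ^ (-(a - 1 / 2)) := by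
          rw [Finset.mul_sum]
          exact Finset.sum_congr rfl fun i _ => by ring
      _ ≤ 4 * C * Ψ (x, y) * (2 * CS) :=
          mul_le_mul_of_nonneg_left (hsum x) (by positivity)
      _ = C₅ * Ψ (x, y) := by rw [hC₅]; ring
  -- bounds of the kernel
  have hgb : ∀ x i, (1 / 2) ^ q * |g (x - cen q i)| ≤ C * (1 + ρ x i) ^ (-a) := by
    intro x i
    have h1 := hM.bd (x - cen q i)
    have h2 : (1 + ‖x - cen q i‖ / (1 / 2) ^ q) = 1 + ρ x i := by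
      rw [hρ, stp_half, div_inv_eq_mul, mul_comm]
    rw [h2] at h1
    calc (1 / 2) ^ q * |g (x - cen q i)| ≤ (1 / 2) ^ q * (C / (1 / 2) ^ q * (1 + ρ x i) ^ (-a)) :=
          mul_le_mul_of_nonneg_left h1 hhalf.le
      _ = C * (1 + ρ x i) ^ (-a) := by field_simp
  have hgl : ∀ s t i, (1 / 2) ^ q * |g (s - cen q i) - g (t - cen q i)| ≤
      2 ^ q * ‖s - t‖ * (C * (1 + ρ s i) ^ (-a) + C * (1 + ρ t i) ^ (-a)) := by
    intro s t i
    have h1 := hM.lip (s - cen q i) (t - cen q i)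
    have h2 : ∀ x, (1 + ‖x - cen q i‖ / (1 / 2) ^ q) = 1 + ρ x i := by
      intro x
      rw [hρ, stp_half, div_inv_eq_mul, mul_comm]
    rw [h2, h2, sub_sub_sub_cancel_right] at h1
    calc (1 / 2) ^ q * |g (s - cen q i) - g (t - cen q i)| ≤ (1 / 2) ^ q *
          (C / (1 / 2) ^ q * (‖s - t‖ / (1 / 2) ^ q) * ((1 + ρ s i) ^ (-a) + (1 + ρ t i) ^ (-a))) :=
          mul_le_mul_of_nonneg_left h1 hhalf.le
      _ = (‖s - t‖ / (1 / 2) ^ q) * (C * (1 + ρ s i) ^ (-a) + C * (1 + ρ t i) ^ (-a)) := by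
          field_simp
      _ = _ := by rw [stp_half, div_inv_eq_mul]; ring
  -- the first bound
  have hdiff : ∀ x : G × G, |stp M γ q u Ψ x - Ψ x| ≤ C₅ * γ * Ψ x := by
    rintro ⟨x, y⟩
    have h1 : stp M γ q u Ψ (x, y) - Ψ (x, y) =
        -(γ * ∑ i ∈ Finset.range (2 ^ q), (1 / 2) ^ q * (g (x - cen q i) * u i y)) := by
      unfold stp
      rw [← Finset.mul_sum, hg]; ring
    rw [h1, abs_neg, abs_mul, abs_of_nonneg hγ0]
    calc γ * |∑ i ∈ Finset.range (2 ^ q), (1 / 2) ^ q * (g (x - cen q i) * u i y)|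
        ≤ γ * ∑ i ∈ Finset.range (2 ^ q), |(1 / 2) ^ q * (g (x - cen q i) * u i y)| :=
          mul_le_mul_of_nonneg_left (Finset.abs_sum_le_sum_abs _ _) hγ0
      _ ≤ γ * ∑ i ∈ Finset.range (2 ^ q), C * ((1 + ρ x i) ^ (-a) * |u i y|) := by
          refine mul_le_mul_of_nonneg_left (Finset.sum_le_sum fun i _ => ?_) hγ0
          rw [abs_mul, abs_mul, abs_of_pos hhalf, ← mul_assoc, ← mul_assoc]
          exact mul_le_mul_of_nonneg_right (hgb x i) (abs_nonneg _)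
      _ ≤ γ * (C₅ * Ψ (x, y)) := mul_le_mul_of_nonneg_left (hsumu x y) hγ0
      _ = C₅ * γ * Ψ (x, y) := by ring
  -- the second bound
  have hlip : ∀ s t y, |(stp M γ q u Ψ (s, y) - Ψ (s, y)) - (stp M γ q u Ψ (t, y) - Ψ (t, y))| ≤
      C₅ * γ * (2 ^ q * ‖s - t‖) * (Ψ (s, y) + Ψ (t, y)) := by
    intro s t y
    have h1 : (stp M γ q u Ψ (s, y) - Ψ (s, y)) - (stp M γ q u Ψ (t, y) - Ψ (t, y)) =
        -(γ * ∑ i ∈ Finset.range (2 ^ q),
          (1 / 2) ^ q * ((g (s - cen q i) - g (t - cen q i)) * u i y)) := by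
      unfold stp
      simp only [sub_mul, mul_sub, Finset.sum_sub_distrib, ← Finset.mul_sum, hg]; ring
    have hx : 0 ≤ 2 ^ q * ‖s - t‖ := by positivity
    rw [h1, abs_neg, abs_mul, abs_of_nonneg hγ0]
    calc γ * |∑ i ∈ Finset.range (2 ^ q), (1 / 2) ^ q * ((g (s - cen q i) - g (t - cen q i)) * u i y)|
        ≤ γ * ∑ i ∈ Finset.range (2 ^ q),
          |(1 / 2) ^ q * ((g (s - cen q i) - g (t - cen q i)) * u i y)| :=
          mul_le_mul_of_nonneg_left (Finset.abs_sum_le_sum_abs _ _) hγ0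
      _ ≤ γ * ∑ i ∈ Finset.range (2 ^ q), (2 ^ q * ‖s - t‖) *
          (C * ((1 + ρ s i) ^ (-a) * |u i y|) + C * ((1 + ρ t i) ^ (-a) * |u i y|)) := by
          refine mul_le_mul_of_nonneg_left (Finset.sum_le_sum fun i _ => ?_) hγ0
          rw [abs_mul, abs_mul, abs_of_pos hhalf, ← mul_assoc]
          refine (mul_le_mul_of_nonneg_right (hgl s t i) (abs_nonneg _)).trans (le_of_eq ?_)
          ring
      _ = γ * ((2 ^ q * ‖s - t‖) * (∑ i ∈ Finset.range (2 ^ q), C * ((1 + ρ s i) ^ (-a) * |u i y|) +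
          ∑ i ∈ Finset.range (2 ^ q), C * ((1 + ρ t i) ^ (-a) * |u i y|))) := by
          rw [← Finset.mul_sum, Finset.sum_add_distrib]
      _ ≤ γ * ((2 ^ q * ‖s - t‖) * (C₅ * Ψ (s, y) + C₅ * Ψ (t, y))) :=
          mul_le_mul_of_nonneg_left (mul_le_mul_of_nonneg_left
            (add_le_add (hsumu s y) (hsumu t y)) hx) hγ0
      _ = _ := by ring
  have hnn := hΨ.nonneg
  have hlo : ∀ x, 99 / 100 * Ψ x ≤ stp M γ q u Ψ x := by
    intro x
    have h1 := (abs_le.1 (hdiff x)).1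
    have h2 := mul_le_mul_of_nonneg_right hγ (hnn x)
    linarith
  have hhi : ∀ x, stp M γ q u Ψ x ≤ 101 / 100 * Ψ x := by
    intro x
    have h1 := (abs_le.1 (hdiff x)).2
    have h2 := mul_le_mul_of_nonneg_right hγ (hnn x)
    linarith
  have hpow : ∀ s t : G, 2 ^ (q + 1) * ‖s - t‖ = 2 * (2 ^ q * ‖s - t‖) := by
    intro s t; rw [pow_succ]; ring
  have hLip : ∀ s t y, 2 ^ (q + 1) * ‖s - t‖ ≤ 1 →
      |stp M γ q u Ψ (s, y) - stp M γ q u Ψ (t, y)| ≤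
        (1 / 10) * (2 ^ (q + 1) * ‖s - t‖) * stp M γ q u Ψ (t, y) := by
    intro s t y hst
    rw [hpow] at hst ⊢
    obtain ⟨x, hx⟩ : ∃ x, x = 2 ^ q * ‖s - t‖ := ⟨_, rfl⟩
    have hx0 : 0 ≤ x := by rw [hx]; positivity
    have h1 := hΨ.lip s t y (by rw [← hx] at hst ⊢; linarith)
    have h2 := hlip s t y
    rw [← hx] at hst h1 h2 ⊢
    have h3 := hnn (t, y)
    have h4 : Ψ (s, y) ≤ 105 / 100 * Ψ (t, y) := by
      have := (abs_le.1 h1).2
      have hx' : x ≤ 1 / 2 := by linarith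
      nlinarith [mul_le_mul_of_nonneg_right hx' h3]
    have h5 : C₅ * γ * x * (Ψ (s, y) + Ψ (t, y)) ≤ 1 / 100 * x * (205 / 100 * Ψ (t, y)) := by
      have h6 : C₅ * γ * x ≤ 1 / 100 * x := mul_le_mul_of_nonneg_right hγ hx0
      have h7 : Ψ (s, y) + Ψ (t, y) ≤ 205 / 100 * Ψ (t, y) := by linarith
      exact mul_le_mul h6 h7 (add_nonneg (hnn _) (hnn _)) (by positivity)
    have h8 : |stp M γ q u Ψ (s, y) - stp M γ q u Ψ (t, y)| ≤
        |Ψ (s, y) - Ψ (t, y)| +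
        |(stp M γ q u Ψ (s, y) - Ψ (s, y)) - (stp M γ q u Ψ (t, y) - Ψ (t, y))| := by
      have := abs_add_le (Ψ (s, y) - Ψ (t, y))
        ((stp M γ q u Ψ (s, y) - Ψ (s, y)) - (stp M γ q u Ψ (t, y) - Ψ (t, y)))
      rwa [show Ψ (s, y) - Ψ (t, y) + ((stp M γ q u Ψ (s, y) - Ψ (s, y)) -
        (stp M γ q u Ψ (t, y) - Ψ (t, y))) = stp M γ q u Ψ (s, y) - stp M γ q u Ψ (t, y) by ring]
        at this
    have h9 := mul_le_mul_of_nonneg_left (hlo (t, y)) hx0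
    nlinarith [mul_nonneg hx0 h3]
  refine ⟨⟨?_, ?_, ?_, hLip, ?_⟩, hdiff⟩
  · -- measurability
    unfold stp
    refine hΨ.meas.sub (Measurable.const_mul (Finset.measurable_fun_sum _ fun i hi => ?_) _)
    have h1 : Continuous fun x : G × G => M ((1 / 2) ^ q) (x.1 - cen q i) := by
      rw [← hg]
      exact hM.cont.comp (continuous_fst.sub continuous_const)
    exact h1.measurable.mul ((hu i (Finset.mem_range.1 hi)).1.comp measurable_snd)
  · intro x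
    have := hlo x
    have := hnn x
    linarith
  · obtain ⟨B, hB⟩ := hΨ.bdd
    refine ⟨101 / 100 * B, fun x => (hhi x).trans ?_⟩
    have := hB x
    linarith
  · intro s t y
    obtain ⟨x, hx⟩ : ∃ x, x = 2 ^ q * ‖s - t‖ := ⟨_, rfl⟩
    have hx0 : 0 ≤ x := by rw [hx]; positivity
    have h3 := hnn (t, y)
    have hL := hLip s t y
    rw [hpow, ← hx] at hL ⊢
    have h4 : 0 ≤ stp M γ q u Ψ (t, y) := by linarith [hlo (t, y)]
    rcases le_or_gt (2 * x) 1 with h | h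
    · have h5 := (abs_le.1 (hL h)).2
      have h6 : 2 * x ≤ Real.sqrt (2 * x) := by
        apply Real.le_sqrt_of_sq_le
        nlinarith
      nlinarith [mul_le_mul_of_nonneg_right h6 h4, mul_nonneg hx0 h4]
    · have h5 := hΨ.har s t y
      rw [← hx] at h5
      obtain ⟨v, hv⟩ : ∃ v, v = Real.sqrt x := ⟨_, rfl⟩
      have hv0 : 0 ≤ v := by rw [hv]; exact Real.sqrt_nonneg _
      have hv2 : v ^ 2 = x := by rw [hv]; exact Real.sq_sqrt hx0
      have hv7 : 7 / 10 ≤ v := by nlinarith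
      have h6 : 14 / 10 * v ≤ Real.sqrt (2 * x) := by
        apply Real.le_sqrt_of_sq_le
        nlinarith
      rw [← hv] at h5
      have h7 : Ψ (t, y) ≤ 100 / 99 * stp M γ q u Ψ (t, y) := by linarith [hlo (t, y)]
      have h8 := hhi (s, y)
      calc stp M γ q u Ψ (s, y) ≤ 101 / 100 * ((1 + v) * Ψ (t, y)) := by linarith
        _ ≤ 101 / 100 * ((1 + v) * (100 / 99 * stp M γ q u Ψ (t, y))) := by
            have := mul_le_mul_of_nonneg_left h7 (by linarith : (0:ℝ) ≤ 1 + v)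
            linarith
        _ = (101 / 99 * (1 + v)) * stp M γ q u Ψ (t, y) := by ring
        _ ≤ (1 + Real.sqrt (2 * x)) * stp M γ q u Ψ (t, y) :=
            mul_le_mul_of_nonneg_right (by linarith) h4

end Pool.Agent.H729R2.FO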