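import Mathlib
import Pool.Agent.H729R2.FO.Stubs

set_option autoImplicit false

namespace Pool.Agent.H729R2.FO

open MeasureTheory Pool.Agent.H729R2.CB Pool.Agent.Helper150.Cub

open scoped Classical

/-! ### differences of smooth functions -/

theorem sym_mv1 {f f1 : ℝ → ℂ} {p M t : ℝ} (ht : 0 ≤ t)
    (h1 : ∀ u, p ≤ u → HasDerivAt f (f1 u) u) (hM : ∀ u, p ≤ u → ‖f1 u‖ ≤ M)
    (u : ℝ) (hu : p ≤ u) : ‖f (u + t) - f u‖ ≤ M * t := by
  have h := Convex.norm_image_sub_le_of_norm_hasDerivWithin_le (f := f) (f' := f1) (C := M)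
    (s := Set.Ici p) (x := u) (y := u + t)
    (fun v hv => (h1 v hv).hasDerivWithinAt) (fun v hv => hM v hv) (convex_Ici p) hu
    (by simp only [Set.mem_Ici]; linarith)
  have h2 : ‖(u + t) - u‖ = t := by
    rw [add_sub_cancel_left, Real.norm_eq_abs, abs_of_nonneg ht]
  rwa [h2] at h

theorem sym_mv2 {f f1 f2 : ℝ → ℂ} {p M t : ℝ} (ht : 0 ≤ t)
    (h1 : ∀ u, p ≤ u → HasDerivAt f (f1 u) u) (h2 : ∀ u, p ≤ u → HasDerivAt f1 (f2 u) u)
    (hM : ∀ u, p ≤ u → ‖f2 u‖ ≤ M) (u : ℝ) (hu : p ≤ u) :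
    ‖(f (u + t + t) - f (u + t)) - (f (u + t) - f u)‖ ≤ M * t * t := by
  refine sym_mv1 (f := fun v => f (v + t) - f v) (f1 := fun v => f1 (v + t) - f1 v) ht ?_ ?_ u hu
  · intro v hv
    have h3 : HasDerivAt (fun w => f (w + t)) (f1 (v + t)) v :=
      (h1 (v + t) (by linarith)).comp_add_const v t
    exact h3.sub (h1 v hv)
  · intro v hv
    exact sym_mv1 ht h2 hM v hv

theorem sym_mv3 {f f1 f2 f3 : ℝ → ℂ} {p M t : ℝ} (ht : 0 ≤ t)
    (h1 : ∀ u, p ≤ u → HasDerivAt f (f1 u) u) (h2 : ∀ u, p ≤ u → HasDerivAt f1 (f2 u) u)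
    (h3 : ∀ u, p ≤ u → HasDerivAt f2 (f3 u) u)
    (hM : ∀ u, p ≤ u → ‖f3 u‖ ≤ M) (u : ℝ) (hu : p ≤ u) :
    ‖((f (u + t + t + t) - f (u + t + t)) - (f (u + t + t) - f (u + t))) -
      ((f (u + t + t) - f (u + t)) - (f (u + t) - f u))‖ ≤ M * t * t * t := by
  refine sym_mv2 (f := fun v => f (v + t) - f v) (f1 := fun v => f1 (v + t) - f1 v)
    (f2 := fun v => f2 (v + t) - f2 v) ht ?_ ?_ ?_ u hu
  · intro v hv
    exact ((h1 (v + t) (by linarith)).comp_add_const v t).sub (h1 v hv)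
  · intro v hv
    exact ((h2 (v + t) (by linarith)).comp_add_const v t).sub (h2 v hv)
  · intro v hv
    exact sym_mv1 ht h3 hM v hv

/-! ### the weights -/

theorem sym_wnat {t : ℝ} (ht : 0 < t) :
    Summable (fun n : ℕ => 1 / (1 + t * ((n : ℝ) + 1)) ^ 2) ∧
    ∑' n : ℕ, 1 / (1 + t * ((n : ℝ) + 1)) ^ 2 ≤ 1 / t := by
  have hb : ∀ n : ℕ, 1 / (1 + t * ((n : ℝ) + 1)) ^ 2 ≤
      (1 / t) * (1 / (1 + t * n) - 1 / (1 + t * ((n : ℝ) + 1))) := by
    intro n
    have hn : (0 : ℝ) ≤ n := Nat.cast_nonneg n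
    have h1 : 0 < 1 + t * n := by positivity
    have h2 : 0 < 1 + t * ((n : ℝ) + 1) := by positivity
    have h3 : (1 / t) * (1 / (1 + t * n) - 1 / (1 + t * ((n : ℝ) + 1))) =
        1 / ((1 + t * n) * (1 + t * ((n : ℝ) + 1))) := by
      field_simp
      ring
    rw [h3]
    apply one_div_le_one_div_of_le (by positivity)
    rw [pow_two]
    apply mul_le_mul_of_nonneg_right _ h2.le
    nlinarith
  have hsum : ∀ N : ℕ, ∑ n ∈ Finset.range N, 1 / (1 + t * ((n : ℝ) + 1)) ^ 2 ≤ 1 / t := by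
    intro N
    calc ∑ n ∈ Finset.range N, 1 / (1 + t * ((n : ℝ) + 1)) ^ 2
        ≤ ∑ n ∈ Finset.range N, (1 / t) * (1 / (1 + t * n) - 1 / (1 + t * ((n : ℝ) + 1))) :=
          Finset.sum_le_sum fun n _ => hb n
      _ = (1 / t) * (1 - 1 / (1 + t * N)) := by
          rw [← Finset.mul_sum]
          congr 1
          have := Finset.sum_range_sub' (fun n : ℕ => 1 / (1 + t * (n : ℝ))) N
          simp only [Nat.cast_add, Nat.cast_one] at this
          rw [this]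
          simp
      _ ≤ 1 / t := by
          have h1 : 0 ≤ 1 / (1 + t * (N : ℝ)) := by positivity
          have h2 : 0 ≤ 1 / t := by positivity
          nlinarith
  have hnn : ∀ n : ℕ, 0 ≤ 1 / (1 + t * ((n : ℝ) + 1)) ^ 2 := fun n => by positivity
  exact ⟨summable_of_sum_range_le hnn hsum, Real.tsum_le_of_sum_range_le hnn hsum⟩

theorem sym_w {t : ℝ} (ht : 0 < t) (ht1 : t ≤ 1) :
    Summable (fun k : ℤ => 1 / (1 + t * |(k : ℝ)|) ^ 2) ∧
    ∑' k : ℤ, 1 / (1 + t * |(k : ℝ)|) ^ 2 ≤ 3 / t := by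
  obtain ⟨hs, hle⟩ := sym_wnat ht
  have e1 : (fun n : ℕ => 1 / (1 + t * |(((n : ℕ) : ℤ) : ℝ)|) ^ 2) =
      fun n : ℕ => 1 / (1 + t * (n : ℝ)) ^ 2 := by
    funext n
    simp
  have e2 : (fun n : ℕ => 1 / (1 + t * |((-((n : ℤ) + 1) : ℤ) : ℝ)|) ^ 2) =
      fun n : ℕ => 1 / (1 + t * ((n : ℝ) + 1)) ^ 2 := by
    funext n
    have : |((-((n : ℤ) + 1) : ℤ) : ℝ)| = (n : ℝ) + 1 := by
      push_cast
      rw [abs_neg, abs_of_nonneg (by positivity)]
    rw [this]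
  have hs0 : Summable (fun n : ℕ => 1 / (1 + t * (n : ℝ)) ^ 2) := by
    rw [← summable_nat_add_iff 1]
    simpa using hs
  have hs1 : Summable (fun n : ℕ => 1 / (1 + t * |(((n : ℕ) : ℤ) : ℝ)|) ^ 2) := by
    rw [e1]; exact hs0
  have hs2 : Summable (fun n : ℕ => 1 / (1 + t * |((-((n : ℤ) + 1) : ℤ) : ℝ)|) ^ 2) := by
    rw [e2]; exact hs
  have hZ : Summable (fun k : ℤ => 1 / (1 + t * |(k : ℝ)|) ^ 2) :=
    Summable.of_nat_of_neg_add_one (f := fun k : ℤ => 1 / (1 + t * |(k : ℝ)|) ^ 2) hs1 hs2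
  refine ⟨hZ, ?_⟩
  rw [tsum_of_nat_of_neg_add_one (f := fun k : ℤ => 1 / (1 + t * |(k : ℝ)|) ^ 2) hs1 hs2]
  rw [e1, e2, hs0.tsum_eq_zero_add]
  have h1 : ∑' n : ℕ, 1 / (1 + t * (((n + 1 : ℕ)) : ℝ)) ^ 2 ≤ 1 / t := by
    simpa using hle
  have h2 : (1 : ℝ) ≤ 1 / t := by
    rw [le_div_iff₀ ht]; linarith
  have h3 : 1 / (1 + t * ((0 : ℕ) : ℝ)) ^ 2 = 1 := by simp
  rw [h3]
  have h4 : 3 / t = 1 / t + 1 / t + 1 / t := by ring
  rw [h4]
  linarith

/-! ### differences of the coefficients -/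

theorem sym_pw {x y c e : ℝ} (hy : 0 < y) (hc : 1 ≤ c) (h : y ≤ c * x) (he : -2 ≤ e) (he0 : e ≤ 0) :
    x ^ e ≤ c ^ 2 * y ^ e := by
  have hc0 : 0 < c := by linarith
  have h1 : y / c ≤ x := by
    rw [div_le_iff₀ hc0]; linarith
  have h2 : 0 < y / c := by positivity
  have h3 : x ^ e ≤ (y / c) ^ e := Real.rpow_le_rpow_of_nonpos h2 h1 he0
  have h4 : (y / c) ^ e = c ^ (-e) * y ^ e := by
    rw [Real.div_rpow hy.le hc0.le, Real.rpow_neg hc0.le]
    field_simp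
  have h5 : c ^ (-e) ≤ c ^ 2 := by
    rw [← Real.rpow_natCast]
    apply Real.rpow_le_rpow_of_exponent_le hc
    push_cast
    linarith
  rw [h4] at h3
  refine h3.trans ?_
  exact mul_le_mul_of_nonneg_right h5 (by positivity)

/-- data of a coefficient sequence coming from a symbol -/
structure SymSeq (a K t : ℝ) (τ τ₁ τ₂ τ₃ : ℝ → ℂ) (α β s : ℂ) (c : ℤ → ℂ) : Prop where
  d1 : ∀ u, 0 < u → HasDerivAt τ (τ₁ u) u
  d2 : ∀ u, 0 < u → HasDerivAt τ₁ (τ₂ u) u
  d3 : ∀ u, 0 < u → HasDerivAt τ₂ (τ₃ u) u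
  b2 : ∀ u, 0 < u → ‖τ₂ u‖ ≤ K * u ^ (a - 3)
  b3 : ∀ u, 0 < u → ‖τ₃ u‖ ≤ K * u ^ (a - 4)
  pos : ∀ k : ℤ, 0 < k → c k = τ (t * k)
  sg : ‖s‖ = 1
  neg : ∀ k : ℤ, c (-k) = s * (starRingEnd ℂ) (c k)
  near : ∀ k : ℤ, |k| ≤ 3 → ‖c k - (α + β * k)‖ ≤ K * t ^ (a - 1)

theorem sym_dd_pos {a K t : ℝ} {τ τ₁ τ₂ τ₃ : ℝ → ℂ} {α β s : ℂ} {c : ℤ → ℂ} (ha : 2 < a) (ha3 : a < 3)
    (hK : 0 ≤ K) (ht : 0 < t) (h : SymSeq a K t τ τ₁ τ₂ τ₃ α β s c) (k : ℤ) (hk : 0 ≤ k) :
    ‖c (k + 1) - 2 * c k + c (k - 1)‖ ≤ 16 * K * t ^ (a - 1) * (1 + |(k : ℝ)|) ^ (a - 3) ∧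
    ‖(c (k + 2) - 2 * c (k + 1) + c k) - (c (k + 1) - 2 * c k + c (k - 1))‖ ≤
      32 * K * t ^ (a - 1) * (1 + |(k : ℝ)|) ^ (a - 4) := by
  have hkr : (0 : ℝ) ≤ k := by exact_mod_cast hk
  rw [abs_of_nonneg hkr]
  have hta : 0 < t ^ (a - 1) := Real.rpow_pos_of_pos ht _
  by_cases hk2 : 2 ≤ k
  · have hk2r : (2 : ℝ) ≤ k := by exact_mod_cast hk2
    set u : ℝ := t * ((k : ℝ) - 1) with hu
    have hu0 : 0 < u := by
      have : 0 < (k : ℝ) - 1 := by linarith
      positivity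
    have e0 : c (k - 1) = τ u := by
      rw [h.pos (k - 1) (by omega)]; push_cast; rfl
    have e1 : c k = τ (u + t) := by
      rw [h.pos k (by omega)]; congr 1; rw [hu]; ring
    have e2 : c (k + 1) = τ (u + t + t) := by
      rw [h.pos (k + 1) (by omega)]; congr 1; rw [hu]; push_cast; ring
    have e3 : c (k + 2) = τ (u + t + t + t) := by
      rw [h.pos (k + 2) (by omega)]; congr 1; rw [hu]; push_cast; ring
    have hm2 : ∀ v, u ≤ v → ‖τ₂ v‖ ≤ K * u ^ (a - 3) := by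
      intro v hv
      refine (h.b2 v (by linarith)).trans ?_
      exact mul_le_mul_of_nonneg_left
        (Real.rpow_le_rpow_of_nonpos hu0 hv (by linarith)) hK
    have hm3 : ∀ v, u ≤ v → ‖τ₃ v‖ ≤ K * u ^ (a - 4) := by
      intro v hv
      refine (h.b3 v (by linarith)).trans ?_
      exact mul_le_mul_of_nonneg_left
        (Real.rpow_le_rpow_of_nonpos hu0 hv (by linarith)) hK
    have g2 := sym_mv2 ht.le (fun v hv => h.d1 v (by linarith)) (fun v hv => h.d2 v (by linarith))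
      hm2 u le_rfl
    have g3 := sym_mv3 ht.le (fun v hv => h.d1 v (by linarith)) (fun v hv => h.d2 v (by linarith))
      (fun v hv => h.d3 v (by linarith)) hm3 u le_rfl
    have hk1 : 0 < (k : ℝ) - 1 := by linarith
    have p2 : u ^ (a - 3) * t * t = t ^ (a - 1) * ((k : ℝ) - 1) ^ (a - 3) := by
      rw [hu, Real.mul_rpow ht.le hk1.le]
      have : t ^ (a - 1) = t ^ (a - 3) * t * t := by
        have h5 : a - 1 = (a - 3) + 2 := by ring
        rw [h5, Real.rpow_add ht, Real.rpow_two]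
        ring
      rw [this]; ring
    have p3 : u ^ (a - 4) * t * t * t = t ^ (a - 1) * ((k : ℝ) - 1) ^ (a - 4) := by
      rw [hu, Real.mul_rpow ht.le hk1.le]
      have : t ^ (a - 1) = t ^ (a - 4) * t * t * t := by
        have h5 : a - 1 = (a - 4) + 3 := by ring
        rw [h5, Real.rpow_add ht, show (3 : ℝ) = ((3 : ℕ) : ℝ) by norm_num, Real.rpow_natCast]
        ring
      rw [this]; ring
    have q2 : ((k : ℝ) - 1) ^ (a - 3) ≤ 3 ^ 2 * (1 + (k : ℝ)) ^ (a - 3) :=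
      sym_pw (by linarith) (by norm_num) (by linarith) (by linarith) (by linarith)
    have q3 : ((k : ℝ) - 1) ^ (a - 4) ≤ 3 ^ 2 * (1 + (k : ℝ)) ^ (a - 4) :=
      sym_pw (by linarith) (by norm_num) (by linarith) (by linarith) (by linarith)
    have r2 : 0 ≤ (1 + (k : ℝ)) ^ (a - 3) := by positivity
    have r3 : 0 ≤ (1 + (k : ℝ)) ^ (a - 4) := by positivity
    have hKt : 0 ≤ K * t ^ (a - 1) := by positivity
    constructor
    · rw [e0, e1, e2]
      have e : τ (u + t + t) - 2 * τ (u + t) + τ u =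
          (τ (u + t + t) - τ (u + t)) - (τ (u + t) - τ u) := by ring
      rw [e]
      refine g2.trans ?_
      calc K * u ^ (a - 3) * t * t = K * (u ^ (a - 3) * t * t) := by ring
        _ = K * t ^ (a - 1) * ((k : ℝ) - 1) ^ (a - 3) := by rw [p2]; ring
        _ ≤ K * t ^ (a - 1) * (3 ^ 2 * (1 + (k : ℝ)) ^ (a - 3)) := mul_le_mul_of_nonneg_left q2 hKt
        _ ≤ 16 * K * t ^ (a - 1) * (1 + (k : ℝ)) ^ (a - 3) := by
            have := mul_nonneg hKt r2
            nlinarith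
    · rw [e0, e1, e2, e3]
      have e : (τ (u + t + t + t) - 2 * τ (u + t + t) + τ (u + t)) -
          (τ (u + t + t) - 2 * τ (u + t) + τ u) =
          ((τ (u + t + t + t) - τ (u + t + t)) - (τ (u + t + t) - τ (u + t))) -
            ((τ (u + t + t) - τ (u + t)) - (τ (u + t) - τ u)) := by ring
      rw [e]
      refine g3.trans ?_
      calc K * u ^ (a - 4) * t * t * t = K * (u ^ (a - 4) * t * t * t) := by ring
        _ = K * t ^ (a - 1) * ((k : ℝ) - 1) ^ (a - 4) := by rw [p3]; ring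
        _ ≤ K * t ^ (a - 1) * (3 ^ 2 * (1 + (k : ℝ)) ^ (a - 4)) := mul_le_mul_of_nonneg_left q3 hKt
        _ ≤ 32 * K * t ^ (a - 1) * (1 + (k : ℝ)) ^ (a - 4) := by
            have := mul_nonneg hKt r3
            nlinarith
  · have hk1 : k ≤ 1 := by omega
    have hk1r : (k : ℝ) ≤ 1 := by exact_mod_cast hk1
    have n0 := h.near (k - 1) (by rw [abs_le]; constructor <;> omega)
    have n1 := h.near k (by rw [abs_le]; constructor <;> omega)
    have n2 := h.near (k + 1) (by rw [abs_le]; constructor <;> omega)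
    have n3 := h.near (k + 2) (by rw [abs_le]; constructor <;> omega)
    set e0 := c (k - 1) - (α + β * ((k - 1 : ℤ) : ℂ)) with he0
    set e1 := c k - (α + β * ((k : ℤ) : ℂ)) with he1
    set e2 := c (k + 1) - (α + β * ((k + 1 : ℤ) : ℂ)) with he2
    set e3 := c (k + 2) - (α + β * ((k + 2 : ℤ) : ℂ)) with he3
    have d2 : c (k + 1) - 2 * c k + c (k - 1) = e2 - e1 - e1 + e0 := by
      rw [he0, he1, he2]; push_cast; ring
    have d3 : (c (k + 2) - 2 * c (k + 1) + c k) - (c (k + 1) - 2 * c k + c (k - 1)) =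
        (e3 - e2 - e2 + e1) - (e2 - e1 - e1 + e0) := by
      rw [he0, he1, he2, he3]; push_cast; ring
    have m2 : ‖e2 - e1 - e1 + e0‖ ≤ 4 * (K * t ^ (a - 1)) := by
      calc ‖e2 - e1 - e1 + e0‖ ≤ ‖e2‖ + ‖e1‖ + ‖e1‖ + ‖e0‖ := by
            refine (norm_add_le _ _).trans ?_
            gcongr
            refine (norm_sub_le _ _).trans ?_
            gcongr
            exact norm_sub_le _ _
        _ ≤ 4 * (K * t ^ (a - 1)) := by linarith
    have m2' : ‖e3 - e2 - e2 + e1‖ ≤ 4 * (K * t ^ (a - 1)) := by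
      calc ‖e3 - e2 - e2 + e1‖ ≤ ‖e3‖ + ‖e2‖ + ‖e2‖ + ‖e1‖ := by
            refine (norm_add_le _ _).trans ?_
            gcongr
            refine (norm_sub_le _ _).trans ?_
            gcongr
            exact norm_sub_le _ _
        _ ≤ 4 * (K * t ^ (a - 1)) := by linarith
    have q2 : (1 : ℝ) ≤ 4 * (1 + (k : ℝ)) ^ (a - 3) := by
      have := sym_pw (x := 1) (y := 1 + (k : ℝ)) (c := 2) (e := a - 3) (by linarith) (by norm_num)
        (by linarith) (by linarith) (by linarith)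
      rw [Real.one_rpow] at this
      linarith
    have q3 : (1 : ℝ) ≤ 4 * (1 + (k : ℝ)) ^ (a - 4) := by
      have := sym_pw (x := 1) (y := 1 + (k : ℝ)) (c := 2) (e := a - 4) (by linarith) (by norm_num)
        (by linarith) (by linarith) (by linarith)
      rw [Real.one_rpow] at this
      linarith
    have hKt : 0 ≤ K * t ^ (a - 1) := by positivity
    constructor
    · rw [d2]
      refine m2.trans ?_
      have := mul_le_mul_of_nonneg_left q2 hKt
      nlinarith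
    · rw [d3]
      refine (norm_sub_le _ _).trans ?_
      have := mul_le_mul_of_nonneg_left q3 hKt
      nlinarith

theorem sym_dd {a K t : ℝ} {τ τ₁ τ₂ τ₃ : ℝ → ℂ} {α β s : ℂ} {c : ℤ → ℂ} (ha : 2 < a) (ha3 : a < 3)
    (hK : 0 ≤ K) (ht : 0 < t) (h : SymSeq a K t τ τ₁ τ₂ τ₃ α β s c) (k : ℤ) :
    ‖c (k + 1) - 2 * c k + c (k - 1)‖ ≤ 128 * K * t ^ (a - 1) * (1 + |(k : ℝ)|) ^ (a - 3) ∧
    ‖(c (k + 2) - 2 * c (k + 1) + c k) - (c (k + 1) - 2 * c k + c (k - 1))‖ ≤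
      128 * K * t ^ (a - 1) * (1 + |(k : ℝ)|) ^ (a - 4) := by
  have hKt : 0 ≤ K * t ^ (a - 1) := by positivity
  have r2 : 0 ≤ (1 + |(k : ℝ)|) ^ (a - 3) := by positivity
  have r3 : 0 ≤ (1 + |(k : ℝ)|) ^ (a - 4) := by positivity
  rcases le_or_gt 0 k with hk | hk
  · obtain ⟨h2, h3⟩ := sym_dd_pos ha ha3 hK ht h k hk
    constructor
    · refine h2.trans ?_
      have := mul_nonneg hKt r2
      nlinarith
    · refine h3.trans ?_
      have := mul_nonneg hKt r3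
      nlinarith
  · obtain ⟨h2, -⟩ := sym_dd_pos ha ha3 hK ht h (-k) (by omega)
    obtain ⟨-, h3⟩ := sym_dd_pos ha ha3 hK ht h (-k - 1) (by omega)
    have n0 : c (k - 1) = s * (starRingEnd ℂ) (c (-k + 1)) := by
      rw [← h.neg]; congr 1; ring
    have n1 : c k = s * (starRingEnd ℂ) (c (-k)) := by
      rw [← h.neg]; congr 1; ring
    have n2 : c (k + 1) = s * (starRingEnd ℂ) (c (-k - 1)) := by
      rw [← h.neg]; congr 1; ring
    have n3 : c (k + 2) = s * (starRingEnd ℂ) (c (-k - 1 - 1)) := by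
      rw [← h.neg]; congr 1; ring
    constructor
    · have e : c (k + 1) - 2 * c k + c (k - 1) =
          s * (starRingEnd ℂ) (c (-k + 1) - 2 * c (-k) + c (-k - 1)) := by
        rw [n0, n1, n2]
        simp only [map_add, map_sub, map_mul, map_ofNat]
        ring
      rw [e, norm_mul, h.sg, one_mul, RCLike.norm_conj]
      have e5 : |((-k : ℤ) : ℝ)| = |(k : ℝ)| := by push_cast; exact abs_neg _
      rw [e5] at h2
      refine h2.trans ?_
      have := mul_nonneg hKt r2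
      nlinarith
    · have e : (c (k + 2) - 2 * c (k + 1) + c k) - (c (k + 1) - 2 * c k + c (k - 1)) =
          -(s * (starRingEnd ℂ) ((c (-k - 1 + 2) - 2 * c (-k - 1 + 1) + c (-k - 1)) -
            (c (-k - 1 + 1) - 2 * c (-k - 1) + c (-k - 1 - 1)))) := by
        have i1 : -k - 1 + 2 = -k + 1 := by ring
        have i2 : -k - 1 + 1 = -k := by ring
        rw [i1, i2, n0, n1, n2, n3]
        simp only [map_add, map_sub, map_mul, map_ofNat]
        ring
      rw [e, norm_neg, norm_mul, h.sg, one_mul, RCLike.norm_conj]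
      refine h3.trans ?_
      have hkr : (k : ℝ) < 0 := by exact_mod_cast hk
      have hkr1 : (k : ℝ) ≤ -1 := by
        have : k ≤ -1 := by omega
        exact_mod_cast this
      have e5 : |((-k - 1 : ℤ) : ℝ)| = -(k : ℝ) - 1 := by
        push_cast
        rw [abs_of_nonneg]
        linarith
      have e6 : |(k : ℝ)| = -(k : ℝ) := abs_of_neg hkr
      rw [e5]
      have q : (1 + (-(k : ℝ) - 1)) ^ (a - 4) ≤ 2 ^ 2 * (1 + |(k : ℝ)|) ^ (a - 4) := by
        apply sym_pw (by positivity) (by norm_num) _ (by linarith) (by linarith)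
        rw [e6]
        linarith
      have := mul_le_mul_of_nonneg_left q (show 0 ≤ 32 * (K * t ^ (a - 1)) by positivity)
      nlinarith

/-! ### size of the series -/

theorem sym_pa {x y a : ℝ} (hy : 0 < y) (h : y ≤ 2 * x) (ha : 0 ≤ a) (ha3 : a ≤ 3) :
    x ^ (-a) ≤ 8 * y ^ (-a) := by
  have h1 : y / 2 ≤ x := by linarith
  have h2 : 0 < y / 2 := by positivity
  have h3 : x ^ (-a) ≤ (y / 2) ^ (-a) := Real.rpow_le_rpow_of_nonpos h2 h1 (by linarith)
  have h4 : (y / 2) ^ (-a) = 2 ^ a * y ^ (-a) := by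
    rw [Real.div_rpow hy.le (by norm_num), Real.rpow_neg (by norm_num : (0:ℝ) ≤ 2)]
    field_simp
  have h5 : (2 : ℝ) ^ a ≤ 8 := by
    have : (2 : ℝ) ^ a ≤ 2 ^ (3 : ℝ) := Real.rpow_le_rpow_of_exponent_le (by norm_num) ha3
    refine this.trans ?_
    norm_num
  rw [h4] at h3
  exact h3.trans (mul_le_mul_of_nonneg_right h5 (by positivity))

theorem sym_sz {a K K' t C : ℝ} {τ τ₁ τ₂ τ₃ : ℝ → ℂ} {α β s : ℂ} {c : ℤ → ℂ} (ha : 2 < a) (ha3 : a < 3)
    (hK : 0 ≤ K) (hK' : 0 ≤ K') (ht : 0 < t) (ht1 : t ≤ 1) (hC1 : 1 ≤ C)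
    (hC : ∀ (c : ℤ → ℂ) (A t : ℝ), 0 < t → t ≤ 1 → 0 ≤ A →
      Summable (fun k => ‖c k‖) →
      (∀ k : ℤ, ‖c (k + 1) - 2 * c k + c (k - 1)‖ ≤ A * t ^ (a - 1) * (1 + |(k : ℝ)|) ^ (a - 3)) →
      (∀ k : ℤ, ‖(c (k + 2) - 2 * c (k + 1) + c k) - (c (k + 1) - 2 * c k + c (k - 1))‖
        ≤ A * t ^ (a - 1) * (1 + |(k : ℝ)|) ^ (a - 4)) →
      ∀ x : G, x ≠ 0 → ‖∑' k, c k * fourier k x‖ ≤ C * A * t ^ (a - 1) * ‖x‖ ^ (-a))
    (h : SymSeq a K t τ τ₁ τ₂ τ₃ α β s c) (hs : Summable (fun k => ‖c k‖))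
    (hs' : ∑' k, ‖c k‖ ≤ K' / t) (x : G) :
    ‖∑' k, c k * fourier k x‖ ≤ (8 * (128 * C * K + K')) / t * (1 + ‖x‖ / t) ^ (-a) := by
  have hx0 : 0 ≤ ‖x‖ := norm_nonneg x
  have hy : 0 < 1 + ‖x‖ / t := by positivity
  have hY : 0 ≤ (1 + ‖x‖ / t) ^ (-a) := by positivity
  have hCK : 0 ≤ 128 * C * K := by positivity
  by_cases hx : ‖x‖ ≤ t
  · have h1 : ‖∑' k, c k * fourier k x‖ ≤ ∑' k, ‖c k‖ := by
      have e : (fun k => ‖c k * fourier k x‖) = fun k => ‖c k‖ := by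
        funext k
        rw [norm_mul]
        have : ‖(fourier k x : ℂ)‖ = 1 := by
          rw [fourier_apply]
          exact Circle.norm_coe _
        rw [this, mul_one]
      have := norm_tsum_le_tsum_norm (f := fun k => c k * fourier k x) (by rw [e]; exact hs)
      rwa [e] at this
    have h2 : (1 : ℝ) ≤ 8 * (1 + ‖x‖ / t) ^ (-a) := by
      have h3 : ‖x‖ / t ≤ 1 := by rw [div_le_one ht]; exact hx
      have := sym_pa (x := 1) (y := 1 + ‖x‖ / t) (a := a) hy (by linarith) (by linarith) (by linarith)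
      rwa [Real.one_rpow] at this
    calc ‖∑' k, c k * fourier k x‖ ≤ K' / t := h1.trans hs'
      _ = K' / t * 1 := by ring
      _ ≤ K' / t * (8 * (1 + ‖x‖ / t) ^ (-a)) := mul_le_mul_of_nonneg_left h2 (by positivity)
      _ ≤ (8 * (128 * C * K + K')) / t * (1 + ‖x‖ / t) ^ (-a) := by
          have : 0 ≤ 128 * C * K / t * (1 + ‖x‖ / t) ^ (-a) := by positivity
          have e : (8 * (128 * C * K + K')) / t * (1 + ‖x‖ / t) ^ (-a) =
              8 * (128 * C * K / t * (1 + ‖x‖ / t) ^ (-a)) +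
                K' / t * (8 * (1 + ‖x‖ / t) ^ (-a)) := by ring
          rw [e]
          linarith
  · push Not at hx
    have hxp : 0 < ‖x‖ := lt_trans ht hx
    have hxne : x ≠ 0 := by
      intro h0
      rw [h0, norm_zero] at hxp
      exact lt_irrefl _ hxp
    have h1 := hC c (128 * K) t ht ht1 (by positivity) hs
      (fun k => (sym_dd ha ha3 hK ht h k).1) (fun k => (sym_dd ha ha3 hK ht h k).2) x hxne
    have h2 : t ^ (a - 1) * ‖x‖ ^ (-a) = 1 / t * (‖x‖ / t) ^ (-a) := by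
      rw [Real.div_rpow hx0 ht.le, Real.rpow_neg ht.le a]
      have : t ^ (a - 1) = t ^ a / t := by
        rw [Real.rpow_sub ht, Real.rpow_one]
      rw [this]
      field_simp
    have h3 : (‖x‖ / t) ^ (-a) ≤ 8 * (1 + ‖x‖ / t) ^ (-a) := by
      apply sym_pa hy _ (by linarith) (by linarith)
      have : 1 ≤ ‖x‖ / t := by rw [le_div_iff₀ ht]; linarith
      linarith
    calc ‖∑' k, c k * fourier k x‖ ≤ C * (128 * K) * t ^ (a - 1) * ‖x‖ ^ (-a) := h1
      _ = 128 * C * K * (t ^ (a - 1) * ‖x‖ ^ (-a)) := by ring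
      _ = 128 * C * K * (1 / t * (‖x‖ / t) ^ (-a)) := by rw [h2]
      _ ≤ 128 * C * K * (1 / t * (8 * (1 + ‖x‖ / t) ^ (-a))) := by
          apply mul_le_mul_of_nonneg_left _ hCK
          apply mul_le_mul_of_nonneg_left h3
          positivity
      _ ≤ (8 * (128 * C * K + K')) / t * (1 + ‖x‖ / t) ^ (-a) := by
          have : 0 ≤ K' / t * (8 * (1 + ‖x‖ / t) ^ (-a)) := by positivity
          have e : (8 * (128 * C * K + K')) / t * (1 + ‖x‖ / t) ^ (-a) =
              128 * C * K * (1 / t * (8 * (1 + ‖x‖ / t) ^ (-a))) +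
                K' / t * (8 * (1 + ‖x‖ / t) ^ (-a)) := by ring
          rw [e]
          linarith

/-! ### the two sequences -/

theorem sym_q {u : ℝ} (hu : 0 < u) : (1 + u) ^ (-(6:ℝ)) ≤ 1 ∧ u * (1 + u) ^ (-(6:ℝ)) ≤ 1 ∧
    0 ≤ (1 + u) ^ (-(6:ℝ)) := by
  have h1 : (1 : ℝ) ≤ 1 + u := by linarith
  have e : (1 + u) ^ (-(6:ℝ)) = 1 / (1 + u) ^ 6 := by
    rw [Real.rpow_neg (by linarith), show (6 : ℝ) = ((6 : ℕ) : ℝ) by norm_num, Real.rpow_natCast]
    rw [one_div]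
  have hp : 0 < (1 + u) ^ 6 := by positivity
  rw [e]
  refine ⟨?_, ?_, by positivity⟩
  · rw [div_le_one hp]
    exact one_le_pow₀ h1
  · rw [mul_one_div, div_le_one hp]
    calc u ≤ 1 + u := by linarith
      _ = (1 + u) ^ 1 := by ring
      _ ≤ (1 + u) ^ 6 := pow_le_pow_right₀ h1 (by norm_num)

theorem sym_cneg (c₀ : ℝ) (σ : ℝ → ℂ) (t : ℝ) (k : ℤ) :
    cs c₀ σ t (-k) = (starRingEnd ℂ) (cs c₀ σ t k) := by
  unfold cs
  have e : |((-k : ℤ) : ℝ)| = |(k : ℝ)| := by push_cast; exact abs_neg _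
  rw [e]
  rcases lt_trichotomy k 0 with h | h | h
  · have h1 : ¬ (-k = 0) := by omega
    have h2 : 0 < -k := by omega
    have h3 : ¬ (k = 0) := by omega
    have h4 : ¬ (0 < k) := by omega
    rw [if_neg h1, if_pos h2, if_neg h3, if_neg h4, Complex.conj_conj]
  · subst h
    simp
  · have h1 : ¬ (-k = 0) := by omega
    have h2 : ¬ (0 < -k) := by omega
    have h3 : ¬ (k = 0) := by omega
    rw [if_neg h1, if_neg h2, if_neg h3, if_pos h]

theorem sym_cpos (c₀ : ℝ) (σ : ℝ → ℂ) (t : ℝ) (k : ℤ) (hk : 0 < k) :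
    cs c₀ σ t k = σ (t * k) := by
  unfold cs
  rw [if_neg (by omega), if_pos hk]
  have : (0 : ℝ) ≤ k := by exact_mod_cast hk.le
  rw [abs_of_nonneg this]

theorem sym_near {a B σ₀ : ℝ} {σ σ₁ σ₂ σ₃ : ℝ → ℂ} (ha : 2 < a) (ha3 : a < 3) (hB : 1 ≤ B)
    (h : Sym a B σ₀ σ σ₁ σ₂ σ₃) {t c₀ : ℝ} (ht : 0 < t) (hc : |c₀ - σ₀| ≤ B * t ^ (a - 1))
    (k : ℤ) (hk : |k| ≤ 3) : ‖cs c₀ σ t k - (σ₀ : ℂ)‖ ≤ 9 * B * t ^ (a - 1) := by
  have hta : 0 < t ^ (a - 1) := Real.rpow_pos_of_pos ht _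
  have hBt : 0 ≤ B * t ^ (a - 1) := by positivity
  have hpos : ∀ j : ℤ, 0 < j → j ≤ 3 → ‖cs c₀ σ t j - (σ₀ : ℂ)‖ ≤ 9 * B * t ^ (a - 1) := by
    intro j hj hj3
    have hjr : (0 : ℝ) < j := by exact_mod_cast hj
    have hjr3 : (j : ℝ) ≤ 3 := by exact_mod_cast hj3
    rw [sym_cpos c₀ σ t j hj]
    refine (h.lim (t * j) (by positivity)).trans ?_
    rw [Real.mul_rpow ht.le hjr.le]
    have h1 : (j : ℝ) ^ (a - 1) ≤ 9 := by
      calc (j : ℝ) ^ (a - 1) ≤ 3 ^ (a - 1) := Real.rpow_le_rpow hjr.le hjr3 (by linarith)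
        _ ≤ 3 ^ (2 : ℝ) := Real.rpow_le_rpow_of_exponent_le (by norm_num) (by linarith)
        _ = 9 := by norm_num
    have := mul_le_mul_of_nonneg_left h1 hBt
    nlinarith
  rw [abs_le] at hk
  rcases lt_trichotomy k 0 with hk0 | hk0 | hk0
  · have h1 := hpos (-k) (by omega) (by omega)
    rw [sym_cneg] at h1
    have e : (starRingEnd ℂ) (cs c₀ σ t k) - (σ₀ : ℂ) =
        (starRingEnd ℂ) (cs c₀ σ t k - (σ₀ : ℂ)) := by
      rw [map_sub, Complex.conj_ofReal]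
    rw [e, RCLike.norm_conj] at h1
    exact h1
  · subst hk0
    have e : cs c₀ σ t 0 = (c₀ : ℂ) := by simp [cs]
    rw [e, ← Complex.ofReal_sub, Complex.norm_real, Real.norm_eq_abs]
    refine hc.trans ?_
    nlinarith
  · exact hpos k hk0 (by omega)

theorem sym_seq1 {a B σ₀ : ℝ} {σ σ₁ σ₂ σ₃ : ℝ → ℂ} (ha : 2 < a) (ha3 : a < 3) (hB : 1 ≤ B)
    (h : Sym a B σ₀ σ σ₁ σ₂ σ₃) {t c₀ : ℝ} (ht : 0 < t) (hc : |c₀ - σ₀| ≤ B * t ^ (a - 1)) :
    SymSeq a (9 * B) t σ σ₁ σ₂ σ₃ (σ₀ : ℂ) 0 1 (cs c₀ σ t) where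
  d1 := h.d1
  d2 := h.d2
  d3 := h.d3
  b2 := by
    intro u hu
    obtain ⟨q1, -, q3⟩ := sym_q hu
    refine (h.b2 u hu).trans ?_
    have : 0 ≤ B * u ^ (a - 3) := by positivity
    nlinarith [mul_le_mul_of_nonneg_left q1 this]
  b3 := by
    intro u hu
    obtain ⟨q1, -, q3⟩ := sym_q hu
    refine (h.b3 u hu).trans ?_
    have : 0 ≤ B * u ^ (a - 4) := by positivity
    nlinarith [mul_le_mul_of_nonneg_left q1 this]
  pos := fun k hk => sym_cpos c₀ σ t k hk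
  sg := by simp
  neg := fun k => by rw [one_mul]; exact sym_cneg c₀ σ t k
  near := by
    intro k hk
    have := sym_near ha ha3 hB h ht hc k hk
    simpa using this

theorem sym_seq2 {a B σ₀ : ℝ} {σ σ₁ σ₂ σ₃ : ℝ → ℂ} (ha : 2 < a) (ha3 : a < 3) (hB : 1 ≤ B)
    (h : Sym a B σ₀ σ σ₁ σ₂ σ₃) {t c₀ : ℝ} (ht : 0 < t) (ht1 : t ≤ 1)
    (hc : |c₀ - σ₀| ≤ B * t ^ (a - 1)) :
    SymSeq a (27 * B) t (fun u => (u : ℂ) * σ u) (fun u => σ u + (u : ℂ) * σ₁ u)
      (fun u => 2 * σ₁ u + (u : ℂ) * σ₂ u) (fun u => 3 * σ₂ u + (u : ℂ) * σ₃ u)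
      0 ((t : ℂ) * (σ₀ : ℂ)) (-1) (fun k => ((t * (k : ℝ) : ℝ) : ℂ) * cs c₀ σ t k) where
  d1 := by
    intro u hu
    have h1 : HasDerivAt (fun u : ℝ => (u : ℂ)) 1 u := Complex.ofRealCLM.hasDerivAt
    have h2 := h1.mul (h.d1 u hu)
    refine h2.congr_deriv ?_
    simp
  d2 := by
    intro u hu
    have h1 : HasDerivAt (fun u : ℝ => (u : ℂ)) 1 u := Complex.ofRealCLM.hasDerivAt
    have h2 := (h.d1 u hu).add (h1.mul (h.d2 u hu))
    refine h2.congr_deriv ?_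
    ring
  d3 := by
    intro u hu
    have h1 : HasDerivAt (fun u : ℝ => (u : ℂ)) 1 u := Complex.ofRealCLM.hasDerivAt
    have h2 := ((h.d2 u hu).const_mul (2 : ℂ)).add (h1.mul (h.d3 u hu))
    refine h2.congr_deriv ?_
    ring
  b2 := by
    intro u hu
    obtain ⟨q1, q2, q3⟩ := sym_q hu
    have n1 := h.b1 u hu
    have n2 := h.b2 u hu
    have e : u ^ (a - 2) = u ^ (a - 3) * u := by
      rw [show a - 2 = (a - 3) + 1 by ring, Real.rpow_add hu, Real.rpow_one]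
    have hp : 0 < u ^ (a - 3) := Real.rpow_pos_of_pos hu _
    have hBp : 0 ≤ B * u ^ (a - 3) := by positivity
    calc ‖2 * σ₁ u + (u : ℂ) * σ₂ u‖ ≤ 2 * ‖σ₁ u‖ + u * ‖σ₂ u‖ := by
          refine (norm_add_le _ _).trans ?_
          rw [norm_mul, norm_mul, Complex.norm_real, Real.norm_eq_abs, abs_of_pos hu]
          simp
      _ ≤ 2 * (B * u ^ (a - 2) * (1 + u) ^ (-(6:ℝ))) + u * (B * u ^ (a - 3) * (1 + u) ^ (-(6:ℝ))) := by
          gcongr
      _ = 3 * (B * u ^ (a - 3) * (u * (1 + u) ^ (-(6:ℝ)))) := by rw [e]; ring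
      _ ≤ 3 * (B * u ^ (a - 3) * 1) := by
          have := mul_le_mul_of_nonneg_left q2 hBp
          linarith
      _ ≤ 27 * B * u ^ (a - 3) := by nlinarith
  b3 := by
    intro u hu
    obtain ⟨q1, q2, q3⟩ := sym_q hu
    have n1 := h.b2 u hu
    have n2 := h.b3 u hu
    have e : u ^ (a - 3) = u ^ (a - 4) * u := by
      rw [show a - 3 = (a - 4) + 1 by ring, Real.rpow_add hu, Real.rpow_one]
    have hp : 0 < u ^ (a - 4) := Real.rpow_pos_of_pos hu _
    have hBp : 0 ≤ B * u ^ (a - 4) := by positivity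
    calc ‖3 * σ₂ u + (u : ℂ) * σ₃ u‖ ≤ 3 * ‖σ₂ u‖ + u * ‖σ₃ u‖ := by
          refine (norm_add_le _ _).trans ?_
          rw [norm_mul, norm_mul, Complex.norm_real, Real.norm_eq_abs, abs_of_pos hu]
          simp
      _ ≤ 3 * (B * u ^ (a - 3) * (1 + u) ^ (-(6:ℝ))) + u * (B * u ^ (a - 4) * (1 + u) ^ (-(6:ℝ))) := by
          gcongr
      _ = 4 * (B * u ^ (a - 4) * (u * (1 + u) ^ (-(6:ℝ)))) := by rw [e]; ring
      _ ≤ 4 * (B * u ^ (a - 4) * 1) := by
          have := mul_le_mul_of_nonneg_left q2 hBp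
          linarith
      _ ≤ 27 * B * u ^ (a - 4) := by nlinarith
  pos := by
    intro k hk
    rw [sym_cpos c₀ σ t k hk]
  sg := by simp
  neg := by
    intro k
    rw [sym_cneg, map_mul, Complex.conj_ofReal]
    push_cast
    ring
  near := by
    intro k hk
    have h1 := sym_near ha ha3 hB h ht hc k hk
    have hkr : |(k : ℝ)| ≤ 3 := by exact_mod_cast hk
    have e : ((t * (k : ℝ) : ℝ) : ℂ) * cs c₀ σ t k - (0 + (t : ℂ) * (σ₀ : ℂ) * (k : ℂ)) =
        ((t * (k : ℝ) : ℝ) : ℂ) * (cs c₀ σ t k - (σ₀ : ℂ)) := by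
      push_cast; ring
    rw [e, norm_mul, Complex.norm_real, Real.norm_eq_abs, abs_mul, abs_of_pos ht]
    have h2 : t * |(k : ℝ)| ≤ 3 := by
      have := abs_nonneg (k : ℝ)
      nlinarith
    have h3 : 0 ≤ 9 * B * t ^ (a - 1) := by positivity
    calc t * |(k : ℝ)| * ‖cs c₀ σ t k - (σ₀ : ℂ)‖ ≤ 3 * (9 * B * t ^ (a - 1)) := by
          apply mul_le_mul h2 h1 (norm_nonneg _) (by norm_num)
      _ = 27 * B * t ^ (a - 1) := by ring

/-! ### absolute bounds -/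

theorem sym_c0 {a B σ₀ : ℝ} {σ σ₁ σ₂ σ₃ : ℝ → ℂ} (ha : 2 < a) (hB : 1 ≤ B)
    (h : Sym a B σ₀ σ σ₁ σ₂ σ₃) {t c₀ : ℝ} (ht : 0 < t) (ht1 : t ≤ 1)
    (hc : |c₀ - σ₀| ≤ B * t ^ (a - 1)) : |c₀| ≤ 3 * B := by
  have h1 := h.b0 1 one_pos
  have h2 := h.lim 1 one_pos
  rw [Real.one_rpow] at h2
  have h3 : (1 + (1 : ℝ)) ^ (-(4:ℝ)) ≤ 1 := by
    apply Real.rpow_le_one_of_one_le_of_nonpos <;> norm_num
  have h4 : ‖σ 1‖ ≤ B := by
    refine h1.trans ?_
    have := mul_le_mul_of_nonneg_left h3 (show (0 : ℝ) ≤ B by linarith)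
    linarith
  have h5 : |σ₀| ≤ 2 * B := by
    have e : ((σ₀ : ℝ) : ℂ) = σ 1 - (σ 1 - (σ₀ : ℂ)) := by ring
    have : ‖((σ₀ : ℝ) : ℂ)‖ ≤ ‖σ 1‖ + ‖σ 1 - (σ₀ : ℂ)‖ := by
      conv_lhs => rw [e]
      exact norm_sub_le _ _
    rw [Complex.norm_real, Real.norm_eq_abs] at this
    linarith
  have h6 : t ^ (a - 1) ≤ 1 := Real.rpow_le_one ht.le ht1 (by linarith)
  have h7 : |c₀ - σ₀| ≤ B := by
    refine hc.trans ?_
    have := mul_le_mul_of_nonneg_left h6 (show (0 : ℝ) ≤ B by linarith)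
    linarith
  have h8 : |c₀| ≤ |c₀ - σ₀| + |σ₀| := by
    have := abs_add_le (c₀ - σ₀) σ₀
    simpa using this
  linarith

theorem sym_cb {a B σ₀ : ℝ} {σ σ₁ σ₂ σ₃ : ℝ → ℂ} (ha : 2 < a) (hB : 1 ≤ B)
    (h : Sym a B σ₀ σ σ₁ σ₂ σ₃) {t c₀ : ℝ} (ht : 0 < t) (ht1 : t ≤ 1)
    (hc : |c₀ - σ₀| ≤ B * t ^ (a - 1)) (k : ℤ) :
    ‖cs c₀ σ t k‖ ≤ 3 * B * (1 / (1 + t * |(k : ℝ)|) ^ 2) ∧
    t * |(k : ℝ)| * ‖cs c₀ σ t k‖ ≤ 3 * B * (1 / (1 + t * |(k : ℝ)|) ^ 2) := by
  have hB0 : (0 : ℝ) ≤ B := by linarith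
  by_cases hk : k = 0
  · subst hk
    have e : cs c₀ σ t 0 = (c₀ : ℂ) := by simp [cs]
    rw [e, Complex.norm_real, Real.norm_eq_abs]
    have := sym_c0 ha hB h ht ht1 hc
    constructor
    · simpa using this
    · simp [hB0]
  · have hk0 : 0 < |(k : ℝ)| := abs_pos.2 (by exact_mod_cast hk)
    set u : ℝ := t * |(k : ℝ)| with hu
    have hu0 : 0 < u := by positivity
    have hn : ‖cs c₀ σ t k‖ ≤ B * (1 + u) ^ (-(4:ℝ)) := by
      have e : ‖cs c₀ σ t k‖ = ‖σ u‖ := by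
        unfold cs
        rw [if_neg hk]
        split_ifs
        · rfl
        · rw [RCLike.norm_conj]
      rw [e]
      exact h.b0 u hu0
    have e4 : (1 + u) ^ (-(4:ℝ)) = 1 / (1 + u) ^ 4 := by
      rw [Real.rpow_neg (by linarith), show (4 : ℝ) = ((4 : ℕ) : ℝ) by norm_num, Real.rpow_natCast]
      rw [one_div]
    rw [e4] at hn
    have hq : 0 < (1 + u) ^ 2 := by positivity
    have hq1 : 1 ≤ (1 + u) ^ 2 := one_le_pow₀ (by linarith)
    have e5 : 1 / (1 + u) ^ 4 = (1 / (1 + u) ^ 2) * (1 / (1 + u) ^ 2) := by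
      field_simp
    have h6 : 1 / (1 + u) ^ 2 ≤ 1 := by rw [div_le_one hq]; exact hq1
    have h7 : u * (1 / (1 + u) ^ 2) ≤ 1 := by
      rw [mul_one_div, div_le_one hq]
      nlinarith
    have h8 : 0 ≤ 1 / (1 + u) ^ 2 := by positivity
    have h9 : 1 / (1 + u) ^ 4 ≤ 1 / (1 + u) ^ 2 := by
      rw [e5]
      have := mul_le_mul_of_nonneg_left h6 h8
      linarith
    have h10 : u * (1 / (1 + u) ^ 4) ≤ 1 / (1 + u) ^ 2 := by
      rw [e5, ← mul_assoc]
      have := mul_le_mul_of_nonneg_right h7 h8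
      linarith
    constructor
    · refine hn.trans ?_
      have := mul_le_mul_of_nonneg_left h9 hB0
      nlinarith
    · calc u * ‖cs c₀ σ t k‖ ≤ u * (B * (1 / (1 + u) ^ 4)) := mul_le_mul_of_nonneg_left hn hu0.le
        _ = B * (u * (1 / (1 + u) ^ 4)) := by ring
        _ ≤ B * (1 / (1 + u) ^ 2) := mul_le_mul_of_nonneg_left h10 hB0
        _ ≤ 3 * B * (1 / (1 + u) ^ 2) := by nlinarith

theorem sym_rep (z : G) : ∃ h : ℝ, (h : G) = z ∧ |h| = ‖z‖ := by
  obtain ⟨r, rfl⟩ := QuotientAddGroup.mk_surjective z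
  refine ⟨r - round ((2 * Real.pi)⁻¹ * r) * (2 * Real.pi), ?_, ?_⟩
  · rw [AddCircle.coe_sub]
    have : (((round ((2 * Real.pi)⁻¹ * r) : ℝ) * (2 * Real.pi) : ℝ) : G) = 0 := by
      rw [AddCircle.coe_eq_zero_iff]
      exact ⟨round ((2 * Real.pi)⁻¹ * r), by simp⟩
    rw [this, sub_zero]
  · exact (AddCircle.norm_eq (2 * Real.pi)).symm

theorem sym_nle (r : ℝ) : ‖(r : G)‖ ≤ |r| :=
  QuotientAddGroup.norm_mk_le_norm

theorem t_SYM (hSQ : S_SQ) : S_SYM := by
  intro a B ha ha3 hB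
  obtain ⟨C, hC1, hC⟩ := hSQ a ha ha3
  have hB0 : 0 ≤ B := by linarith
  set C1 : ℝ := 8 * (128 * C * (9 * B) + 9 * B) with hC1d
  set C2 : ℝ := 8 * (128 * C * (27 * B) + 9 * B) with hC2d
  have hC1p : 1 ≤ C1 := by
    have : 0 ≤ 128 * C * (9 * B) := by positivity
    rw [hC1d]; linarith
  have hC2p : 0 ≤ C2 := by rw [hC2d]; positivity
  refine ⟨8 * C2 + 2 * C1, by linarith, ?_⟩
  intro σ₀ σ σ₁ σ₂ σ₃ h t c₀ ht ht1 hc
  set c : ℤ → ℂ := cs c₀ σ t with hcd
  set d : ℤ → ℂ := fun k => ((t * (k : ℝ) : ℝ) : ℂ) * c k with hdd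
  obtain ⟨hw, hwle⟩ := sym_w ht ht1
  have hcb := sym_cb ha hB h ht ht1 hc
  have hw3 : Summable (fun k : ℤ => 3 * B * (1 / (1 + t * |(k : ℝ)|) ^ 2)) := hw.mul_left _
  have hw3le : ∑' k : ℤ, 3 * B * (1 / (1 + t * |(k : ℝ)|) ^ 2) ≤ 9 * B / t := by
    rw [tsum_mul_left]
    calc 3 * B * ∑' k : ℤ, 1 / (1 + t * |(k : ℝ)|) ^ 2 ≤ 3 * B * (3 / t) :=
          mul_le_mul_of_nonneg_left hwle (by positivity)
      _ = 9 * B / t := by ring
  have hcs : Summable (fun k => ‖c k‖) :=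
    Summable.of_nonneg_of_le (fun k => norm_nonneg _) (fun k => (hcb k).1) hw3
  have hcle : ∑' k, ‖c k‖ ≤ 9 * B / t :=
    (hcs.tsum_le_tsum (fun k => (hcb k).1) hw3).trans hw3le
  have hdn : ∀ k, ‖d k‖ = t * |(k : ℝ)| * ‖c k‖ := by
    intro k
    rw [hdd]
    simp only
    rw [norm_mul, Complex.norm_real, Real.norm_eq_abs, abs_mul, abs_of_pos ht]
  have hdb : ∀ k, ‖d k‖ ≤ 3 * B * (1 / (1 + t * |(k : ℝ)|) ^ 2) := by
    intro k
    rw [hdn]
    exact (hcb k).2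
  have hds : Summable (fun k => ‖d k‖) :=
    Summable.of_nonneg_of_le (fun k => norm_nonneg _) hdb hw3
  have hdle : ∑' k, ‖d k‖ ≤ 9 * B / t :=
    (hds.tsum_le_tsum hdb hw3).trans hw3le
  have hsz1 : ∀ x : G, ‖∑' k, c k * fourier k x‖ ≤ C1 / t * (1 + ‖x‖ / t) ^ (-a) := fun x =>
    sym_sz ha ha3 (by positivity) (by positivity) ht ht1 hC1 hC (sym_seq1 ha ha3 hB h ht hc) hcs
      hcle x
  have hsz2 : ∀ x : G, ‖∑' k, d k * fourier k x‖ ≤ C2 / t * (1 + ‖x‖ / t) ^ (-a) := fun x =>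
    sym_sz ha ha3 (by positivity) (by positivity) ht ht1 hC1 hC (sym_seq2 ha ha3 hB h ht ht1 hc) hds
      hdle x
  have hfn : ∀ (k : ℤ) (x : G), ‖(fourier k x : ℂ)‖ = 1 := by
    intro k x
    rw [fourier_apply]
    exact Circle.norm_coe _
  -- continuity
  have hcont : Continuous (fun x : G => ∑' k, c k * fourier k x) := by
    apply continuous_tsum (u := fun k => ‖c k‖) _ hcs
    · intro k x
      rw [norm_mul, hfn, mul_one]
    · intro k
      exact continuous_const.mul (fourier k).continuous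
  -- reality
  have hreal : ∀ x : G, ((fs c x : ℝ) : ℂ) = ∑' k, c k * fourier k x := by
    intro x
    unfold fs
    rw [← Complex.conj_eq_iff_re]
    rw [Complex.conj_tsum]
    rw [← (Equiv.neg ℤ).tsum_eq (fun k => c k * fourier k x)]
    apply tsum_congr
    intro k
    rw [map_mul]
    simp only [Equiv.neg_apply]
    rw [fourier_neg, hcd, sym_cneg]
  have habs : ∀ x : G, |fs c x| ≤ C1 / t * (1 + ‖x‖ / t) ^ (-a) := by
    intro x
    refine le_trans ?_ (hsz1 x)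
    unfold fs
    exact Complex.abs_re_le_norm _
  refine ⟨hcs, ⟨?_, ?_, ?_⟩, hreal⟩
  · unfold fs
    exact Complex.continuous_re.comp hcont
  · intro x
    refine (habs x).trans ?_
    have h1 : C1 / t ≤ (8 * C2 + 2 * C1) / t := by
      apply div_le_div_of_nonneg_right _ ht.le
      linarith
    exact mul_le_mul_of_nonneg_right h1 (by positivity)
  · intro x y
    have hPx : 0 ≤ (1 + ‖x‖ / t) ^ (-a) := by positivity
    have hPy : 0 ≤ (1 + ‖y‖ / t) ^ (-a) := by positivity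
    have hxy0 : 0 ≤ ‖x - y‖ := norm_nonneg _
    by_cases hxy : t / 2 ≤ ‖x - y‖
    · have h1 : |fs c x - fs c y| ≤ |fs c x| + |fs c y| := abs_sub _ _
      have h2 := habs x
      have h3 := habs y
      have h4 : (1 : ℝ) ≤ 2 * (‖x - y‖ / t) := by
        rw [← mul_div_assoc, le_div_iff₀ ht]
        linarith
      have h5 : 0 ≤ C1 / t * ((1 + ‖x‖ / t) ^ (-a) + (1 + ‖y‖ / t) ^ (-a)) := by positivity
      calc |fs c x - fs c y| ≤ C1 / t * ((1 + ‖x‖ / t) ^ (-a) + (1 + ‖y‖ / t) ^ (-a)) := by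
            rw [mul_add]; linarith
        _ ≤ C1 / t * ((1 + ‖x‖ / t) ^ (-a) + (1 + ‖y‖ / t) ^ (-a)) * (2 * (‖x - y‖ / t)) :=
            le_mul_of_one_le_right h5 h4
        _ = 2 * C1 / t * (‖x - y‖ / t) * ((1 + ‖x‖ / t) ^ (-a) + (1 + ‖y‖ / t) ^ (-a)) := by ring
        _ ≤ (8 * C2 + 2 * C1) / t * (‖x - y‖ / t) *
              ((1 + ‖x‖ / t) ^ (-a) + (1 + ‖y‖ / t) ^ (-a)) := by
            have : 2 * C1 / t ≤ (8 * C2 + 2 * C1) / t := by
              apply div_le_div_of_nonneg_right _ ht.le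
              linarith
            gcongr
    · push Not at hxy
      obtain ⟨X, rfl⟩ := QuotientAddGroup.mk_surjective x
      obtain ⟨w, hw1, hw2⟩ := sym_rep (y - (X : G))
      have hyX : y = ((X + w : ℝ) : G) := by
        rw [AddCircle.coe_add, hw1]
        abel
      have hwn : |w| = ‖(X : G) - y‖ := by
        rw [hw2, ← norm_neg]
        congr 1
        abel
      have hwt : |w| < t / 2 := by
        rw [hwn]; exact hxy
      -- the function on the line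
      have hder : ∀ v : ℝ, HasDerivAt (fun v : ℝ => ∑' k, c k * fourier k (v : G))
          (∑' k, c k * (Complex.I * (k : ℂ) * fourier k (v : G))) v := by
        intro v
        refine hasDerivAt_tsum (u := fun k => 1 / t * ‖d k‖) (hds.mul_left _)
          (g := fun k (v : ℝ) => c k * fourier k (v : G))
          (g' := fun k (v : ℝ) => c k * (Complex.I * (k : ℂ) * fourier k (v : G))) ?_ ?_
          (y₀ := 0) ?_ v
        · intro k v
          have := (hasDerivAt_fourier (2 * Real.pi) k v).const_mul (c k)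
          refine this.congr_deriv ?_
          congr 2
          have hpi : (Real.pi : ℂ) ≠ 0 := by
            exact_mod_cast Real.pi_ne_zero
          push_cast
          field_simp
        · intro k v
          rw [norm_mul, norm_mul, norm_mul, hfn, mul_one, Complex.norm_I, one_mul, hdn]
          have : ‖((k : ℤ) : ℂ)‖ = |(k : ℝ)| := by
            rw [Complex.norm_intCast]
          rw [this]
          apply le_of_eq
          field_simp
        · apply Summable.of_norm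
          refine hcs.congr ?_
          intro k
          rw [norm_mul, hfn, mul_one]
      have hderv : ∀ v : ℝ, ∑' k, c k * (Complex.I * (k : ℂ) * fourier k (v : G)) =
          (Complex.I / t) * ∑' k, d k * fourier k (v : G) := by
        intro v
        rw [← tsum_mul_left]
        apply tsum_congr
        intro k
        rw [hdd]
        have htc : (t : ℂ) ≠ 0 := by exact_mod_cast ht.ne'
        push_cast
        field_simp
      set M : ℝ := 1 / t * (C2 / t * (8 * (1 + ‖(X : G)‖ / t) ^ (-a))) with hM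
      have hbound : ∀ v ∈ Set.uIcc X (X + w),
          ‖∑' k, c k * (Complex.I * (k : ℂ) * fourier k (v : G))‖ ≤ M := by
        intro v hv
        rw [hderv, norm_mul, norm_div, Complex.norm_I, Complex.norm_real, Real.norm_eq_abs,
          abs_of_pos ht, hM]
        apply mul_le_mul_of_nonneg_left _ (by positivity)
        refine (hsz2 _).trans ?_
        apply mul_le_mul_of_nonneg_left _ (by positivity)
        have hvX : |X - v| ≤ |w| := by
          have := Set.abs_sub_left_of_mem_uIcc hv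
          rw [abs_sub_comm] 
          simpa using this
        have hn1 : ‖(X : G)‖ ≤ ‖(v : G)‖ + t / 2 := by
          have e : (X : G) = (v : G) + ((X - v : ℝ) : G) := by
            rw [← AddCircle.coe_add]
            congr 1
            ring
          rw [e]
          refine (norm_add_le _ _).trans ?_
          have := sym_nle (X - v)
          linarith
        apply sym_pa (by positivity) _ (by linarith) (by linarith)
        have h1 : ‖(X : G)‖ / t ≤ ‖(v : G)‖ / t + 1 / 2 := by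
          rw [div_add' _ _ _ ht.ne']
          apply div_le_div_of_nonneg_right _ ht.le
          linarith
        have h2 : 0 ≤ ‖(v : G)‖ / t := by positivity
        linarith
      have hmv := Convex.norm_image_sub_le_of_norm_hasDerivWithin_le
        (f := fun v : ℝ => ∑' k, c k * fourier k (v : G))
        (f' := fun v : ℝ => ∑' k, c k * (Complex.I * (k : ℂ) * fourier k (v : G))) (C := M)
        (s := Set.uIcc X (X + w)) (x := X) (y := X + w)
        (fun v _ => (hder v).hasDerivWithinAt) hbound (convex_uIcc _ _) Set.left_mem_uIcc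
        Set.right_mem_uIcc
      have hre : |fs c (X : G) - fs c y| ≤
          ‖(∑' k, c k * fourier k ((X + w : ℝ) : G)) - ∑' k, c k * fourier k (X : G)‖ := by
        rw [hyX, abs_sub_comm]
        unfold fs
        rw [← Complex.sub_re]
        exact Complex.abs_re_le_norm _
      have hnw : ‖X + w - X‖ = ‖(X : G) - y‖ := by
        rw [add_sub_cancel_left, Real.norm_eq_abs, hwn]
      rw [hnw] at hmv
      calc |fs c (X : G) - fs c y| ≤ M * ‖(X : G) - y‖ := hre.trans hmv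
        _ = 8 * C2 / t * (‖(X : G) - y‖ / t) * (1 + ‖(X : G)‖ / t) ^ (-a) := by
            rw [hM]; ring
        _ ≤ (8 * C2 + 2 * C1) / t * (‖(X : G) - y‖ / t) *
              ((1 + ‖(X : G)‖ / t) ^ (-a) + (1 + ‖y‖ / t) ^ (-a)) := by
            have h1 : 8 * C2 / t ≤ (8 * C2 + 2 * C1) / t := by
              apply div_le_div_of_nonneg_right _ ht.le
              linarith
            have h2 : (1 + ‖(X : G)‖ / t) ^ (-a) ≤
                (1 + ‖(X : G)‖ / t) ^ (-a) + (1 + ‖y‖ / t) ^ (-a) := by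
              linarith
            gcongr

end Pool.Agent.H729R2.FO
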