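import Mathlib
import Pool.Agent.H729R2.FO.Stubs

set_option autoImplicit false

namespace Pool.Agent.H729R2.FO

open MeasureTheory Pool.Agent.H729R2.CB Pool.Agent.Helper150.Cub

open scoped Classical

noncomputable section

/-- weighted sums over the good strips -/
def top_A (Q : Finset ℕ) (gd : ℕ → Finset ℕ) (f : ℕ → ℕ → ℝ) : ℝ :=
  ∑ q ∈ Q, (1 / 2) ^ q * ∑ i ∈ gd q, f q i

theorem top_A_mono {Q : Finset ℕ} {gd : ℕ → Finset ℕ} {f g : ℕ → ℕ → ℝ}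
    (h : ∀ q ∈ Q, ∀ i ∈ gd q, f q i ≤ g q i) : top_A Q gd f ≤ top_A Q gd g := by
  unfold top_A
  refine Finset.sum_le_sum fun q hq => ?_
  exact mul_le_mul_of_nonneg_left (Finset.sum_le_sum fun i hi => h q hq i hi) (by positivity)

theorem top_A_add (Q : Finset ℕ) (gd : ℕ → Finset ℕ) (f g : ℕ → ℕ → ℝ) :
    top_A Q gd (fun q i => f q i + g q i) = top_A Q gd f + top_A Q gd g := by
  unfold top_A
  rw [← Finset.sum_add_distrib]
  refine Finset.sum_congr rfl fun q _ => ?_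
  rw [Finset.sum_add_distrib, mul_add]

theorem top_A_sub (Q : Finset ℕ) (gd : ℕ → Finset ℕ) (f g : ℕ → ℕ → ℝ) :
    top_A Q gd (fun q i => f q i - g q i) = top_A Q gd f - top_A Q gd g := by
  unfold top_A
  rw [← Finset.sum_sub_distrib]
  refine Finset.sum_congr rfl fun q _ => ?_
  rw [Finset.sum_sub_distrib, mul_sub]

theorem top_A_mul (Q : Finset ℕ) (gd : ℕ → Finset ℕ) (c : ℝ) (f : ℕ → ℕ → ℝ) :
    top_A Q gd (fun q i => c * f q i) = c * top_A Q gd f := by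
  unfold top_A
  rw [Finset.mul_sum]
  refine Finset.sum_congr rfl fun q _ => ?_
  rw [← Finset.mul_sum]
  ring

theorem top_A_sum (Q : Finset ℕ) (gd : ℕ → Finset ℕ) (s : Finset ℕ) (f : ℕ → ℕ → ℕ → ℝ) :
    top_A Q gd (fun q i => ∑ l ∈ s, f l q i) = ∑ l ∈ s, top_A Q gd (f l) := by
  unfold top_A
  rw [Finset.sum_comm]
  refine Finset.sum_congr rfl fun q _ => ?_
  rw [Finset.sum_comm, Finset.mul_sum]

theorem top_WW_nonneg {θ : ℝ} (hθ : 0 < θ) (l l' : ℕ) : 0 ≤ WW θ l l' := by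
  unfold WW
  positivity

/-- the algebra of averaging -/
theorem top_core (Q : Finset ℕ) (gd : ℕ → Finset ℕ) (N : ℕ)
    (hA1 : top_A Q gd (fun _ _ => 1) ≤ N) (g : ℕ → ℕ → ℕ → ℝ) (pq : ℕ → ℕ → ℝ)
    (θ C₄ c₄ C₆ C₆' C₀ C₅ EE : ℝ) (e₀ L : ℕ) (D d₀ : ℕ → ℕ) (hθ : 0 < θ) (hC4 : 1 ≤ C₄)
    (hC6 : C₆' ≤ C₆) (hC0 : 1 ≤ C₀) (hC0' : C₀ ≤ C₆) (hEE : 0 ≤ EE)
    (hDd : ∀ l, ((D l + d₀ l : ℕ) : ℝ) ≤ C₅ * ((l : ℝ) + 1) * 2 ^ l)
    (h1 : ∀ q ∈ Q, ∀ i ∈ gd q, c₄ * pq q i ≤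
      C₄ * (∑ l ∈ Finset.range (L + 1), WW θ 0 l * g l q i + WW θ 0 L * (C₀ * EE)))
    (h2 : ∀ l, l ≤ L → top_A Q gd (fun q i => g l q i / 2 - C₄ * (1 / 2) ^ (e₀ + 10 * l) *
      (∑ l' ∈ Finset.Icc l L, WW θ l l' * g l' q i + WW θ l L * (C₀ * EE) + pq q i)) ≤
        C₆' * ((D l + (d₀ l + (e₀ + 10 * l)) + 1 : ℕ) : ℝ) * EE) :
    c₄ * top_A Q gd pq ≤ C₄ * (∑ l ∈ Finset.range (L + 1), WW θ 0 l * top_A Q gd (g l) +
      WW θ 0 L * (N * C₆ * EE)) ∧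
    (∀ l, l ≤ L → top_A Q gd (g l) / 2 - C₄ * (1 / 2) ^ (e₀ + 10 * l) *
        (∑ l' ∈ Finset.Icc l L, WW θ l l' * top_A Q gd (g l') + WW θ l L * (N * C₆ * EE) +
          top_A Q gd pq)
      ≤ C₆ * (C₅ * ((l : ℝ) + 1) * 2 ^ l + (e₀ + 10 * l : ℕ) + 1) * EE) := by
  have hconst : ∀ k : ℝ, 0 ≤ k → top_A Q gd (fun _ _ => k * (C₀ * EE)) ≤ k * (N * C₆ * EE) := by
    intro k hk
    have e1 : top_A Q gd (fun _ _ => k * (C₀ * EE)) =
        (k * (C₀ * EE)) * top_A Q gd (fun _ _ => 1) := by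
      rw [← top_A_mul]
      simp only [mul_one]
    rw [e1]
    have h3 : 0 ≤ k * (C₀ * EE) := by positivity
    calc (k * (C₀ * EE)) * top_A Q gd (fun _ _ => 1) ≤ (k * (C₀ * EE)) * N :=
          mul_le_mul_of_nonneg_left hA1 h3
      _ = (k * N * EE) * C₀ := by ring
      _ ≤ (k * N * EE) * C₆ := mul_le_mul_of_nonneg_left hC0' (by positivity)
      _ = k * (N * C₆ * EE) := by ring
  constructor
  · have h3 := top_A_mono h1
    rw [top_A_mul, top_A_mul, top_A_add, top_A_sum] at h3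
    refine h3.trans ?_
    refine mul_le_mul_of_nonneg_left ?_ (by linarith)
    refine add_le_add (le_of_eq ?_) (hconst _ (top_WW_nonneg hθ 0 L))
    refine Finset.sum_congr rfl fun l _ => ?_
    exact top_A_mul Q gd (WW θ 0 l) (g l)
  · intro l hl
    have h3 := h2 l hl
    rw [top_A_sub, top_A_mul, top_A_add, top_A_add, top_A_sum] at h3
    have e1 : top_A Q gd (fun q i => g l q i / 2) = top_A Q gd (g l) / 2 := by
      have := top_A_mul Q gd (1 / 2) (g l)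
      rw [show top_A Q gd (g l) / 2 = 1 / 2 * top_A Q gd (g l) by ring, ← this]
      congr 1
      funext q i
      ring
    have e2 : ∑ l' ∈ Finset.Icc l L, top_A Q gd (fun q i => WW θ l l' * g l' q i) =
        ∑ l' ∈ Finset.Icc l L, WW θ l l' * top_A Q gd (g l') :=
      Finset.sum_congr rfl fun l' _ => top_A_mul Q gd (WW θ l l') (g l')
    rw [e1, e2] at h3
    have h4 := hconst _ (top_WW_nonneg hθ l L)
    have h5 : 0 ≤ C₄ * (1 / 2 : ℝ) ^ (e₀ + 10 * l) := by positivity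
    have h6 : C₄ * (1 / 2 : ℝ) ^ (e₀ + 10 * l) * (∑ l' ∈ Finset.Icc l L, WW θ l l' *
          top_A Q gd (g l') + top_A Q gd (fun _ _ => WW θ l L * (C₀ * EE)) + top_A Q gd pq) ≤
        C₄ * (1 / 2 : ℝ) ^ (e₀ + 10 * l) * (∑ l' ∈ Finset.Icc l L, WW θ l l' *
          top_A Q gd (g l') + WW θ l L * (N * C₆ * EE) + top_A Q gd pq) := by
      refine mul_le_mul_of_nonneg_left ?_ h5
      linarith
    have h7 : C₆' * ((D l + (d₀ l + (e₀ + 10 * l)) + 1 : ℕ) : ℝ) * EE ≤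
        C₆ * (C₅ * ((l : ℝ) + 1) * 2 ^ l + (e₀ + 10 * l : ℕ) + 1) * EE := by
      refine mul_le_mul_of_nonneg_right ?_ hEE
      have h8 := hDd l
      have h9 : ((D l + (d₀ l + (e₀ + 10 * l)) + 1 : ℕ) : ℝ) ≤
          C₅ * ((l : ℝ) + 1) * 2 ^ l + (e₀ + 10 * l : ℕ) + 1 := by
        push_cast at h8 ⊢
        linarith
      have h10 : (0 : ℝ) ≤ ((D l + (d₀ l + (e₀ + 10 * l)) + 1 : ℕ) : ℝ) := by positivity
      calc C₆' * ((D l + (d₀ l + (e₀ + 10 * l)) + 1 : ℕ) : ℝ) ≤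
            C₆ * ((D l + (d₀ l + (e₀ + 10 * l)) + 1 : ℕ) : ℝ) :=
            mul_le_mul_of_nonneg_right hC6 h10
        _ ≤ _ := mul_le_mul_of_nonneg_left h9 (by linarith)
    linarith

/-- the threshold for the weights -/
theorem top_num (θ : ℝ) (h0 : 0 < θ) (h1 : θ < 1) :
    ∃ n₁ : ℕ, 1 ≤ n₁ ∧ ∀ N : ℕ, n₁ ≤ N → (N : ℝ) * WW θ 0 (N - 1) ≤ 1 := by
  have ht := tendsto_pow_const_mul_const_pow_of_abs_lt_one 7 (r := θ) (by rw [abs_of_pos h0]; exact h1)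
  have ht2 := ht.eventually (ge_mem_nhds (show (0 : ℝ) < θ ^ 2 by positivity))
  obtain ⟨n, hn⟩ := Filter.eventually_atTop.mp ht2
  refine ⟨n + 1, by omega, fun N hN => ?_⟩
  have h2 := hn (N + 1) (by omega)
  obtain ⟨k, rfl⟩ : ∃ k, N = k + 1 := ⟨N - 1, by omega⟩
  simp only [Nat.add_sub_cancel]
  unfold WW
  rw [Nat.sub_zero]
  push_cast at h2 ⊢
  have h3 : ((k : ℝ) + 1 + 1) ^ 7 * θ ^ k ≤ 1 := by
    have h4 : ((k : ℝ) + 1 + 1) ^ 7 * θ ^ (k + 1 + 1) = ((k : ℝ) + 1 + 1) ^ 7 * θ ^ k * θ ^ 2 := by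
      ring
    rw [h4] at h2
    by_contra hcon
    push Not at hcon
    have h5 : (0 : ℝ) < θ ^ 2 := by positivity
    nlinarith
  calc ((k : ℝ) + 1) * (((k : ℝ) + 2) ^ 6 * θ ^ k) ≤ ((k : ℝ) + 2) * (((k : ℝ) + 2) ^ 6 * θ ^ k) := by
        refine mul_le_mul_of_nonneg_right (by linarith) (by positivity)
    _ = ((k : ℝ) + 1 + 1) ^ 7 * θ ^ k := by ring
    _ ≤ 1 := h3

theorem top_cont (r α : ℝ) (hF : Continuous (FG r α)) {m : ℕ} (w : Fin m → ℝ)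
    (ξ : Fin m → G × G) : Continuous (errF r α w ξ) := by
  unfold errF
  refine Continuous.sub (continuous_finsetSum _ fun μ _ => ?_) continuous_const
  refine continuous_const.mul (Continuous.mul ?_ ?_)
  · exact hF.comp (continuous_const.sub continuous_fst)
  · exact hF.comp (continuous_const.sub continuous_snd)

theorem t_TOP (hO : S_ONE) (hL : S_LEV) (hE : S_EQH) (hC : S_CNT) (hM : S_NUM) (hN : S_NNF) :
    S_TOP := by
  intro r α hr hKn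
  obtain ⟨a, C, z₀, M, K, Y, hK⟩ := hKn
  obtain ⟨θ, C₄, c₄, hθ1, hθ2, hC4, hc4, hO'⟩ := hO r a C z₀ (FG r α) M K Y hK
  obtain ⟨C₆', hC6', hL'⟩ := hL a C hK.ha hK.hC
  obtain ⟨C₀, hC0, hE'⟩ := hE r α a C z₀ M K Y hK
  obtain ⟨e₀, he₀, hM'⟩ := hM θ C₄ c₄ (max C₆' C₀) hθ1 hθ2 hC4 hc4 (le_max_of_le_left hC6')
  obtain ⟨K₀, C₅, D, d₀, hK0, hC5, hDd, hO''⟩ := hO' e₀ he₀
  obtain ⟨C₇, hC7, hM''⟩ := hM' C₅ hC5
  have hθ0 : 0 < θ := by linarith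
  obtain ⟨n₁, hn1, hn₁⟩ := top_num θ hθ0 (by linarith)
  obtain ⟨n₂, hn₂⟩ : ∃ n₂ : ℕ, ∀ b, n₂ ≤ b → ((1 : ℝ) / 2) ^ b ≤ z₀ := by
    obtain ⟨n, hn⟩ := exists_pow_lt_of_lt_one hK.z0 (by norm_num : (1 / 2 : ℝ) < 1)
    exact ⟨n, fun b hb => (pow_le_pow_of_le_one (by norm_num) (by norm_num) hb).trans hn.le⟩
  have hK0' : 0 < K₀ := by linarith
  refine ⟨(4 * K₀) ^ (-r) / (16 * C₇), by positivity, 2 ^ (4 * n₁ + 2 * n₂ + 8), ?_⟩
  intro m hm w ξ EE hEE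
  have hEE0 : 0 ≤ EE := (abs_nonneg _).trans (hEE 0)
  have hm1 : 1 ≤ m := le_trans Nat.one_le_two_pow hm
  have hm1' : (1 : ℝ) ≤ m := by exact_mod_cast hm1
  -- choice of `n`
  have hex : ∃ n : ℕ, 2 * (m : ℝ) * K₀ ≤ 2 ^ n := by
    obtain ⟨n, hn⟩ := pow_unbounded_of_one_lt (2 * (m : ℝ) * K₀) (by norm_num : (1 : ℝ) < 2)
    exact ⟨n, hn.le⟩
  obtain ⟨n, hn_lo, hn_min⟩ : ∃ n : ℕ, 2 * (m : ℝ) * K₀ ≤ 2 ^ n ∧
      ∀ k < n, ¬ (2 * (m : ℝ) * K₀ ≤ 2 ^ k) :=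
    ⟨Nat.find hex, Nat.find_spec hex, fun k hk => Nat.find_min hex hk⟩
  have hmK : (m : ℝ) ≤ 2 * m * K₀ := by nlinarith
  have hn_big : 4 * n₁ + 2 * n₂ + 8 ≤ n := by
    have h1 : (2 : ℝ) ^ (4 * n₁ + 2 * n₂ + 8) ≤ 2 ^ n := by
      have h2 : ((2 ^ (4 * n₁ + 2 * n₂ + 8) : ℕ) : ℝ) ≤ m := by exact_mod_cast hm
      push_cast at h2
      linarith
    exact (pow_le_pow_iff_right₀ (by norm_num)).mp h1
  have hn_hi : (2 : ℝ) ^ n ≤ 4 * m * K₀ := by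
    have h1 := hn_min (n - 1) (by omega)
    push Not at h1
    have h2 : (2 : ℝ) ^ n = 2 * 2 ^ (n - 1) := by
      rw [← pow_succ']
      congr 1
      omega
    rw [h2]
    linarith
  obtain ⟨N, hNdef⟩ : ∃ N, N = n / 4 := ⟨_, rfl⟩
  have hN1 : n₁ ≤ N := by omega
  have hN1' : 1 ≤ N := by omega
  have hNn : N + N ≤ n := by omega
  have hNL : N - 1 + 1 = N := by omega
  set Q : Finset ℕ := Finset.Ico N (N + N) with hQ
  have hQb : ∀ q ∈ Q, q ≤ n ∧ n₂ ≤ n - q ∧ 2 * (N - 1 + 1) ≤ n - q := by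
    intro q hq
    rw [hQ, Finset.mem_Ico] at hq
    omega
  set gd : ℕ → Finset ℕ := fun q => (Finset.range (2 ^ q)).filter
    (fun i => ((Xq ξ q i).card : ℝ) * K₀ ≤ 2 ^ (n - q)) with hgd
  have hgdc : ∀ q, q ∈ Q → (2 : ℝ) ^ q / 2 ≤ ((gd q).card : ℝ) := by
    intro q hq
    exact hC m n q ξ K₀ hK0 (hQb q hq).1 hn_lo
  have hgdu : ∀ q, ((gd q).card : ℝ) ≤ 2 ^ q := by
    intro q
    have h1 : (gd q).card ≤ 2 ^ q := by
      calc (gd q).card ≤ (Finset.range (2 ^ q)).card := Finset.card_filter_le _ _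
        _ = 2 ^ q := Finset.card_range _
    exact_mod_cast h1
  have hEq := hE' m w ξ EE hEE
  have hEc : Continuous (errF r α w ξ) := top_cont r α hK.Fcont w ξ
  -- choice of the sets
  choose Sf hSf using hO''
  have hS : ∃ S : ℕ → ℕ → ℕ → Set G, ∀ q ∈ Q, ∀ i ∈ gd q, ∃ (h1 : ((1 : ℝ) / 2) ^ (n - q) ≤ z₀)
      (h2 : ((Xq ξ q i).card : ℝ) * K₀ ≤ 2 ^ (n - q)), S q i = Sf (n - q) (Xq ξ q i) h1 h2 := by
    refine ⟨fun q i => if h : ((1 : ℝ) / 2) ^ (n - q) ≤ z₀ ∧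
      ((Xq ξ q i).card : ℝ) * K₀ ≤ 2 ^ (n - q) then Sf (n - q) (Xq ξ q i) h.1 h.2
      else fun _ => ∅, fun q hq i hi => ?_⟩
    have h1 := hn₂ (n - q) (hQb q hq).2.1
    have h2 : ((Xq ξ q i).card : ℝ) * K₀ ≤ 2 ^ (n - q) := (Finset.mem_filter.mp hi).2
    exact ⟨h1, h2, dif_pos ⟨h1, h2⟩⟩
  obtain ⟨S, hS⟩ := hS
  have hhalf : ∀ q : ℕ, (0 : ℝ) ≤ (((1 : ℝ) / 2) ^ q) ^ r := fun q => by positivity
  have hmeasS : ∀ q ∈ Q, ∀ i ∈ gd q, ∀ l, MeasurableSet (S q i l) := by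
    intro q hq i hi l
    obtain ⟨h1, h2, he⟩ := hS q hq i hi
    rw [he]
    exact (hSf (n - q) (Xq ξ q i) h1 h2).1 l
  set g : ℕ → ℕ → ℕ → ℝ := fun l q i => NN (n - q) (D l) (S q i l) (hq (errF r α w ξ) M q i)
    with hg
  set pq : ℕ → ℕ → ℝ := fun q _ => (((1 : ℝ) / 2) ^ q) ^ r * (((1 : ℝ) / 2) ^ (n - q)) ^ r with hpq
  have hA1 : top_A Q gd (fun _ _ => 1) ≤ N := by
    unfold top_A
    calc ∑ q ∈ Q, ((1 : ℝ) / 2) ^ q * ∑ _i ∈ gd q, (1 : ℝ) ≤ ∑ _q ∈ Q, (1 : ℝ) := by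
          refine Finset.sum_le_sum fun q _ => ?_
          rw [Finset.sum_const, nsmul_eq_mul, mul_one]
          calc ((1 : ℝ) / 2) ^ q * ((gd q).card : ℝ) ≤ ((1 : ℝ) / 2) ^ q * 2 ^ q :=
                mul_le_mul_of_nonneg_left (hgdu q) (by positivity)
            _ = 1 := by rw [← mul_pow]; norm_num
      _ = N := by simp [hQ]
  have h1 : ∀ q ∈ Q, ∀ i ∈ gd q, c₄ * pq q i ≤
      C₄ * (∑ l ∈ Finset.range (N - 1 + 1), WW θ 0 l * g l q i +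
        WW θ 0 (N - 1) * (C₀ * EE)) := by
    intro q hq i hi
    obtain ⟨h1, h2, he⟩ := hS q hq i hi
    have h3 := hSf (n - q) (Xq ξ q i) h1 h2
    rw [← he] at h3
    obtain ⟨hc, hb, heq⟩ := hEq q i
    obtain ⟨h5, -⟩ := h3.2 (N - 1) (FO.hq (errF r α w ξ) M q i) (C₀ * EE) ((((1 : ℝ) / 2) ^ q) ^ r)
      (hQb q hq).2.2 hc hb (hhalf q) heq
    have h6 : c₄ * pq q i = c₄ * (((1 : ℝ) / 2) ^ q) ^ r * (((1 : ℝ) / 2) ^ (n - q)) ^ r := by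
      rw [hpq]
      ring
    rw [h6]
    exact h5
  have h2 : ∀ l, l ≤ N - 1 → top_A Q gd (fun q i => g l q i / 2 -
      C₄ * (1 / 2) ^ (e₀ + 10 * l) * (∑ l' ∈ Finset.Icc l (N - 1), WW θ l l' * g l' q i +
        WW θ l (N - 1) * (C₀ * EE) + pq q i)) ≤
        C₆' * ((D l + (d₀ l + (e₀ + 10 * l)) + 1 : ℕ) : ℝ) * EE := by
    intro l hl
    exact hL' M hK.Mb n N N (D l) (d₀ l + (e₀ + 10 * l)) hNn (errF r α w ξ) EE hEc hEE gd
      (fun q i => S q i l)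
      (fun q i => C₄ * (1 / 2) ^ (e₀ + 10 * l) * (∑ l' ∈ Finset.Icc l (N - 1),
        WW θ l l' * g l' q i + WW θ l (N - 1) * (C₀ * EE) + pq q i))
      (fun q => Finset.filter_subset _ _)
      (fun q i hq1 hq2 hi => hmeasS q (Finset.mem_Ico.mpr ⟨hq1, hq2⟩) i hi l)
      (by
        intro q i hq1 hq2 hi f hf1 hf2 hf3 hf4 hf5
        have hq : q ∈ Q := Finset.mem_Ico.mpr ⟨hq1, hq2⟩
        obtain ⟨h1, h2, he⟩ := hS q hq i hi
        have h3 := hSf (n - q) (Xq ξ q i) h1 h2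
        rw [← he] at h3
        obtain ⟨hc, hb, heq⟩ := hEq q i
        obtain ⟨-, h6⟩ := h3.2 (N - 1) (FO.hq (errF r α w ξ) M q i) (C₀ * EE)
          ((((1 : ℝ) / 2) ^ q) ^ r) (hQb q hq).2.2 hc hb (hhalf q) heq
        exact h6 l hl f hf1 hf2 hf3 hf4 hf5)
  obtain ⟨h3, h4⟩ := top_core Q gd N hA1 g pq θ C₄ c₄ (max C₆' C₀) C₆' C₀ C₅ EE e₀ (N - 1) D d₀
    hθ0 hC4 (le_max_left _ _) hC0 (le_max_right _ _) hEE0 hDd h1 h2
  have hP0 : 0 ≤ top_A Q gd pq := by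
    unfold top_A
    refine Finset.sum_nonneg fun q _ => mul_nonneg (by positivity) ?_
    refine Finset.sum_nonneg fun i _ => ?_
    exact mul_nonneg (hhalf q) (hhalf (n - q))
  have hs0 : ∀ l, 0 ≤ top_A Q gd (g l) := by
    intro l
    unfold top_A
    refine Finset.sum_nonneg fun q hq => mul_nonneg (by positivity) ?_
    refine Finset.sum_nonneg fun i hi => ?_
    obtain ⟨hc, hb, -⟩ := hEq q i
    exact (hN (n - q) (D l) (S q i l) (FO.hq (errF r α w ξ) M q i) (C₀ * EE)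
      (hmeasS q hq i hi l) hc.measurable hb).1
  have h5 := hM'' N (N - 1) (top_A Q gd pq) EE (fun l => top_A Q gd (g l)) hEE0 hP0 hs0
    (hn₁ N hN1) h3 h4
  -- lower bound for `P`
  have hP1 : (N : ℝ) / 2 * (((1 : ℝ) / 2) ^ n) ^ r ≤ top_A Q gd pq := by
    unfold top_A
    have h6 : ∀ q ∈ Q, 1 / 2 * (((1 : ℝ) / 2) ^ n) ^ r ≤
        ((1 : ℝ) / 2) ^ q * ∑ i ∈ gd q, pq q i := by
      intro q hq
      have h7 : ∀ i ∈ gd q, pq q i = (((1 : ℝ) / 2) ^ n) ^ r := by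
        intro i _
        rw [hpq]
        simp only
        rw [← Real.mul_rpow (by positivity) (by positivity), ← pow_add]
        congr 2
        have := (hQb q hq).1
        omega
      rw [Finset.sum_congr rfl h7, Finset.sum_const, nsmul_eq_mul]
      have h8 := hgdc q hq
      have h9 : (1 : ℝ) / 2 ≤ ((1 : ℝ) / 2) ^ q * ((gd q).card : ℝ) := by
        calc (1 : ℝ) / 2 = ((1 : ℝ) / 2) ^ q * (2 ^ q / 2) := by
              rw [← mul_div_assoc, ← mul_pow]; norm_num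
          _ ≤ _ := mul_le_mul_of_nonneg_left h8 (by positivity)
      calc 1 / 2 * (((1 : ℝ) / 2) ^ n) ^ r ≤ (((1 : ℝ) / 2) ^ q * ((gd q).card : ℝ)) *
            (((1 : ℝ) / 2) ^ n) ^ r := mul_le_mul_of_nonneg_right h9 (hhalf n)
        _ = _ := by ring
    calc (N : ℝ) / 2 * (((1 : ℝ) / 2) ^ n) ^ r = ∑ _q ∈ Q, 1 / 2 * (((1 : ℝ) / 2) ^ n) ^ r := by
          rw [Finset.sum_const, nsmul_eq_mul, hQ, Nat.card_Ico, Nat.add_sub_cancel]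
          ring
      _ ≤ _ := Finset.sum_le_sum h6
  -- conclusion
  have hX : (4 * K₀) ^ (-r) * (m : ℝ) ^ (-r) ≤ (((1 : ℝ) / 2) ^ n) ^ r := by
    have h6 : (((1 : ℝ) / 2) ^ n) ^ r = ((2 : ℝ) ^ n) ^ (-r) := by
      rw [Real.rpow_neg (by positivity), ← Real.inv_rpow (by positivity), one_div, inv_pow]
    rw [h6, ← Real.mul_rpow (by positivity) (by positivity)]
    refine Real.rpow_le_rpow_of_nonpos (by positivity) ?_ (by linarith)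
    linarith
  have hlog : Real.log m ≤ n := by
    have h6 : (m : ℝ) ≤ 2 ^ n := hmK.trans hn_lo
    calc Real.log m ≤ Real.log (2 ^ n) := Real.log_le_log (by linarith) h6
      _ = n * Real.log 2 := Real.log_pow 2 n
      _ ≤ n * 1 := by
          refine mul_le_mul_of_nonneg_left ?_ (by positivity)
          have := Real.log_two_lt_d9
          linarith
      _ = n := mul_one _
  have hlog0 : 0 ≤ Real.log m := Real.log_nonneg hm1'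
  have hNn8 : (n : ℝ) ≤ 8 * N := by
    have : n ≤ 8 * N := by omega
    exact_mod_cast this
  rw [div_mul_eq_mul_div, div_le_iff₀ (by positivity)]
  have hm0 : 0 ≤ (4 * K₀) ^ (-r) * (m : ℝ) ^ (-r) := by positivity
  calc (4 * K₀) ^ (-r) * ((m : ℝ) ^ (-r) * Real.log m) =
        ((4 * K₀) ^ (-r) * (m : ℝ) ^ (-r)) * Real.log m := by ring
    _ ≤ ((4 * K₀) ^ (-r) * (m : ℝ) ^ (-r)) * (8 * N) :=
        mul_le_mul_of_nonneg_left (hlog.trans hNn8) hm0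
    _ ≤ (((1 : ℝ) / 2) ^ n) ^ r * (8 * N) := mul_le_mul_of_nonneg_right hX (by positivity)
    _ = 16 * ((N : ℝ) / 2 * (((1 : ℝ) / 2) ^ n) ^ r) := by ring
    _ ≤ 16 * (C₇ * EE) := by linarith
    _ = EE * (16 * C₇) := by ring

end

end Pool.Agent.H729R2.FO
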