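import Mathlib
import Pool.Agent.H729R2.FO.Stubs

set_option autoImplicit false

namespace Pool.Agent.H729R2.FO

open MeasureTheory Pool.Agent.H729R2.CB Pool.Agent.Helper150.Cub

open scoped Classical

section tra_abs

variable {Ω : Type*} [MeasurableSpace Ω] (μ : Measure Ω) [IsProbabilityMeasure μ]

/-- one step: replace `r` by its average over `J ∩ S` on the fine cells `J` -/
noncomputable def tra_nx (c : Ω → ℕ) (m : ℝ) (S : Set Ω) (r : Ω → ℝ) (x : Ω) : ℝ :=
  if x ∈ S ∧ m / 2 ≤ (μ ({y | c y = c x} ∩ S)).toReal then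
    (∫ y in {y | c y = c x} ∩ S, r y ∂μ) / (μ ({y | c y = c x} ∩ S)).toReal
  else r x

variable {μ}

theorem tra_integrable {r : Ω → ℝ} {R : ℝ} (hr : Measurable r) (hb : ∀ x, |r x| ≤ R) :
    Integrable r μ := by
  refine Integrable.mono' (integrable_const R) hr.aestronglyMeasurable ?_
  exact Filter.Eventually.of_forall (fun x => by simpa [Real.norm_eq_abs] using hb x)

theorem tra_meas {c : Ω → ℕ} (hc : ∀ i, MeasurableSet {x | c x = i}) : Measurable c := by
  refine measurable_to_countable' fun i => ?_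
  exact hc i

theorem tra_nx_meas {c : Ω → ℕ} (hc : ∀ i, MeasurableSet {x | c x = i}) (m : ℝ) {S : Set Ω}
    (hS : MeasurableSet S) {r : Ω → ℝ} (hr : Measurable r) : Measurable (tra_nx μ c m S r) := by
  have hc' := tra_meas hc
  have h1 : MeasurableSet {x | x ∈ S ∧ m / 2 ≤ (μ ({y | c y = c x} ∩ S)).toReal} := by
    refine hS.inter ?_
    have : {x | m / 2 ≤ (μ ({y | c y = c x} ∩ S)).toReal} =
        c ⁻¹' {i | m / 2 ≤ (μ ({y | c y = i} ∩ S)).toReal} := rfl
    show MeasurableSet {x | m / 2 ≤ (μ ({y | c y = c x} ∩ S)).toReal}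
    rw [this]
    exact hc' (MeasurableSet.of_discrete)
  have h2 : Measurable (fun x => (∫ y in {y | c y = c x} ∩ S, r y ∂μ) /
      (μ ({y | c y = c x} ∩ S)).toReal) := by
    have : (fun x => (∫ y in {y | c y = c x} ∩ S, r y ∂μ) /
      (μ ({y | c y = c x} ∩ S)).toReal) = (fun i : ℕ => (∫ y in {y | c y = i} ∩ S, r y ∂μ) /
      (μ ({y | c y = i} ∩ S)).toReal) ∘ c := rfl
    rw [this]
    exact (measurable_of_countable _).comp hc'
  exact Measurable.ite h1 h2 hr

/-- the estimate for the averages -/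
theorem tra_est {J S : Set Ω} (hJ : MeasurableSet J) (hS : MeasurableSet S) {r u : Ω → ℝ} {m B : ℝ}
    (hr : Integrable r μ) (hB : 0 ≤ B) (hm : 0 < m) (hJm : (μ J).toReal = m)
    (hf : m / 2 ≤ (μ (J ∩ S)).toReal) (heq : ∀ x, x ∉ S → r x = u x)
    (hint : ∫ x in J, r x ∂μ = ∫ x in J, u x ∂μ) (h1 : |∫ x in J, u x ∂μ| ≤ m * B)
    (h2 : ∀ x ∈ J, x ∉ S → |u x| ≤ B) :
    |(∫ y in J ∩ S, r y ∂μ) / (μ (J ∩ S)).toReal| ≤ 4 * B := by
  have h3 : ∫ y in J ∩ S, r y ∂μ = ∫ y in J, r y ∂μ - ∫ y in J \ S, r y ∂μ := by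
    have := integral_inter_add_sdiff (μ := μ) (s := J) hS hr.integrableOn
    linarith
  have h4 : |∫ y in J \ S, r y ∂μ| ≤ B * m := by
    have := norm_setIntegral_le_of_norm_le_const (μ := μ) (s := J \ S) (f := r) (C := B)
      (measure_lt_top μ _) (fun x hx => by
        rw [heq x hx.2, Real.norm_eq_abs]; exact h2 x hx.1 hx.2)
    rw [Real.norm_eq_abs] at this
    refine this.trans ?_
    refine mul_le_mul_of_nonneg_left ?_ hB
    rw [← hJm]
    exact ENNReal.toReal_mono (measure_ne_top μ _) (measure_mono Set.sdiff_subset)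
  have h5 : |∫ y in J ∩ S, r y ∂μ| ≤ 2 * (m * B) := by
    rw [h3, hint]
    have := abs_sub (∫ x in J, u x ∂μ) (∫ y in J \ S, r y ∂μ)
    linarith
  have h6 : 0 < (μ (J ∩ S)).toReal := by linarith
  rw [abs_div, abs_of_pos h6, div_le_iff₀ h6]
  nlinarith

/-- the step does not change the integrals over the cells -/
theorem tra_step_int {c : Ω → ℕ} (hc : ∀ i, MeasurableSet {x | c x = i}) {m : ℝ} (hm : 0 < m) {S : Set Ω}
    (hS : MeasurableSet S) {r : Ω → ℝ} (hr : Integrable r μ) (hr' : Integrable (tra_nx μ c m S r) μ)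
    (i : ℕ) :
    ∫ x in {x | c x = i}, tra_nx μ c m S r x ∂μ = ∫ x in {x | c x = i}, r x ∂μ := by
  by_cases hf : m / 2 ≤ (μ ({y | c y = i} ∩ S)).toReal
  · rw [← integral_inter_add_sdiff hS hr'.integrableOn, ← integral_inter_add_sdiff hS hr.integrableOn]
    have h6 : 0 < (μ ({y | c y = i} ∩ S)).toReal := by linarith
    congr 1
    · have : ∫ x in {x | c x = i} ∩ S, tra_nx μ c m S r x ∂μ =
          ∫ x in {x | c x = i} ∩ S, (∫ y in {y | c y = i} ∩ S, r y ∂μ) /
            (μ ({y | c y = i} ∩ S)).toReal ∂μ := by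
        refine setIntegral_congr_fun ((hc i).inter hS) fun x hx => ?_
        have hx1 : c x = i := hx.1
        simp only [tra_nx, hx1, hx.2, true_and, hf, if_true]
      rw [this, setIntegral_const, smul_eq_mul, Measure.real]
      field_simp
    · refine setIntegral_congr_fun ((hc i).diff hS) fun x hx => ?_
      simp only [tra_nx, hx.2, false_and, if_false]
  · refine setIntegral_congr_fun (hc i) fun x hx => ?_
    have hx1 : c x = i := hx
    simp only [tra_nx, hx1, hf, and_false, if_false]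

/-- integrals over coarser cells -/
theorem tra_coarse {c c' : Ω → ℕ} (hc : ∀ i, MeasurableSet {x | c x = i}) {N : ℕ} (hN : ∀ x, c x < N)
    {φ : ℕ → ℕ} (hφ : ∀ x, c' x = φ (c x)) {f : Ω → ℝ} (hf : Integrable f μ) (i' : ℕ) :
    ∫ x in {x | c' x = i'}, f x ∂μ =
      ∑ i ∈ (Finset.range N).filter (fun i => φ i = i'), ∫ x in {x | c x = i}, f x ∂μ := by
  rw [← integral_biUnion_finset _ (fun i _ => hc i) ?_ (fun i _ => hf.integrableOn)]
  · congr 1
    congr 1
    ext x
    simp only [Set.mem_ofPred_eq, Finset.mem_filter, Finset.mem_range, Set.mem_iUnion, exists_prop]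
    constructor
    · intro h
      exact ⟨c x, ⟨hN x, by rw [← hφ]; exact h⟩, rfl⟩
    · rintro ⟨i, ⟨_, h1⟩, h2⟩
      rw [hφ, h2]; exact h1
  · intro i _ j _ hij
    refine Set.disjoint_left.2 fun x hx hx' => hij ?_
    have h1 : c x = i := hx
    have h2 : c x = j := hx'
    omega

/-- the invariant -/
structure TraInv (μ : Measure Ω) (c : ℕ → Ω → ℕ) (S : ℕ → Set Ω) (A : ℕ → ℝ) (u : Ω → ℝ) (l : ℕ)
    (r : Ω → ℝ) : Prop where
  meas : Measurable r
  bd : ∀ x, |r x| ≤ 4 * A l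
  eq : ∀ l', l ≤ l' + 1 → ∀ x, x ∉ S l' → r x = u x
  loc : ∀ l', l ≤ l' + 1 → ∀ i B, 0 ≤ B → (∀ x, c l' x = i → |u x| ≤ B) → ∀ x, c l' x = i → |r x| ≤ 4 * B
  int : ∀ l', l ≤ l' + 1 → ∀ i, ∫ x in {x | c l' x = i}, r x ∂μ = ∫ x in {x | c l' x = i}, u x ∂μ

theorem tra_step {c : ℕ → Ω → ℕ} {N : ℕ → ℕ} {m : ℕ → ℝ} {S : ℕ → Set Ω} {A : ℕ → ℝ} {u : Ω → ℝ} {l : ℕ}
    {r : Ω → ℝ} (hc : ∀ l i, MeasurableSet {x | c l x = i}) (hN : ∀ l x, c l x < N l)
    (hcm : ∀ l i, i < N l → (μ {x | c l x = i}).toReal = m l) (hm : ∀ l, 0 < m l)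
    (nest : ∀ l l', l ≤ l' → ∃ φ : ℕ → ℕ, ∀ x, c l' x = φ (c l x)) (hSm : Monotone S)
    (hS : ∀ l, MeasurableSet (S l)) (hA : ∀ l, 0 ≤ A l)
    (h1 : ∀ x, x ∉ S l → |u x| ≤ A (l + 1))
    (h2 : ∀ i, i < N l → (m l / 2 ≤ (μ ({x | c l x = i} ∩ S l)).toReal ∨ ∀ x, c l x = i → |u x| ≤ A (l + 1)))
    (h3 : ∀ i, i < N l → |∫ x in {x | c l x = i}, u x ∂μ| ≤ m l * A (l + 1))
    (hr : TraInv μ c S A u l r) : TraInv μ c S A u (l + 1) (tra_nx μ (c l) (m l) (S l) r) := by
  have hri : Integrable r μ := tra_integrable hr.meas hr.bd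
  have hmeas : Measurable (tra_nx μ (c l) (m l) (S l) r) := tra_nx_meas (hc l) _ (hS l) hr.meas
  have hbd : ∀ x, |tra_nx μ (c l) (m l) (S l) r x| ≤ 4 * A (l + 1) := by
    intro x
    unfold tra_nx
    split_ifs with hx
    · refine tra_est (hc l _) (hS l) (u := u) hri (hA _) (hm l) (hcm l _ (hN l x)) hx.2
        (hr.eq l (by omega)) (hr.int l (by omega) _) (h3 _ (hN l x)) (fun y _ hy => h1 y hy)
    · by_cases hxS : x ∈ S l
      · have hnf : ¬ m l / 2 ≤ (μ ({y | c l y = c l x} ∩ S l)).toReal := fun h => hx ⟨hxS, h⟩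
        rcases h2 _ (hN l x) with h | h
        · exact absurd h hnf
        · exact hr.loc l (by omega) _ _ (hA _) h x rfl
      · rw [hr.eq l (by omega) x hxS]
        have := h1 x hxS
        have := hA (l + 1)
        linarith
  have hri' : Integrable (tra_nx μ (c l) (m l) (S l) r) μ := tra_integrable hmeas hbd
  refine ⟨hmeas, hbd, ?_, ?_, ?_⟩
  · intro l' hl' x hx
    have hxl : x ∉ S l := fun h => hx (hSm (by omega) h)
    simp only [tra_nx, hxl, false_and, if_false]
    exact hr.eq l' (by omega) x hx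
  · intro l' hl' i B hB hu x hx
    obtain ⟨φ, hφ⟩ := nest l l' (by omega)
    have hsub : ∀ y, c l y = c l x → c l' y = i := by
      intro y hy
      rw [hφ, hy, ← hφ, hx]
    unfold tra_nx
    split_ifs with hxS
    · refine tra_est (hc l _) (hS l) (u := u) hri hB (hm l) (hcm l _ (hN l x)) hxS.2
        (hr.eq l (by omega)) (hr.int l (by omega) _) ?_ (fun y hy _ => hu y (hsub y hy))
      have := norm_setIntegral_le_of_norm_le_const (μ := μ) (s := {y | c l y = c l x}) (f := u) (C := B)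
        (measure_lt_top μ _) (fun y hy => by
          rw [Real.norm_eq_abs]; exact hu y (hsub y hy))
      rw [Real.norm_eq_abs, Measure.real, hcm l _ (hN l x)] at this
      linarith
    · exact hr.loc l' (by omega) i B hB hu x hx
  · intro l' hl' i
    obtain ⟨φ, hφ⟩ := nest l l' (by omega)
    rw [← hr.int l' (by omega) i, tra_coarse (hc l) (hN l) hφ hri' i, tra_coarse (hc l) (hN l) hφ hri i]
    exact Finset.sum_congr rfl fun j _ => tra_step_int (hc l) (hm l) (hS l) hri hri' j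

/-- the sequence -/
noncomputable def tra_seq (μ : Measure Ω) (c : ℕ → Ω → ℕ) (m : ℕ → ℝ) (S : ℕ → Set Ω) (u : Ω → ℝ)
    (l₀ : ℕ) : ℕ → Ω → ℝ
  | 0 => u
  | k + 1 => tra_nx μ (c (l₀ + k)) (m (l₀ + k)) (S (l₀ + k)) (tra_seq μ c m S u l₀ k)

end tra_abs

theorem t_TRA (hC : S_CEL) (hI : S_CIN) (hN : S_NNF) : S_TRA := by
  obtain ⟨cMeas, cLt, cMu, cNest, -, -, -, -⟩ := hC
  intro b l₀ L Dq S A u h H hL hD hSm hS hA hu hh hH hul hout hfin hint
  have hmon : ∀ l l', l ≤ l' → b - Dq l' ≤ b - Dq l := fun l l' hl => Nat.sub_le_sub_left (hD hl) b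
  set c : ℕ → G → ℕ := fun l x => cidx (b - Dq l) x with hcdef
  set m : ℕ → ℝ := fun l => (1 / 2) ^ (b - Dq l) with hmdef
  have hc : ∀ l i, MeasurableSet {x | c l x = i} := fun l i => cMeas (b - Dq l) i
  have hcN : ∀ l x, c l x < 2 ^ (b - Dq l) := fun l x => cLt _ x
  have hcm : ∀ l i, i < 2 ^ (b - Dq l) → (hm {x | c l x = i}).toReal = m l :=
    fun l i hi => cMu (b - Dq l) i hi
  have hm0 : ∀ l, 0 < m l := fun l => by positivity
  have nest : ∀ l l', l ≤ l' → ∃ φ : ℕ → ℕ, ∀ x, c l' x = φ (c l x) := by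
    intro l l' hl
    obtain ⟨k, hk⟩ := Nat.exists_eq_add_of_le (hmon l l' hl)
    refine ⟨fun i => i / 2 ^ k, fun x => ?_⟩
    show cidx (b - Dq l') x = cidx (b - Dq l) x / 2 ^ k
    rw [hk]
    exact cNest _ _ _
  set r : ℕ → G → ℝ := tra_seq hm c m S u l₀ with hrdef
  have hinv : ∀ k, l₀ + k ≤ L + 1 → TraInv hm c S A u (l₀ + k) (r k) := by
    intro k
    induction k with
    | zero =>
      intro _
      refine ⟨hu, fun x => ?_, fun _ _ _ _ => rfl, fun l' _ i B hB hB' x hx => ?_, fun _ _ _ => rfl⟩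
      · have := hul x
        have := hA l₀
        show |u x| ≤ 4 * A l₀
        linarith
      · have := hB' x hx
        show |u x| ≤ 4 * B
        linarith
    | succ k ih =>
      intro hk
      have h1 := ih (by omega)
      have h2 := tra_step (N := fun l => 2 ^ (b - Dq l)) hc hcN hcm hm0 nest hSm hS hA
        (hout (l₀ + k) (by omega) (by omega)) (fun i hi => ?_)
        (fun i hi => ?_) h1
      · exact h2
      · rcases hfin (l₀ + k) (by omega) (by omega) i hi with h3 | h3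
        · left
          have : m (l₀ + k) / 2 = (1 / 2) * (1 / 2) ^ (b - Dq (l₀ + k)) := by rw [hmdef]; ring
          rw [this]
          exact h3
        · right
          exact fun x hx => h3 x hx
      · exact hint (l₀ + k) (by omega) (by omega) i hi
  have hHn : 0 ≤ H := (abs_nonneg _).trans (hH 0)
  have hri : ∀ k, l₀ + k ≤ L + 1 → Integrable (r k) hm := fun k hk =>
    tra_integrable (hinv k hk).meas (hinv k hk).bd
  have hhr : ∀ k, l₀ + k ≤ L + 1 → Integrable (fun x => h x * r k x) hm := by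
    intro k hk
    refine tra_integrable (R := H * (4 * A (l₀ + k))) (hh.mul (hinv k hk).meas) fun x => ?_
    rw [abs_mul]
    exact mul_le_mul (hH x) ((hinv k hk).bd x) (abs_nonneg _) hHn
  -- one step
  have hstep : ∀ k, l₀ + k ≤ L → |∫ x, h x * r k x ∂hm - ∫ x, h x * r (k + 1) x ∂hm| ≤
      4 * ((A (l₀ + k) + A (l₀ + k + 1)) * NN b (Dq (l₀ + k)) (S (l₀ + k)) h) := by
    intro k hk
    have i1 := hinv k (by omega)
    have i2 := hinv (k + 1) (by omega)
    have hv : ∫ x, h x * r k x ∂hm - ∫ x, h x * r (k + 1) x ∂hm =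
        ∫ x, h x * (r k x - r (k + 1) x) ∂hm := by
      rw [← integral_sub (hhr k (by omega)) (hhr (k + 1) (by omega))]
      refine integral_congr_ae (Filter.Eventually.of_forall fun x => ?_)
      simp only
      ring
    rw [hv]
    have h4 := (hN b (Dq (l₀ + k)) (S (l₀ + k)) h H (hS _) hh hH).2.2.1
      (fun x => r k x - r (k + 1) x) (4 * (A (l₀ + k) + A (l₀ + k + 1)))
      (by have := hA (l₀ + k); have := hA (l₀ + k + 1); positivity) (i1.meas.sub i2.meas) ?_ ?_ ?_
    · linarith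
    · intro x
      have h8 := i1.bd x
      have h9 : |r (k + 1) x| ≤ 4 * A (l₀ + k + 1) := i2.bd x
      have h5 := abs_sub (r k x) (r (k + 1) x)
      linarith
    · intro x hx
      have : r (k + 1) x = r k x := by
        show tra_nx hm (c (l₀ + k)) (m (l₀ + k)) (S (l₀ + k)) (r k) x = r k x
        simp only [tra_nx, hx, false_and, if_false]
      rw [this, sub_self]
    · intro i hi
      rw [integral_sub (hri k (by omega)).integrableOn (hri (k + 1) (by omega)).integrableOn]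
      have h6 := tra_step_int (μ := hm) (hc (l₀ + k)) (hm0 (l₀ + k)) (hS (l₀ + k)) (hri k (by omega))
        (hri (k + 1) (by omega)) i
      have h7 : ∫ x in Cell (b - Dq (l₀ + k)) i, r (k + 1) x ∂hm =
        ∫ x in Cell (b - Dq (l₀ + k)) i, r k x ∂hm := h6
      rw [h7, sub_self]
  -- the sum
  have hsum : ∀ K, l₀ + K ≤ L + 1 → |∫ x, h x * u x ∂hm - ∫ x, h x * r K x ∂hm| ≤
      4 * ∑ l ∈ Finset.Ico l₀ (l₀ + K), (A l + A (l + 1)) * NN b (Dq l) (S l) h := by
    intro K
    induction K with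
    | zero =>
      intro _
      have : r 0 = u := rfl
      rw [this]
      simp
    | succ K ih =>
      intro hK
      have h1 := ih (by omega)
      have h2 := hstep K (by omega)
      have h3 : Finset.Ico l₀ (l₀ + (K + 1)) = insert (l₀ + K) (Finset.Ico l₀ (l₀ + K)) := by
        ext z; simp only [Finset.mem_Ico, Finset.mem_insert]; omega
      rw [h3, Finset.sum_insert (by simp)]
      have h4 := abs_sub_le (∫ x, h x * u x ∂hm) (∫ x, h x * r K x ∂hm) (∫ x, h x * r (K + 1) x ∂hm)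
      linarith
  obtain ⟨K, hK⟩ : ∃ K, l₀ + K = L + 1 := ⟨L + 1 - l₀, by omega⟩
  have h1 := hsum K (by omega)
  have h2 : Finset.Ico l₀ (l₀ + K) = Finset.Icc l₀ L := by
    ext z; simp only [Finset.mem_Ico, Finset.mem_Icc]; omega
  rw [h2] at h1
  have h3 : |∫ x, h x * r K x ∂hm| ≤ 4 * A (L + 1) * H := by
    have := norm_integral_le_of_norm_le_const (μ := hm) (f := fun x => h x * r K x)
      (C := 4 * A (L + 1) * H) (Filter.Eventually.of_forall fun x => by
        rw [Real.norm_eq_abs, abs_mul]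
        have h5 := (hinv K (by omega)).bd x
        rw [hK] at h5
        have h6 := mul_le_mul (hH x) h5 (abs_nonneg _) hHn
        linarith)
    rw [Real.norm_eq_abs] at this
    simpa using this
  have h4 := abs_sub_abs_le_abs_sub (∫ x, h x * u x ∂hm) (∫ x, h x * r K x ∂hm)
  linarith

end Pool.Agent.H729R2.FO
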