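import Mathlib
import Pool.Agent.H729R2.FO.Stubs3
import Pool.Agent.H729R2.CB.T_SUP
import Pool.Agent.H729R2.CB.T_FCF

/-!
# UPA: the error of the formula on the class is bounded by the sup norm of `errF` (helper497)
-/

set_option autoImplicit false

namespace Pool.Agent.H729R2.FO

open MeasureTheory Pool.Agent.H729R2.CB Pool.Agent.Helper150.Cub

open scoped Classical

noncomputable section

/-- the section of the quotient map of the plane -/
def upa_s (z : G × G) : ℝ × ℝ :=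
  ((AddCircle.equivIco (2 * Real.pi) 0 z.1 : ℝ), (AddCircle.equivIco (2 * Real.pi) 0 z.2 : ℝ))

lemma upa_s_meas : Measurable upa_s := by
  have h : Measurable (fun z : G => (AddCircle.equivIco (2 * Real.pi) 0 z : ℝ)) :=
    measurable_subtype_coe.comp (AddCircle.measurableEquivIco (T := 2 * Real.pi) 0).measurable
  exact (h.comp measurable_fst).prodMk (h.comp measurable_snd)

lemma upa_q_s (z : G × G) : sup_q (upa_s z) = z := by
  unfold sup_q upa_s
  rw [AddCircle.coe_equivIco, AddCircle.coe_equivIco]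

lemma upa_s_q (x : ℝ × ℝ) (hx : x ∈ sq) : upa_s (sup_q x) = x := by
  obtain ⟨h1, h2⟩ := hx
  have e : (0 : ℝ) + 2 * Real.pi = 2 * Real.pi := zero_add _
  unfold sup_q upa_s
  have a1 := AddCircle.equivIco_coe_eq (p := 2 * Real.pi) (a := 0) (x := x.1) (by rw [e]; exact h1)
  have a2 := AddCircle.equivIco_coe_eq (p := 2 * Real.pi) (a := 0) (x := x.2) (by rw [e]; exact h2)
  rw [a1, a2]

lemma upa_sq_meas : MeasurableSet Pool.Agent.Helper150.Cub.sq := by
  unfold Pool.Agent.Helper150.Cub.sq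
  exact measurableSet_Ico.prod measurableSet_Ico

/-- the constant -/
def upa_c : ENNReal := ENNReal.ofReal (2 * Real.pi) * ENNReal.ofReal (2 * Real.pi)

lemma upa_c0 : upa_c ≠ 0 := by
  unfold upa_c
  have h : ENNReal.ofReal (2 * Real.pi) ≠ 0 := by
    rw [Ne, ENNReal.ofReal_eq_zero, not_le]
    positivity
  exact mul_ne_zero h h

lemma upa_ct : upa_c ≠ ⊤ := ENNReal.mul_ne_top ENNReal.ofReal_ne_top ENNReal.ofReal_ne_top

lemma upa_mps : MeasurePreserving upa_s (upa_c • hm2)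
    ((volume : Measure (ℝ × ℝ)).restrict Pool.Agent.Helper150.Cub.sq) := by
  refine ⟨upa_s_meas, ?_⟩
  have h := sup_mp2
  have e : upa_c • hm2 = ((volume : Measure (ℝ × ℝ)).restrict Pool.Agent.Helper150.Cub.sq).map sup_q :=
    h.map_eq.symm
  rw [e, Measure.map_map upa_s_meas h.measurable]
  have h2 : (upa_s ∘ sup_q) =ᵐ[(volume : Measure (ℝ × ℝ)).restrict Pool.Agent.Helper150.Cub.sq] id := by
    rw [Filter.EventuallyEq, ae_restrict_iff' upa_sq_meas]
    exact Filter.Eventually.of_forall fun x hx => upa_s_q x hx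
  rw [Measure.map_congr h2, Measure.map_id]

/-- transfer of averages -/
lemma upa_avg {E : Type*} [NormedAddCommGroup E] [NormedSpace ℝ E] (H : G × G → E)
    (hH : AEStronglyMeasurable H hm2) : avg (fun x => H (sup_q x)) = ∫ z, H z ∂hm2 := by
  unfold avg
  have hpi : 0 < 2 * Real.pi := by positivity
  have h := sup_mp2
  have e : ∫ x in Pool.Agent.Helper150.Cub.sq, H (sup_q x) = ∫ z, H z ∂(upa_c • hm2) := by
    have hH' : AEStronglyMeasurable H (((volume : Measure (ℝ × ℝ)).restrict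
        Pool.Agent.Helper150.Cub.sq).map sup_q) := by
      rw [h.map_eq]
      exact hH.smul_measure _
    have e2 : upa_c • hm2 = ((volume : Measure (ℝ × ℝ)).restrict
        Pool.Agent.Helper150.Cub.sq).map sup_q := h.map_eq.symm
    rw [e2]
    exact (integral_map h.measurable.aemeasurable hH').symm
  rw [e, integral_smul_measure, smul_smul]
  unfold upa_c
  rw [ENNReal.toReal_mul, ENNReal.toReal_ofReal hpi.le]
  have : ((2 * Real.pi) ^ 2)⁻¹ * (2 * Real.pi * (2 * Real.pi)) = 1 := by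
    field_simp
  rw [this, one_smul]

/-- a periodic function factors -/
lemma upa_per {E : Type*} (φ : ℝ × ℝ → E) (hφ : Periodic2 φ) (x : ℝ × ℝ) :
    φ x = φ (upa_s (sup_q x)) := by
  obtain ⟨a, b⟩ := x
  have h1 : ∀ y : ℝ, Function.Periodic (fun t => φ (t, y)) (2 * Real.pi) := fun y t => (hφ t y).1
  have h2 : ∀ t : ℝ, Function.Periodic (fun y => φ (t, y)) (2 * Real.pi) := fun t y => (hφ t y).2
  have k1 : ∀ (t t' y : ℝ), (t : G) = (t' : G) → φ (t, y) = φ (t', y) := by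
    intro t t' y h
    have e1 : (h1 y).lift (t : G) = φ (t, y) := Function.Periodic.lift_coe _ _
    have e2 : (h1 y).lift (t' : G) = φ (t', y) := Function.Periodic.lift_coe _ _
    rw [← e1, ← e2, h]
  have k2 : ∀ (t y y' : ℝ), (y : G) = (y' : G) → φ (t, y) = φ (t, y') := by
    intro t y y' h
    have e1 : (h2 t).lift (y : G) = φ (t, y) := Function.Periodic.lift_coe _ _
    have e2 : (h2 t).lift (y' : G) = φ (t, y') := Function.Periodic.lift_coe _ _
    rw [← e1, ← e2, h]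
  have h3 := upa_q_s (sup_q (a, b))
  have h4 : ((upa_s (sup_q (a, b))).1 : G) = (a : G) := congrArg Prod.fst h3
  have h5 : ((upa_s (sup_q (a, b))).2 : G) = (b : G) := congrArg Prod.snd h3
  rw [k1 a (upa_s (sup_q (a, b))).1 b h4.symm, k2 _ b (upa_s (sup_q (a, b))).2 h5.symm]

/-- the convolution on the group -/
def upa_g (𝕜 : Type) [RCLike 𝕜] (r α : ℝ) (Φ : G × G → 𝕜) (u : G × G) : 𝕜 :=
  ∫ z, Φ z * ((sup_K r α u z : ℝ) : 𝕜) ∂hm2

lemma upa_int2 (𝕜 : Type) [RCLike 𝕜] {r α : ℝ} (hF : Continuous (FG r α)) (Φ : G × G → 𝕜)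
    (hΦ : Integrable Φ hm2) :
    Integrable (Function.uncurry fun (u z : G × G) => Φ z * ((sup_K r α u z : ℝ) : 𝕜)) (hm2.prod hm2) := by
  have hK : Continuous (fun p : (G × G) × (G × G) => ((sup_K r α p.1 p.2 : ℝ) : 𝕜)) :=
    RCLike.continuous_ofReal.comp (sup_K_cont hF)
  obtain ⟨C, hC⟩ := isCompact_univ.exists_bound_of_continuousOn (hK.continuousOn (s := Set.univ))
  have h1 : Integrable (fun p : (G × G) × (G × G) => Φ p.2) (hm2.prod hm2) := hΦ.comp_snd hm2
  have h2 := h1.mul_bdd (c := C) hK.aestronglyMeasurable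
    (Filter.Eventually.of_forall fun p => hC p (Set.mem_univ _))
  exact h2

lemma upa_conv (𝕜 : Type) [RCLike 𝕜] {r α : ℝ} (hF : Continuous (FG r α)) (Φ : G × G → 𝕜)
    (hΦ : Integrable Φ hm2) (x : ℝ × ℝ) :
    conv (fun y : ℝ × ℝ => Φ (sup_q y)) (fun y => ((F2 r α y : ℝ) : 𝕜)) x =
      upa_g 𝕜 r α Φ (sup_q x) := by
  unfold conv
  have e1 : (fun y : ℝ × ℝ => Φ (sup_q (x - y)) * ((F2 r α y : ℝ) : 𝕜)) =
      fun y => (fun z : G × G => Φ (sup_q x - z) * ((FG r α z.1 * FG r α z.2 : ℝ) : 𝕜)) (sup_q y) := by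
    funext y
    have e2 : sup_q (x - y) = sup_q x - sup_q y := by
      unfold sup_q
      rfl
    have e3 : F2 r α y = FG r α (sup_q y).1 * FG r α (sup_q y).2 := by
      unfold F2 sup_q
      have a1 : FG r α ((y.1 : ℝ) : G) = F1 r α y.1 := Function.Periodic.lift_coe _ _
      have a2 : FG r α ((y.2 : ℝ) : G) = F1 r α y.2 := Function.Periodic.lift_coe _ _
      rw [a1, a2]
    rw [e2, e3]
  rw [e1, upa_avg (fun z : G × G => Φ (sup_q x - z) * ((FG r α z.1 * FG r α z.2 : ℝ) : 𝕜))]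
  · unfold upa_g sup_K
    rw [← integral_sub_left_eq_self _ hm2 (sup_q x)]
    refine integral_congr_ae (Filter.Eventually.of_forall fun z => ?_)
    simp only [sub_sub_cancel, Prod.fst_sub, Prod.snd_sub]
  · refine AEStronglyMeasurable.mul ?_ ?_
    · exact (hΦ.comp_sub_left (sup_q x)).aestronglyMeasurable
    · refine Continuous.aestronglyMeasurable ?_
      exact RCLike.continuous_ofReal.comp ((hF.comp continuous_fst).mul (hF.comp continuous_snd))

lemma upa_K_int (𝕜 : Type) [RCLike 𝕜] {r : ℝ} (hr : 1 < r) {α : ℝ} (z : G × G) :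
    ∫ u, ((sup_K r α u z : ℝ) : 𝕜) ∂hm2 = 1 := by
  rw [integral_ofReal, sup_K_int hr]
  simp

lemma upa_g_int (𝕜 : Type) [RCLike 𝕜] {r α : ℝ} (hr : 1 < r) (hF : Continuous (FG r α))
    (Φ : G × G → 𝕜) (hΦ : Integrable Φ hm2) :
    ∫ u, upa_g 𝕜 r α Φ u ∂hm2 = ∫ z, Φ z ∂hm2 := by
  unfold upa_g
  rw [integral_integral_swap (upa_int2 𝕜 hF Φ hΦ)]
  refine integral_congr_ae (Filter.Eventually.of_forall fun z => ?_)
  simp only
  rw [integral_const_mul, upa_K_int 𝕜 hr, mul_one]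

theorem t_UPA : S_UPA := by
  intro 𝕜 _ r α hr m w ξ B hB he
  obtain ⟨hc, -, -⟩ := t_FCF r α hr
  unfold kappa
  refine (iInf₂_le (fun μ => ((w μ : ℝ) : 𝕜)) ξ).trans ?_
  unfold cubErr
  refine iSup₂_le fun f hf => ENNReal.ofReal_le_ofReal ?_
  obtain ⟨φ, hper, hint, hav, rfl⟩ := hf
  obtain ⟨Φ, hΦ⟩ : ∃ Φ : G × G → 𝕜, Φ = fun z => φ (upa_s z) := ⟨_, rfl⟩
  have hφ : φ = fun x => Φ (sup_q x) := by
    funext x
    rw [hΦ]
    exact upa_per φ hper x
  have hI : Integrable Φ hm2 := by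
    have h1 : Integrable Φ (upa_c • hm2) := by
      rw [hΦ]
      exact (upa_mps.integrable_comp hint.aestronglyMeasurable).mpr hint
    exact (integrable_smul_measure upa_c0 upa_ct).mp h1
  have ef : conv φ (fun x => ((F2 r α x : ℝ) : 𝕜)) = fun x => upa_g 𝕜 r α Φ (sup_q x) := by
    funext x
    rw [hφ]
    exact upa_conv 𝕜 hc Φ hI x
  have hgm : AEStronglyMeasurable (upa_g 𝕜 r α Φ) hm2 :=
    (upa_int2 𝕜 hc Φ hI).integral_prod_left.aestronglyMeasurable
  rw [ef, upa_avg _ hgm, upa_g_int 𝕜 hr hc Φ hI]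
  have hav2 : ∫ z, ‖Φ z‖ ∂hm2 ≤ 1 := by
    rw [← upa_avg (fun z => ‖Φ z‖) hI.norm.aestronglyMeasurable]
    rw [hφ] at hav
    exact hav
  have hec : Continuous (errF r α w (fun μ => sup_q (ξ μ))) := sup_errF_cont hc w _
  have he' : ∀ y, |errF r α w (fun μ => sup_q (ξ μ)) y| ≤ B := he
  have hint2 : ∀ μ, Integrable (fun z => ((w μ : ℝ) : 𝕜) * (Φ z * ((sup_K r α (sup_q (ξ μ)) z : ℝ) : 𝕜))) hm2 := by
    intro μ
    refine Integrable.const_mul ?_ _
    have hK : Continuous (fun z : G × G => ((sup_K r α (sup_q (ξ μ)) z : ℝ) : 𝕜)) :=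
      RCLike.continuous_ofReal.comp ((sup_K_cont hc).comp (continuous_const.prodMk continuous_id))
    obtain ⟨C, hC⟩ := isCompact_univ.exists_bound_of_continuousOn (hK.continuousOn (s := Set.univ))
    exact hI.mul_bdd (c := C) hK.aestronglyMeasurable
      (Filter.Eventually.of_forall fun p => hC p (Set.mem_univ _))
  have e4 : ∑ μ, ((w μ : ℝ) : 𝕜) * upa_g 𝕜 r α Φ (sup_q (ξ μ)) - ∫ z, Φ z ∂hm2 =
      ∫ z, Φ z * ((errF r α w (fun μ => sup_q (ξ μ)) z : ℝ) : 𝕜) ∂hm2 := by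
    have e5 : (fun z => Φ z * ((errF r α w (fun μ => sup_q (ξ μ)) z : ℝ) : 𝕜)) =
        fun z => (∑ μ, ((w μ : ℝ) : 𝕜) * (Φ z * ((sup_K r α (sup_q (ξ μ)) z : ℝ) : 𝕜))) - Φ z := by
      funext z
      unfold errF sup_K
      push_cast
      rw [mul_sub, Finset.mul_sum, mul_one]
      congr 1
      refine Finset.sum_congr rfl fun μ _ => ?_
      ring
    rw [e5, integral_sub (integrable_finsetSum _ fun μ _ => hint2 μ) hI,
      integral_finsetSum _ fun μ _ => hint2 μ]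
    congr 1
    refine Finset.sum_congr rfl fun μ _ => ?_
    rw [integral_const_mul]
    rfl
  rw [e4]
  calc ‖∫ z, Φ z * ((errF r α w (fun μ => sup_q (ξ μ)) z : ℝ) : 𝕜) ∂hm2‖
      ≤ ∫ z, ‖Φ z‖ * B ∂hm2 := by
        refine norm_integral_le_of_norm_le (hI.norm.mul_const B) (Filter.Eventually.of_forall fun z => ?_)
        rw [norm_mul, RCLike.norm_ofReal]
        exact mul_le_mul_of_nonneg_left (he' z) (norm_nonneg _)
    _ = (∫ z, ‖Φ z‖ ∂hm2) * B := integral_mul_const _ _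
    _ ≤ 1 * B := mul_le_mul_of_nonneg_right hav2 hB
    _ = B := one_mul B

end

end Pool.Agent.H729R2.FO
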