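import Mathlib
import Pool.Agent.H729R2.FO.Stubs3
import Pool.Agent.H729R2.CB.T_FCF

/-!
The error function of a lattice rule.
-/

set_option autoImplicit false

namespace Pool.Agent.H729R2.FO

open MeasureTheory Pool.Agent.H729R2.CB Pool.Agent.Helper150.Cub

open scoped Classical

theorem upb_fc_zero (r α : ℝ) : fc r α 0 = 1 := by simp [fc]

theorem upb_norm (r α : ℝ) (k : ℤ) : ‖fc r α k‖ = kb k ^ (-r) := by
  rcases lt_trichotomy k 0 with h | h | h
  · obtain ⟨n, rfl⟩ : ∃ n : ℕ, k = -((n : ℤ) + 1) := ⟨(-k - 1).toNat, by omega⟩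
    rw [(fcf_norm r α n).2]
    congr 1
    unfold kb
    have hn : (0 : ℝ) ≤ n := n.cast_nonneg
    push_cast
    rw [abs_neg, abs_of_nonneg (by positivity), max_eq_right (by linarith)]
  · subst h
    rw [upb_fc_zero]
    unfold kb
    simp
  · obtain ⟨n, rfl⟩ : ∃ n : ℕ, k = (n : ℤ) + 1 := ⟨(k - 1).toNat, by omega⟩
    rw [(fcf_norm r α n).1]
    congr 1
    unfold kb
    have hn : (0 : ℝ) ≤ n := n.cast_nonneg
    push_cast
    rw [abs_of_nonneg (by positivity), max_eq_right (by linarith)]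

theorem upb_four_sub (k : ℤ) (x y : G) :
    (fourier k (x - y) : ℂ) = fourier k x * fourier k (-y) := by
  rw [fourier_apply, fourier_apply, fourier_apply, sub_eq_add_neg, smul_add,
    AddCircle.toCircle_add, Circle.coe_mul]

theorem upb_four_norm (k : ℤ) (x : G) : ‖(fourier k x : ℂ)‖ = 1 := by
  rw [fourier_apply]
  exact Circle.norm_coe _

theorem upb_avg (N g : ℕ) (hN : 1 ≤ N) (p : ℤ × ℤ) :
    ∑ μ : Fin N, (((1 : ℝ) / N : ℝ) : ℂ) * ((fourier p.1 (((ln N g μ).1 : ℝ) : G) : ℂ) *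
      fourier p.2 (((ln N g μ).2 : ℝ) : G)) = if (N : ℤ) ∣ p.1 + g * p.2 then 1 else 0 := by
  have hN0 : (N : ℂ) ≠ 0 := by exact_mod_cast (by omega : N ≠ 0)
  have hpi : (Real.pi : ℂ) ≠ 0 := by exact_mod_cast Real.pi_ne_zero
  set ζ : ℂ := Complex.exp (((p.1 + g * p.2 : ℤ) : ℂ) / N * (2 * Real.pi * Complex.I)) with hζ
  have e : ∀ μ : Fin N, (fourier p.1 (((ln N g μ).1 : ℝ) : G) : ℂ) *
      fourier p.2 (((ln N g μ).2 : ℝ) : G) = ζ ^ (μ : ℕ) := by
    intro μ
    rw [fcf_four, fcf_four, ← Complex.exp_add, hζ, ← Complex.exp_nat_mul]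
    congr 1
    unfold ln
    push_cast
    field_simp
  rw [← Finset.mul_sum, Finset.sum_congr rfl fun μ _ => e μ,
    Fin.sum_univ_eq_sum_range (fun n => ζ ^ n) N]
  by_cases hd : (N : ℤ) ∣ p.1 + g * p.2
  · rw [if_pos hd]
    obtain ⟨t, ht⟩ := hd
    have h1 : ζ = 1 := by
      rw [hζ, Complex.exp_eq_one_iff]
      refine ⟨t, ?_⟩
      rw [ht]
      push_cast
      field_simp
    rw [h1]
    simp [hN0]
  · rw [if_neg hd]
    have h1 : ζ ≠ 1 := by
      intro h
      rw [hζ, Complex.exp_eq_one_iff] at h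
      obtain ⟨t, ht⟩ := h
      apply hd
      refine ⟨t, ?_⟩
      have h2 : (2 * (Real.pi : ℂ) * Complex.I) ≠ 0 := by
        simp [Complex.I_ne_zero, Real.pi_ne_zero]
      have h3 := mul_right_cancel₀ h2 ht
      rw [div_eq_iff hN0] at h3
      have h4 : ((p.1 + g * p.2 : ℤ) : ℂ) = ((N * t : ℤ) : ℂ) := by
        rw [h3]
        push_cast
        ring
      exact_mod_cast h4
    have h2 : ζ ^ N = 1 := by
      rw [hζ, ← Complex.exp_nat_mul, Complex.exp_eq_one_iff]
      refine ⟨p.1 + g * p.2, ?_⟩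
      field_simp
    rw [geom_sum_eq h1, h2]
    simp

theorem upb_prod (u v : ℤ → ℂ) (hu : Summable (fun k => ‖u k‖)) (hv : Summable (fun k => ‖v k‖)) :
    (∑' k, u k) * (∑' k, v k) = ∑' p : ℤ × ℤ, u p.1 * v p.2 ∧
      Summable (fun p : ℤ × ℤ => u p.1 * v p.2) :=
  ⟨tsum_mul_tsum_of_summable_norm hu hv, summable_mul_of_summable_norm hu hv⟩

theorem t_UPB : S_UPB := by
  intro r α hr N g hN
  obtain ⟨-, hs, hF⟩ := t_FCF r α hr
  have hs2 : Summable (fun p : ℤ × ℤ => ‖fc r α p.1‖ * ‖fc r α p.2‖) :=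
    hs.mul_of_nonneg hs (fun _ => norm_nonneg _) (fun _ => norm_nonneg _)
  have hs3 : Summable (fun k : ℤ × ℤ => kb k.1 ^ (-r) * kb k.2 ^ (-r)) := by
    refine hs2.congr fun p => ?_
    rw [upb_norm, upb_norm]
  refine ⟨hs3.indicator _, fun y => ?_⟩
  -- the terms
  set T : ℤ × ℤ → ℂ := fun p => (dl N g).indicator
    (fun p => fc r α p.1 * fc r α p.2 * (fourier p.1 (-y.1) * fourier p.2 (-y.2))) p with hT
  have hTn : ∀ p, ‖T p‖ = (dl N g).indicator (fun k => kb k.1 ^ (-r) * kb k.2 ^ (-r)) p := by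
    intro p
    rw [hT]
    simp only
    rw [Set.indicator_apply, Set.indicator_apply]
    split_ifs with h
    · rw [norm_mul, norm_mul, norm_mul, upb_four_norm, upb_four_norm, upb_norm, upb_norm]
      ring
    · exact norm_zero
  have hTs : Summable (fun p => ‖T p‖) := (hs3.indicator (dl N g)).congr fun p => (hTn p).symm
  have hterm : ∀ (a b : G) , ((FG r α a : ℝ) : ℂ) * ((FG r α b : ℝ) : ℂ) =
      ∑' p : ℤ × ℤ, fc r α p.1 * fourier p.1 a * (fc r α p.2 * fourier p.2 b) ∧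
      Summable (fun p : ℤ × ℤ => fc r α p.1 * fourier p.1 a * (fc r α p.2 * fourier p.2 b)) := by
    intro a b
    have h1 : ∀ x : G, Summable (fun k => ‖fc r α k * fourier k x‖) := by
      intro x
      refine hs.congr fun k => ?_
      rw [norm_mul, upb_four_norm, mul_one]
    have h2 := upb_prod (fun k => fc r α k * fourier k a) (fun k => fc r α k * fourier k b)
      (h1 a) (h1 b)
    rw [hF, hF]
    exact h2
  have hmain : ((errF r α (fun _ : Fin N => (1 : ℝ) / N)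
      (fun μ => (((ln N g μ).1 : G), ((ln N g μ).2 : G))) y : ℝ) : ℂ) = ∑' p, T p := by
    unfold errF
    rw [Complex.ofReal_sub, Complex.ofReal_sum, Complex.ofReal_one]
    have e1 : ∀ μ : Fin N, ((((1 : ℝ) / N) * (FG r α (((ln N g μ).1 : G) - y.1) *
        FG r α (((ln N g μ).2 : G) - y.2)) : ℝ) : ℂ) =
        ∑' p : ℤ × ℤ, (((1 : ℝ) / N : ℝ) : ℂ) * (fc r α p.1 * fourier p.1 (((ln N g μ).1 : G) - y.1) *
          (fc r α p.2 * fourier p.2 (((ln N g μ).2 : G) - y.2))) := by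
      intro μ
      rw [tsum_mul_left, ← (hterm _ _).1]
      push_cast
      ring
    rw [Finset.sum_congr rfl fun μ _ => e1 μ, ← Summable.tsum_finsetSum fun (μ : Fin N) _ =>
      ((hterm (((ln N g μ).1 : G) - y.1) (((ln N g μ).2 : G) - y.2)).2.mul_left _)]
    have e2 : ∀ p : ℤ × ℤ, ∑ μ : Fin N, (((1 : ℝ) / N : ℝ) : ℂ) *
        (fc r α p.1 * fourier p.1 (((ln N g μ).1 : G) - y.1) *
          (fc r α p.2 * fourier p.2 (((ln N g μ).2 : G) - y.2))) =
        T p + if p = 0 then 1 else 0 := by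
      intro p
      have e3 : ∀ μ : Fin N, (((1 : ℝ) / N : ℝ) : ℂ) *
        (fc r α p.1 * fourier p.1 (((ln N g μ).1 : G) - y.1) *
          (fc r α p.2 * fourier p.2 (((ln N g μ).2 : G) - y.2))) =
          (fc r α p.1 * fc r α p.2 * (fourier p.1 (-y.1) * fourier p.2 (-y.2))) *
          ((((1 : ℝ) / N : ℝ) : ℂ) * ((fourier p.1 (((ln N g μ).1 : ℝ) : G) : ℂ) *
            fourier p.2 (((ln N g μ).2 : ℝ) : G))) := by
        intro μ
        rw [upb_four_sub, upb_four_sub]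
        ring
      rw [Finset.sum_congr rfl fun μ _ => e3 μ, ← Finset.mul_sum, upb_avg N g hN p, hT]
      simp only
      rw [Set.indicator_apply]
      by_cases hp : p = 0
      · subst hp
        have h0 : (0 : ℤ × ℤ) ∉ dl N g := fun h => h.1 rfl
        rw [if_neg h0, if_pos rfl]
        simp [upb_fc_zero]
      · rw [if_neg hp, add_zero]
        by_cases hd : (N : ℤ) ∣ p.1 + g * p.2
        · have h1 : p ∈ dl N g := ⟨hp, hd⟩
          rw [if_pos hd, if_pos h1, mul_one]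
        · have h1 : p ∉ dl N g := fun h => hd h.2
          rw [if_neg hd, if_neg h1, mul_zero]
    rw [tsum_congr e2, Summable.tsum_add hTs.of_norm (hasSum_ite_eq 0 1).summable, tsum_ite_eq]
    ring
  have h1 := norm_tsum_le_tsum_norm hTs
  rw [← hmain, Complex.norm_real, Real.norm_eq_abs, tsum_congr hTn] at h1
  exact h1

end Pool.Agent.H729R2.FO
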