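import Mathlib
import Pool.Agent.H729R2.FO.Stubs
import Pool.Agent.H729R2.FO.Stubs3

set_option autoImplicit false

namespace Pool.Agent.H729R2.FO

open MeasureTheory Pool.Agent.H729R2.CB Pool.Agent.Helper150.Cub

open scoped Classical

noncomputable section

/-- the real-variable core of the argument -/
theorem upc_core (s φ X Y0 a a' u v b1 b2 : ℝ) (hs : 0 < s) (hs5 : s ^ 2 = 5) (hX : 0 < X)
    (hX2 : 2 ≤ X ^ 2) (hY : X * Y0 = 1) (ha : 0 ≤ a) (ha' : 0 ≤ a') (haa : 1 ≤ a * a')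
    (hφ1 : 1 ≤ φ) (hu : X * a - Y0 * a' ≤ s * u) (hv : φ * a' - (φ - 1) * a ≤ s * v)
    (hu1 : u ≤ b1) (hv1 : v ≤ b2) (hb1 : 1 ≤ b1) (hb2 : 1 ≤ b2) (hu0 : 0 ≤ u) (hv0 : 0 ≤ v) :
    X ≤ 10 * (b1 * b2) := by
  have hs3 : s ≤ 5 / 2 := by nlinarith
  have hY0 : 0 < Y0 := by
    by_contra hcon
    push Not at hcon
    nlinarith
  have hYX : 2 * Y0 ≤ X := by
    have h1 : X * (2 * Y0) ≤ X * X := by nlinarith
    exact le_of_mul_le_mul_left h1 hX
  rcases lt_or_ge a' a with h | h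
  · have ha1 : 1 ≤ a := by nlinarith
    have h1 : X / 2 ≤ s * u := by
      have h2 : Y0 * a' ≤ Y0 * a := mul_le_mul_of_nonneg_left h.le hY0.le
      have h3 : (X - Y0) * 1 ≤ (X - Y0) * a := mul_le_mul_of_nonneg_left ha1 (by linarith)
      nlinarith
    have h4 : s * u ≤ 5 / 2 * b1 := by nlinarith
    have h5 : b1 * 1 ≤ b1 * b2 := mul_le_mul_of_nonneg_left hb2 (by linarith)
    nlinarith
  · have h1 : a' ≤ s * v := by nlinarith
    rcases le_or_gt (2 * (Y0 * a')) (X * a) with h2 | h2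
    · have h3 : X * a / 2 ≤ s * u := by nlinarith
      have h4 : (X * a / 2) * a' ≤ (s * u) * (s * v) :=
        mul_le_mul h3 h1 ha' (by positivity)
      have h5 : X * 1 ≤ X * (a * a') := mul_le_mul_of_nonneg_left haa hX.le
      have h6 : u * v ≤ b1 * b2 := mul_le_mul hu1 hv1 hv0 (by linarith)
      have h7 : (s * u) * (s * v) = 5 * (u * v) := by rw [← hs5]; ring
      nlinarith
    · have h3 : X * (a * a') ≤ 2 * Y0 * a' ^ 2 := by nlinarith
      have h4 : X * 1 ≤ X * (a * a') := mul_le_mul_of_nonneg_left haa hX.le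
      have h5 : X * X ≤ X * (2 * Y0 * a' ^ 2) := mul_le_mul_of_nonneg_left (by linarith) hX.le
      have h6 : X * (2 * Y0 * a' ^ 2) = 2 * a' ^ 2 := by
        have : X * (2 * Y0 * a' ^ 2) = 2 * a' ^ 2 * (X * Y0) := by ring
        rw [this, hY, mul_one]
      have h7 : a' ^ 2 ≤ (s * v) ^ 2 := pow_le_pow_left₀ ha' h1 2
      have h8 : (s * v) ^ 2 = 5 * v ^ 2 := by rw [mul_pow, hs5]
      have h9 : v ^ 2 ≤ b2 ^ 2 := pow_le_pow_left₀ hv0 hv1 2
      have h10 : X ^ 2 ≤ (10 * b2) ^ 2 := by nlinarith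
      have h11 : X ≤ 10 * b2 := le_of_sq_le_sq_of_nonneg' h10 (by linarith)
      have h12 : 1 * b2 ≤ b1 * b2 := mul_le_mul_of_nonneg_right hb1 (by linarith)
      linarith
where
  le_of_sq_le_sq_of_nonneg' {x y : ℝ} (h : x ^ 2 ≤ y ^ 2) (hy : 0 ≤ y) : x ≤ y :=
    le_of_sq_le_sq h hy

theorem t_UPC : S_UPC := by
  intro n k hn hk
  obtain ⟨hk0, hkd⟩ := hk
  obtain ⟨l, hl⟩ := hkd
  obtain ⟨k1, k2⟩ := k
  simp only at hl
  set φ := Real.goldenRatio with hφ
  set ψ := Real.goldenConj with hψ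
  have hsum : φ + ψ = 1 := Real.goldenRatio_add_goldenConj
  have hprod : φ * ψ = -1 := Real.goldenRatio_mul_goldenConj
  have hsub : φ - ψ = √5 := Real.goldenRatio_sub_goldenConj
  have hs : (0 : ℝ) < √5 := by positivity
  have hs5 : (√5 : ℝ) ^ 2 = 5 := Real.sq_sqrt (by norm_num)
  have hφ1 : 1 < φ := Real.one_lt_goldenRatio
  have hφpos : 0 < φ := by linarith
  have hψabs : |ψ| = φ - 1 := by
    have h1 : ψ = 1 - φ := by linarith
    rw [h1, abs_of_neg (by linarith)]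
    ring
  have hφsq : φ ^ 2 = φ + 1 := Real.goldenRatio_sq
  -- the Fibonacci numbers
  have hF1 : (√5 : ℝ) * (Nat.fib (n + 1) : ℝ) = φ ^ (n + 1) - ψ ^ (n + 1) := by
    rw [Real.coe_fib_eq]
    field_simp
    rfl
  have hF0 : (√5 : ℝ) * (Nat.fib n : ℝ) = φ ^ n - ψ ^ n := by
    rw [Real.coe_fib_eq]
    field_simp
    rfl
  have hk1 : (k1 : ℝ) = Nat.fib (n + 1) * l - Nat.fib n * k2 := by
    have h1 : k1 = (Nat.fib (n + 1) : ℤ) * l - (Nat.fib n : ℤ) * k2 := by linarith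
    rw [h1]
    push_cast
    ring
  have hlk : ¬ (l = 0 ∧ k2 = 0) := by
    rintro ⟨h1, h2⟩
    apply hk0
    rw [h1, h2] at hk1
    have h3 : (k1 : ℝ) = 0 := by rw [hk1]; simp
    have h4 : k1 = 0 := by exact_mod_cast h3
    rw [h4, h2]
    rfl
  have hA : φ * l - k2 ≠ 0 := by
    intro h
    apply hlk
    by_cases hl0 : l = 0
    · refine ⟨hl0, ?_⟩
      rw [hl0] at h
      have : (k2 : ℝ) = 0 := by push_cast at h; linarith
      exact_mod_cast this
    · exfalso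
      have hirr := Real.goldenRatio_irrational
      apply hirr
      refine ⟨(k2 : ℚ) / l, ?_⟩
      push_cast
      rw [div_eq_iff (by exact_mod_cast hl0)]
      linarith
  have hA' : ψ * l - k2 ≠ 0 := by
    intro h
    apply hlk
    by_cases hl0 : l = 0
    · refine ⟨hl0, ?_⟩
      rw [hl0] at h
      have : (k2 : ℝ) = 0 := by push_cast at h; linarith
      exact_mod_cast this
    · exfalso
      have hirr := Real.goldenConj_irrational
      apply hirr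
      refine ⟨(k2 : ℚ) / l, ?_⟩
      push_cast
      rw [div_eq_iff (by exact_mod_cast hl0)]
      linarith
  have hAA : 1 ≤ |φ * l - k2| * |ψ * l - k2| := by
    rw [← abs_mul]
    have h1 : (φ * l - k2) * (ψ * l - k2) = ((-l ^ 2 - l * k2 + k2 ^ 2 : ℤ) : ℝ) := by
      push_cast
      have h2 : (φ * l - k2) * (ψ * l - k2) = (φ * ψ) * l ^ 2 - (φ + ψ) * (l * k2) + k2 ^ 2 := by
        ring
      rw [h2, hprod, hsum]
      ring
    have h3 : (-l ^ 2 - l * k2 + k2 ^ 2 : ℤ) ≠ 0 := by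
      intro h4
      rw [h4] at h1
      have := mul_ne_zero hA hA'
      apply this
      rw [h1]
      simp
    rw [h1]
    exact_mod_cast Int.one_le_abs h3
  have hXpos : 0 < φ ^ n := pow_pos hφpos n
  have hXφ : φ ≤ φ ^ n := by
    calc φ = φ ^ 1 := (pow_one _).symm
      _ ≤ φ ^ n := pow_le_pow_right₀ hφ1.le hn
  have hX2 : 2 ≤ (φ ^ n) ^ 2 := by
    have : φ ^ 2 ≤ (φ ^ n) ^ 2 := pow_le_pow_left₀ hφpos.le hXφ 2
    linarith
  have hXY : φ ^ n * |ψ ^ n| = 1 := by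
    have h1 : |φ ^ n * ψ ^ n| = 1 := by
      rw [← mul_pow, hprod, abs_pow]
      simp
    rwa [abs_mul, abs_of_pos hXpos] at h1
  have hu : φ ^ n * |φ * l - k2| - |ψ ^ n| * |ψ * l - k2| ≤ √5 * |(k1 : ℝ)| := by
    have h1 : √5 * (k1 : ℝ) = φ ^ n * (φ * l - k2) - ψ ^ n * (ψ * l - k2) := by
      rw [hk1, mul_sub, ← mul_assoc, ← mul_assoc, hF1, hF0]
      ring
    have h2 : √5 * |(k1 : ℝ)| = |φ ^ n * (φ * l - k2) - ψ ^ n * (ψ * l - k2)| := by
      rw [← h1, abs_mul, abs_of_pos hs]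
    rw [h2]
    have h3 := abs_sub_abs_le_abs_sub (φ ^ n * (φ * l - k2)) (ψ ^ n * (ψ * l - k2))
    rw [abs_mul, abs_mul, abs_of_pos hXpos] at h3
    exact h3
  have hv : φ * |ψ * l - k2| - (φ - 1) * |φ * l - k2| ≤ √5 * |(k2 : ℝ)| := by
    have h1 : √5 * (k2 : ℝ) = ψ * (φ * l - k2) - φ * (ψ * l - k2) := by
      rw [← hsub]
      ring
    have h2 : √5 * |(k2 : ℝ)| = |ψ * (φ * l - k2) - φ * (ψ * l - k2)| := by
      rw [← h1, abs_mul, abs_of_pos hs]
    rw [h2, abs_sub_comm (ψ * (φ * l - k2))]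
    have h3 := abs_sub_abs_le_abs_sub (φ * (ψ * l - k2)) (ψ * (φ * l - k2))
    rw [abs_mul, abs_mul, abs_of_pos hφpos, hψabs] at h3
    exact h3
  have hmain := upc_core (√5) φ (φ ^ n) |ψ ^ n| |φ * l - k2| |ψ * l - k2| |(k1 : ℝ)| |(k2 : ℝ)|
    (kb k1) (kb k2) hs hs5 hXpos hX2 hXY (abs_nonneg _) (abs_nonneg _) hAA hφ1.le hu hv
    (le_max_right _ _) (le_max_right _ _) (le_max_left _ _) (le_max_left _ _) (abs_nonneg _)
    (abs_nonneg _)
  -- `fib (n+1) ≤ φ ^ n`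
  have hF : (Nat.fib (n + 1) : ℝ) ≤ φ ^ n := by
    have h1 : √5 * (Nat.fib (n + 1) : ℝ) ≤ √5 * φ ^ n := by
      rw [hF1, ← hsub]
      have h2 : |ψ ^ n| ≤ φ ^ n := by
        have h3 : 1 ≤ φ ^ n := hφ1.le.trans hXφ
        have h4 : |ψ ^ n| ≤ φ ^ n * |ψ ^ n| := le_mul_of_one_le_left (abs_nonneg _) h3
        linarith
      have h5 : -(ψ ^ (n + 1)) ≤ (φ - 1) * φ ^ n := by
        calc -(ψ ^ (n + 1)) ≤ |ψ ^ (n + 1)| := neg_le_abs _
          _ = |ψ| * |ψ ^ n| := by rw [pow_succ, abs_mul, mul_comm]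
          _ ≤ (φ - 1) * φ ^ n := by
              rw [hψabs]
              exact mul_le_mul_of_nonneg_left h2 (by linarith)
      have h6 : φ - ψ = φ + (φ - 1) := by linarith
      rw [h6, add_mul]
      have h7 : φ ^ (n + 1) = φ * φ ^ n := by ring
      linarith
    exact le_of_mul_le_mul_left h1 hs
  have hb : 0 ≤ kb k1 * kb k2 :=
    mul_nonneg (le_trans zero_le_one (le_max_left _ _)) (le_trans zero_le_one (le_max_left _ _))
  simp only
  linarith

end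

end Pool.Agent.H729R2.FO
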