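import Mathlib
import Pool.Agent.H729R2.FO.Stubs3

set_option autoImplicit false

namespace Pool.Agent.H729R2.FO

open MeasureTheory Pool.Agent.H729R2.CB Pool.Agent.Helper150.Cub

open scoped Classical

noncomputable section

/-- dyadic class of an integer -/
def upd_s (k : ℤ) : ℕ := Nat.log 2 k.natAbs

lemma upd_abs (k : ℤ) : |(k : ℝ)| = (k.natAbs : ℝ) := by
  rw [Nat.cast_natAbs]
  push_cast
  rfl

lemma upd_lo (k : ℤ) : (2 : ℝ) ^ upd_s k ≤ kb k := by
  unfold kb upd_s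
  rcases eq_or_ne k.natAbs 0 with h | h
  · rw [h]
    simp
  · refine le_trans ?_ (le_max_right _ _)
    rw [upd_abs]
    exact_mod_cast Nat.pow_log_le_self 2 h

lemma upd_hi (k : ℤ) : |(k : ℝ)| ≤ 2 ^ (upd_s k + 1) := by
  rw [upd_abs]
  exact_mod_cast (Nat.lt_pow_succ_log_self one_lt_two k.natAbs).le

lemma upd_hi' (k : ℤ) : kb k ≤ 2 ^ (upd_s k + 1) :=
  max_le (one_le_pow₀ (by norm_num)) (upd_hi k)

lemma upd_kb_pos (k : ℤ) : 0 < kb k := lt_of_lt_of_le one_pos (le_max_left _ _)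

lemma upd_box (hN' : S_UPN) {r K : ℝ} (hr : 1 < r) (hK : 1 ≤ K) {N g : ℕ} (hN : 2 ≤ N)
    (hg : ∀ k ∈ dl N g, (N : ℝ) ≤ K * (kb k.1 * kb k.2)) (t : ℕ × ℕ) (A : Finset (ℤ × ℤ))
    (hA : ∀ k ∈ A, k ∈ dl N g ∧ upd_s k.1 = t.1 ∧ upd_s k.2 = t.2) (hne : A.Nonempty) :
    (N : ℝ) ≤ 4 * K * 2 ^ (t.1 + t.2) ∧
    ∑ k ∈ A, kb k.1 ^ (-r) * kb k.2 ^ (-r) ≤
      800 * K ^ 2 / N * ((2 : ℝ) ^ (1 - r)) ^ (t.1 + t.2) := by
  have hN0 : (0 : ℝ) < N := by
    have : 0 < N := by omega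
    exact_mod_cast this
  set w : ℝ := 2 ^ (t.1 + t.2) with hw
  have hw0 : 0 < w := by positivity
  have h1 : (N : ℝ) ≤ 4 * K * w := by
    obtain ⟨k, hk⟩ := hne
    obtain ⟨hd, e1, e2⟩ := hA k hk
    have a1 := upd_hi' k.1
    have a2 := upd_hi' k.2
    rw [e1] at a1
    rw [e2] at a2
    have b1 := upd_kb_pos k.1
    have b2 := upd_kb_pos k.2
    have h3 : kb k.1 * kb k.2 ≤ 2 ^ (t.1 + 1) * 2 ^ (t.2 + 1) :=
      mul_le_mul a1 a2 b2.le (by positivity)
    have h4 : (2 : ℝ) ^ (t.1 + 1) * 2 ^ (t.2 + 1) = 4 * w := by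
      rw [hw]; ring
    calc (N : ℝ) ≤ K * (kb k.1 * kb k.2) := hg k hd
      _ ≤ K * (4 * w) := by
          rw [← h4]
          exact mul_le_mul_of_nonneg_left h3 (by linarith)
      _ = 4 * K * w := by ring
  refine ⟨h1, ?_⟩
  have hcard : (A.card : ℝ) ≤ 100 * K * (1 + 2 ^ (t.1 + 1) * 2 ^ (t.2 + 1) / N) := by
    apply hN' N g K (by omega) hK hg (2 ^ (t.1 + 1)) (2 ^ (t.2 + 1)) A
      (one_le_pow₀ (by norm_num)) (one_le_pow₀ (by norm_num))
    intro k hk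
    obtain ⟨hd, e1, e2⟩ := hA k hk
    have a1 := upd_hi k.1
    have a2 := upd_hi k.2
    rw [e1] at a1
    rw [e2] at a2
    exact ⟨hd, a1, a2⟩
  have hcard2 : (A.card : ℝ) ≤ 800 * K ^ 2 / N * w := by
    have h4 : (2 : ℝ) ^ (t.1 + 1) * 2 ^ (t.2 + 1) = 4 * w := by
      rw [hw]; ring
    rw [h4] at hcard
    refine hcard.trans ?_
    have h5 : (1 : ℝ) ≤ 4 * K * w / N := by
      rw [le_div_iff₀ hN0]; linarith
    have h6 : 4 * w / N ≤ 4 * K * w / N := by
      apply div_le_div_of_nonneg_right _ hN0.le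
      nlinarith
    calc 100 * K * (1 + 4 * w / N) ≤ 100 * K * (4 * K * w / N + 4 * K * w / N) := by
          apply mul_le_mul_of_nonneg_left _ (by linarith)
          linarith
      _ = 800 * K ^ 2 / N * w := by ring
  have hterm : ∀ k ∈ A, kb k.1 ^ (-r) * kb k.2 ^ (-r) ≤ w ^ (-r) := by
    intro k hk
    obtain ⟨hd, e1, e2⟩ := hA k hk
    have a1 := upd_lo k.1
    have a2 := upd_lo k.2
    rw [e1] at a1
    rw [e2] at a2
    rw [← Real.mul_rpow (upd_kb_pos _).le (upd_kb_pos _).le]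
    apply Real.rpow_le_rpow_of_nonpos hw0 _ (by linarith)
    rw [hw, pow_add]
    exact mul_le_mul a1 a2 (by positivity) (upd_kb_pos _).le
  calc ∑ k ∈ A, kb k.1 ^ (-r) * kb k.2 ^ (-r) ≤ ∑ k ∈ A, w ^ (-r) := Finset.sum_le_sum hterm
    _ = A.card * w ^ (-r) := by rw [Finset.sum_const, nsmul_eq_mul]
    _ ≤ 800 * K ^ 2 / N * w * w ^ (-r) :=
        mul_le_mul_of_nonneg_right hcard2 (by positivity)
    _ = 800 * K ^ 2 / N * ((2 : ℝ) ^ (1 - r)) ^ (t.1 + t.2) := by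
        rw [Real.rpow_pow_comm (by norm_num), ← hw, mul_assoc]
        congr 1
        rw [show (1 - r) = 1 + (-r) by ring, Real.rpow_add hw0, Real.rpow_one]

/-- sums over pairs -/
lemma upd_pairs {ρ : ℝ} (hρ0 : 0 < ρ) (hρ1 : ρ < 1) (u0 : ℕ) (T : Finset (ℕ × ℕ))
    (hT : ∀ t ∈ T, u0 ≤ t.1 + t.2) :
    ∑ t ∈ T, ρ ^ (t.1 + t.2) ≤ ((u0 : ℝ) + 1) * ρ ^ u0 * ∑' v : ℕ, ((v : ℝ) + 1) * ρ ^ v := by
  have hsum : Summable (fun v : ℕ => ((v : ℝ) + 1) * ρ ^ v) := by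
    have h1 := summable_pow_mul_geometric_of_norm_lt_one 1 (r := ρ)
      (by rw [Real.norm_eq_abs, abs_of_pos hρ0]; exact hρ1)
    have h2 := summable_geometric_of_lt_one hρ0.le hρ1
    refine (h1.add h2).congr fun v => ?_
    ring
  have hmaps : ∀ t ∈ T, t.1 + t.2 ∈ T.image (fun t => t.1 + t.2) :=
    fun t ht => Finset.mem_image_of_mem _ ht
  rw [← Finset.sum_fiberwise_of_maps_to hmaps]
  have h1 : ∀ u ∈ T.image (fun t => t.1 + t.2),
      ∑ t ∈ T.filter (fun t => t.1 + t.2 = u), ρ ^ (t.1 + t.2) ≤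
        ((u0 : ℝ) + 1) * ρ ^ u0 * ((((u - u0 : ℕ) : ℝ) + 1) * ρ ^ (u - u0)) := by
    intro u hu
    obtain ⟨t0, ht0, hu0⟩ := Finset.mem_image.1 hu
    have huu : u0 ≤ u := by
      rw [← hu0]; exact hT t0 ht0
    obtain ⟨v, rfl⟩ := Nat.exists_eq_add_of_le huu
    have hc : (T.filter (fun t => t.1 + t.2 = u0 + v)).card ≤ u0 + v + 1 := by
      rw [← Finset.Nat.card_antidiagonal (u0 + v)]
      apply Finset.card_le_card
      intro t ht
      exact Finset.HasAntidiagonal.mem_antidiagonal.2 (Finset.mem_filter.1 ht).2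
    have hc' : ((T.filter (fun t => t.1 + t.2 = u0 + v)).card : ℝ) ≤ u0 + v + 1 := by
      exact_mod_cast hc
    calc ∑ t ∈ T.filter (fun t => t.1 + t.2 = u0 + v), ρ ^ (t.1 + t.2)
        = ∑ t ∈ T.filter (fun t => t.1 + t.2 = u0 + v), ρ ^ (u0 + v) := by
          apply Finset.sum_congr rfl
          intro t ht
          rw [(Finset.mem_filter.1 ht).2]
      _ = (T.filter (fun t => t.1 + t.2 = u0 + v)).card * ρ ^ (u0 + v) := by
          rw [Finset.sum_const, nsmul_eq_mul]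
      _ ≤ (u0 + v + 1) * ρ ^ (u0 + v) := mul_le_mul_of_nonneg_right hc' (by positivity)
      _ ≤ (((u0 : ℝ) + 1) * ((v : ℝ) + 1)) * ρ ^ (u0 + v) := by
          apply mul_le_mul_of_nonneg_right _ (by positivity)
          have h1 : (0 : ℝ) ≤ u0 := Nat.cast_nonneg _
          have h2 : (0 : ℝ) ≤ v := Nat.cast_nonneg _
          nlinarith
      _ = ((u0 : ℝ) + 1) * ρ ^ u0 * ((((u0 + v - u0 : ℕ) : ℝ) + 1) * ρ ^ (u0 + v - u0)) := by
          rw [Nat.add_sub_cancel_left, pow_add]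
          ring
  refine (Finset.sum_le_sum h1).trans ?_
  rw [← Finset.mul_sum]
  apply mul_le_mul_of_nonneg_left _ (by positivity)
  have hinj : Set.InjOn (fun u => u - u0) ((T.image (fun t => t.1 + t.2) : Finset ℕ) : Set ℕ) := by
    intro a ha b hb hab
    obtain ⟨t1, ht1, e1⟩ := Finset.mem_image.1 (Finset.mem_coe.1 ha)
    obtain ⟨t2, ht2, e2⟩ := Finset.mem_image.1 (Finset.mem_coe.1 hb)
    have a1 := hT t1 ht1
    have a2 := hT t2 ht2
    simp only at hab e1 e2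
    omega
  rw [← Finset.sum_image (f := fun v : ℕ => ((v : ℝ) + 1) * ρ ^ v) hinj]
  exact hsum.sum_le_tsum _ (fun v _ => by positivity)

theorem t_UPD (hN' : S_UPN) : S_UPD := by
  intro r K hr hK
  set ρ : ℝ := 2 ^ (1 - r) with hρ
  have hρ0 : 0 < ρ := by positivity
  have hρ1 : ρ < 1 := Real.rpow_lt_one_of_one_lt_of_neg (by norm_num) (by linarith)
  set B : ℝ := ∑' v : ℕ, ((v : ℝ) + 1) * ρ ^ v with hB
  have hB0 : 0 ≤ B := tsum_nonneg fun v => by positivity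
  have hl2 : 0 < Real.log 2 := Real.log_pos (by norm_num)
  set C : ℝ := 800 * K ^ 2 * (3 / Real.log 2) * (4 * K) ^ (r - 1) * (B + 1) with hC
  refine ⟨C, by positivity, ?_⟩
  intro N g hN hg
  have hN0 : (0 : ℝ) < N := by
    have : 0 < N := by omega
    exact_mod_cast this
  have hN1 : (1 : ℝ) ≤ N := by
    have : 1 ≤ N := by omega
    exact_mod_cast this
  have hN2 : (2 : ℝ) ≤ N := by exact_mod_cast hN
  -- the threshold
  have hex : ∃ u : ℕ, (N : ℝ) ≤ 4 * K * 2 ^ u := by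
    refine ⟨N, ?_⟩
    have h1 : (N : ℝ) ≤ 2 ^ N := by exact_mod_cast (Nat.lt_two_pow_self (n := N)).le
    have h2 : (0 : ℝ) < 2 ^ N := by positivity
    nlinarith
  set u0 := Nat.find hex with hu0
  have hu1 : (N : ℝ) ≤ 4 * K * 2 ^ u0 := Nat.find_spec hex
  have hu2 : ∀ u : ℕ, (N : ℝ) ≤ 4 * K * 2 ^ u → u0 ≤ u := fun u hu => Nat.find_min' hex hu
  have hlogN : Real.log 2 ≤ Real.log N := Real.log_le_log (by norm_num) hN2
  have hu3 : (u0 : ℝ) + 1 ≤ 3 / Real.log 2 * Real.log N := by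
    have h1 : ((u0 : ℝ) - 1) * Real.log 2 ≤ Real.log N := by
      rcases Nat.eq_zero_or_pos u0 with h | h
      · rw [h]
        simp only [Nat.cast_zero]
        nlinarith
      · have h2 : ¬ (N : ℝ) ≤ 4 * K * 2 ^ (u0 - 1) := by
          intro hc
          have := hu2 _ hc
          omega
        push Not at h2
        have h3 : (2 : ℝ) ^ (u0 - 1) ≤ N := by
          have h4 : (0 : ℝ) < 2 ^ (u0 - 1) := by positivity
          nlinarith
        have h5 := Real.log_le_log (by positivity) h3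
        rw [Real.log_pow, Nat.cast_sub h] at h5
        push_cast at h5
        exact h5
    rw [div_mul_eq_mul_div, le_div_iff₀ hl2]
    nlinarith
  have hu4 : ρ ^ u0 ≤ (4 * K) ^ (r - 1) * (N : ℝ) ^ (1 - r) := by
    rw [hρ, Real.rpow_pow_comm (by norm_num)]
    have h1 : (N : ℝ) / (4 * K) ≤ 2 ^ u0 := by
      rw [div_le_iff₀ (by positivity)]
      linarith
    calc ((2 : ℝ) ^ u0) ^ (1 - r) ≤ ((N : ℝ) / (4 * K)) ^ (1 - r) :=
          Real.rpow_le_rpow_of_nonpos (by positivity) h1 (by linarith)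
      _ = (4 * K) ^ (r - 1) * (N : ℝ) ^ (1 - r) := by
          rw [Real.div_rpow hN0.le (by positivity), show r - 1 = -(1 - r) by ring,
            Real.rpow_neg (by positivity)]
          field_simp
  apply Real.tsum_le_of_sum_le
  · intro k
    apply Set.indicator_nonneg
    intro k _
    have := upd_kb_pos k.1
    have := upd_kb_pos k.2
    positivity
  · intro S
    have h1 : ∑ k ∈ S, (dl N g).indicator (fun k => kb k.1 ^ (-r) * kb k.2 ^ (-r)) k =
        ∑ k ∈ S.filter (fun k => k ∈ dl N g), kb k.1 ^ (-r) * kb k.2 ^ (-r) := by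
      rw [Finset.sum_filter]
      apply Finset.sum_congr rfl
      intro k _
      rw [Set.indicator_apply]
    rw [h1]
    set S' := S.filter (fun k => k ∈ dl N g) with hS'
    set cl : ℤ × ℤ → ℕ × ℕ := fun k => (upd_s k.1, upd_s k.2) with hcl
    have hmaps : ∀ k ∈ S', cl k ∈ S'.image cl := fun k hk => Finset.mem_image_of_mem _ hk
    rw [← Finset.sum_fiberwise_of_maps_to hmaps]
    have hbox : ∀ t ∈ S'.image cl, (N : ℝ) ≤ 4 * K * 2 ^ (t.1 + t.2) ∧
        ∑ k ∈ S'.filter (fun k => cl k = t), kb k.1 ^ (-r) * kb k.2 ^ (-r) ≤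
        800 * K ^ 2 / N * ρ ^ (t.1 + t.2) := by
      intro t ht
      obtain ⟨k, hk, hkt⟩ := Finset.mem_image.1 ht
      apply upd_box hN' hr hK hN hg t
      · intro k hk
        obtain ⟨a1, a2⟩ := Finset.mem_filter.1 hk
        refine ⟨(Finset.mem_filter.1 a1).2, ?_, ?_⟩
        · rw [← a2]
        · rw [← a2]
      · exact ⟨k, Finset.mem_filter.2 ⟨hk, hkt⟩⟩
    refine (Finset.sum_le_sum fun t ht => (hbox t ht).2).trans ?_
    rw [← Finset.mul_sum]
    have h2 := upd_pairs hρ0 hρ1 u0 (S'.image cl) (fun t ht => hu2 _ (hbox t ht).1)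
    rw [← hB] at h2
    have hlN : 0 ≤ Real.log N := hl2.le.trans hlogN
    have h3 : ∑ t ∈ S'.image cl, ρ ^ (t.1 + t.2) ≤
        (3 / Real.log 2 * Real.log N) * ((4 * K) ^ (r - 1) * (N : ℝ) ^ (1 - r)) * (B + 1) := by
      refine h2.trans ?_
      apply mul_le_mul _ (by linarith) hB0 (by positivity)
      exact mul_le_mul hu3 hu4 (by positivity) (by positivity)
    calc 800 * K ^ 2 / N * ∑ t ∈ S'.image cl, ρ ^ (t.1 + t.2)
        ≤ 800 * K ^ 2 / N * ((3 / Real.log 2 * Real.log N) *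
          ((4 * K) ^ (r - 1) * (N : ℝ) ^ (1 - r)) * (B + 1)) :=
          mul_le_mul_of_nonneg_left h3 (by positivity)
      _ = C * ((N : ℝ) ^ (-r) * Real.log N) := by
          rw [hC, show (1 - r) = 1 + (-r) by ring, Real.rpow_add hN0, Real.rpow_one]
          field_simp

end

end Pool.Agent.H729R2.FO
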