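import Mathlib
import Pool.Agent.H729R2.FO.Stubs3

set_option autoImplicit false

namespace Pool.Agent.H729R2.FO

open MeasureTheory Pool.Agent.H729R2.CB Pool.Agent.Helper150.Cub

open scoped Classical

noncomputable section

theorem upn_card1 (p P : ℝ) (hp : 0 < p) (hpP : p ≤ P) :
    ((Finset.Icc ⌊-P / p⌋ ⌊P / p⌋).card : ℝ) ≤ 4 * (P / p) := by
  rw [Int.card_Icc]
  have h1 : (1 : ℝ) ≤ P / p := by rw [le_div_iff₀ hp]; linarith
  have h2 : (⌊P / p⌋ : ℝ) ≤ P / p := Int.floor_le _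
  have h3 : -P / p - 1 < (⌊-P / p⌋ : ℝ) := Int.sub_one_lt_floor _
  have h4 : -P / p = -(P / p) := by ring
  have h5 : (0 : ℝ) ≤ ((⌊P / p⌋ + 1 - ⌊-P / p⌋ : ℤ) : ℝ) := by
    push_cast
    have : (⌊-P / p⌋ : ℝ) ≤ -P / p := Int.floor_le _
    have h6 : P / p - 1 < (⌊P / p⌋ : ℝ) := Int.sub_one_lt_floor _
    linarith
  have h6 : (0 : ℤ) ≤ ⌊P / p⌋ + 1 - ⌊-P / p⌋ := by exact_mod_cast h5
  have h7 : (((⌊P / p⌋ + 1 - ⌊-P / p⌋).toNat : ℕ) : ℝ) = ((⌊P / p⌋ + 1 - ⌊-P / p⌋ : ℤ) : ℝ) := by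
    have := Int.toNat_of_nonneg h6
    exact_mod_cast this
  rw [h7]
  push_cast
  linarith

theorem upn_mem1 (p P : ℝ) (hp : 0 < p) (x : ℤ) (hx : |(x : ℝ)| ≤ P) :
    ⌊(x : ℝ) / p⌋ ∈ Finset.Icc ⌊-P / p⌋ ⌊P / p⌋ := by
  rw [abs_le] at hx
  rw [Finset.mem_Icc]
  exact ⟨Int.floor_le_floor (div_le_div_of_nonneg_right hx.1 hp.le),
    Int.floor_le_floor (div_le_div_of_nonneg_right hx.2 hp.le)⟩

theorem upn_count (p q P Q : ℝ) (hp : 0 < p) (hq : 0 < q) (hpP : p ≤ P) (hqQ : q ≤ Q)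
    (S : Finset (ℤ × ℤ)) (hS : ∀ k ∈ S, |(k.1 : ℝ)| ≤ P ∧ |(k.2 : ℝ)| ≤ Q)
    (hinj : ∀ k ∈ S, ∀ l ∈ S, ⌊(k.1 : ℝ) / p⌋ = ⌊(l.1 : ℝ) / p⌋ →
      ⌊(k.2 : ℝ) / q⌋ = ⌊(l.2 : ℝ) / q⌋ → k = l) :
    (S.card : ℝ) ≤ 16 * (P * Q / (p * q)) := by
  have h1 : S.card ≤ ((Finset.Icc ⌊-P / p⌋ ⌊P / p⌋) ×ˢ (Finset.Icc ⌊-Q / q⌋ ⌊Q / q⌋)).card := by
    apply Finset.card_le_card_of_injOn (fun k : ℤ × ℤ => (⌊(k.1 : ℝ) / p⌋, ⌊(k.2 : ℝ) / q⌋))
    · intro k hk
      have := hS k hk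
      simp only [Finset.coe_product, Set.mem_prod, Finset.mem_coe]
      exact ⟨upn_mem1 p P hp k.1 this.1, upn_mem1 q Q hq k.2 this.2⟩
    · intro k hk l hl hkl
      simp only [Prod.mk.injEq] at hkl
      exact hinj k hk l hl hkl.1 hkl.2
  rw [Finset.card_product] at h1
  have h2 := upn_card1 p P hp hpP
  have h3 := upn_card1 q Q hq hqQ
  have h4 : (S.card : ℝ) ≤ ((Finset.Icc ⌊-P / p⌋ ⌊P / p⌋).card : ℝ) *
      ((Finset.Icc ⌊-Q / q⌋ ⌊Q / q⌋).card : ℝ) := by exact_mod_cast h1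
  have hP : 0 < P := lt_of_lt_of_le hp hpP
  have hQ : 0 < Q := lt_of_lt_of_le hq hqQ
  calc (S.card : ℝ) ≤ _ := h4
    _ ≤ (4 * (P / p)) * (4 * (Q / q)) := by
        apply mul_le_mul h2 h3 (by positivity) (by positivity)
    _ = 16 * (P * Q / (p * q)) := by field_simp; ring

theorem upn_floor (x y : ℤ) (p : ℝ) (hp : 0 < p) (h : ⌊(x : ℝ) / p⌋ = ⌊(y : ℝ) / p⌋) :
    |((x - y : ℤ) : ℝ)| < p := by
  have h1 := Int.abs_sub_lt_one_of_floor_eq_floor h
  rw [← sub_div, abs_div, abs_of_pos hp, div_lt_one hp] at h1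
  push_cast
  exact h1

theorem upn_dl (N g : ℕ) (k l : ℤ × ℤ) (hk : k ∈ dl N g) (hl : l ∈ dl N g) (hkl : k ≠ l) :
    k - l ∈ dl N g := by
  refine ⟨sub_ne_zero.mpr hkl, ?_⟩
  have := dvd_sub hk.2 hl.2
  have e : (k - l).1 + (g : ℤ) * (k - l).2 = (k.1 + g * k.2) - (l.1 + g * l.2) := by
    simp only [Prod.fst_sub, Prod.snd_sub]
    ring
  rw [e]
  exact this

theorem upn_kb_pos (k : ℤ) : 0 < kb k := lt_of_lt_of_le one_pos (le_max_left _ _)

theorem t_UPN : S_UPN := by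
  intro N g K hN hK hgood P Q S hP hQ hS
  have hN0 : (0 : ℝ) < N := by exact_mod_cast hN
  have hK0 : (0 : ℝ) < K := by linarith
  have hPQ : 0 < P * Q := by positivity
  have fin : 16 * (K * (P * Q / N)) ≤ 100 * K * (1 + P * Q / N) := by
    have : 0 ≤ P * Q / N := by positivity
    nlinarith [mul_nonneg hK0.le this]
  refine le_trans ?_ fin
  rcases S.eq_empty_or_nonempty with rfl | ⟨k0, hk0⟩
  · simp only [Finset.card_empty, Nat.cast_zero]
    positivity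
  have hNR : (N : ℝ) ≤ K * (P * Q) := by
    have h1 := hgood k0 (hS k0 hk0).1
    have h2 : kb k0.1 ≤ P := max_le hP (hS k0 hk0).2.1
    have h3 : kb k0.2 ≤ Q := max_le hQ (hS k0 hk0).2.2
    refine h1.trans (mul_le_mul_of_nonneg_left ?_ hK0.le)
    exact mul_le_mul h2 h3 (upn_kb_pos _).le (by linarith)
  by_cases hNK : (N : ℝ) ≤ K
  · have h1 := upn_count 1 1 P Q one_pos one_pos hP hQ S (fun k hk => (hS k hk).2) (by
      intro k _ l _ h1 h2
      simp only [div_one, Int.floor_intCast] at h1 h2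
      exact Prod.ext h1 h2)
    refine h1.trans ?_
    apply mul_le_mul_of_nonneg_left _ (by norm_num)
    rw [mul_one, div_one, ← mul_div_assoc, le_div_iff₀ hN0]
    nlinarith
  · push Not at hNK
    have hR : 1 < (N : ℝ) / K := by rw [lt_div_iff₀ hK0]; linarith
    have hRP : (N : ℝ) / K ≤ P * Q := by rw [div_le_iff₀ hK0]; linarith
    obtain ⟨p, q, hp, hq, hpP, hqQ, hpq⟩ : ∃ p q : ℝ, 1 ≤ p ∧ 1 ≤ q ∧ p ≤ P ∧ q ≤ Q ∧
        p * q = (N : ℝ) / K := by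
      by_cases h : P ≤ (N : ℝ) / K
      · refine ⟨P, (N : ℝ) / K / P, hP, ?_, le_refl _, ?_, ?_⟩
        · rw [le_div_iff₀ (by linarith)]; linarith
        · rw [div_le_iff₀ (by linarith)]; linarith
        · field_simp
      · push Not at h
        exact ⟨(N : ℝ) / K, 1, hR.le, le_refl _, h.le, hQ, mul_one _⟩
    have hp0 : 0 < p := by linarith
    have hq0 : 0 < q := by linarith
    have h1 := upn_count p q P Q hp0 hq0 hpP hqQ S (fun k hk => (hS k hk).2) (by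
      intro k hk l hl h1 h2
      by_contra hne
      have hd := upn_dl N g k l (hS k hk).1 (hS l hl).1 hne
      have h3 := upn_floor k.1 l.1 p hp0 h1
      have h4 := upn_floor k.2 l.2 q hq0 h2
      have h5 := hgood _ hd
      have h6 : kb (k - l).1 * kb (k - l).2 < p * q := by
        have a1 : kb (k - l).1 ≤ p := max_le hp h3.le
        have a2 : kb (k - l).2 ≤ q := max_le hq h4.le
        by_cases hp1 : 1 < p
        · have a3 : kb (k - l).1 < p := max_lt hp1 h3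
          exact mul_lt_mul a3 a2 (upn_kb_pos _) hp0.le
        · have hp2 : p = 1 := le_antisymm (not_lt.mp hp1) hp
          have hq1 : 1 < q := by
            rw [hp2, one_mul] at hpq
            rw [hpq]; exact hR
          have a3 : kb (k - l).2 < q := max_lt hq1 h4
          exact mul_lt_mul' a1 a3 (upn_kb_pos _).le hp0
      rw [hpq] at h6
      have h7 : K * (kb (k - l).1 * kb (k - l).2) < K * ((N : ℝ) / K) :=
        mul_lt_mul_of_pos_left h6 hK0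
      rw [mul_div_cancel₀ _ hK0.ne'] at h7
      linarith)
    rw [hpq] at h1
    refine h1.trans (le_of_eq ?_)
    field_simp

end

end Pool.Agent.H729R2.FO
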