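import Mathlib
import Pool.Agent.H729R2.FO.Stubs3

set_option autoImplicit false

namespace Pool.Agent.H729R2.FO

open MeasureTheory Pool.Agent.H729R2.CB Pool.Agent.Helper150.Cub

open scoped Classical

noncomputable section

/-- zero weights do not change the error function -/
lemma upp_err (r α : ℝ) (m N g : ℕ) (hNm : N ≤ m) (y : G × G) :
    errF r α (fun μ : Fin m => if (μ : ℕ) < N then (1 : ℝ) / N else 0)
      (fun μ : Fin m => (((ln N g μ).1 : G), ((ln N g μ).2 : G))) y =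
    errF r α (fun _ : Fin N => (1 : ℝ) / N)
      (fun μ : Fin N => (((ln N g μ).1 : G), ((ln N g μ).2 : G))) y := by
  unfold errF
  congr 1
  set T : ℕ → ℝ := fun μ => (FG r α ((((ln N g μ).1 : ℝ) : G) - y.1) * FG r α ((((ln N g μ).2 : ℝ) : G) - y.2)) with hT
  have e1 : ∑ μ : Fin m, (if (μ : ℕ) < N then (1 : ℝ) / N else 0) * T μ =
      ∑ k ∈ Finset.range m, (if k < N then (1 : ℝ) / N else 0) * T k :=
    Fin.sum_univ_eq_sum_range (fun k => (if k < N then (1 : ℝ) / N else 0) * T k) m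
  have e2 : ∑ μ : Fin N, ((1 : ℝ) / N) * T μ = ∑ k ∈ Finset.range N, ((1 : ℝ) / N) * T k :=
    Fin.sum_univ_eq_sum_range (fun k => ((1 : ℝ) / N) * T k) N
  show ∑ μ : Fin m, (if (μ : ℕ) < N then (1 : ℝ) / N else 0) * T μ = ∑ μ : Fin N, ((1 : ℝ) / N) * T μ
  rw [e1, e2]
  have hsub : Finset.range N ⊆ Finset.range m := Finset.range_subset_range.2 hNm
  rw [← Finset.sum_subset hsub]
  · refine Finset.sum_congr rfl fun k hk => ?_
    rw [if_pos (Finset.mem_range.1 hk)]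
  · intro k _ hk
    rw [if_neg (by simpa using hk), zero_mul]

theorem t_UPP (hA : S_UPA) (hB : S_UPB) (hC : S_UPC) (hD : S_UPD) : S_UPP := by
  intro 𝕜 _ r α hr
  obtain ⟨C, hC0, hCd⟩ := hD r 20 hr (by norm_num)
  refine ⟨C * 2 ^ r, by positivity, 2, fun m hm => ?_⟩
  obtain ⟨j, hj3, hj1, hj2⟩ : ∃ j, 3 ≤ j ∧ Nat.fib j ≤ m ∧ m < Nat.fib (j + 1) := by
    refine ⟨Nat.greatestFib m, ?_, Nat.fib_greatestFib_le m, Nat.lt_fib_greatestFib_add_one m⟩
    rw [Nat.le_greatestFib]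
    have h3 : Nat.fib 3 = 2 := rfl
    omega
  obtain ⟨n, rfl⟩ : ∃ n, j = n + 1 := ⟨j - 1, by omega⟩
  set N := Nat.fib (n + 1) with hN
  set g := Nat.fib n with hg
  have hN2 : 2 ≤ N := by
    have h3 : Nat.fib 3 ≤ Nat.fib (n + 1) := Nat.fib_mono hj3
    have h4 : Nat.fib 3 = 2 := rfl
    omega
  have hm2 : m < 2 * N := by
    have e : Nat.fib (n + 1 + 1) = Nat.fib n + Nat.fib (n + 1) := Nat.fib_add_two
    have : Nat.fib n ≤ Nat.fib (n + 1) := Nat.fib_mono (by omega)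
    omega
  have hgood : ∀ k ∈ dl N g, (N : ℝ) ≤ 20 * (kb k.1 * kb k.2) := fun k hk => hC n k (by omega) hk
  obtain ⟨-, hBe⟩ := hB r α hr N g (by omega)
  set B := ∑' k : ℤ × ℤ, (dl N g).indicator (fun k => kb k.1 ^ (-r) * kb k.2 ^ (-r)) k with hBdef
  have hB0 : 0 ≤ B := le_trans (abs_nonneg _) (hBe 0)
  have hBle : B ≤ C * ((N : ℝ) ^ (-r) * Real.log N) := hCd N g hN2 hgood
  refine le_trans (hA 𝕜 r α hr m (fun μ => if (μ : ℕ) < N then (1 : ℝ) / N else 0)
    (fun μ => ln N g μ) B hB0 (fun y => ?_)) ?_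
  · rw [upp_err r α m N g hj1 y]
    exact hBe y
  · apply ENNReal.ofReal_le_ofReal
    refine le_trans hBle ?_
    have hNR : (0 : ℝ) < N := by positivity
    have hmR : (0 : ℝ) < m := by
      have : 0 < m := by omega
      exact_mod_cast this
    have h1 : (m : ℝ) / 2 ≤ N := by
      have : (m : ℝ) < 2 * N := by exact_mod_cast hm2
      linarith
    have h2 : (N : ℝ) ^ (-r) ≤ ((m : ℝ) / 2) ^ (-r) :=
      Real.rpow_le_rpow_of_nonpos (by positivity) h1 (by linarith)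
    have h3 : ((m : ℝ) / 2) ^ (-r) = 2 ^ r * (m : ℝ) ^ (-r) := by
      rw [Real.div_rpow hmR.le (by norm_num), Real.rpow_neg (by norm_num : (0 : ℝ) ≤ 2)]
      field_simp
    have h4 : Real.log N ≤ Real.log m := Real.log_le_log hNR (by exact_mod_cast hj1)
    have h5 : 0 ≤ Real.log N := Real.log_nonneg (by exact_mod_cast (by omega : 1 ≤ N))
    have h6 : (N : ℝ) ^ (-r) * Real.log N ≤ (2 ^ r * (m : ℝ) ^ (-r)) * Real.log m := by
      rw [h3] at h2
      exact mul_le_mul h2 h4 h5 (by positivity)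
    calc C * ((N : ℝ) ^ (-r) * Real.log N) ≤ C * ((2 ^ r * (m : ℝ) ^ (-r)) * Real.log m) :=
          mul_le_mul_of_nonneg_left h6 hC0.le
      _ = C * 2 ^ r * ((m : ℝ) ^ (-r) * Real.log m) := by ring

end

end Pool.Agent.H729R2.FO
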